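import Mathlib

open MeasureTheory Set Filter Topology
open scoped ContDiff

namespace Pool.Agent.helper23_Euler

noncomputable section

/-- time derivative of a function of `(x, t)` -/
def dt (φ : ℝ × ℝ → ℝ) (z : ℝ × ℝ) : ℝ := fderiv ℝ φ z (0, 1)

/-- space derivative of a function of `(x, t)` -/
def dx (φ : ℝ × ℝ → ℝ) (z : ℝ × ℝ) : ℝ := fderiv ℝ φ z (1, 0)

/-- smooth compactly supported test functions on `ℝ × (-∞, T)` -/
structure IsTest (T : ℝ) (φ : ℝ × ℝ → ℝ) : Prop where
  smooth : ContDiff ℝ ∞ φ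
  cpt : HasCompactSupport φ
  supp : tsupport φ ⊆ {z | z.2 < T}

/-- the upper half plane `t > 0` -/
def up : Set (ℝ × ℝ) := {z | 0 < z.2}

/-- weak form of `A_t + B_x = 0`, `A(.,0) = A0` on `[0,T)` -/
def WeakEq (T : ℝ) (A B : ℝ × ℝ → ℝ) (A0 : ℝ → ℝ) : Prop :=
  ∀ φ, IsTest T φ →
    (∫ z in up, (A z * dt φ z + B z * dx φ z)) + ∫ x, A0 x * φ (x, 0) = 0

/-- weak form of `A_t + B_x ≥ 0`, `A(.,0) = A0` on `[0,T)` -/
def WeakLe (T : ℝ) (A B : ℝ × ℝ → ℝ) (A0 : ℝ → ℝ) : Prop :=
  ∀ φ, IsTest T φ → (∀ z, 0 ≤ φ z) →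
    (∫ z in up, (A z * dt φ z + B z * dx φ z)) + ∫ x, A0 x * φ (x, 0) ≤ 0

lemma measurableSet_up : MeasurableSet up := measurableSet_lt measurable_const measurable_snd

lemma isOpen_up : IsOpen up := isOpen_lt continuous_const continuous_snd

lemma integrable_of_bdd_cpt {X E : Type*} [NormedAddCommGroup E] [TopologicalSpace X] [T2Space X]
    [MeasurableSpace X] [OpensMeasurableSpace X] {μ : Measure X} [IsFiniteMeasureOnCompacts μ]
    {f : X → E} (hf : AEStronglyMeasurable f μ) {C : ℝ} (hC : ∀ z, ‖f z‖ ≤ C) {K : Set X}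
    (hK : IsCompact K) (h0 : ∀ z, z ∉ K → f z = 0) : Integrable f μ := by
  have h1 : IntegrableOn f K μ := by
    refine Measure.integrableOn_of_bounded (M := C) hK.measure_lt_top.ne hf ?_
    exact Filter.Eventually.of_forall hC
  refine (integrableOn_iff_integrable_of_support_subset ?_).1 h1
  intro z hz
  by_contra h
  exact hz (h0 z h)

section test

variable {T : ℝ} {φ : ℝ × ℝ → ℝ}

lemma IsTest.diff (h : IsTest T φ) : Differentiable ℝ φ :=
  h.smooth.differentiable (by simp)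

lemma IsTest.continuous (h : IsTest T φ) : Continuous φ := h.smooth.continuous

lemma continuous_dt (h : ContDiff ℝ ∞ φ) : Continuous (dt φ) :=
  (h.continuous_fderiv (by simp)).clm_apply continuous_const

lemma continuous_dx (h : ContDiff ℝ ∞ φ) : Continuous (dx φ) :=
  (h.continuous_fderiv (by simp)).clm_apply continuous_const

lemma contDiff_dt (h : ContDiff ℝ ∞ φ) : ContDiff ℝ ∞ (dt φ) :=
  (h.fderiv_right (m := ∞) (by simp)).clm_apply contDiff_const

lemma contDiff_dx (h : ContDiff ℝ ∞ φ) : ContDiff ℝ ∞ (dx φ) :=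
  (h.fderiv_right (m := ∞) (by simp)).clm_apply contDiff_const

lemma dt_eq_zero {z : ℝ × ℝ} (h : z ∉ tsupport φ) : dt φ z = 0 := by
  have : z ∉ tsupport (fderiv ℝ φ) := fun h' => h (tsupport_fderiv_subset ℝ h')
  simp [dt, image_eq_zero_of_notMem_tsupport this]

lemma dx_eq_zero {z : ℝ × ℝ} (h : z ∉ tsupport φ) : dx φ z = 0 := by
  have : z ∉ tsupport (fderiv ℝ φ) := fun h' => h (tsupport_fderiv_subset ℝ h')
  simp [dx, image_eq_zero_of_notMem_tsupport this]

lemma exists_bound_dt (h : ContDiff ℝ ∞ φ) (hc : HasCompactSupport φ) :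
    ∃ C, 0 ≤ C ∧ ∀ z, |dt φ z| ≤ C := by
  obtain ⟨C, hC⟩ := (hc.mono' (f' := dt φ) (fun z hz => by
    by_contra h'; exact hz (dt_eq_zero h'))).exists_bound_of_continuous (continuous_dt h)
  exact ⟨C, le_trans (norm_nonneg _) (hC 0), hC⟩

lemma exists_bound_dx (h : ContDiff ℝ ∞ φ) (hc : HasCompactSupport φ) :
    ∃ C, 0 ≤ C ∧ ∀ z, |dx φ z| ≤ C := by
  obtain ⟨C, hC⟩ := (hc.mono' (f' := dx φ) (fun z hz => by
    by_contra h'; exact hz (dx_eq_zero h'))).exists_bound_of_continuous (continuous_dx h)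
  exact ⟨C, le_trans (norm_nonneg _) (hC 0), hC⟩

lemma exists_bound_self (h : Continuous φ) (hc : HasCompactSupport φ) :
    ∃ C, 0 ≤ C ∧ ∀ z, |φ z| ≤ C := by
  obtain ⟨C, hC⟩ := hc.exists_bound_of_continuous h
  exact ⟨C, le_trans (norm_nonneg _) (hC 0), hC⟩

/-- slices of a test function in time -/
lemma hasDerivAt_slice_t (h : Differentiable ℝ φ) (x t : ℝ) :
    HasDerivAt (fun s => φ (x, s)) (dt φ (x, t)) t := by
  have h1 : HasFDerivAt φ (fderiv ℝ φ (x, t)) (x, t) := (h (x, t)).hasFDerivAt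
  have h2 : HasDerivAt (fun s : ℝ => ((x, s) : ℝ × ℝ)) ((0 : ℝ), (1 : ℝ)) t :=
    (hasDerivAt_const t x).prodMk (hasDerivAt_id t)
  exact h1.comp_hasDerivAt t h2

lemma hasDerivAt_slice_x (h : Differentiable ℝ φ) (x t : ℝ) :
    HasDerivAt (fun s => φ (s, t)) (dx φ (x, t)) x := by
  have h1 : HasFDerivAt φ (fderiv ℝ φ (x, t)) (x, t) := (h (x, t)).hasFDerivAt
  have h2 : HasDerivAt (fun s : ℝ => ((s, t) : ℝ × ℝ)) ((1 : ℝ), (0 : ℝ)) x :=
    (hasDerivAt_id x).prodMk (hasDerivAt_const x t)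
  exact h1.comp_hasDerivAt x h2

lemma HasCompactSupport.slice_t (hc : HasCompactSupport φ) (x : ℝ) :
    HasCompactSupport (fun s => φ (x, s)) := by
  refine HasCompactSupport.of_support_subset_isCompact (hc.isCompact.image continuous_snd) ?_
  intro s hs
  exact ⟨(x, s), subset_tsupport _ hs, rfl⟩

lemma HasCompactSupport.slice_x (hc : HasCompactSupport φ) (t : ℝ) :
    HasCompactSupport (fun s => φ (s, t)) := by
  refine HasCompactSupport.of_support_subset_isCompact (hc.isCompact.image continuous_fst) ?_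
  intro s hs
  exact ⟨(s, t), subset_tsupport _ hs, rfl⟩

end test

section integrals

variable {T : ℝ} {φ : ℝ × ℝ → ℝ}

lemma integrable_mul_dt {A : ℝ × ℝ → ℝ} (hA : Measurable A) {C : ℝ} (hC : ∀ z, |A z| ≤ C)
    (h : ContDiff ℝ ∞ φ) (hc : HasCompactSupport φ) : Integrable (fun z => A z * dt φ z) := by
  obtain ⟨D, hD0, hD⟩ := exists_bound_dt h hc
  have hC0 : 0 ≤ C := le_trans (abs_nonneg _) (hC 0)
  refine integrable_of_bdd_cpt (C := C * D)
    ((hA.mul (continuous_dt h).measurable).aestronglyMeasurable) ?_ hc.isCompact ?_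
  · intro z
    rw [Real.norm_eq_abs, abs_mul]
    exact mul_le_mul (hC z) (hD z) (abs_nonneg _) hC0
  · intro z hz
    rw [dt_eq_zero hz, mul_zero]

lemma integrable_mul_dx {A : ℝ × ℝ → ℝ} (hA : Measurable A) {C : ℝ} (hC : ∀ z, |A z| ≤ C)
    (h : ContDiff ℝ ∞ φ) (hc : HasCompactSupport φ) : Integrable (fun z => A z * dx φ z) := by
  obtain ⟨D, hD0, hD⟩ := exists_bound_dx h hc
  have hC0 : 0 ≤ C := le_trans (abs_nonneg _) (hC 0)
  refine integrable_of_bdd_cpt (C := C * D)
    ((hA.mul (continuous_dx h).measurable).aestronglyMeasurable) ?_ hc.isCompact ?_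
  · intro z
    rw [Real.norm_eq_abs, abs_mul]
    exact mul_le_mul (hC z) (hD z) (abs_nonneg _) hC0
  · intro z hz
    rw [dx_eq_zero hz, mul_zero]

lemma setIntegral_lower (A0 : ℝ → ℝ) (hA : Measurable A0) {C : ℝ} (hC : ∀ x, |A0 x| ≤ C)
    (h : ContDiff ℝ ∞ φ) (hc : HasCompactSupport φ) :
    ∫ z in upᶜ, A0 z.1 * dt φ z = ∫ x, A0 x * φ (x, 0) := by
  have hs : (upᶜ : Set (ℝ × ℝ)) = univ ×ˢ Iic 0 := by
    ext z; simp [up]
  have hint : Integrable (fun z : ℝ × ℝ => A0 z.1 * dt φ z) :=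
    integrable_mul_dt (hA.comp measurable_fst) (fun z => hC z.1) h hc
  rw [hs, Measure.volume_eq_prod, setIntegral_prod _ (by
    rw [← Measure.volume_eq_prod]; exact hint.integrableOn)]
  rw [Measure.restrict_univ]
  congr 1
  ext x
  simp only []
  rw [integral_const_mul]
  congr 1
  have h1 : ContDiff ℝ 1 (fun s => φ (x, s)) :=
    (h.comp (contDiff_const.prodMk contDiff_id)).of_le (by simp)
  have := HasCompactSupport.integral_Iic_deriv_eq h1 (HasCompactSupport.slice_t hc x) 0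
  rw [← this]
  congr 1
  ext s
  exact (hasDerivAt_slice_t (h.differentiable (by simp)) x s).deriv.symm

lemma setIntegral_up_dt (h : ContDiff ℝ ∞ φ) (hc : HasCompactSupport φ) :
    ∫ z in up, dt φ z = - ∫ x, φ (x, 0) := by
  have hs : (up : Set (ℝ × ℝ)) = univ ×ˢ Ioi 0 := by
    ext z; simp [up]
  have hint : Integrable (fun z : ℝ × ℝ => dt φ z) := by
    simpa using integrable_mul_dt (A := fun _ => 1) measurable_const (C := 1) (by simp) h hc
  rw [hs, Measure.volume_eq_prod, setIntegral_prod _ (by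
    rw [← Measure.volume_eq_prod]; exact hint.integrableOn)]
  rw [Measure.restrict_univ, ← integral_neg]
  congr 1
  ext x
  have h1 : ContDiff ℝ 1 (fun s => φ (x, s)) :=
    (h.comp (contDiff_const.prodMk contDiff_id)).of_le (by simp)
  have := HasCompactSupport.integral_Ioi_deriv_eq h1 (HasCompactSupport.slice_t hc x) 0
  rw [← this]
  congr 1
  ext s
  exact (hasDerivAt_slice_t (h.differentiable (by simp)) x s).deriv.symm

lemma setIntegral_up_dx (h : ContDiff ℝ ∞ φ) (hc : HasCompactSupport φ) :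
    ∫ z in up, dx φ z = 0 := by
  have hint : Integrable (fun z : ℝ × ℝ => dx φ z) := by
    simpa using integrable_mul_dx (A := fun _ => 1) measurable_const (C := 1) (by simp) h hc
  have hs : (up : Set (ℝ × ℝ)) = univ ×ˢ Ioi 0 := by
    ext z; simp [up]
  have hint' : Integrable (fun z : ℝ × ℝ => dx φ z)
      ((volume.restrict univ).prod (volume.restrict (Ioi (0 : ℝ)))) := by
    rw [Measure.prod_restrict, ← Measure.volume_eq_prod]
    exact hint.integrableOn
  rw [hs, Measure.volume_eq_prod, ← Measure.prod_restrict, integral_prod_symm _ hint']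
  rw [Measure.restrict_univ]
  have : ∀ t : ℝ, ∫ x, dx φ (x, t) = 0 := by
    intro t
    have h1 : ContDiff ℝ 1 (fun s => φ (s, t)) :=
      (h.comp (contDiff_id.prodMk contDiff_const)).of_le (by simp)
    have := integral_eq_zero_of_hasDerivAt_of_integrable
      (fun x => hasDerivAt_slice_x (h.differentiable (by simp)) x t) ?_ ?_
    · exact this
    · have hcont : Continuous (fun x : ℝ => dx φ (x, t)) :=
        (continuous_dx h).comp (continuous_id.prodMk continuous_const)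
      refine hcont.integrable_of_hasCompactSupport ?_
      refine HasCompactSupport.of_support_subset_isCompact
          ((hc.isCompact.image continuous_fst)) ?_
      intro x hx
      by_contra h'
      exact hx (dx_eq_zero (fun h'' => h' ⟨(x, t), h'', rfl⟩))
    · exact (h1.continuous).integrable_of_hasCompactSupport (HasCompactSupport.slice_x hc t)
  simp [this]

/-- extension to negative times by the initial datum -/
def ext (A : ℝ × ℝ → ℝ) (A0 : ℝ → ℝ) (z : ℝ × ℝ) : ℝ := by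
  classical exact if 0 < z.2 then A z else A0 z.1

lemma ext_of_pos {A : ℝ × ℝ → ℝ} {A0 : ℝ → ℝ} {z : ℝ × ℝ} (hz : 0 < z.2) :
    ext A A0 z = A z := by simp [ext, hz]

lemma ext_of_nonpos {A : ℝ × ℝ → ℝ} {A0 : ℝ → ℝ} {z : ℝ × ℝ} (hz : z.2 ≤ 0) :
    ext A A0 z = A0 z.1 := by simp [ext, not_lt.2 hz]

lemma measurable_ext {A : ℝ × ℝ → ℝ} {A0 : ℝ → ℝ} (hA : Measurable A) (hA0 : Measurable A0) :
    Measurable (ext A A0) := by
  unfold ext
  exact Measurable.ite measurableSet_up hA (hA0.comp measurable_fst)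

lemma ext_prop {A : ℝ × ℝ → ℝ} {A0 : ℝ → ℝ} {P : ℝ → Prop} (h : ∀ z, P (A z))
    (h0 : ∀ x, P (A0 x)) (z : ℝ × ℝ) : P (ext A A0 z) := by
  unfold ext
  split_ifs
  exacts [h z, h0 z.1]

lemma integral_ext {A B : ℝ × ℝ → ℝ} {A0 : ℝ → ℝ} (hA : Measurable A) (hB : Measurable B)
    (hA0 : Measurable A0) {C : ℝ} (hAC : ∀ z, |A z| ≤ C) (hBC : ∀ z, |B z| ≤ C)
    (hA0C : ∀ z, |A0 z| ≤ C) (h : WeakEq T A B A0) (hφ : IsTest T φ) :
    ∫ z, (ext A A0 z * dt φ z + ext B (fun _ => 0) z * dx φ z) = 0 := by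
  have hC : 0 ≤ C := le_trans (abs_nonneg _) (hAC 0)
  have i1 : Integrable (fun z => ext A A0 z * dt φ z) :=
    integrable_mul_dt (measurable_ext hA hA0) (C := C)
      (ext_prop (P := fun y => |y| ≤ C) hAC hA0C) hφ.smooth hφ.cpt
  have i2 : Integrable (fun z => ext B (fun _ => 0) z * dx φ z) :=
    integrable_mul_dx (measurable_ext hB measurable_const) (C := C)
      (ext_prop (P := fun y => |y| ≤ C) hBC (by simp [hC])) hφ.smooth hφ.cpt
  have i3 : Integrable (fun z => ext A A0 z * dt φ z + ext B (fun _ => 0) z * dx φ z) := i1.add i2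
  rw [← integral_add_compl measurableSet_up i3]
  have e1 : ∫ z in up, (ext A A0 z * dt φ z + ext B (fun _ => 0) z * dx φ z)
      = ∫ z in up, (A z * dt φ z + B z * dx φ z) := by
    refine setIntegral_congr_fun measurableSet_up ?_
    intro z hz
    have hz' : 0 < z.2 := hz
    simp only [ext_of_pos hz']
  have e2 : ∫ z in upᶜ, (ext A A0 z * dt φ z + ext B (fun _ => 0) z * dx φ z)
      = ∫ z in upᶜ, A0 z.1 * dt φ z := by
    refine setIntegral_congr_fun measurableSet_up.compl ?_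
    intro z hz
    have hz' : z.2 ≤ 0 := not_lt.1 hz
    simp only [ext_of_nonpos hz']
    ring
  rw [e1, e2, setIntegral_lower A0 hA0 hA0C hφ.smooth hφ.cpt]
  exact h φ hφ

end integrals

end

end Pool.Agent.helper23_Euler
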