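import Mathlib
import Pool.Agent.helper23_Euler.Basic

open MeasureTheory Set Filter Topology
open scoped ContDiff Convolution

namespace Pool.Agent.helper23_Euler

noncomputable section

/-- mollification -/
def mol (η : ContDiffBump (0 : ℝ × ℝ)) (f : ℝ × ℝ → ℝ) : ℝ × ℝ → ℝ :=
  (η.normed volume) ⋆[ContinuousLinearMap.lsmul ℝ ℝ, volume] f

section mol

variable {η : ContDiffBump (0 : ℝ × ℝ)} {f : ℝ × ℝ → ℝ}

lemma mol_apply (z : ℝ × ℝ) : mol η f z = ∫ w, η.normed volume (z - w) * f w := by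
  unfold mol
  rw [convolution_eq_swap]
  simp [ContinuousLinearMap.lsmul_apply]

lemma locInt_of_bdd (hf : Measurable f) {C : ℝ} (hC : ∀ z, |f z| ≤ C) :
    LocallyIntegrable f := by
  rw [locallyIntegrable_iff]
  intro K hK
  exact Measure.integrableOn_of_bounded (M := C) hK.measure_lt_top.ne hf.aestronglyMeasurable
    (Filter.Eventually.of_forall hC)

lemma contDiff_mol (hf : LocallyIntegrable f) : ContDiff ℝ ∞ (mol η f) := by
  have := HasCompactSupport.contDiff_convolution_left (ContinuousLinearMap.lsmul ℝ ℝ)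
    (μ := (volume : Measure (ℝ × ℝ))) (n := ⊤) η.hasCompactSupport_normed
    (η.contDiff_normed (μ := volume)) hf
  exact this

lemma mol_const (c : ℝ) (z : ℝ × ℝ) : mol η (fun _ => c) z = c := by
  rw [mol_apply, integral_mul_const]
  rw [integral_sub_left_eq_self (fun w => η.normed volume w) volume z]
  simp [η.integral_normed]

lemma integrable_mol_integrand (hf : Measurable f) {C : ℝ} (hC : ∀ z, |f z| ≤ C) (z : ℝ × ℝ) :
    Integrable (fun w => η.normed volume (z - w) * f w) := by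
  have h1 : Integrable (fun w => η.normed (volume : Measure (ℝ × ℝ)) (z - w)) :=
    (η.integrable_normed (μ := volume)).comp_sub_left z
  refine h1.mul_bdd (c := C) hf.aestronglyMeasurable (Filter.Eventually.of_forall hC)

lemma mol_mono_const (hf : Measurable f) {a b : ℝ} (h : ∀ z, a ≤ f z ∧ f z ≤ b) (z : ℝ × ℝ) :
    a ≤ mol η f z ∧ mol η f z ≤ b := by
  have hC : ∀ z, |f z| ≤ max |a| |b| := fun z => abs_le_max_abs_abs (h z).1 (h z).2
  have hi := integrable_mol_integrand (η := η) hf hC z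
  constructor
  · rw [← mol_const (η := η) a z, mol_apply, mol_apply]
    refine integral_mono (integrable_mol_integrand measurable_const (C := |a|) (by simp) z) hi ?_
    intro w
    exact mul_le_mul_of_nonneg_left (h w).1 (η.nonneg_normed _)
  · rw [← mol_const (η := η) b z, mol_apply, mol_apply]
    refine integral_mono hi (integrable_mol_integrand measurable_const (C := |b|) (by simp) z) ?_
    intro w
    exact mul_le_mul_of_nonneg_left (h w).2 (η.nonneg_normed _)

lemma fderiv_mol (hf : LocallyIntegrable f) (z v : ℝ × ℝ) :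
    fderiv ℝ (mol η f) z v = ∫ w, fderiv ℝ (η.normed volume) (z - w) v * f w := by
  have hs : ContDiff ℝ 1 (η.normed (volume : Measure (ℝ × ℝ))) := η.contDiff_normed (n := 1)
  have h := HasCompactSupport.hasFDerivAt_convolution_left (ContinuousLinearMap.lsmul ℝ ℝ)
    (μ := (volume : Measure (ℝ × ℝ))) η.hasCompactSupport_normed
    hs hf z
  have h2 : fderiv ℝ (mol η f) z = _ := h.fderiv
  rw [h2, convolution_eq_swap]
  rw [ContinuousLinearMap.integral_apply]
  · refine integral_congr_ae (Filter.Eventually.of_forall fun w => ?_)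
    simp [ContinuousLinearMap.precompL_apply]
  · have hc := (η.hasCompactSupport_normed (μ := (volume : Measure (ℝ × ℝ)))).fderiv ℝ
    have hcont : Continuous (fderiv ℝ (η.normed (volume : Measure (ℝ × ℝ)))) :=
      hs.continuous_fderiv (by simp)
    have := hc.convolutionExists_left ((ContinuousLinearMap.lsmul ℝ ℝ).precompL (ℝ × ℝ))
      (μ := (volume : Measure (ℝ × ℝ))) hcont hf z
    exact this.integrable_swap

/-- the mollifier as a test function -/
def ker (η : ContDiffBump (0 : ℝ × ℝ)) (z w : ℝ × ℝ) : ℝ := η.normed volume (z - w)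

lemma contDiff_normed_top : ContDiff ℝ ∞ (η.normed (volume : Measure (ℝ × ℝ))) :=
  η.contDiff_normed (n := ⊤)

lemma contDiff_ker (z : ℝ × ℝ) : ContDiff ℝ ∞ (ker η z) :=
  (contDiff_normed_top (η := η)).comp (contDiff_const.sub contDiff_id)

lemma tsupport_ker (z : ℝ × ℝ) : tsupport (ker η z) ⊆ Metric.closedBall z η.rOut := by
  refine closure_minimal ?_ Metric.isClosed_closedBall
  intro w hw
  have h1 : z - w ∈ Function.support (η.normed (volume : Measure (ℝ × ℝ))) := hw
  rw [η.support_normed_eq] at h1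
  rw [Metric.mem_closedBall, dist_comm, dist_eq_norm]
  have := Metric.mem_ball.1 h1
  rw [dist_zero_right] at this
  exact this.le

lemma isTest_ker {T : ℝ} (z : ℝ × ℝ) (hz : z.2 + η.rOut < T) : IsTest T (ker η z) where
  smooth := contDiff_ker z
  cpt := HasCompactSupport.of_support_subset_isCompact (isCompact_closedBall z η.rOut)
    (subset_trans (subset_tsupport _) (tsupport_ker z))
  supp := by
    intro w hw
    have h1 := tsupport_ker z hw
    rw [Metric.mem_closedBall, dist_eq_norm] at h1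
    have h2 : ‖(w - z).2‖ ≤ η.rOut := le_trans (norm_snd_le (w - z)) h1
    rw [Real.norm_eq_abs, Prod.snd_sub] at h2
    have := (abs_le.1 h2).2
    show w.2 < T
    linarith

lemma fderiv_ker (z w v : ℝ × ℝ) :
    fderiv ℝ (ker η z) w v = - fderiv ℝ (η.normed volume) (z - w) v := by
  have h1 : HasFDerivAt (η.normed (volume : Measure (ℝ × ℝ)))
      (fderiv ℝ (η.normed volume) (z - w)) (z - w) :=
    ((contDiff_normed_top (η := η)).differentiable (by simp) _).hasFDerivAt
  have h2 : HasFDerivAt (fun w : ℝ × ℝ => z - w) (-ContinuousLinearMap.id ℝ (ℝ × ℝ)) w :=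
    (hasFDerivAt_id w).const_sub z
  have h3 := h1.comp w h2
  have h4 : fderiv ℝ (ker η z) w = _ := h3.fderiv
  rw [h4]
  simp

lemma mol_div {T : ℝ} {A B : ℝ × ℝ → ℝ} {A0 : ℝ → ℝ} (hA : Measurable A) (hB : Measurable B)
    (hA0 : Measurable A0) {C : ℝ} (hAC : ∀ z, |A z| ≤ C) (hBC : ∀ z, |B z| ≤ C)
    (hA0C : ∀ z, |A0 z| ≤ C) (h : WeakEq T A B A0) (z : ℝ × ℝ) (hz : z.2 + η.rOut < T) :
    fderiv ℝ (mol η (ext A A0)) z (0, 1) + fderiv ℝ (mol η (ext B (fun _ => 0))) z (1, 0) = 0 := by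
  have hC : 0 ≤ C := le_trans (abs_nonneg _) (hAC 0)
  have hm1 := measurable_ext hA hA0
  have hm2 : Measurable (ext B (fun _ => 0)) := measurable_ext hB measurable_const
  have hb1 : ∀ z, |ext A A0 z| ≤ C := ext_prop (P := fun y => |y| ≤ C) hAC hA0C
  have hb2 : ∀ z, |ext B (fun _ => 0) z| ≤ C := ext_prop (P := fun y => |y| ≤ C) hBC (by simp [hC])
  rw [fderiv_mol (locInt_of_bdd hm1 hb1), fderiv_mol (locInt_of_bdd hm2 hb2)]
  have key := integral_ext hA hB hA0 hAC hBC hA0C h (isTest_ker (η := η) z hz)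
  have i1 := integrable_mul_dt hm1 hb1 (contDiff_ker (η := η) z) (isTest_ker (η := η) z hz).cpt
  have i2 := integrable_mul_dx hm2 hb2 (contDiff_ker (η := η) z) (isTest_ker (η := η) z hz).cpt
  rw [integral_add i1 i2] at key
  have e1 : ∫ w, fderiv ℝ (η.normed volume) (z - w) (0, 1) * ext A A0 w
      = - ∫ w, ext A A0 w * dt (ker η z) w := by
    rw [← integral_neg]
    congr 1
    ext w
    rw [dt, fderiv_ker]
    ring
  have e2 : ∫ w, fderiv ℝ (η.normed volume) (z - w) (1, 0) * ext B (fun _ => 0) w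
      = - ∫ w, ext B (fun _ => 0) w * dx (ker η z) w := by
    rw [← integral_neg]
    congr 1
    ext w
    rw [dx, fderiv_ker]
    ring
  rw [e1, e2]
  linarith

/-- the region on which the mollified balance laws hold -/
def region (T : ℝ) (η : ContDiffBump (0 : ℝ × ℝ)) : Set (ℝ × ℝ) := {z | z.2 + η.rOut < T}

lemma isOpen_region (T : ℝ) : IsOpen (region T η) :=
  isOpen_lt (continuous_snd.add continuous_const) continuous_const

lemma convex_region (T : ℝ) : Convex ℝ (region T η) := by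
  have : region T η = (LinearMap.snd ℝ ℝ ℝ) ⁻¹' (Iio (T - η.rOut)) := by
    ext z; simp [region, lt_sub_iff_add_lt]
  rw [this]
  exact (convex_Iio _).linear_preimage _

/-- the closed form `R dx - M dt` -/
def form (P Q : ℝ × ℝ → ℝ) (z : ℝ × ℝ) : ℝ × ℝ →L[ℝ] ℝ :=
  P z • ContinuousLinearMap.fst ℝ ℝ ℝ - Q z • ContinuousLinearMap.snd ℝ ℝ ℝ

lemma form_apply (P Q : ℝ × ℝ → ℝ) (z v : ℝ × ℝ) : form P Q z v = P z * v.1 - Q z * v.2 := by
  simp [form]

lemma contDiff_form {P Q : ℝ × ℝ → ℝ} (hP : ContDiff ℝ ∞ P) (hQ : ContDiff ℝ ∞ Q) :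
    ContDiff ℝ ∞ (form P Q) :=
  (hP.smul contDiff_const).sub (hQ.smul contDiff_const)

lemma fderiv_form {P Q : ℝ × ℝ → ℝ} (hP : ContDiff ℝ ∞ P) (hQ : ContDiff ℝ ∞ Q)
    (z v w : ℝ × ℝ) :
    fderiv ℝ (form P Q) z v w = fderiv ℝ P z v * w.1 - fderiv ℝ Q z v * w.2 := by
  have hP' : HasFDerivAt P (fderiv ℝ P z) z := (hP.differentiable (by simp) z).hasFDerivAt
  have hQ' : HasFDerivAt Q (fderiv ℝ Q z) z := (hQ.differentiable (by simp) z).hasFDerivAt
  have h1 := (hP'.smul_const (ContinuousLinearMap.fst ℝ ℝ ℝ)).sub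
    (hQ'.smul_const (ContinuousLinearMap.snd ℝ ℝ ℝ))
  have h2 : fderiv ℝ (form P Q) z = _ := h1.fderiv
  rw [h2]
  simp

theorem exists_label {T : ℝ} {P Q : ℝ × ℝ → ℝ} (hP : ContDiff ℝ ∞ P) (hQ : ContDiff ℝ ∞ Q)
    (hdiv : ∀ z ∈ region T η, fderiv ℝ P z (0, 1) + fderiv ℝ Q z (1, 0) = 0) :
    ∃ ψ : ℝ × ℝ → ℝ, (∀ z ∈ region T η, HasFDerivAt ψ (form P Q z) z) ∧ ψ (0, 0) = 0 ∧
      ContDiffOn ℝ ∞ ψ (region T η) := by
  have hform := contDiff_form hP hQ
  obtain ⟨ψ, hψ⟩ := (convex_region (η := η) T).exists_forall_hasFDerivAt_of_fderiv_symmetric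
    (isOpen_region (η := η) T)
    (hform.differentiable (by simp)).differentiableOn (by
      intro z hz v w
      rw [fderiv_form hP hQ, fderiv_form hP hQ]
      have h := hdiv z hz
      have ev : ∀ (L : ℝ × ℝ →L[ℝ] ℝ) (v : ℝ × ℝ), L v = v.1 * L (1, 0) + v.2 * L (0, 1) := by
        intro L v
        have : v = v.1 • ((1 : ℝ), (0 : ℝ)) + v.2 • ((0 : ℝ), (1 : ℝ)) := by
          ext <;> simp
        conv_lhs => rw [this]
        rw [map_add, map_smul, map_smul]
        simp
      rw [ev (fderiv ℝ P z) v, ev (fderiv ℝ P z) w, ev (fderiv ℝ Q z) v, ev (fderiv ℝ Q z) w]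
      linear_combination (v.2 * w.1 - v.1 * w.2) * h)
  refine ⟨fun z => ψ z - ψ (0, 0), ?_, by simp, ?_⟩
  · intro z hz
    exact (hψ z hz).sub_const _
  · have hd : ∀ z ∈ region T η, fderiv ℝ (fun z => ψ z - ψ (0, 0)) z = form P Q z := by
      intro z hz
      exact ((hψ z hz).sub_const _).fderiv
    rw [contDiffOn_infty_iff_fderiv_of_isOpen (isOpen_region (η := η) T)]
    refine ⟨fun z hz => ((hψ z hz).sub_const _).differentiableAt.differentiableWithinAt, ?_⟩
    exact hform.contDiffOn.congr hd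

end mol

end

end Pool.Agent.helper23_Euler
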