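import Mathlib
import Pool.Agent.helper23_Euler.Label

open MeasureTheory Set Filter Topology
open scoped ContDiff Convolution

namespace Pool.Agent.helper23_Euler

noncomputable section

/-- bounds on density, velocity and pressure -/
structure Bds where
  ra : ℝ
  rb : ℝ
  ub : ℝ
  pa : ℝ
  pb : ℝ
  ra_pos : 0 < ra
  pa_pos : 0 < pa
  rab : ra ≤ rb
  pab : pa ≤ pb
  ub_nonneg : 0 ≤ ub

/-- a state `(r,u,p)` within the bounds -/
def Bds.In (B : Bds) (r u p : ℝ) : Prop :=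
  (B.ra ≤ r ∧ r ≤ B.rb) ∧ |u| ≤ B.ub ∧ (B.pa ≤ p ∧ p ≤ B.pb)

/-- specific internal energy -/
def en (γ r p : ℝ) : ℝ := p / ((γ - 1) * r)

/-- specific total energy -/
def te (γ r u p : ℝ) : ℝ := u ^ 2 / 2 + en γ r p

/-- specific entropy, with heat capacity normalised to one -/
def sp (γ r p : ℝ) : ℝ := Real.log p - γ * Real.log r

/-- bounded entropy weak solutions in the variables `(r,u,p)` on `[0,T)` -/
structure Sol (γ T : ℝ) (B : Bds) (r u p : ℝ × ℝ → ℝ) (r0 u0 p0 : ℝ → ℝ) : Prop where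
  mr : Measurable r
  mu : Measurable u
  mp : Measurable p
  mr0 : Measurable r0
  mu0 : Measurable u0
  mp0 : Measurable p0
  box : ∀ z, B.In (r z) (u z) (p z)
  box0 : ∀ x, B.In (r0 x) (u0 x) (p0 x)
  mass : WeakEq T r (fun z => r z * u z) r0
  momentum : WeakEq T (fun z => r z * u z) (fun z => r z * u z ^ 2 + p z) (fun x => r0 x * u0 x)
  energy : WeakEq T (fun z => r z * te γ (r z) (u z) (p z))
    (fun z => (r z * te γ (r z) (u z) (p z) + p z) * u z)
    (fun x => r0 x * te γ (r0 x) (u0 x) (p0 x))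
  entropy : WeakLe T (fun z => r z * sp γ (r z) (p z))
    (fun z => r z * u z * sp γ (r z) (p z)) (fun x => r0 x * sp γ (r0 x) (p0 x))

/-- the label function attached to a mollifier -/
structure Lab (T : ℝ) (B : Bds) (η : ContDiffBump (0 : ℝ × ℝ)) (P Q ψ : ℝ × ℝ → ℝ) : Prop where
  smP : ContDiff ℝ ∞ P
  smQ : ContDiff ℝ ∞ Q
  bP : ∀ z, B.ra ≤ P z ∧ P z ≤ B.rb
  bQ : ∀ z, |Q z| ≤ B.rb * B.ub
  hd : ∀ z ∈ region T η, HasFDerivAt ψ (form P Q z) z
  h0 : ψ (0, 0) = 0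
  sm : ContDiffOn ℝ ∞ ψ (region T η)
  posT : η.rOut < T
  meas : Measurable ψ
  flat : ∀ z, z.2 ≤ - η.rOut → Q z = 0

section lab

variable {T : ℝ} {B : Bds} {η : ContDiffBump (0 : ℝ × ℝ)} {P Q ψ : ℝ × ℝ → ℝ}

lemma Lab.mem0 (h : Lab T B η P Q ψ) (x : ℝ) : (x, (0 : ℝ)) ∈ region T η := by
  have := h.posT
  show (0 : ℝ) + η.rOut < T
  linarith

lemma Lab.flat_eq (h : Lab T B η P Q ψ) (x : ℝ) {t : ℝ} (ht : t ≤ - η.rOut) :
    ψ (x, t) = ψ (x, - η.rOut) := by
  have hpos := η.rOut_pos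
  have hT := h.posT
  have h1 : ∀ s ∈ Iic (-η.rOut), HasDerivWithinAt (fun s => ψ (x, s)) 0 (Iic (-η.rOut)) s := by
    intro s hs
    have hs' : s ≤ -η.rOut := hs
    have hz : (x, s) ∈ region T η := by
      show s + η.rOut < T
      linarith
    have h2 : HasDerivAt (fun s => ψ (x, s)) (- Q (x, s)) s := by
      have h1 := h.hd _ hz
      have h2 : HasDerivAt (fun s : ℝ => ((x, s) : ℝ × ℝ)) ((0 : ℝ), (1 : ℝ)) s :=
        (hasDerivAt_const s x).prodMk (hasDerivAt_id s)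
      have h3 := h1.comp_hasDerivAt s h2
      have h4 : form P Q (x, s) ((0 : ℝ), (1 : ℝ)) = - Q (x, s) := by simp [form_apply]
      rw [h4] at h3
      exact h3
    rw [h.flat (x, s) hs', neg_zero] at h2
    exact h2.hasDerivWithinAt
  have h3 := (convex_Iic (-η.rOut)).norm_image_sub_le_of_norm_hasDerivWithin_le
    (f := fun s => ψ (x, s)) (f' := fun _ => 0) (C := 0) h1 (by simp)
    (show -η.rOut ∈ Iic (-η.rOut) from le_refl (-η.rOut)) (show t ∈ Iic (-η.rOut) from ht)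
  simp only [zero_mul] at h3
  have h4 := norm_le_zero_iff.1 h3
  linarith

lemma Bds.rb_pos (B : Bds) : 0 < B.rb := lt_of_lt_of_le B.ra_pos B.rab

/-- Lipschitz constant of labels -/
def Bds.L (B : Bds) : ℝ := B.rb + B.rb * B.ub

lemma Bds.L_nonneg (B : Bds) : 0 ≤ B.L :=
  add_nonneg B.rb_pos.le (mul_nonneg B.rb_pos.le B.ub_nonneg)

lemma Lab.norm_form (h : Lab T B η P Q ψ) (z : ℝ × ℝ) : ‖form P Q z‖ ≤ B.L := by
  refine ContinuousLinearMap.opNorm_le_bound _ B.L_nonneg ?_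
  intro v
  rw [form_apply, Real.norm_eq_abs]
  have h1 : |v.1| ≤ ‖v‖ := norm_fst_le v
  have h2 : |v.2| ≤ ‖v‖ := norm_snd_le v
  have h3 : |P z| ≤ B.rb := abs_le.2 ⟨by linarith [(h.bP z).1, B.ra_pos, B.rb_pos], (h.bP z).2⟩
  calc |P z * v.1 - Q z * v.2| ≤ |P z * v.1| + |Q z * v.2| := abs_sub _ _
    _ = |P z| * |v.1| + |Q z| * |v.2| := by rw [abs_mul, abs_mul]
    _ ≤ B.rb * ‖v‖ + (B.rb * B.ub) * ‖v‖ := by
        gcongr
        · exact B.rb_pos.le
        · exact mul_nonneg B.rb_pos.le B.ub_nonneg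
        · exact h.bQ z
    _ = B.L * ‖v‖ := by rw [Bds.L]; ring

lemma Lab.lip (h : Lab T B η P Q ψ) {z w : ℝ × ℝ} (hz : z ∈ region T η) (hw : w ∈ region T η) :
    |ψ w - ψ z| ≤ B.L * ‖w - z‖ := by
  have := (convex_region (η := η) T).norm_image_sub_le_of_norm_hasFDerivWithin_le
    (f := ψ) (f' := form P Q) (C := B.L) (fun x hx => (h.hd x hx).hasFDerivWithinAt)
    (fun x _ => h.norm_form x) hz hw
  simpa using this

lemma Lab.hasDerivAt_x (h : Lab T B η P Q ψ) {x t : ℝ} (hz : (x, t) ∈ region T η) :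
    HasDerivAt (fun s => ψ (s, t)) (P (x, t)) x := by
  have h1 := h.hd _ hz
  have h2 : HasDerivAt (fun s : ℝ => ((s, t) : ℝ × ℝ)) ((1 : ℝ), (0 : ℝ)) x :=
    (hasDerivAt_id x).prodMk (hasDerivAt_const x t)
  have h3 := h1.comp_hasDerivAt x h2
  have h4 : form P Q (x, t) ((1 : ℝ), (0 : ℝ)) = P (x, t) := by simp [form_apply]
  rw [h4] at h3
  exact h3

lemma Lab.hasDerivAt_t (h : Lab T B η P Q ψ) {x t : ℝ} (hz : (x, t) ∈ region T η) :
    HasDerivAt (fun s => ψ (x, s)) (- Q (x, t)) t := by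
  have h1 := h.hd _ hz
  have h2 : HasDerivAt (fun s : ℝ => ((x, s) : ℝ × ℝ)) ((0 : ℝ), (1 : ℝ)) t :=
    (hasDerivAt_const t x).prodMk (hasDerivAt_id t)
  have h3 := h1.comp_hasDerivAt t h2
  have h4 : form P Q (x, t) ((0 : ℝ), (1 : ℝ)) = - Q (x, t) := by simp [form_apply]
  rw [h4] at h3
  exact h3

lemma Lab.diff_x (h : Lab T B η P Q ψ) {t : ℝ} (ht : t + η.rOut < T) :
    Differentiable ℝ (fun s => ψ (s, t)) := fun x => (h.hasDerivAt_x (x := x) ht).differentiableAt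

lemma Lab.deriv_x (h : Lab T B η P Q ψ) {t : ℝ} (ht : t + η.rOut < T) (x : ℝ) :
    deriv (fun s => ψ (s, t)) x = P (x, t) := (h.hasDerivAt_x (x := x) ht).deriv

lemma Lab.lower (h : Lab T B η P Q ψ) {t : ℝ} (ht : t + η.rOut < T) {x y : ℝ} (hxy : x ≤ y) :
    B.ra * (y - x) ≤ ψ (y, t) - ψ (x, t) :=
  mul_sub_le_image_sub_of_le_deriv (h.diff_x ht)
    (fun s => by rw [h.deriv_x ht]; exact (h.bP _).1) hxy

lemma Lab.strictMono (h : Lab T B η P Q ψ) {t : ℝ} (ht : t + η.rOut < T) :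
    StrictMono (fun s => ψ (s, t)) := by
  intro x y hxy
  have := h.lower ht hxy.le
  have h2 : 0 < B.ra * (y - x) := mul_pos B.ra_pos (sub_pos.2 hxy)
  show ψ (x, t) < ψ (y, t)
  linarith

lemma Lab.abs_lower (h : Lab T B η P Q ψ) {t : ℝ} (ht : t + η.rOut < T) (x : ℝ) :
    B.ra * |x| ≤ |ψ (x, t) - ψ (0, t)| := by
  rcases le_total 0 x with hx | hx
  · have := h.lower ht hx
    rw [abs_of_nonneg hx]
    refine le_trans ?_ (le_abs_self _)
    simpa using this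
  · have := h.lower ht hx
    rw [abs_of_nonpos hx]
    refine le_trans ?_ (neg_le_abs _)
    have : B.ra * -x ≤ ψ (0, t) - ψ (x, t) := by simpa using this
    linarith

lemma Lab.tendsto_atTop (h : Lab T B η P Q ψ) {t : ℝ} (ht : t + η.rOut < T) :
    Tendsto (fun s => ψ (s, t)) atTop atTop := by
  have h1 : Tendsto (fun s : ℝ => B.ra * s + ψ (0, t)) atTop atTop :=
    tendsto_atTop_add_const_right _ _ (tendsto_id.const_mul_atTop B.ra_pos)
  refine tendsto_atTop_mono' _ ?_ h1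
  filter_upwards [eventually_ge_atTop 0] with s hs
  have := h.lower ht hs
  simp only [sub_zero] at this
  linarith

lemma Lab.tendsto_atBot (h : Lab T B η P Q ψ) {t : ℝ} (ht : t + η.rOut < T) :
    Tendsto (fun s => ψ (s, t)) atBot atBot := by
  have h1 : Tendsto (fun s : ℝ => B.ra * s + ψ (0, t)) atBot atBot :=
    tendsto_atBot_add_const_right _ _ (tendsto_id.const_mul_atBot B.ra_pos)
  refine tendsto_atBot_mono' _ ?_ h1
  filter_upwards [eventually_le_atBot 0] with s hs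
  have := h.lower ht hs
  simp only [zero_sub, mul_neg] at this
  linarith

lemma Lab.surj (h : Lab T B η P Q ψ) {t : ℝ} (ht : t + η.rOut < T) :
    Function.Surjective (fun s => ψ (s, t)) :=
  (h.diff_x ht).continuous.surjective (h.tendsto_atTop ht) (h.tendsto_atBot ht)

lemma Lab.near_init (h : Lab T B η P Q ψ) (x : ℝ) {t : ℝ} (ht : t ≤ - η.rOut) :
    |ψ (x, 0) - ψ (x, t)| ≤ B.L * η.rOut := by
  have hpos := η.rOut_pos
  have hT := h.posT
  rw [h.flat_eq x ht]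
  have hz : (x, -η.rOut) ∈ region T η := by
    show -η.rOut + η.rOut < T
    linarith
  have h1 := h.lip hz (h.mem0 x)
  have h2 : ‖((x, (0 : ℝ)) : ℝ × ℝ) - (x, -η.rOut)‖ = η.rOut := by
    simp [Prod.norm_def, abs_of_pos hpos, hpos.le]
  rwa [h2] at h1

lemma Lab.integral_x (h : Lab T B η P Q ψ) {t : ℝ} (ht : t + η.rOut < T) (x : ℝ) :
    ∫ s in (0 : ℝ)..x, P (s, t) = ψ (x, t) - ψ (0, t) := by
  refine intervalIntegral.integral_eq_sub_of_hasDerivAt (f := fun s => ψ (s, t))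
    (fun s _ => h.hasDerivAt_x (x := s) ht) ?_
  refine Continuous.intervalIntegrable ?_ _ _
  exact h.smP.continuous.comp (continuous_id.prodMk continuous_const)

/-- change of variables to labels -/
lemma Lab.change (h : Lab T B η P Q ψ) {t : ℝ} (ht : t + η.rOut < T) (g : ℝ → ℝ) :
    ∫ x, P (x, t) * g (ψ (x, t)) = ∫ y, g y := by
  have := integral_image_eq_integral_abs_deriv_smul (s := univ) (f := fun s => ψ (s, t))
    (f' := fun s => P (s, t)) MeasurableSet.univ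
    (fun x _ => (h.hasDerivAt_x (x := x) ht).hasDerivWithinAt)
    (h.strictMono ht).injective.injOn g
  rw [image_univ, (h.surj ht).range_eq, setIntegral_univ, setIntegral_univ] at this
  rw [this]
  refine integral_congr_ae (Filter.Eventually.of_forall fun x => ?_)
  have hP : 0 < P (x, t) := lt_of_lt_of_le B.ra_pos (h.bP _).1
  simp [abs_of_pos hP]

/-- radius of a region of the physical plane containing all points with labels in a ball -/
def Bds.rad (B : Bds) (X : ℝ) : ℝ := X + X * (1 + B.L) / B.ra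

lemma Lab.norm_le (h : Lab T B η P Q ψ) {z : ℝ × ℝ} (hz : z ∈ region T η) {X : ℝ}
    (hX : ‖(ψ z, z.2)‖ ≤ X) : ‖z‖ ≤ B.rad X := by
  have hX0 : 0 ≤ X := le_trans (norm_nonneg _) hX
  have h1 : |ψ z| ≤ X := le_trans (norm_fst_le (ψ z, z.2)) hX
  have h2 : |z.2| ≤ X := le_trans (norm_snd_le (ψ z, z.2)) hX
  have h3 : ((0 : ℝ), z.2) ∈ region T η := hz
  have h4 := h.lip (h.mem0 0) h3
  rw [h.h0, sub_zero] at h4
  have h5 : ‖((0 : ℝ), z.2) - ((0 : ℝ), (0 : ℝ))‖ = |z.2| := by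
    simp [Prod.norm_def]
  rw [h5] at h4
  have h6 := h.abs_lower (t := z.2) hz z.1
  have h7 : |ψ z - ψ (0, z.2)| ≤ |ψ z| + |ψ (0, z.2)| := abs_sub _ _
  have h8 : B.L * |z.2| ≤ B.L * X := mul_le_mul_of_nonneg_left h2 B.L_nonneg
  have h9 : |z.1| ≤ X * (1 + B.L) / B.ra := by
    rw [le_div_iff₀ B.ra_pos]
    have : B.ra * |z.1| ≤ |ψ z - ψ (0, z.2)| := h6
    nlinarith
  have hnn : 0 ≤ X * (1 + B.L) / B.ra := le_trans (abs_nonneg _) h9
  rw [Prod.norm_def, Real.norm_eq_abs, Real.norm_eq_abs, Bds.rad]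
  exact max_le (by linarith) (by linarith)

open Classical in
/-- pull-back of a test function from label space -/
def pull (T : ℝ) (η : ContDiffBump (0 : ℝ × ℝ)) (ψ Φ : ℝ × ℝ → ℝ) (z : ℝ × ℝ) : ℝ :=
  if z ∈ region T η then Φ (ψ z, z.2) else 0

lemma pull_of_mem {Φ : ℝ × ℝ → ℝ} {z : ℝ × ℝ} (hz : z ∈ region T η) :
    pull T η ψ Φ z = Φ (ψ z, z.2) := by simp [pull, hz]

lemma pull_of_notMem {Φ : ℝ × ℝ → ℝ} {z : ℝ × ℝ} (hz : z ∉ region T η) :
    pull T η ψ Φ z = 0 := by simp [pull, hz]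

variable {T' : ℝ} {Φ : ℝ × ℝ → ℝ}

lemma pull_nonneg (hΦ : ∀ z, 0 ≤ Φ z) (z : ℝ × ℝ) : 0 ≤ pull T η ψ Φ z := by
  unfold pull
  split_ifs
  · exact hΦ _
  · exact le_rfl

lemma IsTest.eq_zero_of_le (hΦ : IsTest T' Φ) {z : ℝ × ℝ} (hz : T' ≤ z.2) : z ∉ tsupport Φ := by
  intro h
  have := hΦ.supp h
  exact absurd this (not_lt.2 hz)

lemma pull_eventually_zero (hΦ : IsTest T' Φ) (hT : T' + η.rOut < T) {z : ℝ × ℝ}
    (hz : z ∉ region T η) : pull T η ψ Φ =ᶠ[𝓝 z] fun _ => 0 := by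
  have h1 : T' < z.2 := by
    have : T ≤ z.2 + η.rOut := not_lt.1 hz
    linarith
  have h2 : ∀ᶠ w : ℝ × ℝ in 𝓝 z, T' < w.2 :=
    (isOpen_lt continuous_const continuous_snd).mem_nhds h1
  filter_upwards [h2] with w hw
  unfold pull
  split_ifs
  · exact image_eq_zero_of_notMem_tsupport (hΦ.eq_zero_of_le (z := (ψ w, w.2)) hw.le)
  · rfl

lemma pull_eventually_eq {z : ℝ × ℝ} (hz : z ∈ region T η) :
    pull T η ψ Φ =ᶠ[𝓝 z] fun w => Φ (ψ w, w.2) := by
  filter_upwards [(isOpen_region (η := η) T).mem_nhds hz] with w hw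
  exact pull_of_mem hw

lemma Lab.hasFDerivAt_pull (h : Lab T B η P Q ψ) (hΦ : Differentiable ℝ Φ) {z : ℝ × ℝ}
    (hz : z ∈ region T η) :
    HasFDerivAt (pull T η ψ Φ)
      ((fderiv ℝ Φ (ψ z, z.2)).comp ((form P Q z).prod (ContinuousLinearMap.snd ℝ ℝ ℝ))) z := by
  have h1 : HasFDerivAt (fun w : ℝ × ℝ => (ψ w, w.2))
      ((form P Q z).prod (ContinuousLinearMap.snd ℝ ℝ ℝ)) z :=
    (h.hd z hz).prodMk hasFDerivAt_snd
  have h2 : HasFDerivAt Φ (fderiv ℝ Φ (ψ z, z.2)) (ψ z, z.2) := (hΦ _).hasFDerivAt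
  exact (h2.comp z h1).congr_of_eventuallyEq (pull_eventually_eq hz)

lemma Lab.dt_pull (h : Lab T B η P Q ψ) (hΦ : IsTest T' Φ) (hT : T' + η.rOut < T) (z : ℝ × ℝ) :
    dt (pull T η ψ Φ) z = dt Φ (ψ z, z.2) - Q z * dx Φ (ψ z, z.2) := by
  by_cases hz : z ∈ region T η
  · rw [dt, (h.hasFDerivAt_pull hΦ.diff hz).fderiv]
    have : ((-Q z, (1 : ℝ)) : ℝ × ℝ) = (0, 1) + (-Q z) • (1, 0) := by ext <;> simp
    simp only [ContinuousLinearMap.comp_apply, ContinuousLinearMap.prod_apply, form_apply,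
      ContinuousLinearMap.coe_snd', mul_zero, mul_one, zero_sub]
    rw [this, map_add, map_smul]
    simp [dt, dx, sub_eq_add_neg]
  · have h1 : T' ≤ z.2 := by
      have : T ≤ z.2 + η.rOut := not_lt.1 hz
      linarith
    rw [dt_eq_zero (hΦ.eq_zero_of_le (z := (ψ z, z.2)) h1),
      dx_eq_zero (hΦ.eq_zero_of_le (z := (ψ z, z.2)) h1)]
    rw [dt, (pull_eventually_zero hΦ hT hz).fderiv_eq]
    simp

lemma Lab.dx_pull (h : Lab T B η P Q ψ) (hΦ : IsTest T' Φ) (hT : T' + η.rOut < T) (z : ℝ × ℝ) :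
    dx (pull T η ψ Φ) z = P z * dx Φ (ψ z, z.2) := by
  by_cases hz : z ∈ region T η
  · rw [dx, (h.hasFDerivAt_pull hΦ.diff hz).fderiv]
    have : ((P z, (0 : ℝ)) : ℝ × ℝ) = (P z) • (1, 0) := by ext <;> simp
    simp only [ContinuousLinearMap.comp_apply, ContinuousLinearMap.prod_apply, form_apply,
      ContinuousLinearMap.coe_snd', mul_zero, mul_one, sub_zero]
    rw [this, map_smul]
    simp [dx]
  · have h1 : T' ≤ z.2 := by
      have : T ≤ z.2 + η.rOut := not_lt.1 hz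
      linarith
    rw [dx_eq_zero (hΦ.eq_zero_of_le (z := (ψ z, z.2)) h1)]
    rw [dx, (pull_eventually_zero hΦ hT hz).fderiv_eq]
    simp

lemma Lab.support_pull (h : Lab T B η P Q ψ) {X : ℝ}
    (hX : tsupport Φ ⊆ Metric.closedBall 0 X) :
    Function.support (pull T η ψ Φ) ⊆ Metric.closedBall 0 (B.rad X) := by
  intro z hz
  have hz' : z ∈ region T η := by
    by_contra h'
    exact hz (pull_of_notMem h')
  have h1 : Φ (ψ z, z.2) ≠ 0 := by
    have h0 : pull T η ψ Φ z = Φ (ψ z, z.2) := pull_of_mem hz'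
    rw [← h0]; exact hz
  have h2 := hX (subset_tsupport _ h1)
  rw [mem_closedBall_zero_iff] at h2 ⊢
  exact h.norm_le hz' h2

lemma Lab.isTest_pull (h : Lab T B η P Q ψ) (hΦ : IsTest T' Φ) (hT : T' + η.rOut < T) :
    IsTest T (pull T η ψ Φ) where
  smooth := by
    rw [contDiff_iff_contDiffAt]
    intro z
    by_cases hz : z ∈ region T η
    · have h1 : ContDiffAt ℝ ∞ ψ z := (h.sm z hz).contDiffAt ((isOpen_region T).mem_nhds hz)
      have h2 : ContDiffAt ℝ ∞ (fun w : ℝ × ℝ => (ψ w, w.2)) z := h1.prodMk contDiffAt_snd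
      exact ((hΦ.smooth.contDiffAt).comp z h2).congr_of_eventuallyEq (pull_eventually_eq hz)
    · exact contDiffAt_const.congr_of_eventuallyEq (pull_eventually_zero hΦ hT hz)
  cpt := by
    obtain ⟨X, hX⟩ := hΦ.cpt.isCompact.isBounded.subset_closedBall 0
    exact HasCompactSupport.of_support_subset_isCompact (isCompact_closedBall _ _)
      (h.support_pull hX)
  supp := by
    have h1 : tsupport (pull T η ψ Φ) ⊆ {z | z.2 ≤ T'} := by
      refine closure_minimal ?_ (isClosed_le continuous_snd continuous_const)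
      intro z hz
      by_contra h'
      have h'' : T' ≤ z.2 := (not_le.1 h').le
      apply hz
      unfold pull
      split_ifs
      · exact image_eq_zero_of_notMem_tsupport (hΦ.eq_zero_of_le (z := (ψ z, z.2)) h'')
      · rfl
    intro z hz
    have h2 : z.2 ≤ T' := h1 hz
    have h3 := η.rOut_pos
    show z.2 < T
    linarith

end lab

end

end Pool.Agent.helper23_Euler
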