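import Mathlib
import Pool.Agent.helper23_Euler.Sol

open MeasureTheory Set Filter Topology
open scoped ContDiff Convolution

namespace Pool.Agent.helper23_Euler

noncomputable section

/-- the sequence of mollifiers -/
def bump (n : ℕ) : ContDiffBump (0 : ℝ × ℝ) where
  rIn := 1 / (2 * ((n : ℝ) + 1))
  rOut := 1 / ((n : ℝ) + 1)
  rIn_pos := by positivity
  rIn_lt_rOut := by
    apply one_div_lt_one_div_of_lt
    · positivity
    · have : (0 : ℝ) < (n : ℝ) + 1 := by positivity
      linarith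

lemma bump_rOut (n : ℕ) : (bump n).rOut = 1 / ((n : ℝ) + 1) := rfl

lemma bump_rIn (n : ℕ) : (bump n).rIn = 1 / (2 * ((n : ℝ) + 1)) := rfl

lemma tendsto_bump : Tendsto (fun n => (bump n).rOut) atTop (𝓝 0) := by
  simp only [bump_rOut]
  exact tendsto_one_div_add_atTop_nhds_zero_nat

lemma bump_ratio (n : ℕ) : (bump n).rOut ≤ 2 * (bump n).rIn := by
  rw [bump_rOut, bump_rIn]
  apply le_of_eq
  field_simp

lemma ae_tendsto_mol (N : ℕ) {f : ℝ × ℝ → ℝ} (hf : LocallyIntegrable f) :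
    ∀ᵐ z : ℝ × ℝ, Tendsto (fun n => mol (bump (N + n)) f z) atTop (𝓝 (f z)) := by
  refine ContDiffBump.ae_convolution_tendsto_right_of_locallyIntegrable
    (φ := fun n => bump (N + n)) (l := atTop) (K := 2) ?_ ?_ hf
  · exact tendsto_bump.comp (tendsto_add_atTop_nat N |>.congr fun n => by rw [add_comm])
  · exact Filter.Eventually.of_forall fun n => bump_ratio _

lemma mol_eq_zero {η : ContDiffBump (0 : ℝ × ℝ)} {f : ℝ × ℝ → ℝ} {z : ℝ × ℝ}
    (h : ∀ w : ℝ × ℝ, w.2 ≤ 0 → f w = 0) (hz : z.2 ≤ - η.rOut) : mol η f z = 0 := by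
  have hpos := η.rOut_pos
  have h0 : f z = 0 := h z (by linarith)
  have := ContDiffBump.normed_convolution_eq_right (φ := η) (g := f)
    (μ := (volume : Measure (ℝ × ℝ))) (x₀ := z) ?_
  · rw [mol, this, h0]
  · intro w hw
    rw [h0]
    apply h
    rw [Metric.mem_ball, dist_eq_norm] at hw
    have h2 : ‖(w - z).2‖ < η.rOut := lt_of_le_of_lt (norm_snd_le (w - z)) hw
    rw [Real.norm_eq_abs, Prod.snd_sub] at h2
    have := (abs_lt.1 h2).2
    linarith

section bounds

variable {B : Bds}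

lemma Bds.In.abs_r {r u p : ℝ} (h : B.In r u p) : |r| ≤ B.rb := by
  have := B.ra_pos
  exact abs_le.2 ⟨by linarith [h.1.1, h.1.2], h.1.2⟩

lemma Bds.In.r_pos {r u p : ℝ} (h : B.In r u p) : 0 < r := lt_of_lt_of_le B.ra_pos h.1.1

lemma Bds.In.p_pos {r u p : ℝ} (h : B.In r u p) : 0 < p := lt_of_lt_of_le B.pa_pos h.2.2.1

lemma Bds.In.abs_ru {r u p : ℝ} (h : B.In r u p) : |r * u| ≤ B.rb * B.ub := by
  rw [abs_mul]
  exact mul_le_mul h.abs_r h.2.1 (abs_nonneg _) B.rb_pos.le

end bounds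

variable {γ T : ℝ} {B : Bds} {r u p : ℝ × ℝ → ℝ} {r0 u0 p0 : ℝ → ℝ}

/-- extended density -/
def Rx (r : ℝ × ℝ → ℝ) (r0 : ℝ → ℝ) : ℝ × ℝ → ℝ := ext r r0

/-- extended mass flux -/
def Mx (r u : ℝ × ℝ → ℝ) : ℝ × ℝ → ℝ := ext (fun z => r z * u z) (fun _ => 0)

lemma Sol.meas_Rx (h : Sol γ T B r u p r0 u0 p0) : Measurable (Rx r r0) :=
  measurable_ext h.mr h.mr0

lemma Sol.meas_Mx (h : Sol γ T B r u p r0 u0 p0) : Measurable (Mx r u) :=
  measurable_ext (h.mr.mul h.mu) measurable_const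

lemma Sol.Rx_bd (h : Sol γ T B r u p r0 u0 p0) (z : ℝ × ℝ) :
    B.ra ≤ Rx r r0 z ∧ Rx r r0 z ≤ B.rb :=
  ext_prop (P := fun y => B.ra ≤ y ∧ y ≤ B.rb) (fun z => (h.box z).1) (fun x => (h.box0 x).1) z

lemma Sol.Mx_bd (h : Sol γ T B r u p r0 u0 p0) (z : ℝ × ℝ) : |Mx r u z| ≤ B.rb * B.ub :=
  ext_prop (P := fun y => |y| ≤ B.rb * B.ub) (fun z => (h.box z).abs_ru)
    (fun _ => by simpa using mul_nonneg B.rb_pos.le B.ub_nonneg) z

lemma Sol.Rx_abs (h : Sol γ T B r u p r0 u0 p0) (z : ℝ × ℝ) : |Rx r r0 z| ≤ B.rb := by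
  have := h.Rx_bd z
  exact abs_le.2 ⟨by linarith [B.ra_pos, B.rb_pos], this.2⟩

lemma Sol.locInt_Rx (h : Sol γ T B r u p r0 u0 p0) : LocallyIntegrable (Rx r r0) :=
  locInt_of_bdd h.meas_Rx h.Rx_abs

lemma Sol.locInt_Mx (h : Sol γ T B r u p r0 u0 p0) : LocallyIntegrable (Mx r u) :=
  locInt_of_bdd h.meas_Mx h.Mx_bd

theorem Sol.exists_lab (h : Sol γ T B r u p r0 u0 p0) (η : ContDiffBump (0 : ℝ × ℝ))
    (hη : η.rOut < T) : ∃ ψ, Lab T B η (mol η (Rx r r0)) (mol η (Mx r u)) ψ := by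
  have hP := contDiff_mol (η := η) h.locInt_Rx
  have hQ := contDiff_mol (η := η) h.locInt_Mx
  have hdiv : ∀ z ∈ region T η,
      fderiv ℝ (mol η (Rx r r0)) z (0, 1) + fderiv ℝ (mol η (Mx r u)) z (1, 0) = 0 := by
    intro z hz
    have hru : ∀ z, |r z * u z| ≤ max B.rb (B.rb * B.ub) :=
      fun z => le_trans (h.box z).abs_ru (le_max_right _ _)
    exact mol_div (C := max B.rb (B.rb * B.ub)) h.mr (h.mr.mul h.mu) h.mr0
      (fun z => le_trans (h.box z).abs_r (le_max_left _ _)) hru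
      (fun z => le_trans (h.box0 z).abs_r (le_max_left _ _)) h.mass z hz
  obtain ⟨ψ, h1, h2, h3⟩ := exists_label hP hQ hdiv
  have hopen := isOpen_region (η := η) T
  refine ⟨(region T η).indicator ψ, ?_⟩
  have hev : ∀ z ∈ region T η, (region T η).indicator ψ =ᶠ[𝓝 z] ψ := by
    intro z hz
    filter_upwards [hopen.mem_nhds hz] with w hw
    exact indicator_of_mem hw _
  exact
    { smP := hP
      smQ := hQ
      bP := fun z => mol_mono_const h.meas_Rx h.Rx_bd z
      bQ := fun z => by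
        have := mol_mono_const (η := η) h.meas_Mx
          (a := -(B.rb * B.ub)) (b := B.rb * B.ub) (fun z => abs_le.1 (h.Mx_bd z)) z
        exact abs_le.2 this
      hd := fun z hz => (h1 z hz).congr_of_eventuallyEq (hev z hz)
      h0 := by
        unfold indicator
        split_ifs
        · exact h2
        · rfl
      sm := h3.congr fun z hz => indicator_of_mem hz _
      posT := hη
      meas := by
        classical
        have : Measurable ((region T η).piecewise ψ (fun _ => 0)) :=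
          ContinuousOn.measurable_piecewise h3.continuousOn continuousOn_const
            hopen.measurableSet
        have e : (region T η).piecewise ψ (fun _ => 0) = (region T η).indicator ψ := by
          ext z
          by_cases hz : z ∈ region T η <;> simp [hz]
        rwa [e] at this
      flat := fun z hz => mol_eq_zero (fun w hw => ext_of_nonpos hw) hz }

/-- the initial label -/
def Y0 (r0 : ℝ → ℝ) (x : ℝ) : ℝ := ∫ s in (0 : ℝ)..x, r0 s

lemma exists_mem_of_ae {P : ℝ → Prop} (h : ∀ᵐ t : ℝ, P t) {a b : ℝ} (hab : a < b) :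
    ∃ t ∈ Ioo a b, P t := by
  by_contra h'
  push Not at h'
  have h1 : volume (Ioo a b) ≤ volume {t | ¬ P t} := measure_mono fun t ht => h' t ht
  have h2 : volume {t | ¬ P t} = 0 := h
  rw [h2, Real.volume_Ioo] at h1
  have h3 : 0 < b - a := sub_pos.2 hab
  simp at h1
  linarith

lemma Sol.tendsto_label (h : Sol γ T B r u p r0 u0 p0) (N : ℕ) {ψ : ℕ → ℝ × ℝ → ℝ}
    (hψ : ∀ n, Lab T B (bump (N + n)) (mol (bump (N + n)) (Rx r r0))
      (mol (bump (N + n)) (Mx r u)) (ψ n)) (x : ℝ) :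
    Tendsto (fun n => ψ n (x, 0)) atTop (𝓝 (Y0 r0 x)) := by
  have h1 := ae_tendsto_mol N h.locInt_Rx
  rw [Measure.volume_eq_prod] at h1
  have h2 : ∀ᵐ z : ℝ × ℝ ∂(volume.prod volume),
      Tendsto (fun n => mol (bump (N + n)) (Rx r r0) z.swap) atTop (𝓝 (Rx r r0 z.swap)) :=
    (Measure.measurePreserving_swap).quasiMeasurePreserving.ae h1
  have h3 := Measure.ae_ae_of_ae_prod h2
  obtain ⟨t, ht, ht2⟩ := exists_mem_of_ae h3 (show (-2 : ℝ) < -1 by norm_num)
  have hone : ∀ n : ℕ, (bump (N + n)).rOut ≤ 1 := by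
    intro n
    rw [bump_rOut]
    rw [div_le_one (by positivity)]
    have : (0 : ℝ) ≤ ((N + n : ℕ) : ℝ) := Nat.cast_nonneg _
    linarith
  have htn : ∀ n : ℕ, t ≤ - (bump (N + n)).rOut := fun n => by
    have := hone n
    have := ht.2
    linarith
  have htT : ∀ n : ℕ, t + (bump (N + n)).rOut < T := fun n => by
    have := (hψ n).posT
    have := htn n
    have := (bump (N + n)).rOut_pos
    linarith
  have h4 : Tendsto (fun n => ∫ s in (0 : ℝ)..x, mol (bump (N + n)) (Rx r r0) (s, t)) atTop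
      (𝓝 (∫ s in (0 : ℝ)..x, r0 s)) := by
    refine intervalIntegral.tendsto_integral_filter_of_dominated_convergence (fun _ => B.rb) ?_ ?_
      ?_ ?_
    · refine Filter.Eventually.of_forall fun n => ?_
      exact (((hψ n).smP.continuous.comp
        (continuous_id.prodMk continuous_const))).aestronglyMeasurable
    · refine Filter.Eventually.of_forall fun n => Filter.Eventually.of_forall fun s _ => ?_
      have := (hψ n).bP (s, t)
      rw [Real.norm_eq_abs]
      exact abs_le.2 ⟨by linarith [B.ra_pos, B.rb_pos, this.1], this.2⟩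
    · exact intervalIntegrable_const
    · filter_upwards [ht2] with s hs _
      have h5 : Rx r r0 (Prod.swap (t, s)) = r0 s := by
        simp only [Prod.swap_prod_mk]
        exact ext_of_nonpos (z := (s, t)) (by simpa using by linarith [ht.2])
      rw [h5] at hs
      exact hs
  have h6 : ∀ n, |ψ n (x, 0) - ∫ s in (0 : ℝ)..x, mol (bump (N + n)) (Rx r r0) (s, t)|
      ≤ 2 * (B.L * (bump (N + n)).rOut) := by
    intro n
    rw [(hψ n).integral_x (htT n) x]
    have e1 := (hψ n).near_init x (htn n)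
    have e2 := (hψ n).near_init 0 (htn n)
    rw [(hψ n).h0] at e2
    have e3 : ψ n (x, 0) - (ψ n (x, t) - ψ n (0, t)) =
        (ψ n (x, 0) - ψ n (x, t)) - (0 - ψ n (0, t)) := by ring
    rw [e3]
    calc _ ≤ |ψ n (x, 0) - ψ n (x, t)| + |0 - ψ n (0, t)| := abs_sub _ _
      _ ≤ _ := by linarith
  have h7 : Tendsto (fun n => 2 * (B.L * (bump (N + n)).rOut)) atTop (𝓝 0) := by
    have : Tendsto (fun n => (bump (N + n)).rOut) atTop (𝓝 0) :=
      tendsto_bump.comp (tendsto_add_atTop_nat N |>.congr fun n => by rw [add_comm])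
    simpa using (this.const_mul B.L).const_mul 2
  have h8 : Tendsto (fun n => ψ n (x, 0) -
      ∫ s in (0 : ℝ)..x, mol (bump (N + n)) (Rx r r0) (s, t)) atTop (𝓝 0) :=
    squeeze_zero_norm (fun n => by simpa using h6 n) h7
  have h9 := h8.add h4
  simpa [Y0] using h9

/-- the linear functional of the state, applied to the gradient of a test quadruple -/
def lin (γ r u p ct cy bt b' qt qy at' : ℝ) : ℝ :=
  te γ r u p * ct - u * bt + (1 / r) * qt - sp γ r p * at' + p * u * cy - p * b' - u * qy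

/-- the error caused by mollification -/
def errf (γ r u p P Q ct cy bt b' qt qy at' ay : ℝ) : ℝ :=
  (r - P) * (te γ r u p * ct - u * bt + (1 / r) * qt - sp γ r p * at')
    + (Q - u * P) * (- (r * te γ r u p * cy) + r * u * b' - qy + r * sp γ r p * ay)

/-- bounds for the energy and the entropy -/
lemma exists_bd (hγ : 1 < γ) (B : Bds) : ∃ C, 0 ≤ C ∧ ∀ r u p, B.In r u p →
    |te γ r u p| ≤ C ∧ |sp γ r p| ≤ C := by
  have hγ' : 0 < γ - 1 := by linarith
  have h1 : 0 ≤ B.ub ^ 2 / 2 + B.pb / ((γ - 1) * B.ra) := by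
    have := B.pa_pos; have := B.pab; have := B.ra_pos
    have : 0 ≤ B.pb := by linarith
    positivity
  have h2 : 0 ≤ max |Real.log B.pa| |Real.log B.pb| + γ * max |Real.log B.ra| |Real.log B.rb| := by
    have : 0 ≤ max |Real.log B.ra| |Real.log B.rb| := le_trans (abs_nonneg _) (le_max_left _ _)
    have h3 : 0 ≤ max |Real.log B.pa| |Real.log B.pb| := le_trans (abs_nonneg _) (le_max_left _ _)
    have : 0 ≤ γ * max |Real.log B.ra| |Real.log B.rb| := mul_nonneg (by linarith) this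
    linarith
  refine ⟨(B.ub ^ 2 / 2 + B.pb / ((γ - 1) * B.ra)) +
    (max |Real.log B.pa| |Real.log B.pb| + γ * max |Real.log B.ra| |Real.log B.rb|),
    add_nonneg h1 h2, ?_⟩
  intro r u p h
  have hr := h.r_pos
  have hp := h.p_pos
  constructor
  · have h3 : 0 ≤ te γ r u p := by
      unfold te en
      positivity
    rw [abs_of_nonneg h3]
    have h4 : te γ r u p ≤ B.ub ^ 2 / 2 + B.pb / ((γ - 1) * B.ra) := by
      unfold te en
      have e1 : u ^ 2 ≤ B.ub ^ 2 := by
        rw [← sq_abs u]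
        exact pow_le_pow_left₀ (abs_nonneg _) h.2.1 2
      have e2 : p / ((γ - 1) * r) ≤ B.pb / ((γ - 1) * B.ra) := by
        have := B.ra_pos
        have h5 := h.1.1
        have h6 := h.2.2.2
        gcongr
        linarith
      linarith
    linarith
  · have e1 : |Real.log p| ≤ max |Real.log B.pa| |Real.log B.pb| :=
      abs_le_max_abs_abs (Real.log_le_log B.pa_pos h.2.2.1) (Real.log_le_log hp h.2.2.2)
    have e2 : |Real.log r| ≤ max |Real.log B.ra| |Real.log B.rb| :=
      abs_le_max_abs_abs (Real.log_le_log B.ra_pos h.1.1) (Real.log_le_log hr h.1.2)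
    unfold sp
    calc |Real.log p - γ * Real.log r| ≤ |Real.log p| + |γ * Real.log r| := abs_sub _ _
      _ = |Real.log p| + γ * |Real.log r| := by rw [abs_mul, abs_of_pos (by linarith : 0 < γ)]
      _ ≤ max |Real.log B.pa| |Real.log B.pb| + γ * max |Real.log B.ra| |Real.log B.rb| := by
          gcongr
      _ ≤ _ := by linarith

lemma Sol.meas_te (h : Sol γ T B r u p r0 u0 p0) :
    Measurable (fun z => te γ (r z) (u z) (p z)) := by
  unfold te en
  exact ((h.mu.pow_const 2).div_const 2).add (h.mp.div (h.mr.const_mul _))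

lemma Sol.meas_sp (h : Sol γ T B r u p r0 u0 p0) :
    Measurable (fun z => sp γ (r z) (p z)) := by
  unfold sp
  exact (Real.measurable_log.comp h.mp).sub ((Real.measurable_log.comp h.mr).const_mul _)

lemma Sol.meas_te0 (h : Sol γ T B r u p r0 u0 p0) :
    Measurable (fun x => te γ (r0 x) (u0 x) (p0 x)) := by
  unfold te en
  exact ((h.mu0.pow_const 2).div_const 2).add (h.mp0.div (h.mr0.const_mul _))

lemma Sol.meas_sp0 (h : Sol γ T B r u p r0 u0 p0) :
    Measurable (fun x => sp γ (r0 x) (p0 x)) := by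
  unfold sp
  exact (Real.measurable_log.comp h.mp0).sub ((Real.measurable_log.comp h.mr0).const_mul _)

/-- integrability of a product with the restriction of a test function to `t = 0` -/
lemma integrable_init {A : ℝ → ℝ} (hA : Measurable A) {C : ℝ} (hC : ∀ x, |A x| ≤ C)
    {φ : ℝ × ℝ → ℝ} (h : ContDiff ℝ ∞ φ) (hc : HasCompactSupport φ) :
    Integrable (fun x => A x * φ (x, 0)) := by
  have hC0 : 0 ≤ C := le_trans (abs_nonneg _) (hC 0)
  have hcont : Continuous (fun x : ℝ => φ (x, 0)) :=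
    h.continuous.comp (continuous_id.prodMk continuous_const)
  obtain ⟨D, hD0, hD⟩ := exists_bound_self h.continuous hc
  refine integrable_of_bdd_cpt (C := C * D)
    ((hA.mul hcont.measurable).aestronglyMeasurable) ?_ (HasCompactSupport.slice_x hc 0).isCompact ?_
  · intro x
    rw [Real.norm_eq_abs, abs_mul]
    exact mul_le_mul (hC x) (hD _) (abs_nonneg _) hC0
  · intro x hx
    rw [show φ (x, 0) = 0 from image_eq_zero_of_notMem_tsupport (f := fun s => φ (s, 0)) hx,
      mul_zero]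

theorem Sol.eps_ineq (hγ : 1 < γ) (h : Sol γ T B r u p r0 u0 p0) {η : ContDiffBump (0 : ℝ × ℝ)}
    {P Q ψ : ℝ × ℝ → ℝ} (hL : Lab T B η P Q ψ) {T' : ℝ} (hT : T' + η.rOut < T)
    {χ b q a : ℝ × ℝ → ℝ} (hχ : IsTest T' χ) (hb : IsTest T' b) (hq : IsTest T' q)
    (ha : IsTest T' a) (ha0 : ∀ z, 0 ≤ a z) :
    0 ≤ (∫ z in up, (P z * lin γ (r z) (u z) (p z) (dt χ (ψ z, z.2)) (dx χ (ψ z, z.2))
        (dt b (ψ z, z.2)) (dx b (ψ z, z.2)) (dt q (ψ z, z.2)) (dx q (ψ z, z.2))
        (dt a (ψ z, z.2)) + errf γ (r z) (u z) (p z) (P z) (Q z)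
        (dt χ (ψ z, z.2)) (dx χ (ψ z, z.2))
        (dt b (ψ z, z.2)) (dx b (ψ z, z.2)) (dt q (ψ z, z.2)) (dx q (ψ z, z.2))
        (dt a (ψ z, z.2)) (dx a (ψ z, z.2))))
      + ∫ x, (r0 x * te γ (r0 x) (u0 x) (p0 x) * χ (ψ (x, 0), 0) - r0 x * u0 x * b (ψ (x, 0), 0)
        + q (ψ (x, 0), 0) - r0 x * sp γ (r0 x) (p0 x) * a (ψ (x, 0), 0)) := by
  obtain ⟨C, hC0, hC⟩ := exists_bd hγ B
  have tχ := hL.isTest_pull hχ hT
  have tb := hL.isTest_pull hb hT
  have tq := hL.isTest_pull hq hT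
  have ta := hL.isTest_pull ha hT
  have H1 := h.energy _ tχ
  have H2 := h.momentum _ tb
  have H3 := setIntegral_up_dt tq.smooth tq.cpt
  have H4 := h.entropy _ ta (pull_nonneg ha0)
  -- measurability and bounds of the coefficients
  have m1 : Measurable (fun z => r z * te γ (r z) (u z) (p z)) := h.mr.mul h.meas_te
  have m2 : Measurable (fun z => (r z * te γ (r z) (u z) (p z) + p z) * u z) :=
    (m1.add h.mp).mul h.mu
  have m3 : Measurable (fun z => r z * u z) := h.mr.mul h.mu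
  have m4 : Measurable (fun z => r z * u z ^ 2 + p z) := (h.mr.mul (h.mu.pow_const 2)).add h.mp
  have m5 : Measurable (fun z => r z * sp γ (r z) (p z)) := h.mr.mul h.meas_sp
  have m6 : Measurable (fun z => r z * u z * sp γ (r z) (p z)) := m3.mul h.meas_sp
  have hrb := B.rb_pos
  have hub := B.ub_nonneg
  have hpb : 0 ≤ B.pb := le_trans B.pa_pos.le B.pab
  have b1 : ∀ {r u p : ℝ}, B.In r u p → |r * te γ r u p| ≤ B.rb * C := by
    intro r u p hh
    rw [abs_mul]
    exact mul_le_mul hh.abs_r (hC _ _ _ hh).1 (abs_nonneg _) hrb.le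
  have bp : ∀ {r u p : ℝ}, B.In r u p → |p| ≤ B.pb := by
    intro r u p hh
    rw [abs_of_pos hh.p_pos]
    exact hh.2.2.2
  have b2 : ∀ {r u p : ℝ}, B.In r u p → |(r * te γ r u p + p) * u| ≤ (B.rb * C + B.pb) * B.ub := by
    intro r u p hh
    rw [abs_mul]
    exact mul_le_mul ((abs_add_le _ _).trans (add_le_add (b1 hh) (bp hh))) hh.2.1
      (abs_nonneg _) (by positivity)
  have b4 : ∀ {r u p : ℝ}, B.In r u p → |r * u ^ 2 + p| ≤ B.rb * B.ub ^ 2 + B.pb := by
    intro r u p hh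
    refine (abs_add_le _ _).trans (add_le_add ?_ (bp hh))
    rw [abs_mul, abs_pow]
    exact mul_le_mul hh.abs_r (pow_le_pow_left₀ (abs_nonneg _) hh.2.1 2) (by positivity) hrb.le
  have b5 : ∀ {r u p : ℝ}, B.In r u p → |r * sp γ r p| ≤ B.rb * C := by
    intro r u p hh
    rw [abs_mul]
    exact mul_le_mul hh.abs_r (hC _ _ _ hh).2 (abs_nonneg _) hrb.le
  have b6 : ∀ {r u p : ℝ}, B.In r u p → |r * u * sp γ r p| ≤ B.rb * B.ub * C := by
    intro r u p hh
    rw [abs_mul]
    exact mul_le_mul hh.abs_ru (hC _ _ _ hh).2 (abs_nonneg _) (by positivity)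
  have i1 : Integrable (fun z => (r z * te γ (r z) (u z) (p z)) * dt (pull T η ψ χ) z
        + ((r z * te γ (r z) (u z) (p z) + p z) * u z) * dx (pull T η ψ χ) z) :=
    (integrable_mul_dt m1 (fun z => b1 (h.box z)) tχ.smooth tχ.cpt).add
    (integrable_mul_dx m2 (fun z => b2 (h.box z)) tχ.smooth tχ.cpt)
  have i2 : Integrable (fun z => (r z * u z) * dt (pull T η ψ b) z
        + (r z * u z ^ 2 + p z) * dx (pull T η ψ b) z) :=
    (integrable_mul_dt m3 (fun z => (h.box z).abs_ru) tb.smooth tb.cpt).add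
    (integrable_mul_dx m4 (fun z => b4 (h.box z)) tb.smooth tb.cpt)
  have i3 : Integrable (fun z => dt (pull T η ψ q) z) := by
    simpa using integrable_mul_dt (A := fun _ => 1) measurable_const (C := 1) (by simp)
      tq.smooth tq.cpt
  have i4 : Integrable (fun z => (r z * sp γ (r z) (p z)) * dt (pull T η ψ a) z
        + (r z * u z * sp γ (r z) (p z)) * dx (pull T η ψ a) z) :=
    (integrable_mul_dt m5 (fun z => b5 (h.box z)) ta.smooth ta.cpt).add
    (integrable_mul_dx m6 (fun z => b6 (h.box z)) ta.smooth ta.cpt)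
  have j1 : Integrable (fun x => r0 x * te γ (r0 x) (u0 x) (p0 x) * pull T η ψ χ (x, 0)) :=
    integrable_init (h.mr0.mul h.meas_te0) (fun x => b1 (h.box0 x)) tχ.smooth tχ.cpt
  have j2 : Integrable (fun x => r0 x * u0 x * pull T η ψ b (x, 0)) :=
    integrable_init (h.mr0.mul h.mu0) (fun x => (h.box0 x).abs_ru) tb.smooth tb.cpt
  have j3 : Integrable (fun x => pull T η ψ q (x, 0)) := by
    simpa using integrable_init (A := fun _ => 1) measurable_const (C := 1) (by simp)
      tq.smooth tq.cpt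
  have j4 : Integrable (fun x => r0 x * sp γ (r0 x) (p0 x) * pull T η ψ a (x, 0)) :=
    integrable_init (h.mr0.mul h.meas_sp0) (fun x => b5 (h.box0 x)) ta.smooth ta.cpt
  have i12 : Integrable (fun z => ((r z * te γ (r z) (u z) (p z)) * dt (pull T η ψ χ) z
        + ((r z * te γ (r z) (u z) (p z) + p z) * u z) * dx (pull T η ψ χ) z)
        - ((r z * u z) * dt (pull T η ψ b) z
        + (r z * u z ^ 2 + p z) * dx (pull T η ψ b) z)) := i1.sub i2
  have i123 : Integrable (fun z => ((r z * te γ (r z) (u z) (p z)) * dt (pull T η ψ χ) z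
        + ((r z * te γ (r z) (u z) (p z) + p z) * u z) * dx (pull T η ψ χ) z)
        - ((r z * u z) * dt (pull T η ψ b) z
        + (r z * u z ^ 2 + p z) * dx (pull T η ψ b) z) + dt (pull T η ψ q) z) := i12.add i3
  have j12 : Integrable (fun x => r0 x * te γ (r0 x) (u0 x) (p0 x) * pull T η ψ χ (x, 0)
      - r0 x * u0 x * pull T η ψ b (x, 0)) := j1.sub j2
  have j123 : Integrable (fun x => r0 x * te γ (r0 x) (u0 x) (p0 x) * pull T η ψ χ (x, 0)
      - r0 x * u0 x * pull T η ψ b (x, 0) + pull T η ψ q (x, 0)) := j12.add j3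
  -- combine
  have K1 : (∫ z in up, ((r z * te γ (r z) (u z) (p z)) * dt (pull T η ψ χ) z
        + ((r z * te γ (r z) (u z) (p z) + p z) * u z) * dx (pull T η ψ χ) z))
      - (∫ z in up, ((r z * u z) * dt (pull T η ψ b) z
        + (r z * u z ^ 2 + p z) * dx (pull T η ψ b) z))
      + (∫ z in up, dt (pull T η ψ q) z)
      - (∫ z in up, ((r z * sp γ (r z) (p z)) * dt (pull T η ψ a) z
        + (r z * u z * sp γ (r z) (p z)) * dx (pull T η ψ a) z))
      = ∫ z in up, (P z * lin γ (r z) (u z) (p z) (dt χ (ψ z, z.2)) (dx χ (ψ z, z.2))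
        (dt b (ψ z, z.2)) (dx b (ψ z, z.2)) (dt q (ψ z, z.2)) (dx q (ψ z, z.2))
        (dt a (ψ z, z.2)) + errf γ (r z) (u z) (p z) (P z) (Q z)
        (dt χ (ψ z, z.2)) (dx χ (ψ z, z.2))
        (dt b (ψ z, z.2)) (dx b (ψ z, z.2)) (dt q (ψ z, z.2)) (dx q (ψ z, z.2))
        (dt a (ψ z, z.2)) (dx a (ψ z, z.2))) := by
    rw [← integral_sub i1.integrableOn i2.integrableOn,
      ← integral_add i12.integrableOn i3.integrableOn,
      ← integral_sub i123.integrableOn i4.integrableOn]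
    refine setIntegral_congr_fun measurableSet_up ?_
    intro z _
    have hr := (h.box z).r_pos
    simp only []
    rw [hL.dt_pull hχ hT, hL.dx_pull hχ hT, hL.dt_pull hb hT, hL.dx_pull hb hT,
      hL.dt_pull hq hT, hL.dt_pull ha hT, hL.dx_pull ha hT, lin, errf]
    field_simp
    ring
  have K2 : (∫ x, r0 x * te γ (r0 x) (u0 x) (p0 x) * pull T η ψ χ (x, 0))
      - (∫ x, r0 x * u0 x * pull T η ψ b (x, 0))
      + (∫ x, pull T η ψ q (x, 0))
      - (∫ x, r0 x * sp γ (r0 x) (p0 x) * pull T η ψ a (x, 0))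
      = ∫ x, (r0 x * te γ (r0 x) (u0 x) (p0 x) * χ (ψ (x, 0), 0)
        - r0 x * u0 x * b (ψ (x, 0), 0)
        + q (ψ (x, 0), 0) - r0 x * sp γ (r0 x) (p0 x) * a (ψ (x, 0), 0)) := by
    rw [← integral_sub j1 j2, ← integral_add j12 j3, ← integral_sub j123 j4]
    refine integral_congr_ae (Filter.Eventually.of_forall fun x => ?_)
    simp only []
    rw [pull_of_mem (hL.mem0 x), pull_of_mem (hL.mem0 x), pull_of_mem (hL.mem0 x),
      pull_of_mem (hL.mem0 x)]
  rw [← K1, ← K2]
  linarith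

end

end Pool.Agent.helper23_Euler
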