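import Mathlib
import Pool.Agent.helper23_Euler.Lagrange

open MeasureTheory Set Filter Topology
open scoped ContDiff Convolution

namespace Pool.Agent.helper23_Euler

noncomputable section

variable {γ T : ℝ} {B : Bds} {r u p : ℝ × ℝ → ℝ} {r0 u0 p0 : ℝ → ℝ}

/-- change of variables in the plane -/
lemma Lab.change2 {η : ContDiffBump (0 : ℝ × ℝ)} {P Q ψ : ℝ × ℝ → ℝ} (h : Lab T B η P Q ψ)
    {T' : ℝ} (hT : T' + η.rOut < T) {J : ℝ × ℝ → ℝ} (hJm : Measurable J) {C X : ℝ}
    (hJC : ∀ z, |J z| ≤ C) (hJX : ∀ z, z ∉ Metric.closedBall (0 : ℝ × ℝ) X → J z = 0)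
    (hJT : ∀ z, T' ≤ z.2 → J z = 0) :
    Integrable (fun z => P z * J (ψ z, z.2)) ∧
    ∫ z in up, P z * J (ψ z, z.2) = ∫ z in up, J z := by
  have hC0 : 0 ≤ C := le_trans (abs_nonneg _) (hJC 0)
  have hi1 : Integrable (fun z => P z * J (ψ z, z.2)) := by
    refine integrable_of_bdd_cpt (C := B.rb * C) ?_ ?_ (isCompact_closedBall 0 (B.rad X)) ?_
    · exact (h.smP.continuous.measurable.mul
        (hJm.comp (h.meas.prodMk measurable_snd))).aestronglyMeasurable
    · intro z
      rw [Real.norm_eq_abs, abs_mul]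
      have : |P z| ≤ B.rb :=
        abs_le.2 ⟨by linarith [(h.bP z).1, B.ra_pos, B.rb_pos], (h.bP z).2⟩
      exact mul_le_mul this (hJC _) (abs_nonneg _) B.rb_pos.le
    · intro z hz
      by_cases hz2 : T' ≤ z.2
      · rw [hJT _ (by simpa using hz2), mul_zero]
      · have hz3 : z ∈ region T η := by
          show z.2 + η.rOut < T
          linarith [not_le.1 hz2]
        rw [hJX (ψ z, z.2), mul_zero]
        intro h'
        rw [mem_closedBall_zero_iff] at h'
        exact hz (by rw [mem_closedBall_zero_iff]; exact h.norm_le hz3 h')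
  have hi2 : Integrable J :=
    integrable_of_bdd_cpt hJm.aestronglyMeasurable hJC (isCompact_closedBall 0 X) hJX
  refine ⟨hi1, ?_⟩
  have hs : (up : Set (ℝ × ℝ)) = univ ×ˢ Ioi 0 := by
    ext z; simp [up]
  have e1 : ∀ F : ℝ × ℝ → ℝ, Integrable F →
      ∫ z in up, F z = ∫ t in Ioi (0 : ℝ), ∫ x, F (x, t) := by
    intro F hF
    have hint' : Integrable F
        ((volume.restrict univ).prod (volume.restrict (Ioi (0 : ℝ)))) := by
      rw [Measure.prod_restrict, ← Measure.volume_eq_prod]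
      exact hF.integrableOn
    rw [hs, Measure.volume_eq_prod, ← Measure.prod_restrict, integral_prod_symm _ hint']
    rw [Measure.restrict_univ]
  rw [e1 _ hi1, e1 _ hi2]
  refine setIntegral_congr_fun measurableSet_Ioi ?_
  intro t _
  simp only []
  by_cases ht : T' ≤ t
  · have a1 : ∀ x, J (ψ (x, t), t) = 0 := fun x => hJT _ ht
    have a2 : ∀ x, J (x, t) = 0 := fun x => hJT _ ht
    simp [a1, a2]
  · exact h.change (t := t) (by linarith [not_le.1 ht]) (fun y => J (y, t))

lemma errf_bound {r u p P Q ct cy bt b' qt qy at' ay C D : ℝ} (hin : B.In r u p)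
    (hC : |te γ r u p| ≤ C ∧ |sp γ r p| ≤ C) (hD : |ct| ≤ D ∧ |cy| ≤ D ∧ |bt| ≤ D ∧ |b'| ≤ D ∧
      |qt| ≤ D ∧ |qy| ≤ D ∧ |at'| ≤ D ∧ |ay| ≤ D) :
    |errf γ r u p P Q ct cy bt b' qt qy at' ay| ≤
      (D * (C + B.ub + 1 / B.ra + C) + D * (B.rb * C + B.rb * B.ub + 1 + B.rb * C) * (1 + B.ub))
        * (|r - P| + |Q - r * u|) := by
  obtain ⟨h1, h2, h3, h4, h5, h6, h7, h8⟩ := hD
  have hD0 : 0 ≤ D := le_trans (abs_nonneg _) h1
  have hC0 : 0 ≤ C := le_trans (abs_nonneg _) hC.1
  have hub := B.ub_nonneg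
  have hrb := B.rb_pos
  have hra := B.ra_pos
  have hr := hin.r_pos
  have hir : |1 / r| ≤ 1 / B.ra := by
    rw [abs_of_pos (by positivity)]
    exact one_div_le_one_div_of_le hra hin.1.1
  have t1 : |te γ r u p * ct - u * bt + (1 / r) * qt - sp γ r p * at'|
      ≤ D * (C + B.ub + 1 / B.ra + C) := by
    have a1 : |te γ r u p * ct| ≤ C * D := by
      rw [abs_mul]; exact mul_le_mul hC.1 h1 (abs_nonneg _) hC0
    have a2 : |u * bt| ≤ B.ub * D := by
      rw [abs_mul]; exact mul_le_mul hin.2.1 h3 (abs_nonneg _) hub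
    have a3 : |(1 / r) * qt| ≤ (1 / B.ra) * D := by
      rw [abs_mul]; exact mul_le_mul hir h5 (abs_nonneg _) (by positivity)
    have a4 : |sp γ r p * at'| ≤ C * D := by
      rw [abs_mul]; exact mul_le_mul hC.2 h7 (abs_nonneg _) hC0
    have := abs_sub (te γ r u p * ct - u * bt + (1 / r) * qt) (sp γ r p * at')
    have := abs_add_le (te γ r u p * ct - u * bt) ((1 / r) * qt)
    have := abs_sub (te γ r u p * ct) (u * bt)
    nlinarith
  have t2 : |- (r * te γ r u p * cy) + r * u * b' - qy + r * sp γ r p * ay|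
      ≤ D * (B.rb * C + B.rb * B.ub + 1 + B.rb * C) := by
    have a1 : |r * te γ r u p * cy| ≤ (B.rb * C) * D := by
      rw [abs_mul, abs_mul]
      exact mul_le_mul (mul_le_mul hin.abs_r hC.1 (abs_nonneg _) hrb.le) h2 (abs_nonneg _)
        (by positivity)
    have a2 : |r * u * b'| ≤ (B.rb * B.ub) * D := by
      rw [abs_mul]
      exact mul_le_mul hin.abs_ru h4 (abs_nonneg _) (by positivity)
    have a4 : |r * sp γ r p * ay| ≤ (B.rb * C) * D := by
      rw [abs_mul, abs_mul]
      exact mul_le_mul (mul_le_mul hin.abs_r hC.2 (abs_nonneg _) hrb.le) h8 (abs_nonneg _)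
        (by positivity)
    have := abs_add_le (- (r * te γ r u p * cy) + r * u * b' - qy) (r * sp γ r p * ay)
    have := abs_sub (- (r * te γ r u p * cy) + r * u * b') qy
    have := abs_add_le (- (r * te γ r u p * cy)) (r * u * b')
    rw [abs_neg] at this
    nlinarith
  have t3 : |Q - u * P| ≤ (1 + B.ub) * (|r - P| + |Q - r * u|) := by
    have e : Q - u * P = (Q - r * u) + u * (r - P) := by ring
    rw [e]
    refine (abs_add_le _ _).trans ?_
    rw [abs_mul]
    have := mul_le_mul_of_nonneg_right hin.2.1 (abs_nonneg (r - P))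
    nlinarith [abs_nonneg (r - P), abs_nonneg (Q - r * u), mul_nonneg hub (abs_nonneg (Q - r * u))]
  have t4 : |r - P| ≤ |r - P| + |Q - r * u| := by linarith [abs_nonneg (Q - r * u)]
  have hE1 : 0 ≤ D * (C + B.ub + 1 / B.ra + C) := by positivity
  have hE2 : 0 ≤ D * (B.rb * C + B.rb * B.ub + 1 + B.rb * C) := by positivity
  unfold errf
  refine (abs_add_le _ _).trans ?_
  rw [abs_mul, abs_mul]
  calc _ ≤ (|r - P| + |Q - r * u|) * (D * (C + B.ub + 1 / B.ra + C))
        + ((1 + B.ub) * (|r - P| + |Q - r * u|)) * (D * (B.rb * C + B.rb * B.ub + 1 + B.rb * C)) := by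
        apply add_le_add
        · exact mul_le_mul t4 t1 (abs_nonneg _) (by positivity)
        · exact mul_le_mul t3 t2 (abs_nonneg _) (by positivity)
    _ = _ := by ring

lemma lin_bound {r u p ct cy bt b' qt qy at' C D : ℝ} (hin : B.In r u p)
    (hC : |te γ r u p| ≤ C ∧ |sp γ r p| ≤ C) (hD : |ct| ≤ D ∧ |cy| ≤ D ∧ |bt| ≤ D ∧ |b'| ≤ D ∧
      |qt| ≤ D ∧ |qy| ≤ D ∧ |at'| ≤ D) :
    |lin γ r u p ct cy bt b' qt qy at'| ≤
      D * (C + B.ub + 1 / B.ra + C + B.pb * B.ub + B.pb + B.ub) := by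
  obtain ⟨h1, h2, h3, h4, h5, h6, h7⟩ := hD
  have hD0 : 0 ≤ D := le_trans (abs_nonneg _) h1
  have hC0 : 0 ≤ C := le_trans (abs_nonneg _) hC.1
  have hub := B.ub_nonneg
  have hra := B.ra_pos
  have hpb : 0 ≤ B.pb := le_trans B.pa_pos.le B.pab
  have hr := hin.r_pos
  have hir : |1 / r| ≤ 1 / B.ra := by
    rw [abs_of_pos (by positivity)]
    exact one_div_le_one_div_of_le hra hin.1.1
  have hp : |p| ≤ B.pb := by rw [abs_of_pos hin.p_pos]; exact hin.2.2.2
  have a1 : |te γ r u p * ct| ≤ C * D := by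
    rw [abs_mul]; exact mul_le_mul hC.1 h1 (abs_nonneg _) hC0
  have a2 : |u * bt| ≤ B.ub * D := by
    rw [abs_mul]; exact mul_le_mul hin.2.1 h3 (abs_nonneg _) hub
  have a3 : |(1 / r) * qt| ≤ (1 / B.ra) * D := by
    rw [abs_mul]; exact mul_le_mul hir h5 (abs_nonneg _) (by positivity)
  have a4 : |sp γ r p * at'| ≤ C * D := by
    rw [abs_mul]; exact mul_le_mul hC.2 h7 (abs_nonneg _) hC0
  have a5 : |p * u * cy| ≤ (B.pb * B.ub) * D := by
    rw [abs_mul, abs_mul]
    exact mul_le_mul (mul_le_mul hp hin.2.1 (abs_nonneg _) hpb) h2 (abs_nonneg _) (by positivity)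
  have a6 : |p * b'| ≤ B.pb * D := by
    rw [abs_mul]; exact mul_le_mul hp h4 (abs_nonneg _) hpb
  have a7 : |u * qy| ≤ B.ub * D := by
    rw [abs_mul]; exact mul_le_mul hin.2.1 h6 (abs_nonneg _) hub
  unfold lin
  have e1 := abs_sub (te γ r u p * ct - u * bt + (1 / r) * qt - sp γ r p * at' + p * u * cy
    - p * b') (u * qy)
  have e2 := abs_sub (te γ r u p * ct - u * bt + (1 / r) * qt - sp γ r p * at' + p * u * cy) (p * b')
  have e3 := abs_add_le (te γ r u p * ct - u * bt + (1 / r) * qt - sp γ r p * at') (p * u * cy)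
  have e4 := abs_sub (te γ r u p * ct - u * bt + (1 / r) * qt) (sp γ r p * at')
  have e5 := abs_add_le (te γ r u p * ct - u * bt) ((1 / r) * qt)
  have e6 := abs_sub (te γ r u p * ct) (u * bt)
  nlinarith

/-- the Lagrangian inequality -/
theorem Sol.lagrange_ineq (hγ : 1 < γ) (h : Sol γ T B r u p r0 u0 p0) {T' : ℝ} (hT0 : 0 < T')
    (hT : T' < T) {χ b q a : ℝ × ℝ → ℝ} (hχ : IsTest T' χ) (hb : IsTest T' b) (hq : IsTest T' q)
    (ha : IsTest T' a) (ha0 : ∀ z, 0 ≤ a z) {J : ℝ × ℝ → ℝ} (hJm : Measurable J) {CJ XJ : ℝ}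
    (hJC : ∀ z, |J z| ≤ CJ) (hJX : ∀ z, z ∉ Metric.closedBall (0 : ℝ × ℝ) XJ → J z = 0)
    (hJT : ∀ z, T' ≤ z.2 → J z = 0)
    (hJ : ∀ z : ℝ × ℝ, 0 < z.2 → ∀ r u p, B.In r u p →
      lin γ r u p (dt χ z) (dx χ z) (dt b z) (dx b z) (dt q z) (dx q z) (dt a z) ≤ J z) :
    0 ≤ (∫ z in up, J z)
      + ∫ x, (r0 x * te γ (r0 x) (u0 x) (p0 x) * χ (Y0 r0 x, 0) - r0 x * u0 x * b (Y0 r0 x, 0)
        + q (Y0 r0 x, 0) - r0 x * sp γ (r0 x) (p0 x) * a (Y0 r0 x, 0)) := by
  obtain ⟨C, hC0, hC⟩ := exists_bd hγ B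
  -- choose the mollifiers
  obtain ⟨N, hN⟩ : ∃ N : ℕ, ∀ n : ℕ, T' + (bump (N + n)).rOut < T := by
    obtain ⟨N, hN⟩ := exists_nat_one_div_lt (sub_pos.2 hT)
    refine ⟨N, fun n => ?_⟩
    rw [bump_rOut]
    have : 1 / (((N + n : ℕ) : ℝ) + 1) ≤ 1 / ((N : ℝ) + 1) := by
      apply one_div_le_one_div_of_le (by positivity)
      push_cast
      linarith [(Nat.cast_nonneg n : (0 : ℝ) ≤ n)]
    linarith
  have hN' : ∀ n : ℕ, (bump (N + n)).rOut < T := fun n => by linarith [hN n]
  choose ψ hψ using fun n => h.exists_lab (bump (N + n)) (hN' n)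
  -- bounds for the derivatives
  obtain ⟨D1, hD1, hD1'⟩ := exists_bound_dt hχ.smooth hχ.cpt
  obtain ⟨D2, hD2, hD2'⟩ := exists_bound_dx hχ.smooth hχ.cpt
  obtain ⟨D3, hD3, hD3'⟩ := exists_bound_dt hb.smooth hb.cpt
  obtain ⟨D4, hD4, hD4'⟩ := exists_bound_dx hb.smooth hb.cpt
  obtain ⟨D5, hD5, hD5'⟩ := exists_bound_dt hq.smooth hq.cpt
  obtain ⟨D6, hD6, hD6'⟩ := exists_bound_dx hq.smooth hq.cpt
  obtain ⟨D7, hD7, hD7'⟩ := exists_bound_dt ha.smooth ha.cpt
  obtain ⟨D8, hD8, hD8'⟩ := exists_bound_dx ha.smooth ha.cpt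
  set D := D1 + D2 + D3 + D4 + D5 + D6 + D7 + D8 with hDdef
  have hD : ∀ z, |dt χ z| ≤ D ∧ |dx χ z| ≤ D ∧ |dt b z| ≤ D ∧ |dx b z| ≤ D ∧
      |dt q z| ≤ D ∧ |dx q z| ≤ D ∧ |dt a z| ≤ D ∧ |dx a z| ≤ D := by
    intro z
    refine ⟨(hD1' z).trans ?_, (hD2' z).trans ?_, (hD3' z).trans ?_, (hD4' z).trans ?_,
      (hD5' z).trans ?_, (hD6' z).trans ?_, (hD7' z).trans ?_, (hD8' z).trans ?_⟩ <;> linarith
  have hD0 : 0 ≤ D := by positivity
  -- a ball containing the supports
  obtain ⟨X1, hX1⟩ := hχ.cpt.isCompact.isBounded.subset_closedBall 0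
  obtain ⟨X2, hX2⟩ := hb.cpt.isCompact.isBounded.subset_closedBall 0
  obtain ⟨X3, hX3⟩ := hq.cpt.isCompact.isBounded.subset_closedBall 0
  obtain ⟨X4, hX4⟩ := ha.cpt.isCompact.isBounded.subset_closedBall 0
  set X := max (max X1 X2) (max X3 X4) with hXdef
  have hX : ∀ z, z ∉ Metric.closedBall (0 : ℝ × ℝ) X → z ∉ tsupport χ ∧ z ∉ tsupport b ∧
      z ∉ tsupport q ∧ z ∉ tsupport a := by
    intro z hz
    refine ⟨fun h' => hz (Metric.closedBall_subset_closedBall ?_ (hX1 h')),
      fun h' => hz (Metric.closedBall_subset_closedBall ?_ (hX2 h')),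
      fun h' => hz (Metric.closedBall_subset_closedBall ?_ (hX3 h')),
      fun h' => hz (Metric.closedBall_subset_closedBall ?_ (hX4 h'))⟩
    · exact (le_max_left _ _).trans (le_max_left _ _)
    · exact (le_max_right _ _).trans (le_max_left _ _)
    · exact (le_max_left _ _).trans (le_max_right _ _)
    · exact (le_max_right _ _).trans (le_max_right _ _)
  -- outside a fixed ball all derivatives vanish at the label
  have hout : ∀ n, ∀ z, z ∉ Metric.closedBall (0 : ℝ × ℝ) (B.rad X) →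
      (ψ n z, z.2) ∉ tsupport χ ∧ (ψ n z, z.2) ∉ tsupport b ∧
      (ψ n z, z.2) ∉ tsupport q ∧ (ψ n z, z.2) ∉ tsupport a := by
    intro n z hz
    by_cases hz2 : T' ≤ z.2
    · exact ⟨hχ.eq_zero_of_le (z := (ψ n z, z.2)) hz2, hb.eq_zero_of_le (z := (ψ n z, z.2)) hz2,
        hq.eq_zero_of_le (z := (ψ n z, z.2)) hz2, ha.eq_zero_of_le (z := (ψ n z, z.2)) hz2⟩
    · apply hX
      intro h'
      rw [mem_closedBall_zero_iff] at h'
      have hz3 : z ∈ region T (bump (N + n)) := by
        show z.2 + (bump (N + n)).rOut < T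
        linarith [not_le.1 hz2, hN n]
      exact hz (by rw [mem_closedBall_zero_iff]; exact (hψ n).norm_le hz3 h')
  set P : ℕ → ℝ × ℝ → ℝ := fun n => mol (bump (N + n)) (Rx r r0) with hP
  set Q : ℕ → ℝ × ℝ → ℝ := fun n => mol (bump (N + n)) (Mx r u) with hQ
  set K : ℝ := D * (C + B.ub + 1 / B.ra + C)
    + D * (B.rb * C + B.rb * B.ub + 1 + B.rb * C) * (1 + B.ub) with hK
  have hK0 : 0 ≤ K := by
    have := B.ub_nonneg; have := B.ra_pos; have := B.rb_pos
    positivity
  -- the error bound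
  set Eb : ℕ → ℝ × ℝ → ℝ := fun n z =>
    (Metric.closedBall (0 : ℝ × ℝ) (B.rad X)).indicator
      (fun z => K * (|r z - P n z| + |Q n z - r z * u z|)) z with hEb
  have mP : ∀ n, Measurable (P n) := fun n => (hψ n).smP.continuous.measurable
  have mQ : ∀ n, Measurable (Q n) := fun n => (hψ n).smQ.continuous.measurable
  have mru : Measurable (fun z => r z * u z) := h.mr.mul h.mu
  have mEb : ∀ n, Measurable (Eb n) := by
    intro n
    refine Measurable.indicator ?_ Metric.isClosed_closedBall.measurableSet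
    exact (((h.mr.sub (mP n)).abs).add (((mQ n).sub mru).abs)).const_mul K
  have hEbb : ∀ n z, |Eb n z| ≤ K * (2 * B.rb + 2 * (B.rb * B.ub)) := by
    intro n z
    have hub := B.ub_nonneg; have hra := B.ra_pos; have hrb := B.rb_pos
    rw [hEb]
    simp only [indicator]
    split_ifs
    · have e1 : |r z - P n z| ≤ 2 * B.rb := by
        have := (h.box z).1
        have := (hψ n).bP z
        rw [abs_le]
        constructor <;> linarith [this.1, this.2, (h.box z).1.1, (h.box z).1.2]
      have e2 : |Q n z - r z * u z| ≤ 2 * (B.rb * B.ub) := by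
        refine (abs_sub _ _).trans ?_
        have a1 := (hψ n).bQ z
        have a2 := (h.box z).abs_ru
        linarith
      rw [abs_mul, abs_of_nonneg hK0, abs_of_nonneg (by positivity)]
      exact mul_le_mul_of_nonneg_left (add_le_add e1 e2) hK0
    · rw [abs_zero]; positivity
  have iEb : ∀ n, Integrable (Eb n) := fun n =>
    integrable_of_bdd_cpt (mEb n).aestronglyMeasurable (hEbb n)
      (isCompact_closedBall 0 (B.rad X)) (fun z hz => indicator_of_notMem hz _)
  have limEb : Tendsto (fun n => ∫ z in up, Eb n z) atTop (𝓝 0) := by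
    have h0 : (0 : ℝ) = ∫ z in up, (0 : ℝ) := by simp
    rw [h0]
    refine tendsto_integral_of_dominated_convergence
      (fun z => (Metric.closedBall (0 : ℝ × ℝ) (B.rad X)).indicator
        (fun _ => K * (2 * B.rb + 2 * (B.rb * B.ub))) z) ?_ ?_ ?_ ?_
    · exact fun n => (mEb n).aestronglyMeasurable
    · refine Integrable.integrableOn ?_
      rw [integrable_indicator_iff Metric.isClosed_closedBall.measurableSet]
      exact integrableOn_const (isCompact_closedBall _ _).measure_lt_top.ne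
    · intro n
      refine Filter.Eventually.of_forall fun z => ?_
      by_cases hz : z ∈ Metric.closedBall (0 : ℝ × ℝ) (B.rad X)
      · rw [indicator_of_mem hz]
        exact hEbb n z
      · rw [indicator_of_notMem hz]
        rw [hEb]
        simp only [indicator_of_notMem hz]
        simp
    · have c1 := ae_tendsto_mol N h.locInt_Rx
      have c2 := ae_tendsto_mol N h.locInt_Mx
      rw [ae_restrict_iff' measurableSet_up]
      filter_upwards [c1, c2] with z hz1 hz2 hz
      have hz' : 0 < z.2 := hz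
      have e1 : Rx r r0 z = r z := ext_of_pos hz'
      have e2 : Mx r u z = r z * u z := ext_of_pos hz'
      rw [e1] at hz1
      rw [e2] at hz2
      by_cases hzb : z ∈ Metric.closedBall (0 : ℝ × ℝ) (B.rad X)
      · have e3 : (fun n => Eb n z) = fun n => K * (|r z - P n z| + |Q n z - r z * u z|) := by
          ext n
          rw [hEb]
          simp only [indicator_of_mem hzb]
        rw [e3]
        have f1 : Tendsto (fun n => |r z - P n z|) atTop (𝓝 |r z - r z|) :=
          (tendsto_const_nhds.sub hz1).abs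
        have f2 : Tendsto (fun n => |Q n z - r z * u z|) atTop (𝓝 |r z * u z - r z * u z|) :=
          (hz2.sub tendsto_const_nhds).abs
        simpa using (f1.add f2).const_mul K
      · have e3 : (fun n => Eb n z) = fun n => 0 := by
          ext n
          rw [hEb]
          simp only [indicator_of_notMem hzb]
        rw [e3]
        exact tendsto_const_nhds
  -- the inequality for each n
  have key : ∀ n, 0 ≤ (∫ z in up, J z) + (∫ z in up, Eb n z) +
      ∫ x, (r0 x * te γ (r0 x) (u0 x) (p0 x) * χ (ψ n (x, 0), 0)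
        - r0 x * u0 x * b (ψ n (x, 0), 0)
        + q (ψ n (x, 0), 0) - r0 x * sp γ (r0 x) (p0 x) * a (ψ n (x, 0), 0)) := by
    intro n
    have k1 := h.eps_ineq hγ (hψ n) (hN n) hχ hb hq ha ha0
    obtain ⟨k2, k3⟩ := (hψ n).change2 (hN n) hJm hJC hJX hJT
    rw [← k3, ← integral_add k2.integrableOn (iEb n).integrableOn]
    refine k1.trans (add_le_add ?_ le_rfl)
    have mlab : Measurable (fun z : ℝ × ℝ => (ψ n z, z.2)) := (hψ n).meas.prodMk measurable_snd
    have n1 := (continuous_dt hχ.smooth).measurable.comp mlab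
    have n2 := (continuous_dx hχ.smooth).measurable.comp mlab
    have n3 := (continuous_dt hb.smooth).measurable.comp mlab
    have n4 := (continuous_dx hb.smooth).measurable.comp mlab
    have n5 := (continuous_dt hq.smooth).measurable.comp mlab
    have n6 := (continuous_dx hq.smooth).measurable.comp mlab
    have n7 := (continuous_dt ha.smooth).measurable.comp mlab
    have n8 := (continuous_dx ha.smooth).measurable.comp mlab
    have mte := h.meas_te
    have msp := h.meas_sp
    have mlin : Measurable (fun z => lin γ (r z) (u z) (p z) (dt χ (ψ n z, z.2))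
        (dx χ (ψ n z, z.2)) (dt b (ψ n z, z.2)) (dx b (ψ n z, z.2)) (dt q (ψ n z, z.2))
        (dx q (ψ n z, z.2)) (dt a (ψ n z, z.2))) := by
      unfold lin
      exact ((((((mte.mul n1).sub (h.mu.mul n3)).add ((h.mr.const_div 1).mul n5)).sub
        (msp.mul n7)).add ((h.mp.mul h.mu).mul n2)).sub (h.mp.mul n4)).sub (h.mu.mul n6)
    have merr : Measurable (fun z => errf γ (r z) (u z) (p z) (P n z) (Q n z)
        (dt χ (ψ n z, z.2)) (dx χ (ψ n z, z.2))
        (dt b (ψ n z, z.2)) (dx b (ψ n z, z.2)) (dt q (ψ n z, z.2)) (dx q (ψ n z, z.2))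
        (dt a (ψ n z, z.2)) (dx a (ψ n z, z.2))) := by
      unfold errf
      exact ((h.mr.sub (mP n)).mul ((((mte.mul n1).sub (h.mu.mul n3)).add
        ((h.mr.const_div 1).mul n5)).sub (msp.mul n7))).add
        (((mQ n).sub (h.mu.mul (mP n))).mul
          ((((((h.mr.mul mte).mul n2).neg).add ((h.mr.mul h.mu).mul n4)).sub n6).add
            ((h.mr.mul msp).mul n8)))
    have hEle : ∀ z, errf γ (r z) (u z) (p z) (P n z) (Q n z)
        (dt χ (ψ n z, z.2)) (dx χ (ψ n z, z.2))
        (dt b (ψ n z, z.2)) (dx b (ψ n z, z.2)) (dt q (ψ n z, z.2)) (dx q (ψ n z, z.2))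
        (dt a (ψ n z, z.2)) (dx a (ψ n z, z.2)) ≤ Eb n z ∧
        |errf γ (r z) (u z) (p z) (P n z) (Q n z)
        (dt χ (ψ n z, z.2)) (dx χ (ψ n z, z.2))
        (dt b (ψ n z, z.2)) (dx b (ψ n z, z.2)) (dt q (ψ n z, z.2)) (dx q (ψ n z, z.2))
        (dt a (ψ n z, z.2)) (dx a (ψ n z, z.2))| ≤ K * (2 * B.rb + 2 * (B.rb * B.ub)) := by
      intro z
      have e1 := errf_bound (P := P n z) (Q := Q n z) (h.box z) (hC _ _ _ (h.box z))
        (hD (ψ n z, z.2))
      by_cases hz : z ∈ Metric.closedBall (0 : ℝ × ℝ) (B.rad X)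
      · have e2 : Eb n z = K * (|r z - P n z| + |Q n z - r z * u z|) := by
          rw [hEb]; simp only [indicator_of_mem hz]
        have e3 := hEbb n z
        rw [e2] at e3 ⊢
        exact ⟨(le_abs_self _).trans e1, e1.trans ((le_abs_self _).trans e3)⟩
      · obtain ⟨o1, o2, o3, o4⟩ := hout n z hz
        have e2 : Eb n z = 0 := by rw [hEb]; simp only [indicator_of_notMem hz]
        rw [e2, dt_eq_zero o1, dx_eq_zero o1, dt_eq_zero o2, dx_eq_zero o2, dt_eq_zero o3,
          dx_eq_zero o3, dt_eq_zero o4, dx_eq_zero o4, errf]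
        simp only [mul_zero, sub_zero, add_zero, neg_zero, le_refl, abs_zero, true_and]
        have := B.rb_pos; have := B.ub_nonneg
        positivity
    refine setIntegral_mono_on ?_ (k2.add (iEb n)).integrableOn measurableSet_up ?_
    · refine Integrable.integrableOn ?_
      refine integrable_of_bdd_cpt (C := B.rb * (D * (C + B.ub + 1 / B.ra + C + B.pb * B.ub
        + B.pb + B.ub)) + K * (2 * B.rb + 2 * (B.rb * B.ub)))
        (((mP n).mul mlin).add merr).aestronglyMeasurable ?_ (isCompact_closedBall 0 (B.rad X)) ?_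
      · intro z
        rw [Real.norm_eq_abs]
        refine (abs_add_le _ _).trans (add_le_add ?_ (hEle z).2)
        rw [abs_mul]
        have hPb : |P n z| ≤ B.rb :=
          abs_le.2 ⟨by linarith [((hψ n).bP z).1, B.ra_pos, B.rb_pos], ((hψ n).bP z).2⟩
        have hd := hD (ψ n z, z.2)
        refine mul_le_mul hPb (lin_bound (h.box z) (hC _ _ _ (h.box z))
          ⟨hd.1, hd.2.1, hd.2.2.1, hd.2.2.2.1, hd.2.2.2.2.1, hd.2.2.2.2.2.1, hd.2.2.2.2.2.2.1⟩)
          (abs_nonneg _) B.rb_pos.le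
      · intro z hz
        obtain ⟨o1, o2, o3, o4⟩ := hout n z hz
        rw [dt_eq_zero o1, dx_eq_zero o1, dt_eq_zero o2, dx_eq_zero o2, dt_eq_zero o3,
          dx_eq_zero o3, dt_eq_zero o4, dx_eq_zero o4, errf, lin]
        ring
    · intro z hz
      refine add_le_add ?_ (hEle z).1
      refine mul_le_mul_of_nonneg_left ?_ (le_trans B.ra_pos.le ((hψ n).bP z).1)
      exact hJ (ψ n z, z.2) hz _ _ _ (h.box z)
  -- passage to the limit
  have limI : Tendsto (fun n => ∫ x, (r0 x * te γ (r0 x) (u0 x) (p0 x) * χ (ψ n (x, 0), 0)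
        - r0 x * u0 x * b (ψ n (x, 0), 0)
        + q (ψ n (x, 0), 0) - r0 x * sp γ (r0 x) (p0 x) * a (ψ n (x, 0), 0))) atTop
      (𝓝 (∫ x, (r0 x * te γ (r0 x) (u0 x) (p0 x) * χ (Y0 r0 x, 0) - r0 x * u0 x * b (Y0 r0 x, 0)
        + q (Y0 r0 x, 0) - r0 x * sp γ (r0 x) (p0 x) * a (Y0 r0 x, 0)))) := by
    obtain ⟨F1, hF1, hF1'⟩ := exists_bound_self hχ.continuous hχ.cpt
    obtain ⟨F2, hF2, hF2'⟩ := exists_bound_self hb.continuous hb.cpt
    obtain ⟨F3, hF3, hF3'⟩ := exists_bound_self hq.continuous hq.cpt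
    obtain ⟨F4, hF4, hF4'⟩ := exists_bound_self ha.continuous ha.cpt
    have mlab : ∀ n, Measurable (fun x : ℝ => (ψ n (x, 0), (0 : ℝ))) := fun n =>
      ((hψ n).meas.comp (measurable_id.prodMk measurable_const)).prodMk measurable_const
    refine tendsto_integral_of_dominated_convergence
      (fun x => (Metric.closedBall (0 : ℝ) (B.rad X)).indicator
        (fun _ => B.rb * C * F1 + B.rb * B.ub * F2 + F3 + B.rb * C * F4) x) ?_ ?_ ?_ ?_
    · intro n
      exact (((((h.mr0.mul h.meas_te0).mul (hχ.continuous.measurable.comp (mlab n))).sub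
        ((h.mr0.mul h.mu0).mul (hb.continuous.measurable.comp (mlab n)))).add
        (hq.continuous.measurable.comp (mlab n))).sub
        ((h.mr0.mul h.meas_sp0).mul (ha.continuous.measurable.comp (mlab n)))).aestronglyMeasurable
    · rw [integrable_indicator_iff Metric.isClosed_closedBall.measurableSet]
      exact integrableOn_const (isCompact_closedBall _ _).measure_lt_top.ne
    · intro n
      refine Filter.Eventually.of_forall fun x => ?_
      by_cases hx : x ∈ Metric.closedBall (0 : ℝ) (B.rad X)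
      · rw [indicator_of_mem hx, Real.norm_eq_abs]
        have hrb := B.rb_pos; have hub := B.ub_nonneg
        have g1 : |r0 x * te γ (r0 x) (u0 x) (p0 x) * χ (ψ n (x, 0), 0)| ≤ B.rb * C * F1 := by
          rw [abs_mul, abs_mul]
          exact mul_le_mul (mul_le_mul (h.box0 x).abs_r (hC _ _ _ (h.box0 x)).1 (abs_nonneg _)
            hrb.le) (hF1' _) (abs_nonneg _) (by positivity)
        have g2 : |r0 x * u0 x * b (ψ n (x, 0), 0)| ≤ B.rb * B.ub * F2 := by
          rw [abs_mul]
          exact mul_le_mul (h.box0 x).abs_ru (hF2' _) (abs_nonneg _) (by positivity)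
        have g3 : |r0 x * sp γ (r0 x) (p0 x) * a (ψ n (x, 0), 0)| ≤ B.rb * C * F4 := by
          rw [abs_mul, abs_mul]
          exact mul_le_mul (mul_le_mul (h.box0 x).abs_r (hC _ _ _ (h.box0 x)).2 (abs_nonneg _)
            hrb.le) (hF4' _) (abs_nonneg _) (by positivity)
        have g4 := hF3' (ψ n (x, 0), 0)
        have k1 := abs_sub (r0 x * te γ (r0 x) (u0 x) (p0 x) * χ (ψ n (x, 0), 0)
          - r0 x * u0 x * b (ψ n (x, 0), 0) + q (ψ n (x, 0), 0))
          (r0 x * sp γ (r0 x) (p0 x) * a (ψ n (x, 0), 0))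
        have k2 := abs_add_le (r0 x * te γ (r0 x) (u0 x) (p0 x) * χ (ψ n (x, 0), 0)
          - r0 x * u0 x * b (ψ n (x, 0), 0)) (q (ψ n (x, 0), 0))
        have k3 := abs_sub (r0 x * te γ (r0 x) (u0 x) (p0 x) * χ (ψ n (x, 0), 0))
          (r0 x * u0 x * b (ψ n (x, 0), 0))
        linarith
      · rw [indicator_of_notMem hx]
        have hx' : ((x, 0) : ℝ × ℝ) ∉ Metric.closedBall (0 : ℝ × ℝ) (B.rad X) := by
          intro h'
          apply hx
          rw [mem_closedBall_zero_iff] at h' ⊢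
          exact (norm_fst_le (x, (0 : ℝ))).trans h'
        obtain ⟨o1, o2, o3, o4⟩ := hout n (x, 0) hx'
        simp only at o1 o2 o3 o4
        rw [image_eq_zero_of_notMem_tsupport o1, image_eq_zero_of_notMem_tsupport o2,
          image_eq_zero_of_notMem_tsupport o3, image_eq_zero_of_notMem_tsupport o4]
        simp
    · refine Filter.Eventually.of_forall fun x => ?_
      have hl : Tendsto (fun n => (ψ n (x, 0), (0 : ℝ))) atTop (𝓝 (Y0 r0 x, 0)) :=
        (h.tendsto_label N hψ x).prodMk_nhds tendsto_const_nhds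
      have l1 := (hχ.continuous.tendsto _).comp hl
      have l2 := (hb.continuous.tendsto _).comp hl
      have l3 := (hq.continuous.tendsto _).comp hl
      have l4 := (ha.continuous.tendsto _).comp hl
      exact (((l1.const_mul _).sub (l2.const_mul _)).add l3).sub (l4.const_mul _)
  have lim := (((tendsto_const_nhds (x := ∫ z in up, J z)).add limEb).add limI)
  have := ge_of_tendsto' lim key
  simpa using this

/-- change of variables to labels at the initial time -/
theorem Sol.change0 (h : Sol γ T B r u p r0 u0 p0) (hT0 : 0 < T) {g : ℝ → ℝ} (hg : Continuous g)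
    (hc : HasCompactSupport g) : ∫ x, r0 x * g (Y0 r0 x) = ∫ y, g y := by
  obtain ⟨N, hN⟩ : ∃ N : ℕ, ∀ n : ℕ, (bump (N + n)).rOut < T := by
    obtain ⟨N, hN⟩ := exists_nat_one_div_lt hT0
    refine ⟨N, fun n => ?_⟩
    rw [bump_rOut]
    have : 1 / (((N + n : ℕ) : ℝ) + 1) ≤ 1 / ((N : ℝ) + 1) := by
      apply one_div_le_one_div_of_le (by positivity)
      push_cast
      linarith [(Nat.cast_nonneg n : (0 : ℝ) ≤ n)]
    linarith
  choose ψ hψ using fun n => h.exists_lab (bump (N + n)) (hN n)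
  have h1 := ae_tendsto_mol N h.locInt_Rx
  rw [Measure.volume_eq_prod] at h1
  have h2 : ∀ᵐ z : ℝ × ℝ ∂(volume.prod volume),
      Tendsto (fun n => mol (bump (N + n)) (Rx r r0) z.swap) atTop (𝓝 (Rx r r0 z.swap)) :=
    (Measure.measurePreserving_swap).quasiMeasurePreserving.ae h1
  have h3 := Measure.ae_ae_of_ae_prod h2
  obtain ⟨t, ht, ht2⟩ := exists_mem_of_ae h3 (show (-2 : ℝ) < -1 by norm_num)
  have hone : ∀ n : ℕ, (bump (N + n)).rOut ≤ 1 := by
    intro n
    rw [bump_rOut, div_le_one (by positivity)]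
    have : (0 : ℝ) ≤ ((N + n : ℕ) : ℝ) := Nat.cast_nonneg _
    linarith
  have htn : ∀ n : ℕ, t ≤ - (bump (N + n)).rOut := fun n => by
    have := hone n
    have := ht.2
    linarith
  have htT : ∀ n : ℕ, t + (bump (N + n)).rOut < T := fun n => by
    have := (hψ n).posT
    have := htn n
    have := (bump (N + n)).rOut_pos
    linarith
  have hlab : ∀ x, Tendsto (fun n => ψ n (x, t)) atTop (𝓝 (Y0 r0 x)) := by
    intro x
    have a1 := h.tendsto_label N hψ x
    have a2 : Tendsto (fun n => B.L * (bump (N + n)).rOut) atTop (𝓝 0) := by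
      have : Tendsto (fun n => (bump (N + n)).rOut) atTop (𝓝 0) :=
        tendsto_bump.comp (tendsto_add_atTop_nat N |>.congr fun n => by rw [add_comm])
      simpa using this.const_mul B.L
    have a3 : Tendsto (fun n => ψ n (x, 0) - ψ n (x, t)) atTop (𝓝 0) :=
      squeeze_zero_norm (fun n => (hψ n).near_init x (htn n)) a2
    have a4 := a1.sub a3
    simpa using a4
  obtain ⟨G, hG⟩ := hc.exists_bound_of_continuous hg
  have hG0 : 0 ≤ G := le_trans (norm_nonneg _) (hG 0)
  obtain ⟨X, hX⟩ := hc.isCompact.isBounded.subset_closedBall 0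
  set X' : ℝ := (X + B.L * 2) / B.ra with hX'
  have hout : ∀ n x, x ∉ Metric.closedBall (0 : ℝ) X' → g (ψ n (x, t)) = 0 := by
    intro n x hx
    apply image_eq_zero_of_notMem_tsupport
    intro h'
    have h4 := hX h'
    rw [mem_closedBall_zero_iff, Real.norm_eq_abs] at h4
    apply hx
    rw [mem_closedBall_zero_iff, Real.norm_eq_abs, hX', le_div_iff₀ B.ra_pos]
    have h5 := (hψ n).abs_lower (htT n) x
    have h6 : |ψ n (0, t)| ≤ B.L * 2 := by
      have h7 := (hψ n).near_init 0 (htn n)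
      rw [(hψ n).h0, zero_sub, abs_neg] at h7
      have h8 := hone n
      have h9 := B.L_nonneg
      nlinarith
    have h10 := abs_sub (ψ n (x, t)) (ψ n (0, t))
    rw [mul_comm]
    linarith
  have lim : Tendsto (fun n => ∫ x, mol (bump (N + n)) (Rx r r0) (x, t) * g (ψ n (x, t))) atTop
      (𝓝 (∫ x, r0 x * g (Y0 r0 x))) := by
    refine tendsto_integral_of_dominated_convergence
      (fun x => (Metric.closedBall (0 : ℝ) X').indicator (fun _ => B.rb * G) x) ?_ ?_ ?_ ?_
    · intro n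
      refine Continuous.aestronglyMeasurable ?_
      refine ((hψ n).smP.continuous.comp (continuous_id.prodMk continuous_const)).mul
        (hg.comp ((hψ n).diff_x (htT n)).continuous)
    · rw [integrable_indicator_iff Metric.isClosed_closedBall.measurableSet]
      exact integrableOn_const (isCompact_closedBall _ _).measure_lt_top.ne
    · intro n
      refine Filter.Eventually.of_forall fun x => ?_
      by_cases hx : x ∈ Metric.closedBall (0 : ℝ) X'
      · rw [indicator_of_mem hx, norm_mul]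
        refine mul_le_mul ?_ (hG _) (norm_nonneg _) B.rb_pos.le
        have := (hψ n).bP (x, t)
        rw [Real.norm_eq_abs]
        exact abs_le.2 ⟨by linarith [B.ra_pos, B.rb_pos, this.1], this.2⟩
      · rw [indicator_of_notMem hx, hout n x hx, mul_zero, norm_zero]
    · filter_upwards [ht2] with x hx
      have h5 : Rx r r0 (Prod.swap (t, x)) = r0 x := by
        simp only [Prod.swap_prod_mk]
        exact ext_of_nonpos (z := (x, t)) (by simpa using by linarith [ht.2])
      rw [h5] at hx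
      exact hx.mul ((hg.tendsto _).comp (hlab x))
  have const : (fun n => ∫ x, mol (bump (N + n)) (Rx r r0) (x, t) * g (ψ n (x, t)))
      = fun _ => ∫ y, g y := by
    ext n
    exact (hψ n).change (htT n) g
  rw [const] at lim
  exact (tendsto_nhds_unique lim tendsto_const_nhds)

end

end Pool.Agent.helper23_Euler
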