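import Mathlib
import Pool.Agent.helper23_Euler.Limit

open MeasureTheory Set Filter Topology
open scoped ContDiff Convolution

namespace Pool.Agent.helper23_Euler

noncomputable section

/-- entropy as a function of pressure and temperature -/
def Sb (γ pb Tb : ℝ) : ℝ := (1 - γ) * Real.log pb + γ * Real.log Tb + γ * Real.log (γ - 1)

/-- the function `G` -/
def Gf (γ ub pb Tb : ℝ) : ℝ := γ * Tb - ub ^ 2 / 2 - Tb * Sb γ pb Tb

/-- relative energy of the state `(r,u,p)` with respect to `(ub,pb,Tb)` -/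
def relE (γ r u p ub pb Tb : ℝ) : ℝ :=
  te γ r u p - u * ub + (1 / r) * pb - sp γ r p * Tb - Gf γ ub pb Tb

/-- `x - 1 - log x` -/
def fl (x : ℝ) : ℝ := x - 1 - Real.log x

lemma fl_ge {x : ℝ} (hx : 0 < x) : (Real.sqrt x - 1) ^ 2 ≤ fl x := by
  have hs : 0 < Real.sqrt x := Real.sqrt_pos.2 hx
  have h1 : Real.log (Real.sqrt x) ≤ Real.sqrt x - 1 := Real.log_le_sub_one_of_pos hs
  have h2 : Real.log (Real.sqrt x) = Real.log x / 2 := Real.log_sqrt hx.le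
  have h3 : Real.sqrt x ^ 2 = x := Real.sq_sqrt hx.le
  unfold fl
  nlinarith

lemma relE_eq {γ r u p ub pb Tb : ℝ} (hγ : 1 < γ) (hr : 0 < r) (hp : 0 < p) (hpb : 0 < pb)
    (hTb : 0 < Tb) :
    relE γ r u p ub pb Tb = (u - ub) ^ 2 / 2 + Tb * fl (en γ r p / Tb)
      + (γ - 1) * Tb * fl (pb / (r * ((γ - 1) * Tb))) := by
  have hγ' : 0 < γ - 1 := by linarith
  have e1 : Real.log (en γ r p / Tb) =
      Real.log p - Real.log (γ - 1) - Real.log r - Real.log Tb := by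
    unfold en
    rw [Real.log_div (by positivity) hTb.ne', Real.log_div hp.ne' (by positivity),
      Real.log_mul hγ'.ne' hr.ne']
    ring
  have e2 : Real.log (pb / (r * ((γ - 1) * Tb))) =
      Real.log pb - Real.log r - Real.log (γ - 1) - Real.log Tb := by
    rw [Real.log_div hpb.ne' (by positivity), Real.log_mul hr.ne' (by positivity),
      Real.log_mul hγ'.ne' hTb.ne']
    ring
  unfold relE fl Gf Sb te sp
  rw [e1, e2]
  unfold en
  field_simp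
  ring

lemma relE_ge {γ r u p ub pb Tb : ℝ} (hγ : 1 < γ) (hr : 0 < r) (hp : 0 < p) (hpb : 0 < pb)
    (hTb : 0 < Tb) :
    (u - ub) ^ 2 / 2 + Tb * (Real.sqrt (en γ r p / Tb) - 1) ^ 2
      + (γ - 1) * Tb * (Real.sqrt (pb / (r * ((γ - 1) * Tb))) - 1) ^ 2 ≤ relE γ r u p ub pb Tb := by
  have hγ' : 0 < γ - 1 := by linarith
  rw [relE_eq hγ hr hp hpb hTb]
  have h1 : (Real.sqrt (en γ r p / Tb) - 1) ^ 2 ≤ fl (en γ r p / Tb) := by
    apply fl_ge
    unfold en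
    positivity
  have h2 : (Real.sqrt (pb / (r * ((γ - 1) * Tb))) - 1) ^ 2 ≤ fl (pb / (r * ((γ - 1) * Tb))) := by
    apply fl_ge
    positivity
  gcongr

lemma relE_nonneg {γ r u p ub pb Tb : ℝ} (hγ : 1 < γ) (hr : 0 < r) (hp : 0 < p) (hpb : 0 < pb)
    (hTb : 0 < Tb) : 0 ≤ relE γ r u p ub pb Tb := by
  have hγ' : 0 < γ - 1 := by linarith
  refine le_trans ?_ (relE_ge hγ hr hp hpb hTb)
  positivity

/-- the flux of the relative energy is dominated by the relative energy -/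
lemma exists_flux_bound {γ : ℝ} (hγ : 1 < γ) (B : Bds) {p1 p2 t1 t2 : ℝ} (hp1 : 0 < p1)
    (ht1 : 0 < t1) (ht12 : t1 ≤ t2) (hp12 : p1 ≤ p2) :
    ∃ L, 0 < L ∧ ∀ r u p ub pb Tb, B.In r u p → p1 ≤ pb → pb ≤ p2 → t1 ≤ Tb → Tb ≤ t2 →
      |(p - pb) * (u - ub)| ≤ L * relE γ r u p ub pb Tb := by
  have hγ' : 0 < γ - 1 := by linarith
  have hra := B.ra_pos
  have hrb := B.rb_pos
  have hpB : 0 < B.pb := lt_of_lt_of_le B.pa_pos B.pab
  have ht2 : 0 < t2 := lt_of_lt_of_le ht1 ht12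
  have hp2 : 0 < p2 := lt_of_lt_of_le hp1 hp12
  set κ : ℝ := B.rb * ((γ - 1) * t2) with hκ
  set A : ℝ := 2 * (B.pb / ((γ - 1) * B.ra) / t1) + 2 with hA
  set A' : ℝ := 2 * (p2 / (B.ra * ((γ - 1) * t1))) + 2 with hA'
  have hκ0 : 0 < κ := by positivity
  have hA0 : 0 < A := by positivity
  have hA0' : 0 < A' := by positivity
  refine ⟨1 + κ ^ 2 * A / t1 + κ ^ 2 * A' / ((γ - 1) * t1), by positivity, ?_⟩
  intro r u p ub pb Tb hin h1 h2 h3 h4
  have hr := hin.r_pos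
  have hp := hin.p_pos
  have hpb : 0 < pb := lt_of_lt_of_le hp1 h1
  have hTb : 0 < Tb := lt_of_lt_of_le ht1 h3
  have hrel := relE_ge (u := u) (ub := ub) hγ hr hp hpb hTb
  set x := Real.sqrt (en γ r p / Tb) with hx
  set y := Real.sqrt (pb / (r * ((γ - 1) * Tb))) with hy
  have hen : 0 < en γ r p := by unfold en; positivity
  have hx0 : 0 ≤ x := Real.sqrt_nonneg _
  have hy0 : 0 ≤ y := Real.sqrt_nonneg _
  have hx2 : x ^ 2 = en γ r p / Tb := Real.sq_sqrt (by positivity)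
  have hy2 : y ^ 2 = pb / (r * ((γ - 1) * Tb)) := Real.sq_sqrt (by positivity)
  have hxA : (x + 1) ^ 2 ≤ A := by
    have e1 : x ^ 2 ≤ B.pb / ((γ - 1) * B.ra) / t1 := by
      rw [hx2]
      unfold en
      have := hin.1.1
      have := hin.2.2.2
      gcongr
    nlinarith [sq_nonneg (x - 1)]
  have hyA : (y + 1) ^ 2 ≤ A' := by
    have e1 : y ^ 2 ≤ p2 / (B.ra * ((γ - 1) * t1)) := by
      rw [hy2]
      have := hin.1.1
      gcongr
    nlinarith [sq_nonneg (y - 1)]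
  have hpp : p - pb = (r * ((γ - 1) * Tb)) * ((x ^ 2 - 1) - (y ^ 2 - 1)) := by
    rw [hx2, hy2]
    unfold en
    field_simp
    ring
  have hκ1 : r * ((γ - 1) * Tb) ≤ κ := by
    rw [hκ]
    have := hin.1.2
    gcongr
  have hκ2 : 0 < r * ((γ - 1) * Tb) := by positivity
  have hsq : (p - pb) ^ 2 ≤ 2 * κ ^ 2 * ((x - 1) ^ 2 * A + (y - 1) ^ 2 * A') := by
    rw [hpp, mul_pow]
    have e1 : (r * ((γ - 1) * Tb)) ^ 2 ≤ κ ^ 2 := by gcongr
    have e2 : ((x ^ 2 - 1) - (y ^ 2 - 1)) ^ 2 ≤ 2 * ((x - 1) ^ 2 * A + (y - 1) ^ 2 * A') := by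
      have e3 : ((x ^ 2 - 1) - (y ^ 2 - 1)) ^ 2 ≤ 2 * ((x ^ 2 - 1) ^ 2 + (y ^ 2 - 1) ^ 2) := by
        nlinarith [sq_nonneg ((x ^ 2 - 1) + (y ^ 2 - 1))]
      have e4 : (x ^ 2 - 1) ^ 2 ≤ (x - 1) ^ 2 * A := by
        have : (x ^ 2 - 1) ^ 2 = (x - 1) ^ 2 * (x + 1) ^ 2 := by ring
        rw [this]
        gcongr
      have e5 : (y ^ 2 - 1) ^ 2 ≤ (y - 1) ^ 2 * A' := by
        have : (y ^ 2 - 1) ^ 2 = (y - 1) ^ 2 * (y + 1) ^ 2 := by ring
        rw [this]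
        gcongr
      linarith
    calc _ ≤ κ ^ 2 * (2 * ((x - 1) ^ 2 * A + (y - 1) ^ 2 * A')) := by
          apply mul_le_mul e1 e2 (sq_nonneg _) (sq_nonneg _)
      _ = _ := by ring
  have hprod : |(p - pb) * (u - ub)| ≤ (p - pb) ^ 2 / 2 + (u - ub) ^ 2 / 2 := by
    rw [abs_mul]
    nlinarith [sq_nonneg (|p - pb| - |u - ub|), sq_abs (p - pb), sq_abs (u - ub)]
  have hx1 : (x - 1) ^ 2 * t1 ≤ relE γ r u p ub pb Tb := by
    have : (x - 1) ^ 2 * t1 ≤ Tb * (x - 1) ^ 2 := by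
      rw [mul_comm]; gcongr
    have a1 : 0 ≤ (u - ub) ^ 2 / 2 := by positivity
    have a2 : 0 ≤ (γ - 1) * Tb * (y - 1) ^ 2 := by positivity
    linarith
  have hy1 : (y - 1) ^ 2 * ((γ - 1) * t1) ≤ relE γ r u p ub pb Tb := by
    have : (y - 1) ^ 2 * ((γ - 1) * t1) ≤ (γ - 1) * Tb * (y - 1) ^ 2 := by
      rw [mul_comm]; gcongr
    have a1 : 0 ≤ (u - ub) ^ 2 / 2 := by positivity
    have a2 : 0 ≤ Tb * (x - 1) ^ 2 := by positivity
    linarith
  have hu1 : (u - ub) ^ 2 / 2 ≤ relE γ r u p ub pb Tb := by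
    have a1 : 0 ≤ (γ - 1) * Tb * (y - 1) ^ 2 := by positivity
    have a2 : 0 ≤ Tb * (x - 1) ^ 2 := by positivity
    linarith
  have f1 : (x - 1) ^ 2 ≤ relE γ r u p ub pb Tb / t1 := by rwa [le_div_iff₀ ht1]
  have f2 : (y - 1) ^ 2 ≤ relE γ r u p ub pb Tb / ((γ - 1) * t1) := by
    rwa [le_div_iff₀ (by positivity)]
  calc |(p - pb) * (u - ub)| ≤ (p - pb) ^ 2 / 2 + (u - ub) ^ 2 / 2 := hprod
    _ ≤ κ ^ 2 * ((x - 1) ^ 2 * A + (y - 1) ^ 2 * A') + relE γ r u p ub pb Tb := by linarith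
    _ ≤ κ ^ 2 * ((relE γ r u p ub pb Tb / t1) * A +
        (relE γ r u p ub pb Tb / ((γ - 1) * t1)) * A') + relE γ r u p ub pb Tb := by
        gcongr
    _ = _ := by ring

end

end Pool.Agent.helper23_Euler
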