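import Mathlib
import Pool.Agent.helper23_Euler.RelEnergy

open MeasureTheory Set Filter Topology
open scoped ContDiff Convolution

namespace Pool.Agent.helper23_Euler

noncomputable section

/-- a self-similar function times a cut-off -/
def ssc (f : ℝ → ℝ) (ν : ℝ) (χ : ℝ × ℝ → ℝ) (z : ℝ × ℝ) : ℝ := f (z.1 / (z.2 + ν)) * χ z

section ssc

variable {f f' : ℝ → ℝ} {ν T' : ℝ} {χ : ℝ × ℝ → ℝ}

lemma ssc_eq_zero {z : ℝ × ℝ} (hz : z ∉ tsupport χ) : ssc f ν χ =ᶠ[𝓝 z] fun _ => 0 := by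
  have h1 : ∀ᶠ w in 𝓝 z, w ∈ (tsupport χ)ᶜ :=
    (isClosed_tsupport χ).isOpen_compl.mem_nhds hz
  filter_upwards [h1] with w hw
  rw [ssc, image_eq_zero_of_notMem_tsupport hw, mul_zero]

lemma contDiff_ssc (hf : ContDiff ℝ ∞ f) (hχ : ContDiff ℝ ∞ χ)
    (hs : tsupport χ ⊆ {z | -ν < z.2}) : ContDiff ℝ ∞ (ssc f ν χ) := by
  rw [contDiff_iff_contDiffAt]
  intro z
  by_cases hz : z ∈ tsupport χ
  · have h1 : z.2 + ν ≠ 0 := by
      have : -ν < z.2 := hs hz
      intro h0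
      linarith
    have h2 : ContDiffAt ℝ ∞ (fun z : ℝ × ℝ => z.1 / (z.2 + ν)) z :=
      contDiffAt_fst.div (contDiffAt_snd.add contDiffAt_const) h1
    exact (hf.contDiffAt.comp z h2).mul hχ.contDiffAt
  · exact contDiffAt_const.congr_of_eventuallyEq (ssc_eq_zero hz)

lemma tsupport_ssc : tsupport (ssc f ν χ) ⊆ tsupport χ := by
  refine closure_minimal ?_ (isClosed_tsupport χ)
  intro z hz
  by_contra h'
  exact hz (by rw [ssc, image_eq_zero_of_notMem_tsupport h', mul_zero])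

lemma isTest_ssc (hf : ContDiff ℝ ∞ f) (hχ : IsTest T' χ)
    (hs : tsupport χ ⊆ {z | -ν < z.2}) : IsTest T' (ssc f ν χ) where
  smooth := contDiff_ssc hf hχ.smooth hs
  cpt := HasCompactSupport.of_support_subset_isCompact hχ.cpt.isCompact
    (subset_trans (subset_tsupport _) tsupport_ssc)
  supp := subset_trans tsupport_ssc hχ.supp

lemma dt_ssc (hf : ∀ η, HasDerivAt f (f' η) η) (hfs : ContDiff ℝ ∞ f) (hχ : ContDiff ℝ ∞ χ)
    (hs : tsupport χ ⊆ {z | -ν < z.2}) {z : ℝ × ℝ} (hz : 0 < z.2 + ν) :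
    dt (ssc f ν χ) z = f (z.1 / (z.2 + ν)) * dt χ z
      - (z.1 / (z.2 + ν)) * f' (z.1 / (z.2 + ν)) * (χ z / (z.2 + ν)) := by
  obtain ⟨x, t⟩ := z
  simp only at hz ⊢
  have h1 := hasDerivAt_slice_t ((contDiff_ssc hfs hχ hs).differentiable (by simp)) x t
  have h2 : HasDerivAt (fun s : ℝ => x / (s + ν)) ((0 * (t + ν) - x * 1) / (t + ν) ^ 2) t :=
    (hasDerivAt_const t x).div ((hasDerivAt_id t).add_const ν) hz.ne'
  have h3 := (hf (x / (t + ν))).comp t h2
  have h4 := h3.mul (hasDerivAt_slice_t (hχ.differentiable (by simp)) x t)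
  have h5 := h1.unique h4
  rw [h5]
  simp only [Function.comp_apply]
  field_simp
  ring

lemma dx_ssc (hf : ∀ η, HasDerivAt f (f' η) η) (hfs : ContDiff ℝ ∞ f) (hχ : ContDiff ℝ ∞ χ)
    (hs : tsupport χ ⊆ {z | -ν < z.2}) {z : ℝ × ℝ} (hz : 0 < z.2 + ν) :
    dx (ssc f ν χ) z = f (z.1 / (z.2 + ν)) * dx χ z
      + f' (z.1 / (z.2 + ν)) * (χ z / (z.2 + ν)) := by
  obtain ⟨x, t⟩ := z
  simp only at hz ⊢
  have h1 := hasDerivAt_slice_x ((contDiff_ssc hfs hχ hs).differentiable (by simp)) x t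
  have h2 : HasDerivAt (fun s : ℝ => s / (t + ν)) (1 / (t + ν)) x :=
    (hasDerivAt_id x).div_const (t + ν)
  have h3 := (hf (x / (t + ν))).comp x h2
  have h4 := h3.mul (hasDerivAt_slice_x (hχ.differentiable (by simp)) x t)
  have h5 := h1.unique h4
  rw [h5]
  simp only [Function.comp_apply]
  field_simp
  ring

end ssc

/-- smooth self-similar profiles -/
structure Prof (p1 p2 t1 t2 : ℝ) (w v U P H : ℝ → ℝ) : Prop where
  hU : ∀ η, HasDerivAt U (w η) η
  hP : ∀ η, HasDerivAt P (η * w η) η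
  hH : ∀ η, HasDerivAt H (v η) η
  sw : ContDiff ℝ ∞ w
  sv : ContDiff ℝ ∞ v
  bP : ∀ η, p1 ≤ P η ∧ P η ≤ p2
  bH : ∀ η, t1 ≤ H η ∧ H η ≤ t2

section prof

variable {p1 p2 t1 t2 : ℝ} {w v U P H : ℝ → ℝ}

lemma contDiff_of_hasDerivAt {f f' : ℝ → ℝ} (h : ∀ η, HasDerivAt f (f' η) η)
    (hf' : ContDiff ℝ ∞ f') : ContDiff ℝ ∞ f := by
  rw [contDiff_infty_iff_deriv]
  refine ⟨fun η => (h η).differentiableAt, ?_⟩
  have : deriv f = f' := funext fun η => (h η).deriv
  rw [this]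
  exact hf'

lemma Prof.sU (h : Prof p1 p2 t1 t2 w v U P H) : ContDiff ℝ ∞ U := contDiff_of_hasDerivAt h.hU h.sw
lemma Prof.sP (h : Prof p1 p2 t1 t2 w v U P H) : ContDiff ℝ ∞ P :=
  contDiff_of_hasDerivAt h.hP (contDiff_id.mul h.sw)
lemma Prof.sH (h : Prof p1 p2 t1 t2 w v U P H) : ContDiff ℝ ∞ H := contDiff_of_hasDerivAt h.hH h.sv

lemma Prof.hG {γ : ℝ} (h : Prof p1 p2 t1 t2 w v U P H) (hp1 : 0 < p1) (ht1 : 0 < t1) (η : ℝ) :
    HasDerivAt (fun η => Gf γ (U η) (P η) (H η))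
      (- (U η * w η) - v η * Sb γ (P η) (H η) + ((γ - 1) * H η / P η) * (η * w η)) η := by
  have hPp : 0 < P η := lt_of_lt_of_le hp1 (h.bP η).1
  have hHp : 0 < H η := lt_of_lt_of_le ht1 (h.bH η).1
  have e1 : HasDerivAt (fun η => Sb γ (P η) (H η))
      ((1 - γ) * (η * w η / P η) + γ * (v η / H η)) η := by
    unfold Sb
    exact (((((h.hP η).log hPp.ne').const_mul (1 - γ)).add
      (((h.hH η).log hHp.ne').const_mul γ)).add_const _)
  have e2 := (((h.hH η).const_mul γ).sub (((h.hU η).pow 2).div_const 2)).sub ((h.hH η).mul e1)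
  unfold Gf
  convert! e2 using 1
  field_simp
  ring

lemma Prof.sG {γ : ℝ} (h : Prof p1 p2 t1 t2 w v U P H) (hp1 : 0 < p1) (ht1 : 0 < t1) :
    ContDiff ℝ ∞ (fun η => Gf γ (U η) (P η) (H η)) := by
  have hPp : ∀ η, P η ≠ 0 := fun η => (lt_of_lt_of_le hp1 (h.bP η).1).ne'
  have hHp : ∀ η, H η ≠ 0 := fun η => (lt_of_lt_of_le ht1 (h.bH η).1).ne'
  have e1 : ContDiff ℝ ∞ (fun η => Sb γ (P η) (H η)) := by
    unfold Sb
    exact ((contDiff_const.mul (h.sP.log hPp)).add (contDiff_const.mul (h.sH.log hHp))).add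
      contDiff_const
  unfold Gf
  exact ((contDiff_const.mul h.sH).sub ((h.sU.pow 2).div_const 2)).sub (h.sH.mul e1)

end prof

/-- the defect of a profile -/
def defect (γ : ℝ) (w v P H lam : ℝ → ℝ) (η : ℝ) : ℝ :=
  w η * (P η + η ^ 2 * ((γ - 1) * H η / P η)) - η * v η * Sb γ (P η) (H η) - lam η

variable {γ T : ℝ} {B : Bds} {r u p : ℝ × ℝ → ℝ} {r0 u0 p0 : ℝ → ℝ}

lemma Sol.intInt (h : Sol γ T B r u p r0 u0 p0) (a b : ℝ) : IntervalIntegrable r0 volume a b := by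
  refine (MeasureTheory.Measure.integrableOn_of_bounded (M := B.rb) ?_
    h.mr0.aestronglyMeasurable ?_).intervalIntegrable
  · simp
  · exact Filter.Eventually.of_forall fun x => (h.box0 x).abs_r

lemma Sol.continuous_Y0 (h : Sol γ T B r u p r0 u0 p0) : Continuous (Y0 r0) := by
  unfold Y0
  exact intervalIntegral.continuous_primitive (fun a b => h.intInt a b) 0

lemma Sol.Y0_lower (h : Sol γ T B r u p r0 u0 p0) (x : ℝ) : B.ra * |x| ≤ |Y0 r0 x| := by
  rcases le_total 0 x with hx | hx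
  · have e1 : ∫ s in (0 : ℝ)..x, B.ra ≤ ∫ s in (0 : ℝ)..x, r0 s :=
      intervalIntegral.integral_mono_on hx intervalIntegrable_const (h.intInt 0 x)
        (fun s _ => (h.box0 s).1.1)
    rw [intervalIntegral.integral_const, smul_eq_mul, sub_zero] at e1
    rw [abs_of_nonneg hx]
    unfold Y0
    refine le_trans ?_ (le_abs_self _)
    linarith
  · have e1 : ∫ s in x..(0 : ℝ), B.ra ≤ ∫ s in x..(0 : ℝ), r0 s :=
      intervalIntegral.integral_mono_on hx intervalIntegrable_const (h.intInt x 0)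
        (fun s _ => (h.box0 s).1.1)
    rw [intervalIntegral.integral_const, smul_eq_mul, zero_sub] at e1
    rw [abs_of_nonpos hx]
    unfold Y0
    refine le_trans ?_ (neg_le_abs _)
    rw [intervalIntegral.integral_symm]
    linarith

lemma Sol.integrable_lab (h : Sol γ T B r u p r0 u0 p0) {A : ℝ → ℝ} (hA : Measurable A) {C : ℝ}
    (hC : ∀ x, |A x| ≤ C) {φ : ℝ × ℝ → ℝ} (hφ : Continuous φ) (hc : HasCompactSupport φ) :
    Integrable (fun x => A x * φ (Y0 r0 x, 0)) := by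
  have hC0 : 0 ≤ C := le_trans (abs_nonneg _) (hC 0)
  obtain ⟨D, hD0, hD⟩ := exists_bound_self hφ hc
  obtain ⟨X, hX⟩ := hc.isCompact.isBounded.subset_closedBall 0
  have hcont : Continuous (fun x : ℝ => φ (Y0 r0 x, 0)) :=
    hφ.comp (h.continuous_Y0.prodMk continuous_const)
  refine integrable_of_bdd_cpt (C := C * D) (hA.mul hcont.measurable).aestronglyMeasurable ?_
    (isCompact_closedBall (0 : ℝ) (X / B.ra)) ?_
  · intro x
    rw [Real.norm_eq_abs, abs_mul]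
    exact mul_le_mul (hC x) (hD _) (abs_nonneg _) hC0
  · intro x hx
    rw [image_eq_zero_of_notMem_tsupport (f := φ), mul_zero]
    intro h'
    have h1 := hX h'
    rw [mem_closedBall_zero_iff] at h1
    have h2 : |Y0 r0 x| ≤ X := (norm_fst_le (Y0 r0 x, (0 : ℝ))).trans h1
    apply hx
    rw [mem_closedBall_zero_iff, Real.norm_eq_abs, le_div_iff₀ B.ra_pos, mul_comm]
    exact (h.Y0_lower x).trans h2

theorem Sol.profile_ineq (hγ : 1 < γ) (h : Sol γ T B r u p r0 u0 p0) {T' : ℝ} (hT0 : 0 < T')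
    (hT : T' < T) {ν : ℝ} (hν : 0 < ν) {p1 p2 t1 t2 : ℝ} {w v U P H : ℝ → ℝ}
    (hprof : Prof p1 p2 t1 t2 w v U P H) (hp1 : 0 < p1) (ht1 : 0 < t1) {L : ℝ}
    (hL : ∀ r u p ub pb Tb, B.In r u p → p1 ≤ pb → pb ≤ p2 → t1 ≤ Tb → Tb ≤ t2 →
      |(p - pb) * (u - ub)| ≤ L * relE γ r u p ub pb Tb)
    {χ : ℝ × ℝ → ℝ} (hχ : IsTest T' χ) (hχ0 : ∀ z, 0 ≤ χ z)
    (hs : tsupport χ ⊆ {z | -ν < z.2})
    (hcone : ∀ z : ℝ × ℝ, 0 < z.2 → dt χ z + L * |dx χ z| ≤ 0)
    {lam : ℝ → ℝ} (hlm : Measurable lam) {Cl : ℝ} (hlC : ∀ η, |lam η| ≤ Cl)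
    (hlam : ∀ η r u p, B.In r u p →
      lam η ≤ w η * (p + η ^ 2 * (1 / r)) - η * v η * sp γ r p) :
    0 ≤ (∫ z in up, χ z / (z.2 + ν) * defect γ w v P H lam (z.1 / (z.2 + ν)))
      + ∫ x, r0 x * relE γ (r0 x) (u0 x) (p0 x) (U (Y0 r0 x / ν)) (P (Y0 r0 x / ν))
        (H (Y0 r0 x / ν)) * χ (Y0 r0 x, 0) := by
  have hCl : 0 ≤ Cl := le_trans (abs_nonneg _) (hlC 0)
  set G : ℝ → ℝ := fun η => Gf γ (U η) (P η) (H η) with hGdef
  have sG : ContDiff ℝ ∞ G := hprof.sG hp1 ht1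
  have dG := fun η => hprof.hG (γ := γ) hp1 ht1 η
  set PU : ℝ → ℝ := fun η => P η * U η with hPUdef
  have sPU : ContDiff ℝ ∞ PU := hprof.sP.mul hprof.sU
  have dPU : ∀ η, HasDerivAt PU (η * w η * U η + P η * w η) η := fun η =>
    (hprof.hP η).mul (hprof.hU η)
  have tb := isTest_ssc hprof.sU hχ hs
  have tq := isTest_ssc hprof.sP hχ hs
  have ta := isTest_ssc hprof.sH hχ hs
  have tF1 := isTest_ssc sG hχ hs
  have tF2 := isTest_ssc sPU hχ hs
  have ha0 : ∀ z, 0 ≤ ssc H ν χ z := fun z =>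
    mul_nonneg (le_trans ht1.le (hprof.bH _).1) (hχ0 z)
  -- the function J
  set η' : ℝ × ℝ → ℝ := fun z => z.1 / (z.2 + ν) with hη'
  have mη : Measurable η' := measurable_fst.div (measurable_snd.add_const ν)
  set F : ℝ × ℝ → ℝ := fun z => ssc G ν (dt χ) z - ssc PU ν (dx χ) z
    - χ z / (z.2 + ν) * lam (η' z) with hF
  set J : ℝ × ℝ → ℝ := up.indicator F with hJdef
  have hst : tsupport (dt χ) ⊆ tsupport χ := by
    refine closure_minimal ?_ (isClosed_tsupport χ)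
    intro z hz
    by_contra h'
    exact hz (dt_eq_zero h')
  have hsx : tsupport (dx χ) ⊆ tsupport χ := by
    refine closure_minimal ?_ (isClosed_tsupport χ)
    intro z hz
    by_contra h'
    exact hz (dx_eq_zero h')
  have c1 := contDiff_ssc sG (contDiff_dt hχ.smooth) (subset_trans hst hs)
  have c2 := contDiff_ssc sPU (contDiff_dx hχ.smooth) (subset_trans hsx hs)
  have k1 : HasCompactSupport (ssc G ν (dt χ)) :=
    HasCompactSupport.of_support_subset_isCompact hχ.cpt.isCompact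
      (subset_trans (subset_tsupport _) (subset_trans tsupport_ssc hst))
  have k2 : HasCompactSupport (ssc PU ν (dx χ)) :=
    HasCompactSupport.of_support_subset_isCompact hχ.cpt.isCompact
      (subset_trans (subset_tsupport _) (subset_trans tsupport_ssc hsx))
  obtain ⟨D1, hD1, hD1'⟩ := exists_bound_self c1.continuous k1
  obtain ⟨D2, hD2, hD2'⟩ := exists_bound_self c2.continuous k2
  obtain ⟨D3, hD3, hD3'⟩ := exists_bound_self hχ.continuous hχ.cpt
  have mF : Measurable F :=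
    (c1.continuous.measurable.sub c2.continuous.measurable).sub
      ((hχ.continuous.measurable.div (measurable_snd.add_const ν)).mul (hlm.comp mη))
  have mJ : Measurable J := mF.indicator measurableSet_up
  have hJC : ∀ z, |J z| ≤ D1 + D2 + D3 / ν * Cl := by
    intro z
    by_cases hz : z ∈ up
    · have hz' : 0 < z.2 := hz
      rw [hJdef, indicator_of_mem hz, hF]
      simp only []
      have e1 := abs_sub (ssc G ν (dt χ) z - ssc PU ν (dx χ) z) (χ z / (z.2 + ν) * lam (η' z))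
      have e2 := abs_sub (ssc G ν (dt χ) z) (ssc PU ν (dx χ) z)
      have e3 : |χ z / (z.2 + ν) * lam (η' z)| ≤ D3 / ν * Cl := by
        rw [abs_mul, abs_div, abs_of_pos (by linarith : 0 < z.2 + ν)]
        refine mul_le_mul ?_ (hlC _) (abs_nonneg _) (by positivity)
        have := hD3' z
        gcongr
        linarith
      have e4 := hD1' z
      have e5 := hD2' z
      linarith
    · rw [hJdef, indicator_of_notMem hz, abs_zero]
      positivity
  obtain ⟨XJ, hXJ⟩ := hχ.cpt.isCompact.isBounded.subset_closedBall 0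
  have hJ0 : ∀ z, z ∉ tsupport χ → J z = 0 := by
    intro z hz
    have e1 : ssc G ν (dt χ) z = 0 := by rw [ssc, dt_eq_zero hz, mul_zero]
    have e2 : ssc PU ν (dx χ) z = 0 := by rw [ssc, dx_eq_zero hz, mul_zero]
    have e3 : χ z = 0 := image_eq_zero_of_notMem_tsupport hz
    have : F z = 0 := by
      simp only [hF, e1, e2, e3]; ring
    rw [hJdef]
    by_cases hz' : z ∈ up
    · rw [indicator_of_mem hz', this]
    · rw [indicator_of_notMem hz']
  have hJX : ∀ z, z ∉ Metric.closedBall (0 : ℝ × ℝ) XJ → J z = 0 := fun z hz =>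
    hJ0 z fun h' => hz (hXJ h')
  have hJT : ∀ z : ℝ × ℝ, T' ≤ z.2 → J z = 0 := fun z hz => hJ0 z (hχ.eq_zero_of_le hz)
  have hJ : ∀ z : ℝ × ℝ, 0 < z.2 → ∀ r u p, B.In r u p →
      lin γ r u p (dt χ z) (dx χ z) (dt (ssc U ν χ) z) (dx (ssc U ν χ) z)
        (dt (ssc P ν χ) z) (dx (ssc P ν χ) z) (dt (ssc H ν χ) z) ≤ J z := by
    intro z hz r u p hin
    have hzν : 0 < z.2 + ν := by linarith
    rw [hJdef, indicator_of_mem (show z ∈ up from hz)]
    rw [dt_ssc hprof.hU hprof.sU hχ.smooth hs hzν, dx_ssc hprof.hU hprof.sU hχ.smooth hs hzν,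
      dt_ssc hprof.hP hprof.sP hχ.smooth hs hzν, dx_ssc hprof.hP hprof.sP hχ.smooth hs hzν,
      dt_ssc hprof.hH hprof.sH hχ.smooth hs hzν]
    simp only [hF, ssc]
    have hη : η' z = z.1 / (z.2 + ν) := rfl
    rw [← hη]
    have hrel := relE_nonneg (u := u) (ub := U (η' z)) hγ hin.r_pos hin.p_pos
      (lt_of_lt_of_le hp1 (hprof.bP (η' z)).1) (lt_of_lt_of_le ht1 (hprof.bH (η' z)).1)
    have hflux := hL r u p (U (η' z)) (P (η' z)) (H (η' z)) hin (hprof.bP _).1 (hprof.bP _).2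
      (hprof.bH _).1 (hprof.bH _).2
    have hc := hcone z hz
    have hl := hlam (η' z) r u p hin
    have hχz : 0 ≤ χ z / (z.2 + ν) := div_nonneg (hχ0 z) hzν.le
    have i1 : relE γ r u p (U (η' z)) (P (η' z)) (H (η' z)) * dt χ z
        + (p - P (η' z)) * (u - U (η' z)) * dx χ z ≤ 0 := by
      have j1 : (p - P (η' z)) * (u - U (η' z)) * dx χ z ≤
          L * relE γ r u p (U (η' z)) (P (η' z)) (H (η' z)) * |dx χ z| := by
        refine (le_abs_self _).trans ?_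
        rw [abs_mul]
        exact mul_le_mul_of_nonneg_right hflux (abs_nonneg _)
      have j2 : relE γ r u p (U (η' z)) (P (η' z)) (H (η' z)) * (dt χ z + L * |dx χ z|) ≤ 0 :=
        mul_nonpos_of_nonneg_of_nonpos hrel hc
      linarith
    have i2 : χ z / (z.2 + ν) * lam (η' z) ≤ χ z / (z.2 + ν) *
        (w (η' z) * (p + (η' z) ^ 2 * (1 / r)) - (η' z) * v (η' z) * sp γ r p) :=
      mul_le_mul_of_nonneg_left hl hχz
    have i3 : lin γ r u p (dt χ z) (dx χ z)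
        (U (η' z) * dt χ z - η' z * w (η' z) * (χ z / (z.2 + ν)))
        (U (η' z) * dx χ z + w (η' z) * (χ z / (z.2 + ν)))
        (P (η' z) * dt χ z - η' z * (η' z * w (η' z)) * (χ z / (z.2 + ν)))
        (P (η' z) * dx χ z + η' z * w (η' z) * (χ z / (z.2 + ν)))
        (H (η' z) * dt χ z - η' z * v (η' z) * (χ z / (z.2 + ν)))
        = (relE γ r u p (U (η' z)) (P (η' z)) (H (η' z)) * dt χ z
        + (p - P (η' z)) * (u - U (η' z)) * dx χ z)
        + (G (η' z) * dt χ z - PU (η' z) * dx χ z)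
        - χ z / (z.2 + ν) *
        (w (η' z) * (p + (η' z) ^ 2 * (1 / r)) - (η' z) * v (η' z) * sp γ r p) := by
      simp only [hGdef, hPUdef, lin, relE]
      ring
    rw [i3]
    linarith
  have main := h.lagrange_ineq hγ hT0 hT hχ tb tq ta ha0 mJ hJC hJX hJT hJ
  -- evaluate the integral of J
  have iJ : Integrable J := integrable_of_bdd_cpt mJ.aestronglyMeasurable hJC
    (isCompact_closedBall 0 XJ) hJX
  have iF1 : Integrable (fun z => dt (ssc G ν χ) z) := by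
    simpa using integrable_mul_dt (A := fun _ => 1) measurable_const (C := 1) (by simp)
      tF1.smooth tF1.cpt
  have iF2 : Integrable (fun z => dx (ssc PU ν χ) z) := by
    simpa using integrable_mul_dx (A := fun _ => 1) measurable_const (C := 1) (by simp)
      tF2.smooth tF2.cpt
  have hdef : ∀ z ∈ up, χ z / (z.2 + ν) * defect γ w v P H lam (z.1 / (z.2 + ν))
      = J z - dt (ssc G ν χ) z + dx (ssc PU ν χ) z := by
    intro z hz
    have hz' : 0 < z.2 := hz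
    have hzν : 0 < z.2 + ν := by linarith
    rw [hJdef, indicator_of_mem hz, dt_ssc dG sG hχ.smooth hs hzν,
      dx_ssc dPU sPU hχ.smooth hs hzν]
    simp only [hF, ssc, defect]
    have hη : z.1 / (z.2 + ν) = η' z := rfl
    rw [hη]
    ring
  have eJ : ∫ z in up, χ z / (z.2 + ν) * defect γ w v P H lam (z.1 / (z.2 + ν))
      = (∫ z in up, J z) + ∫ x, ssc G ν χ (x, 0) := by
    rw [setIntegral_congr_fun measurableSet_up hdef]
    have i12 : Integrable (fun z => J z - dt (ssc G ν χ) z) := iJ.sub iF1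
    rw [integral_add i12.integrableOn iF2.integrableOn,
      integral_sub iJ.integrableOn iF1.integrableOn,
      setIntegral_up_dt tF1.smooth tF1.cpt, setIntegral_up_dx tF2.smooth tF2.cpt]
    ring
  -- change of variables at the initial time
  have cont0 : Continuous (fun y : ℝ => ssc G ν χ (y, 0)) :=
    tF1.continuous.comp (continuous_id.prodMk continuous_const)
  have e0 := h.change0 (by linarith) cont0 (HasCompactSupport.slice_x tF1.cpt 0)
  have hpt : ∀ x, r0 x * te γ (r0 x) (u0 x) (p0 x) * χ (Y0 r0 x, 0)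
        - r0 x * u0 x * ssc U ν χ (Y0 r0 x, 0) + ssc P ν χ (Y0 r0 x, 0)
        - r0 x * sp γ (r0 x) (p0 x) * ssc H ν χ (Y0 r0 x, 0)
      = r0 x * relE γ (r0 x) (u0 x) (p0 x) (U (Y0 r0 x / ν)) (P (Y0 r0 x / ν))
        (H (Y0 r0 x / ν)) * χ (Y0 r0 x, 0) + r0 x * ssc G ν χ (Y0 r0 x, 0) := by
    intro x
    have hr := (h.box0 x).r_pos
    simp only [ssc, zero_add, hGdef, relE]
    field_simp
    ring
  -- integrability of the two parts
  obtain ⟨C, hC0, hC⟩ := exists_bd hγ B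
  have hrb := B.rb_pos
  have b1 : ∀ x, |r0 x * te γ (r0 x) (u0 x) (p0 x)| ≤ B.rb * C := by
    intro x
    rw [abs_mul]
    exact mul_le_mul (h.box0 x).abs_r (hC _ _ _ (h.box0 x)).1 (abs_nonneg _) hrb.le
  have b5 : ∀ x, |r0 x * sp γ (r0 x) (p0 x)| ≤ B.rb * C := by
    intro x
    rw [abs_mul]
    exact mul_le_mul (h.box0 x).abs_r (hC _ _ _ (h.box0 x)).2 (abs_nonneg _) hrb.le
  have iG : Integrable (fun x => r0 x * ssc G ν χ (Y0 r0 x, 0)) :=
    h.integrable_lab h.mr0 (fun x => (h.box0 x).abs_r) tF1.continuous tF1.cpt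
  have iA1 : Integrable (fun x => r0 x * te γ (r0 x) (u0 x) (p0 x) * χ (Y0 r0 x, 0)) :=
    h.integrable_lab (h.mr0.mul h.meas_te0) b1 hχ.continuous hχ.cpt
  have iA2 : Integrable (fun x => r0 x * u0 x * ssc U ν χ (Y0 r0 x, 0)) :=
    h.integrable_lab (h.mr0.mul h.mu0) (fun x => (h.box0 x).abs_ru) tb.continuous tb.cpt
  have iA3 : Integrable (fun x => ssc P ν χ (Y0 r0 x, 0)) := by
    simpa using h.integrable_lab (A := fun _ => 1) measurable_const (C := 1) (by simp)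
      tq.continuous tq.cpt
  have iA4 : Integrable (fun x => r0 x * sp γ (r0 x) (p0 x) * ssc H ν χ (Y0 r0 x, 0)) :=
    h.integrable_lab (h.mr0.mul h.meas_sp0) b5 ta.continuous ta.cpt
  have iE : Integrable (fun x => r0 x * relE γ (r0 x) (u0 x) (p0 x) (U (Y0 r0 x / ν))
      (P (Y0 r0 x / ν)) (H (Y0 r0 x / ν)) * χ (Y0 r0 x, 0)) := by
    have e1 : (fun x => r0 x * relE γ (r0 x) (u0 x) (p0 x) (U (Y0 r0 x / ν))
      (P (Y0 r0 x / ν)) (H (Y0 r0 x / ν)) * χ (Y0 r0 x, 0)) = fun x =>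
        r0 x * te γ (r0 x) (u0 x) (p0 x) * χ (Y0 r0 x, 0)
        - r0 x * u0 x * ssc U ν χ (Y0 r0 x, 0) + ssc P ν χ (Y0 r0 x, 0)
        - r0 x * sp γ (r0 x) (p0 x) * ssc H ν χ (Y0 r0 x, 0)
        - r0 x * ssc G ν χ (Y0 r0 x, 0) := by
      ext x
      rw [hpt x]
      ring
    rw [e1]
    exact (((iA1.sub iA2).add iA3).sub iA4).sub iG
  rw [eJ]
  have e2 : ∫ x, (r0 x * te γ (r0 x) (u0 x) (p0 x) * χ (Y0 r0 x, 0)
        - r0 x * u0 x * ssc U ν χ (Y0 r0 x, 0) + ssc P ν χ (Y0 r0 x, 0)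
        - r0 x * sp γ (r0 x) (p0 x) * ssc H ν χ (Y0 r0 x, 0))
      = (∫ x, r0 x * relE γ (r0 x) (u0 x) (p0 x) (U (Y0 r0 x / ν)) (P (Y0 r0 x / ν))
        (H (Y0 r0 x / ν)) * χ (Y0 r0 x, 0)) + ∫ y, ssc G ν χ (y, 0) := by
    rw [← e0, ← integral_add iE iG]
    exact integral_congr_ae (Filter.Eventually.of_forall hpt)
  rw [e2] at main
  linarith

end

end Pool.Agent.helper23_Euler
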