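import Mathlib
import Pool.Agent.helper23_Euler.Profile

open MeasureTheory Set Filter Topology
open scoped ContDiff Convolution

namespace Pool.Agent.helper23_Euler

noncomputable section

/-- one-dimensional mollifiers -/
def bump1 (n : ℕ) : ContDiffBump (0 : ℝ) where
  rIn := 1 / (2 * ((n : ℝ) + 1))
  rOut := 1 / ((n : ℝ) + 1)
  rIn_pos := by positivity
  rIn_lt_rOut := by
    apply one_div_lt_one_div_of_lt
    · positivity
    · have : (0 : ℝ) < (n : ℝ) + 1 := by positivity
      linarith

lemma bump1_rOut (n : ℕ) : (bump1 n).rOut = 1 / ((n : ℝ) + 1) := rfl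

lemma bump1_le_one (n : ℕ) : (bump1 n).rOut ≤ 1 := by
  rw [bump1_rOut, div_le_one (by positivity)]
  have : (0 : ℝ) ≤ (n : ℝ) := Nat.cast_nonneg _
  linarith

/-- one-dimensional mollification -/
def mol1 (n : ℕ) (f : ℝ → ℝ) : ℝ → ℝ :=
  ((bump1 n).normed volume) ⋆[ContinuousLinearMap.lsmul ℝ ℝ, volume] f

section mol1

variable {f : ℝ → ℝ} {W A : ℝ}

lemma mol1_apply (n : ℕ) (x : ℝ) :
    mol1 n f x = ∫ y, (bump1 n).normed volume (x - y) * f y := by
  unfold mol1
  rw [convolution_eq_swap]
  simp [ContinuousLinearMap.lsmul_apply]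

lemma locInt1_of_bdd (hf : Measurable f) (hC : ∀ z, |f z| ≤ W) : LocallyIntegrable f := by
  rw [locallyIntegrable_iff]
  intro K hK
  exact Measure.integrableOn_of_bounded (M := W) hK.measure_lt_top.ne hf.aestronglyMeasurable
    (Filter.Eventually.of_forall hC)

lemma contDiff_mol1 (n : ℕ) (hf : LocallyIntegrable f) : ContDiff ℝ ∞ (mol1 n f) :=
  HasCompactSupport.contDiff_convolution_left (ContinuousLinearMap.lsmul ℝ ℝ)
    (μ := (volume : Measure ℝ)) (n := ⊤) (bump1 n).hasCompactSupport_normed
    ((bump1 n).contDiff_normed (μ := volume)) hf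

lemma mol1_abs (n : ℕ) (hf : Measurable f) (hC : ∀ z, |f z| ≤ W) (x : ℝ) :
    |mol1 n f x| ≤ W := by
  have hi1 : Integrable (fun y => (bump1 n).normed (volume : Measure ℝ) (x - y)) :=
    ((bump1 n).integrable_normed (μ := volume)).comp_sub_left x
  have hi : Integrable (fun y => (bump1 n).normed (volume : Measure ℝ) (x - y) * f y) :=
    hi1.mul_bdd (c := W) hf.aestronglyMeasurable (Filter.Eventually.of_forall hC)
  rw [mol1_apply]
  have e1 : ∫ y, (bump1 n).normed (volume : Measure ℝ) (x - y) * W = W := by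
    rw [integral_mul_const, integral_sub_left_eq_self (fun w => (bump1 n).normed volume w)]
    simp [(bump1 n).integral_normed]
  calc |∫ y, (bump1 n).normed volume (x - y) * f y|
      ≤ ∫ y, |(bump1 n).normed volume (x - y) * f y| := abs_integral_le_integral_abs
    _ ≤ ∫ y, (bump1 n).normed (volume : Measure ℝ) (x - y) * W := by
        refine integral_mono hi.abs (hi1.mul_const W) ?_
        intro y
        simp only []
        rw [abs_mul, abs_of_nonneg ((bump1 n).nonneg_normed _)]
        exact mul_le_mul_of_nonneg_left (hC y) ((bump1 n).nonneg_normed _)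
    _ = W := e1

lemma mol1_zero (n : ℕ) (hA : ∀ x, A < |x| → f x = 0) {x : ℝ} (hx : A + 1 < |x|) :
    mol1 n f x = 0 := by
  rw [mol1_apply]
  rw [integral_eq_zero_of_ae]
  refine Filter.Eventually.of_forall fun y => ?_
  simp only [Pi.zero_apply]
  by_cases hy : A < |y|
  · rw [hA y hy, mul_zero]
  · have h1 : x - y ∉ Function.support ((bump1 n).normed (volume : Measure ℝ)) := by
      rw [(bump1 n).support_normed_eq, Metric.mem_ball, dist_zero_right, Real.norm_eq_abs, not_lt]
      have h2 := bump1_le_one n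
      have h3 := abs_sub_abs_le_abs_sub x y
      have h4 := not_lt.1 hy
      linarith
    rw [Function.notMem_support.1 h1, zero_mul]

lemma ae_tendsto_mol1 (hf : LocallyIntegrable f) :
    ∀ᵐ x : ℝ, Tendsto (fun n => mol1 n f x) atTop (𝓝 (f x)) := by
  refine ContDiffBump.ae_convolution_tendsto_right_of_locallyIntegrable
    (φ := bump1) (l := atTop) (K := 2) ?_ ?_ hf
  · simp only [bump1_rOut]
    exact tendsto_one_div_add_atTop_nhds_zero_nat
  · refine Filter.Eventually.of_forall fun n => ?_
    show 1 / ((n : ℝ) + 1) ≤ 2 * (1 / (2 * ((n : ℝ) + 1)))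
    apply le_of_eq
    field_simp

/-- convergence of the mollifications in `L¹(-R,R)` -/
lemma tendsto_L1 (hf : Measurable f) (hC : ∀ z, |f z| ≤ W) (R : ℝ) :
    Tendsto (fun n => ∫ s in (-R)..R, |mol1 n f s - f s|) atTop (𝓝 0) := by
  have h0 : (0 : ℝ) = ∫ s in (-R)..R, (0 : ℝ) := by simp
  rw [h0]
  refine intervalIntegral.tendsto_integral_filter_of_dominated_convergence (fun _ => 2 * W) ?_ ?_
    intervalIntegrable_const ?_
  · refine Filter.Eventually.of_forall fun n => ?_
    exact (((contDiff_mol1 n (locInt1_of_bdd hf hC)).continuous.measurable.sub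
      hf).abs).aestronglyMeasurable
  · refine Filter.Eventually.of_forall fun n => Filter.Eventually.of_forall fun s _ => ?_
    rw [Real.norm_eq_abs, abs_abs]
    refine (abs_sub _ _).trans ?_
    have := mol1_abs n hf hC s
    have := hC s
    linarith
  · filter_upwards [ae_tendsto_mol1 (locInt1_of_bdd hf hC)] with s hs _
    have := (hs.sub (tendsto_const_nhds (x := f s))).abs
    simpa using this

end mol1

/-- change to the self-similar variable -/
lemma change_ss {T' ν : ℝ} (hν : 0 < ν) {χ : ℝ × ℝ → ℝ} (hχ : IsTest T' χ) {F : ℝ → ℝ}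
    (hF : Measurable F) {C : ℝ} (hC : ∀ η, |F η| ≤ C) :
    Integrable (fun z : ℝ × ℝ => χ (z.1 * (z.2 + ν), z.2) * F z.1) (volume.restrict up) ∧
    ∫ z in up, χ z / (z.2 + ν) * F (z.1 / (z.2 + ν))
      = ∫ z in up, χ (z.1 * (z.2 + ν), z.2) * F z.1 := by
  have hC0 : 0 ≤ C := le_trans (abs_nonneg _) (hC 0)
  obtain ⟨D, hD0, hD⟩ := exists_bound_self hχ.continuous hχ.cpt
  obtain ⟨X, hX⟩ := hχ.cpt.isCompact.isBounded.subset_closedBall 0
  have hX0 : ∀ z, χ z ≠ 0 → ‖z‖ ≤ X := fun z hz => by
    have := hX (subset_tsupport _ hz)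
    rwa [mem_closedBall_zero_iff] at this
  have m1 : Measurable (fun z : ℝ × ℝ => χ z / (z.2 + ν) * F (z.1 / (z.2 + ν))) :=
    (hχ.continuous.measurable.div (measurable_snd.add_const ν)).mul
      (hF.comp (measurable_fst.div (measurable_snd.add_const ν)))
  have m2 : Measurable (fun z : ℝ × ℝ => χ (z.1 * (z.2 + ν), z.2) * F z.1) :=
    (hχ.continuous.measurable.comp
      ((measurable_fst.mul (measurable_snd.add_const ν)).prodMk measurable_snd)).mul
      (hF.comp measurable_fst)
  have i1 : IntegrableOn (fun z : ℝ × ℝ => χ z / (z.2 + ν) * F (z.1 / (z.2 + ν))) up := by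
    rw [← integrable_indicator_iff measurableSet_up]
    refine integrable_of_bdd_cpt (C := D / ν * C)
      (m1.indicator measurableSet_up).aestronglyMeasurable ?_ hχ.cpt.isCompact ?_
    · intro z
      by_cases hz : z ∈ up
      · have hz' : 0 < z.2 := hz
        rw [indicator_of_mem hz, Real.norm_eq_abs, abs_mul, abs_div,
          abs_of_pos (by linarith : 0 < z.2 + ν)]
        refine mul_le_mul ?_ (hC _) (abs_nonneg _) (by positivity)
        have := hD z
        gcongr
        linarith
      · rw [indicator_of_notMem hz, norm_zero]; positivity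
    · intro z hz
      by_cases hz' : z ∈ up
      · rw [indicator_of_mem hz', image_eq_zero_of_notMem_tsupport hz]; simp
      · rw [indicator_of_notMem hz']
  have i2 : IntegrableOn (fun z : ℝ × ℝ => χ (z.1 * (z.2 + ν), z.2) * F z.1) up := by
    rw [← integrable_indicator_iff measurableSet_up]
    refine integrable_of_bdd_cpt (C := D * C)
      (m2.indicator measurableSet_up).aestronglyMeasurable ?_
      (isCompact_closedBall (0 : ℝ × ℝ) (X / ν + X)) ?_
    · intro z
      by_cases hz : z ∈ up
      · rw [indicator_of_mem hz, Real.norm_eq_abs, abs_mul]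
        exact mul_le_mul (hD _) (hC _) (abs_nonneg _) hD0
      · rw [indicator_of_notMem hz, norm_zero]; positivity
    · intro z hz
      by_cases hz' : z ∈ up
      · rw [indicator_of_mem hz']
        by_cases h0 : χ (z.1 * (z.2 + ν), z.2) = 0
        · rw [h0, zero_mul]
        · exfalso
          apply hz
          have h1 := hX0 _ h0
          have h2 : |z.1 * (z.2 + ν)| ≤ X := (norm_fst_le (z.1 * (z.2 + ν), z.2)).trans h1
          have h3 : |z.2| ≤ X := (norm_snd_le (z.1 * (z.2 + ν), z.2)).trans h1
          have hz2 : 0 < z.2 := hz'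
          have hXX : 0 ≤ X := le_trans (abs_nonneg _) h3
          rw [abs_mul, abs_of_pos (by linarith : 0 < z.2 + ν)] at h2
          have h4 : |z.1| ≤ X / ν := by
            rw [le_div_iff₀ hν]
            refine le_trans ?_ h2
            exact mul_le_mul_of_nonneg_left (by linarith) (abs_nonneg _)
          have h5 : 0 ≤ X / ν := by positivity
          rw [mem_closedBall_zero_iff, Prod.norm_def]
          exact max_le (by rw [Real.norm_eq_abs]; linarith) (by rw [Real.norm_eq_abs]; linarith)
      · rw [indicator_of_notMem hz']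
  refine ⟨i2, ?_⟩
  have hs : (up : Set (ℝ × ℝ)) = univ ×ˢ Ioi 0 := by
    ext z; simp [up]
  have e1 : ∀ F : ℝ × ℝ → ℝ, IntegrableOn F up →
      ∫ z in up, F z = ∫ t in Ioi (0 : ℝ), ∫ x, F (x, t) := by
    intro F hF
    have hint' : Integrable F
        ((volume.restrict univ).prod (volume.restrict (Ioi (0 : ℝ)))) := by
      rw [Measure.prod_restrict, ← Measure.volume_eq_prod, ← hs]
      exact hF
    rw [hs, Measure.volume_eq_prod, ← Measure.prod_restrict, integral_prod_symm _ hint']
    rw [Measure.restrict_univ]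
  rw [e1 _ i1, e1 _ i2]
  refine setIntegral_congr_fun measurableSet_Ioi ?_
  intro t ht
  have ht' : 0 < t := ht
  have htν : 0 < t + ν := by linarith
  simp only []
  have h1 := Measure.integral_comp_div (fun y : ℝ => χ (y * (t + ν), t) * F y) (t + ν)
  rw [abs_of_pos htν, smul_eq_mul] at h1
  have h2 : ∀ y : ℝ, y / (t + ν) * (t + ν) = y := fun y => by field_simp
  simp only [h2] at h1
  have h3 : ∫ x, χ (x, t) / (t + ν) * F (x / (t + ν)) =
      (t + ν)⁻¹ * ∫ x, χ (x, t) * F (x / (t + ν)) := by
    rw [← integral_const_mul]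
    congr 1
    ext x
    rw [div_eq_mul_inv]
    ring
  rw [h3, h1]
  field_simp

end

end Pool.Agent.helper23_Euler
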