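import Mathlib
import Pool.Agent.helper23_Euler.Approx

open MeasureTheory Set Filter Topology
open scoped ContDiff Convolution

namespace Pool.Agent.helper23_Euler

noncomputable section

section l1

variable {f : ℝ → ℝ} {W A : ℝ}

lemma integrable_of_supp (hf : Measurable f) (hC : ∀ z, |f z| ≤ W) (hA : ∀ x, A < |x| → f x = 0) :
    Integrable f := by
  refine integrable_of_bdd_cpt hf.aestronglyMeasurable hC (isCompact_closedBall (0 : ℝ) A) ?_
  intro x hx
  apply hA
  rw [mem_closedBall_zero_iff, Real.norm_eq_abs, not_le] at hx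
  exact hx

lemma mol1_diff_meas (n : ℕ) (hf : Measurable f) (hC : ∀ z, |f z| ≤ W) :
    Measurable (fun s => mol1 n f s - f s) :=
  (contDiff_mol1 n (locInt1_of_bdd hf hC)).continuous.measurable.sub hf

lemma mol1_diff_bd (n : ℕ) (hf : Measurable f) (hC : ∀ z, |f z| ≤ W) (s : ℝ) :
    |mol1 n f s - f s| ≤ 2 * W := by
  refine (abs_sub _ _).trans ?_
  have := mol1_abs n hf hC s
  have := hC s
  linarith

lemma mol1_diff_zero (n : ℕ) (hA : ∀ x, A < |x| → f x = 0) {s : ℝ} (hs : A + 1 < |s|) :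
    mol1 n f s - f s = 0 := by
  rw [mol1_zero n hA hs, hA s (by linarith), sub_zero]

lemma tendsto_L1' (hf : Measurable f) (hC : ∀ z, |f z| ≤ W) (hA : ∀ x, A < |x| → f x = 0) :
    Tendsto (fun n => ∫ s, |mol1 n f s - f s|) atTop (𝓝 0) := by
  have h0 : (0 : ℝ) = ∫ s : ℝ, (0 : ℝ) := by simp
  rw [h0]
  refine tendsto_integral_of_dominated_convergence
    (fun x => (Metric.closedBall (0 : ℝ) (A + 1)).indicator (fun _ => 2 * W) x) ?_ ?_ ?_ ?_
  · exact fun n => (mol1_diff_meas n hf hC).abs.aestronglyMeasurable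
  · rw [integrable_indicator_iff Metric.isClosed_closedBall.measurableSet]
    exact integrableOn_const (isCompact_closedBall _ _).measure_lt_top.ne
  · intro n
    refine Filter.Eventually.of_forall fun s => ?_
    rw [Real.norm_eq_abs, abs_abs]
    by_cases hs : s ∈ Metric.closedBall (0 : ℝ) (A + 1)
    · rw [indicator_of_mem hs]
      exact mol1_diff_bd n hf hC s
    · rw [indicator_of_notMem hs]
      rw [mem_closedBall_zero_iff, Real.norm_eq_abs, not_le] at hs
      rw [mol1_diff_zero n hA hs, abs_zero]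
  · filter_upwards [ae_tendsto_mol1 (locInt1_of_bdd hf hC)] with s hs
    have := (hs.sub (tendsto_const_nhds (x := f s))).abs
    simpa using this

end l1

/-- antiderivative normalised at `-R` -/
def prim (R c : ℝ) (g : ℝ → ℝ) (η : ℝ) : ℝ := c + ∫ s in (-R)..η, g s

lemma prim_diff {R c : ℝ} {g g' : ℝ → ℝ} (hg : Integrable g) (hg' : Integrable g') (η : ℝ) :
    |prim R c g η - prim R c g' η| ≤ ∫ s, |g s - g' s| := by
  unfold prim
  rw [add_sub_add_left_eq_sub, ← intervalIntegral.integral_sub hg.intervalIntegrable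
    hg'.intervalIntegrable]
  have h1 : ‖∫ s in (-R)..η, (g s - g' s)‖ ≤ ∫ s in Set.uIoc (-R) η, ‖g s - g' s‖ :=
    intervalIntegral.norm_integral_le_integral_norm_uIoc
  rw [← Real.norm_eq_abs]
  refine h1.trans ?_
  refine setIntegral_le_integral (hg.sub hg').norm ?_
  exact Filter.Eventually.of_forall fun x => norm_nonneg _

lemma hasDerivAt_prim {R c : ℝ} {g : ℝ → ℝ} (hg : Continuous g) (η : ℝ) :
    HasDerivAt (prim R c g) (g η) η := by
  unfold prim
  exact (intervalIntegral.integral_hasDerivAt_right (hg.intervalIntegrable _ _)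
    (hg.stronglyMeasurableAtFilter _ _) hg.continuousAt).const_add c

lemma abs_mul_supp {g : ℝ → ℝ} {A W : ℝ} (hC : ∀ z, |g z| ≤ W) (hA : ∀ x, A < |x| → g x = 0)
    (hA0 : 0 ≤ A) (s : ℝ) : |s * g s| ≤ A * W := by
  have hW : 0 ≤ W := le_trans (abs_nonneg _) (hC 0)
  by_cases hs : A < |s|
  · rw [hA s hs, mul_zero, abs_zero]; positivity
  · rw [abs_mul]
    exact mul_le_mul (not_lt.1 hs) (hC s) (abs_nonneg _) hA0

/-- the bound for `Sb` -/
lemma exists_Sb_bound {γ p1 p2 t1 t2 : ℝ} (hp1 : 0 < p1) (ht1 : 0 < t1) :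
    ∃ C, 0 ≤ C ∧ ∀ P H, p1 ≤ P → P ≤ p2 → t1 ≤ H → H ≤ t2 → |Sb γ P H| ≤ C := by
  refine ⟨|1 - γ| * max |Real.log p1| |Real.log p2| + |γ| * max |Real.log t1| |Real.log t2|
    + |γ * Real.log (γ - 1)|, ?_, ?_⟩
  · have : 0 ≤ max |Real.log p1| |Real.log p2| := le_trans (abs_nonneg _) (le_max_left _ _)
    have : 0 ≤ max |Real.log t1| |Real.log t2| := le_trans (abs_nonneg _) (le_max_left _ _)
    positivity
  · intro P H h1 h2 h3 h4
    have e1 : |Real.log P| ≤ max |Real.log p1| |Real.log p2| :=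
      abs_le_max_abs_abs (Real.log_le_log hp1 h1)
        (Real.log_le_log (lt_of_lt_of_le hp1 h1) h2)
    have e2 : |Real.log H| ≤ max |Real.log t1| |Real.log t2| :=
      abs_le_max_abs_abs (Real.log_le_log ht1 h3)
        (Real.log_le_log (lt_of_lt_of_le ht1 h3) h4)
    unfold Sb
    refine (abs_add_le _ _).trans (add_le_add ((abs_add_le _ _).trans ?_) le_rfl)
    rw [abs_mul, abs_mul]
    exact add_le_add (mul_le_mul_of_nonneg_left e1 (abs_nonneg _))
      (mul_le_mul_of_nonneg_left e2 (abs_nonneg _))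

variable {γ T : ℝ} {B : Bds} {r u p : ℝ × ℝ → ℝ} {r0 u0 p0 : ℝ → ℝ}

lemma measurable_defect {w v P H lam : ℝ → ℝ} (hw : Measurable w) (hv : Measurable v)
    (hP : Measurable P) (hH : Measurable H) (hl : Measurable lam) :
    Measurable (defect γ w v P H lam) := by
  unfold defect Sb
  exact ((hw.mul (hP.add ((measurable_id.pow_const 2).mul ((hH.const_mul (γ - 1)).div hP)))).sub
    ((measurable_id.mul hv).mul ((((Real.measurable_log.comp hP).const_mul (1 - γ)).add
      ((Real.measurable_log.comp hH).const_mul γ)).add_const _))).sub hl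

lemma abs_prim {R c : ℝ} {g : ℝ → ℝ} (hg : Integrable g) (η : ℝ) :
    |prim R c g η| ≤ |c| + ∫ s, |g s| := by
  have h1 := prim_diff (R := R) (c := c) hg (integrable_zero ℝ ℝ volume) η
  have h2 : prim R c 0 η = c := by simp [prim]
  have h3 : ∫ s, |g s - (0 : ℝ → ℝ) s| = ∫ s, |g s| := by simp
  rw [h2] at h1
  rw [h3] at h1
  have h4 := abs_sub_abs_le_abs_sub (prim R c g η) c
  linarith

lemma relE_bound (hγ : 1 < γ) {B : Bds} {C CS p1 p2 t1 t2 Ub : ℝ}
    (hC : ∀ r u p, B.In r u p → |te γ r u p| ≤ C ∧ |sp γ r p| ≤ C)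
    (hp1 : 0 < p1) (ht1 : 0 < t1) (hUb : 0 ≤ Ub)
    (hCS : ∀ P H, p1 ≤ P → P ≤ p2 → t1 ≤ H → H ≤ t2 → |Sb γ P H| ≤ CS)
    {r u p U P H : ℝ} (hin : B.In r u p) (hU : |U| ≤ Ub) (h1 : p1 ≤ P) (h2 : P ≤ p2)
    (h3 : t1 ≤ H) (h4 : H ≤ t2) :
    |relE γ r u p U P H| ≤ C + B.ub * Ub + (1 / B.ra) * p2 + C * t2 + (γ * t2 + Ub ^ 2 / 2
      + t2 * CS) := by
  have hra := B.ra_pos
  have hub := B.ub_nonneg
  have hr := hin.r_pos
  have hP0 : 0 < P := lt_of_lt_of_le hp1 h1
  have hH0 : 0 < H := lt_of_lt_of_le ht1 h3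
  have hC0 : 0 ≤ C := le_trans (abs_nonneg _) (hC r u p hin).1
  have hCS0 : 0 ≤ CS := le_trans (abs_nonneg _) (hCS P H h1 h2 h3 h4)
  have hir : |1 / r| ≤ 1 / B.ra := by
    rw [abs_of_pos (by positivity)]
    exact one_div_le_one_div_of_le hra hin.1.1
  have a1 := (hC r u p hin).1
  have a2 : |u * U| ≤ B.ub * Ub := by
    rw [abs_mul]; exact mul_le_mul hin.2.1 hU (abs_nonneg _) hub
  have a3 : |(1 / r) * P| ≤ (1 / B.ra) * p2 := by
    rw [abs_mul, abs_of_pos hP0]; exact mul_le_mul hir h2 hP0.le (by positivity)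
  have a4 : |sp γ r p * H| ≤ C * t2 := by
    rw [abs_mul, abs_of_pos hH0]; exact mul_le_mul (hC r u p hin).2 h4 hH0.le hC0
  have a5 : |γ * H| ≤ γ * t2 := by
    rw [abs_mul, abs_of_pos hH0, abs_of_pos (by linarith : (0 : ℝ) < γ)]
    exact mul_le_mul_of_nonneg_left h4 (by linarith)
  have a6 : |U ^ 2 / 2| ≤ Ub ^ 2 / 2 := by
    rw [abs_of_nonneg (by positivity), ← sq_abs U]
    have := pow_le_pow_left₀ (abs_nonneg _) hU 2
    linarith
  have a7 : |H * Sb γ P H| ≤ t2 * CS := by
    rw [abs_mul, abs_of_pos hH0]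
    exact mul_le_mul h4 (hCS P H h1 h2 h3 h4) (abs_nonneg _) (by linarith)
  unfold relE Gf
  have e1 := abs_sub (te γ r u p - u * U + 1 / r * P - sp γ r p * H)
    (γ * H - U ^ 2 / 2 - H * Sb γ P H)
  have e2 := abs_sub (te γ r u p - u * U + 1 / r * P) (sp γ r p * H)
  have e3 := abs_add_le (te γ r u p - u * U) (1 / r * P)
  have e4 := abs_sub (te γ r u p) (u * U)
  have e5 := abs_sub (γ * H - U ^ 2 / 2) (H * Sb γ P H)
  have e6 := abs_sub (γ * H) (U ^ 2 / 2)
  linarith

lemma tendsto_relE {r u p U P H : ℝ} {Un Pn Hn : ℕ → ℝ} (hP : 0 < P) (hH : 0 < H)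
    (h1 : Tendsto Un atTop (𝓝 U)) (h2 : Tendsto Pn atTop (𝓝 P)) (h3 : Tendsto Hn atTop (𝓝 H)) :
    Tendsto (fun n => relE γ r u p (Un n) (Pn n) (Hn n)) atTop (𝓝 (relE γ r u p U P H)) := by
  unfold relE Gf Sb
  have l1 := h2.log hP.ne'
  have l2 := h3.log hH.ne'
  have l3 := ((l1.const_mul (1 - γ)).add (l2.const_mul γ)).add_const (γ * Real.log (γ - 1))
  exact ((((tendsto_const_nhds.sub (h1.const_mul u)).add (h2.const_mul (1 / r))).sub
    (h3.const_mul (sp γ r p))).sub (((h3.const_mul γ).sub ((h1.pow 2).div_const 2)).sub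
      (h3.mul l3)))

theorem Sol.meas_ineq (hγ : 1 < γ) (h : Sol γ T B r u p r0 u0 p0) {T' : ℝ} (hT0 : 0 < T')
    (hT : T' < T) {ν : ℝ} (hν : 0 < ν) {p1 p2 t1 t2 d : ℝ} {w v : ℝ → ℝ}
    (hw : Measurable w) (hv : Measurable v) {W A : ℝ} (hA0 : 0 ≤ A) (hwW : ∀ x, |w x| ≤ W)
    (hvW : ∀ x, |v x| ≤ W) (hwA : ∀ x, A < |x| → w x = 0) (hvA : ∀ x, A < |x| → v x = 0)
    {R cu cp ct : ℝ} (hp1 : 0 < p1) (ht1 : 0 < t1) (hd : 0 < d)
    (hP : ∀ η, p1 + d ≤ prim R cp (fun s => s * w s) η ∧
      prim R cp (fun s => s * w s) η ≤ p2 - d)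
    (hH : ∀ η, t1 + d ≤ prim R ct v η ∧ prim R ct v η ≤ t2 - d) {L : ℝ}
    (hL : ∀ r u p ub pb Tb, B.In r u p → p1 ≤ pb → pb ≤ p2 → t1 ≤ Tb → Tb ≤ t2 →
      |(p - pb) * (u - ub)| ≤ L * relE γ r u p ub pb Tb)
    {χ : ℝ × ℝ → ℝ} (hχ : IsTest T' χ) (hχ0 : ∀ z, 0 ≤ χ z)
    (hs : tsupport χ ⊆ {z | -ν < z.2})
    (hcone : ∀ z : ℝ × ℝ, 0 < z.2 → dt χ z + L * |dx χ z| ≤ 0)
    {lam : ℝ → ℝ} (hlm : Measurable lam) {Cl : ℝ} (hlC : ∀ η, |lam η| ≤ Cl)
    (hlam : ∀ η r u p, B.In r u p →
      lam η ≤ w η * (p + η ^ 2 * (1 / r)) - η * v η * sp γ r p) :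
    0 ≤ (∫ z in up, χ (z.1 * (z.2 + ν), z.2) *
        defect γ w v (prim R cp (fun s => s * w s)) (prim R ct v) lam z.1)
      + ∫ x, r0 x * relE γ (r0 x) (u0 x) (p0 x) (prim R cu w (Y0 r0 x / ν))
        (prim R cp (fun s => s * w s) (Y0 r0 x / ν)) (prim R ct v (Y0 r0 x / ν))
          * χ (Y0 r0 x, 0) := by
  obtain ⟨C, hC0, hC⟩ := exists_bd hγ B
  obtain ⟨CS, hCS0, hCS⟩ := exists_Sb_bound (γ := γ) (p2 := p2) (t2 := t2) hp1 ht1
  have hγ' : 0 < γ - 1 := by linarith
  have hW : 0 ≤ W := le_trans (abs_nonneg _) (hwW 0)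
  have hCl : 0 ≤ Cl := le_trans (abs_nonneg _) (hlC 0)
  have hra := B.ra_pos
  have hrb := B.rb_pos
  have hpb : 0 ≤ B.pb := le_trans B.pa_pos.le B.pab
  have hp2 : 0 < p2 := by have := hP 0; linarith [this.1, this.2]
  have ht2 : 0 < t2 := by have := hH 0; linarith [this.1, this.2]
  set P := prim R cp (fun s => s * w s) with hPdef
  set H := prim R ct v with hHdef
  set U := prim R cu w with hUdef
  have lw := locInt1_of_bdd hw hwW
  have lv := locInt1_of_bdd hv hvW
  set wn : ℕ → ℝ → ℝ := fun n => mol1 n w with hwn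
  set vn : ℕ → ℝ → ℝ := fun n => mol1 n v with hvn
  have swn : ∀ n, ContDiff ℝ ∞ (wn n) := fun n => contDiff_mol1 n lw
  have svn : ∀ n, ContDiff ℝ ∞ (vn n) := fun n => contDiff_mol1 n lv
  have bwn : ∀ n x, |wn n x| ≤ W := fun n x => mol1_abs n hw hwW x
  have bvn : ∀ n x, |vn n x| ≤ W := fun n x => mol1_abs n hv hvW x
  have zwn : ∀ n x, A + 1 < |x| → wn n x = 0 := fun n x hx => mol1_zero n hwA hx
  have zvn : ∀ n x, A + 1 < |x| → vn n x = 0 := fun n x hx => mol1_zero n hvA hx
  set Pn : ℕ → ℝ → ℝ := fun n => prim R cp (fun s => s * wn n s) with hPn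
  set Hn : ℕ → ℝ → ℝ := fun n => prim R ct (vn n) with hHn
  set Un : ℕ → ℝ → ℝ := fun n => prim R cu (wn n) with hUn
  -- L¹ differences
  set δw : ℕ → ℝ := fun n => ∫ s, |wn n s - w s| with hδw
  set δv : ℕ → ℝ := fun n => ∫ s, |vn n s - v s| with hδv
  have limw : Tendsto δw atTop (𝓝 0) := tendsto_L1' hw hwW hwA
  have limv : Tendsto δv atTop (𝓝 0) := tendsto_L1' hv hvW hvA
  have iw : Integrable w := integrable_of_supp hw hwW hwA
  have iv : Integrable v := integrable_of_supp hv hvW hvA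
  have iwn : ∀ n, Integrable (wn n) := fun n =>
    integrable_of_supp (swn n).continuous.measurable (bwn n) (zwn n)
  have ivn : ∀ n, Integrable (vn n) := fun n =>
    integrable_of_supp (svn n).continuous.measurable (bvn n) (zvn n)
  have isw : Integrable (fun s => s * w s) :=
    integrable_of_supp (measurable_id.mul hw) (abs_mul_supp hwW hwA hA0)
      (fun x hx => by rw [hwA x hx, mul_zero])
  have iswn : ∀ n, Integrable (fun s => s * wn n s) := fun n =>
    integrable_of_supp (A := A + 1) (measurable_id.mul (swn n).continuous.measurable)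
      (abs_mul_supp (bwn n) (zwn n) (by linarith))
      (fun x hx => by rw [zwn n x hx, mul_zero])
  have dU : ∀ n η, |Un n η - U η| ≤ δw n := fun n η => prim_diff (iwn n) iw η
  have dH : ∀ n η, |Hn n η - H η| ≤ δv n := fun n η => prim_diff (ivn n) iv η
  have dP : ∀ n η, |Pn n η - P η| ≤ (A + 1) * δw n := by
    intro n η
    refine (prim_diff (iswn n) isw η).trans ?_
    rw [hδw]
    simp only []
    rw [← integral_const_mul]
    refine integral_mono ((iswn n).sub isw).abs (((iwn n).sub iw).abs.const_mul _) ?_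
    intro s
    simp only []
    rw [← mul_sub, abs_mul]
    by_cases hs' : A + 1 < |s|
    · rw [zwn n s hs', hwA s (by linarith)]
      simp
    · exact mul_le_mul_of_nonneg_right (not_lt.1 hs') (abs_nonneg _)
  have limU : ∀ η, Tendsto (fun n => Un n η) atTop (𝓝 (U η)) := by
    intro η
    have : Tendsto (fun n => Un n η - U η) atTop (𝓝 0) :=
      squeeze_zero_norm (fun n => dU n η) limw
    simpa using this.add_const (U η)
  have limH : ∀ η, Tendsto (fun n => Hn n η) atTop (𝓝 (H η)) := by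
    intro η
    have : Tendsto (fun n => Hn n η - H η) atTop (𝓝 0) :=
      squeeze_zero_norm (fun n => dH n η) limv
    simpa using this.add_const (H η)
  have limw' : Tendsto (fun n => (A + 1) * δw n) atTop (𝓝 0) := by
    simpa using limw.const_mul (A + 1)
  have limP : ∀ η, Tendsto (fun n => Pn n η) atTop (𝓝 (P η)) := by
    intro η
    have : Tendsto (fun n => Pn n η - P η) atTop (𝓝 0) :=
      squeeze_zero_norm (fun n => dP n η) limw'
    simpa using this.add_const (P η)
  -- eventually everything is within the bounds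
  have ev : ∀ᶠ n in atTop, δw n ≤ 1 ∧ (A + 1) * δw n ≤ d ∧ δv n ≤ d := by
    have e1 := limw.eventually (ge_mem_nhds (show (0 : ℝ) < 1 by norm_num))
    have e2 := limw'.eventually (ge_mem_nhds hd)
    have e3 := limv.eventually (ge_mem_nhds hd)
    filter_upwards [e1, e2, e3] with n h1 h2 h3 using ⟨h1, h2, h3⟩
  have bPn : ∀ n, (A + 1) * δw n ≤ d → ∀ η, p1 ≤ Pn n η ∧ Pn n η ≤ p2 := by
    intro n hn η
    have h1 := abs_le.1 ((dP n η).trans hn)
    have h2 := hP η
    constructor <;> linarith [h1.1, h1.2, h2.1, h2.2]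
  have bHn : ∀ n, δv n ≤ d → ∀ η, t1 ≤ Hn n η ∧ Hn n η ≤ t2 := by
    intro n hn η
    have h1 := abs_le.1 ((dH n η).trans hn)
    have h2 := hH η
    constructor <;> linarith [h1.1, h1.2, h2.1, h2.2]
  set K : ℝ := (B.pb + (A + 1) ^ 2 / B.ra) + (A + 1) * C with hK
  have hK0 : 0 ≤ K := by positivity
  set lamn : ℕ → ℝ → ℝ := fun n η => lam η - K * (|wn n η - w η| + |vn n η - v η|) with hlamn
  have mlamn : ∀ n, Measurable (lamn n) := fun n =>
    hlm.sub ((((swn n).continuous.measurable.sub hw).abs.add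
      (((svn n).continuous.measurable.sub hv).abs)).const_mul K)
  have blamn : ∀ n η, |lamn n η| ≤ Cl + K * (4 * W) := by
    intro n η
    rw [hlamn]
    simp only []
    refine (abs_sub _ _).trans (add_le_add (hlC η) ?_)
    rw [abs_mul, abs_of_nonneg hK0, abs_of_nonneg (by positivity)]
    refine mul_le_mul_of_nonneg_left ?_ hK0
    have e1 := (abs_sub (wn n η) (w η)).trans (add_le_add (bwn n η) (hwW η))
    have e2 := (abs_sub (vn n η) (v η)).trans (add_le_add (bvn n η) (hvW η))
    linarith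
  have hlamn' : ∀ n η r u p, B.In r u p →
      lamn n η ≤ wn n η * (p + η ^ 2 * (1 / r)) - η * vn n η * sp γ r p := by
    intro n η r u p hin
    have h1 := hlam η r u p hin
    rw [hlamn]
    simp only []
    by_cases hη : A + 1 < |η|
    · rw [zwn n η hη, zvn n η hη, hwA η (by linarith), hvA η (by linarith)]
      rw [hwA η (by linarith), hvA η (by linarith)] at h1
      simpa using h1
    · have hη' := not_lt.1 hη
      have e1 : wn n η * (p + η ^ 2 * (1 / r)) - η * vn n η * sp γ r p =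
          (w η * (p + η ^ 2 * (1 / r)) - η * v η * sp γ r p)
          + ((wn n η - w η) * (p + η ^ 2 * (1 / r)) - (vn n η - v η) * (η * sp γ r p)) := by ring
      rw [e1]
      have e2 : |(wn n η - w η) * (p + η ^ 2 * (1 / r))| ≤ |wn n η - w η| * K := by
        rw [abs_mul]
        refine mul_le_mul_of_nonneg_left ?_ (abs_nonneg _)
        have hr := hin.r_pos
        have hp := hin.p_pos
        rw [abs_of_nonneg (by positivity)]
        have e3 : η ^ 2 * (1 / r) ≤ (A + 1) ^ 2 / B.ra := by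
          have e4 : η ^ 2 ≤ (A + 1) ^ 2 := by
            rw [← sq_abs]
            exact pow_le_pow_left₀ (abs_nonneg _) hη' 2
          have e5 : 1 / r ≤ 1 / B.ra := one_div_le_one_div_of_le hra hin.1.1
          calc η ^ 2 * (1 / r) ≤ (A + 1) ^ 2 * (1 / B.ra) := by gcongr
            _ = _ := by ring
        have e6 := hin.2.2.2
        have e7 : 0 ≤ (A + 1) * C := by positivity
        linarith
      have e3 : |(vn n η - v η) * (η * sp γ r p)| ≤ |vn n η - v η| * K := by
        rw [abs_mul]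
        refine mul_le_mul_of_nonneg_left ?_ (abs_nonneg _)
        rw [abs_mul]
        have e4 : |η| * |sp γ r p| ≤ (A + 1) * C :=
          mul_le_mul hη' (hC r u p hin).2 (abs_nonneg _) (by linarith)
        have e5 : 0 ≤ B.pb + (A + 1) ^ 2 / B.ra := by positivity
        linarith
      have e4 := (abs_le.1 e2).1
      have e5 := (abs_le.1 e3).2
      linarith
  have mdef : ∀ n, Measurable (defect γ (wn n) (vn n) (Pn n) (Hn n) (lamn n)) := by
    intro n
    have c1 : Continuous (Pn n) := continuous_iff_continuousAt.2 fun η =>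
      (hasDerivAt_prim (continuous_id.mul (swn n).continuous) η).continuousAt
    have c2 : Continuous (Hn n) := continuous_iff_continuousAt.2 fun η =>
      (hasDerivAt_prim (svn n).continuous η).continuousAt
    exact measurable_defect (swn n).continuous.measurable (svn n).continuous.measurable
      c1.measurable c2.measurable (mlamn n)
  set Kd : ℝ := W * (p2 + (A + 1) ^ 2 * ((γ - 1) * t2 / p1)) + (A + 1) * W * CS
    + (Cl + K * (4 * W)) with hKd
  have bdef : ∀ n, (A + 1) * δw n ≤ d → δv n ≤ d → ∀ η,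
      |defect γ (wn n) (vn n) (Pn n) (Hn n) (lamn n) η| ≤ Kd := by
    intro n hn1 hn2 η
    have f1 := bPn n hn1 η
    have f2 := bHn n hn2 η
    have hP0 : 0 < Pn n η := lt_of_lt_of_le hp1 f1.1
    have hH0 : 0 < Hn n η := lt_of_lt_of_le ht1 f2.1
    have f3 := hCS (Pn n η) (Hn n η) f1.1 f1.2 f2.1 f2.2
    have f4 := blamn n η
    unfold defect
    by_cases hη : A + 1 < |η|
    · rw [zwn n η hη, zvn n η hη]
      simp only [zero_mul, mul_zero, sub_zero, zero_sub, abs_neg]
      refine f4.trans ?_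
      rw [hKd]
      have : 0 ≤ W * (p2 + (A + 1) ^ 2 * ((γ - 1) * t2 / p1)) + (A + 1) * W * CS := by positivity
      linarith
    · have hη' := not_lt.1 hη
      refine (abs_sub _ _).trans (add_le_add ((abs_sub _ _).trans (add_le_add ?_ ?_)) f4)
      · rw [abs_mul]
        refine mul_le_mul (bwn n η) ?_ (abs_nonneg _) hW
        rw [abs_of_nonneg (by positivity)]
        have e4 : η ^ 2 ≤ (A + 1) ^ 2 := by
          rw [← sq_abs]
          exact pow_le_pow_left₀ (abs_nonneg _) hη' 2
        have e5 : (γ - 1) * Hn n η / Pn n η ≤ (γ - 1) * t2 / p1 := by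
          have := f1.1
          have := f2.2
          gcongr
        have e6 : 0 ≤ (γ - 1) * Hn n η / Pn n η := by positivity
        have e7 := mul_le_mul e4 e5 e6 (by positivity)
        linarith [f1.2]
      · rw [abs_mul, abs_mul]
        refine mul_le_mul (mul_le_mul hη' (bvn n η) (abs_nonneg _) (by linarith)) f3
          (abs_nonneg _) (by positivity)
  -- the inequality for the smooth profiles
  have key : ∀ᶠ n in atTop, 0 ≤ (∫ z in up, χ (z.1 * (z.2 + ν), z.2) *
        defect γ (wn n) (vn n) (Pn n) (Hn n) (lamn n) z.1)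
      + ∫ x, r0 x * relE γ (r0 x) (u0 x) (p0 x) (Un n (Y0 r0 x / ν)) (Pn n (Y0 r0 x / ν))
        (Hn n (Y0 r0 x / ν)) * χ (Y0 r0 x, 0) := by
    filter_upwards [ev] with n hn
    obtain ⟨hn0, hn1, hn2⟩ := hn
    have hprof : Prof p1 p2 t1 t2 (wn n) (vn n) (Un n) (Pn n) (Hn n) :=
      { hU := fun η => hasDerivAt_prim (swn n).continuous η
        hP := fun η => hasDerivAt_prim (continuous_id.mul (swn n).continuous) η
        hH := fun η => hasDerivAt_prim (svn n).continuous η
        sw := swn n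
        sv := svn n
        bP := bPn n hn1
        bH := bHn n hn2 }
    have k1 := h.profile_ineq hγ hT0 hT hν hprof hp1 ht1 hL hχ hχ0 hs hcone (mlamn n)
      (blamn n) (hlamn' n)
    rw [(change_ss hν hχ (mdef n) (bdef n hn1 hn2)).2] at k1
    exact k1
  obtain ⟨D, hD0, hD⟩ := exists_bound_self hχ.continuous hχ.cpt
  obtain ⟨X, hX⟩ := hχ.cpt.isCompact.isBounded.subset_closedBall 0
  have hX0 : ∀ z, χ z ≠ 0 → ‖z‖ ≤ X := fun z hz => by
    have := hX (subset_tsupport _ hz)
    rwa [mem_closedBall_zero_iff] at this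
  -- limit of the first term
  have lim1 : Tendsto (fun n => ∫ z in up, χ (z.1 * (z.2 + ν), z.2) *
        defect γ (wn n) (vn n) (Pn n) (Hn n) (lamn n) z.1) atTop
      (𝓝 (∫ z in up, χ (z.1 * (z.2 + ν), z.2) * defect γ w v P H lam z.1)) := by
    refine tendsto_integral_filter_of_dominated_convergence
      (fun z => (Metric.closedBall (0 : ℝ × ℝ) (X / ν + X)).indicator (fun _ => D * Kd) z)
      ?_ ?_ ?_ ?_
    · refine Filter.Eventually.of_forall fun n => ?_
      exact ((hχ.continuous.measurable.comp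
        ((measurable_fst.mul (measurable_snd.add_const ν)).prodMk measurable_snd)).mul
        ((mdef n).comp measurable_fst)).aestronglyMeasurable
    · filter_upwards [ev] with n hn
      rw [ae_restrict_iff' measurableSet_up]
      refine Filter.Eventually.of_forall fun z hz => ?_
      have hz2 : 0 < z.2 := hz
      by_cases h0 : χ (z.1 * (z.2 + ν), z.2) = 0
      · rw [h0, zero_mul, norm_zero]
        refine indicator_nonneg (fun _ _ => ?_) z
        positivity
      · have h1 := hX0 _ h0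
        have h2 : |z.1 * (z.2 + ν)| ≤ X := (norm_fst_le (z.1 * (z.2 + ν), z.2)).trans h1
        have h3 : |z.2| ≤ X := (norm_snd_le (z.1 * (z.2 + ν), z.2)).trans h1
        have hXX : 0 ≤ X := le_trans (abs_nonneg _) h3
        rw [abs_mul, abs_of_pos (by linarith : 0 < z.2 + ν)] at h2
        have h4 : |z.1| ≤ X / ν := by
          rw [le_div_iff₀ hν]
          refine le_trans ?_ h2
          exact mul_le_mul_of_nonneg_left (by linarith) (abs_nonneg _)
        have h5 : 0 ≤ X / ν := by positivity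
        have hmem : z ∈ Metric.closedBall (0 : ℝ × ℝ) (X / ν + X) := by
          rw [mem_closedBall_zero_iff, Prod.norm_def]
          exact max_le (by rw [Real.norm_eq_abs]; linarith) (by rw [Real.norm_eq_abs]; linarith)
        rw [indicator_of_mem hmem, Real.norm_eq_abs, abs_mul]
        exact mul_le_mul (hD _) (bdef n hn.2.1 hn.2.2 z.1) (abs_nonneg _) hD0
    · refine Integrable.integrableOn ?_
      rw [integrable_indicator_iff Metric.isClosed_closedBall.measurableSet]
      exact integrableOn_const (isCompact_closedBall _ _).measure_lt_top.ne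
    · have c1 : ∀ᵐ η : ℝ, Tendsto (fun n => defect γ (wn n) (vn n) (Pn n) (Hn n) (lamn n) η)
          atTop (𝓝 (defect γ w v P H lam η)) := by
        filter_upwards [ae_tendsto_mol1 lw, ae_tendsto_mol1 lv] with η h1 h2
        have hP0 : 0 < P η := by have := (hP η).1; linarith
        have hH0 : 0 < H η := by have := (hH η).1; linarith
        have l1 := (limP η).log hP0.ne'
        have l2 := (limH η).log hH0.ne'
        have l3 := ((l1.const_mul (1 - γ)).add (l2.const_mul γ)).add_const (γ * Real.log (γ - 1))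
        have l4 : Tendsto (fun n => lamn n η) atTop (𝓝 (lam η)) := by
          have e1 : Tendsto (fun n => |wn n η - w η|) atTop (𝓝 |w η - w η|) :=
            (h1.sub tendsto_const_nhds).abs
          have e2 : Tendsto (fun n => |vn n η - v η|) atTop (𝓝 |v η - v η|) :=
            (h2.sub tendsto_const_nhds).abs
          have e3 := (tendsto_const_nhds (x := lam η)).sub ((e1.add e2).const_mul K)
          simpa using e3
        unfold defect Sb
        exact ((h1.mul ((limP η).add ((((limH η).const_mul (γ - 1)).div (limP η)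
          hP0.ne').const_mul (η ^ 2)))).sub ((h2.const_mul η).mul l3)).sub l4
      have c2 : ∀ᵐ z : ℝ × ℝ, Tendsto
          (fun n => defect γ (wn n) (vn n) (Pn n) (Hn n) (lamn n) z.1)
          atTop (𝓝 (defect γ w v P H lam z.1)) := by
        rw [Measure.volume_eq_prod]
        exact Measure.quasiMeasurePreserving_fst.ae c1
      filter_upwards [ae_restrict_of_ae c2] with z hz
      exact hz.const_mul _
  -- limit of the second term
  set Ub : ℝ := |cu| + (∫ s, |w s|) + 1 with hUb
  have hUb0 : 0 ≤ Ub := by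
    have : 0 ≤ ∫ s, |w s| := integral_nonneg fun s => abs_nonneg _
    positivity
  set KE : ℝ := C + B.ub * Ub + (1 / B.ra) * p2 + C * t2 + (γ * t2 + Ub ^ 2 / 2 + t2 * CS) with hKE
  have hub := B.ub_nonneg
  have hKE0 : 0 ≤ KE := by positivity
  have lim2 : Tendsto (fun n => ∫ x, r0 x * relE γ (r0 x) (u0 x) (p0 x) (Un n (Y0 r0 x / ν))
      (Pn n (Y0 r0 x / ν)) (Hn n (Y0 r0 x / ν)) * χ (Y0 r0 x, 0)) atTop
      (𝓝 (∫ x, r0 x * relE γ (r0 x) (u0 x) (p0 x) (U (Y0 r0 x / ν)) (P (Y0 r0 x / ν))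
        (H (Y0 r0 x / ν)) * χ (Y0 r0 x, 0))) := by
    refine tendsto_integral_filter_of_dominated_convergence
      (fun x => (Metric.closedBall (0 : ℝ) (X / B.ra)).indicator (fun _ => B.rb * KE * D) x)
      ?_ ?_ ?_ ?_
    · refine Filter.Eventually.of_forall fun n => ?_
      have c1 : Continuous (Pn n) := continuous_iff_continuousAt.2 fun η =>
        (hasDerivAt_prim (continuous_id.mul (swn n).continuous) η).continuousAt
      have c2 : Continuous (Hn n) := continuous_iff_continuousAt.2 fun η =>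
        (hasDerivAt_prim (svn n).continuous η).continuousAt
      have c3 : Continuous (Un n) := continuous_iff_continuousAt.2 fun η =>
        (hasDerivAt_prim (swn n).continuous η).continuousAt
      have mY : Measurable (fun x => Y0 r0 x / ν) := h.continuous_Y0.measurable.div_const ν
      have d1 := c1.measurable.comp mY
      have d2 := c2.measurable.comp mY
      have d3 := c3.measurable.comp mY
      have mχ : Measurable (fun x : ℝ => χ (Y0 r0 x, 0)) :=
        hχ.continuous.measurable.comp (h.continuous_Y0.measurable.prodMk measurable_const)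
      have mrel : Measurable (fun x => relE γ (r0 x) (u0 x) (p0 x) (Un n (Y0 r0 x / ν))
          (Pn n (Y0 r0 x / ν)) (Hn n (Y0 r0 x / ν))) := by
        unfold relE Gf Sb
        exact (((((h.meas_te0.sub (h.mu0.mul d3)).add ((h.mr0.const_div 1).mul d1)).sub
          (h.meas_sp0.mul d2))).sub (((d2.const_mul γ).sub ((d3.pow_const 2).div_const 2)).sub
          (d2.mul ((((Real.measurable_log.comp d1).const_mul (1 - γ)).add
            ((Real.measurable_log.comp d2).const_mul γ)).add_const _))))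
      exact ((h.mr0.mul mrel).mul mχ).aestronglyMeasurable
    · filter_upwards [ev] with n hn
      refine Filter.Eventually.of_forall fun x => ?_
      by_cases h0 : χ (Y0 r0 x, 0) = 0
      · rw [h0, mul_zero, norm_zero]
        refine indicator_nonneg (fun _ _ => ?_) x
        positivity
      · have h1 := hX0 _ h0
        have h2 : |Y0 r0 x| ≤ X := (norm_fst_le (Y0 r0 x, (0 : ℝ))).trans h1
        have hmem : x ∈ Metric.closedBall (0 : ℝ) (X / B.ra) := by
          rw [mem_closedBall_zero_iff, Real.norm_eq_abs, le_div_iff₀ B.ra_pos, mul_comm]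
          exact (h.Y0_lower x).trans h2
        rw [indicator_of_mem hmem, Real.norm_eq_abs, abs_mul, abs_mul]
        refine mul_le_mul (mul_le_mul (h.box0 x).abs_r ?_ (abs_nonneg _) hrb.le) (hD _)
          (abs_nonneg _) (by positivity)
        refine relE_bound hγ hC hp1 ht1 hUb0 hCS (h.box0 x) ?_ (bPn n hn.2.1 _).1
          (bPn n hn.2.1 _).2 (bHn n hn.2.2 _).1 (bHn n hn.2.2 _).2
        have g1 := dU n (Y0 r0 x / ν)
        have g2 := abs_prim (R := R) (c := cu) iw (Y0 r0 x / ν)
        have g3 := abs_sub_abs_le_abs_sub (Un n (Y0 r0 x / ν)) (U (Y0 r0 x / ν))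
        rw [hUb]
        linarith [hn.1]
    · rw [integrable_indicator_iff Metric.isClosed_closedBall.measurableSet]
      exact integrableOn_const (isCompact_closedBall _ _).measure_lt_top.ne
    · refine Filter.Eventually.of_forall fun x => ?_
      have hP0 : 0 < P (Y0 r0 x / ν) := by have := (hP (Y0 r0 x / ν)).1; linarith
      have hH0 : 0 < H (Y0 r0 x / ν) := by have := (hH (Y0 r0 x / ν)).1; linarith
      exact ((tendsto_relE hP0 hH0 (limU _) (limP _) (limH _)).const_mul _).mul_const _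
  exact ge_of_tendsto (lim1.add lim2) key

end

end Pool.Agent.helper23_Euler
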