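import Mathlib
import Pool.Agent.helper23_Euler.MeasProf

open MeasureTheory Set Filter Topology
open scoped ContDiff Convolution

namespace Pool.Agent.helper23_Euler

noncomputable section

/-- truncation to an interval -/
def clamp (a b x : ℝ) : ℝ := max a (min b x)

lemma clamp_of_le {a b x : ℝ} (h : x ≤ a) : clamp a b x = a := by
  unfold clamp
  exact max_eq_left ((min_le_right _ _).trans h)

lemma clamp_of_mem {a b x : ℝ} (h : a ≤ x) (h' : x ≤ b) : clamp a b x = x := by
  unfold clamp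
  rw [min_eq_right h', max_eq_right h]

lemma clamp_of_ge {a b x : ℝ} (hab : a ≤ b) (h : b ≤ x) : clamp a b x = b := by
  unfold clamp
  rw [min_eq_left h, max_eq_right hab]

lemma clamp_mem {a b : ℝ} (hab : a ≤ b) (x : ℝ) : a ≤ clamp a b x ∧ clamp a b x ≤ b := by
  unfold clamp
  exact ⟨le_max_left _ _, max_le hab (min_le_left _ _)⟩

/-- a function supported on an open interval -/
def piece (a b : ℝ) (g : ℝ → ℝ) (x : ℝ) : ℝ := by
  classical exact if a < x ∧ x < b then g x else 0

lemma piece_in {a b : ℝ} {g : ℝ → ℝ} {x : ℝ} (h : a < x ∧ x < b) : piece a b g x = g x := by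
  simp [piece, h]

lemma piece_out {a b : ℝ} {g : ℝ → ℝ} {x : ℝ} (h : ¬ (a < x ∧ x < b)) : piece a b g x = 0 := by
  simp only [piece, h, if_false]

lemma measurable_piece {a b : ℝ} {g : ℝ → ℝ} (hg : Measurable g) : Measurable (piece a b g) := by
  unfold piece
  exact Measurable.ite (measurableSet_Ioo (a := a) (b := b)) hg measurable_const

lemma piece_bound {a b W : ℝ} {g : ℝ → ℝ} (hW : 0 ≤ W) (h : ∀ x, a < x → x < b → |g x| ≤ W)
    (x : ℝ) : |piece a b g x| ≤ W := by
  by_cases hx : a < x ∧ x < b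
  · rw [piece_in hx]; exact h x hx.1 hx.2
  · rw [piece_out hx, abs_zero]; exact hW

/-- the antiderivative of a piece -/
lemma integral_piece {a b R : ℝ} (hab : a ≤ b) (hR : -R ≤ a) {f g : ℝ → ℝ}
    (hf : ContinuousOn f (Icc a b)) (hd : ∀ x ∈ Ioo a b, HasDerivAt f (g x) x)
    (hi : IntervalIntegrable g volume a b) (η : ℝ) :
    ∫ x in (-R)..η, piece a b g x = f (clamp a b η) - f a := by
  have hpi : ∀ c d : ℝ, IntervalIntegrable (piece a b g) volume c d := by
    intro c d
    have h1 : IntegrableOn g (Ioo a b) := by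
      have := (intervalIntegrable_iff_integrableOn_Ioo_of_le hab).1 hi
      exact this
    have h2 : Integrable (piece a b g) := by
      have e : piece a b g = (Ioo a b).indicator g := by
        ext x
        by_cases hx : x ∈ Ioo a b
        · rw [indicator_of_mem hx, piece_in hx]
        · rw [indicator_of_notMem hx, piece_out hx]
      rw [e, integrable_indicator_iff measurableSet_Ioo]
      exact h1
    exact h2.intervalIntegrable
  have zero_left : ∀ c d : ℝ, c ≤ a → d ≤ a → ∫ x in c..d, piece a b g x = 0 := by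
    intro c d hc hd'
    refine intervalIntegral.integral_zero_ae ?_
    refine Filter.Eventually.of_forall fun x hx => ?_
    apply piece_out
    intro h'
    have : x ≤ max c d := hx.2
    have : max c d ≤ a := max_le hc hd'
    linarith [h'.1]
  have zero_right : ∀ c d : ℝ, b ≤ c → b ≤ d → ∫ x in c..d, piece a b g x = 0 := by
    intro c d hc hd'
    refine intervalIntegral.integral_zero_ae ?_
    refine Filter.Eventually.of_forall fun x hx => ?_
    apply piece_out
    intro h'
    have h1 : min c d < x := hx.1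
    have : b ≤ min c d := le_min hc hd'
    linarith [h'.2]
  have mid : ∀ y, a ≤ y → y ≤ b → ∫ x in a..y, piece a b g x = f y - f a := by
    intro y hy hy'
    have e1 : ∫ x in a..y, piece a b g x = ∫ x in a..y, g x := by
      refine intervalIntegral.integral_congr_ae ?_
      have hne : ∀ᵐ x : ℝ, x ≠ y := by
        simp [ae_iff, measure_singleton]
      filter_upwards [hne] with x hx hx'
      rw [uIoc_of_le hy] at hx'
      exact piece_in ⟨hx'.1, lt_of_lt_of_le (lt_of_le_of_ne hx'.2 hx) hy'⟩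
    rw [e1]
    refine intervalIntegral.integral_eq_sub_of_hasDerivAt_of_le hy
      (hf.mono (Icc_subset_Icc le_rfl hy')) (fun x hx => hd x ⟨hx.1, lt_of_lt_of_le hx.2 hy'⟩) ?_
    refine hi.mono_set ?_
    rw [uIcc_of_le hy, uIcc_of_le hab]
    exact Icc_subset_Icc le_rfl hy'
  rw [← intervalIntegral.integral_add_adjacent_intervals (hpi (-R) a) (hpi a η),
    zero_left (-R) a hR le_rfl, zero_add]
  rcases le_total η a with h1 | h1
  · rw [zero_left a η le_rfl h1, clamp_of_le h1, sub_self]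
  · rcases le_total η b with h2 | h2
    · rw [mid η h1 h2, clamp_of_mem h1 h2]
    · rw [← intervalIntegral.integral_add_adjacent_intervals (hpi a b) (hpi b η),
        zero_right b η le_rfl h2, add_zero, mid b hab le_rfl, clamp_of_ge hab h2]

/-- the exponent `2/(γ+1)` -/
def al (γ : ℝ) : ℝ := 2 / (γ + 1)

lemma al_pos {γ : ℝ} (hγ : 1 < γ) : 0 < al γ := by unfold al; positivity

lemma al_lt {γ : ℝ} (hγ : 1 < γ) : al γ < 1 := by
  unfold al
  rw [div_lt_one (by linarith)]
  linarith

lemma al_eq {γ : ℝ} (hγ : 1 < γ) : 2 - al γ = γ * al γ := by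
  unfold al
  field_simp
  ring

lemma al_eq2 {γ : ℝ} (hγ : 1 < γ) : (2 / (γ - 1)) * (1 - al γ) = al γ := by
  have : γ - 1 ≠ 0 := by linarith
  have : γ + 1 ≠ 0 := by linarith
  unfold al
  field_simp
  ring

section fans

variable {γ r p C : ℝ}

/-- velocity gradient in a fan, as a function of `s = |η|/C` -/
def wf (γ r s : ℝ) : ℝ := al γ * (1 / r) * s ^ (-al γ)

/-- temperature gradient in a fan -/
def vf (γ r p C s : ℝ) : ℝ := en γ r p * (2 * (1 - al γ)) / C * s ^ (2 * (1 - al γ) - 1)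

/-- pressure in a fan -/
def pf (γ p s : ℝ) : ℝ := p * s ^ (2 - al γ)

/-- temperature in a fan -/
def hf (γ r p s : ℝ) : ℝ := en γ r p * s ^ (2 * (1 - al γ))

/-- velocity increment in a fan -/
def uf (γ r C s : ℝ) : ℝ := (2 / (γ - 1)) * (C / r) * s ^ (1 - al γ)

lemma hasDerivAt_uf (hγ : 1 < γ) {s : ℝ} (hs : 0 < s) :
    HasDerivAt (uf γ r C) (C * wf γ r s) s := by
  have h1 := (Real.hasDerivAt_rpow_const (x := s) (p := 1 - al γ) (Or.inl hs.ne')).const_mul
    ((2 / (γ - 1)) * (C / r))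
  unfold uf wf
  convert! h1 using 1
  have e1 : (1 - al γ - 1) = - al γ := by ring
  rw [e1]
  have e2 := al_eq2 hγ
  linear_combination (-(C / r) * s ^ (-al γ)) * e2

lemma hasDerivAt_pf (hγ : 1 < γ) (hr : 0 < r) (hp : 0 < p) (hC : C ^ 2 = γ * p * r) {s : ℝ}
    (hs : 0 < s) : HasDerivAt (pf γ p) (C ^ 2 * s * wf γ r s) s := by
  have h1 := (Real.hasDerivAt_rpow_const (x := s) (p := 2 - al γ) (Or.inl hs.ne')).const_mul p
  unfold pf wf
  convert! h1 using 1
  have e1 : (2 - al γ - 1) = 1 + (- al γ) := by ring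
  rw [e1, Real.rpow_add hs, Real.rpow_one, hC, al_eq hγ]
  field_simp

lemma hasDerivAt_hf (hC : 0 < C) {s : ℝ} (hs : 0 < s) :
    HasDerivAt (hf γ r p) (C * vf γ r p C s) s := by
  have h1 := (Real.hasDerivAt_rpow_const (x := s) (p := 2 * (1 - al γ))
    (Or.inl hs.ne')).const_mul (en γ r p)
  unfold hf vf
  convert! h1 using 1
  field_simp

lemma vf_eq (hγ : 1 < γ) (hr : 0 < r) (hC : 0 < C) {s : ℝ} (hs : 0 < s) :
    C * s * vf γ r p C s = wf γ r s * pf γ p s := by
  have hγ' : 0 < γ - 1 := by linarith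
  unfold vf wf pf en
  have e0 : s ^ (2 * (1 - al γ)) = s * s ^ (2 * (1 - al γ) - 1) := by
    have : (2 * (1 - al γ)) = 1 + (2 * (1 - al γ) - 1) := by ring
    conv_lhs => rw [this, Real.rpow_add hs, Real.rpow_one]
  have e1 : s ^ (-al γ) * s ^ (2 - al γ) = s ^ (2 * (1 - al γ)) := by
    rw [← Real.rpow_add hs]; congr 1; ring
  have e2 := al_eq2 hγ
  calc C * s * (p / ((γ - 1) * r) * (2 * (1 - al γ)) / C * s ^ (2 * (1 - al γ) - 1))
      = ((2 / (γ - 1)) * (1 - al γ)) * (p / r) * (s * s ^ (2 * (1 - al γ) - 1)) := by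
        field_simp
    _ = al γ * (p / r) * (s ^ (-al γ) * s ^ (2 - al γ)) := by rw [e2, ← e0, e1]
    _ = _ := by ring

lemma pf_pos (hp : 0 < p) {s : ℝ} (hs : 0 < s) : 0 < pf γ p s :=
  mul_pos hp (Real.rpow_pos_of_pos hs _)

lemma hf_pos (hγ : 1 < γ) (hr : 0 < r) (hp : 0 < p) {s : ℝ} (hs : 0 < s) : 0 < hf γ r p s := by
  have : 0 < γ - 1 := by linarith
  unfold hf en
  exact mul_pos (by positivity) (Real.rpow_pos_of_pos hs _)

lemma wf_pos (hγ : 1 < γ) (hr : 0 < r) {s : ℝ} (hs : 0 < s) : 0 < wf γ r s := by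
  unfold wf
  have := al_pos hγ
  exact mul_pos (by positivity) (Real.rpow_pos_of_pos hs _)

/-- specific volume in a fan -/
lemma tau_eq (hγ : 1 < γ) (hr : 0 < r) (hp : 0 < p) (hC : C ^ 2 = γ * p * r) {s : ℝ}
    (hs : 0 < s) : (C * s) ^ 2 * ((γ - 1) * hf γ r p s / pf γ p s) = γ * pf γ p s := by
  have hγ' : 0 < γ - 1 := by linarith
  unfold hf pf en
  have e1 : s ^ (2 * (1 - al γ)) * s ^ 2 = s ^ (2 - al γ) * s ^ (2 - al γ) := by
    rw [← Real.rpow_natCast s 2, ← Real.rpow_add hs, ← Real.rpow_add hs]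
    congr 1
    push_cast
    ring
  have hpos : 0 < s ^ (2 - al γ) := Real.rpow_pos_of_pos hs _
  rw [mul_pow, hC]
  field_simp
  linear_combination e1

lemma Sb_fan (hγ : 1 < γ) (hr : 0 < r) (hp : 0 < p) {s : ℝ} (hs : 0 < s) :
    Sb γ (pf γ p s) (hf γ r p s) = sp γ r p := by
  have hγ' : 0 < γ - 1 := by linarith
  have h1 : 0 < s ^ (2 - al γ) := Real.rpow_pos_of_pos hs _
  have h2 : 0 < s ^ (2 * (1 - al γ)) := Real.rpow_pos_of_pos hs _
  unfold Sb sp pf hf en
  rw [Real.log_mul hp.ne' h1.ne', Real.log_mul (by positivity) h2.ne', Real.log_rpow hs,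
    Real.log_rpow hs, Real.log_div hp.ne' (by positivity), Real.log_mul hγ'.ne' hr.ne']
  have e := al_eq hγ
  linear_combination (Real.log s) * e

end fans

end

end Pool.Agent.helper23_Euler
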