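import Mathlib
import Pool.Agent.helper23_Euler.Fan

open MeasureTheory Set Filter Topology
open scoped ContDiff Convolution

namespace Pool.Agent.helper23_Euler

noncomputable section

/-- parameters of a two-fan profile with a middle jump -/
structure FP (γ : ℝ) where
  (rL pL rR pR CL CR sL sR θ J D : ℝ)
  hγ : 1 < γ
  hrL : 0 < rL
  hpL : 0 < pL
  hrR : 0 < rR
  hpR : 0 < pR
  hCL : 0 < CL
  hCR : 0 < CR
  hCL2 : CL ^ 2 = γ * pL * rL
  hCR2 : CR ^ 2 = γ * pR * rR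
  hsL : 0 < sL
  hsL1 : sL < 1
  hsR : 0 < sR
  hsR1 : sR < 1
  hθ : 0 < θ
  hθL : θ ≤ CL * sL
  hθR : θ ≤ CR * sR
  hD : D = hf γ rR pR sR - hf γ rL pL sL
  hpi : pf γ pL sL = pf γ pR sR
  hJ : 0 ≤ J

namespace FP

variable {γ : ℝ} (F : FP γ)

/-- velocity gradient -/
def w (x : ℝ) : ℝ :=
  piece (-F.CL) (-(F.CL * F.sL)) (fun x => wf γ F.rL (-x / F.CL)) x
    + piece (-F.θ) F.θ (fun _ => F.J / (2 * F.θ)) x
    + piece (F.CR * F.sR) F.CR (fun x => wf γ F.rR (x / F.CR)) x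

/-- temperature gradient -/
def v (x : ℝ) : ℝ :=
  piece (-F.CL) (-(F.CL * F.sL)) (fun x => - vf γ F.rL F.pL F.CL (-x / F.CL)) x
    + piece (-F.θ) F.θ (fun _ => F.D / (2 * F.θ)) x
    + piece (F.CR * F.sR) F.CR (fun x => vf γ F.rR F.pR F.CR (x / F.CR)) x

/-- the left parameter -/
def σL (x : ℝ) : ℝ := - clamp (-F.CL) (-(F.CL * F.sL)) x / F.CL

/-- the right parameter -/
def σR (x : ℝ) : ℝ := clamp (F.CR * F.sR) F.CR x / F.CR

/-- the middle parameter -/
def σM (x : ℝ) : ℝ := clamp (-F.θ) F.θ x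

lemma leL : -F.CL ≤ -(F.CL * F.sL) := by
  have := mul_le_mul_of_nonneg_left F.hsL1.le F.hCL.le
  linarith

lemma leR : F.CR * F.sR ≤ F.CR := by
  have := mul_le_mul_of_nonneg_left F.hsR1.le F.hCR.le
  linarith

lemma leM : -F.θ ≤ F.θ := by linarith [F.hθ]

lemma σL_mem (x : ℝ) : F.sL ≤ F.σL x ∧ F.σL x ≤ 1 := by
  have h := clamp_mem F.leL x
  unfold σL
  constructor
  · rw [le_div_iff₀ F.hCL]
    linarith [h.2]
  · rw [div_le_one F.hCL]
    linarith [h.1]

lemma σR_mem (x : ℝ) : F.sR ≤ F.σR x ∧ F.σR x ≤ 1 := by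
  have h := clamp_mem F.leR x
  unfold σR
  constructor
  · rw [le_div_iff₀ F.hCR]
    linarith [h.1]
  · rw [div_le_one F.hCR]
    exact h.2

lemma σL_of_le {x : ℝ} (hx : x ≤ -F.CL) : F.σL x = 1 := by
  unfold σL
  rw [clamp_of_le hx, neg_neg, div_self F.hCL.ne']

lemma σL_of_ge {x : ℝ} (hx : -(F.CL * F.sL) ≤ x) : F.σL x = F.sL := by
  unfold σL
  rw [clamp_of_ge F.leL hx, neg_neg, mul_div_cancel_left₀ _ F.hCL.ne']

lemma σL_of_mem {x : ℝ} (hx : -F.CL ≤ x) (hx' : x ≤ -(F.CL * F.sL)) : F.σL x = -x / F.CL := by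
  unfold σL
  rw [clamp_of_mem hx hx']

lemma σR_of_le {x : ℝ} (hx : x ≤ F.CR * F.sR) : F.σR x = F.sR := by
  unfold σR
  rw [clamp_of_le hx, mul_div_cancel_left₀ _ F.hCR.ne']

lemma σR_of_ge {x : ℝ} (hx : F.CR ≤ x) : F.σR x = 1 := by
  unfold σR
  rw [clamp_of_ge F.leR hx, div_self F.hCR.ne']

lemma σR_of_mem {x : ℝ} (hx : F.CR * F.sR ≤ x) (hx' : x ≤ F.CR) : F.σR x = x / F.CR := by
  unfold σR
  rw [clamp_of_mem hx hx']

/-- velocity -/
def U (cu : ℝ) (x : ℝ) : ℝ :=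
  cu + (uf γ F.rL F.CL 1 - uf γ F.rL F.CL (F.σL x)) + F.J / (2 * F.θ) * (F.σM x + F.θ)
    + (uf γ F.rR F.CR (F.σR x) - uf γ F.rR F.CR F.sR)

/-- pressure -/
def P (x : ℝ) : ℝ :=
  F.pL + (pf γ F.pL (F.σL x) - pf γ F.pL 1) + F.J / (4 * F.θ) * ((F.σM x) ^ 2 - F.θ ^ 2)
    + (pf γ F.pR (F.σR x) - pf γ F.pR F.sR)

/-- temperature -/
def H (x : ℝ) : ℝ :=
  en γ F.rL F.pL + (hf γ F.rL F.pL (F.σL x) - hf γ F.rL F.pL 1)
    + F.D / (2 * F.θ) * (F.σM x + F.θ)
    + (hf γ F.rR F.pR (F.σR x) - hf γ F.rR F.pR F.sR)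

lemma pos_of_memL {x : ℝ} (hx : x ∈ Icc (-F.CL) (-(F.CL * F.sL))) : 0 < -x / F.CL := by
  have := mul_pos F.hCL F.hsL
  exact div_pos (by linarith [hx.2]) F.hCL

lemma pos_of_memR {x : ℝ} (hx : x ∈ Icc (F.CR * F.sR) F.CR) : 0 < x / F.CR := by
  have := mul_pos F.hCR F.hsR
  exact div_pos (by linarith [hx.1]) F.hCR

lemma derL {f : ℝ → ℝ} {f' x : ℝ} (h : HasDerivAt f f' (-x / F.CL)) :
    HasDerivAt (fun x => f (-x / F.CL)) (- f' / F.CL) x := by
  have h1 : HasDerivAt (fun x : ℝ => -x / F.CL) (-1 / F.CL) x :=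
    (hasDerivAt_id x).neg.div_const F.CL
  have h2 := h.comp x h1
  convert! h2 using 1
  ring

lemma derR {f : ℝ → ℝ} {f' x : ℝ} (h : HasDerivAt f f' (x / F.CR)) :
    HasDerivAt (fun x => f (x / F.CR)) (f' / F.CR) x := by
  have h1 : HasDerivAt (fun x : ℝ => x / F.CR) (1 / F.CR) x :=
    (hasDerivAt_id x).div_const F.CR
  have h2 := h.comp x h1
  convert! h2 using 1
  ring

lemma contOn_wf {r : ℝ} : ContinuousOn (wf γ r) (Ioi 0) := by
  intro s hs
  have hs' : (0 : ℝ) < s := hs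
  unfold wf
  exact (continuousAt_const.mul
    (Real.continuousAt_rpow_const _ _ (Or.inl hs'.ne'))).continuousWithinAt

lemma contOn_vf {r p C : ℝ} : ContinuousOn (vf γ r p C) (Ioi 0) := by
  intro s hs
  have hs' : (0 : ℝ) < s := hs
  unfold vf
  exact (continuousAt_const.mul
    (Real.continuousAt_rpow_const _ _ (Or.inl hs'.ne'))).continuousWithinAt

lemma contOnL {f : ℝ → ℝ} (hf : ContinuousOn f (Ioi 0)) :
    ContinuousOn (fun x => f (-x / F.CL)) (Icc (-F.CL) (-(F.CL * F.sL))) :=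
  hf.comp (by fun_prop) fun _ hx => F.pos_of_memL hx

lemma contOnR {f : ℝ → ℝ} (hf : ContinuousOn f (Ioi 0)) :
    ContinuousOn (fun x => f (x / F.CR)) (Icc (F.CR * F.sR) F.CR) :=
  hf.comp (by fun_prop) fun _ hx => F.pos_of_memR hx

lemma intgL {f : ℝ → ℝ} (hf : ContinuousOn f (Icc (-F.CL) (-(F.CL * F.sL)))) :
    IntervalIntegrable f volume (-F.CL) (-(F.CL * F.sL)) := by
  refine ContinuousOn.intervalIntegrable ?_
  rwa [uIcc_of_le F.leL]

lemma intgR {f : ℝ → ℝ} (hf : ContinuousOn f (Icc (F.CR * F.sR) F.CR)) :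
    IntervalIntegrable f volume (F.CR * F.sR) F.CR := by
  refine ContinuousOn.intervalIntegrable ?_
  rwa [uIcc_of_le F.leR]

lemma piece_integrable {a b : ℝ} (hab : a ≤ b) {g : ℝ → ℝ} (hi : IntervalIntegrable g volume a b)
    (c d : ℝ) : IntervalIntegrable (piece a b g) volume c d := by
  have h1 : IntegrableOn g (Ioo a b) := (intervalIntegrable_iff_integrableOn_Ioo_of_le hab).1 hi
  have h2 : Integrable (piece a b g) := by
    have e : piece a b g = (Ioo a b).indicator g := by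
      ext x
      by_cases hx : x ∈ Ioo a b
      · rw [indicator_of_mem hx, piece_in hx]
      · rw [indicator_of_notMem hx, piece_out hx]
    rw [e, integrable_indicator_iff measurableSet_Ioo]
    exact h1
  exact h2.intervalIntegrable

lemma prim_three {a1 b1 a2 b2 a3 b3 R c : ℝ} {g1 g2 g3 f1 f2 f3 : ℝ → ℝ} (h1 : a1 ≤ b1)
    (h2 : a2 ≤ b2) (h3 : a3 ≤ b3) (hR1 : -R ≤ a1) (hR2 : -R ≤ a2) (hR3 : -R ≤ a3)
    (c1 : ContinuousOn f1 (Icc a1 b1)) (c2 : ContinuousOn f2 (Icc a2 b2))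
    (c3 : ContinuousOn f3 (Icc a3 b3)) (d1 : ∀ x ∈ Ioo a1 b1, HasDerivAt f1 (g1 x) x)
    (d2 : ∀ x ∈ Ioo a2 b2, HasDerivAt f2 (g2 x) x) (d3 : ∀ x ∈ Ioo a3 b3, HasDerivAt f3 (g3 x) x)
    (i1 : IntervalIntegrable g1 volume a1 b1) (i2 : IntervalIntegrable g2 volume a2 b2)
    (i3 : IntervalIntegrable g3 volume a3 b3) (x : ℝ) :
    prim R c (fun s => piece a1 b1 g1 s + piece a2 b2 g2 s + piece a3 b3 g3 s) x =
      c + (f1 (clamp a1 b1 x) - f1 a1) + (f2 (clamp a2 b2 x) - f2 a2)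
        + (f3 (clamp a3 b3 x) - f3 a3) := by
  unfold prim
  rw [intervalIntegral.integral_add ((piece_integrable h1 i1 _ _).add (piece_integrable h2 i2 _ _))
    (piece_integrable h3 i3 _ _),
    intervalIntegral.integral_add (piece_integrable h1 i1 _ _) (piece_integrable h2 i2 _ _),
    integral_piece h1 hR1 c1 d1 i1, integral_piece h2 hR2 c2 d2 i2, integral_piece h3 hR3 c3 d3 i3]
  ring

lemma prim_w {R : ℝ} (hR : F.CL ≤ R) (hR2 : F.θ ≤ R) (cu x : ℝ) :
    prim R cu F.w x = F.U cu x := by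
  have hRR : -R ≤ F.CR * F.sR := by
    have := mul_pos F.hCR F.hsR
    linarith [F.hCL]
  have e := prim_three (R := R) (c := cu) F.leL F.leM F.leR (by linarith) (by linarith) hRR
    (g1 := fun x => wf γ F.rL (-x / F.CL)) (f1 := fun x => - uf γ F.rL F.CL (-x / F.CL))
    (g2 := fun _ => F.J / (2 * F.θ)) (f2 := fun x => F.J / (2 * F.θ) * x)
    (g3 := fun x => wf γ F.rR (x / F.CR)) (f3 := fun x => uf γ F.rR F.CR (x / F.CR))
    ?_ ?_ ?_ ?_ ?_ ?_ ?_ ?_ ?_ x
  · show prim R cu (fun s => piece (-F.CL) (-(F.CL * F.sL)) (fun x => wf γ F.rL (-x / F.CL)) s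
      + piece (-F.θ) F.θ (fun _ => F.J / (2 * F.θ)) s
      + piece (F.CR * F.sR) F.CR (fun x => wf γ F.rR (x / F.CR)) s) x = _
    rw [e]
    unfold U σL σR σM
    rw [neg_neg, div_self F.hCL.ne', mul_div_cancel_left₀ _ F.hCR.ne']
    ring
  · intro x hx
    have := (hasDerivAt_uf (r := F.rL) (C := F.CL) F.hγ (F.pos_of_memL hx)).continuousAt
    exact (this.comp (f := fun x : ℝ => -x / F.CL)
      (by fun_prop)).neg.continuousWithinAt
  · fun_prop
  · intro x hx
    have := (hasDerivAt_uf (r := F.rR) (C := F.CR) F.hγ (F.pos_of_memR hx)).continuousAt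
    exact (this.comp (f := fun x : ℝ => x / F.CR) (by fun_prop)).continuousWithinAt
  · intro x hx
    have h1 := (F.derL (hasDerivAt_uf (r := F.rL) (C := F.CL) F.hγ
      (F.pos_of_memL (Ioo_subset_Icc_self hx)))).neg
    have := F.hCL.ne'
    convert! h1 using 1
    field_simp
  · intro x hx
    simpa using (hasDerivAt_id x).const_mul (F.J / (2 * F.θ))
  · intro x hx
    have h1 := F.derR (hasDerivAt_uf (r := F.rR) (C := F.CR) F.hγ
      (F.pos_of_memR (Ioo_subset_Icc_self hx)))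
    have := F.hCR.ne'
    convert! h1 using 1
    field_simp
  · exact F.intgL (F.contOnL contOn_wf)
  · exact intervalIntegrable_const
  · exact F.intgR (F.contOnR contOn_wf)

lemma mul_piece {a b : ℝ} (g : ℝ → ℝ) (x : ℝ) :
    x * piece a b g x = piece a b (fun x => x * g x) x := by
  by_cases hx : a < x ∧ x < b
  · rw [piece_in hx, piece_in hx]
  · rw [piece_out hx, piece_out hx, mul_zero]

lemma prim_sw {R : ℝ} (hR : F.CL ≤ R) (hR2 : F.θ ≤ R) (x : ℝ) :
    prim R F.pL (fun s => s * F.w s) x = F.P x := by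
  have hRR : -R ≤ F.CR * F.sR := by
    have := mul_pos F.hCR F.hsR
    linarith [F.hCL]
  have e := prim_three (R := R) (c := F.pL) F.leL F.leM F.leR (by linarith) (by linarith) hRR
    (g1 := fun x => x * wf γ F.rL (-x / F.CL)) (f1 := fun x => pf γ F.pL (-x / F.CL))
    (g2 := fun x => x * (F.J / (2 * F.θ))) (f2 := fun x => F.J / (4 * F.θ) * x ^ 2)
    (g3 := fun x => x * wf γ F.rR (x / F.CR)) (f3 := fun x => pf γ F.pR (x / F.CR))
    ?_ ?_ ?_ ?_ ?_ ?_ ?_ ?_ ?_ x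
  · have e0 : (fun s => s * F.w s) = fun s =>
        piece (-F.CL) (-(F.CL * F.sL)) (fun x => x * wf γ F.rL (-x / F.CL)) s
      + piece (-F.θ) F.θ (fun x => x * (F.J / (2 * F.θ))) s
      + piece (F.CR * F.sR) F.CR (fun x => x * wf γ F.rR (x / F.CR)) s := by
      ext s
      unfold w
      rw [mul_add, mul_add, mul_piece, mul_piece, mul_piece]
    rw [e0, e]
    unfold P σL σR σM
    rw [neg_neg, div_self F.hCL.ne', mul_div_cancel_left₀ _ F.hCR.ne']
    ring
  · intro x hx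
    have := (hasDerivAt_pf F.hγ F.hrL F.hpL F.hCL2 (F.pos_of_memL hx)).continuousAt
    exact (this.comp (f := fun x : ℝ => -x / F.CL) (by fun_prop)).continuousWithinAt
  · fun_prop
  · intro x hx
    have := (hasDerivAt_pf F.hγ F.hrR F.hpR F.hCR2 (F.pos_of_memR hx)).continuousAt
    exact (this.comp (f := fun x : ℝ => x / F.CR) (by fun_prop)).continuousWithinAt
  · intro x hx
    have h1 := F.derL (hasDerivAt_pf F.hγ F.hrL F.hpL F.hCL2
      (F.pos_of_memL (Ioo_subset_Icc_self hx)))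
    have := F.hCL.ne'
    convert! h1 using 1
    field_simp
  · intro x hx
    have h1 := (hasDerivAt_pow 2 x).const_mul (F.J / (4 * F.θ))
    have := F.hθ.ne'
    convert! h1 using 1
    field_simp
    push_cast
    ring
  · intro x hx
    have h1 := F.derR (hasDerivAt_pf F.hγ F.hrR F.hpR F.hCR2
      (F.pos_of_memR (Ioo_subset_Icc_self hx)))
    have := F.hCR.ne'
    convert! h1 using 1
    field_simp
  · exact F.intgL (continuousOn_id.mul (F.contOnL contOn_wf))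
  · exact (continuous_id.mul continuous_const).intervalIntegrable _ _
  · exact F.intgR (continuousOn_id.mul (F.contOnR contOn_wf))

lemma prim_v {R : ℝ} (hR : F.CL ≤ R) (hR2 : F.θ ≤ R) (x : ℝ) :
    prim R (en γ F.rL F.pL) F.v x = F.H x := by
  have hRR : -R ≤ F.CR * F.sR := by
    have := mul_pos F.hCR F.hsR
    linarith [F.hCL]
  have e := prim_three (R := R) (c := en γ F.rL F.pL) F.leL F.leM F.leR (by linarith)
    (by linarith) hRR
    (g1 := fun x => - vf γ F.rL F.pL F.CL (-x / F.CL))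
    (f1 := fun x => hf γ F.rL F.pL (-x / F.CL))
    (g2 := fun _ => F.D / (2 * F.θ)) (f2 := fun x => F.D / (2 * F.θ) * x)
    (g3 := fun x => vf γ F.rR F.pR F.CR (x / F.CR)) (f3 := fun x => hf γ F.rR F.pR (x / F.CR))
    ?_ ?_ ?_ ?_ ?_ ?_ ?_ ?_ ?_ x
  · show prim R (en γ F.rL F.pL) (fun s =>
      piece (-F.CL) (-(F.CL * F.sL)) (fun x => - vf γ F.rL F.pL F.CL (-x / F.CL)) s
      + piece (-F.θ) F.θ (fun _ => F.D / (2 * F.θ)) s
      + piece (F.CR * F.sR) F.CR (fun x => vf γ F.rR F.pR F.CR (x / F.CR)) s) x = _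
    rw [e]
    unfold H σL σR σM
    rw [neg_neg, div_self F.hCL.ne', mul_div_cancel_left₀ _ F.hCR.ne']
    ring
  · intro x hx
    have := (hasDerivAt_hf (γ := γ) (r := F.rL) (p := F.pL) F.hCL
      (F.pos_of_memL hx)).continuousAt
    exact (this.comp (f := fun x : ℝ => -x / F.CL) (by fun_prop)).continuousWithinAt
  · fun_prop
  · intro x hx
    have := (hasDerivAt_hf (γ := γ) (r := F.rR) (p := F.pR) F.hCR
      (F.pos_of_memR hx)).continuousAt
    exact (this.comp (f := fun x : ℝ => x / F.CR) (by fun_prop)).continuousWithinAt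
  · intro x hx
    have h1 := F.derL (hasDerivAt_hf (γ := γ) (r := F.rL) (p := F.pL) F.hCL
      (F.pos_of_memL (Ioo_subset_Icc_self hx)))
    have := F.hCL.ne'
    convert! h1 using 1
    field_simp
  · intro x hx
    simpa using (hasDerivAt_id x).const_mul (F.D / (2 * F.θ))
  · intro x hx
    have h1 := F.derR (hasDerivAt_hf (γ := γ) (r := F.rR) (p := F.pR) F.hCR
      (F.pos_of_memR (Ioo_subset_Icc_self hx)))
    have := F.hCR.ne'
    convert! h1 using 1
    field_simp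
  · exact F.intgL (F.contOnL contOn_vf).neg
  · exact intervalIntegrable_const
  · exact F.intgR (F.contOnR contOn_vf)

lemma measurable_w : Measurable F.w := by
  unfold w wf
  refine Measurable.add (Measurable.add ?_ ?_) ?_
  · exact measurable_piece (((measurable_neg.comp measurable_id).div_const _).pow_const _
      |>.const_mul _)
  · exact measurable_piece measurable_const
  · exact measurable_piece ((measurable_id.div_const _).pow_const _ |>.const_mul _)

lemma measurable_v : Measurable F.v := by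
  unfold v vf
  refine Measurable.add (Measurable.add ?_ ?_) ?_
  · exact measurable_piece ((((measurable_neg.comp measurable_id).div_const _).pow_const _
      |>.const_mul _).neg)
  · exact measurable_piece measurable_const
  · exact measurable_piece ((measurable_id.div_const _).pow_const _ |>.const_mul _)

lemma bound_piece {a b : ℝ} {g : ℝ → ℝ} (hg : ContinuousOn g (Icc a b)) :
    ∃ W, 0 ≤ W ∧ ∀ x, |piece a b g x| ≤ W := by
  obtain ⟨W, hW⟩ := isCompact_Icc.exists_bound_of_continuousOn hg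
  refine ⟨|W|, abs_nonneg _, ?_⟩
  refine piece_bound (abs_nonneg _) ?_
  intro x h1 h2
  exact (hW x ⟨h1.le, h2.le⟩).trans (le_abs_self W)

lemma bound_w : ∃ W, 0 ≤ W ∧ ∀ x, |F.w x| ≤ W := by
  obtain ⟨W1, h1, k1⟩ := bound_piece (F.contOnL (contOn_wf (γ := γ) (r := F.rL)))
  obtain ⟨W2, h2, k2⟩ := bound_piece (a := -F.θ) (b := F.θ)
    (continuousOn_const (c := F.J / (2 * F.θ)))
  obtain ⟨W3, h3, k3⟩ := bound_piece (F.contOnR (contOn_wf (γ := γ) (r := F.rR)))
  refine ⟨W1 + W2 + W3, by positivity, fun x => ?_⟩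
  unfold w
  exact (abs_add_le _ _).trans (add_le_add ((abs_add_le _ _).trans (add_le_add (k1 x) (k2 x)))
    (k3 x))

lemma bound_v : ∃ W, 0 ≤ W ∧ ∀ x, |F.v x| ≤ W := by
  obtain ⟨W1, h1, k1⟩ := bound_piece
    ((F.contOnL (contOn_vf (γ := γ) (r := F.rL) (p := F.pL) (C := F.CL))).neg)
  obtain ⟨W2, h2, k2⟩ := bound_piece (a := -F.θ) (b := F.θ)
    (continuousOn_const (c := F.D / (2 * F.θ)))
  obtain ⟨W3, h3, k3⟩ := bound_piece
    (F.contOnR (contOn_vf (γ := γ) (r := F.rR) (p := F.pR) (C := F.CR)))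
  refine ⟨W1 + W2 + W3, by positivity, fun x => ?_⟩
  unfold v
  exact (abs_add_le _ _).trans (add_le_add ((abs_add_le _ _).trans (add_le_add (k1 x) (k2 x)))
    (k3 x))

/-- the middle values -/
lemma pf_one : pf γ F.pL 1 = F.pL := by simp [pf]
lemma pf_one' : pf γ F.pR 1 = F.pR := by simp [pf]
lemma hf_one : hf γ F.rL F.pL 1 = en γ F.rL F.pL := by simp [hf]
lemma hf_one' : hf γ F.rR F.pR 1 = en γ F.rR F.pR := by simp [hf]

lemma pf_mono {p s t : ℝ} (hp : 0 < p) (hs : 0 < s) (hst : s ≤ t) (hγ : 1 < γ) :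
    pf γ p s ≤ pf γ p t := by
  unfold pf
  have h1 : 0 ≤ 2 - al γ := by
    rw [al_eq hγ]
    have := al_pos hγ
    positivity
  exact mul_le_mul_of_nonneg_left (Real.rpow_le_rpow hs.le hst h1) hp.le

lemma hf_mono {r p s t : ℝ} (hr : 0 < r) (hp : 0 < p) (hs : 0 < s) (hst : s ≤ t) (hγ : 1 < γ) :
    hf γ r p s ≤ hf γ r p t := by
  unfold hf en
  have h1 : 0 ≤ 2 * (1 - al γ) := by
    have := al_lt hγ
    linarith
  have h2 : 0 < γ - 1 := by linarith
  exact mul_le_mul_of_nonneg_left (Real.rpow_le_rpow hs.le hst h1) (by positivity)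

lemma σM_mem (x : ℝ) : -F.θ ≤ F.σM x ∧ F.σM x ≤ F.θ := clamp_mem F.leM x

lemma P_ge (x : ℝ) : pf γ F.pL F.sL - F.J * F.θ / 4 ≤ F.P x := by
  have h1 := pf_mono F.hpL F.hsL (F.σL_mem x).1 F.hγ
  have h2 := pf_mono F.hpR F.hsR (F.σR_mem x).1 F.hγ
  have h3 := F.hθ
  have h4 : - (F.J * F.θ / 4) ≤ F.J / (4 * F.θ) * ((F.σM x) ^ 2 - F.θ ^ 2) := by
    have e : F.J * F.θ / 4 = F.J / (4 * F.θ) * F.θ ^ 2 := by
      field_simp
    rw [e]
    have := F.hJ
    have h5 : 0 ≤ F.J / (4 * F.θ) := by positivity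
    nlinarith [sq_nonneg (F.σM x)]
  unfold P
  rw [pf_one]
  linarith

lemma P_le (x : ℝ) : F.P x ≤ F.pL + F.pR := by
  have h1 := pf_mono F.hpL (lt_of_lt_of_le F.hsL (F.σL_mem x).1) (F.σL_mem x).2 F.hγ
  have h2 := pf_mono F.hpR (lt_of_lt_of_le F.hsR (F.σR_mem x).1) (F.σR_mem x).2 F.hγ
  rw [pf_one] at h1
  rw [pf_one'] at h2
  have h3 := F.hθ
  have h4 : F.J / (4 * F.θ) * ((F.σM x) ^ 2 - F.θ ^ 2) ≤ 0 := by
    have := F.hJ
    have h5 : 0 ≤ F.J / (4 * F.θ) := by positivity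
    have h6 : (F.σM x) ^ 2 ≤ F.θ ^ 2 := sq_le_sq' (F.σM_mem x).1 (F.σM_mem x).2
    exact mul_nonpos_of_nonneg_of_nonpos h5 (by linarith)
  have h5 := pf_pos (γ := γ) F.hpR F.hsR
  unfold P
  rw [pf_one]
  linarith

lemma H_eq (x : ℝ) : F.H x = (hf γ F.rL F.pL (F.σL x) - hf γ F.rL F.pL F.sL)
    + (hf γ F.rR F.pR (F.σR x) - hf γ F.rR F.pR F.sR)
    + ((1 - (F.σM x + F.θ) / (2 * F.θ)) * hf γ F.rL F.pL F.sL
      + (F.σM x + F.θ) / (2 * F.θ) * hf γ F.rR F.pR F.sR) := by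
  unfold H
  rw [hf_one, F.hD]
  ring

lemma lam_mem (x : ℝ) : 0 ≤ (F.σM x + F.θ) / (2 * F.θ) ∧ (F.σM x + F.θ) / (2 * F.θ) ≤ 1 := by
  have h := F.σM_mem x
  have := F.hθ
  constructor
  · exact div_nonneg (by linarith [h.1]) (by linarith)
  · rw [div_le_one (by linarith)]
    linarith [h.2]

lemma H_ge (x : ℝ) : min (hf γ F.rL F.pL F.sL) (hf γ F.rR F.pR F.sR) ≤ F.H x := by
  have h1 := hf_mono F.hrL F.hpL F.hsL (F.σL_mem x).1 F.hγ
  have h2 := hf_mono F.hrR F.hpR F.hsR (F.σR_mem x).1 F.hγ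
  obtain ⟨h3, h4⟩ := F.lam_mem x
  rw [H_eq]
  have h5 := min_le_left (hf γ F.rL F.pL F.sL) (hf γ F.rR F.pR F.sR)
  have h6 := min_le_right (hf γ F.rL F.pL F.sL) (hf γ F.rR F.pR F.sR)
  have h7 := mul_le_mul_of_nonneg_left h5 (sub_nonneg.2 h4)
  have h8 := mul_le_mul_of_nonneg_left h6 h3
  linarith

lemma H_le (x : ℝ) : F.H x ≤ en γ F.rL F.pL + en γ F.rR F.pR := by
  have h1 := hf_mono F.hrL F.hpL (lt_of_lt_of_le F.hsL (F.σL_mem x).1) (F.σL_mem x).2 F.hγ
  have h2 := hf_mono F.hrR F.hpR (lt_of_lt_of_le F.hsR (F.σR_mem x).1) (F.σR_mem x).2 F.hγ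
  rw [hf_one] at h1
  rw [hf_one'] at h2
  obtain ⟨h3, h4⟩ := F.lam_mem x
  have h5 := hf_pos F.hγ F.hrL F.hpL F.hsL
  have h6 := hf_pos F.hγ F.hrR F.hpR F.hsR
  rw [H_eq]
  have h7 := mul_nonneg h3 h5.le
  have h8 := mul_nonneg (sub_nonneg.2 h4) h6.le
  linarith

lemma σM_of_le {x : ℝ} (h : x ≤ -F.θ) : F.σM x = -F.θ := clamp_of_le h
lemma σM_of_ge {x : ℝ} (h : F.θ ≤ x) : F.σM x = F.θ := clamp_of_ge F.leM h
lemma σM_of_mem {x : ℝ} (h : -F.θ ≤ x) (h' : x ≤ F.θ) : F.σM x = x := clamp_of_mem h h'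

/-- values on the left -/
lemma values_left {x : ℝ} (hx : x ≤ -F.CL) (cu : ℝ) :
    F.U cu x = cu ∧ F.P x = F.pL ∧ F.H x = en γ F.rL F.pL := by
  have h1 : F.σL x = 1 := F.σL_of_le hx
  have h2 := F.leL
  have h3 := F.hθL
  have h4 := F.hθR
  have h5 := F.hθ
  have h6 : F.σM x = -F.θ := F.σM_of_le (by linarith)
  have h7 : F.σR x = F.sR := F.σR_of_le (by linarith)
  unfold U P H
  rw [h1, h6, h7]
  refine ⟨by ring, by ring, by ring⟩

/-- values on the right -/
lemma values_right {x : ℝ} (hx : F.CR ≤ x) (cu : ℝ) :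
    F.U cu x = cu + (uf γ F.rL F.CL 1 - uf γ F.rL F.CL F.sL) + F.J
      + (uf γ F.rR F.CR 1 - uf γ F.rR F.CR F.sR) ∧ F.P x = F.pR
      ∧ F.H x = en γ F.rR F.pR := by
  have h1 : F.σR x = 1 := F.σR_of_ge hx
  have h2 := F.leR
  have h3 := F.hθL
  have h4 := F.hθR
  have h5 := F.hθ
  have h6 : F.σM x = F.θ := F.σM_of_ge (by linarith)
  have h7 : F.σL x = F.sL := F.σL_of_ge (by linarith)
  unfold U P H
  rw [h1, h6, h7, pf_one, pf_one', hf_one, hf_one', F.hpi, F.hD]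
  refine ⟨by field_simp; ring, by ring, by field_simp; ring⟩

/-- the lower bound of the dissipation -/
def lam (m : ℝ) (x : ℝ) : ℝ :=
  piece (-F.CL) (-(F.CL * F.sL)) (fun x => wf γ F.rL (-x / F.CL) * pf γ F.pL (-x / F.CL)
      * (1 + γ - sp γ F.rL F.pL)) x
    + piece (-F.θ) F.θ (fun _ => m) x
    + piece (F.CR * F.sR) F.CR (fun x => wf γ F.rR (x / F.CR) * pf γ F.pR (x / F.CR)
      * (1 + γ - sp γ F.rR F.pR)) x

lemma contOn_pf {p : ℝ} : ContinuousOn (pf γ p) (Ioi 0) := by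
  intro s hs
  have hs' : (0 : ℝ) < s := hs
  unfold pf
  exact (continuousAt_const.mul
    (Real.continuousAt_rpow_const _ _ (Or.inl hs'.ne'))).continuousWithinAt

lemma measurable_lam (m : ℝ) : Measurable (F.lam m) := by
  unfold lam wf pf
  refine Measurable.add (Measurable.add ?_ ?_) ?_
  · exact measurable_piece (((((measurable_neg.comp measurable_id).div_const _).pow_const _
      |>.const_mul _).mul (((measurable_neg.comp measurable_id).div_const _).pow_const _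
      |>.const_mul _)).mul_const _)
  · exact measurable_piece measurable_const
  · exact measurable_piece ((((measurable_id.div_const _).pow_const _
      |>.const_mul _).mul ((measurable_id.div_const _).pow_const _
      |>.const_mul _)).mul_const _)

lemma bound_lam (m : ℝ) : ∃ W, 0 ≤ W ∧ ∀ x, |F.lam m x| ≤ W := by
  obtain ⟨W1, h1, k1⟩ := bound_piece
    (((F.contOnL (contOn_wf (γ := γ) (r := F.rL))).mul
      (F.contOnL (contOn_pf (γ := γ) (p := F.pL)))).mul
      (continuousOn_const (c := 1 + γ - sp γ F.rL F.pL)))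
  obtain ⟨W2, h2, k2⟩ := bound_piece (a := -F.θ) (b := F.θ)
    (continuousOn_const (c := m))
  obtain ⟨W3, h3, k3⟩ := bound_piece
    (((F.contOnR (contOn_wf (γ := γ) (r := F.rR))).mul
      (F.contOnR (contOn_pf (γ := γ) (p := F.pR)))).mul
      (continuousOn_const (c := 1 + γ - sp γ F.rR F.pR)))
  refine ⟨W1 + W2 + W3, by positivity, fun x => ?_⟩
  unfold lam
  exact (abs_add_le _ _).trans (add_le_add ((abs_add_le _ _).trans (add_le_add (k1 x) (k2 x)))
    (k3 x))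

/-- the four cases -/
lemma cases (m x : ℝ) :
    (∃ s, 0 < s ∧ x = -(F.CL * s) ∧ F.w x = wf γ F.rL s ∧ F.v x = - vf γ F.rL F.pL F.CL s ∧
      F.lam m x = wf γ F.rL s * pf γ F.pL s * (1 + γ - sp γ F.rL F.pL) ∧
      F.P x = pf γ F.pL s ∧ F.H x = hf γ F.rL F.pL s ∧ ¬ |x| < F.θ) ∨
    (|x| < F.θ ∧ F.w x = F.J / (2 * F.θ) ∧ F.v x = F.D / (2 * F.θ) ∧ F.lam m x = m ∧
      F.P x ≤ pf γ F.pL F.sL) ∨
    (∃ s, 0 < s ∧ x = F.CR * s ∧ F.w x = wf γ F.rR s ∧ F.v x = vf γ F.rR F.pR F.CR s ∧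
      F.lam m x = wf γ F.rR s * pf γ F.pR s * (1 + γ - sp γ F.rR F.pR) ∧
      F.P x = pf γ F.pR s ∧ F.H x = hf γ F.rR F.pR s ∧ ¬ |x| < F.θ) ∨
    (F.w x = 0 ∧ F.v x = 0 ∧ F.lam m x = 0 ∧ ¬ |x| < F.θ) := by
  have h3 := F.hθL
  have h4 := F.hθR
  have h5 := F.hθ
  by_cases a1 : -F.CL < x ∧ x < -(F.CL * F.sL)
  · left
    have n2 : ¬ (-F.θ < x ∧ x < F.θ) := fun h => by linarith [h.1, a1.2]
    have n3 : ¬ (F.CR * F.sR < x ∧ x < F.CR) := fun h => by linarith [h.1, a1.2]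
    have hm : x ∈ Icc (-F.CL) (-(F.CL * F.sL)) := ⟨a1.1.le, a1.2.le⟩
    have e1 : F.σL x = -x / F.CL := F.σL_of_mem a1.1.le a1.2.le
    have e2 : F.σM x = -F.θ := F.σM_of_le (by linarith [a1.2])
    have e3 : F.σR x = F.sR := F.σR_of_le (by linarith [a1.2])
    refine ⟨-x / F.CL, F.pos_of_memL hm, ?_, ?_, ?_, ?_, ?_, ?_, ?_⟩
    · have := F.hCL.ne'
      field_simp
    · unfold w
      rw [piece_in a1, piece_out n2, piece_out n3]
      ring
    · unfold v
      rw [piece_in a1, piece_out n2, piece_out n3]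
      ring
    · unfold lam
      rw [piece_in a1, piece_out n2, piece_out n3]
      ring
    · unfold P
      rw [e1, e2, e3, pf_one]
      ring
    · unfold H
      rw [e1, e2, e3, hf_one]
      ring
    · intro h
      exact n2 (abs_lt.1 h)
  · by_cases a2 : -F.θ < x ∧ x < F.θ
    · right; left
      have n3 : ¬ (F.CR * F.sR < x ∧ x < F.CR) := fun h => by linarith [h.1, a2.2]
      refine ⟨abs_lt.2 a2, ?_, ?_, ?_, ?_⟩
      · unfold w
        rw [piece_out a1, piece_in a2, piece_out n3]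
        ring
      · unfold v
        rw [piece_out a1, piece_in a2, piece_out n3]
        ring
      · unfold lam
        rw [piece_out a1, piece_in a2, piece_out n3]
        ring
      · have e1 : F.σL x = F.sL := F.σL_of_ge (by linarith [a2.1])
        have e3 : F.σR x = F.sR := F.σR_of_le (by linarith [a2.2])
        have h6 : F.J / (4 * F.θ) * ((F.σM x) ^ 2 - F.θ ^ 2) ≤ 0 := by
          have := F.hJ
          have h5 : 0 ≤ F.J / (4 * F.θ) := by positivity
          have h6 : (F.σM x) ^ 2 ≤ F.θ ^ 2 := sq_le_sq' (F.σM_mem x).1 (F.σM_mem x).2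
          exact mul_nonpos_of_nonneg_of_nonpos h5 (by linarith)
        unfold P
        rw [e1, e3, pf_one]
        linarith
    · by_cases a3 : F.CR * F.sR < x ∧ x < F.CR
      · right; right; left
        have hm : x ∈ Icc (F.CR * F.sR) F.CR := ⟨a3.1.le, a3.2.le⟩
        have e1 : F.σR x = x / F.CR := F.σR_of_mem a3.1.le a3.2.le
        have e2 : F.σM x = F.θ := F.σM_of_ge (by linarith [a3.1])
        have e3 : F.σL x = F.sL := F.σL_of_ge (by linarith [a3.1])
        refine ⟨x / F.CR, F.pos_of_memR hm, ?_, ?_, ?_, ?_, ?_, ?_, ?_⟩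
        · have := F.hCR.ne'
          field_simp
        · unfold w
          rw [piece_out a1, piece_out a2, piece_in a3]
          ring
        · unfold v
          rw [piece_out a1, piece_out a2, piece_in a3]
          ring
        · unfold lam
          rw [piece_out a1, piece_out a2, piece_in a3]
          ring
        · unfold P
          rw [e1, e2, e3, pf_one, F.hpi]
          ring
        · unfold H
          rw [e1, e2, e3, hf_one, F.hD]
          field_simp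
          ring
        · intro h
          exact a2 (abs_lt.1 h)
      · right; right; right
        refine ⟨?_, ?_, ?_, ?_⟩
        · unfold w
          rw [piece_out a1, piece_out a2, piece_out a3]
          ring
        · unfold v
          rw [piece_out a1, piece_out a2, piece_out a3]
          ring
        · unfold lam
          rw [piece_out a1, piece_out a2, piece_out a3]
          ring
        · intro h
          exact a2 (abs_lt.1 h)

lemma w_supp {x : ℝ} (hx : max F.CL F.CR < |x|) : F.w x = 0 ∧ F.v x = 0 ∧ F.lam 0 x = 0 := by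
  have h3 := F.hθL
  have h4 := F.hθR
  have h5 := F.hθ
  have k1 := F.leL
  have k2 := F.leR
  have hm1 := (le_max_left F.CL F.CR)
  have hm2 := (le_max_right F.CL F.CR)
  have hCL := F.hCL
  have hCR := F.hCR
  have hxx : x < - max F.CL F.CR ∨ max F.CL F.CR < x := by
    rcases lt_abs.1 hx with h | h
    · right; exact h
    · left; linarith
  have a1 : ¬ (-F.CL < x ∧ x < -(F.CL * F.sL)) := by
    rintro ⟨h, h'⟩
    rcases hxx with h6 | h6 <;> linarith
  have a2 : ¬ (-F.θ < x ∧ x < F.θ) := by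
    rintro ⟨h, h'⟩
    rcases hxx with h6 | h6 <;> linarith
  have a3 : ¬ (F.CR * F.sR < x ∧ x < F.CR) := by
    rintro ⟨h, h'⟩
    rcases hxx with h6 | h6 <;> linarith
  refine ⟨?_, ?_, ?_⟩
  · unfold w
    rw [piece_out a1, piece_out a2, piece_out a3]
    ring
  · unfold v
    rw [piece_out a1, piece_out a2, piece_out a3]
    ring
  · unfold lam
    rw [piece_out a1, piece_out a2, piece_out a3]
    ring

end FP

/-- the key inequality in a fan -/
lemma fan_lower {γ r p rb pb C s : ℝ} (hγ : 1 < γ) (hr : 0 < r) (hp : 0 < p) (hrb : 0 < rb)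
    (hpb : 0 < pb) (hC : 0 < C) (hC2 : C ^ 2 = γ * pb * rb) (hs : 0 < s) :
    wf γ rb s * pf γ pb s * (1 + γ - sp γ rb pb) ≤
      wf γ rb s * (p + (C * s) ^ 2 * (1 / r)) - (C * s) * vf γ rb pb C s * sp γ r p := by
  have hγ' : 0 < γ - 1 := by linarith
  have hw := wf_pos hγ hrb hs
  have hP := pf_pos (γ := γ) hpb hs
  have hH := hf_pos hγ hrb hpb hs
  have h1 := vf_eq hγ (p := pb) hrb hC hs
  have h2 := tau_eq hγ hrb hpb hC2 hs
  have h3 := Sb_fan hγ hrb hpb hs
  rw [h1, ← h3]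
  set P := pf γ pb s with hPd
  set Hh := hf γ rb pb s with hHd
  set w := wf γ rb s with hwd
  set τ := (γ - 1) * Hh / P with hτ
  have hτ0 : 0 < τ := by positivity
  have e1 : (C * s) ^ 2 = γ * P / τ := by
    rw [eq_div_iff hτ0.ne', h2]
  have e2 : Sb γ P Hh = Real.log P + γ * Real.log τ := by
    unfold Sb
    rw [hτ, Real.log_div (by positivity) hP.ne', Real.log_mul hγ'.ne' hH.ne']
    ring
  have l1 : Real.log (p / P) ≤ p / P - 1 := Real.log_le_sub_one_of_pos (by positivity)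
  have l2 : Real.log ((1 / r) / τ) ≤ (1 / r) / τ - 1 :=
    Real.log_le_sub_one_of_pos (by positivity)
  rw [Real.log_div hp.ne' hP.ne'] at l1
  rw [Real.log_div (by positivity) hτ0.ne', Real.log_div one_ne_zero hr.ne', Real.log_one,
    zero_sub] at l2
  have e3 : w * (p + (C * s) ^ 2 * (1 / r)) - w * P * sp γ r p
      = w * P * (p / P + γ * ((1 / r) / τ) - sp γ r p) := by
    rw [e1]
    field_simp
  rw [e3]
  refine mul_le_mul_of_nonneg_left ?_ (by positivity)
  rw [e2]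
  unfold sp
  have := mul_le_mul_of_nonneg_left l2 (by linarith : (0 : ℝ) ≤ γ)
  linarith

/-- vanishing defect in a fan -/
lemma fan_defect {γ rb pb C s : ℝ} (hγ : 1 < γ) (hrb : 0 < rb)
    (hpb : 0 < pb) (hC : 0 < C) (hC2 : C ^ 2 = γ * pb * rb) (hs : 0 < s) :
    wf γ rb s * (pf γ pb s + (C * s) ^ 2 * ((γ - 1) * hf γ rb pb s / pf γ pb s))
      - (C * s) * vf γ rb pb C s * Sb γ (pf γ pb s) (hf γ rb pb s)
      - wf γ rb s * pf γ pb s * (1 + γ - sp γ rb pb) = 0 := by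
  rw [vf_eq hγ hrb hC hs, tau_eq hγ hrb hpb hC2 hs, Sb_fan hγ hrb hpb hs]
  ring

end

end Pool.Agent.helper23_Euler
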