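import Mathlib
import Pool.Agent.helper23_Euler.FanProf

open MeasureTheory Set Filter Topology
open scoped ContDiff Convolution

namespace Pool.Agent.helper23_Euler

noncomputable section

/-- a comparison profile for a pair of states with an overcritical velocity jump -/
structure NP (γ : ℝ) (B : Bds) (rL uL pL rR uR pR : ℝ) where
  w : ℝ → ℝ
  v : ℝ → ℝ
  lam : ℝ → ℝ
  W : ℝ
  A : ℝ
  R : ℝ
  cu : ℝ
  cp : ℝ
  ct : ℝ
  p1 : ℝ
  p2 : ℝ
  t1 : ℝ
  t2 : ℝ
  d : ℝ
  Cl : ℝ
  θ : ℝ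
  mw : Measurable w
  mv : Measurable v
  ml : Measurable lam
  hA : 0 < A
  hwW : ∀ x, |w x| ≤ W
  hvW : ∀ x, |v x| ≤ W
  hwA : ∀ x, A < |x| → w x = 0
  hvA : ∀ x, A < |x| → v x = 0
  hp1 : 0 < p1
  ht1 : 0 < t1
  hd : 0 < d
  hP : ∀ η, p1 + d ≤ prim R cp (fun s => s * w s) η ∧ prim R cp (fun s => s * w s) η ≤ p2 - d
  hH : ∀ η, t1 + d ≤ prim R ct v η ∧ prim R ct v η ≤ t2 - d
  hlC : ∀ η, |lam η| ≤ Cl
  hlam : ∀ η r u p, B.In r u p → lam η ≤ w η * (p + η ^ 2 * (1 / r)) - η * v η * sp γ r p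
  hleft : ∀ η, η ≤ -A → prim R cu w η = uL ∧ prim R cp (fun s => s * w s) η = pL ∧
    prim R ct v η = en γ rL pL
  hright : ∀ η, A ≤ η → prim R cu w η = uR ∧ prim R cp (fun s => s * w s) η = pR ∧
    prim R ct v η = en γ rR pR
  hθ : 0 < θ
  hθA : θ ≤ A
  def_le : ∀ η, defect γ w v (prim R cp (fun s => s * w s)) (prim R ct v) lam η ≤ 0
  def_mid : ∀ η, |η| < θ → defect γ w v (prim R cp (fun s => s * w s)) (prim R ct v) lam η ≤ -1

lemma exists_small {c1 c2 c3 c4 c5 : ℝ} (h1 : 0 < c1) (h2 : 0 < c2) (h3 : 0 < c3) (h4 : 0 < c4)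
    (h5 : 0 < c5) : ∃ θ : ℝ, 0 < θ ∧ θ ≤ 1 ∧ θ ≤ c1 ∧ θ ≤ c2 ∧ θ ≤ c3 ∧ θ ≤ c4 ∧ θ ≤ c5 := by
  refine ⟨min 1 (min c1 (min c2 (min c3 (min c4 c5)))), ?_, ?_, ?_, ?_, ?_, ?_, ?_⟩
  · simp only [lt_min_iff]
    exact ⟨one_pos, h1, h2, h3, h4, h5⟩
  · simp
  · simp
  · simp
  · simp
  · simp
  · simp

lemma exists_s {γ p π : ℝ} (hγ : 1 < γ) (hπ : 0 < π) (hp : π < p) :
    ∃ s, 0 < s ∧ s < 1 ∧ pf γ p s = π := by
  have hp0 : 0 < p := hπ.trans hp
  have h1 : 0 < 2 - al γ := by
    rw [al_eq hγ]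
    have := al_pos hγ
    positivity
  refine ⟨(π / p) ^ (1 / (2 - al γ)), Real.rpow_pos_of_pos (by positivity) _, ?_, ?_⟩
  · apply Real.rpow_lt_one (by positivity)
    · rw [div_lt_one hp0]; exact hp
    · positivity
  · unfold pf
    rw [← Real.rpow_mul (by positivity), one_div, inv_mul_cancel₀ h1.ne', Real.rpow_one]
    field_simp

theorem exists_NP {γ : ℝ} (hγ : 1 < γ) (B : Bds) {rL uL pL rR uR pR : ℝ} (hL : B.In rL uL pL)
    (hR : B.In rR uR pR)
    (hcrit : 2 / (γ - 1) * (Real.sqrt (γ * pL / rL) + Real.sqrt (γ * pR / rR)) ≤ uR - uL) :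
    Nonempty (NP γ B rL uL pL rR uR pR) := by
  have hγ' : 0 < γ - 1 := by linarith
  have hγ0 : 0 < γ := by linarith
  have hrL := hL.r_pos
  have hpL := hL.p_pos
  have hrR := hR.r_pos
  have hpR := hR.p_pos
  have hpa := B.pa_pos
  obtain ⟨π, hπdef⟩ : ∃ π, π = B.pa / 2 := ⟨_, rfl⟩
  have hπ : 0 < π := by rw [hπdef]; positivity
  obtain ⟨sL, hsL, hsL1, hsLe⟩ := exists_s hγ hπ (show π < pL by
    have := hL.2.2.1; rw [hπdef]; linarith)
  obtain ⟨sR, hsR, hsR1, hsRe⟩ := exists_s hγ hπ (show π < pR by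
    have := hR.2.2.1; rw [hπdef]; linarith)
  obtain ⟨CL, hCLdef⟩ : ∃ C, C = Real.sqrt (γ * pL * rL) := ⟨_, rfl⟩
  obtain ⟨CR, hCRdef⟩ : ∃ C, C = Real.sqrt (γ * pR * rR) := ⟨_, rfl⟩
  have hCL : 0 < CL := by rw [hCLdef]; exact Real.sqrt_pos.2 (by positivity)
  have hCR : 0 < CR := by rw [hCRdef]; exact Real.sqrt_pos.2 (by positivity)
  have hCL2 : CL ^ 2 = γ * pL * rL := by rw [hCLdef]; exact Real.sq_sqrt (by positivity)
  have hCR2 : CR ^ 2 = γ * pR * rR := by rw [hCRdef]; exact Real.sq_sqrt (by positivity)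
  have hcL : Real.sqrt (γ * pL / rL) = CL / rL := by
    rw [hCLdef, Real.sqrt_eq_iff_mul_self_eq (by positivity) (by positivity)]
    have := Real.mul_self_sqrt (show 0 ≤ γ * pL * rL by positivity)
    field_simp
    nlinarith
  have hcR : Real.sqrt (γ * pR / rR) = CR / rR := by
    rw [hCRdef, Real.sqrt_eq_iff_mul_self_eq (by positivity) (by positivity)]
    have := Real.mul_self_sqrt (show 0 ≤ γ * pR * rR by positivity)
    field_simp
    nlinarith
  obtain ⟨J, hJdef⟩ : ∃ J, J = uR - uL - (uf γ rL CL 1 - uf γ rL CL sL)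
    - (uf γ rR CR 1 - uf γ rR CR sR) := ⟨_, rfl⟩
  have hJ : 0 < J := by
    have e1 : uf γ rL CL 1 = 2 / (γ - 1) * (CL / rL) := by simp [uf]
    have e2 : uf γ rR CR 1 = 2 / (γ - 1) * (CR / rR) := by simp [uf]
    have e3 : 0 < uf γ rL CL sL := by
      unfold uf
      exact mul_pos (by positivity) (Real.rpow_pos_of_pos hsL _)
    have e4 : 0 < uf γ rR CR sR := by
      unfold uf
      exact mul_pos (by positivity) (Real.rpow_pos_of_pos hsR _)
    rw [hcL, hcR] at hcrit
    rw [hJdef, e1, e2]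
    nlinarith
  obtain ⟨D, hDdef⟩ : ∃ D, D = hf γ rR pR sR - hf γ rL pL sL := ⟨_, rfl⟩
  obtain ⟨tm, htm⟩ : ∃ tm, tm = min (hf γ rL pL sL) (hf γ rR pR sR) := ⟨_, rfl⟩
  have htm0 : 0 < tm := by
    rw [htm]
    exact lt_min (hf_pos hγ hrL hpL hsL) (hf_pos hγ hrR hpR hsR)
  obtain ⟨d, hddef⟩ : ∃ d, d = min (π / 4) (tm / 2) := ⟨_, rfl⟩
  have hd : 0 < d := by rw [hddef]; exact lt_min (by positivity) (by positivity)
  have hd1 : d ≤ π / 4 := by rw [hddef]; exact min_le_left _ _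
  have hd2 : d ≤ tm / 2 := by rw [hddef]; exact min_le_right _ _
  obtain ⟨t2, ht2def⟩ : ∃ t2, t2 = en γ rL pL + en γ rR pR + d := ⟨_, rfl⟩
  obtain ⟨p2, hp2def⟩ : ∃ p2, p2 = pL + pR + d := ⟨_, rfl⟩
  have henL : 0 < en γ rL pL := by unfold en; positivity
  have henR : 0 < en γ rR pR := by unfold en; positivity
  have ht2 : 0 < t2 := by rw [ht2def]; positivity
  obtain ⟨C, hC0, hC⟩ := exists_bd hγ B
  obtain ⟨CS, hCS0, hCS⟩ := exists_Sb_bound (γ := γ) (p1 := π / 4) (p2 := p2) (t1 := tm / 2)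
    (t2 := t2) (by positivity) (by positivity)
  obtain ⟨M, hM⟩ : ∃ M, M = |D| / 2 * (C + CS) + 1 := ⟨_, rfl⟩
  have hM0 : 0 < M := by rw [hM]; positivity
  obtain ⟨θ, hθ, hθ1, hθL, hθR, hθ3, hθ4, hθ5⟩ := exists_small
    (c1 := CL * sL) (c2 := CR * sR) (c3 := 2 * π / J) (c4 := π / 2 / ((γ - 1) * t2 / (π / 4)))
    (c5 := J * π / (4 * M)) (by positivity) (by positivity) (by positivity) (by positivity)
    (by positivity)
  let F : FP γ :=
    { rL := rL, pL := pL, rR := rR, pR := pR, CL := CL, CR := CR, sL := sL, sR := sR, θ := θ,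
      J := J, D := D, hγ := hγ, hrL := hrL, hpL := hpL, hrR := hrR, hpR := hpR, hCL := hCL,
      hCR := hCR, hCL2 := hCL2, hCR2 := hCR2, hsL := hsL, hsL1 := hsL1, hsR := hsR,
      hsR1 := hsR1, hθ := hθ, hθL := hθL, hθR := hθR, hD := hDdef,
      hpi := hsLe.trans hsRe.symm, hJ := hJ.le }
  have hθCL : θ ≤ CL := by
    have h2 : CL * sL ≤ CL * 1 := mul_le_mul_of_nonneg_left hsL1.le hCL.le
    linarith
  obtain ⟨A, hA⟩ : ∃ A, A = max CL CR := ⟨_, rfl⟩
  have hACL : CL ≤ A := by rw [hA]; exact le_max_left _ _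
  have hACR : CR ≤ A := by rw [hA]; exact le_max_right _ _
  have ePf : prim A pL (fun s => s * F.w s) = F.P :=
    funext fun x => F.prim_sw hACL (hθCL.trans hACL) x
  have eHf : prim A (en γ rL pL) F.v = F.H :=
    funext fun x => F.prim_v hACL (hθCL.trans hACL) x
  have eUf : prim A uL F.w = F.U uL :=
    funext fun x => F.prim_w hACL (hθCL.trans hACL) uL x
  obtain ⟨m, hm⟩ : ∃ m, m = J / (2 * θ) * B.pa - |D| / 2 * C := ⟨_, rfl⟩
  obtain ⟨W1, hW10, hW1⟩ := F.bound_w
  obtain ⟨W2, hW20, hW2⟩ := F.bound_v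
  obtain ⟨Cl, hCl0, hCl⟩ := F.bound_lam m
  have hPb : ∀ η, π / 4 + d ≤ F.P η ∧ F.P η ≤ p2 - d := by
    intro η
    have h1 : pf γ pL sL - J * θ / 4 ≤ F.P η := F.P_ge η
    have h2 : F.P η ≤ pL + pR := F.P_le η
    have h3 : J * θ ≤ 2 * π := by
      have := (le_div_iff₀ hJ).1 hθ3
      linarith
    rw [hsLe] at h1
    constructor
    · linarith
    · rw [hp2def]; linarith
  have hHb : ∀ η, tm / 2 + d ≤ F.H η ∧ F.H η ≤ t2 - d := by
    intro η
    have h1 : min (hf γ rL pL sL) (hf γ rR pR sR) ≤ F.H η := F.H_ge η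
    have h2 : F.H η ≤ en γ rL pL + en γ rR pR := F.H_le η
    rw [← htm] at h1
    constructor
    · linarith
    · rw [ht2def]; linarith
  have hdefect : ∀ η, defect γ F.w F.v F.P F.H (F.lam m) η ≤ 0 ∧
      (|η| < θ → defect γ F.w F.v F.P F.H (F.lam m) η ≤ -1) := by
    intro η
    rcases F.cases m η with ⟨s, hs, c1, c2, c3, c4, c5, c6, c7⟩ | ⟨c1, c2, c3, c4, c5⟩ |
      ⟨s, hs, c1, c2, c3, c4, c5, c6, c7⟩ | ⟨c1, c2, c3, c4⟩
    · have e := fan_defect hγ hrL hpL hCL hCL2 hs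
      have : defect γ F.w F.v F.P F.H (F.lam m) η = 0 := by
        unfold defect
        rw [c2, c3, c4, c5, c6, c1, ← e]
        show wf γ rL s * (pf γ pL s + (-(CL * s)) ^ 2 * ((γ - 1) * hf γ rL pL s / pf γ pL s))
          - -(CL * s) * -vf γ rL pL CL s * Sb γ (pf γ pL s) (hf γ rL pL s)
          - wf γ rL s * pf γ pL s * (1 + γ - sp γ rL pL) = _
        ring
      exact ⟨this.le, fun h => absurd h c7⟩
    · have hd1 : defect γ F.w F.v F.P F.H (F.lam m) η ≤ -1 := by
        unfold defect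
        rw [c2, c3, c4]
        show J / (2 * θ) * (F.P η + η ^ 2 * ((γ - 1) * F.H η / F.P η))
          - η * (D / (2 * θ)) * Sb γ (F.P η) (F.H η) - m ≤ -1
        have g1 := hPb η
        have g2 := hHb η
        have hP0 : 0 < F.P η := by linarith [g1.1]
        have hH0 : 0 < F.H η := by linarith [g2.1]
        have c5' : F.P η ≤ π := by
          have : F.P η ≤ pf γ pL sL := c5
          rwa [hsLe] at this
        have c1' : |η| < θ := c1
        have k1 : η ^ 2 * ((γ - 1) * F.H η / F.P η) ≤ π / 2 := by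
          have k2 : (γ - 1) * F.H η / F.P η ≤ (γ - 1) * t2 / (π / 4) := by
            have : F.H η ≤ t2 := by linarith [g2.2]
            have : π / 4 ≤ F.P η := by linarith [g1.1]
            gcongr
          have k3 : η ^ 2 ≤ θ := by
            have h1 : η ^ 2 ≤ θ ^ 2 := by
              rw [← sq_abs]
              exact pow_le_pow_left₀ (abs_nonneg _) c1'.le 2
            nlinarith
          have k4 : 0 ≤ (γ - 1) * F.H η / F.P η := by positivity
          have k5 : θ * ((γ - 1) * t2 / (π / 4)) ≤ π / 2 :=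
            (le_div_iff₀ (by positivity)).1 hθ4
          calc η ^ 2 * ((γ - 1) * F.H η / F.P η) ≤ θ * ((γ - 1) * t2 / (π / 4)) := by gcongr
            _ ≤ _ := k5
        have k6 : |η * (D / (2 * θ)) * Sb γ (F.P η) (F.H η)| ≤ |D| / 2 * CS := by
          rw [abs_mul]
          refine mul_le_mul ?_ (hCS _ _ (by linarith [g1.1]) (by linarith [g1.2])
            (by linarith [g2.1]) (by linarith [g2.2])) (abs_nonneg _) (by positivity)
          rw [abs_mul, abs_div, abs_of_pos (show (0 : ℝ) < 2 * θ by positivity)]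
          calc |η| * (|D| / (2 * θ)) ≤ θ * (|D| / (2 * θ)) := by gcongr
            _ = |D| / 2 := by field_simp
        have k7 := (abs_le.1 k6).1
        have k8 : M ≤ J / (2 * θ) * (π / 2) := by
          have := (le_div_iff₀ (by positivity)).1 hθ5
          have e : J / (2 * θ) * (π / 2) = J * π / (4 * θ) := by field_simp; ring
          rw [e, le_div_iff₀ (by positivity)]
          linarith
        have k9 : J / (2 * θ) * (F.P η + η ^ 2 * ((γ - 1) * F.H η / F.P η))
            ≤ J / (2 * θ) * (π + π / 2) := by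
          have : 0 ≤ J / (2 * θ) := by positivity
          gcongr
        rw [hm]
        have hpaπ : B.pa = 2 * π := by rw [hπdef]; ring
        rw [hpaπ]
        rw [hM] at k8
        linarith
      exact ⟨by linarith, fun _ => hd1⟩
    · have e := fan_defect hγ hrR hpR hCR hCR2 hs
      have : defect γ F.w F.v F.P F.H (F.lam m) η = 0 := by
        unfold defect
        rw [c2, c3, c4, c5, c6, c1, ← e]
      exact ⟨this.le, fun h => absurd h c7⟩
    · have : defect γ F.w F.v F.P F.H (F.lam m) η = 0 := by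
        unfold defect
        rw [c1, c2, c3]
        ring
      exact ⟨this.le, fun h => absurd h c4⟩
  refine ⟨
    { w := F.w
      v := F.v
      lam := F.lam m
      W := W1 + W2
      A := A
      R := A
      cu := uL
      cp := pL
      ct := en γ rL pL
      p1 := π / 4
      p2 := p2
      t1 := tm / 2
      t2 := t2
      d := d
      Cl := Cl
      θ := θ
      mw := F.measurable_w
      mv := F.measurable_v
      ml := F.measurable_lam m
      hA := lt_of_lt_of_le hCL hACL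
      hwW := fun x => (hW1 x).trans (by linarith)
      hvW := fun x => (hW2 x).trans (by linarith)
      hwA := fun x hx => (F.w_supp (by rw [hA] at hx; exact hx)).1
      hvA := fun x hx => (F.w_supp (by rw [hA] at hx; exact hx)).2.1
      hp1 := by positivity
      ht1 := by positivity
      hd := hd
      hP := fun η => by rw [ePf]; exact hPb η
      hH := fun η => by rw [eHf]; exact hHb η
      hlC := hCl
      hlam := ?_
      hleft := ?_
      hright := ?_
      hθ := hθ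
      hθA := hθCL.trans hACL
      def_le := fun η => by rw [ePf, eHf]; exact (hdefect η).1
      def_mid := fun η => by rw [ePf, eHf]; exact (hdefect η).2 }⟩
  · intro η r u p hin
    rcases F.cases m η with ⟨s, hs, c1, c2, c3, c4, c5, c6, c7⟩ | ⟨c1, c2, c3, c4, c5⟩ |
      ⟨s, hs, c1, c2, c3, c4, c5, c6, c7⟩ | ⟨c1, c2, c3, c4⟩
    · have e := fan_lower (r := r) (p := p) hγ hin.r_pos hin.p_pos hrL hpL hCL hCL2 hs
      rw [c2, c3, c4, c1]
      refine e.trans (le_of_eq ?_)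
      show _ = wf γ rL s * (p + (-(CL * s)) ^ 2 * (1 / r))
        - -(CL * s) * -vf γ rL pL CL s * sp γ r p
      ring
    · rw [c2, c3, c4]
      show m ≤ J / (2 * θ) * (p + η ^ 2 * (1 / r)) - η * (D / (2 * θ)) * sp γ r p
      have hr := hin.r_pos
      have k1 : J / (2 * θ) * B.pa ≤ J / (2 * θ) * (p + η ^ 2 * (1 / r)) := by
        have h1 : 0 ≤ J / (2 * θ) := by positivity
        have h2 : 0 ≤ η ^ 2 * (1 / r) := by positivity
        have h3 := hin.2.2.1
        exact mul_le_mul_of_nonneg_left (by linarith) h1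
      have c1' : |η| < θ := c1
      have k6 : |η * (D / (2 * θ)) * sp γ r p| ≤ |D| / 2 * C := by
        rw [abs_mul]
        refine mul_le_mul ?_ (hC r u p hin).2 (abs_nonneg _) (by positivity)
        rw [abs_mul, abs_div, abs_of_pos (show (0 : ℝ) < 2 * θ by positivity)]
        calc |η| * (|D| / (2 * θ)) ≤ θ * (|D| / (2 * θ)) := by gcongr
          _ = |D| / 2 := by field_simp
      have k7 := (abs_le.1 k6).2
      rw [hm]
      linarith
    · have e := fan_lower (r := r) (p := p) hγ hin.r_pos hin.p_pos hrR hpR hCR hCR2 hs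
      rw [c2, c3, c4, c1]
      exact e
    · rw [c1, c2, c3]
      simp
  · intro η hη
    rw [ePf, eHf, eUf]
    exact F.values_left (x := η) (by show η ≤ -CL; linarith) uL
  · intro η hη
    rw [ePf, eHf, eUf]
    have h := F.values_right (x := η) (by show CR ≤ η; linarith) uL
    refine ⟨?_, h.2⟩
    rw [h.1]
    show uL + (uf γ rL CL 1 - uf γ rL CL sL) + J + (uf γ rR CR 1 - uf γ rR CR sR) = uR
    rw [hJdef]
    ring

end

end Pool.Agent.helper23_Euler
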