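import Mathlib
import Pool.Agent.helper23_Euler.Crit

open MeasureTheory Set Filter Topology
open scoped ContDiff Convolution

namespace Pool.Agent.helper23_Euler

noncomputable section

/-- the velocity change across a rarefaction in which the pressure falls from `p` to `π` -/
def drp (γ r p π : ℝ) : ℝ :=
  2 / (γ - 1) * Real.sqrt (γ * p / r) * (1 - (π / p) ^ ((γ - 1) / (2 * γ)))

lemma al_eq3 {γ : ℝ} (hγ : 1 < γ) : 1 / (2 - al γ) * (1 - al γ) = (γ - 1) / (2 * γ) := by
  have : γ ≠ 0 := by linarith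
  have : γ + 1 ≠ 0 := by linarith
  have h2 : 2 - al γ ≠ 0 := by
    rw [al_eq hγ]
    have := al_pos hγ
    positivity
  field_simp
  unfold al
  field_simp
  ring

lemma exists_s2 {γ p π : ℝ} (hγ : 1 < γ) (hπ : 0 < π) (hp : π < p) :
    ∃ s, 0 < s ∧ s < 1 ∧ pf γ p s = π ∧ s ^ (1 - al γ) = (π / p) ^ ((γ - 1) / (2 * γ)) := by
  have hp0 : 0 < p := hπ.trans hp
  have h1 : 0 < 2 - al γ := by
    rw [al_eq hγ]
    have := al_pos hγ
    positivity
  refine ⟨(π / p) ^ (1 / (2 - al γ)), Real.rpow_pos_of_pos (by positivity) _, ?_, ?_, ?_⟩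
  · apply Real.rpow_lt_one (by positivity)
    · rw [div_lt_one hp0]; exact hp
    · positivity
  · unfold pf
    rw [← Real.rpow_mul (by positivity), one_div, inv_mul_cancel₀ h1.ne', Real.rpow_one]
    field_simp
  · rw [← Real.rpow_mul (by positivity), al_eq3 hγ]

/-- comparison profiles for a jump whose fans reach below the pressures of the box -/
theorem exists_NP2 {γ : ℝ} (hγ : 1 < γ) (B : Bds) {rL uL pL rR uR pR π : ℝ} (hL : B.In rL uL pL)
    (hR : B.In rR uR pR) (hπ : 0 < π) (hπB : π < B.pa)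
    (hcrit : drp γ rL pL π + drp γ rR pR π < uR - uL) :
    Nonempty (NP γ B rL uL pL rR uR pR) := by
  have hγ' : 0 < γ - 1 := by linarith
  have hγ0 : 0 < γ := by linarith
  have hrL := hL.r_pos
  have hpL := hL.p_pos
  have hrR := hR.r_pos
  have hpR := hR.p_pos
  have hpa := B.pa_pos
  obtain ⟨gp, hgp⟩ : ∃ gp, gp = B.pa - π := ⟨_, rfl⟩
  have hgp0 : 0 < gp := by rw [hgp]; linarith
  obtain ⟨sL, hsL, hsL1, hsLe, hsLu⟩ := exists_s2 hγ hπ (show π < pL by
    have := hL.2.2.1; linarith)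
  obtain ⟨sR, hsR, hsR1, hsRe, hsRu⟩ := exists_s2 hγ hπ (show π < pR by
    have := hR.2.2.1; linarith)
  obtain ⟨CL, hCLdef⟩ : ∃ C, C = Real.sqrt (γ * pL * rL) := ⟨_, rfl⟩
  obtain ⟨CR, hCRdef⟩ : ∃ C, C = Real.sqrt (γ * pR * rR) := ⟨_, rfl⟩
  have hCL : 0 < CL := by rw [hCLdef]; exact Real.sqrt_pos.2 (by positivity)
  have hCR : 0 < CR := by rw [hCRdef]; exact Real.sqrt_pos.2 (by positivity)
  have hCL2 : CL ^ 2 = γ * pL * rL := by rw [hCLdef]; exact Real.sq_sqrt (by positivity)
  have hCR2 : CR ^ 2 = γ * pR * rR := by rw [hCRdef]; exact Real.sq_sqrt (by positivity)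
  have hcL : Real.sqrt (γ * pL / rL) = CL / rL := by
    rw [hCLdef, Real.sqrt_eq_iff_mul_self_eq (by positivity) (by positivity)]
    have := Real.mul_self_sqrt (show 0 ≤ γ * pL * rL by positivity)
    field_simp
    nlinarith
  have hcR : Real.sqrt (γ * pR / rR) = CR / rR := by
    rw [hCRdef, Real.sqrt_eq_iff_mul_self_eq (by positivity) (by positivity)]
    have := Real.mul_self_sqrt (show 0 ≤ γ * pR * rR by positivity)
    field_simp
    nlinarith
  obtain ⟨J, hJdef⟩ : ∃ J, J = uR - uL - (uf γ rL CL 1 - uf γ rL CL sL)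
    - (uf γ rR CR 1 - uf γ rR CR sR) := ⟨_, rfl⟩
  have hJ : 0 < J := by
    have e1 : uf γ rL CL 1 = 2 / (γ - 1) * (CL / rL) := by simp [uf]
    have e2 : uf γ rR CR 1 = 2 / (γ - 1) * (CR / rR) := by simp [uf]
    have e3 : uf γ rL CL sL = 2 / (γ - 1) * (CL / rL) * (π / pL) ^ ((γ - 1) / (2 * γ)) := by
      unfold uf
      rw [hsLu]
    have e4 : uf γ rR CR sR = 2 / (γ - 1) * (CR / rR) * (π / pR) ^ ((γ - 1) / (2 * γ)) := by
      unfold uf
      rw [hsRu]
    unfold drp at hcrit
    rw [hcL, hcR] at hcrit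
    rw [hJdef, e1, e2, e3, e4]
    linarith
  obtain ⟨D, hDdef⟩ : ∃ D, D = hf γ rR pR sR - hf γ rL pL sL := ⟨_, rfl⟩
  obtain ⟨tm, htm⟩ : ∃ tm, tm = min (hf γ rL pL sL) (hf γ rR pR sR) := ⟨_, rfl⟩
  have htm0 : 0 < tm := by
    rw [htm]
    exact lt_min (hf_pos hγ hrL hpL hsL) (hf_pos hγ hrR hpR hsR)
  obtain ⟨d, hddef⟩ : ∃ d, d = min (π / 4) (tm / 2) := ⟨_, rfl⟩
  have hd : 0 < d := by rw [hddef]; exact lt_min (by positivity) (by positivity)
  have hd1 : d ≤ π / 4 := by rw [hddef]; exact min_le_left _ _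
  have hd2 : d ≤ tm / 2 := by rw [hddef]; exact min_le_right _ _
  obtain ⟨t2, ht2def⟩ : ∃ t2, t2 = en γ rL pL + en γ rR pR + d := ⟨_, rfl⟩
  obtain ⟨p2, hp2def⟩ : ∃ p2, p2 = pL + pR + d := ⟨_, rfl⟩
  have henL : 0 < en γ rL pL := by unfold en; positivity
  have henR : 0 < en γ rR pR := by unfold en; positivity
  have ht2 : 0 < t2 := by rw [ht2def]; positivity
  obtain ⟨C, hC0, hC⟩ := exists_bd hγ B
  obtain ⟨CS, hCS0, hCS⟩ := exists_Sb_bound (γ := γ) (p1 := π / 4) (p2 := p2) (t1 := tm / 2)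
    (t2 := t2) (by positivity) (by positivity)
  obtain ⟨M, hM⟩ : ∃ M, M = |D| / 2 * (C + CS) + 1 := ⟨_, rfl⟩
  have hM0 : 0 < M := by rw [hM]; positivity
  obtain ⟨θ, hθ, hθ1, hθL, hθR, hθ3, hθ4, hθ5⟩ := exists_small
    (c1 := CL * sL) (c2 := CR * sR) (c3 := 2 * π / J) (c4 := gp / 2 / ((γ - 1) * t2 / (π / 4)))
    (c5 := J * gp / (4 * M)) (by positivity) (by positivity) (by positivity) (by positivity)
    (by positivity)
  let F : FP γ :=
    { rL := rL, pL := pL, rR := rR, pR := pR, CL := CL, CR := CR, sL := sL, sR := sR, θ := θ,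
      J := J, D := D, hγ := hγ, hrL := hrL, hpL := hpL, hrR := hrR, hpR := hpR, hCL := hCL,
      hCR := hCR, hCL2 := hCL2, hCR2 := hCR2, hsL := hsL, hsL1 := hsL1, hsR := hsR,
      hsR1 := hsR1, hθ := hθ, hθL := hθL, hθR := hθR, hD := hDdef,
      hpi := hsLe.trans hsRe.symm, hJ := hJ.le }
  have hθCL : θ ≤ CL := by
    have h2 : CL * sL ≤ CL * 1 := mul_le_mul_of_nonneg_left hsL1.le hCL.le
    linarith
  obtain ⟨A, hA⟩ : ∃ A, A = max CL CR := ⟨_, rfl⟩
  have hACL : CL ≤ A := by rw [hA]; exact le_max_left _ _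
  have hACR : CR ≤ A := by rw [hA]; exact le_max_right _ _
  have ePf : prim A pL (fun s => s * F.w s) = F.P :=
    funext fun x => F.prim_sw hACL (hθCL.trans hACL) x
  have eHf : prim A (en γ rL pL) F.v = F.H :=
    funext fun x => F.prim_v hACL (hθCL.trans hACL) x
  have eUf : prim A uL F.w = F.U uL :=
    funext fun x => F.prim_w hACL (hθCL.trans hACL) uL x
  obtain ⟨m, hm⟩ : ∃ m, m = J / (2 * θ) * B.pa - |D| / 2 * C := ⟨_, rfl⟩
  obtain ⟨W1, hW10, hW1⟩ := F.bound_w
  obtain ⟨W2, hW20, hW2⟩ := F.bound_v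
  obtain ⟨Cl, hCl0, hCl⟩ := F.bound_lam m
  have hPb : ∀ η, π / 4 + d ≤ F.P η ∧ F.P η ≤ p2 - d := by
    intro η
    have h1 : pf γ pL sL - J * θ / 4 ≤ F.P η := F.P_ge η
    have h2 : F.P η ≤ pL + pR := F.P_le η
    have h3 : J * θ ≤ 2 * π := by
      have := (le_div_iff₀ hJ).1 hθ3
      linarith
    rw [hsLe] at h1
    constructor
    · linarith
    · rw [hp2def]; linarith
  have hHb : ∀ η, tm / 2 + d ≤ F.H η ∧ F.H η ≤ t2 - d := by
    intro η
    have h1 : min (hf γ rL pL sL) (hf γ rR pR sR) ≤ F.H η := F.H_ge η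
    have h2 : F.H η ≤ en γ rL pL + en γ rR pR := F.H_le η
    rw [← htm] at h1
    constructor
    · linarith
    · rw [ht2def]; linarith
  have hdefect : ∀ η, defect γ F.w F.v F.P F.H (F.lam m) η ≤ 0 ∧
      (|η| < θ → defect γ F.w F.v F.P F.H (F.lam m) η ≤ -1) := by
    intro η
    rcases F.cases m η with ⟨s, hs, c1, c2, c3, c4, c5, c6, c7⟩ | ⟨c1, c2, c3, c4, c5⟩ |
      ⟨s, hs, c1, c2, c3, c4, c5, c6, c7⟩ | ⟨c1, c2, c3, c4⟩
    · have e := fan_defect hγ hrL hpL hCL hCL2 hs
      have : defect γ F.w F.v F.P F.H (F.lam m) η = 0 := by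
        unfold defect
        rw [c2, c3, c4, c5, c6, c1, ← e]
        show wf γ rL s * (pf γ pL s + (-(CL * s)) ^ 2 * ((γ - 1) * hf γ rL pL s / pf γ pL s))
          - -(CL * s) * -vf γ rL pL CL s * Sb γ (pf γ pL s) (hf γ rL pL s)
          - wf γ rL s * pf γ pL s * (1 + γ - sp γ rL pL) = _
        ring
      exact ⟨this.le, fun h => absurd h c7⟩
    · have hd1 : defect γ F.w F.v F.P F.H (F.lam m) η ≤ -1 := by
        unfold defect
        rw [c2, c3, c4]
        show J / (2 * θ) * (F.P η + η ^ 2 * ((γ - 1) * F.H η / F.P η))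
          - η * (D / (2 * θ)) * Sb γ (F.P η) (F.H η) - m ≤ -1
        have g1 := hPb η
        have g2 := hHb η
        have hP0 : 0 < F.P η := by linarith [g1.1]
        have hH0 : 0 < F.H η := by linarith [g2.1]
        have c5' : F.P η ≤ π := by
          have : F.P η ≤ pf γ pL sL := c5
          rwa [hsLe] at this
        have c1' : |η| < θ := c1
        have k1 : η ^ 2 * ((γ - 1) * F.H η / F.P η) ≤ gp / 2 := by
          have k2 : (γ - 1) * F.H η / F.P η ≤ (γ - 1) * t2 / (π / 4) := by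
            have : F.H η ≤ t2 := by linarith [g2.2]
            have : π / 4 ≤ F.P η := by linarith [g1.1]
            gcongr
          have k3 : η ^ 2 ≤ θ := by
            have h1 : η ^ 2 ≤ θ ^ 2 := by
              rw [← sq_abs]
              exact pow_le_pow_left₀ (abs_nonneg _) c1'.le 2
            nlinarith
          have k4 : 0 ≤ (γ - 1) * F.H η / F.P η := by positivity
          have k5 : θ * ((γ - 1) * t2 / (π / 4)) ≤ gp / 2 :=
            (le_div_iff₀ (by positivity)).1 hθ4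
          calc η ^ 2 * ((γ - 1) * F.H η / F.P η) ≤ θ * ((γ - 1) * t2 / (π / 4)) := by gcongr
            _ ≤ _ := k5
        have k6 : |η * (D / (2 * θ)) * Sb γ (F.P η) (F.H η)| ≤ |D| / 2 * CS := by
          rw [abs_mul]
          refine mul_le_mul ?_ (hCS _ _ (by linarith [g1.1]) (by linarith [g1.2])
            (by linarith [g2.1]) (by linarith [g2.2])) (abs_nonneg _) (by positivity)
          rw [abs_mul, abs_div, abs_of_pos (show (0 : ℝ) < 2 * θ by positivity)]
          calc |η| * (|D| / (2 * θ)) ≤ θ * (|D| / (2 * θ)) := by gcongr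
            _ = |D| / 2 := by field_simp
        have k7 := (abs_le.1 k6).1
        have k8 : M ≤ J / (2 * θ) * (gp / 2) := by
          have := (le_div_iff₀ (by positivity)).1 hθ5
          have e : J / (2 * θ) * (gp / 2) = J * gp / (4 * θ) := by field_simp; ring
          rw [e, le_div_iff₀ (by positivity)]
          linarith
        have k9 : J / (2 * θ) * (F.P η + η ^ 2 * ((γ - 1) * F.H η / F.P η))
            ≤ J / (2 * θ) * (π + gp / 2) := by
          have : 0 ≤ J / (2 * θ) := by positivity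
          gcongr
        rw [hm]
        have hpaπ : B.pa = π + gp := by rw [hgp]; ring
        rw [hpaπ]
        rw [hM] at k8
        linarith
      exact ⟨by linarith, fun _ => hd1⟩
    · have e := fan_defect hγ hrR hpR hCR hCR2 hs
      have : defect γ F.w F.v F.P F.H (F.lam m) η = 0 := by
        unfold defect
        rw [c2, c3, c4, c5, c6, c1, ← e]
      exact ⟨this.le, fun h => absurd h c7⟩
    · have : defect γ F.w F.v F.P F.H (F.lam m) η = 0 := by
        unfold defect
        rw [c1, c2, c3]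
        ring
      exact ⟨this.le, fun h => absurd h c4⟩
  refine ⟨
    { w := F.w
      v := F.v
      lam := F.lam m
      W := W1 + W2
      A := A
      R := A
      cu := uL
      cp := pL
      ct := en γ rL pL
      p1 := π / 4
      p2 := p2
      t1 := tm / 2
      t2 := t2
      d := d
      Cl := Cl
      θ := θ
      mw := F.measurable_w
      mv := F.measurable_v
      ml := F.measurable_lam m
      hA := lt_of_lt_of_le hCL hACL
      hwW := fun x => (hW1 x).trans (by linarith)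
      hvW := fun x => (hW2 x).trans (by linarith)
      hwA := fun x hx => (F.w_supp (by rw [hA] at hx; exact hx)).1
      hvA := fun x hx => (F.w_supp (by rw [hA] at hx; exact hx)).2.1
      hp1 := by positivity
      ht1 := by positivity
      hd := hd
      hP := fun η => by rw [ePf]; exact hPb η
      hH := fun η => by rw [eHf]; exact hHb η
      hlC := hCl
      hlam := ?_
      hleft := ?_
      hright := ?_
      hθ := hθ
      hθA := hθCL.trans hACL
      def_le := fun η => by rw [ePf, eHf]; exact (hdefect η).1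
      def_mid := fun η => by rw [ePf, eHf]; exact (hdefect η).2 }⟩
  · intro η r u p hin
    rcases F.cases m η with ⟨s, hs, c1, c2, c3, c4, c5, c6, c7⟩ | ⟨c1, c2, c3, c4, c5⟩ |
      ⟨s, hs, c1, c2, c3, c4, c5, c6, c7⟩ | ⟨c1, c2, c3, c4⟩
    · have e := fan_lower (r := r) (p := p) hγ hin.r_pos hin.p_pos hrL hpL hCL hCL2 hs
      rw [c2, c3, c4, c1]
      refine e.trans (le_of_eq ?_)
      show _ = wf γ rL s * (p + (-(CL * s)) ^ 2 * (1 / r))
        - -(CL * s) * -vf γ rL pL CL s * sp γ r p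
      ring
    · rw [c2, c3, c4]
      show m ≤ J / (2 * θ) * (p + η ^ 2 * (1 / r)) - η * (D / (2 * θ)) * sp γ r p
      have hr := hin.r_pos
      have k1 : J / (2 * θ) * B.pa ≤ J / (2 * θ) * (p + η ^ 2 * (1 / r)) := by
        have h1 : 0 ≤ J / (2 * θ) := by positivity
        have h2 : 0 ≤ η ^ 2 * (1 / r) := by positivity
        have h3 := hin.2.2.1
        exact mul_le_mul_of_nonneg_left (by linarith) h1
      have c1' : |η| < θ := c1
      have k6 : |η * (D / (2 * θ)) * sp γ r p| ≤ |D| / 2 * C := by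
        rw [abs_mul]
        refine mul_le_mul ?_ (hC r u p hin).2 (abs_nonneg _) (by positivity)
        rw [abs_mul, abs_div, abs_of_pos (show (0 : ℝ) < 2 * θ by positivity)]
        calc |η| * (|D| / (2 * θ)) ≤ θ * (|D| / (2 * θ)) := by gcongr
          _ = |D| / 2 := by field_simp
      have k7 := (abs_le.1 k6).2
      rw [hm]
      linarith
    · have e := fan_lower (r := r) (p := p) hγ hin.r_pos hin.p_pos hrR hpR hCR hCR2 hs
      rw [c2, c3, c4, c1]
      exact e
    · rw [c1, c2, c3]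
      simp
  · intro η hη
    rw [ePf, eHf, eUf]
    exact F.values_left (x := η) (by show η ≤ -CL; linarith) uL
  · intro η hη
    rw [ePf, eHf, eUf]
    have h := F.values_right (x := η) (by show CR ≤ η; linarith) uL
    refine ⟨?_, h.2⟩
    rw [h.1]
    show uL + (uf γ rL CL 1 - uf γ rL CL sL) + J + (uf γ rR CR 1 - uf γ rR CR sR) = uR
    rw [hJdef]
    ring

end

end Pool.Agent.helper23_Euler
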