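import Mathlib
import Pool.Agent.helper23_Euler.Basic

open MeasureTheory Set Filter Topology
open scoped ContDiff ENNReal NNReal

namespace Pool.Agent.helper23_Euler

noncomputable section

/-- conserved states `(ρ, ρu, ρE)` -/
abbrev St : Type := ℝ × ℝ × ℝ

/-- density `ρ` -/
def dens (U : St) : ℝ := U.1

/-- momentum `ρu` -/
def mom (U : St) : ℝ := U.2.1

/-- total energy density `ρE` -/
def ener (U : St) : ℝ := U.2.2

/-- velocity `u` -/
def vel (U : St) : ℝ := mom U / dens U

/-- specific internal energy `e = E - u²/2` -/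
def eint (U : St) : ℝ := ener U / dens U - vel U ^ 2 / 2

/-- pressure `p = (γ-1)ρe` -/
def pres (γ : ℝ) (U : St) : ℝ := (γ - 1) * dens U * eint U

/-- the physical region `ρ > 0`, `e > 0` -/
def Om : Set St := {U | 0 < dens U ∧ 0 < eint U}

/-- specific entropy `S = c_v log (p ρ^{-γ})` -/
def ent (cv γ : ℝ) (U : St) : ℝ := cv * Real.log (pres γ U * dens U ^ (-γ))

/-- sound speed `c = √(γp/ρ)` -/
def sound (γ : ℝ) (U : St) : ℝ := Real.sqrt (γ * pres γ U / dens U)

/-- the strip `0 < t < T` -/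
def strip (T : ℝ) : Set (ℝ × ℝ) := {z | 0 < z.2 ∧ z.2 < T}

/-- `U` is an entropy weak solution of the Euler equations on `ℝ × [0,T)` with datum `U0`:
bounded and measurable, the three balance laws hold in the sense of distributions with the datum
attained, and `(ρS)_t + (ρuS)_x ≥ 0` in the sense of distributions for `0 < t < T` -/
structure EntropySol (γ cv T : ℝ) (U : ℝ × ℝ → St) (U0 : ℝ → St) : Prop where
  meas : AEMeasurable U (volume.restrict (strip T))
  bdd : ∃ C : ℝ, ∀ᵐ z ∂(volume.restrict (strip T)), ‖U z‖ ≤ C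
  mass : WeakEq T (fun z => dens (U z)) (fun z => mom (U z)) (fun x => dens (U0 x))
  momentum : WeakEq T (fun z => mom (U z)) (fun z => mom (U z) * vel (U z) + pres γ (U z))
    (fun x => mom (U0 x))
  energy : WeakEq T (fun z => ener (U z)) (fun z => (ener (U z) + pres γ (U z)) * vel (U z))
    (fun x => ener (U0 x))
  entropy : ∀ φ, IsTest T φ → (∀ z, 0 ≤ φ z) → tsupport φ ⊆ up →
    ∫ z in up, (dens (U z) * ent cv γ (U z) * dt φ z
      + mom (U z) * ent cv γ (U z) * dx φ z) ≤ 0

/-- the entropy inequality with the datum, up to the initial time -/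
def EntInit (γ cv T : ℝ) (U : ℝ × ℝ → St) (U0 : ℝ → St) : Prop :=
  ∀ φ, IsTest T φ → (∀ z, 0 ≤ φ z) →
    (∫ z in up, (dens (U z) * ent cv γ (U z) * dt φ z
      + mom (U z) * ent cv γ (U z) * dx φ z))
      + ∫ x, dens (U0 x) * ent cv γ (U0 x) * φ (x, 0) ≤ 0

/-- BV data: finite total variation and values in a compact subset of the physical region -/
def BVDatum (U0 : ℝ → St) : Prop :=
  BoundedVariationOn U0 univ ∧ ∃ K, IsCompact K ∧ K ⊆ Om ∧ ∀ x, U0 x ∈ K

/-- the values on `0 < t < T` lie in a compact subset of the physical region -/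
def CompactValued (T : ℝ) (U : ℝ × ℝ → St) : Prop :=
  ∃ K, IsCompact K ∧ K ⊆ Om ∧ ∀ᵐ z ∂(volume.restrict (strip T)), U z ∈ K

/-- `U(·,t)` has uniformly bounded total variation for a.e. `t` in `(0,T)` (up to a null set of
points `x`) -/
def BVBounded (T : ℝ) (U : ℝ × ℝ → St) : Prop :=
  ∃ C : ℝ≥0, ∀ᵐ t ∂(volume.restrict (Ioo 0 T)),
    ∃ V : ℝ → St, (∀ᵐ x : ℝ, U (x, t) = V x) ∧ eVariationOn V univ ≤ C

/-- `U` is a global BV solution with datum `U0` -/
def GlobalBVSol (γ cv : ℝ) (U : ℝ × ℝ → St) (U0 : ℝ → St) : Prop :=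
  ∀ T, 0 < T → EntropySol γ cv T U U0 ∧ BVBounded T U ∧ CompactValued T U

end

end Pool.Agent.helper23_Euler
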