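import Mathlib
import Pool.Agent.helper23_Euler.Crit

open MeasureTheory Set Filter Topology
open scoped ContDiff Convolution

namespace Pool.Agent.helper23_Euler

noncomputable section

/-- a smooth nonincreasing step from `1` (below `a`) to `0` (above `b`) -/
def stp (a b s : ℝ) : ℝ := Real.smoothTransition ((b - s) / (b - a))

lemma stp_smooth (a b : ℝ) : ContDiff ℝ ∞ (stp a b) := by
  unfold stp
  exact Real.smoothTransition.contDiff.comp ((contDiff_const.sub contDiff_id).div_const _)

lemma stp_anti {a b : ℝ} (hab : a < b) : Antitone (stp a b) := by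
  intro s t hst
  unfold stp
  apply Real.smoothTransition.monotone
  have : 0 < b - a := by linarith
  gcongr

lemma stp_one {a b s : ℝ} (hab : a < b) (hs : s ≤ a) : stp a b s = 1 := by
  unfold stp
  apply Real.smoothTransition.one_of_one_le
  rw [one_le_div (by linarith)]
  linarith

lemma stp_zero {a b s : ℝ} (hab : a < b) (hs : b ≤ s) : stp a b s = 0 := by
  unfold stp
  apply Real.smoothTransition.zero_of_nonpos
  exact div_nonpos_of_nonpos_of_nonneg (by linarith) (by linarith)

/-- the phase of the cone -/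
def phs (L : ℝ) (z : ℝ × ℝ) : ℝ := Real.sqrt (1 + z.1 ^ 2) + L * z.2

lemma phs_smooth (L : ℝ) : ContDiff ℝ ∞ (phs L) := by
  unfold phs
  refine ContDiff.add ?_ (contDiff_const.mul contDiff_snd)
  refine ContDiff.sqrt (contDiff_const.add (contDiff_fst.pow 2)) ?_
  intro z
  positivity

/-- cut-off adapted to a backward cone -/
def cone (L a b ν : ℝ) (z : ℝ × ℝ) : ℝ :=
  Real.smoothTransition (1 + 2 * z.2 / ν) * stp a b (phs L z)

section

variable {L a b ν : ℝ}

lemma cone_smooth : ContDiff ℝ ∞ (cone L a b ν) := by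
  unfold cone
  refine ContDiff.mul ?_ ((stp_smooth a b).comp (phs_smooth L))
  exact Real.smoothTransition.contDiff.comp
    (contDiff_const.add ((contDiff_const.mul contDiff_snd).div_const _))

lemma cone_nonneg (z : ℝ × ℝ) : 0 ≤ cone L a b ν z :=
  mul_nonneg (Real.smoothTransition.nonneg _) (Real.smoothTransition.nonneg _)

lemma cone_le_one (z : ℝ × ℝ) : cone L a b ν z ≤ 1 :=
  mul_le_one₀ (Real.smoothTransition.le_one _) (Real.smoothTransition.nonneg _)
    (Real.smoothTransition.le_one _)

lemma cone_supp (hν : 0 < ν) (hab : a < b) :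
    tsupport (cone L a b ν) ⊆ {z | -(ν / 2) ≤ z.2 ∧ phs L z ≤ b} := by
  refine closure_minimal ?_ ?_
  · intro z hz
    by_contra h'
    apply hz
    unfold cone
    rw [Set.mem_ofPred_eq, not_and_or, not_le, not_le] at h'
    rcases h' with h | h
    · rw [Real.smoothTransition.zero_of_nonpos, zero_mul]
      have : 2 * z.2 / ν ≤ -1 := by
        rw [div_le_iff₀ hν]
        linarith
      linarith
    · rw [stp_zero hab h.le, mul_zero]
  · exact (isClosed_le continuous_const continuous_snd).inter
      (isClosed_le (phs_smooth L).continuous continuous_const)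

lemma sqrt_one_ge (y : ℝ) : 1 ≤ Real.sqrt (1 + y ^ 2) := by
  rw [Real.one_le_sqrt]
  nlinarith [sq_nonneg y]

lemma abs_le_sqrt_one (y : ℝ) : |y| ≤ Real.sqrt (1 + y ^ 2) := by
  apply Real.abs_le_sqrt
  linarith

lemma sqrt_one_le (y : ℝ) : Real.sqrt (1 + y ^ 2) ≤ 1 + |y| := by
  rw [Real.sqrt_le_left (by positivity)]
  nlinarith [abs_nonneg y, sq_abs y]

lemma isTest_cone (hν : 0 < ν) (hab : a < b) (hL : 0 < L) {T' : ℝ} (hb : b < 1 + L * T') :
    IsTest T' (cone L a b ν) where
  smooth := cone_smooth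
  cpt := by
    refine HasCompactSupport.of_support_subset_isCompact
      (isCompact_closedBall (0 : ℝ × ℝ) (|b| + L * ν + ν + (|b| + 1) / L)) ?_
    intro z hz
    have h := cone_supp hν hab (subset_tsupport _ hz)
    obtain ⟨h1, h2⟩ := h
    have h3 := sqrt_one_ge z.1
    have h4 := abs_le_sqrt_one z.1
    unfold phs at h2
    have hbb := le_abs_self b
    have hb0 := abs_nonneg b
    rw [mem_closedBall_zero_iff, Prod.norm_def]
    have q1 : L * (-(ν / 2)) ≤ L * z.2 := mul_le_mul_of_nonneg_left h1 hL.le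
    have q3 : 0 < L * ν := mul_pos hL hν
    have q2 : z.2 ≤ (|b| + 1) / L := by
      rw [le_div_iff₀ hL]
      nlinarith
    have q4 : 0 ≤ (|b| + 1) / L := by positivity
    apply max_le
    · rw [Real.norm_eq_abs]
      linarith
    · rw [Real.norm_eq_abs, abs_le]
      constructor <;> linarith
  supp := by
    intro z hz
    obtain ⟨h1, h2⟩ := cone_supp hν hab hz
    have h3 := sqrt_one_ge z.1
    unfold phs at h2
    show z.2 < T'
    by_contra h'
    have h5 : L * T' ≤ L * z.2 := mul_le_mul_of_nonneg_left (not_lt.1 h') hL.le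
    linarith

lemma cone_supp' (hν : 0 < ν) (hab : a < b) : tsupport (cone L a b ν) ⊆ {z | -ν < z.2} := by
  intro z hz
  have := (cone_supp hν hab hz).1
  show -ν < z.2
  linarith

lemma cone_of_nonneg (hν : 0 < ν) {z : ℝ × ℝ} (hz : 0 ≤ z.2) :
    cone L a b ν z = stp a b (phs L z) := by
  unfold cone
  rw [Real.smoothTransition.one_of_one_le, one_mul]
  have : 0 ≤ 2 * z.2 / ν := by positivity
  linarith

lemma cone_one (hν : 0 < ν) (hab : a < b) {z : ℝ × ℝ} (hz : 0 ≤ z.2) (hz2 : phs L z ≤ a) :
    cone L a b ν z = 1 := by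
  rw [cone_of_nonneg hν hz, stp_one hab hz2]

lemma cone_zero (hν : 0 < ν) (hab : a < b) {z : ℝ × ℝ} (hz2 : b ≤ phs L z) :
    cone L a b ν z = 0 := by
  unfold cone
  rw [stp_zero hab hz2, mul_zero]

lemma cone_deriv (hν : 0 < ν) (hab : a < b) {z : ℝ × ℝ} (hz : 0 < z.2) :
    dt (cone L a b ν) z + L * |dx (cone L a b ν) z| ≤ 0 ∨ L < 0 := by
  by_cases hL : L < 0
  · exact Or.inr hL
  left
  have hL' : 0 ≤ L := not_lt.1 hL
  obtain ⟨x, t⟩ := z
  have ht : 0 < t := hz
  set g' := deriv (stp a b) (phs L (x, t)) with hg'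
  have hg : HasDerivAt (stp a b) g' (phs L (x, t)) :=
    ((stp_smooth a b).differentiable (by simp) _).hasDerivAt
  have hneg : g' ≤ 0 := (stp_anti hab).deriv_nonpos
  have hdiff : Differentiable ℝ (cone L a b ν) := cone_smooth.differentiable (by simp)
  have e1 : dt (cone L a b ν) (x, t) = g' * L := by
    have h1 := hasDerivAt_slice_t hdiff x t
    have h2 : HasDerivAt (fun s => phs L (x, s)) L t := by
      unfold phs
      simpa using ((hasDerivAt_id t).const_mul L).const_add (Real.sqrt (1 + x ^ 2))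
    have h3 := hg.comp t h2
    have h4 : (fun s => cone L a b ν (x, s)) =ᶠ[𝓝 t] (stp a b ∘ fun s => phs L (x, s)) := by
      filter_upwards [lt_mem_nhds ht] with s hs
      exact cone_of_nonneg hν (le_of_lt hs)
    exact h1.unique (h3.congr_of_eventuallyEq h4)
  have e2 : dx (cone L a b ν) (x, t) = g' * (x / Real.sqrt (1 + x ^ 2)) := by
    have h1 := hasDerivAt_slice_x hdiff x t
    have h2 : HasDerivAt (fun s => phs L (s, t)) (x / Real.sqrt (1 + x ^ 2)) x := by
      unfold phs
      have k1 : HasDerivAt (fun s : ℝ => 1 + s ^ 2) (2 * x) x := by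
        simpa using ((hasDerivAt_pow 2 x).const_add 1)
      have k2 := (k1.sqrt (by positivity)).add_const (L * t)
      convert! k2 using 1
      field_simp
    have h3 := hg.comp x h2
    have h4 : (fun s => cone L a b ν (s, t)) =ᶠ[𝓝 x] (stp a b ∘ fun s => phs L (s, t)) := by
      refine Filter.Eventually.of_forall fun s => ?_
      exact cone_of_nonneg hν (le_of_lt ht)
    exact h1.unique (h3.congr_of_eventuallyEq h4)
  rw [e1, e2, abs_mul, abs_of_nonpos hneg]
  have h5 : |x / Real.sqrt (1 + x ^ 2)| ≤ 1 := by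
    rw [abs_div, abs_of_nonneg (Real.sqrt_nonneg (1 + x ^ 2)),
      div_le_one (Real.sqrt_pos.2 (by positivity))]
    exact abs_le_sqrt_one x
  have h6 : 0 ≤ L * (-g') := mul_nonneg hL' (by linarith)
  nlinarith [mul_le_mul_of_nonneg_left h5 h6]

end

end

end Pool.Agent.helper23_Euler
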