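import Mathlib
import Pool.Agent.helper23_Euler.Cone

open MeasureTheory Set Filter Topology
open scoped ContDiff Convolution

namespace Pool.Agent.helper23_Euler

noncomputable section

lemma NP.bound_defect {γ : ℝ} (hγ : 1 < γ) {B : Bds} {rL uL pL rR uR pR : ℝ}
    (N : NP γ B rL uL pL rR uR pR) : ∃ C, 0 ≤ C ∧ ∀ η,
      |defect γ N.w N.v (prim N.R N.cp (fun s => s * N.w s)) (prim N.R N.ct N.v) N.lam η| ≤ C := by
  have hγ' : 0 < γ - 1 := by linarith
  obtain ⟨CS, hCS0, hCS⟩ := exists_Sb_bound (γ := γ) (p2 := N.p2) (t2 := N.t2) N.hp1 N.ht1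
  have hp1 := N.hp1
  have ht1 := N.ht1
  have hd := N.hd
  have hA := N.hA
  have hW : 0 ≤ N.W := le_trans (abs_nonneg _) (N.hwW 0)
  have hCl : 0 ≤ N.Cl := le_trans (abs_nonneg _) (N.hlC 0)
  have hp2 : 0 < N.p2 := by have := N.hP 0; linarith [this.1, this.2]
  have ht2 : 0 < N.t2 := by have := N.hH 0; linarith [this.1, this.2]
  refine ⟨N.W * (N.p2 + N.A ^ 2 * ((γ - 1) * N.t2 / N.p1)) + N.A * N.W * CS + N.Cl,
    by positivity, ?_⟩
  intro η
  have f1 := N.hP η
  have f2 := N.hH η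
  set P := prim N.R N.cp (fun s => s * N.w s) with hPd
  set H := prim N.R N.ct N.v with hHd
  have hP0 : 0 < P η := by linarith [f1.1]
  have hH0 : 0 < H η := by linarith [f2.1]
  have f3 := hCS (P η) (H η) (by linarith [f1.1]) (by linarith [f1.2]) (by linarith [f2.1])
    (by linarith [f2.2])
  have f4 := N.hlC η
  unfold defect
  by_cases hη : N.A < |η|
  · rw [N.hwA η hη, N.hvA η hη]
    simp only [zero_mul, mul_zero, sub_zero, zero_sub, abs_neg]
    refine f4.trans ?_
    have : 0 ≤ N.W * (N.p2 + N.A ^ 2 * ((γ - 1) * N.t2 / N.p1)) + N.A * N.W * CS := by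
      positivity
    linarith
  · have hη' := not_lt.1 hη
    refine (abs_sub _ _).trans (add_le_add ((abs_sub _ _).trans (add_le_add ?_ ?_)) f4)
    · rw [abs_mul]
      refine mul_le_mul (N.hwW η) ?_ (abs_nonneg _) hW
      rw [abs_of_nonneg (by positivity)]
      have e4 : η ^ 2 ≤ N.A ^ 2 := by
        rw [← sq_abs]
        exact pow_le_pow_left₀ (abs_nonneg _) hη' 2
      have e5 : (γ - 1) * H η / P η ≤ (γ - 1) * N.t2 / N.p1 := by
        have : H η ≤ N.t2 := by linarith [f2.2]
        have : N.p1 ≤ P η := by linarith [f1.1]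
        gcongr
      have e6 : 0 ≤ (γ - 1) * H η / P η := by positivity
      have e7 := mul_le_mul e4 e5 e6 (by positivity)
      linarith [f1.2]
    · rw [abs_mul, abs_mul]
      refine mul_le_mul (mul_le_mul hη' (N.hvW η) (abs_nonneg _) (by linarith)) f3
        (abs_nonneg _) (by positivity)

lemma Sol.Y0_nonneg {γ T : ℝ} {B : Bds} {r u p : ℝ × ℝ → ℝ} {r0 u0 p0 : ℝ → ℝ}
    (h : Sol γ T B r u p r0 u0 p0) {x : ℝ} (hx : 0 ≤ x) : 0 ≤ Y0 r0 x := by
  unfold Y0
  exact intervalIntegral.integral_nonneg hx fun s _ => (h.box0 s).r_pos.le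

lemma Sol.Y0_nonpos {γ T : ℝ} {B : Bds} {r u p : ℝ × ℝ → ℝ} {r0 u0 p0 : ℝ → ℝ}
    (h : Sol γ T B r u p r0 u0 p0) {x : ℝ} (hx : x ≤ 0) : Y0 r0 x ≤ 0 := by
  unfold Y0
  rw [intervalIntegral.integral_symm, neg_nonpos]
  exact intervalIntegral.integral_nonneg hx fun s _ => (h.box0 s).r_pos.le

theorem no_sol {γ : ℝ} (hγ : 1 < γ) {B : Bds} {rL uL pL rR uR pR : ℝ}
    (N : NP γ B rL uL pL rR uR pR) {T : ℝ} (hT : 0 < T) :
    ∃ ε X : ℝ, 0 < ε ∧ 0 < X ∧ ∀ (r u p : ℝ × ℝ → ℝ) (r0 u0 p0 : ℝ → ℝ),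
      Sol γ T B r u p r0 u0 p0 →
      (∀ᵐ x : ℝ, -X ≤ x → x < 0 → relE γ (r0 x) (u0 x) (p0 x) uL pL (en γ rL pL) ≤ ε) →
      (∀ᵐ x : ℝ, 0 < x → x ≤ X → relE γ (r0 x) (u0 x) (p0 x) uR pR (en γ rR pR) ≤ ε) →
      False := by
  have hra := B.ra_pos
  have hrb := B.rb_pos
  have hA := N.hA
  have hθ := N.hθ
  have hp1 := N.hp1
  have ht1 := N.ht1
  have hd := N.hd
  have hp2 : 0 < N.p2 := by have := N.hP 0; linarith [this.1, this.2]
  have ht2 : 0 < N.t2 := by have := N.hH 0; linarith [this.1, this.2]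
  obtain ⟨L, hL, hLb⟩ := exists_flux_bound hγ B hp1 ht1
    (show N.t1 ≤ N.t2 by have := N.hH 0; linarith [this.1, this.2])
    (show N.p1 ≤ N.p2 by have := N.hP 0; linarith [this.1, this.2])
  obtain ⟨C, hC0, hC⟩ := exists_bd hγ B
  obtain ⟨CS, hCS0, hCS⟩ := exists_Sb_bound (γ := γ) (p2 := N.p2) (t2 := N.t2) hp1 ht1
  obtain ⟨Cd, hCd0, hCd⟩ := N.bound_defect hγ
  -- constants
  obtain ⟨T', hT'⟩ : ∃ T', T' = T / 2 := ⟨_, rfl⟩
  have hT'0 : 0 < T' := by rw [hT']; positivity
  have hT'T : T' < T := by rw [hT']; linarith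
  obtain ⟨a, ha⟩ : ∃ a, a = 1 + L * T' / 4 := ⟨_, rfl⟩
  obtain ⟨b, hb⟩ : ∃ b, b = 1 + L * T' / 2 := ⟨_, rfl⟩
  have hLT : 0 < L * T' := mul_pos hL hT'0
  have hab : a < b := by rw [ha, hb]; linarith
  have hb0 : 0 < b := by rw [hb]; linarith
  obtain ⟨τ, hτ⟩ : ∃ τ, τ = min (T' / 8) (L * T' / (16 * N.θ)) := ⟨_, rfl⟩
  have hτ0 : 0 < τ := by rw [hτ]; exact lt_min (by positivity) (by positivity)
  have hτ1 : τ ≤ T' / 8 := by rw [hτ]; exact min_le_left _ _
  have hτ2 : τ ≤ L * T' / (16 * N.θ) := by rw [hτ]; exact min_le_right _ _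
  obtain ⟨κ, hκ⟩ : ∃ κ, κ = 2 * N.θ * τ := ⟨_, rfl⟩
  have hκ0 : 0 < κ := by rw [hκ]; positivity
  obtain ⟨X, hX⟩ : ∃ X, X = b / B.ra := ⟨_, rfl⟩
  have hX0 : 0 < X := by rw [hX]; positivity
  obtain ⟨ε, hε⟩ : ∃ ε, ε = κ / (8 * B.rb * X) := ⟨_, rfl⟩
  have hε0 : 0 < ε := by rw [hε]; positivity
  refine ⟨ε, X, hε0, hX0, ?_⟩
  intro r u p r0 u0 p0 h hdL hdR
  set P := prim N.R N.cp (fun s => s * N.w s) with hPd
  set H := prim N.R N.ct N.v with hHd
  set U := prim N.R N.cu N.w with hUd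
  have iw : Integrable N.w := integrable_of_supp N.mw N.hwW N.hwA
  obtain ⟨Ub, hUb⟩ : ∃ Ub, Ub = |N.cu| + ∫ s, |N.w s| := ⟨_, rfl⟩
  have hUb0 : 0 ≤ Ub := by
    rw [hUb]
    have : 0 ≤ ∫ s, |N.w s| := integral_nonneg fun s => abs_nonneg _
    positivity
  have hUbd : ∀ η, |U η| ≤ Ub := fun η => by rw [hUb]; exact abs_prim iw η
  obtain ⟨C1, hC1⟩ : ∃ C1, C1 = C + B.ub * Ub + (1 / B.ra) * N.p2 + C * N.t2
    + (γ * N.t2 + Ub ^ 2 / 2 + N.t2 * CS) := ⟨_, rfl⟩
  have hC10 : 0 ≤ C1 := by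
    rw [hC1]
    have := B.ub_nonneg
    have : 0 < γ := by linarith
    positivity
  have hrelb : ∀ r u p η, B.In r u p → relE γ r u p (U η) (P η) (H η) ≤ C1 := by
    intro r u p η hin
    rw [hC1]
    exact (le_abs_self _).trans (relE_bound hγ hC hp1 ht1 hUb0 hCS hin (hUbd η)
      (by linarith [(N.hP η).1]) (by linarith [(N.hP η).2]) (by linarith [(N.hH η).1])
      (by linarith [(N.hH η).2]))
  obtain ⟨ν, hνd⟩ : ∃ ν, ν = min τ (κ * B.ra / (8 * B.rb * (C1 + 1) * N.A)) := ⟨_, rfl⟩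
  have hν : 0 < ν := by rw [hνd]; exact lt_min hτ0 (by positivity)
  have hν1 : ν ≤ τ := by rw [hνd]; exact min_le_left _ _
  have hν2 : ν ≤ κ * B.ra / (8 * B.rb * (C1 + 1) * N.A) := by rw [hνd]; exact min_le_right _ _
  set χ := cone L a b ν with hχd
  have hχ : IsTest T' χ := isTest_cone hν hab hL (by rw [hb]; linarith)
  have main := h.meas_ineq hγ hT'0 hT'T hν N.mw N.mv hA.le N.hwW N.hvW N.hwA N.hvA (R := N.R)
    (cu := N.cu) (cp := N.cp) (ct := N.ct) hp1 ht1 hd N.hP N.hH hLb hχ cone_nonneg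
    (cone_supp' hν hab)
    (fun z hz => (cone_deriv hν hab hz).resolve_right (by linarith)) N.ml N.hlC N.hlam
  rw [← hPd, ← hHd, ← hUd] at main
  -- first integral
  have mdef : Measurable (defect γ N.w N.v P H N.lam) := by
    have isw : Integrable (fun s => s * N.w s) := by
      refine integrable_of_supp (A := N.A) (measurable_id.mul N.mw)
        (abs_mul_supp N.hwW N.hwA hA.le) ?_
      intro x hx
      rw [N.hwA x hx, mul_zero]
    have iv : Integrable N.v := integrable_of_supp N.mv N.hvW N.hvA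
    have c1 : Continuous P := by
      rw [hPd]
      unfold prim
      exact continuous_const.add (intervalIntegral.continuous_primitive
        (fun a b => isw.intervalIntegrable) _)
    have c2 : Continuous H := by
      rw [hHd]
      unfold prim
      exact continuous_const.add (intervalIntegral.continuous_primitive
        (fun a b => iv.intervalIntegrable) _)
    exact measurable_defect N.mw N.mv c1.measurable c2.measurable N.ml
  have hint := (change_ss hν hχ mdef hCd).1
  obtain ⟨S, hS⟩ : ∃ S : Set (ℝ × ℝ), S = Ioo (-N.θ) N.θ ×ˢ Ioo 0 τ := ⟨_, rfl⟩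
  have hSm : MeasurableSet S := by rw [hS]; exact measurableSet_Ioo.prod measurableSet_Ioo
  have hvol : volume.real S = κ := by
    rw [hS, Measure.volume_eq_prod, measureReal_def, Measure.prod_prod, Real.volume_Ioo,
      Real.volume_Ioo, ENNReal.toReal_mul, ENNReal.toReal_ofReal (by linarith),
      ENNReal.toReal_ofReal (by linarith), hκ]
    ring
  have hvolf : volume S ≠ ⊤ := by
    rw [hS, Measure.volume_eq_prod, Measure.prod_prod, Real.volume_Ioo, Real.volume_Ioo]
    exact ENNReal.mul_ne_top ENNReal.ofReal_ne_top ENNReal.ofReal_ne_top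
  have hSup : S ⊆ up := by
    rw [hS]
    rintro z ⟨_, hz⟩
    exact hz.1
  have I1 : ∫ z in up, χ (z.1 * (z.2 + ν), z.2) * defect γ N.w N.v P H N.lam z.1 ≤ -κ := by
    have k1 : Integrable (S.indicator fun _ => (-1 : ℝ)) (volume.restrict up) := by
      refine Integrable.restrict ?_
      rw [integrable_indicator_iff hSm]
      exact integrableOn_const hvolf
    have k2 : ∫ z in up, χ (z.1 * (z.2 + ν), z.2) * defect γ N.w N.v P H N.lam z.1 ≤
        ∫ z in up, S.indicator (fun _ => (-1 : ℝ)) z := by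
      refine setIntegral_mono_on hint k1 measurableSet_up ?_
      intro z hz
      have hz0 : 0 < z.2 := hz
      by_cases hzS : z ∈ S
      · rw [indicator_of_mem hzS]
        rw [hS] at hzS
        obtain ⟨q1, q2⟩ := hzS
        have q3 : |z.1| < N.θ := abs_lt.2 q1
        have q4 : z.2 < τ := q2.2
        have hχ1 : χ (z.1 * (z.2 + ν), z.2) = 1 := by
          refine cone_one hν hab hz0.le ?_
          unfold phs
          have e1 := sqrt_one_le (z.1 * (z.2 + ν))
          have e2 : |z.1 * (z.2 + ν)| ≤ N.θ * (2 * τ) := by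
            rw [abs_mul, abs_of_pos (show 0 < z.2 + ν by linarith)]
            exact mul_le_mul q3.le (by linarith) (by linarith) hθ.le
          have e3 : N.θ * (2 * τ) ≤ L * T' / 8 := by
            have := (le_div_iff₀ (by positivity)).1 hτ2
            linarith
          have e4 : L * z.2 ≤ L * (T' / 8) := mul_le_mul_of_nonneg_left (by linarith) hL.le
          show Real.sqrt (1 + (z.1 * (z.2 + ν)) ^ 2) + L * z.2 ≤ a
          rw [ha]
          linarith
        rw [hχ1, one_mul]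
        exact N.def_mid z.1 q3
      · rw [indicator_of_notMem hzS]
        exact mul_nonpos_of_nonneg_of_nonpos (cone_nonneg _) (N.def_le z.1)
    refine k2.trans (le_of_eq ?_)
    rw [setIntegral_indicator hSm, inter_eq_self_of_subset_right hSup, setIntegral_const, hvol]
    simp
  -- second integral
  set f2 : ℝ → ℝ := fun x => r0 x * relE γ (r0 x) (u0 x) (p0 x) (U (Y0 r0 x / ν))
    (P (Y0 r0 x / ν)) (H (Y0 r0 x / ν)) * χ (Y0 r0 x, 0) with hf2
  have hf20 : ∀ x, 0 ≤ f2 x := by
    intro x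
    have h1 := (h.box0 x).r_pos
    have h2 := relE_nonneg (u := u0 x) (ub := U (Y0 r0 x / ν)) hγ h1 (h.box0 x).p_pos
      (show 0 < P (Y0 r0 x / ν) by linarith [(N.hP (Y0 r0 x / ν)).1])
      (show 0 < H (Y0 r0 x / ν) by linarith [(N.hH (Y0 r0 x / ν)).1])
    exact mul_nonneg (mul_nonneg h1.le h2) (cone_nonneg _)
  obtain ⟨l, hl⟩ : ∃ l, l = N.A * ν / B.ra := ⟨_, rfl⟩
  have hl0 : 0 < l := by rw [hl]; positivity
  obtain ⟨g, hg⟩ : ∃ g : ℝ → ℝ, g = fun x => (Icc (-l) l).indicator (fun _ => B.rb * C1) x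
    + (Icc (-X) X).indicator (fun _ => B.rb * ε) x := ⟨_, rfl⟩
  have hg1 : ∀ x, 0 ≤ (Icc (-l) l).indicator (fun _ => B.rb * C1) x := fun x =>
    indicator_nonneg (fun _ _ => by positivity) x
  have hg2 : ∀ x, 0 ≤ (Icc (-X) X).indicator (fun _ => B.rb * ε) x := fun x =>
    indicator_nonneg (fun _ _ => by positivity) x
  have ig1 : Integrable ((Icc (-l) l).indicator (fun _ => B.rb * C1)) := by
    rw [integrable_indicator_iff measurableSet_Icc]
    exact integrableOn_const (by simp)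
  have ig2 : Integrable ((Icc (-X) X).indicator (fun _ => B.rb * ε)) := by
    rw [integrable_indicator_iff measurableSet_Icc]
    exact integrableOn_const (by simp)
  have hgi : Integrable g := by rw [hg]; exact ig1.add ig2
  have hgint : ∫ x, g x = 2 * l * (B.rb * C1) + 2 * X * (B.rb * ε) := by
    rw [hg]
    rw [integral_add ig1 ig2, integral_indicator measurableSet_Icc,
      integral_indicator measurableSet_Icc, setIntegral_const, setIntegral_const,
      Real.volume_real_Icc_of_le (by linarith), Real.volume_real_Icc_of_le (by linarith),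
      smul_eq_mul, smul_eq_mul]
    ring
  have hne : ∀ᵐ x : ℝ, x ≠ 0 := by simp [ae_iff, measure_singleton]
  have hf2g : ∀ᵐ x, f2 x ≤ g x := by
    filter_upwards [hdL, hdR, hne] with x hxL hxR hx0
    have hr := h.box0 x
    have hrx : |r0 x| ≤ B.rb := hr.abs_r
    have hlow := h.Y0_lower x
    have hχ01 := cone_le_one (L := L) (a := a) (b := b) (ν := ν) (Y0 r0 x, 0)
    have hχ00 := cone_nonneg (L := L) (a := a) (b := b) (ν := ν) (Y0 r0 x, 0)
    rw [← hχd] at hχ01 hχ00
    have hrel0 := relE_nonneg (u := u0 x) (ub := U (Y0 r0 x / ν)) hγ hr.r_pos hr.p_pos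
      (show 0 < P (Y0 r0 x / ν) by linarith [(N.hP (Y0 r0 x / ν)).1])
      (show 0 < H (Y0 r0 x / ν) by linarith [(N.hH (Y0 r0 x / ν)).1])
    have gen : ∀ c, relE γ (r0 x) (u0 x) (p0 x) (U (Y0 r0 x / ν))
        (P (Y0 r0 x / ν)) (H (Y0 r0 x / ν)) ≤ c → f2 x ≤ B.rb * c := by
      intro c hc
      have hc0 : 0 ≤ c := hrel0.trans hc
      calc f2 x ≤ (B.rb * c) * 1 := by
            refine mul_le_mul ?_ hχ01 hχ00 (by positivity)
            exact mul_le_mul ((le_abs_self _).trans hrx) hc hrel0 hrb.le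
        _ = _ := mul_one _
    by_cases hbig : b ≤ phs L (Y0 r0 x, 0)
    · have : f2 x = 0 := by
        rw [hf2]
        simp only []
        rw [hχd, cone_zero hν hab hbig, mul_zero]
      rw [this, hg]
      exact add_nonneg (hg1 x) (hg2 x)
    · have hsmall := not_le.1 hbig
      unfold phs at hsmall
      simp only [mul_zero, add_zero] at hsmall
      have hYb : |Y0 r0 x| ≤ b := (abs_le_sqrt_one _).trans hsmall.le
      have hxX : |x| ≤ X := by
        rw [hX, le_div_iff₀ hra, mul_comm]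
        exact hlow.trans hYb
      have hxX' : x ∈ Icc (-X) X := abs_le.1 hxX
      have hgx : B.rb * ε ≤ g x := by
        rw [hg]
        simp only []
        rw [indicator_of_mem hxX']
        linarith [hg1 x]
      by_cases c1 : N.A ≤ Y0 r0 x / ν
      · have hxpos : 0 < x := by
          by_contra hx
          have h1 := h.Y0_nonpos (not_lt.1 hx)
          have h2 : Y0 r0 x / ν ≤ 0 := div_nonpos_of_nonpos_of_nonneg h1 hν.le
          linarith
        obtain ⟨e1, e2, e3⟩ := N.hright _ c1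
        rw [← hUd] at e1
        rw [← hPd] at e2
        rw [← hHd] at e3
        refine (gen ε ?_).trans hgx
        rw [e1, e2, e3]
        exact hxR hxpos hxX'.2
      · by_cases c2 : Y0 r0 x / ν ≤ -N.A
        · have hxneg : x < 0 := by
            by_contra hx
            have h1 := h.Y0_nonneg (not_lt.1 hx)
            have h2 : 0 ≤ Y0 r0 x / ν := div_nonneg h1 hν.le
            linarith
          obtain ⟨e1, e2, e3⟩ := N.hleft _ c2
          rw [← hUd] at e1
          rw [← hPd] at e2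
          rw [← hHd] at e3
          refine (gen ε ?_).trans hgx
          rw [e1, e2, e3]
          exact hxL hxX'.1 hxneg
        · have hY : |Y0 r0 x| ≤ N.A * ν := by
            rw [abs_le]
            rw [not_le] at c1 c2
            rw [div_lt_iff₀ hν] at c1
            rw [lt_div_iff₀ hν] at c2
            constructor <;> linarith
          have hxl : |x| ≤ l := by
            rw [hl, le_div_iff₀ hra, mul_comm]
            exact hlow.trans hY
          have hxl' : x ∈ Icc (-l) l := abs_le.1 hxl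
          refine (gen C1 (hrelb _ _ _ _ hr)).trans ?_
          rw [hg]
          simp only []
          rw [indicator_of_mem hxl']
          linarith [hg2 x]
  have I2 : ∫ x, f2 x ≤ κ / 2 := by
    have h1 : ∫ x, f2 x ≤ ∫ x, g x :=
      integral_mono_of_nonneg (Filter.Eventually.of_forall hf20) hgi hf2g
    rw [hgint] at h1
    have e1 : 2 * l * (B.rb * C1) ≤ κ / 4 := by
      have h2 : ν * (8 * B.rb * (C1 + 1) * N.A) ≤ κ * B.ra :=
        (le_div_iff₀ (by positivity)).1 hν2
      have h3 : 2 * l * (B.rb * C1) = (ν * (8 * B.rb * C1 * N.A)) / (4 * B.ra) := by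
        rw [hl]
        field_simp
        ring
      rw [h3, div_le_iff₀ (by positivity)]
      have h4 : ν * (8 * B.rb * C1 * N.A) ≤ ν * (8 * B.rb * (C1 + 1) * N.A) := by
        have : C1 ≤ C1 + 1 := by linarith
        gcongr
      linarith
    have e2 : 2 * X * (B.rb * ε) = κ / 4 := by
      rw [hε]
      field_simp
      ring
    linarith
  linarith

end

end Pool.Agent.helper23_Euler
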