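import Mathlib
import Pool.Agent.helper23_Euler.NoSol

open MeasureTheory Set Filter Topology
open scoped ContDiff Convolution

namespace Pool.Agent.helper23_Euler

noncomputable section

/-- parabolic-free (hyperbolic) scaling about the point `(x0,0)` -/
def scl (x0 s : ℝ) (z : ℝ × ℝ) : ℝ × ℝ := (x0 + s * z.1, s * z.2)

/-- the inverse scaling -/
def scl' (x0 s : ℝ) (z : ℝ × ℝ) : ℝ × ℝ := ((z.1 - x0) / s, z.2 / s)

section

variable {x0 s : ℝ}

lemma scl'_scl (hs : 0 < s) (z : ℝ × ℝ) : scl' x0 s (scl x0 s z) = z := by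
  unfold scl scl'
  ext
  · simp only []
    field_simp
    ring
  · simp only []
    field_simp

lemma scl_scl' (hs : 0 < s) (z : ℝ × ℝ) : scl x0 s (scl' x0 s z) = z := by
  unfold scl scl'
  ext
  · simp only []
    field_simp
    ring
  · simp only []
    field_simp

lemma contDiff_scl' : ContDiff ℝ ∞ (scl' x0 s) := by
  unfold scl'
  exact ((contDiff_fst.sub contDiff_const).div_const _).prodMk (contDiff_snd.div_const _)

lemma continuous_scl : Continuous (scl x0 s) := by
  unfold scl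
  fun_prop

lemma isTest_scl (hs : 0 < s) {T : ℝ} {φ : ℝ × ℝ → ℝ} (hφ : IsTest (T / s) φ) :
    IsTest T (fun z => φ (scl' x0 s z)) where
  smooth := hφ.smooth.comp contDiff_scl'
  cpt := by
    have h1 : IsCompact (scl x0 s '' tsupport φ) := hφ.cpt.isCompact.image continuous_scl
    refine HasCompactSupport.of_support_subset_isCompact h1 ?_
    intro z hz
    exact ⟨scl' x0 s z, subset_tsupport _ hz, scl_scl' hs z⟩
  supp := by
    have h1 : IsClosed (scl' x0 s ⁻¹' tsupport φ) :=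
      (isClosed_tsupport φ).preimage contDiff_scl'.continuous
    intro z hz
    have h2 : z ∈ scl' x0 s ⁻¹' tsupport φ := by
      refine closure_minimal ?_ h1 hz
      intro w hw
      exact subset_tsupport _ hw
    have h3 := hφ.supp h2
    have h4 : z.2 / s < T / s := h3
    exact (div_lt_div_iff_of_pos_right hs).1 h4

lemma dt_scl (hs : 0 < s) {φ : ℝ × ℝ → ℝ} (hφ : Differentiable ℝ φ) (z : ℝ × ℝ) :
    dt φ z = s * dt (fun z => φ (scl' x0 s z)) (scl x0 s z) := by
  have hd : Differentiable ℝ (fun z => φ (scl' x0 s z)) :=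
    hφ.comp ((contDiff_scl' (x0 := x0) (s := s)).differentiable (by simp))
  obtain ⟨x, t⟩ := z
  have h1 := hasDerivAt_slice_t hd (x0 + s * x) (s * t)
  have h2 : HasDerivAt (fun τ : ℝ => s * τ) s t := by
    simpa using (hasDerivAt_id t).const_mul s
  have h3 := h1.comp t h2
  have h4 := hasDerivAt_slice_t hφ x t
  have e : ((fun y => φ (scl' x0 s (x0 + s * x, y))) ∘ fun τ : ℝ => s * τ) =
      fun τ => φ (x, τ) := by
    ext τ
    have := scl'_scl (x0 := x0) hs (x, τ)
    unfold scl at this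
    simp only [Function.comp_apply, this]
  rw [e] at h3
  rw [h4.unique h3, mul_comm]
  rfl

lemma dx_scl (hs : 0 < s) {φ : ℝ × ℝ → ℝ} (hφ : Differentiable ℝ φ) (z : ℝ × ℝ) :
    dx φ z = s * dx (fun z => φ (scl' x0 s z)) (scl x0 s z) := by
  have hd : Differentiable ℝ (fun z => φ (scl' x0 s z)) :=
    hφ.comp ((contDiff_scl' (x0 := x0) (s := s)).differentiable (by simp))
  obtain ⟨x, t⟩ := z
  have h1 := hasDerivAt_slice_x hd (x0 + s * x) (s * t)
  have h2 : HasDerivAt (fun τ : ℝ => x0 + s * τ) s x := by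
    simpa using ((hasDerivAt_id x).const_mul s).const_add x0
  have h3 := h1.comp x h2
  have h4 := hasDerivAt_slice_x hφ x t
  have e : ((fun y => φ (scl' x0 s (y, s * t))) ∘ fun τ : ℝ => x0 + s * τ) =
      fun τ => φ (τ, t) := by
    ext τ
    have := scl'_scl (x0 := x0) hs (τ, t)
    unfold scl at this
    simp only [Function.comp_apply, this]
  rw [e] at h3
  rw [h4.unique h3, mul_comm]
  rfl

lemma integral_scl (hs : 0 < s) (f : ℝ × ℝ → ℝ) :
    ∫ z, f (scl x0 s z) = (s ^ 2)⁻¹ * ∫ z, f z := by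
  have e : (fun z : ℝ × ℝ => f (scl x0 s z)) = fun z => (fun w => f ((x0, 0) + w)) (s • z) := by
    ext z
    simp [scl, Prod.smul_def]
  rw [e, Measure.integral_comp_smul volume (fun w => f ((x0, 0) + w)) s,
    integral_add_left_eq_self (μ := volume) f ((x0, (0 : ℝ)) : ℝ × ℝ)]
  have : Module.finrank ℝ (ℝ × ℝ) = 2 := by simp
  rw [this, abs_of_pos (by positivity), smul_eq_mul]

lemma setIntegral_scl (hs : 0 < s) (f : ℝ × ℝ → ℝ) :
    ∫ z in up, f (scl x0 s z) = (s ^ 2)⁻¹ * ∫ z in up, f z := by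
  rw [← integral_indicator measurableSet_up, ← integral_indicator measurableSet_up,
    ← integral_scl (x0 := x0) hs]
  congr 1
  ext z
  by_cases hz : z ∈ up
  · have hz' : scl x0 s z ∈ up := by
      have : 0 < z.2 := hz
      show 0 < s * z.2
      positivity
    rw [indicator_of_mem hz, indicator_of_mem hz']
  · have hz' : scl x0 s z ∉ up := by
      intro h
      have h1 : 0 < s * z.2 := h
      exact hz ((mul_pos_iff_of_pos_left hs).1 h1)
    rw [indicator_of_notMem hz, indicator_of_notMem hz']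

lemma integral_scl0 (hs : 0 < s) (f : ℝ → ℝ) :
    ∫ x, f (x0 + s * x) = s⁻¹ * ∫ x, f x := by
  have h1 := Measure.integral_comp_mul_left (fun w => f (x0 + w)) s
  rw [h1, integral_add_left_eq_self (μ := volume) f x0, abs_of_pos (by positivity), smul_eq_mul]

lemma weak_scale (hs : 0 < s) {A B : ℝ × ℝ → ℝ} {A0 : ℝ → ℝ} {φ : ℝ × ℝ → ℝ}
    (hφ : Differentiable ℝ φ) :
    (∫ z in up, (A (scl x0 s z) * dt φ z + B (scl x0 s z) * dx φ z))
      + ∫ x, A0 (x0 + s * x) * φ (x, 0)
    = s⁻¹ * ((∫ z in up, (A z * dt (fun z => φ (scl' x0 s z)) z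
        + B z * dx (fun z => φ (scl' x0 s z)) z))
      + ∫ x, A0 x * φ (scl' x0 s (x, 0))) := by
  have e1 : ∫ z in up, (A (scl x0 s z) * dt φ z + B (scl x0 s z) * dx φ z)
      = ∫ z in up, (fun w => s * (A w * dt (fun z => φ (scl' x0 s z)) w
        + B w * dx (fun z => φ (scl' x0 s z)) w)) (scl x0 s z) := by
    congr 1
    ext z
    simp only []
    rw [dt_scl (x0 := x0) hs hφ, dx_scl (x0 := x0) hs hφ]
    ring
  have e2 : ∫ x, A0 (x0 + s * x) * φ (x, 0) =
      ∫ x, (fun y => A0 y * φ (scl' x0 s (y, 0))) (x0 + s * x) := by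
    congr 1
    ext x
    simp only []
    have := scl'_scl (x0 := x0) hs (x, 0)
    unfold scl at this
    simp only [mul_zero] at this
    rw [this]
  have e3 := setIntegral_scl (x0 := x0) hs (fun w => s * (A w * dt (fun z => φ (scl' x0 s z)) w
        + B w * dx (fun z => φ (scl' x0 s z)) w))
  have e4 := integral_scl0 (x0 := x0) hs (fun y => A0 y * φ (scl' x0 s (y, 0)))
  rw [e1, e3, e2, e4, integral_const_mul, mul_add]
  congr 1
  have := hs.ne'
  field_simp

lemma WeakEq.scale (hs : 0 < s) {T : ℝ} {A B : ℝ × ℝ → ℝ} {A0 : ℝ → ℝ} (h : WeakEq T A B A0) :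
    WeakEq (T / s) (fun z => A (scl x0 s z)) (fun z => B (scl x0 s z))
      (fun x => A0 (x0 + s * x)) := by
  intro φ hφ
  rw [weak_scale hs hφ.diff]
  have := h _ (isTest_scl (x0 := x0) hs hφ)
  rw [this, mul_zero]

lemma WeakLe.scale (hs : 0 < s) {T : ℝ} {A B : ℝ × ℝ → ℝ} {A0 : ℝ → ℝ} (h : WeakLe T A B A0) :
    WeakLe (T / s) (fun z => A (scl x0 s z)) (fun z => B (scl x0 s z))
      (fun x => A0 (x0 + s * x)) := by
  intro φ hφ hφ0
  rw [weak_scale hs hφ.diff]
  have := h _ (isTest_scl (x0 := x0) hs hφ) fun z => hφ0 _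
  exact mul_nonpos_of_nonneg_of_nonpos (inv_nonneg.2 hs.le) this

end

lemma IsTest.mono {T T' : ℝ} (hT : T ≤ T') {φ : ℝ × ℝ → ℝ} (h : IsTest T φ) : IsTest T' φ where
  smooth := h.smooth
  cpt := h.cpt
  supp := fun z hz => lt_of_lt_of_le (h.supp hz) hT

lemma Sol.mono {γ T T' : ℝ} (hT : T' ≤ T) {B : Bds} {r u p : ℝ × ℝ → ℝ} {r0 u0 p0 : ℝ → ℝ}
    (h : Sol γ T B r u p r0 u0 p0) : Sol γ T' B r u p r0 u0 p0 :=
  { h with
    mass := fun φ hφ => h.mass φ (hφ.mono hT)
    momentum := fun φ hφ => h.momentum φ (hφ.mono hT)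
    energy := fun φ hφ => h.energy φ (hφ.mono hT)
    entropy := fun φ hφ h0 => h.entropy φ (hφ.mono hT) h0 }

lemma Sol.scale {γ T : ℝ} {B : Bds} {r u p : ℝ × ℝ → ℝ} {r0 u0 p0 : ℝ → ℝ}
    (h : Sol γ T B r u p r0 u0 p0) (x0 : ℝ) {s : ℝ} (hs : 0 < s) :
    Sol γ (T / s) B (fun z => r (scl x0 s z)) (fun z => u (scl x0 s z))
      (fun z => p (scl x0 s z)) (fun x => r0 (x0 + s * x)) (fun x => u0 (x0 + s * x))
      (fun x => p0 (x0 + s * x)) where
  mr := h.mr.comp continuous_scl.measurable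
  mu := h.mu.comp continuous_scl.measurable
  mp := h.mp.comp continuous_scl.measurable
  mr0 := h.mr0.comp (by fun_prop)
  mu0 := h.mu0.comp (by fun_prop)
  mp0 := h.mp0.comp (by fun_prop)
  box := fun z => h.box _
  box0 := fun x => h.box0 _
  mass := h.mass.scale hs
  momentum := h.momentum.scale hs
  energy := h.energy.scale hs
  entropy := h.entropy.scale hs

/-- no bounded entropy solution away from vacuum after a supercritical jump -/
theorem no_sol_jump {γ : ℝ} (hγ : 1 < γ) {B : Bds} {rL uL pL rR uR pR : ℝ} (hL : B.In rL uL pL)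
    (hR : B.In rR uR pR)
    (hcrit : 2 / (γ - 1) * (Real.sqrt (γ * pL / rL) + Real.sqrt (γ * pR / rR)) ≤ uR - uL)
    {T : ℝ} (hT : 0 < T) {r u p : ℝ × ℝ → ℝ} {r0 u0 p0 : ℝ → ℝ}
    (h : Sol γ T B r u p r0 u0 p0) (x0 : ℝ)
    (hleft : ∀ ε, 0 < ε → ∃ δ, 0 < δ ∧ ∀ᵐ x, x0 - δ < x → x < x0 →
      relE γ (r0 x) (u0 x) (p0 x) uL pL (en γ rL pL) ≤ ε)
    (hright : ∀ ε, 0 < ε → ∃ δ, 0 < δ ∧ ∀ᵐ x, x0 < x → x < x0 + δ →
      relE γ (r0 x) (u0 x) (p0 x) uR pR (en γ rR pR) ≤ ε) : False := by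
  obtain ⟨N⟩ := exists_NP hγ B hL hR hcrit
  obtain ⟨ε, X, hε, hX, hno⟩ := no_sol hγ N (T := 1) one_pos
  obtain ⟨δ1, hδ1, h1⟩ := hleft ε hε
  obtain ⟨δ2, hδ2, h2⟩ := hright ε hε
  obtain ⟨s, hs⟩ : ∃ s, s = min T (min (δ1 / (2 * X)) (δ2 / (2 * X))) := ⟨_, rfl⟩
  have hs0 : 0 < s := by
    rw [hs]
    exact lt_min hT (lt_min (by positivity) (by positivity))
  have hsT : s ≤ T := by rw [hs]; exact min_le_left _ _
  have hs1 : s ≤ δ1 / (2 * X) := by
    rw [hs]; exact (min_le_right _ _).trans (min_le_left _ _)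
  have hs2 : s ≤ δ2 / (2 * X) := by
    rw [hs]; exact (min_le_right _ _).trans (min_le_right _ _)
  have hs1' : s * X < δ1 := by
    have := (le_div_iff₀ (by positivity)).1 hs1
    have : 0 < s * X := by positivity
    linarith
  have hs2' : s * X < δ2 := by
    have := (le_div_iff₀ (by positivity)).1 hs2
    have : 0 < s * X := by positivity
    linarith
  have hsol := (h.scale x0 hs0).mono (T' := 1) (by rwa [le_div_iff₀ hs0, one_mul])
  have hq : Measure.QuasiMeasurePreserving (fun x : ℝ => x0 + s * x) volume volume := by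
    refine ⟨by fun_prop, ?_⟩
    have e : (fun x : ℝ => x0 + s * x) = (fun x => x0 + x) ∘ (fun x => s * x) := rfl
    rw [e, ← Measure.map_map (by fun_prop) (by fun_prop),
      Real.map_volume_mul_left hs0.ne', Measure.map_smul]
    have : Measure.map (fun x : ℝ => x0 + x) volume = volume :=
      map_add_left_eq_self volume x0
    rw [this]
    exact Measure.smul_absolutelyContinuous
  refine hno _ _ _ _ _ _ hsol ?_ ?_
  · filter_upwards [hq.ae h1] with x hx a1 a2
    refine hx ?_ ?_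
    · nlinarith
    · nlinarith
  · filter_upwards [hq.ae h2] with x hx a1 a2
    refine hx ?_ ?_
    · nlinarith
    · nlinarith

end

end Pool.Agent.helper23_Euler
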