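import Mathlib
import Pool.Agent.helper23_Euler.Scale

open MeasureTheory Set Filter Topology
open scoped ContDiff Convolution ENNReal

namespace Pool.Agent.helper23_Euler

noncomputable section

/-- integrated conservation law: Lipschitz in time with values in a dual space -/
theorem trace_flux {T : ℝ} {A F : ℝ × ℝ → ℝ} {A0 : ℝ → ℝ} {C : ℝ} (hA : Measurable A)
    (hF : Measurable F) (hA0 : Measurable A0) (hAC : ∀ z, |A z| ≤ C) (hFC : ∀ z, |F z| ≤ C)
    (hA0C : ∀ z, |A0 z| ≤ C) (h : WeakEq T A F A0) :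
    ∀ᵐ t : ℝ, 0 < t → t < T → ∀ x y : ℝ, |∫ s in x..y, (A (s, t) - A0 s)| ≤ 2 * C * t := by
  have hC : 0 ≤ C := le_trans (abs_nonneg _) (hAC 0)
  have hm1 := measurable_ext hA hA0
  have hm2 : Measurable (ext F (fun _ => 0)) := measurable_ext hF measurable_const
  have hb1 : ∀ z, |ext A A0 z| ≤ C := ext_prop (P := fun y => |y| ≤ C) hAC hA0C
  have hb2 : ∀ z, |ext F (fun _ => 0) z| ≤ C := ext_prop (P := fun y => |y| ≤ C) hFC (by simp [hC])
  have h1 := ae_tendsto_mol 0 (locInt_of_bdd hm1 hb1)
  rw [Measure.volume_eq_prod] at h1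
  have h2 : ∀ᵐ z : ℝ × ℝ ∂(volume.prod volume),
      Tendsto (fun n => mol (bump (0 + n)) (ext A A0) z.swap) atTop (𝓝 (ext A A0 z.swap)) :=
    (Measure.measurePreserving_swap).quasiMeasurePreserving.ae h1
  have h3 := Measure.ae_ae_of_ae_prod h2
  have smP : ∀ n, ContDiff ℝ ∞ (mol (bump n) (ext A A0)) := fun n =>
    contDiff_mol (locInt_of_bdd hm1 hb1)
  have smQ : ∀ n, ContDiff ℝ ∞ (mol (bump n) (ext F (fun _ => 0))) := fun n =>
    contDiff_mol (locInt_of_bdd hm2 hb2)
  have bP : ∀ n z, |mol (bump n) (ext A A0) z| ≤ C := fun n z =>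
    abs_le.2 (mol_mono_const hm1 (fun z => abs_le.1 (hb1 z)) z)
  have bQ : ∀ n z, |mol (bump n) (ext F (fun _ => 0)) z| ≤ C := fun n z =>
    abs_le.2 (mol_mono_const hm2 (fun z => abs_le.1 (hb2 z)) z)
  -- convergence of the integrals on good slices
  have conv : ∀ t : ℝ, (∀ᵐ s : ℝ, Tendsto (fun n => mol (bump (0 + n)) (ext A A0) (s, t)) atTop
      (𝓝 (ext A A0 (s, t)))) → ∀ x y : ℝ,
      Tendsto (fun n => ∫ s in x..y, mol (bump n) (ext A A0) (s, t)) atTop
        (𝓝 (∫ s in x..y, ext A A0 (s, t))) := by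
    intro t ht x y
    refine intervalIntegral.tendsto_integral_filter_of_dominated_convergence (fun _ => C) ?_ ?_
      ?_ ?_
    · refine Filter.Eventually.of_forall fun n => ?_
      exact (((smP n).continuous.comp
        (continuous_id.prodMk continuous_const))).aestronglyMeasurable
    · refine Filter.Eventually.of_forall fun n => Filter.Eventually.of_forall fun s _ => ?_
      exact bP n (s, t)
    · exact intervalIntegrable_const
    · filter_upwards [ht] with s hs _
      simpa using hs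
  filter_upwards [h3] with t ht ht0 htT x y
  have ht' : ∀ᵐ s : ℝ, Tendsto (fun n => mol (bump (0 + n)) (ext A A0) (s, t)) atTop
      (𝓝 (ext A A0 (s, t))) := ht
  -- comparison with a negative time
  have key : ∀ t' : ℝ, t' < 0 → (∀ᵐ s : ℝ, Tendsto (fun n => mol (bump (0 + n)) (ext A A0) (s, t'))
      atTop (𝓝 (ext A A0 (s, t')))) →
      |∫ s in x..y, (A (s, t) - A0 s)| ≤ 2 * C * (t - t') := by
    intro t' ht'0 hgood
    have c1 := conv t ht' x y
    have c2 := conv t' hgood x y
    have e1 : ∫ s in x..y, ext A A0 (s, t) = ∫ s in x..y, A (s, t) := by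
      congr 1
      ext s
      exact ext_of_pos (z := (s, t)) ht0
    have e2 : ∫ s in x..y, ext A A0 (s, t') = ∫ s in x..y, A0 s := by
      congr 1
      ext s
      exact ext_of_nonpos (z := (s, t')) ht'0.le
    rw [e1] at c1
    rw [e2] at c2
    have i1 : IntervalIntegrable (fun s => A (s, t)) volume x y :=
      (MeasureTheory.Measure.integrableOn_of_bounded (M := C) (by simp)
        (hA.comp (by fun_prop)).aestronglyMeasurable
        (Filter.Eventually.of_forall fun s => hAC (s, t))).intervalIntegrable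
    have i2 : IntervalIntegrable A0 volume x y :=
      (MeasureTheory.Measure.integrableOn_of_bounded (M := C) (by simp)
        hA0.aestronglyMeasurable
        (Filter.Eventually.of_forall fun s => hA0C s)).intervalIntegrable
    rw [intervalIntegral.integral_sub i1 i2]
    refine le_of_tendsto (c1.sub c2).abs ?_
    have hT1 : ∀ᶠ n in atTop, (bump n).rOut < T - t :=
      tendsto_bump.eventually (gt_mem_nhds (by linarith))
    filter_upwards [hT1] with n hn
    have hdiv : ∀ z ∈ region T (bump n), fderiv ℝ (mol (bump n) (ext A A0)) z (0, 1)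
        + fderiv ℝ (mol (bump n) (ext F (fun _ => 0))) z (1, 0) = 0 := fun z hz =>
      mol_div hA hF hA0 hAC hFC hA0C h z hz
    obtain ⟨ψ, d1, _, _⟩ := exists_label (smP n) (smQ n) hdiv
    have reg : ∀ x' τ : ℝ, τ ≤ t → ((x', τ) : ℝ × ℝ) ∈ region T (bump n) := by
      intro x' τ hτ
      show τ + (bump n).rOut < T
      linarith
    have ftc : ∀ τ : ℝ, τ ≤ t → ∫ s in x..y, mol (bump n) (ext A A0) (s, τ) =
        ψ (y, τ) - ψ (x, τ) := by
      intro τ hτ
      refine intervalIntegral.integral_eq_sub_of_hasDerivAt (f := fun s => ψ (s, τ)) ?_ ?_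
      · intro s _
        have h1 := d1 _ (reg s τ hτ)
        have h2 : HasDerivAt (fun s : ℝ => ((s, τ) : ℝ × ℝ)) ((1 : ℝ), (0 : ℝ)) s :=
          (hasDerivAt_id s).prodMk (hasDerivAt_const s τ)
        have h3 := h1.comp_hasDerivAt s h2
        have h4 : form (mol (bump n) (ext A A0)) (mol (bump n) (ext F (fun _ => 0))) (s, τ)
            ((1 : ℝ), (0 : ℝ)) = mol (bump n) (ext A A0) (s, τ) := by simp [form_apply]
        rw [h4] at h3
        exact h3
      · exact ((smP n).continuous.comp
          (continuous_id.prodMk continuous_const)).intervalIntegrable _ _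
    have lip : ∀ x' : ℝ, |ψ (x', t) - ψ (x', t')| ≤ C * (t - t') := by
      intro x'
      have h5 : ∀ τ ∈ Iic t, HasDerivWithinAt (fun τ => ψ (x', τ))
          (- mol (bump n) (ext F (fun _ => 0)) (x', τ)) (Iic t) τ := by
        intro τ hτ
        have h1 := d1 _ (reg x' τ hτ)
        have h2 : HasDerivAt (fun τ : ℝ => ((x', τ) : ℝ × ℝ)) ((0 : ℝ), (1 : ℝ)) τ :=
          (hasDerivAt_const τ x').prodMk (hasDerivAt_id τ)
        have h3 := h1.comp_hasDerivAt τ h2
        have h4 : form (mol (bump n) (ext A A0)) (mol (bump n) (ext F (fun _ => 0))) (x', τ)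
            ((0 : ℝ), (1 : ℝ)) = - mol (bump n) (ext F (fun _ => 0)) (x', τ) := by
          simp [form_apply]
        rw [h4] at h3
        exact h3.hasDerivWithinAt
      have h6 := (convex_Iic t).norm_image_sub_le_of_norm_hasDerivWithin_le
        (f := fun τ => ψ (x', τ)) (C := C) h5 (fun τ _ => by
          rw [norm_neg]; exact bQ n (x', τ)) (show t' ∈ Iic t by
            show t' ≤ t; linarith) (show t ∈ Iic t from le_refl t)
      simpa [Real.norm_eq_abs, abs_of_pos (show 0 < t - t' by linarith)] using h6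
    rw [ftc t le_rfl, ftc t' (by linarith)]
    have e3 : ψ (y, t) - ψ (x, t) - (ψ (y, t') - ψ (x, t')) =
        (ψ (y, t) - ψ (y, t')) - (ψ (x, t) - ψ (x, t')) := by ring
    rw [e3]
    calc _ ≤ |ψ (y, t) - ψ (y, t')| + |ψ (x, t) - ψ (x, t')| := abs_sub _ _
      _ ≤ C * (t - t') + C * (t - t') := add_le_add (lip y) (lip x)
      _ = _ := by ring
  refine le_of_forall_pos_le_add ?_
  intro ε hε
  obtain ⟨t', ht'1, ht'2⟩ := exists_mem_of_ae h3 (show -(ε / (2 * C + 1)) < 0 by
    have : 0 < ε / (2 * C + 1) := by positivity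
    linarith)
  refine (key t' ht'1.2 ht'2).trans ?_
  have h4 : 2 * C * (-t') ≤ (2 * C + 1) * (ε / (2 * C + 1)) := by
    have h5 : -t' ≤ ε / (2 * C + 1) := by linarith [ht'1.1]
    have h6 : 0 ≤ -t' := by linarith [ht'1.2]
    nlinarith
  have h7 : (2 * C + 1) * (ε / (2 * C + 1)) = ε := by field_simp
  linarith

/-- monotone majorant of the oscillation -/
lemma exists_mono {V : ℝ → ℝ} {a b C : ℝ} (hab : a ≤ b) (hC : 0 ≤ C)
    (hV : eVariationOn V (Icc a b) ≤ ENNReal.ofReal C) :
    ∃ m : ℝ → ℝ, Monotone m ∧ (∀ x, 0 ≤ m x ∧ m x ≤ C) ∧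
      ∀ x y, a ≤ x → x ≤ y → y ≤ b → |V y - V x| ≤ m y - m x := by
  have hfin : ∀ x, eVariationOn V (Icc a (clamp a b x)) ≠ ⊤ := by
    intro x
    have h1 : eVariationOn V (Icc a (clamp a b x)) ≤ eVariationOn V (Icc a b) :=
      eVariationOn.mono V (Icc_subset_Icc le_rfl (clamp_mem hab x).2)
    exact ne_top_of_le_ne_top ENNReal.ofReal_ne_top (h1.trans hV)
  refine ⟨fun x => (eVariationOn V (Icc a (clamp a b x))).toReal, ?_, ?_, ?_⟩
  · intro x y hxy
    refine ENNReal.toReal_mono (hfin y) (eVariationOn.mono V (Icc_subset_Icc le_rfl ?_))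
    unfold clamp
    exact max_le_max le_rfl (min_le_min le_rfl hxy)
  · intro x
    refine ⟨ENNReal.toReal_nonneg, ?_⟩
    refine ENNReal.toReal_le_of_le_ofReal hC ?_
    exact (eVariationOn.mono V (Icc_subset_Icc le_rfl (clamp_mem hab x).2)).trans hV
  · intro x y hx hxy hy
    simp only []
    have ex : clamp a b x = x := clamp_of_mem hx (hxy.trans hy)
    have ey : clamp a b y = y := clamp_of_mem (hx.trans hxy) hy
    have hfx := hfin x
    have hfy := hfin y
    rw [ex] at hfx
    rw [ey] at hfy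
    rw [ex, ey]
    have h1 := eVariationOn.Icc_add_Icc V (s := univ) hx hxy (mem_univ x)
    simp only [univ_inter] at h1
    have h2 : eVariationOn V (Icc x y) ≠ ⊤ := by
      refine ne_top_of_le_ne_top hfy ?_
      exact eVariationOn.mono V (Icc_subset_Icc hx le_rfl)
    have h3 : edist (V y) (V x) ≤ eVariationOn V (Icc x y) :=
      eVariationOn.edist_le V ⟨hxy, le_rfl⟩ ⟨le_rfl, hxy⟩
    have h4 : |V y - V x| ≤ (eVariationOn V (Icc x y)).toReal := by
      rw [edist_dist] at h3
      have := (ENNReal.ofReal_le_iff_le_toReal h2).1 h3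
      rwa [Real.dist_eq] at this
    rw [← h1, ENNReal.toReal_add hfx h2]
    linarith

lemma mono_shift {m : ℝ → ℝ} (hm : Monotone m) {C R r : ℝ} (hb : ∀ x, 0 ≤ m x ∧ m x ≤ C)
    (hr : 0 ≤ r) : ∫ x in (-R)..R, (m (x + r) - m x) ≤ r * C := by
  have hi : ∀ a b : ℝ, IntervalIntegrable m volume a b := fun a b => hm.intervalIntegrable
  have hi2 : ∀ a b : ℝ, IntervalIntegrable (fun x => m (x + r)) volume a b := fun a b =>
    (hm.comp (fun x y h => by simpa using h) : Monotone (fun x => m (x + r))).intervalIntegrable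
  rw [intervalIntegral.integral_sub (hi2 _ _) (hi _ _), intervalIntegral.integral_comp_add_right]
  have e1 : ∫ x in (-R + r)..(R + r), m x = (∫ x in (-R + r)..R, m x) + ∫ x in R..(R + r), m x :=
    (intervalIntegral.integral_add_adjacent_intervals (hi _ _) (hi _ _)).symm
  have e2 : ∫ x in (-R)..R, m x = (∫ x in (-R)..(-R + r), m x) + ∫ x in (-R + r)..R, m x :=
    (intervalIntegral.integral_add_adjacent_intervals (hi _ _) (hi _ _)).symm
  rw [e1, e2]
  have e3 : ∫ x in R..(R + r), m x ≤ ∫ x in R..(R + r), C :=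
    intervalIntegral.integral_mono_on (by linarith) (hi _ _) intervalIntegrable_const
      fun x _ => (hb x).2
  have e4 : 0 ≤ ∫ x in (-R)..(-R + r), m x :=
    intervalIntegral.integral_nonneg (by linarith) fun x _ => (hb x).1
  rw [intervalIntegral.integral_const, smul_eq_mul] at e3
  have e5 : (R + r - R) * C = r * C := by ring
  linarith

/-- the initial datum is attained in the strong sense -/
theorem trace_L1 {T : ℝ} {A F : ℝ × ℝ → ℝ} {A0 : ℝ → ℝ} {C : ℝ} (hT : 0 < T) (hA : Measurable A)
    (hF : Measurable F) (hA0 : Measurable A0) (hAC : ∀ z, |A z| ≤ C) (hFC : ∀ z, |F z| ≤ C)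
    (hA0C : ∀ z, |A0 z| ≤ C) (h : WeakEq T A F A0) {R : ℝ} (hR : 0 < R) {CV C0 : ℝ}
    (hCV : 0 ≤ CV) (hC0 : 0 ≤ C0)
    (hBV : ∀ᵐ t : ℝ, 0 < t → t < T → ∃ V : ℝ → ℝ, (∀ᵐ x : ℝ, A (x, t) = V x) ∧
      eVariationOn V (Icc (-R) (R + 1)) ≤ ENNReal.ofReal CV)
    (hBV0 : eVariationOn A0 (Icc (-R) (R + 1)) ≤ ENNReal.ofReal C0) {ε : ℝ} (hε : 0 < ε) :
    ∃ ν, 0 < ν ∧ ν < T ∧ ∀ᵐ t : ℝ, 0 < t → t < ν → ∫ x in (-R)..R, |A (x, t) - A0 x| ≤ ε := by
  have hC : 0 ≤ C := le_trans (abs_nonneg _) (hAC 0)
  obtain ⟨m0, hm0, hm0b, hm0v⟩ := exists_mono (by linarith) hC0 hBV0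
  -- choose r and ν
  obtain ⟨r, hr⟩ : ∃ r, r = min 1 (ε / (2 * (CV + C0 + 1))) := ⟨_, rfl⟩
  have hr0 : 0 < r := by rw [hr]; exact lt_min one_pos (by positivity)
  have hr1 : r ≤ 1 := by rw [hr]; exact min_le_left _ _
  have hr2 : r ≤ ε / (2 * (CV + C0 + 1)) := by rw [hr]; exact min_le_right _ _
  obtain ⟨ν, hν⟩ : ∃ ν, ν = min (T / 2) (ε * r / (8 * R * (C + 1))) := ⟨_, rfl⟩
  have hν0 : 0 < ν := by rw [hν]; exact lt_min (by positivity) (by positivity)
  have hν1 : ν ≤ T / 2 := by rw [hν]; exact min_le_left _ _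
  have hν2 : ν ≤ ε * r / (8 * R * (C + 1)) := by rw [hν]; exact min_le_right _ _
  refine ⟨ν, hν0, by linarith, ?_⟩
  filter_upwards [trace_flux hA hF hA0 hAC hFC hA0C h, hBV] with t h1 h2 ht0 htν
  have h1' := h1 ht0 (by linarith)
  obtain ⟨V, hV, hVv⟩ := h2 ht0 (by linarith)
  obtain ⟨m, hm, hmb, hmv⟩ := exists_mono (by linarith) hCV hVv
  -- pointwise bound
  have hpt : ∀ᵐ x : ℝ, x ∈ Icc (-R) R → |A (x, t) - A0 x| ≤
      (m (x + r) - m x) + (m0 (x + r) - m0 x) + 2 * C * t / r := by
    filter_upwards [hV] with x hx hxR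
    have hVi : IntervalIntegrable V volume x (x + r) := by
      have i1 : IntervalIntegrable (fun s => A (s, t)) volume x (x + r) :=
        (MeasureTheory.Measure.integrableOn_of_bounded (M := C) (by simp)
          (hA.comp (by fun_prop)).aestronglyMeasurable
          (Filter.Eventually.of_forall fun s => hAC (s, t))).intervalIntegrable
      refine i1.congr_ae ?_
      exact ae_restrict_of_ae hV
    have hA0i : IntervalIntegrable A0 volume x (x + r) :=
      (MeasureTheory.Measure.integrableOn_of_bounded (M := C) (by simp)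
        hA0.aestronglyMeasurable
        (Filter.Eventually.of_forall fun s => hA0C s)).intervalIntegrable
    have e1 : ∫ s in x..(x + r), (A (s, t) - A0 s) = ∫ s in x..(x + r), (V s - A0 s) := by
      refine intervalIntegral.integral_congr_ae ?_
      filter_upwards [hV] with s hs _
      rw [hs]
    have e2 := h1' x (x + r)
    rw [e1] at e2
    rw [hx]
    have e3 : |∫ s in x..(x + r), ((V x - A0 x) - (V s - A0 s))| ≤
        r * ((m (x + r) - m x) + (m0 (x + r) - m0 x)) := by
      have h3 := intervalIntegral.norm_integral_le_of_norm_le_const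
        (f := fun s => (V x - A0 x) - (V s - A0 s)) (a := x) (b := x + r)
        (C := (m (x + r) - m x) + (m0 (x + r) - m0 x)) ?_
      · rw [Real.norm_eq_abs, add_sub_cancel_left, abs_of_pos hr0] at h3
        linarith
      · intro s hs
        rw [uIoc_of_le (by linarith)] at hs
        have k1 := hmv x s hxR.1 hs.1.le (by linarith [hs.2, hxR.2])
        have k2 := hm0v x s hxR.1 hs.1.le (by linarith [hs.2, hxR.2])
        have k3 := hm hs.2
        have k4 := hm0 hs.2
        rw [Real.norm_eq_abs]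
        have e : V x - A0 x - (V s - A0 s) = -(V s - V x) + (A0 s - A0 x) := by ring
        rw [e]
        refine (abs_add_le _ _).trans ?_
        rw [abs_neg]
        linarith
    have e4 : ∫ s in x..(x + r), ((V x - A0 x) - (V s - A0 s)) =
        r * (V x - A0 x) - ∫ s in x..(x + r), (V s - A0 s) := by
      rw [intervalIntegral.integral_sub intervalIntegrable_const (hVi.sub hA0i),
        intervalIntegral.integral_const, smul_eq_mul]
      ring
    rw [e4] at e3
    have e5 : |r * (V x - A0 x)| ≤ r * ((m (x + r) - m x) + (m0 (x + r) - m0 x)) + 2 * C * t := by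
      have := abs_add_le (r * (V x - A0 x) - ∫ s in x..(x + r), (V s - A0 s))
        (∫ s in x..(x + r), (V s - A0 s))
      rw [sub_add_cancel] at this
      linarith
    rw [abs_mul, abs_of_pos hr0] at e5
    have e6 : |V x - A0 x| ≤ (r * ((m (x + r) - m x) + (m0 (x + r) - m0 x)) + 2 * C * t) / r := by
      rw [le_div_iff₀ hr0]
      linarith
    refine e6.trans (le_of_eq ?_)
    field_simp
  have hi : ∀ a b : ℝ, IntervalIntegrable m volume a b := fun a b => hm.intervalIntegrable
  have hi0 : ∀ a b : ℝ, IntervalIntegrable m0 volume a b := fun a b => hm0.intervalIntegrable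
  have hi' : ∀ a b : ℝ, IntervalIntegrable (fun x => m (x + r)) volume a b := fun a b =>
    (hm.comp (fun x y h => by simpa using h) : Monotone (fun x => m (x + r))).intervalIntegrable
  have hi0' : ∀ a b : ℝ, IntervalIntegrable (fun x => m0 (x + r)) volume a b := fun a b =>
    (hm0.comp (fun x y h => by simpa using h) : Monotone (fun x => m0 (x + r))).intervalIntegrable
  have hiD : IntervalIntegrable (fun x => |A (x, t) - A0 x|) volume (-R) R :=
    (MeasureTheory.Measure.integrableOn_of_bounded (M := C + C) (by simp)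
      (((hA.comp (by fun_prop)).sub hA0).norm).aestronglyMeasurable
      (Filter.Eventually.of_forall fun s => by
        rw [norm_norm]
        exact (abs_sub _ _).trans (add_le_add (hAC _) (hA0C _)))).intervalIntegrable
  have e7 : ∫ x in (-R)..R, |A (x, t) - A0 x| ≤ ∫ x in (-R)..R,
      ((m (x + r) - m x) + (m0 (x + r) - m0 x) + 2 * C * t / r) := by
    refine intervalIntegral.integral_mono_ae_restrict (by linarith) hiD ?_ ?_
    · exact (((hi' _ _).sub (hi _ _)).add ((hi0' _ _).sub (hi0 _ _))).add intervalIntegrable_const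
    · rw [Filter.EventuallyLE, ae_restrict_iff' measurableSet_Icc]
      exact hpt
  refine e7.trans ?_
  rw [intervalIntegral.integral_add (((hi' _ _).sub (hi _ _)).add ((hi0' _ _).sub (hi0 _ _)))
    intervalIntegrable_const, intervalIntegral.integral_add ((hi' _ _).sub (hi _ _))
    ((hi0' _ _).sub (hi0 _ _)), intervalIntegral.integral_const, smul_eq_mul]
  have f1 := mono_shift (R := R) hm hmb hr0.le
  have f2 := mono_shift (R := R) hm0 hm0b hr0.le
  have f3 : r * CV + r * C0 ≤ ε / 2 := by
    have := (le_div_iff₀ (by positivity)).1 hr2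
    nlinarith
  have f4 : (R - -R) * (2 * C * t / r) ≤ ε / 2 := by
    have h5 := (le_div_iff₀ (by positivity)).1 hν2
    have h6 : (R - -R) * (2 * C * t / r) = (t * (4 * R * C)) / r := by
      field_simp
      ring
    rw [h6, div_le_iff₀ hr0]
    have h7 : t * (4 * R * C) ≤ ν * (4 * R * (C + 1)) := by
      have : C ≤ C + 1 := by linarith
      gcongr
    linarith
  linarith

end

end Pool.Agent.helper23_Euler
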