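import Mathlib
import Pool.Agent.helper23_Euler.Trace

open MeasureTheory Set Filter Topology
open scoped ContDiff Convolution ENNReal

namespace Pool.Agent.helper23_Euler

noncomputable section

/-- a smooth step in time: `0` before `ν/2`, `1` after `ν` -/
def tst (ν t : ℝ) : ℝ := Real.smoothTransition (2 * t / ν - 1)

section tst

variable {ν : ℝ}

lemma tst_smooth : ContDiff ℝ ∞ (tst ν) := by
  unfold tst
  exact Real.smoothTransition.contDiff.comp
    (((contDiff_const.mul contDiff_id).div_const _).sub contDiff_const)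

lemma tst_mono (hν : 0 < ν) : Monotone (tst ν) := by
  intro s t hst
  unfold tst
  apply Real.smoothTransition.monotone
  gcongr

lemma tst_one (hν : 0 < ν) {t : ℝ} (ht : ν ≤ t) : tst ν t = 1 := by
  unfold tst
  apply Real.smoothTransition.one_of_one_le
  have : 2 ≤ 2 * t / ν := by
    rw [le_div_iff₀ hν]
    linarith
  linarith

lemma tst_zero (hν : 0 < ν) {t : ℝ} (ht : t ≤ ν / 2) : tst ν t = 0 := by
  unfold tst
  apply Real.smoothTransition.zero_of_nonpos
  have : 2 * t / ν ≤ 1 := by
    rw [div_le_iff₀ hν]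
    linarith
  linarith

lemma tst_hasDeriv (t : ℝ) : HasDerivAt (tst ν) (deriv (tst ν) t) t :=
  (tst_smooth.differentiable (by simp) t).hasDerivAt

lemma tst_deriv_nonneg (hν : 0 < ν) (t : ℝ) : 0 ≤ deriv (tst ν) t := (tst_mono hν).deriv_nonneg

lemma tst_deriv_zero (hν : 0 < ν) {t : ℝ} (ht : ν < t) : deriv (tst ν) t = 0 := by
  have : tst ν =ᶠ[𝓝 t] fun _ => 1 := by
    filter_upwards [lt_mem_nhds ht] with s hs
    exact tst_one hν hs.le
  rw [this.deriv_eq]
  simp

lemma tst_deriv_cont : Continuous (deriv (tst ν)) := tst_smooth.continuous_deriv (by simp)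

lemma tst_tendsto (hν : 0 < ν) : Tendsto (tst ν) atTop (𝓝 1) := by
  refine tendsto_const_nhds.congr' ?_
  filter_upwards [eventually_ge_atTop ν] with t ht
  exact (tst_one hν ht).symm

lemma tst_deriv_int (hν : 0 < ν) : IntegrableOn (deriv (tst ν)) (Ioi 0) :=
  integrableOn_Ioi_deriv_of_nonneg' (fun t _ => tst_hasDeriv t)
    (fun t _ => tst_deriv_nonneg hν t) (tst_tendsto hν)

lemma tst_integral (hν : 0 < ν) : ∫ t in Ioi 0, deriv (tst ν) t = 1 := by
  rw [integral_Ioi_of_hasDerivAt_of_nonneg' (fun t _ => tst_hasDeriv t)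
    (fun t _ => tst_deriv_nonneg hν t) (tst_tendsto hν), tst_zero hν (by linarith), sub_zero]

end tst

/-- cutting off a test function near the initial time -/
lemma isTest_cut {T ν : ℝ} (hν : 0 < ν) {φ : ℝ × ℝ → ℝ} (hφ : IsTest T φ) :
    IsTest T (fun z => φ z * tst ν z.2) ∧ tsupport (fun z => φ z * tst ν z.2) ⊆ up := by
  have hsub : tsupport (fun z => φ z * tst ν z.2) ⊆ tsupport φ ∩ {z | ν / 2 ≤ z.2} := by
    refine closure_minimal ?_ ((isClosed_tsupport φ).inter
      (isClosed_le continuous_const continuous_snd))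
    intro z hz
    constructor
    · apply subset_tsupport
      intro h0
      apply hz
      simp [h0]
    · by_contra h'
      apply hz
      have h1 : z.2 ≤ ν / 2 := (not_le.1 h').le
      simp [tst_zero hν h1]
  refine ⟨⟨hφ.smooth.mul (tst_smooth.comp contDiff_snd), ?_, ?_⟩, ?_⟩
  · exact HasCompactSupport.of_support_subset_isCompact hφ.cpt.isCompact
      ((subset_tsupport _).trans (hsub.trans inter_subset_left))
  · exact (hsub.trans inter_subset_left).trans hφ.supp
  · intro z hz
    have h1 : ν / 2 ≤ z.2 := (hsub hz).2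
    show 0 < z.2
    linarith

lemma dt_cut {ν : ℝ} {φ : ℝ × ℝ → ℝ} (hφ : ContDiff ℝ ∞ φ) (z : ℝ × ℝ) :
    dt (fun z => φ z * tst ν z.2) z = dt φ z * tst ν z.2 + φ z * deriv (tst ν) z.2 := by
  obtain ⟨x, t⟩ := z
  have hd : Differentiable ℝ (fun z : ℝ × ℝ => φ z * tst ν z.2) :=
    (hφ.mul (tst_smooth.comp contDiff_snd)).differentiable (by simp)
  have h1 := hasDerivAt_slice_t hd x t
  have h2 := (hasDerivAt_slice_t (hφ.differentiable (by simp)) x t).mul
    (tst_hasDeriv (ν := ν) t)
  exact h1.unique h2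

lemma dx_cut {ν : ℝ} {φ : ℝ × ℝ → ℝ} (hφ : ContDiff ℝ ∞ φ) (z : ℝ × ℝ) :
    dx (fun z => φ z * tst ν z.2) z = dx φ z * tst ν z.2 := by
  obtain ⟨x, t⟩ := z
  have hd : Differentiable ℝ (fun z : ℝ × ℝ => φ z * tst ν z.2) :=
    (hφ.mul (tst_smooth.comp contDiff_snd)).differentiable (by simp)
  have h1 := hasDerivAt_slice_x hd x t
  have h2 := (hasDerivAt_slice_x (hφ.differentiable (by simp)) x t).mul_const (tst ν t)
  exact h1.unique h2

lemma up_eq : (up : Set (ℝ × ℝ)) = univ ×ˢ Ioi 0 := by
  ext z; simp [up]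

lemma restrict_up : (volume.restrict up : Measure (ℝ × ℝ)) =
    (volume : Measure ℝ).prod (volume.restrict (Ioi (0 : ℝ))) := by
  rw [up_eq, Measure.volume_eq_prod, ← Measure.prod_restrict, Measure.restrict_univ]

/-- the entropy inequality holds up to the initial time if the datum is strongly attained -/
theorem entropy_init {T : ℝ} {E Q : ℝ × ℝ → ℝ} {E0 : ℝ → ℝ} {C : ℝ} (hE : Measurable E)
    (hQ : Measurable Q) (hE0 : Measurable E0) (hEC : ∀ z, |E z| ≤ C) (hQC : ∀ z, |Q z| ≤ C)
    (hE0C : ∀ z, |E0 z| ≤ C)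
    (hint : ∀ φ, IsTest T φ → (∀ z, 0 ≤ φ z) → tsupport φ ⊆ up →
      ∫ z in up, (E z * dt φ z + Q z * dx φ z) ≤ 0)
    (htr : ∀ R, 0 < R → ∀ ε, 0 < ε → ∃ ν, 0 < ν ∧
      ∀ᵐ t : ℝ, 0 < t → t < ν → ∫ x in (-R)..R, |E (x, t) - E0 x| ≤ ε) : WeakLe T E Q E0 := by
  intro φ hφ hφ0
  have hC : 0 ≤ C := le_trans (abs_nonneg _) (hEC 0)
  obtain ⟨D, hD0, hD⟩ := exists_bound_self hφ.continuous hφ.cpt
  obtain ⟨D', hD'0, hD'⟩ := exists_bound_dt hφ.smooth hφ.cpt
  obtain ⟨X, hX⟩ := hφ.cpt.isCompact.isBounded.subset_closedBall 0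
  obtain ⟨R, hR⟩ : ∃ R, R = |X| + 1 := ⟨_, rfl⟩
  have hR0 : 0 < R := by rw [hR]; positivity
  have hzero : ∀ x t : ℝ, R ≤ |x| → φ (x, t) = 0 := by
    intro x t hx
    apply image_eq_zero_of_notMem_tsupport
    intro h'
    have h1 := hX h'
    rw [mem_closedBall_zero_iff] at h1
    have h2 : |x| ≤ X := (norm_fst_le (x, t)).trans h1
    have := le_abs_self X
    linarith
  have hlip : ∀ x t : ℝ, |φ (x, t) - φ (x, 0)| ≤ D' * |t| := by
    intro x t
    have h1 := (convex_univ (𝕜 := ℝ) (E := ℝ)).norm_image_sub_le_of_norm_hasDerivWithin_le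
      (f := fun s => φ (x, s)) (f' := fun s => dt φ (x, s)) (C := D')
      (fun s _ => (hasDerivAt_slice_t hφ.diff x s).hasDerivWithinAt)
      (fun s _ => hD' (x, s)) (mem_univ 0) (mem_univ t)
    simpa using h1
  obtain ⟨G0, hG0⟩ : ∃ G0, G0 = ∫ x, E0 x * φ (x, 0) := ⟨_, rfl⟩
  rw [← hG0]
  set I := ∫ z in up, (E z * dt φ z + Q z * dx φ z) with hI
  -- integrability
  have iF : Integrable (fun z => E z * dt φ z + Q z * dx φ z) :=
    (integrable_mul_dt hE hEC hφ.smooth hφ.cpt).add (integrable_mul_dx hQ hQC hφ.smooth hφ.cpt)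
  refine le_of_forall_pos_le_add ?_
  intro ε hε
  obtain ⟨ν1, hν1, htr1⟩ := htr R hR0 (ε / (2 * (D + 1))) (by positivity)
  obtain ⟨ν0, hν0⟩ : ∃ ν0, ν0 = min ν1 (ε / (2 * (C * (2 * R) * (D' + 1) + 1))) := ⟨_, rfl⟩
  have hν00 : 0 < ν0 := by rw [hν0]; exact lt_min hν1 (by positivity)
  have hν01 : ν0 ≤ ν1 := by rw [hν0]; exact min_le_left _ _
  have hν02 : ν0 ≤ ε / (2 * (C * (2 * R) * (D' + 1) + 1)) := by
    rw [hν0]; exact min_le_right _ _
  -- the slices
  set G : ℝ → ℝ := fun t => ∫ x, E (x, t) * φ (x, t) with hG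
  have hslice : ∀ᵐ t : ℝ, 0 < t → t < ν0 → |G t - G0| ≤ ε := by
    filter_upwards [htr1] with t ht ht0 htν
    have ht' := ht ht0 (by linarith)
    have hsl : ∀ s : ℝ, Continuous (fun x => φ (x, s)) := fun s =>
      hφ.continuous.comp (continuous_id.prodMk continuous_const)
    have hEm : Measurable (fun x => E (x, t)) := hE.comp (by fun_prop)
    have i1 : Integrable (fun x => E (x, t) * φ (x, t)) := by
      refine integrable_of_bdd_cpt (C := C * D)
        (hEm.mul (hsl t).measurable).aestronglyMeasurable ?_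
        (isCompact_Icc (a := -R) (b := R)) ?_
      · intro x
        rw [Real.norm_eq_abs, abs_mul]
        exact mul_le_mul (hEC _) (hD _) (abs_nonneg _) hC
      · intro x hx
        rw [hzero x t, mul_zero]
        by_contra h'
        exact hx (abs_le.1 (not_le.1 h').le)
    have i2 : Integrable (fun x => E0 x * φ (x, 0)) := by
      refine integrable_of_bdd_cpt (C := C * D)
        (hE0.mul (hsl 0).measurable).aestronglyMeasurable ?_
        (isCompact_Icc (a := -R) (b := R)) ?_
      · intro x
        rw [Real.norm_eq_abs, abs_mul]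
        exact mul_le_mul (hE0C _) (hD _) (abs_nonneg _) hC
      · intro x hx
        rw [hzero x 0, mul_zero]
        by_contra h'
        exact hx (abs_le.1 (not_le.1 h').le)
    have hiD : IntervalIntegrable (fun x => |E (x, t) - E0 x|) volume (-R) R :=
      (MeasureTheory.Measure.integrableOn_of_bounded (M := C + C) (by simp)
        (((hEm).sub hE0).norm).aestronglyMeasurable
        (Filter.Eventually.of_forall fun s => by
          rw [norm_norm]
          exact (abs_sub _ _).trans (add_le_add (hEC _) (hE0C _)))).intervalIntegrable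
    have e1 : G t - G0 = ∫ x, (E (x, t) * φ (x, t) - E0 x * φ (x, 0)) := by
      rw [hG0, integral_sub i1 i2]
    have e2 : ∫ x, (E (x, t) * φ (x, t) - E0 x * φ (x, 0)) =
        ∫ x in (-R)..R, (E (x, t) * φ (x, t) - E0 x * φ (x, 0)) := by
      rw [intervalIntegral.integral_of_le (by linarith)]
      symm
      refine setIntegral_eq_integral_of_forall_compl_eq_zero ?_
      intro x hx
      have hx' : R ≤ |x| := by
        by_contra h'
        have h1 := abs_lt.1 (not_le.1 h')
        exact hx ⟨h1.1, h1.2.le⟩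
      rw [hzero x t hx', hzero x 0 hx', mul_zero, mul_zero, sub_zero]
    rw [e1, e2]
    have e3 : |∫ x in (-R)..R, (E (x, t) * φ (x, t) - E0 x * φ (x, 0))| ≤
        ∫ x in (-R)..R, (|E (x, t) - E0 x| * D + C * (D' * t)) := by
      refine (intervalIntegral.abs_integral_le_integral_abs (by linarith)).trans ?_
      refine intervalIntegral.integral_mono_on (by linarith) ?_ ?_ ?_
      · exact (i1.sub i2).abs.intervalIntegrable
      · exact (hiD.mul_const D).add intervalIntegrable_const
      · intro x _
        have e4 : E (x, t) * φ (x, t) - E0 x * φ (x, 0) =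
            (E (x, t) - E0 x) * φ (x, t) + E0 x * (φ (x, t) - φ (x, 0)) := by ring
        rw [e4]
        refine (abs_add_le _ _).trans (add_le_add ?_ ?_)
        · rw [abs_mul]
          exact mul_le_mul_of_nonneg_left (hD _) (abs_nonneg _)
        · rw [abs_mul]
          have := hlip x t
          rw [abs_of_pos ht0] at this
          exact mul_le_mul (hE0C x) this (abs_nonneg _) hC
    refine e3.trans ?_
    rw [intervalIntegral.integral_add (hiD.mul_const D) intervalIntegrable_const,
      intervalIntegral.integral_mul_const, intervalIntegral.integral_const, smul_eq_mul]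
    have e5 : (∫ x in (-R)..R, |E (x, t) - E0 x|) * D ≤ ε / 2 := by
      have h1 : (∫ x in (-R)..R, |E (x, t) - E0 x|) * D ≤ (ε / (2 * (D + 1))) * D :=
        mul_le_mul_of_nonneg_right ht' hD0
      have h2 : (ε / (2 * (D + 1))) * D ≤ ε / 2 := by
        rw [div_mul_eq_mul_div, div_le_iff₀ (by positivity)]
        nlinarith
      linarith
    have e6 : (R - -R) * (C * (D' * t)) ≤ ε / 2 := by
      have h1 := (le_div_iff₀ (by positivity)).1 hν02
      have h2 : (R - -R) * (C * (D' * t)) = t * (C * (2 * R) * D') := by ring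
      rw [h2]
      have h3 : t * (C * (2 * R) * D') ≤ ν0 * (C * (2 * R) * (D' + 1) + 1) := by
        have h4 : C * (2 * R) * D' ≤ C * (2 * R) * (D' + 1) + 1 := by nlinarith [mul_nonneg hC hR0.le]
        have h5 : 0 ≤ C * (2 * R) * D' := by positivity
        exact mul_le_mul htν.le h4 h5 hν00.le
      linarith
    linarith
  -- the inequality with the cut-off
  have hcut : ∀ ν, 0 < ν → ν < ν0 →
      (∫ z in up, (E z * dt φ z + Q z * dx φ z) * tst ν z.2) + G0 ≤ ε := by
    intro ν hν hνν
    obtain ⟨k1, k2⟩ := isTest_cut hν hφ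
    have h1 := hint _ k1 (fun z => mul_nonneg (hφ0 z) (Real.smoothTransition.nonneg _)) k2
    have e1 : ∀ z : ℝ × ℝ, E z * dt (fun z => φ z * tst ν z.2) z
        + Q z * dx (fun z => φ z * tst ν z.2) z =
        (E z * dt φ z + Q z * dx φ z) * tst ν z.2 + E z * φ z * deriv (tst ν) z.2 := by
      intro z
      rw [dt_cut hφ.smooth, dx_cut hφ.smooth]
      ring
    simp only [e1] at h1
    obtain ⟨Dν, hDν⟩ : ∃ Dν, ∀ t ∈ Icc (-|X|) |X|, ‖deriv (tst ν) t‖ ≤ Dν :=
      isCompact_Icc.exists_bound_of_continuousOn tst_deriv_cont.continuousOn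
    have i1 : Integrable (fun z : ℝ × ℝ => (E z * dt φ z + Q z * dx φ z) * tst ν z.2) := by
      refine iF.mul_bdd (c := 1) ((tst_smooth.continuous.comp continuous_snd).aestronglyMeasurable)
        (Filter.Eventually.of_forall fun z => ?_)
      show ‖tst ν z.2‖ ≤ 1
      unfold tst
      rw [Real.norm_eq_abs, abs_of_nonneg (Real.smoothTransition.nonneg _)]
      exact Real.smoothTransition.le_one _
    have hsuppz : ∀ z : ℝ × ℝ, z ∉ Metric.closedBall (0 : ℝ × ℝ) |X| → φ z = 0 := by
      intro z hz
      apply image_eq_zero_of_notMem_tsupport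
      intro h'
      apply hz
      have h1 := hX h'
      rw [mem_closedBall_zero_iff] at h1 ⊢
      exact h1.trans (le_abs_self X)
    have i2 : Integrable (fun z : ℝ × ℝ => E z * φ z * deriv (tst ν) z.2) := by
      refine integrable_of_bdd_cpt (C := C * D * |Dν|)
        ((hE.mul hφ.continuous.measurable).mul
          (tst_deriv_cont.measurable.comp measurable_snd)).aestronglyMeasurable ?_
        (isCompact_closedBall (0 : ℝ × ℝ) |X|) ?_
      · intro z
        by_cases hz : z ∈ Metric.closedBall (0 : ℝ × ℝ) |X|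
        · rw [Real.norm_eq_abs, abs_mul, abs_mul]
          rw [mem_closedBall_zero_iff] at hz
          have hz2 : z.2 ∈ Icc (-|X|) |X| := abs_le.1 ((norm_snd_le z).trans hz)
          have h2 := (hDν z.2 hz2).trans (le_abs_self Dν)
          rw [Real.norm_eq_abs] at h2
          exact mul_le_mul (mul_le_mul (hEC _) (hD _) (abs_nonneg _) hC) h2 (abs_nonneg _)
            (by positivity)
        · rw [hsuppz z hz]
          simp only [mul_zero, zero_mul, norm_zero]
          positivity
      · intro z hz
        rw [hsuppz z hz]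
        simp
    rw [integral_add i1.integrableOn i2.integrableOn] at h1
    have e2 : ∫ z in up, E z * φ z * deriv (tst ν) z.2 =
        ∫ t in Ioi 0, G t * deriv (tst ν) t := by
      have i2' : Integrable (fun z : ℝ × ℝ => E z * φ z * deriv (tst ν) z.2)
          ((volume : Measure ℝ).prod (volume.restrict (Ioi (0 : ℝ)))) := by
        rw [← restrict_up]
        exact i2.integrableOn
      rw [restrict_up, integral_prod_symm _ i2']
      congr 1
      ext t
      simp only []
      rw [integral_mul_const]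
    have iG : IntegrableOn (fun t => G t * deriv (tst ν) t) (Ioi 0) := by
      have i2' : Integrable (fun z : ℝ × ℝ => E z * φ z * deriv (tst ν) z.2)
          ((volume : Measure ℝ).prod (volume.restrict (Ioi (0 : ℝ)))) := by
        rw [← restrict_up]
        exact i2.integrableOn
      have := i2'.integral_prod_right
      refine this.congr (Filter.Eventually.of_forall fun t => ?_)
      simp only []
      rw [integral_mul_const]
    have e3 : |(∫ t in Ioi 0, G t * deriv (tst ν) t) - G0| ≤ ε := by
      have e4 : (∫ t in Ioi 0, G t * deriv (tst ν) t) - G0 =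
          ∫ t in Ioi 0, (G t - G0) * deriv (tst ν) t := by
        have e5 : G0 = ∫ t in Ioi 0, G0 * deriv (tst ν) t := by
          rw [integral_const_mul, tst_integral hν, mul_one]
        conv_lhs => rw [e5]
        rw [← integral_sub iG ((tst_deriv_int hν).const_mul G0)]
        congr 1
        ext t
        ring
      rw [e4]
      calc |∫ t in Ioi 0, (G t - G0) * deriv (tst ν) t|
          ≤ ∫ t in Ioi 0, ε * deriv (tst ν) t := by
            rw [← Real.norm_eq_abs]
            refine norm_integral_le_of_norm_le ((tst_deriv_int hν).const_mul ε) ?_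
            rw [ae_restrict_iff' measurableSet_Ioi]
            filter_upwards [hslice] with t ht ht0
            rw [Real.norm_eq_abs, abs_mul, abs_of_nonneg (tst_deriv_nonneg hν t)]
            by_cases h2 : t < ν0
            · exact mul_le_mul_of_nonneg_right (ht ht0 h2) (tst_deriv_nonneg hν t)
            · rw [tst_deriv_zero hν (lt_of_lt_of_le hνν (not_lt.1 h2)), mul_zero, mul_zero]
        _ = ε := by rw [integral_const_mul, tst_integral hν, mul_one]
    rw [e2] at h1
    have := (abs_le.1 e3).1
    linarith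
  -- let the cut-off disappear
  have hlim : Tendsto (fun n : ℕ => ∫ z in up, (E z * dt φ z + Q z * dx φ z)
      * tst (1 / ((n : ℝ) + 1)) z.2) atTop (𝓝 I) := by
    refine tendsto_integral_of_dominated_convergence
      (fun z => |E z * dt φ z + Q z * dx φ z|) ?_ iF.abs.integrableOn ?_ ?_
    · intro n
      exact (iF.aestronglyMeasurable.mul
        ((tst_smooth.continuous.comp continuous_snd).aestronglyMeasurable)).restrict
    · intro n
      refine Filter.Eventually.of_forall fun z => ?_
      rw [Real.norm_eq_abs, abs_mul]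
      unfold tst
      rw [abs_of_nonneg (Real.smoothTransition.nonneg _)]
      exact mul_le_of_le_one_right (abs_nonneg _) (Real.smoothTransition.le_one _)
    · rw [ae_restrict_iff' measurableSet_up]
      refine Filter.Eventually.of_forall fun z hz => ?_
      have hz' : 0 < z.2 := hz
      refine tendsto_const_nhds.congr' ?_
      have h1 : ∀ᶠ n : ℕ in atTop, 1 / ((n : ℝ) + 1) < z.2 :=
        tendsto_one_div_add_atTop_nhds_zero_nat.eventually (gt_mem_nhds hz')
      filter_upwards [h1] with n hn
      rw [tst_one (by positivity) hn.le, mul_one]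
  have h1 : ∀ᶠ n : ℕ in atTop, 1 / ((n : ℝ) + 1) < ν0 :=
    tendsto_one_div_add_atTop_nhds_zero_nat.eventually (gt_mem_nhds hν00)
  have h2 : I + G0 ≤ ε := by
    refine le_of_tendsto (hlim.add_const G0) ?_
    filter_upwards [h1] with n hn
    exact hcut _ (by positivity) hn
  linarith

end

end Pool.Agent.helper23_Euler
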