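import Mathlib
import Pool.Agent.helper23_Euler.Defs
import Pool.Agent.helper23_Euler.EntInit

open MeasureTheory Set Filter Topology
open scoped ContDiff ENNReal NNReal

namespace Pool.Agent.helper23_Euler

noncomputable section

lemma continuous_dens : Continuous dens := continuous_fst
lemma continuous_mom : Continuous mom := continuous_fst.comp continuous_snd
lemma continuous_ener : Continuous ener := continuous_snd.comp continuous_snd

lemma isOpen_Om : IsOpen Om := by
  have h1 : Om = {U : St | 0 < dens U ∧ 0 < ener U * dens U - mom U ^ 2 / 2} := by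
    ext U
    simp only [Om, Set.mem_ofPred_eq]
    constructor
    · rintro ⟨h1, h2⟩
      refine ⟨h1, ?_⟩
      have h3 : eint U * dens U ^ 2 = ener U * dens U - mom U ^ 2 / 2 := by
        unfold eint vel
        field_simp
      rw [← h3]
      positivity
    · rintro ⟨h1, h2⟩
      refine ⟨h1, ?_⟩
      have h3 : eint U = (ener U * dens U - mom U ^ 2 / 2) / dens U ^ 2 := by
        unfold eint vel
        field_simp
      rw [h3]
      positivity
  rw [h1]
  exact (isOpen_lt continuous_const continuous_dens).inter
    (isOpen_lt continuous_const ((continuous_ener.mul continuous_dens).sub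
      ((continuous_mom.pow 2).div_const 2)))

lemma contOn_vel : ContinuousOn vel Om := by
  unfold vel
  exact continuous_mom.continuousOn.div continuous_dens.continuousOn fun U hU => hU.1.ne'

lemma contOn_eint : ContinuousOn eint Om := by
  unfold eint
  exact (continuous_ener.continuousOn.div continuous_dens.continuousOn fun U hU => hU.1.ne').sub
    ((contOn_vel.pow 2).div_const 2)

lemma contOn_pres {γ : ℝ} : ContinuousOn (pres γ) Om := by
  unfold pres
  exact (continuousOn_const.mul continuous_dens.continuousOn).mul contOn_eint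

lemma pres_pos {γ : ℝ} (hγ : 1 < γ) {U : St} (hU : U ∈ Om) : 0 < pres γ U := by
  have h1 := hU.1
  have h2 := hU.2
  have : 0 < γ - 1 := by linarith
  unfold pres
  positivity

lemma measurable_vel : Measurable vel := by
  unfold vel
  exact continuous_mom.measurable.div continuous_dens.measurable

lemma measurable_pres {γ : ℝ} : Measurable (pres γ) := by
  unfold pres eint
  exact (continuous_dens.measurable.const_mul _).mul
    ((continuous_ener.measurable.div continuous_dens.measurable).sub
      ((measurable_vel.pow_const 2).div_const 2))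

/-- a box containing a compact subset of the physical region -/
lemma exists_box {γ : ℝ} (hγ : 1 < γ) {K : Set St} (hK : IsCompact K) (hKO : K ⊆ Om) :
    ∃ B : Bds, ∀ k ∈ K, B.In (dens k) (vel k) (pres γ k) := by
  obtain ⟨C1, h1⟩ := hK.exists_bound_of_continuousOn continuous_dens.continuousOn
  obtain ⟨C2, h2⟩ := hK.exists_bound_of_continuousOn (f := fun k => (dens k)⁻¹)
    (continuous_dens.continuousOn.inv₀ fun k hk => (hKO hk).1.ne')
  obtain ⟨C3, h3⟩ := hK.exists_bound_of_continuousOn (contOn_vel.mono hKO)
  obtain ⟨C4, h4⟩ := hK.exists_bound_of_continuousOn (contOn_pres (γ := γ) |>.mono hKO)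
  obtain ⟨C5, h5⟩ := hK.exists_bound_of_continuousOn (f := fun k => (pres γ k)⁻¹)
    ((contOn_pres (γ := γ) |>.mono hKO).inv₀ fun k hk => (pres_pos hγ (hKO hk)).ne')
  refine ⟨
    { ra := (|C2| + 1)⁻¹
      rb := |C1| + (|C2| + 1)⁻¹
      ub := |C3|
      pa := (|C5| + 1)⁻¹
      pb := |C4| + (|C5| + 1)⁻¹
      ra_pos := by positivity
      pa_pos := by positivity
      rab := by linarith [abs_nonneg C1]
      pab := by linarith [abs_nonneg C4]
      ub_nonneg := abs_nonneg _ }, ?_⟩
  intro k hk
  have p1 := (hKO hk).1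
  have p2 := pres_pos hγ (hKO hk)
  have e2 : (dens k)⁻¹ ≤ |C2| + 1 := by
    have := (h2 k hk).trans (le_abs_self C2)
    rw [Real.norm_eq_abs, abs_of_pos (inv_pos.2 p1)] at this
    linarith
  have e5 : (pres γ k)⁻¹ ≤ |C5| + 1 := by
    have := (h5 k hk).trans (le_abs_self C5)
    rw [Real.norm_eq_abs, abs_of_pos (inv_pos.2 p2)] at this
    linarith
  have e1 : dens k ≤ |C1| := by
    have := (h1 k hk).trans (le_abs_self C1)
    rw [Real.norm_eq_abs] at this
    exact (le_abs_self _).trans this
  have e4 : pres γ k ≤ |C4| := by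
    have := (h4 k hk).trans (le_abs_self C4)
    rw [Real.norm_eq_abs] at this
    exact (le_abs_self _).trans this
  have e3 : |vel k| ≤ |C3| := by
    have := (h3 k hk).trans (le_abs_self C3)
    rwa [Real.norm_eq_abs] at this
  refine ⟨⟨?_, ?_⟩, e3, ?_, ?_⟩
  · show (|C2| + 1)⁻¹ ≤ dens k
    rw [inv_le_comm₀ (by positivity) p1]
    exact e2
  · show dens k ≤ |C1| + (|C2| + 1)⁻¹
    have : 0 < (|C2| + 1)⁻¹ := by positivity
    linarith
  · show (|C5| + 1)⁻¹ ≤ pres γ k
    rw [inv_le_comm₀ (by positivity) p2]
    exact e5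
  · show pres γ k ≤ |C4| + (|C5| + 1)⁻¹
    have : 0 < (|C5| + 1)⁻¹ := by positivity
    linarith

/-- the entropy density as a function of the state is Lipschitz on compacts -/
lemma entropy_lipschitz {γ : ℝ} (hγ : 1 < γ) {K : Set St} (hK : IsCompact K) (hKO : K ⊆ Om) :
    ∃ L : ℝ≥0, LipschitzOnWith L (fun U : St => dens U * sp γ (dens U) (pres γ U)) K := by
  refine LocallyLipschitzOn.exists_lipschitzOnWith_of_compact hK ?_
  intro U hU
  have hd : ContDiffAt ℝ 1 dens U := contDiff_fst.contDiffAt
  have hm : ContDiffAt ℝ 1 mom U := (contDiff_fst.comp contDiff_snd).contDiffAt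
  have he : ContDiffAt ℝ 1 ener U := (contDiff_snd.comp contDiff_snd).contDiffAt
  have h1 := (hKO hU).1
  have h2 := pres_pos hγ (hKO hU)
  have hv : ContDiffAt ℝ 1 vel U := hm.div hd h1.ne'
  have hei : ContDiffAt ℝ 1 eint U := (he.div hd h1.ne').sub ((hv.pow 2).div_const 2)
  have hp : ContDiffAt ℝ 1 (pres γ) U := (contDiffAt_const.mul hd).mul hei
  have hf : ContDiffAt ℝ 1 (fun U : St => dens U * sp γ (dens U) (pres γ U)) U := by
    unfold sp
    exact hd.mul ((hp.log h2.ne').sub (contDiffAt_const.mul (hd.log h1.ne')))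
  obtain ⟨L, t, ht, hL⟩ := hf.exists_lipschitzOnWith
  exact ⟨L, t, mem_nhdsWithin_of_mem_nhds ht, hL⟩

lemma measurableSet_strip (T : ℝ) : MeasurableSet (strip T) :=
  (measurableSet_lt measurable_const measurable_snd).inter
    (measurableSet_lt measurable_snd measurable_const)

/-- weak integrals only see the strip -/
lemma integral_strip_congr {T : ℝ} {A B A' B' : ℝ × ℝ → ℝ}
    (hA : ∀ᵐ z ∂(volume.restrict (strip T)), A z = A' z)
    (hB : ∀ᵐ z ∂(volume.restrict (strip T)), B z = B' z) {φ : ℝ × ℝ → ℝ} (hφ : IsTest T φ) :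
    ∫ z in up, (A z * dt φ z + B z * dx φ z) = ∫ z in up, (A' z * dt φ z + B' z * dx φ z) := by
  refine setIntegral_congr_ae measurableSet_up ?_
  rw [ae_restrict_iff' (measurableSet_strip T)] at hA hB
  filter_upwards [hA, hB] with z h1 h2 hz
  by_cases hzT : z.2 < T
  · rw [h1 ⟨hz, hzT⟩, h2 ⟨hz, hzT⟩]
  · have h3 : z ∉ tsupport φ := fun h => hzT (hφ.supp h)
    rw [dt_eq_zero h3, dx_eq_zero h3]
    simp

lemma WeakEq.congr {T : ℝ} {A B A' B' : ℝ × ℝ → ℝ} {A0 A0' : ℝ → ℝ}
    (h : WeakEq T A B A0)
    (hA : ∀ᵐ z ∂(volume.restrict (strip T)), A z = A' z)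
    (hB : ∀ᵐ z ∂(volume.restrict (strip T)), B z = B' z)
    (h0 : ∀ x, A0 x = A0' x) : WeakEq T A' B' A0' := by
  intro φ hφ
  have e : A0 = A0' := funext h0
  rw [← integral_strip_congr hA hB hφ, ← e]
  exact h φ hφ

lemma lipschitz_dens : LipschitzWith 1 dens := LipschitzWith.prod_fst
lemma lipschitz_mom : LipschitzWith 1 mom := by
  have := (LipschitzWith.prod_fst (α := ℝ) (β := ℝ)).comp
    (LipschitzWith.prod_snd (α := ℝ) (β := ℝ × ℝ))
  rw [one_mul] at this
  exact this
lemma lipschitz_ener : LipschitzWith 1 ener := by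
  have := (LipschitzWith.prod_snd (α := ℝ) (β := ℝ)).comp
    (LipschitzWith.prod_snd (α := ℝ) (β := ℝ × ℝ))
  rw [one_mul] at this
  exact this

lemma norm_St_le (a b : St) :
    ‖a - b‖ ≤ |dens a - dens b| + |mom a - mom b| + |ener a - ener b| := by
  rw [Prod.norm_def, Prod.norm_def]
  have h1 : ‖(a - b).1‖ = |dens a - dens b| := rfl
  have h2 : ‖(a - b).2.1‖ = |mom a - mom b| := rfl
  have h3 : ‖(a - b).2.2‖ = |ener a - ener b| := rfl
  rw [h1, h2, h3]
  have p1 := abs_nonneg (dens a - dens b)
  have p2 := abs_nonneg (mom a - mom b)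
  have p3 := abs_nonneg (ener a - ener b)
  refine max_le ?_ (max_le ?_ ?_) <;> linarith

lemma measurable_of_BV {f : ℝ → ℝ} (hf : BoundedVariationOn f univ) : Measurable f := by
  obtain ⟨p, q, hp, hq, h⟩ :=
    hf.locallyBoundedVariationOn.exists_monotoneOn_sub_monotoneOn
  rw [h]
  exact (monotoneOn_univ.1 hp).measurable.sub (monotoneOn_univ.1 hq).measurable

lemma measurable_St {f : ℝ → St} (h1 : Measurable (fun x => dens (f x)))
    (h2 : Measurable (fun x => mom (f x))) (h3 : Measurable (fun x => ener (f x))) :
    Measurable f := by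
  have : f = fun x => (dens (f x), mom (f x), ener (f x)) := rfl
  rw [this]
  exact h1.prodMk (h2.prodMk h3)

lemma BVDatum.measurable {U0 : ℝ → St} (h : BVDatum U0) : Measurable U0 :=
  measurable_St (measurable_of_BV (lipschitz_dens.comp_boundedVariationOn h.1))
    (measurable_of_BV (lipschitz_mom.comp_boundedVariationOn h.1))
    (measurable_of_BV (lipschitz_ener.comp_boundedVariationOn h.1))

lemma ent_eq {γ cv : ℝ} (hγ : 1 < γ) {U : St} (hU : U ∈ Om) :
    ent cv γ U = cv * sp γ (dens U) (pres γ U) := by
  have h1 := hU.1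
  have h2 := pres_pos hγ hU
  unfold ent sp
  rw [Real.log_mul h2.ne' (Real.rpow_pos_of_pos h1 _).ne', Real.log_rpow h1]
  ring

lemma mom_eq {U : St} (hU : U ∈ Om) : mom U = dens U * vel U := by
  have h1 := hU.1
  unfold vel
  field_simp

lemma ener_eq {γ : ℝ} (hγ : 1 < γ) {U : St} (hU : U ∈ Om) :
    ener U = dens U * te γ (dens U) (vel U) (pres γ U) := by
  have h1 := hU.1
  have h2 : 0 < γ - 1 := by linarith
  unfold te en pres eint
  field_simp
  ring

/-- from states to the variables `(r,u,p)` -/
theorem toSol {γ cv T : ℝ} (hγ : 1 < γ) (hcv : 0 < cv) (hT : 0 < T) {U : ℝ × ℝ → St}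
    {U0 : ℝ → St} {K : Set St} (hKc : IsCompact K) (hKO : K ⊆ Om) (mU0 : Measurable U0)
    (hU0K : ∀ x, U0 x ∈ K) (hUK : ∀ᵐ z ∂(volume.restrict (strip T)), U z ∈ K) {B : Bds}
    (hB : ∀ k ∈ K, B.In (dens k) (vel k) (pres γ k)) (h : EntropySol γ cv T U U0)
    (hent : (BVBounded T U ∧ BoundedVariationOn U0 univ) ∨ EntInit γ cv T U U0) :
    ∃ W : ℝ × ℝ → St, Measurable W ∧ (∀ z, W z ∈ K) ∧
      (∀ᵐ z ∂(volume.restrict (strip T)), U z = W z) ∧
      Sol γ T B (fun z => dens (W z)) (fun z => vel (W z)) (fun z => pres γ (W z))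
        (fun x => dens (U0 x)) (fun x => vel (U0 x)) (fun x => pres γ (U0 x)) := by
  classical
  obtain ⟨U', hU'm, hU'⟩ := h.meas
  have hKm : MeasurableSet K := hKc.isClosed.measurableSet
  obtain ⟨W, hW⟩ : ∃ W : ℝ × ℝ → St, W = fun z => if U' z ∈ K then U' z else U0 0 := ⟨_, rfl⟩
  have hWm : Measurable W := by
    rw [hW]
    exact Measurable.ite (hU'm hKm) hU'm measurable_const
  have hWK : ∀ z, W z ∈ K := by
    intro z
    rw [hW]
    simp only []
    split_ifs with h1
    · exact h1
    · exact hU0K 0
  have hWU : ∀ᵐ z ∂(volume.restrict (strip T)), U z = W z := by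
    filter_upwards [hU', hUK] with z h1 h2
    rw [hW]
    simp only []
    rw [← h1, if_pos h2]
  have hWO : ∀ z, W z ∈ Om := fun z => hKO (hWK z)
  have hU0O : ∀ x, U0 x ∈ Om := fun x => hKO (hU0K x)
  have ae1 : ∀ f : St → ℝ, ∀ᵐ z ∂(volume.restrict (strip T)), f (U z) = f (W z) := by
    intro f
    filter_upwards [hWU] with z hz
    rw [hz]
  have hmass : WeakEq T (fun z => dens (W z)) (fun z => mom (W z)) (fun x => dens (U0 x)) :=
    h.mass.congr (ae1 dens) (ae1 mom) fun _ => rfl
  have hmomentum : WeakEq T (fun z => mom (W z)) (fun z => mom (W z) * vel (W z) + pres γ (W z))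
      (fun x => mom (U0 x)) :=
    h.momentum.congr (ae1 mom) (ae1 fun U => mom U * vel U + pres γ U) fun _ => rfl
  have henergy : WeakEq T (fun z => ener (W z))
      (fun z => (ener (W z) + pres γ (W z)) * vel (W z)) (fun x => ener (U0 x)) :=
    h.energy.congr (ae1 ener) (ae1 fun U => (ener U + pres γ U) * vel U) fun _ => rfl
  refine ⟨W, hWm, hWK, hWU, ?_⟩
  obtain ⟨C, hC0, hC⟩ := exists_bd hγ B
  -- the entropy inequality
  have hentropy : WeakLe T (fun z => dens (W z) * sp γ (dens (W z)) (pres γ (W z)))
      (fun z => dens (W z) * vel (W z) * sp γ (dens (W z)) (pres γ (W z)))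
      (fun x => dens (U0 x) * sp γ (dens (U0 x)) (pres γ (U0 x))) := by
    have mE : Measurable (fun z => dens (W z) * sp γ (dens (W z)) (pres γ (W z))) := by
      unfold sp
      exact (continuous_dens.measurable.comp hWm).mul
        ((Real.measurable_log.comp (measurable_pres.comp hWm)).sub
          ((Real.measurable_log.comp (continuous_dens.measurable.comp hWm)).const_mul γ))
    have mQ : Measurable (fun z => dens (W z) * vel (W z) *
        sp γ (dens (W z)) (pres γ (W z))) := by
      unfold sp
      exact ((continuous_dens.measurable.comp hWm).mul (measurable_vel.comp hWm)).mul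
        ((Real.measurable_log.comp (measurable_pres.comp hWm)).sub
          ((Real.measurable_log.comp (continuous_dens.measurable.comp hWm)).const_mul γ))
    have mE0 : Measurable (fun x => dens (U0 x) * sp γ (dens (U0 x)) (pres γ (U0 x))) := by
      unfold sp
      exact (continuous_dens.measurable.comp mU0).mul
        ((Real.measurable_log.comp (measurable_pres.comp mU0)).sub
          ((Real.measurable_log.comp (continuous_dens.measurable.comp mU0)).const_mul γ))
    have eqW : ∀ φ, IsTest T φ →
        ∫ z in up, (dens (U z) * ent cv γ (U z) * dt φ z + mom (U z) * ent cv γ (U z) * dx φ z)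
        = cv * ∫ z in up, (dens (W z) * sp γ (dens (W z)) (pres γ (W z)) * dt φ z
          + dens (W z) * vel (W z) * sp γ (dens (W z)) (pres γ (W z)) * dx φ z) := by
      intro φ hφ
      rw [integral_strip_congr (ae1 fun U => dens U * ent cv γ U)
        (ae1 fun U => mom U * ent cv γ U) hφ, ← integral_const_mul]
      congr 1
      ext z
      rw [ent_eq hγ (hWO z), mom_eq (hWO z)]
      ring
    rcases hent with ⟨hBV, hBV0⟩ | hI
    · -- BV case
      have hrb := B.rb_pos
      have hub := B.ub_nonneg
      refine entropy_init (C := B.rb * C + B.rb * B.ub * C) mE mQ mE0 ?_ ?_ ?_ ?_ ?_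
      · intro z
        have hin := hB _ (hWK z)
        rw [abs_mul]
        have h1 := mul_le_mul hin.abs_r (hC _ _ _ hin).2 (abs_nonneg _) hrb.le
        have h2 : 0 ≤ B.rb * B.ub * C := by positivity
        linarith
      · intro z
        have hin := hB _ (hWK z)
        rw [abs_mul]
        have h1 := mul_le_mul hin.abs_ru (hC _ _ _ hin).2 (abs_nonneg _) (by positivity)
        have h2 : 0 ≤ B.rb * C := by positivity
        linarith
      · intro x
        have hin := hB _ (hU0K x)
        rw [abs_mul]
        have h1 := mul_le_mul hin.abs_r (hC _ _ _ hin).2 (abs_nonneg _) hrb.le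
        have h2 : 0 ≤ B.rb * B.ub * C := by positivity
        linarith
      · intro φ hφ hφ0 hφs
        have h1 := h.entropy φ hφ hφ0 hφs
        rw [eqW φ hφ] at h1
        exact nonpos_of_mul_nonpos_right h1 hcv
      · intro R hR ε hε
        obtain ⟨L, hL⟩ := entropy_lipschitz hγ hKc hKO
        obtain ⟨CK, hCK⟩ := hKc.isBounded.exists_norm_le
        obtain ⟨CB, hCB⟩ := hBV
        obtain ⟨C1, hC1⟩ := hKc.exists_bound_of_continuousOn
          (f := fun U : St => mom U * vel U + pres γ U)
          ((continuous_mom.continuousOn.mul (contOn_vel.mono hKO)).add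
            (contOn_pres.mono hKO))
        obtain ⟨C2, hC2⟩ := hKc.exists_bound_of_continuousOn
          (f := fun U : St => (ener U + pres γ U) * vel U)
          ((continuous_ener.continuousOn.add (contOn_pres.mono hKO)).mul
            (contOn_vel.mono hKO))
        obtain ⟨M, hM⟩ : ∃ M, M = |CK| + |C1| + |C2| := ⟨_, rfl⟩
        have hMK : ∀ k ∈ K, ‖k‖ ≤ M := fun k hk => by
          have := (hCK k hk).trans (le_abs_self CK)
          rw [hM]; linarith [abs_nonneg C1, abs_nonneg C2]
        have bd : ∀ k ∈ K, |dens k| ≤ M := fun k hk => (norm_fst_le k).trans (hMK k hk)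
        have bm : ∀ k ∈ K, |mom k| ≤ M := fun k hk =>
          ((norm_fst_le k.2).trans (norm_snd_le k)).trans (hMK k hk)
        have be : ∀ k ∈ K, |ener k| ≤ M := fun k hk =>
          ((norm_snd_le k.2).trans (norm_snd_le k)).trans (hMK k hk)
        have bf1 : ∀ k ∈ K, |mom k * vel k + pres γ k| ≤ M := fun k hk => by
          have := (hC1 k hk).trans (le_abs_self C1)
          rw [Real.norm_eq_abs] at this
          rw [hM]; linarith [abs_nonneg CK, abs_nonneg C2]
        have bf2 : ∀ k ∈ K, |(ener k + pres γ k) * vel k| ≤ M := fun k hk => by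
          have := (hC2 k hk).trans (le_abs_self C2)
          rw [Real.norm_eq_abs] at this
          rw [hM]; linarith [abs_nonneg CK, abs_nonneg C1]
        -- slices
        have hslice : ∀ᵐ t : ℝ, 0 < t → t < T → ∀ᵐ x : ℝ, U (x, t) = W (x, t) := by
          rw [ae_restrict_iff' (measurableSet_strip T), Measure.volume_eq_prod] at hWU
          have h2 : ∀ᵐ z : ℝ × ℝ ∂(volume.prod volume),
              z.swap ∈ strip T → U z.swap = W z.swap :=
            (Measure.measurePreserving_swap).quasiMeasurePreserving.ae hWU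
          filter_upwards [Measure.ae_ae_of_ae_prod h2] with t ht ht0 htT
          filter_upwards [ht] with x hx
          exact hx ⟨ht0, htT⟩
        have hBVt : ∀ᵐ t : ℝ, 0 < t → t < T → ∃ V : ℝ → St, (∀ᵐ x : ℝ, W (x, t) = V x) ∧
            eVariationOn V univ ≤ CB := by
          rw [ae_restrict_iff' measurableSet_Ioo] at hCB
          filter_upwards [hCB, hslice] with t ht1 ht2 ht0 htT
          obtain ⟨V, hV1, hV2⟩ := ht1 ⟨ht0, htT⟩
          refine ⟨V, ?_, hV2⟩
          filter_upwards [hV1, ht2 ht0 htT] with x h1 h2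
          rw [← h2, h1]
        have hcomp : ∀ f : St → ℝ, LipschitzWith 1 f → ∀ᵐ t : ℝ, 0 < t → t < T →
            ∃ V : ℝ → ℝ, (∀ᵐ x : ℝ, f (W (x, t)) = V x) ∧
              eVariationOn V (Icc (-R) (R + 1)) ≤ ENNReal.ofReal (CB : ℝ) := by
          intro f hf
          filter_upwards [hBVt] with t ht ht0 htT
          obtain ⟨V, hV1, hV2⟩ := ht ht0 htT
          refine ⟨fun x => f (V x), ?_, ?_⟩
          · filter_upwards [hV1] with x hx
            rw [hx]
          · have h1 : eVariationOn (f ∘ V) univ ≤ ((1 : ℝ≥0) : ℝ≥0∞) * eVariationOn V univ :=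
              (hf.lipschitzOnWith (s := univ)).comp_eVariationOn_le (mapsTo_univ _ _)
            rw [ENNReal.coe_one, one_mul] at h1
            refine (eVariationOn.mono _ (subset_univ _)).trans (h1.trans (hV2.trans ?_))
            rw [ENNReal.ofReal_coe_nnreal]
        obtain ⟨C0, hC0v⟩ : ∃ C0, C0 = (eVariationOn U0 univ).toReal := ⟨_, rfl⟩
        have hC00 : 0 ≤ C0 := by rw [hC0v]; exact ENNReal.toReal_nonneg
        have hcomp0 : ∀ f : St → ℝ, LipschitzWith 1 f →
            eVariationOn (fun x => f (U0 x)) (Icc (-R) (R + 1)) ≤ ENNReal.ofReal C0 := by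
          intro f hf
          have h1 : eVariationOn (f ∘ U0) univ ≤ ((1 : ℝ≥0) : ℝ≥0∞) * eVariationOn U0 univ :=
            (hf.lipschitzOnWith (s := univ)).comp_eVariationOn_le (mapsTo_univ _ _)
          rw [ENNReal.coe_one, one_mul] at h1
          refine (eVariationOn.mono _ (subset_univ _)).trans (h1.trans ?_)
          rw [hC0v, ENNReal.ofReal_toReal hBV0]
        have hLe : 0 ≤ (L : ℝ) := L.coe_nonneg
        obtain ⟨δ, hδ⟩ : ∃ δ, δ = ε / (3 * ((L : ℝ) + 1)) := ⟨_, rfl⟩
        have hδ0 : 0 < δ := by rw [hδ]; positivity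
        have mWd := continuous_dens.measurable.comp hWm
        have mWm := continuous_mom.measurable.comp hWm
        have mWe := continuous_ener.measurable.comp hWm
        have mWv := measurable_vel.comp hWm
        have mWp := (measurable_pres (γ := γ)).comp hWm
        obtain ⟨ν1, hν1, hν1T, ht1⟩ := trace_L1 (R := R) hT mWd mWm
          (continuous_dens.measurable.comp mU0) (fun z => bd _ (hWK z)) (fun z => bm _ (hWK z))
          (fun x => bd _ (hU0K x)) hmass hR CB.coe_nonneg hC00 (hcomp dens lipschitz_dens)
          (hcomp0 dens lipschitz_dens) hδ0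
        obtain ⟨ν2, hν2, hν2T, ht2⟩ := trace_L1 (R := R) hT mWm ((mWm.mul mWv).add mWp)
          (continuous_mom.measurable.comp mU0) (fun z => bm _ (hWK z)) (fun z => bf1 _ (hWK z))
          (fun x => bm _ (hU0K x)) hmomentum hR CB.coe_nonneg hC00 (hcomp mom lipschitz_mom)
          (hcomp0 mom lipschitz_mom) hδ0
        obtain ⟨ν3, hν3, hν3T, ht3⟩ := trace_L1 (R := R) hT mWe ((mWe.add mWp).mul mWv)
          (continuous_ener.measurable.comp mU0) (fun z => be _ (hWK z)) (fun z => bf2 _ (hWK z))
          (fun x => be _ (hU0K x)) henergy hR CB.coe_nonneg hC00 (hcomp ener lipschitz_ener)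
          (hcomp0 ener lipschitz_ener) hδ0
        refine ⟨min ν1 (min ν2 ν3), lt_min hν1 (lt_min hν2 hν3), ?_⟩
        filter_upwards [ht1, ht2, ht3] with t h1 h2 h3 ht0 htν
        have k1 := h1 ht0 (lt_of_lt_of_le htν (min_le_left _ _))
        have k2 := h2 ht0 (lt_of_lt_of_le htν ((min_le_right _ _).trans (min_le_left _ _)))
        have k3 := h3 ht0 (lt_of_lt_of_le htν ((min_le_right _ _).trans (min_le_right _ _)))
        have int : ∀ f : St → ℝ, Measurable f → (∀ k ∈ K, |f k| ≤ M) →
            IntervalIntegrable (fun x => |f (W (x, t)) - f (U0 x)|) volume (-R) R := by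
          intro f hf hfM
          have hmm : Measurable (fun x : ℝ => W (x, t)) := hWm.comp (by fun_prop)
          exact (MeasureTheory.Measure.integrableOn_of_bounded (M := M + M) (by simp)
            (((hf.comp hmm).sub (hf.comp mU0)).norm).aestronglyMeasurable
            (Filter.Eventually.of_forall fun s => by
              rw [norm_norm]
              exact (abs_sub _ _).trans (add_le_add (hfM _ (hWK _)) (hfM _ (hU0K _)))
              )).intervalIntegrable
        have i1 := int dens continuous_dens.measurable bd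
        have i2 := int mom continuous_mom.measurable bm
        have i3 := int ener continuous_ener.measurable be
        have hfin : ∫ x in (-R)..R, |dens (W (x, t)) * sp γ (dens (W (x, t))) (pres γ (W (x, t)))
            - dens (U0 x) * sp γ (dens (U0 x)) (pres γ (U0 x))| ≤
            ∫ x in (-R)..R, (L : ℝ) * (|dens (W (x, t)) - dens (U0 x)|
              + |mom (W (x, t)) - mom (U0 x)| + |ener (W (x, t)) - ener (U0 x)|) := by
          refine intervalIntegral.integral_mono_on (by linarith) ?_
            (((i1.add i2).add i3).const_mul _) ?_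
          · have hmm : Measurable (fun x : ℝ =>
                dens (W (x, t)) * sp γ (dens (W (x, t))) (pres γ (W (x, t)))) :=
              mE.comp (by fun_prop : Measurable fun x : ℝ => (x, t))
            refine (MeasureTheory.Measure.integrableOn_of_bounded (M := B.rb * C + B.rb * C)
              (by simp) ((hmm.sub mE0).norm).aestronglyMeasurable
              (Filter.Eventually.of_forall fun s => ?_)).intervalIntegrable
            rw [norm_norm]
            refine (abs_sub _ _).trans (add_le_add ?_ ?_)
            · have hin := hB _ (hWK (s, t))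
              rw [abs_mul]
              exact mul_le_mul hin.abs_r (hC _ _ _ hin).2 (abs_nonneg _) hrb.le
            · have hin := hB _ (hU0K s)
              rw [abs_mul]
              exact mul_le_mul hin.abs_r (hC _ _ _ hin).2 (abs_nonneg _) hrb.le
          · intro x _
            have h4 := hL.dist_le_mul _ (hWK (x, t)) _ (hU0K x)
            rw [Real.dist_eq, dist_eq_norm] at h4
            exact h4.trans (mul_le_mul_of_nonneg_left (norm_St_le _ _) hLe)
        refine hfin.trans ?_
        rw [intervalIntegral.integral_const_mul, intervalIntegral.integral_add (i1.add i2) i3,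
          intervalIntegral.integral_add i1 i2]
        have k1' : ∫ x in (-R)..R, |dens (W (x, t)) - dens (U0 x)| ≤ δ := k1
        have k2' : ∫ x in (-R)..R, |mom (W (x, t)) - mom (U0 x)| ≤ δ := k2
        have k3' : ∫ x in (-R)..R, |ener (W (x, t)) - ener (U0 x)| ≤ δ := k3
        have e1 : (L : ℝ) * (δ + δ + δ) ≤ ε := by
          rw [hδ]
          have : (L : ℝ) * (ε / (3 * ((L : ℝ) + 1)) + ε / (3 * ((L : ℝ) + 1))
            + ε / (3 * ((L : ℝ) + 1))) = (L : ℝ) / ((L : ℝ) + 1) * ε := by
            field_simp
            ring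
          rw [this]
          have h5 : (L : ℝ) / ((L : ℝ) + 1) ≤ 1 := by
            rw [div_le_one (by positivity)]
            linarith
          nlinarith
        refine le_trans (mul_le_mul_of_nonneg_left ?_ hLe) e1
        linarith
    · -- entropy inequality up to the initial time
      intro φ hφ hφ0
      have h1 := hI φ hφ hφ0
      rw [eqW φ hφ] at h1
      have e2 : ∫ x, dens (U0 x) * ent cv γ (U0 x) * φ (x, 0) =
          cv * ∫ x, dens (U0 x) * sp γ (dens (U0 x)) (pres γ (U0 x)) * φ (x, 0) := by
        rw [← integral_const_mul]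
        congr 1
        ext x
        rw [ent_eq hγ (hU0O x)]
        ring
      rw [e2, ← mul_add] at h1
      exact nonpos_of_mul_nonpos_right h1 hcv
  exact
    { mr := continuous_dens.measurable.comp hWm
      mu := measurable_vel.comp hWm
      mp := measurable_pres.comp hWm
      mr0 := continuous_dens.measurable.comp mU0
      mu0 := measurable_vel.comp mU0
      mp0 := measurable_pres.comp mU0
      box := fun z => hB _ (hWK z)
      box0 := fun x => hB _ (hU0K x)
      mass := by
        have e : (fun z => dens (W z) * vel (W z)) = fun z => mom (W z) :=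
          funext fun z => (mom_eq (hWO z)).symm
        rw [e]
        exact hmass
      momentum := by
        have e : (fun z => dens (W z) * vel (W z)) = fun z => mom (W z) :=
          funext fun z => (mom_eq (hWO z)).symm
        have e' : (fun z => dens (W z) * vel (W z) ^ 2 + pres γ (W z)) =
            fun z => mom (W z) * vel (W z) + pres γ (W z) :=
          funext fun z => by rw [mom_eq (hWO z)]; ring
        have e0 : (fun x => dens (U0 x) * vel (U0 x)) = fun x => mom (U0 x) :=
          funext fun x => (mom_eq (hU0O x)).symm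
        rw [e, e', e0]
        exact hmomentum
      energy := by
        have e : (fun z => dens (W z) * te γ (dens (W z)) (vel (W z)) (pres γ (W z))) =
            fun z => ener (W z) :=
          funext fun z => (ener_eq hγ (hWO z)).symm
        have e' : (fun z => (dens (W z) * te γ (dens (W z)) (vel (W z)) (pres γ (W z))
            + pres γ (W z)) * vel (W z)) =
            fun z => (ener (W z) + pres γ (W z)) * vel (W z) :=
          funext fun z => by rw [← ener_eq hγ (hWO z)]
        have e0 : (fun x => dens (U0 x) * te γ (dens (U0 x)) (vel (U0 x)) (pres γ (U0 x))) =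
            fun x => ener (U0 x) :=
          funext fun x => (ener_eq hγ (hU0O x)).symm
        rw [e, e', e0]
        exact henergy
      entropy := hentropy }

end

end Pool.Agent.helper23_Euler
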