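import Mathlib
import Pool.Agent.helper23_Euler.Conv

open MeasureTheory Set Filter Topology
open scoped ContDiff ENNReal NNReal

namespace Pool.Agent.helper23_Euler

noncomputable section

lemma relE_self {γ r u p : ℝ} (hγ : 1 < γ) (hr : 0 < r) (hp : 0 < p) :
    relE γ r u p u p (en γ r p) = 0 := by
  have hγ' : 0 < γ - 1 := by linarith
  have h1 : 0 < en γ r p := by unfold en; positivity
  rw [relE_eq hγ hr hp hp h1]
  have e1 : en γ r p / en γ r p = 1 := div_self h1.ne'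
  have e2 : p / (r * ((γ - 1) * en γ r p)) = 1 := by
    unfold en
    field_simp
  rw [e1, e2]
  unfold fl
  simp

lemma relE_tendsto {γ : ℝ} (hγ : 1 < γ) {UL : St} (hUL : UL ∈ Om) {l : Filter ℝ} {U0 : ℝ → St}
    (h : Tendsto U0 l (𝓝 UL)) :
    Tendsto (fun x => relE γ (dens (U0 x)) (vel (U0 x)) (pres γ (U0 x)) (vel UL) (pres γ UL)
      (en γ (dens UL) (pres γ UL))) l (𝓝 0) := by
  have hγ' : 0 < γ - 1 := by linarith
  have h1 := hUL.1
  have h2 := pres_pos hγ hUL
  have c1 : ContinuousAt dens UL := continuous_dens.continuousAt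
  have c2 : ContinuousAt vel UL := contOn_vel.continuousAt (isOpen_Om.mem_nhds hUL)
  have c3 : ContinuousAt (pres γ) UL := contOn_pres.continuousAt (isOpen_Om.mem_nhds hUL)
  have c4 : ContinuousAt (fun U : St => relE γ (dens U) (vel U) (pres γ U) (vel UL) (pres γ UL)
      (en γ (dens UL) (pres γ UL))) UL := by
    unfold relE te sp en
    refine ContinuousAt.sub (ContinuousAt.sub (ContinuousAt.add (ContinuousAt.sub
      (ContinuousAt.add ((c2.pow 2).div_const 2) ?_) (c2.mul continuousAt_const)) ?_) ?_)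
      continuousAt_const
    · exact c3.div (continuousAt_const.mul c1) (by positivity)
    · exact (continuousAt_const.div c1 h1.ne').mul continuousAt_const
    · exact ((c3.log h2.ne').sub (continuousAt_const.mul (c1.log h1.ne'))).mul continuousAt_const
  have h3 := c4.tendsto.comp h
  rw [relE_self hγ h1 h2] at h3
  exact h3

/-- a supercritical jump in the data excludes vacuum-free solutions -/
theorem not_compactValued {γ cv : ℝ} (hγ : 1 < γ) (hcv : 0 < cv) {U0 : ℝ → St}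
    (hU0 : BVDatum U0) {x0 : ℝ} {UL UR : St} (hl : Tendsto U0 (𝓝[<] x0) (𝓝 UL))
    (hr : Tendsto U0 (𝓝[>] x0) (𝓝 UR))
    (hcrit : 2 / (γ - 1) * (sound γ UL + sound γ UR) ≤ vel UR - vel UL) {T : ℝ} (hT : 0 < T)
    {U : ℝ × ℝ → St} (h : EntropySol γ cv T U U0)
    (hent : BVBounded T U ∨ EntInit γ cv T U U0) : ¬ CompactValued T U := by
  rintro ⟨K1, hK1, hK1O, hUK1⟩
  obtain ⟨hBV0, K0, hK0, hK0O, hUK0⟩ := hU0
  have hU0' : BVDatum U0 := ⟨hBV0, K0, hK0, hK0O, hUK0⟩
  have hKc : IsCompact (K0 ∪ K1) := hK0.union hK1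
  have hKO : K0 ∪ K1 ⊆ Om := union_subset hK0O hK1O
  obtain ⟨B, hB⟩ := exists_box hγ hKc hKO
  have hUK : ∀ᵐ z ∂(volume.restrict (strip T)), U z ∈ K0 ∪ K1 := by
    filter_upwards [hUK1] with z hz using Or.inr hz
  obtain ⟨W, _, _, _, hSol⟩ := toSol hγ hcv hT hKc hKO hU0'.measurable
    (fun x => Or.inl (hUK0 x)) hUK hB h (hent.imp (fun h => ⟨h, hBV0⟩) id)
  have hULK : UL ∈ K0 := hK0.isClosed.mem_of_tendsto hl (Filter.Eventually.of_forall hUK0)
  have hURK : UR ∈ K0 := hK0.isClosed.mem_of_tendsto hr (Filter.Eventually.of_forall hUK0)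
  have hUL := hK0O hULK
  have hUR := hK0O hURK
  refine no_sol_jump hγ (hB UL (Or.inl hULK)) (hB UR (Or.inl hURK)) hcrit hT hSol x0 ?_ ?_
  · intro ε hε
    have h1 := (relE_tendsto hγ hUL hl).eventually (ge_mem_nhds hε)
    rw [eventually_nhdsWithin_iff, Metric.eventually_nhds_iff] at h1
    obtain ⟨δ, hδ, h2⟩ := h1
    refine ⟨δ, hδ, Filter.Eventually.of_forall fun x h3 h4 => ?_⟩
    refine h2 ?_ h4
    rw [Real.dist_eq, abs_lt]
    constructor <;> linarith
  · intro ε hε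
    have h1 := (relE_tendsto hγ hUR hr).eventually (ge_mem_nhds hε)
    rw [eventually_nhdsWithin_iff, Metric.eventually_nhds_iff] at h1
    obtain ⟨δ, hδ, h2⟩ := h1
    refine ⟨δ, hδ, Filter.Eventually.of_forall fun x h3 h4 => ?_⟩
    refine h2 ?_ h3
    rw [Real.dist_eq, abs_lt]
    constructor <;> linarith

/-- a two-state datum -/
def stepDatum (UL UR : St) (x : ℝ) : St := if x < 0 then UL else UR

lemma stepDatum_BV {UL UR : St} (hL : UL ∈ Om) (hR : UR ∈ Om) : BVDatum (stepDatum UL UR) := by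
  constructor
  · have h1 : stepDatum UL UR = (fun y : ℝ => if y < 0 then UL else UR) ∘
        (fun x : ℝ => if x < 0 then (-1 : ℝ) else 0) := by
      ext1 x
      unfold stepDatum
      simp only [Function.comp_apply]
      by_cases hx : x < 0
      · simp [hx]
      · simp [hx]
    rw [h1]
    have hm : MonotoneOn (fun x : ℝ => if x < 0 then (-1 : ℝ) else 0) univ := by
      intro x _ y _ hxy
      simp only []
      split_ifs with h2 h3
      · exact le_rfl
      · norm_num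
      · linarith
      · exact le_rfl
    refine ne_top_of_le_ne_top ?_ (eVariationOn.comp_le_of_monotoneOn
      (fun y : ℝ => if y < 0 then UL else UR) (s := {-1, 0}) _ hm ?_)
    · exact BoundedVariationOn.of_finite _ _
    · intro x _
      simp only []
      split_ifs <;> simp
  · refine ⟨{UL, UR}, (Set.toFinite _).isCompact, ?_, ?_⟩
    · rintro U (rfl | rfl)
      · exact hL
      · exact hR
    · intro x
      unfold stepDatum
      split_ifs <;> simp

/-- explicit supercritical states -/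
lemma exists_critical {γ : ℝ} (hγ : 1 < γ) : ∃ UL UR : St, UL ∈ Om ∧ UR ∈ Om ∧
    2 / (γ - 1) * (sound γ UL + sound γ UR) ≤ vel UR - vel UL := by
  have hγ' : 0 < γ - 1 := by linarith
  obtain ⟨V, hV⟩ : ∃ V, V = 2 / (γ - 1) * Real.sqrt γ := ⟨_, rfl⟩
  have key : ∀ v : ℝ, dens ((1 : ℝ), v, v ^ 2 / 2 + 1 / (γ - 1)) = 1 ∧
      vel ((1 : ℝ), v, v ^ 2 / 2 + 1 / (γ - 1)) = v ∧
      eint ((1 : ℝ), v, v ^ 2 / 2 + 1 / (γ - 1)) = 1 / (γ - 1) ∧
      pres γ ((1 : ℝ), v, v ^ 2 / 2 + 1 / (γ - 1)) = 1 ∧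
      sound γ ((1 : ℝ), v, v ^ 2 / 2 + 1 / (γ - 1)) = Real.sqrt γ := by
    intro v
    have e1 : dens ((1 : ℝ), v, v ^ 2 / 2 + 1 / (γ - 1)) = 1 := rfl
    have e2 : vel ((1 : ℝ), v, v ^ 2 / 2 + 1 / (γ - 1)) = v := by
      unfold vel dens mom
      simp
    have e3 : eint ((1 : ℝ), v, v ^ 2 / 2 + 1 / (γ - 1)) = 1 / (γ - 1) := by
      unfold eint
      rw [e2, e1]
      unfold ener
      simp
    have e4 : pres γ ((1 : ℝ), v, v ^ 2 / 2 + 1 / (γ - 1)) = 1 := by
      unfold pres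
      rw [e3, e1]
      field_simp
    refine ⟨e1, e2, e3, e4, ?_⟩
    unfold sound
    rw [e4, e1]
    simp
  obtain ⟨a1, a2, a3, _, a5⟩ := key (-V)
  obtain ⟨b1, b2, b3, _, b5⟩ := key V
  refine ⟨(1, -V, (-V) ^ 2 / 2 + 1 / (γ - 1)), (1, V, V ^ 2 / 2 + 1 / (γ - 1)), ?_, ?_, ?_⟩
  · refine ⟨?_, ?_⟩
    · rw [a1]; exact one_pos
    · rw [a3]; positivity
  · refine ⟨?_, ?_⟩
    · rw [b1]; exact one_pos
    · rw [b3]; positivity
  · rw [a5, b5, a2, b2, hV]
    apply le_of_eq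
    ring

end

end Pool.Agent.helper23_Euler
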