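import Mathlib
import Pool.Agent.helper23_Euler.NoSolHole

open MeasureTheory Set Filter Topology
open scoped ContDiff ENNReal NNReal

namespace Pool.Agent.helper23_Euler

noncomputable section

/-- upper bound of the time during which a solution with supercritical far states stays in a
given compact set -/
theorem lifespan_le {γ cv : ℝ} (hγ : 1 < γ) (hcv : 0 < cv) {UL UR : St} {K : Set St}
    (hKc : IsCompact K) (hKO : K ⊆ Om) (hUL : UL ∈ K) (hUR : UR ∈ K)
    (hcrit : 2 / (γ - 1) * (sound γ UL + sound γ UR) ≤ vel UR - vel UL) :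
    ∃ C : ℝ, 0 < C ∧ ∀ (a w : ℝ) (U0 : ℝ → St), 0 < w → BoundedVariationOn U0 univ →
      (∀ x, U0 x ∈ K) → (∀ x, x ≤ a - w → U0 x = UL) → (∀ x, a + w ≤ x → U0 x = UR) →
      ∀ (T : ℝ) (U : ℝ × ℝ → St), 0 < T → EntropySol γ cv T U U0 →
        (BVBounded T U ∨ EntInit γ cv T U U0) →
        (∀ᵐ z ∂(volume.restrict (strip T)), U z ∈ K) → T ≤ C * w := by
  obtain ⟨B, hB⟩ := exists_box hγ hKc hKO
  obtain ⟨N⟩ := exists_NP hγ B (hB UL hUL) (hB UR hUR) hcrit
  obtain ⟨ε, X, δ, hε, hX, hδ, hno⟩ := no_sol_hole hγ N (T := 1) one_pos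
  refine ⟨1 / δ, by positivity, ?_⟩
  intro a w U0 hw hBV hU0K hleft hright T U hT hU hent hUK
  by_contra hlt
  rw [not_le] at hlt
  have hTw : w < T * δ := by
    rw [one_div, inv_mul_eq_div, div_lt_iff₀ hδ] at hlt
    exact hlt
  have mU0 : Measurable U0 := BVDatum.measurable ⟨hBV, K, hKc, hKO, hU0K⟩
  obtain ⟨W, _, _, _, hSol⟩ := toSol hγ hcv hT hKc hKO mU0 hU0K hUK hB hU
    (hent.imp (fun h => ⟨h, hBV⟩) id)
  have hsol := (hSol.scale a hT).mono (T' := 1) (by rw [div_self hT.ne'])
  have hULO := hKO hUL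
  have hURO := hKO hUR
  refine hno _ _ _ _ _ _ hsol ?_ ?_
  · refine Filter.Eventually.of_forall fun x _ h2 => ?_
    have e : U0 (a + T * x) = UL := by
      apply hleft
      nlinarith
    simp only [e]
    rw [relE_self hγ hULO.1 (pres_pos hγ hULO)]
    exact hε.le
  · refine Filter.Eventually.of_forall fun x h2 _ => ?_
    have e : U0 (a + T * x) = UR := by
      apply hright
      nlinarith
    simp only [e]
    rw [relE_self hγ hURO.1 (pres_pos hγ hURO)]
    exact hε.le

lemma mem_Om_iff (U : St) : U ∈ Om ↔ 0 < dens U ∧ mom U ^ 2 / 2 < ener U * dens U := by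
  constructor
  · rintro ⟨h1, h2⟩
    refine ⟨h1, ?_⟩
    have h3 : eint U * dens U ^ 2 = ener U * dens U - mom U ^ 2 / 2 := by
      unfold eint vel
      field_simp
    have h4 : 0 < eint U * dens U ^ 2 := by positivity
    linarith
  · rintro ⟨h1, h2⟩
    refine ⟨h1, ?_⟩
    have h3 : eint U = (ener U * dens U - mom U ^ 2 / 2) / dens U ^ 2 := by
      unfold eint vel
      field_simp
    rw [h3]
    apply div_pos (by linarith) (by positivity)

lemma convex_Om : Convex ℝ Om := by
  intro U hU V hV a b ha hb hab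
  rw [mem_Om_iff] at hU hV ⊢
  obtain ⟨u1, u2⟩ := hU
  obtain ⟨v1, v2⟩ := hV
  have e1 : dens (a • U + b • V) = a * dens U + b * dens V := by simp [dens]
  have e2 : mom (a • U + b • V) = a * mom U + b * mom V := by simp [mom]
  have e3 : ener (a • U + b • V) = a * ener U + b * ener V := by simp [ener]
  rw [e1, e2, e3]
  have k1 : mom U ^ 2 / (2 * dens U) < ener U := by
    rw [div_lt_iff₀ (by positivity)]
    linarith
  have k2 : mom V ^ 2 / (2 * dens V) < ener V := by
    rw [div_lt_iff₀ (by positivity)]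
    linarith
  set k := mom U ^ 2 / (2 * dens U) with hk
  set l := mom V ^ 2 / (2 * dens V) with hl
  have m1 : mom U ^ 2 = 2 * dens U * k := by rw [hk]; field_simp
  have m2 : mom V ^ 2 = 2 * dens V * l := by rw [hl]; field_simp
  have hcs : mom U * mom V ≤ dens U * l + dens V * k := by
    have h1 : dens U * l + dens V * k - mom U * mom V =
        (dens U * mom V - dens V * mom U) ^ 2 / (2 * dens U * dens V) := by
      rw [hk, hl]
      field_simp
      ring
    have h2 : 0 ≤ (dens U * mom V - dens V * mom U) ^ 2 / (2 * dens U * dens V) := by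
      positivity
    linarith
  have hpos : 0 < a * dens U + b * dens V := by
    rcases lt_or_eq_of_le ha with h | h
    · have := mul_pos h u1
      have := mul_nonneg hb v1.le
      linarith
    · have hb1 : b = 1 := by linarith
      rw [← h, hb1]
      linarith
  refine ⟨hpos, ?_⟩
  have s1 : (a * mom U + b * mom V) ^ 2 / 2 ≤
      (a * k + b * l) * (a * dens U + b * dens V) := by
    have e4 : (a * mom U + b * mom V) ^ 2 / 2 =
        (a ^ 2 * mom U ^ 2 + b ^ 2 * mom V ^ 2) / 2 + a * b * (mom U * mom V) := by ring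
    rw [e4, m1, m2]
    have := mul_le_mul_of_nonneg_left hcs (mul_nonneg ha hb)
    nlinarith
  have s2 : a * k + b * l < a * ener U + b * ener V := by
    rcases lt_or_eq_of_le ha with h | h
    · have h1 := mul_lt_mul_of_pos_left k1 h
      have h2 := mul_le_mul_of_nonneg_left k2.le hb
      linarith
    · have hb1 : b = 1 := by linarith
      rw [← h, hb1]
      linarith
  exact lt_of_le_of_lt s1 (mul_lt_mul_of_pos_right s2 hpos)

/-- a smooth transition between two states -/
def ramp (UL UR : St) (w x : ℝ) : St := UL + Real.smoothTransition ((x + w) / (2 * w)) • (UR - UL)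

lemma ramp_smooth (UL UR : St) (w : ℝ) : ContDiff ℝ ∞ (ramp UL UR w) := by
  have h1 : ContDiff ℝ ∞ (fun x : ℝ => Real.smoothTransition ((x + w) / (2 * w))) :=
    Real.smoothTransition.contDiff.comp ((contDiff_id.add contDiff_const).div_const _)
  have h2 : ContDiff ℝ ∞ (fun _ : ℝ => UR - UL) := contDiff_const
  exact contDiff_const.add (h1.smul h2)

lemma ramp_segment (UL UR : St) (w x : ℝ) : ramp UL UR w x ∈ segment ℝ UL UR := by
  rw [segment_eq_image']
  exact ⟨_, ⟨Real.smoothTransition.nonneg _, Real.smoothTransition.le_one _⟩, rfl⟩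

lemma ramp_left {UL UR : St} {w x : ℝ} (hw : 0 < w) (hx : x ≤ -w) : ramp UL UR w x = UL := by
  unfold ramp
  rw [Real.smoothTransition.zero_of_nonpos, zero_smul, add_zero]
  exact div_nonpos_of_nonpos_of_nonneg (by linarith) (by linarith)

lemma ramp_right {UL UR : St} {w x : ℝ} (hw : 0 < w) (hx : w ≤ x) : ramp UL UR w x = UR := by
  unfold ramp
  rw [Real.smoothTransition.one_of_one_le, one_smul, add_sub_cancel]
  rw [le_div_iff₀ (by positivity)]
  linarith

lemma ramp_var {UL UR : St} {w : ℝ} (hw : 0 < w) :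
    eVariationOn (ramp UL UR w) univ ≤ ‖UR - UL‖₊ := by
  have hm : MonotoneOn (fun x : ℝ => Real.smoothTransition ((x + w) / (2 * w))) univ := by
    intro x _ y _ hxy
    apply Real.smoothTransition.monotone
    gcongr
  have h1 : ramp UL UR w = (fun s : ℝ => UL + s • (UR - UL)) ∘
      (fun x : ℝ => Real.smoothTransition ((x + w) / (2 * w))) := rfl
  have h2 : eVariationOn (ramp UL UR w) univ ≤
      eVariationOn (fun s : ℝ => UL + s • (UR - UL)) (Icc 0 1) := by
    rw [h1]
    exact eVariationOn.comp_le_of_monotoneOn _ _ hm fun x _ =>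
      ⟨Real.smoothTransition.nonneg _, Real.smoothTransition.le_one _⟩
  refine h2.trans ?_
  have h3 : LipschitzOnWith ‖UR - UL‖₊ (fun s : ℝ => UL + s • (UR - UL)) univ := by
    refine LipschitzWith.lipschitzOnWith ?_
    refine LipschitzWith.of_dist_le_mul fun s t => ?_
    rw [dist_eq_norm, dist_eq_norm]
    have : UL + s • (UR - UL) - (UL + t • (UR - UL)) = (s - t) • (UR - UL) := by
      rw [sub_smul]; abel
    rw [this, norm_smul, mul_comm]
    rfl
  have h4 := h3.comp_eVariationOn_le (f := fun s : ℝ => UL + s • (UR - UL))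
    (g := (id : ℝ → ℝ)) (s := Icc (0 : ℝ) 1) (mapsTo_univ _ _)
  have h5 : eVariationOn (id : ℝ → ℝ) (Icc (0 : ℝ) 1) ≤ ENNReal.ofReal (1 - 0) := by
    have := (monotone_id.monotoneOn (Icc (0 : ℝ) 1)).eVariationOn_eq
      (a := (0 : ℝ)) (b := 1) (by simp) (by simp)
    rw [inter_self] at this
    exact this.le
  have h6 : ENNReal.ofReal (1 - 0) = 1 := by simp
  rw [h6] at h5
  calc _ ≤ (‖UR - UL‖₊ : ℝ≥0∞) * eVariationOn (id : ℝ → ℝ) (Icc (0 : ℝ) 1) := h4
    _ ≤ (‖UR - UL‖₊ : ℝ≥0∞) * 1 := by gcongr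
    _ = _ := mul_one _

end

end Pool.Agent.helper23_Euler
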