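import Mathlib
import Pool.Agent.helper23_Euler.Crit2
import Pool.Agent.helper23_Euler.Lifespan

open MeasureTheory Set Filter Topology
open scoped ContDiff ENNReal NNReal

namespace Pool.Agent.helper23_Euler

noncomputable section

/-- the velocity change across a rarefaction wave from the state `U` down to the pressure `π`:
`2c/(γ-1) * (1 - (π/p)^((γ-1)/(2γ)))` -/
def fanDrop (γ π : ℝ) (U : St) : ℝ :=
  2 / (γ - 1) * sound γ U * (1 - (π / pres γ U) ^ ((γ - 1) / (2 * γ)))

lemma relE_near {γ : ℝ} (hγ : 1 < γ) {UL : St} (hUL : UL ∈ Om) {ε : ℝ} (hε : 0 < ε) :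
    ∃ δ, 0 < δ ∧ ∀ U : St, dist U UL ≤ δ → relE γ (dens U) (vel U) (pres γ U) (vel UL)
      (pres γ UL) (en γ (dens UL) (pres γ UL)) ≤ ε := by
  have hγ' : 0 < γ - 1 := by linarith
  have h1 := hUL.1
  have h2 := pres_pos hγ hUL
  have c1 : ContinuousAt dens UL := continuous_dens.continuousAt
  have c2 : ContinuousAt vel UL := contOn_vel.continuousAt (isOpen_Om.mem_nhds hUL)
  have c3 : ContinuousAt (pres γ) UL := contOn_pres.continuousAt (isOpen_Om.mem_nhds hUL)
  have c4 : ContinuousAt (fun U : St => relE γ (dens U) (vel U) (pres γ U) (vel UL) (pres γ UL)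
      (en γ (dens UL) (pres γ UL))) UL := by
    unfold relE te sp en
    refine ContinuousAt.sub (ContinuousAt.sub (ContinuousAt.add (ContinuousAt.sub
      (ContinuousAt.add ((c2.pow 2).div_const 2) ?_) (c2.mul continuousAt_const)) ?_) ?_)
      continuousAt_const
    · exact c3.div (continuousAt_const.mul c1) (by positivity)
    · exact (continuousAt_const.div c1 h1.ne').mul continuousAt_const
    · exact ((c3.log h2.ne').sub (continuousAt_const.mul (c1.log h1.ne'))).mul continuousAt_const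
  have h3 := c4.tendsto
  rw [relE_self hγ h1 h2] at h3
  have h4 := h3.eventually (ge_mem_nhds hε)
  rw [Metric.eventually_nhds_iff] at h4
  obtain ⟨δ, hδ, h5⟩ := h4
  exact ⟨δ / 2, by positivity, fun U hU => h5 (by linarith)⟩

/-- a box with a sharp lower bound of the pressure -/
lemma exists_box2 {γ π : ℝ} (hγ : 1 < γ) {K : Set St} (hK : IsCompact K) (hKO : K ⊆ Om)
    (hne : K.Nonempty) (hπ : ∀ k ∈ K, π < pres γ k) :
    ∃ B : Bds, (∀ k ∈ K, B.In (dens k) (vel k) (pres γ k)) ∧ π < B.pa := by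
  obtain ⟨B, hB⟩ := exists_box hγ hK hKO
  obtain ⟨k0, hk0, hmin⟩ := hK.exists_isMinOn hne (contOn_pres (γ := γ) |>.mono hKO)
  refine ⟨{ B with
      pa := pres γ k0
      pa_pos := pres_pos hγ (hKO hk0)
      pab := (hB k0 hk0).2.2.2 }, ?_, hπ k0 hk0⟩
  intro k hk
  exact ⟨(hB k hk).1, (hB k hk).2.1, hmin hk, (hB k hk).2.2.2⟩

/-- an expansive jump is incompatible with too high pressures: quantitative form -/
theorem lifespan_le2 {γ cv : ℝ} (hγ : 1 < γ) (hcv : 0 < cv) {UL UR : St} {K : Set St}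
    (hKc : IsCompact K) (hKO : K ⊆ Om) (hUL : UL ∈ K) (hUR : UR ∈ K) {π : ℝ} (hπ0 : 0 ≤ π)
    (hπ : ∀ k ∈ K, π < pres γ k)
    (hcrit : fanDrop γ π UL + fanDrop γ π UR ≤ vel UR - vel UL) :
    ∃ C X ε : ℝ, 0 < C ∧ 0 < X ∧ 0 < ε ∧ ∀ (a w : ℝ) (U0 : ℝ → St), 0 < w →
      BoundedVariationOn U0 univ → (∀ x, U0 x ∈ K) →
      (∀ x, a - X * w ≤ x → x ≤ a - w → dist (U0 x) UL ≤ ε) →
      (∀ x, a + w ≤ x → x ≤ a + X * w → dist (U0 x) UR ≤ ε) →
      ∀ (T : ℝ) (U : ℝ × ℝ → St), 0 < T → EntropySol γ cv T U U0 →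
        (BVBounded T U ∨ EntInit γ cv T U U0) →
        (∀ᵐ z ∂(volume.restrict (strip T)), U z ∈ K) → T ≤ C * w := by
  have hγ' : 0 < γ - 1 := by linarith
  have hγ0 : 0 < γ := by linarith
  obtain ⟨B, hB, hBπ⟩ := exists_box2 hγ hKc hKO ⟨UL, hUL⟩ hπ
  have hULO := hKO hUL
  have hURO := hKO hUR
  have hpL := pres_pos hγ hULO
  have hpR := pres_pos hγ hURO
  have hdL := hULO.1
  have hdR := hURO.1
  -- a slightly larger pressure
  obtain ⟨π', hπ'⟩ : ∃ π', π' = (π + B.pa) / 2 := ⟨_, rfl⟩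
  have h1 : π < π' := by rw [hπ']; linarith
  have h2 : π' < B.pa := by rw [hπ']; linarith
  have h3 : 0 < π' := by linarith
  have hβ : 0 < (γ - 1) / (2 * γ) := by positivity
  have mono : ∀ U : St, U ∈ Om → drp γ (dens U) (pres γ U) π' < fanDrop γ π U := by
    intro U hU
    have hp := pres_pos hγ hU
    have hd := hU.1
    unfold drp fanDrop sound
    have h5 : (π / pres γ U) ^ ((γ - 1) / (2 * γ)) < (π' / pres γ U) ^ ((γ - 1) / (2 * γ)) := by
      apply Real.rpow_lt_rpow (by positivity) _ hβ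
      gcongr
    have h6 : 0 < 2 / (γ - 1) * Real.sqrt (γ * pres γ U / dens U) := by
      have : 0 < Real.sqrt (γ * pres γ U / dens U) := Real.sqrt_pos.2 (by positivity)
      positivity
    exact mul_lt_mul_of_pos_left (by linarith) h6
  have hcrit' : drp γ (dens UL) (pres γ UL) π' + drp γ (dens UR) (pres γ UR) π' <
      vel UR - vel UL := by
    have := mono UL hULO
    have := mono UR hURO
    linarith
  obtain ⟨N⟩ := exists_NP2 hγ B (hB UL hUL) (hB UR hUR) h3 h2 hcrit'
  obtain ⟨ε', X, δ, hε', hX, hδ, hno⟩ := no_sol_hole hγ N (T := 1) one_pos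
  obtain ⟨ε1, hε1, hn1⟩ := relE_near hγ hULO hε'
  obtain ⟨ε2, hε2, hn2⟩ := relE_near hγ hURO hε'
  refine ⟨1 / δ, X / δ, min ε1 ε2, by positivity, by positivity, lt_min hε1 hε2, ?_⟩
  intro a w U0 hw hBV hU0K hleft hright T U hT hU hent hUK
  by_contra hlt
  rw [not_le] at hlt
  have mU0 : Measurable U0 := BVDatum.measurable ⟨hBV, K, hKc, hKO, hU0K⟩
  obtain ⟨W, _, _, _, hSol⟩ := toSol hγ hcv hT hKc hKO mU0 hU0K hUK hB hU
    (hent.imp (fun h => ⟨h, hBV⟩) id)
  obtain ⟨s, hs⟩ : ∃ s, s = w / δ := ⟨_, rfl⟩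
  have hs0 : 0 < s := by rw [hs]; positivity
  have hsT : s < T := by
    rw [hs]
    rw [one_div, inv_mul_eq_div] at hlt
    exact hlt
  have hsw : s * δ = w := by rw [hs]; field_simp
  have hsX : X / δ * w = s * X := by rw [hs]; field_simp
  have hsol := (hSol.scale a hs0).mono (T' := 1) (by
    rw [le_div_iff₀ hs0, one_mul]; exact hsT.le)
  refine hno _ _ _ _ _ _ hsol ?_ ?_
  · refine Filter.Eventually.of_forall fun x h2 h3 => ?_
    refine hn1 _ ((hleft _ ?_ ?_).trans (min_le_left _ _))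
    · rw [hsX]
      nlinarith
    · nlinarith
  · refine Filter.Eventually.of_forall fun x h2 h3 => ?_
    refine hn2 _ ((hright _ ?_ ?_).trans (min_le_right _ _))
    · nlinarith
    · rw [hsX]
      nlinarith

/-- the pressure is concave along segments -/
lemma pres_segment {γ π : ℝ} (hγ : 1 < γ) {UL UR : St} (hL : UL ∈ Om) (hR : UR ∈ Om)
    (h1 : π < pres γ UL) (h2 : π < pres γ UR) {U : St} (hU : U ∈ segment ℝ UL UR) :
    π < pres γ U := by
  have hγ' : 0 < γ - 1 := by linarith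
  obtain ⟨a, b, ha, hb, hab, rfl⟩ := hU
  have hpe : ∀ U : St, U ∈ Om → pres γ U = (γ - 1) * (ener U - mom U ^ 2 / (2 * dens U)) := by
    intro U hU
    have := hU.1
    unfold pres eint vel
    field_simp
  have hO := convex_Om hL hR ha hb hab
  rw [hpe _ hO]
  rw [hpe _ hL] at h1
  rw [hpe _ hR] at h2
  have u1 := hL.1
  have v1 := hR.1
  have e1 : dens (a • UL + b • UR) = a * dens UL + b * dens UR := by simp [dens]
  have e2 : mom (a • UL + b • UR) = a * mom UL + b * mom UR := by simp [mom]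
  have e3 : ener (a • UL + b • UR) = a * ener UL + b * ener UR := by simp [ener]
  have hpos : 0 < dens (a • UL + b • UR) := hO.1
  rw [e1] at hpos
  rw [e1, e2, e3]
  have hcs : (a * mom UL + b * mom UR) ^ 2 / (2 * (a * dens UL + b * dens UR)) ≤
      a * (mom UL ^ 2 / (2 * dens UL)) + b * (mom UR ^ 2 / (2 * dens UR)) := by
    rw [div_le_iff₀ (by positivity)]
    have e4 : (a * (mom UL ^ 2 / (2 * dens UL)) + b * (mom UR ^ 2 / (2 * dens UR))) *
        (2 * (a * dens UL + b * dens UR)) - (a * mom UL + b * mom UR) ^ 2 =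
        a * b * ((dens UL * mom UR - dens UR * mom UL) ^ 2 / (dens UL * dens UR)) := by
      field_simp
      ring
    have e5 : 0 ≤ a * b * ((dens UL * mom UR - dens UR * mom UL) ^ 2 / (dens UL * dens UR)) := by
      positivity
    linarith
  have h3 : a * π + b * π < (γ - 1) * (a * (ener UL - mom UL ^ 2 / (2 * dens UL))
      + b * (ener UR - mom UR ^ 2 / (2 * dens UR))) := by
    rcases lt_or_eq_of_le ha with h | h
    · have k1 := mul_lt_mul_of_pos_left h1 h
      have k2 := mul_le_mul_of_nonneg_left h2.le hb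
      nlinarith
    · have hb1 : b = 1 := by linarith
      rw [← h, hb1]
      linarith
  have h4 : a * π + b * π = π := by rw [← add_mul, hab, one_mul]
  have h5 := mul_le_mul_of_nonneg_left hcs hγ'.le
  nlinarith

end

end Pool.Agent.helper23_Euler
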