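import Mathlib
import Pool.Agent.helper23_Euler.Scale

open MeasureTheory Set Filter Topology
open scoped ContDiff Convolution ENNReal NNReal

namespace Pool.Agent.helper23_Euler

noncomputable section

variable {γ T : ℝ} {B : Bds} {r u p : ℝ × ℝ → ℝ} {r0 u0 p0 : ℝ → ℝ}

/-- a global label function up to time `T₁` -/
structure GLab (B : Bds) (T₁ : ℝ) (r : ℝ × ℝ → ℝ) (r0 : ℝ → ℝ) (Y : ℝ × ℝ → ℝ) : Prop where
  lip : ∀ z w, |Y z - Y w| ≤ B.L * ‖z - w‖
  low : ∀ x x' t, x ≤ x' → B.ra * (x' - x) ≤ Y (x', t) - Y (x, t)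
  init : ∀ x t, t ≤ 0 → Y (x, t) = Y0 r0 x
  slice : ∀ᵐ t : ℝ, 0 < t → t < T₁ → ∀ x x' : ℝ, Y (x', t) - Y (x, t) = ∫ s in x..x', r (s, t)

lemma exists_N {T T₁ : ℝ} (hT : T₁ < T) : ∃ N : ℕ, ∀ n : ℕ, T₁ + (bump (N + n)).rOut < T := by
  obtain ⟨N, hN⟩ := exists_nat_one_div_lt (sub_pos.2 hT)
  refine ⟨N, fun n => ?_⟩
  rw [bump_rOut]
  have : 1 / (((N + n : ℕ) : ℝ) + 1) ≤ 1 / ((N : ℝ) + 1) := by
    apply one_div_le_one_div_of_le (by positivity)
    push_cast
    linarith [(Nat.cast_nonneg n : (0 : ℝ) ≤ n)]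
  linarith

/-- existence of the limit label, together with the approximating smooth labels -/
theorem Sol.exists_glab (h : Sol γ T B r u p r0 u0 p0) {T₁ : ℝ} (hT0 : 0 < T₁) (hT : T₁ < T) :
    ∃ (N : ℕ) (ψ : ℕ → ℝ × ℝ → ℝ) (Y : ℝ × ℝ → ℝ),
      (∀ n, T₁ + (bump (N + n)).rOut < T) ∧
      (∀ n, Lab T B (bump (N + n)) (mol (bump (N + n)) (Rx r r0))
        (mol (bump (N + n)) (Mx r u)) (ψ n)) ∧
      (∀ x t, t ≤ T₁ → Tendsto (fun n => ψ n (x, t)) atTop (𝓝 (Y (x, t)))) ∧
      GLab B T₁ r r0 Y := by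
  obtain ⟨N, hN⟩ := exists_N hT
  have hN' : ∀ n : ℕ, (bump (N + n)).rOut < T := fun n => by linarith [hN n]
  choose ψ hψ using fun n => h.exists_lab (bump (N + n)) (hN' n)
  have hL := B.L_nonneg
  have reg : ∀ n x t, t ≤ T₁ → ((x, t) : ℝ × ℝ) ∈ region T (bump (N + n)) := by
    intro n x t ht
    show t + (bump (N + n)).rOut < T
    linarith [hN n]
  -- almost every vertical line
  have hM1 := ae_tendsto_mol N h.locInt_Mx
  rw [Measure.volume_eq_prod] at hM1
  have hM2 := Measure.ae_ae_of_ae_prod hM1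
  have good : ∀ᵐ x : ℝ, ∀ t, t ≤ T₁ → Tendsto (fun n => ψ n (x, t)) atTop
      (𝓝 (Y0 r0 x - ∫ s in (0 : ℝ)..t, Mx r u (x, s))) := by
    filter_upwards [hM2] with x hx t ht
    have e1 : ∀ n, ψ n (x, t) = ψ n (x, 0) - ∫ s in (0 : ℝ)..t,
        mol (bump (N + n)) (Mx r u) (x, s) := by
      intro n
      have e2 : ∫ s in (0 : ℝ)..t, - mol (bump (N + n)) (Mx r u) (x, s) =
          ψ n (x, t) - ψ n (x, 0) := by
        refine intervalIntegral.integral_eq_sub_of_hasDerivAt (f := fun s => ψ n (x, s)) ?_ ?_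
        · intro s hs
          have hs' : s ≤ T₁ := by
            have := hs.2
            exact this.trans (max_le hT0.le ht)
          exact (hψ n).hasDerivAt_t (reg n x s hs')
        · exact (((hψ n).smQ.continuous.comp
            (continuous_const.prodMk continuous_id)).neg).intervalIntegrable _ _
      rw [intervalIntegral.integral_neg] at e2
      linarith
    have e3 : Tendsto (fun n => ∫ s in (0 : ℝ)..t, mol (bump (N + n)) (Mx r u) (x, s)) atTop
        (𝓝 (∫ s in (0 : ℝ)..t, Mx r u (x, s))) := by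
      refine intervalIntegral.tendsto_integral_filter_of_dominated_convergence
        (fun _ => B.rb * B.ub) ?_ ?_ ?_ ?_
      · refine Filter.Eventually.of_forall fun n => ?_
        exact (((hψ n).smQ.continuous.comp
          (continuous_const.prodMk continuous_id))).aestronglyMeasurable
      · refine Filter.Eventually.of_forall fun n => Filter.Eventually.of_forall fun s _ => ?_
        rw [Real.norm_eq_abs]
        exact (hψ n).bQ (x, s)
      · exact intervalIntegrable_const
      · filter_upwards [hx] with s hs _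
        exact hs
    have e4 := (h.tendsto_label N hψ x).sub e3
    refine e4.congr fun n => (e1 n).symm
  -- convergence everywhere
  have cau : ∀ x t, t ≤ T₁ → CauchySeq (fun n => ψ n (x, t)) := by
    intro x t ht
    rw [Metric.cauchySeq_iff]
    intro ε hε
    obtain ⟨x', hx'1, hx'2⟩ := exists_mem_of_ae good (show x < x + ε / (4 * (B.L + 1)) by
      have : 0 < ε / (4 * (B.L + 1)) := by positivity
      linarith)
    have hc := (hx'2 t ht).cauchySeq
    rw [Metric.cauchySeq_iff] at hc
    obtain ⟨M, hM⟩ := hc (ε / 2) (by positivity)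
    refine ⟨M, fun m hm n hn => ?_⟩
    have h1 := hM m hm n hn
    have h2 : ∀ n, |ψ n (x', t) - ψ n (x, t)| ≤ ε / 4 := by
      intro n
      have h3 := (hψ n).lip (reg n x t ht) (reg n x' t ht)
      have h4 : ‖((x', t) : ℝ × ℝ) - (x, t)‖ = x' - x := by
        rw [Prod.norm_def]
        simp only [Prod.fst_sub, Prod.snd_sub, sub_self, norm_zero]
        rw [max_eq_left (norm_nonneg _), Real.norm_eq_abs, abs_of_pos (by linarith [hx'1.1])]
      rw [h4] at h3
      have h5 : B.L * (x' - x) ≤ (B.L + 1) * (ε / (4 * (B.L + 1))) := by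
        have : x' - x ≤ ε / (4 * (B.L + 1)) := by linarith [hx'1.2]
        have h6 : 0 ≤ x' - x := by linarith [hx'1.1]
        nlinarith
      have h6 : (B.L + 1) * (ε / (4 * (B.L + 1))) = ε / 4 := by
        field_simp
      linarith
    rw [Real.dist_eq] at h1 ⊢
    have e : ψ m (x, t) - ψ n (x, t) = (ψ m (x', t) - ψ n (x', t))
        + (ψ n (x', t) - ψ n (x, t)) - (ψ m (x', t) - ψ m (x, t)) := by ring
    rw [e]
    have k1 := abs_sub ((ψ m (x', t) - ψ n (x', t)) + (ψ n (x', t) - ψ n (x, t)))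
      (ψ m (x', t) - ψ m (x, t))
    have k2 := abs_add_le (ψ m (x', t) - ψ n (x', t)) (ψ n (x', t) - ψ n (x, t))
    have k3 := h2 n
    have k4 := h2 m
    linarith
  obtain ⟨Yh, hYh⟩ : ∃ Yh : ℝ × ℝ → ℝ, ∀ x t, t ≤ T₁ →
      Tendsto (fun n => ψ n (x, t)) atTop (𝓝 (Yh (x, t))) := by
    have hex : ∀ z : ℝ × ℝ, ∃ l, z.2 ≤ T₁ → Tendsto (fun n => ψ n z) atTop (𝓝 l) := by
      intro z
      by_cases hz : z.2 ≤ T₁
      · obtain ⟨l, hl⟩ := cauchySeq_tendsto_of_complete (cau z.1 z.2 hz)
        exact ⟨l, fun _ => hl⟩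
      · exact ⟨0, fun h => absurd h hz⟩
    choose l hl using hex
    exact ⟨l, fun x t ht => hl (x, t) ht⟩
  obtain ⟨Y, hY⟩ : ∃ Y : ℝ × ℝ → ℝ, Y = fun z => Yh (z.1, min z.2 T₁) := ⟨_, rfl⟩
  have hYe : ∀ x t, t ≤ T₁ → Y (x, t) = Yh (x, t) := by
    intro x t ht
    rw [hY]
    simp only [min_eq_left ht]
  have lim : ∀ x t, Tendsto (fun n => ψ n (x, min t T₁)) atTop (𝓝 (Y (x, t))) := by
    intro x t
    rw [hY]
    exact hYh x (min t T₁) (min_le_right _ _)
  refine ⟨N, ψ, Y, hN, hψ, ?_, ?_⟩
  · intro x t ht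
    rw [hYe x t ht]
    exact hYh x t ht
  refine ⟨?_, ?_, ?_, ?_⟩
  · intro z w
    refine le_of_tendsto ((lim z.1 z.2).sub (lim w.1 w.2)).abs (Filter.Eventually.of_forall ?_)
    intro n
    refine ((hψ n).lip (reg n w.1 _ (min_le_right _ _)) (reg n z.1 _ (min_le_right _ _))).trans ?_
    refine mul_le_mul_of_nonneg_left ?_ hL
    rw [Prod.norm_def, Prod.norm_def]
    refine max_le_max le_rfl ?_
    simp only [Prod.snd_sub]
    rw [Real.norm_eq_abs, Real.norm_eq_abs]
    exact (abs_min_sub_min_le_max _ _ _ _).trans (by simp)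
  · intro x x' t hxx'
    refine ge_of_tendsto ((lim x' t).sub (lim x t)) (Filter.Eventually.of_forall fun n => ?_)
    have ht : min t T₁ + (bump (N + n)).rOut < T := reg n x (min t T₁) (min_le_right _ _)
    exact (hψ n).lower ht hxx'
  · intro x t ht
    have ht' : t ≤ T₁ := by linarith
    -- before time zero the label is almost constant
    have h1 : Tendsto (fun n => ψ n (x, t)) atTop (𝓝 (Y (x, t))) := by
      have := lim x t
      rwa [min_eq_left ht'] at this
    have key : ∀ t' : ℝ, t' ≤ 0 → Tendsto (fun n => ψ n (x, t')) atTop (𝓝 (Y0 r0 x)) := by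
      intro t' ht'
      have h2 : ∀ n, |ψ n (x, t') - ψ n (x, 0)| ≤ 2 * (B.L * (bump (N + n)).rOut) := by
        intro n
        have hpos := (bump (N + n)).rOut_pos
        by_cases hc : t' ≤ - (bump (N + n)).rOut
        · have := (hψ n).near_init x hc
          rw [abs_sub_comm]
          have h3 : 0 ≤ B.L * (bump (N + n)).rOut := by positivity
          linarith
        · rw [not_le] at hc
          have h3 := (hψ n).lip ((hψ n).mem0 x) (reg n x t' (by linarith))
          have h4 : ‖((x, t') : ℝ × ℝ) - (x, 0)‖ ≤ (bump (N + n)).rOut := by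
            rw [Prod.norm_def]
            simp only [Prod.fst_sub, Prod.snd_sub, sub_self, norm_zero, sub_zero]
            rw [max_eq_right (norm_nonneg _), Real.norm_eq_abs, abs_le]
            constructor <;> linarith
          have h5 : B.L * ‖((x, t') : ℝ × ℝ) - (x, 0)‖ ≤ B.L * (bump (N + n)).rOut :=
            mul_le_mul_of_nonneg_left h4 hL
          have h6 : 0 ≤ B.L * (bump (N + n)).rOut := by positivity
          linarith
      have h7 : Tendsto (fun n => 2 * (B.L * (bump (N + n)).rOut)) atTop (𝓝 0) := by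
        have : Tendsto (fun n => (bump (N + n)).rOut) atTop (𝓝 0) :=
          tendsto_bump.comp (tendsto_add_atTop_nat N |>.congr fun n => by rw [add_comm])
        simpa using (this.const_mul B.L).const_mul 2
      have h8 : Tendsto (fun n => ψ n (x, t') - ψ n (x, 0)) atTop (𝓝 0) :=
        squeeze_zero_norm (fun n => by simpa using h2 n) h7
      simpa using h8.add (h.tendsto_label N hψ x)
    exact tendsto_nhds_unique h1 (key t ht)
  · have hR1 := ae_tendsto_mol N h.locInt_Rx
    rw [Measure.volume_eq_prod] at hR1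
    have hR2 : ∀ᵐ z : ℝ × ℝ ∂(volume.prod volume),
        Tendsto (fun n => mol (bump (N + n)) (Rx r r0) z.swap) atTop (𝓝 (Rx r r0 z.swap)) :=
      (Measure.measurePreserving_swap).quasiMeasurePreserving.ae hR1
    have hR3 := Measure.ae_ae_of_ae_prod hR2
    filter_upwards [hR3] with t ht ht0 htT x x'
    have e1 : ∀ n, ∫ s in x..x', mol (bump (N + n)) (Rx r r0) (s, t) =
        ψ n (x', t) - ψ n (x, t) := by
      intro n
      refine intervalIntegral.integral_eq_sub_of_hasDerivAt (f := fun s => ψ n (s, t)) ?_ ?_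
      · intro s _
        exact (hψ n).hasDerivAt_x (reg n s t htT.le)
      · exact (((hψ n).smP.continuous.comp
          (continuous_id.prodMk continuous_const))).intervalIntegrable _ _
    have e2 : Tendsto (fun n => ∫ s in x..x', mol (bump (N + n)) (Rx r r0) (s, t)) atTop
        (𝓝 (∫ s in x..x', r (s, t))) := by
      refine intervalIntegral.tendsto_integral_filter_of_dominated_convergence
        (fun _ => B.rb) ?_ ?_ ?_ ?_
      · refine Filter.Eventually.of_forall fun n => ?_
        exact (((hψ n).smP.continuous.comp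
          (continuous_id.prodMk continuous_const))).aestronglyMeasurable
      · refine Filter.Eventually.of_forall fun n => Filter.Eventually.of_forall fun s _ => ?_
        rw [Real.norm_eq_abs]
        exact abs_le.2 ⟨by linarith [((hψ n).bP (s, t)).1, B.ra_pos, B.rb_pos],
          ((hψ n).bP (s, t)).2⟩
      · exact intervalIntegrable_const
      · filter_upwards [ht] with s hs _
        have : Rx r r0 (s, t) = r (s, t) := ext_of_pos (z := (s, t)) ht0
        simp only [Prod.swap_prod_mk] at hs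
        rwa [this] at hs
    have e3 := (lim x' t).sub (lim x t)
    rw [min_eq_left htT.le] at e3
    refine tendsto_nhds_unique e3 (e2.congr e1)

end

end Pool.Agent.helper23_Euler
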