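import Mathlib
import Pool.Agent.helper23_Euler.GLab
import Pool.Agent.helper23_Euler.Defs

open MeasureTheory Set Filter Topology
open scoped ContDiff Convolution ENNReal NNReal

namespace Pool.Agent.helper23_Euler

noncomputable section

variable {γ T T₁ : ℝ} {B : Bds} {r u p : ℝ × ℝ → ℝ} {r0 u0 p0 : ℝ → ℝ} {Y : ℝ × ℝ → ℝ}

lemma GLab.cont (h : GLab B T₁ r r0 Y) : Continuous Y := by
  refine (LipschitzWith.of_dist_le_mul (K := ⟨B.L, B.L_nonneg⟩) fun z w => ?_).continuous
  rw [Real.dist_eq, dist_eq_norm]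
  exact h.lip z w

lemma GLab.cont_slice (h : GLab B T₁ r r0 Y) (t : ℝ) : Continuous (fun x => Y (x, t)) :=
  h.cont.comp (by fun_prop)

lemma GLab.mono (h : GLab B T₁ r r0 Y) (t : ℝ) : StrictMono (fun x => Y (x, t)) := by
  intro x x' hx
  have h1 := h.low x x' t hx.le
  have h2 : 0 < B.ra * (x' - x) := mul_pos B.ra_pos (by linarith)
  simp only []
  linarith

lemma GLab.surj (h : GLab B T₁ r r0 Y) (t : ℝ) : Function.Surjective (fun x => Y (x, t)) := by
  have hra := B.ra_pos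
  refine Continuous.surjective (h.cont_slice t) ?_ ?_
  · have h1 : Tendsto (fun x : ℝ => Y (0, t) + B.ra * x) atTop atTop :=
      tendsto_atTop_add_const_left _ _ (tendsto_id.const_mul_atTop hra)
    refine tendsto_atTop_mono' _ ?_ h1
    filter_upwards [eventually_ge_atTop 0] with x hx
    have := h.low 0 x t hx
    linarith
  · have h1 : Tendsto (fun x : ℝ => Y (0, t) + B.ra * x) atBot atBot :=
      tendsto_atBot_add_const_left _ _ (tendsto_id.const_mul_atBot hra)
    refine tendsto_atBot_mono' _ ?_ h1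
    filter_upwards [eventually_le_atBot 0] with x hx
    have := h.low x 0 t hx
    linarith

/-- Lipschitz constant of the inverse label -/
def Bds.LX (B : Bds) : ℝ := (1 + B.L) / B.ra

lemma Bds.LX_nonneg (B : Bds) : 0 ≤ B.LX := by
  have := B.L_nonneg
  have := B.ra_pos
  unfold Bds.LX
  positivity

/-- `X` is the inverse of the label `Y` -/
structure IsInv (B : Bds) (Y X : ℝ × ℝ → ℝ) : Prop where
  right : ∀ y t, Y (X (y, t), t) = y
  left : ∀ x t, X (Y (x, t), t) = x
  lip : ∀ z w, |X z - X w| ≤ B.LX * ‖z - w‖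

lemma GLab.exists_inv (h : GLab B T₁ r r0 Y) : ∃ X, IsInv B Y X := by
  have hra := B.ra_pos
  choose X hX using fun w : ℝ × ℝ => h.surj w.2 w.1
  have hX' : ∀ y t, Y (X (y, t), t) = y := fun y t => hX (y, t)
  refine ⟨X, hX', fun x t => (h.mono t).injective (hX (Y (x, t), t)), ?_⟩
  intro z w
  have k1 : B.ra * |X z - X w| ≤ |Y (X z, z.2) - Y (X w, z.2)| := by
    rcases le_total (X w) (X z) with hc | hc
    · have := h.low (X w) (X z) z.2 hc
      rw [abs_of_nonneg (by linarith)]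
      exact this.trans (le_abs_self _)
    · have := h.low (X z) (X w) z.2 hc
      rw [abs_sub_comm, abs_of_nonneg (by linarith), abs_sub_comm]
      exact this.trans (le_abs_self _)
  have e1 : Y (X z, z.2) = z.1 := hX z
  have e2 : Y (X w, w.2) = w.1 := hX w
  have k2 : |Y (X z, z.2) - Y (X w, z.2)| ≤ |z.1 - w.1| + B.L * |z.2 - w.2| := by
    have e3 : Y (X z, z.2) - Y (X w, z.2) = (z.1 - w.1) - (Y (X w, z.2) - Y (X w, w.2)) := by
      rw [e1, e2]; ring
    rw [e3]
    refine (abs_sub _ _).trans (add_le_add le_rfl ?_)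
    refine (h.lip _ _).trans (le_of_eq ?_)
    congr 1
    rw [Prod.norm_def]
    simp
  have k3 : |z.1 - w.1| ≤ ‖z - w‖ := norm_fst_le (z - w)
  have k4 : |z.2 - w.2| ≤ ‖z - w‖ := norm_snd_le (z - w)
  have hL := B.L_nonneg
  unfold Bds.LX
  rw [div_mul_eq_mul_div, le_div_iff₀ hra]
  nlinarith [mul_le_mul_of_nonneg_left k4 hL]

lemma IsInv.cont {X : ℝ × ℝ → ℝ} (h : IsInv B Y X) : Continuous X := by
  refine (LipschitzWith.of_dist_le_mul (K := ⟨B.LX, B.LX_nonneg⟩) fun z w => ?_).continuous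
  rw [Real.dist_eq, dist_eq_norm]
  exact h.lip z w

/-- the homeomorphism of a time slice -/
def sliceHomeo (h : GLab B T₁ r r0 Y) {X : ℝ × ℝ → ℝ} (hX : IsInv B Y X) (t : ℝ) : ℝ ≃ₜ ℝ where
  toFun x := Y (x, t)
  invFun y := X (y, t)
  left_inv x := hX.left x t
  right_inv y := hX.right y t
  continuous_toFun := h.cont_slice t
  continuous_invFun := hX.cont.comp (by fun_prop)

/-- the homeomorphism of the plane -/
def planeHomeo (h : GLab B T₁ r r0 Y) {X : ℝ × ℝ → ℝ} (hX : IsInv B Y X) :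
    (ℝ × ℝ) ≃ₜ (ℝ × ℝ) where
  toFun z := (Y z, z.2)
  invFun w := (X w, w.2)
  left_inv z := by
    obtain ⟨x, t⟩ := z
    simp only [hX.left x t]
  right_inv w := by
    obtain ⟨y, t⟩ := w
    simp only [hX.right y t]
  continuous_toFun := h.cont.prodMk continuous_snd
  continuous_invFun := hX.cont.prodMk continuous_snd

/-- push-forward of the mass measure by the label on a slice -/
lemma slice_map {ρ y : ℝ → ℝ} {a b : ℝ} (hρ : Measurable ρ) (ha : 0 < a)
    (hρa : ∀ x, a ≤ ρ x) (hρb : ∀ x, ρ x ≤ b) (hy : ∀ x x', y x' - y x = ∫ s in x..x', ρ s)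
    (hc : Continuous y) (hm : StrictMono y) (hs : Function.Surjective y) :
    Measure.map y (volume.withDensity (fun x => ENNReal.ofReal (ρ x))) = volume := by
  symm
  refine Real.measure_ext_Ioo_rat fun q q' => ?_
  rw [Measure.map_apply hc.measurable measurableSet_Ioo]
  by_cases hqq : (q : ℝ) < q'
  · obtain ⟨x, hx⟩ := hs q
    obtain ⟨x', hx'⟩ := hs q'
    have hxx : x < x' := by
      rw [← hm.lt_iff_lt, hx, hx']
      exact hqq
    have hpre : y ⁻¹' Ioo (q : ℝ) q' = Ioo x x' := by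
      ext s
      simp only [mem_preimage, mem_Ioo]
      rw [← hx, ← hx', hm.lt_iff_lt, hm.lt_iff_lt]
    rw [hpre, withDensity_apply _ measurableSet_Ioo, Real.volume_Ioo]
    have hi : IntegrableOn ρ (Ioo x x') := by
      refine Measure.integrableOn_of_bounded (M := b) (by simp) hρ.aestronglyMeasurable ?_
      refine Filter.Eventually.of_forall fun s => ?_
      rw [Real.norm_eq_abs, abs_of_pos (lt_of_lt_of_le ha (hρa s))]
      exact hρb s
    rw [← ofReal_integral_eq_lintegral_ofReal hi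
      (Filter.Eventually.of_forall fun s => (ha.le.trans (hρa s)))]
    congr 1
    rw [← hx, ← hx', hy x x', intervalIntegral.integral_of_le hxx.le, integral_Ioc_eq_integral_Ioo]
  · rw [Ioo_eq_empty hqq]
    simp

lemma strip_eq_prod (T₁ : ℝ) : strip T₁ = univ ×ˢ Ioo 0 T₁ := by
  ext z; simp [strip]

lemma restrict_strip (T₁ : ℝ) : (volume.restrict (strip T₁) : Measure (ℝ × ℝ)) =
    (volume : Measure ℝ).prod (volume.restrict (Ioo 0 T₁)) := by
  rw [strip_eq_prod, Measure.volume_eq_prod, ← Measure.prod_restrict, Measure.restrict_univ]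

/-- the slices of the label map -/
lemma GLab.slice_map (hr : Measurable r) (hra : ∀ z, B.ra ≤ r z) (hrb : ∀ z, r z ≤ B.rb)
    (h : GLab B T₁ r r0 Y) : ∀ᵐ t ∂(volume.restrict (Ioo 0 T₁)),
      Measure.map (fun x => Y (x, t))
        (volume.withDensity (fun x => ENNReal.ofReal (r (x, t)))) = volume := by
  rw [ae_restrict_iff' measurableSet_Ioo]
  filter_upwards [h.slice] with t ht ht'
  exact helper23_Euler.slice_map (hr.comp (by fun_prop)) B.ra_pos (fun x => hra (x, t))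
    (fun x => hrb (x, t)) (ht ht'.1 ht'.2) (h.cont_slice t) (h.mono t) (h.surj t)

/-- the mass measure on the strip is pushed to the Lebesgue measure by the label map -/
theorem GLab.plane_map (hr : Measurable r) (hra : ∀ z, B.ra ≤ r z) (hrb : ∀ z, r z ≤ B.rb)
    (h : GLab B T₁ r r0 Y) :
    Measure.map (fun z : ℝ × ℝ => (Y z, z.2))
      ((volume.restrict (strip T₁)).withDensity (fun z => ENNReal.ofReal (r z))) =
      volume.restrict (strip T₁) := by
  have hm : Measurable (fun z : ℝ × ℝ => (Y z, z.2)) := h.cont.measurable.prodMk measurable_snd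
  refine Measure.ext fun E hE => ?_
  have hmE : MeasurableSet ((fun z : ℝ × ℝ => (Y z, z.2)) ⁻¹' E) := hm hE
  rw [Measure.map_apply hm hE, withDensity_apply _ hmE, ← lintegral_indicator hmE,
    restrict_strip, lintegral_prod_symm' _ (hr.ennreal_ofReal.indicator hmE),
    Measure.prod_apply_symm hE]
  refine lintegral_congr_ae ?_
  filter_upwards [h.slice_map hr hra hrb] with t ht
  have hc : Measurable (fun x => Y (x, t)) := (h.cont_slice t).measurable
  have hEt : MeasurableSet ((fun y : ℝ => (y, t)) ⁻¹' E) := measurable_prodMk_right hE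
  conv_rhs => rw [← ht, Measure.map_apply hc hEt, withDensity_apply _ (hc hEt)]
  rw [← lintegral_indicator (hc hEt)]
  rfl

section transfer

variable {α β : Type*} [MeasurableSpace α] [MeasurableSpace β] {μ : Measure α} {ν : Measure β}
  {f : α → β} {ρ : α → ℝ}

lemma tr_integral (hf : MeasurableEmbedding f) (hρ : Measurable ρ) (h0 : ∀ x, 0 < ρ x)
    (h : Measure.map f (μ.withDensity (fun x => ENNReal.ofReal (ρ x))) = ν) (F : β → ℝ) :
    ∫ x, ρ x * F (f x) ∂μ = ∫ y, F y ∂ν := by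
  rw [← h, hf.integral_map, integral_withDensity_eq_integral_toReal_smul hρ.ennreal_ofReal
    (Filter.Eventually.of_forall fun x => ENNReal.ofReal_lt_top)]
  refine integral_congr_ae (Filter.Eventually.of_forall fun x => ?_)
  simp [ENNReal.toReal_ofReal (h0 x).le]

lemma tr_integrable (hf : MeasurableEmbedding f) (hρ : Measurable ρ) (h0 : ∀ x, 0 < ρ x)
    (h : Measure.map f (μ.withDensity (fun x => ENNReal.ofReal (ρ x))) = ν) {F : β → ℝ}
    (hF : Integrable F ν) : Integrable (fun x => ρ x * F (f x)) μ := by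
  rw [← h, hf.integrable_map_iff, integrable_withDensity_iff_integrable_smul' hρ.ennreal_ofReal
    (Filter.Eventually.of_forall fun x => ENNReal.ofReal_lt_top)] at hF
  refine hF.congr (Filter.Eventually.of_forall fun x => ?_)
  simp [ENNReal.toReal_ofReal (h0 x).le]

lemma tr_integrable' (hf : MeasurableEmbedding f) (hρ : Measurable ρ) (h0 : ∀ x, 0 < ρ x)
    (h : Measure.map f (μ.withDensity (fun x => ENNReal.ofReal (ρ x))) = ν) {F : β → ℝ}
    (hF : Integrable (fun x => ρ x * F (f x)) μ) : Integrable F ν := by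
  rw [← h, hf.integrable_map_iff, integrable_withDensity_iff_integrable_smul' hρ.ennreal_ofReal
    (Filter.Eventually.of_forall fun x => ENNReal.ofReal_lt_top)]
  refine hF.congr (Filter.Eventually.of_forall fun x => ?_)
  simp [ENNReal.toReal_ofReal (h0 x).le]

lemma tr_ae (hf : MeasurableEmbedding f)
    (h : Measure.map f (μ.withDensity (fun x => ENNReal.ofReal (ρ x))) = ν) {g : β → α}
    (hg : ∀ x, g (f x) = x) {P : α → Prop} (hP : ∀ᵐ x ∂μ, P x) : ∀ᵐ y ∂ν, P (g y) := by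
  rw [← h, hf.ae_map_iff]
  refine (withDensity_absolutelyContinuous μ _).ae_le ?_
  filter_upwards [hP] with x hx
  rw [hg]
  exact hx

lemma tr_ae' (hf : MeasurableEmbedding f) (hρ : Measurable ρ) (h0 : ∀ x, 0 < ρ x)
    (h : Measure.map f (μ.withDensity (fun x => ENNReal.ofReal (ρ x))) = ν)
    {P : β → Prop} (hP : ∀ᵐ y ∂ν, P y) : ∀ᵐ x ∂μ, P (f x) := by
  rw [← h, hf.ae_map_iff, ae_withDensity_iff hρ.ennreal_ofReal] at hP
  filter_upwards [hP] with x hx
  exact hx (by simp [h0 x])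

end transfer

/-- a label together with its inverse -/
structure LX (B : Bds) (T₁ : ℝ) (r : ℝ × ℝ → ℝ) (r0 : ℝ → ℝ) (Y X : ℝ × ℝ → ℝ) : Prop where
  mr : Measurable r
  ra : ∀ z, B.ra ≤ r z
  rb : ∀ z, r z ≤ B.rb
  lab : GLab B T₁ r r0 Y
  inv : IsInv B Y X

lemma LX.r_pos {X : ℝ × ℝ → ℝ} (h : LX B T₁ r r0 Y X) (z : ℝ × ℝ) : 0 < r z :=
  lt_of_lt_of_le B.ra_pos (h.ra z)

lemma LX.emb {X : ℝ × ℝ → ℝ} (h : LX B T₁ r r0 Y X) :
    MeasurableEmbedding (fun z : ℝ × ℝ => (Y z, z.2)) :=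
  (planeHomeo h.lab h.inv).measurableEmbedding

lemma LX.emb_slice {X : ℝ × ℝ → ℝ} (h : LX B T₁ r r0 Y X) (t : ℝ) :
    MeasurableEmbedding (fun x : ℝ => Y (x, t)) :=
  (sliceHomeo h.lab h.inv t).measurableEmbedding

lemma LX.plane {X : ℝ × ℝ → ℝ} (h : LX B T₁ r r0 Y X) :
    Measure.map (fun z : ℝ × ℝ => (Y z, z.2))
      ((volume.restrict (strip T₁)).withDensity (fun z => ENNReal.ofReal (r z))) =
      volume.restrict (strip T₁) := h.lab.plane_map h.mr h.ra h.rb

lemma LX.integral {X : ℝ × ℝ → ℝ} (h : LX B T₁ r r0 Y X) (F : ℝ × ℝ → ℝ) :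
    ∫ z in strip T₁, r z * F (Y z, z.2) = ∫ w in strip T₁, F w :=
  tr_integral h.emb h.mr h.r_pos h.plane F

lemma LX.integrable {X : ℝ × ℝ → ℝ} (h : LX B T₁ r r0 Y X) {F : ℝ × ℝ → ℝ}
    (hF : IntegrableOn F (strip T₁)) : IntegrableOn (fun z => r z * F (Y z, z.2)) (strip T₁) :=
  tr_integrable h.emb h.mr h.r_pos h.plane hF

lemma LX.integrable' {X : ℝ × ℝ → ℝ} (h : LX B T₁ r r0 Y X) {F : ℝ × ℝ → ℝ}
    (hF : IntegrableOn (fun z => r z * F (Y z, z.2)) (strip T₁)) : IntegrableOn F (strip T₁) :=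
  tr_integrable' h.emb h.mr h.r_pos h.plane hF

lemma LX.left_plane {X : ℝ × ℝ → ℝ} (h : LX B T₁ r r0 Y X) (z : ℝ × ℝ) :
    (X (Y z, z.2), z.2) = z := by
  obtain ⟨x, t⟩ := z
  rw [h.inv.left x t]

lemma LX.right_plane {X : ℝ × ℝ → ℝ} (h : LX B T₁ r r0 Y X) (w : ℝ × ℝ) :
    (Y (X w, w.2), w.2) = w := by
  obtain ⟨y, t⟩ := w
  rw [h.inv.right y t]

lemma LX.ae {X : ℝ × ℝ → ℝ} (h : LX B T₁ r r0 Y X) {P : ℝ × ℝ → Prop}
    (hP : ∀ᵐ z ∂(volume.restrict (strip T₁)), P z) :
    ∀ᵐ w ∂(volume.restrict (strip T₁)), P (X w, w.2) :=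
  tr_ae h.emb h.plane (g := fun w => (X w, w.2)) (fun z => h.left_plane z) hP

lemma LX.ae' {X : ℝ × ℝ → ℝ} (h : LX B T₁ r r0 Y X) {P : ℝ × ℝ → Prop}
    (hP : ∀ᵐ w ∂(volume.restrict (strip T₁)), P w) :
    ∀ᵐ z ∂(volume.restrict (strip T₁)), P (Y z, z.2) :=
  tr_ae' h.emb h.mr h.r_pos h.plane hP

/-- the slice statements -/
lemma LX.slices {X : ℝ × ℝ → ℝ} (h : LX B T₁ r r0 Y X) :
    ∀ᵐ t ∂(volume.restrict (Ioo 0 T₁)),
      (∀ F : ℝ → ℝ, ∫ x, r (x, t) * F (Y (x, t)) = ∫ y, F y) ∧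
      (∀ F : ℝ → ℝ, Integrable F → Integrable (fun x => r (x, t) * F (Y (x, t)))) ∧
      (∀ P : ℝ → Prop, (∀ᵐ x, P x) → ∀ᵐ y, P (X (y, t))) ∧
      (∀ P : ℝ → Prop, (∀ᵐ y, P y) → ∀ᵐ x, P (Y (x, t))) := by
  filter_upwards [h.lab.slice_map h.mr h.ra h.rb] with t ht
  have hm : Measurable (fun x => r (x, t)) := h.mr.comp (by fun_prop)
  exact ⟨fun F => tr_integral (h.emb_slice t) hm (fun x => h.r_pos (x, t)) ht F,
    fun F hF => tr_integrable (h.emb_slice t) hm (fun x => h.r_pos (x, t)) ht hF,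
    fun P hP => tr_ae (h.emb_slice t) ht (g := fun y => X (y, t)) (fun x => h.inv.left x t) hP,
    fun P hP => tr_ae' (h.emb_slice t) hm (fun x => h.r_pos (x, t)) ht hP⟩

end

end Pool.Agent.helper23_Euler
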