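import Mathlib
import Pool.Agent.helper23_Euler.Inv

open MeasureTheory Set Filter Topology
open scoped ContDiff Convolution ENNReal NNReal

namespace Pool.Agent.helper23_Euler

noncomputable section

variable {γ T T₁ : ℝ} {B : Bds} {r u p : ℝ × ℝ → ℝ} {r0 u0 p0 : ℝ → ℝ} {Y X : ℝ × ℝ → ℝ}

/-- smooth labels converging to the label -/
structure Appr (T T₁ : ℝ) (B : Bds) (r u : ℝ × ℝ → ℝ) (r0 : ℝ → ℝ) (N : ℕ)
    (ψ : ℕ → ℝ × ℝ → ℝ) (Y : ℝ × ℝ → ℝ) : Prop where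
  pos : 0 < T₁
  small : ∀ n, T₁ + (bump (N + n)).rOut < T
  lab : ∀ n, Lab T B (bump (N + n)) (mol (bump (N + n)) (Rx r r0))
        (mol (bump (N + n)) (Mx r u)) (ψ n)
  lim : ∀ x t, t ≤ T₁ → Tendsto (fun n => ψ n (x, t)) atTop (𝓝 (Y (x, t)))
  lR : LocallyIntegrable (Rx r r0)
  lM : LocallyIntegrable (Mx r u)
  init : ∀ x, Y (x, 0) = Y0 r0 x

theorem Sol.exists_appr (h : Sol γ T B r u p r0 u0 p0) {T₁ : ℝ} (hT0 : 0 < T₁) (hT : T₁ < T) :
    ∃ N ψ Y X, Appr T T₁ B r u r0 N ψ Y ∧ LX B T₁ r r0 Y X := by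
  obtain ⟨N, ψ, Y, h1, h2, h3, h4⟩ := h.exists_glab hT0 hT
  obtain ⟨X, hX⟩ := h4.exists_inv
  exact ⟨N, ψ, Y, X, ⟨hT0, h1, h2, h3, h.locInt_Rx, h.locInt_Mx, fun x => h4.init x 0 le_rfl⟩,
    ⟨h.mr, fun z => (h.box z).1.1, fun z => (h.box z).1.2, h4, hX⟩⟩

variable {N : ℕ} {ψ : ℕ → ℝ × ℝ → ℝ}

/-- the pulled back test function -/
def pb (T : ℝ) (N : ℕ) (ψ : ℕ → ℝ × ℝ → ℝ) (φ : ℝ × ℝ → ℝ) (n : ℕ) : ℝ × ℝ → ℝ :=
  pull T (bump (N + n)) (ψ n) φ

lemma Appr.reg (h : Appr T T₁ B r u r0 N ψ Y) (n : ℕ) {z : ℝ × ℝ} (hz : z.2 ≤ T₁) :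
    z ∈ region T (bump (N + n)) := by
  show z.2 + (bump (N + n)).rOut < T
  linarith [h.small n]

lemma Appr.isTest (h : Appr T T₁ B r u r0 N ψ Y) {φ : ℝ × ℝ → ℝ} (hφ : IsTest T₁ φ) (n : ℕ) :
    IsTest T (pb T N ψ φ n) := (h.lab n).isTest_pull hφ (h.small n)

lemma Appr.dt_pb (h : Appr T T₁ B r u r0 N ψ Y) {φ : ℝ × ℝ → ℝ} (hφ : IsTest T₁ φ) (n : ℕ)
    (z : ℝ × ℝ) : dt (pb T N ψ φ n) z =
      dt φ (ψ n z, z.2) - mol (bump (N + n)) (Mx r u) z * dx φ (ψ n z, z.2) :=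
  (h.lab n).dt_pull hφ (h.small n) z

lemma Appr.dx_pb (h : Appr T T₁ B r u r0 N ψ Y) {φ : ℝ × ℝ → ℝ} (hφ : IsTest T₁ φ) (n : ℕ)
    (z : ℝ × ℝ) : dx (pb T N ψ φ n) z =
      mol (bump (N + n)) (Rx r r0) z * dx φ (ψ n z, z.2) :=
  (h.lab n).dx_pull hφ (h.small n) z

lemma Appr.val (h : Appr T T₁ B r u r0 N ψ Y) {φ : ℝ × ℝ → ℝ} (hφ : IsTest T₁ φ) (n : ℕ)
    (z : ℝ × ℝ) : pb T N ψ φ n z = φ (ψ n z, z.2) := by
  by_cases hz : z ∈ region T (bump (N + n))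
  · exact pull_of_mem hz
  · rw [pb, pull_of_notMem hz]
    have h1 : T₁ ≤ z.2 := by
      by_contra h'
      exact hz (h.reg n (not_le.1 h').le)
    exact (image_eq_zero_of_notMem_tsupport (hφ.eq_zero_of_le (z := (ψ n z, z.2)) h1)).symm

/-- a common support and bound of the pulled back test functions -/
lemma Appr.exists_supp (h : Appr T T₁ B r u r0 N ψ Y) {φ : ℝ × ℝ → ℝ} (hφ : IsTest T₁ φ) :
    ∃ ρ D : ℝ, 0 ≤ D ∧ (∀ n z, z ∉ Metric.closedBall (0 : ℝ × ℝ) ρ →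
        pb T N ψ φ n z = 0 ∧ dt (pb T N ψ φ n) z = 0 ∧ dx (pb T N ψ φ n) z = 0) ∧
      (∀ n z, |pb T N ψ φ n z| ≤ D ∧ |dt (pb T N ψ φ n) z| ≤ D ∧
        |dx (pb T N ψ φ n) z| ≤ D) := by
  obtain ⟨X, hX⟩ := hφ.cpt.isCompact.isBounded.subset_closedBall 0
  obtain ⟨D0, hD0, hD0'⟩ := exists_bound_self hφ.continuous hφ.cpt
  obtain ⟨D1, hD1, hD1'⟩ := exists_bound_dt hφ.smooth hφ.cpt
  obtain ⟨D2, hD2, hD2'⟩ := exists_bound_dx hφ.smooth hφ.cpt
  have hrb := B.rb_pos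
  have hub := B.ub_nonneg
  refine ⟨B.rad X, D0 + (D1 + B.rb * B.ub * D2) + B.rb * D2, by positivity, ?_, ?_⟩
  · intro n z hz
    have hout : (ψ n z, z.2) ∉ tsupport φ := by
      intro h'
      by_cases hz2 : T₁ ≤ z.2
      · exact hφ.eq_zero_of_le (z := (ψ n z, z.2)) hz2 h'
      · have h1 := hX h'
        rw [mem_closedBall_zero_iff] at h1
        exact hz (by
          rw [mem_closedBall_zero_iff]
          exact (h.lab n).norm_le (h.reg n (not_le.1 hz2).le) h1)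
    rw [h.val hφ, h.dt_pb hφ, h.dx_pb hφ, dt_eq_zero hout, dx_eq_zero hout,
      image_eq_zero_of_notMem_tsupport hout]
    simp
  · intro n z
    have h1 : |mol (bump (N + n)) (Rx r r0) z| ≤ B.rb :=
      abs_le.2 ⟨by linarith [((h.lab n).bP z).1, B.ra_pos], ((h.lab n).bP z).2⟩
    have h2 : |mol (bump (N + n)) (Mx r u) z| ≤ B.rb * B.ub := (h.lab n).bQ z
    rw [h.val hφ, h.dt_pb hφ, h.dx_pb hφ]
    have e1 : |mol (bump (N + n)) (Mx r u) z * dx φ (ψ n z, z.2)| ≤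
        B.rb * B.ub * D2 := by
      rw [abs_mul]
      exact mul_le_mul h2 (hD2' _) (abs_nonneg _) (by positivity)
    have e2 : |mol (bump (N + n)) (Rx r r0) z * dx φ (ψ n z, z.2)| ≤
        B.rb * D2 := by
      rw [abs_mul]
      exact mul_le_mul h1 (hD2' _) (abs_nonneg _) (by positivity)
    have e3 := abs_sub (dt φ (ψ n z, z.2))
      (mol (bump (N + n)) (Mx r u) z * dx φ (ψ n z, z.2))
    have e4 := hD0' (ψ n z, z.2)
    have e5 := hD1' (ψ n z, z.2)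
    have e6 : 0 ≤ B.rb * B.ub * D2 := by positivity
    have e7 : 0 ≤ B.rb * D2 := by positivity
    refine ⟨by linarith, by linarith, by linarith⟩

/-- pointwise limits -/
lemma Appr.ae_lim (h : Appr T T₁ B r u r0 N ψ Y) {φ : ℝ × ℝ → ℝ} (hφ : IsTest T₁ φ) :
    ∀ᵐ z ∂(volume.restrict up),
      Tendsto (fun n => pb T N ψ φ n z) atTop (𝓝 (φ (Y z, z.2))) ∧
      Tendsto (fun n => dt (pb T N ψ φ n) z) atTop
        (𝓝 (dt φ (Y z, z.2) - r z * u z * dx φ (Y z, z.2))) ∧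
      Tendsto (fun n => dx (pb T N ψ φ n) z) atTop
        (𝓝 (r z * dx φ (Y z, z.2))) := by
  rw [ae_restrict_iff' measurableSet_up]
  filter_upwards [ae_tendsto_mol N h.lR, ae_tendsto_mol N h.lM] with z h1 h2 hz
  have hz' : 0 < z.2 := hz
  have e1 : Rx r r0 z = r z := ext_of_pos hz'
  have e2 : Mx r u z = r z * u z := ext_of_pos hz'
  rw [e1] at h1
  rw [e2] at h2
  simp only [h.val hφ, h.dt_pb hφ, h.dx_pb hφ]
  by_cases hzT : z.2 ≤ T₁
  · have hl : Tendsto (fun n => (ψ n z, z.2)) atTop (𝓝 (Y z, z.2)) :=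
      (h.lim z.1 z.2 hzT).prodMk_nhds tendsto_const_nhds
    have l1 := (hφ.continuous.tendsto _).comp hl
    have l2 := ((continuous_dt hφ.smooth).tendsto _).comp hl
    have l3 := ((continuous_dx hφ.smooth).tendsto _).comp hl
    exact ⟨l1, l2.sub (h2.mul l3), h1.mul l3⟩
  · have hz2 : T₁ ≤ z.2 := (not_le.1 hzT).le
    have z0 : ∀ y : ℝ, φ (y, z.2) = 0 := fun y =>
      image_eq_zero_of_notMem_tsupport (hφ.eq_zero_of_le (z := (y, z.2)) hz2)
    have z1 : ∀ y : ℝ, dt φ (y, z.2) = 0 := fun y =>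
      dt_eq_zero (hφ.eq_zero_of_le (z := (y, z.2)) hz2)
    have z2 : ∀ y : ℝ, dx φ (y, z.2) = 0 := fun y =>
      dx_eq_zero (hφ.eq_zero_of_le (z := (y, z.2)) hz2)
    simp [z0, z1, z2]

theorem Appr.limit (h : Appr T T₁ B r u r0 N ψ Y) {φ : ℝ × ℝ → ℝ} (hφ : IsTest T₁ φ)
    {A F G : ℝ × ℝ → ℝ} (hA : LocallyIntegrable A) (hF : LocallyIntegrable F)
    (hG : LocallyIntegrable G) :
    Tendsto (fun n => ∫ z in up, (A z * dt (pb T N ψ φ n) z
      + F z * dx (pb T N ψ φ n) z + G z * pb T N ψ φ n z)) atTop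
    (𝓝 (∫ z in up, (A z * (dt φ (Y z, z.2)
        - r z * u z * dx φ (Y z, z.2))
      + F z * (r z * dx φ (Y z, z.2)) + G z * φ (Y z, z.2)))) := by
  obtain ⟨ρ, D, hD0, hout, hD⟩ := h.exists_supp hφ
  refine tendsto_integral_of_dominated_convergence
    (fun z => (Metric.closedBall (0 : ℝ × ℝ) ρ).indicator
      (fun z => (|A z| + |F z| + |G z|) * D) z) ?_ ?_ ?_ ?_
  · intro n
    have c1 := (continuous_dt (h.isTest hφ n).smooth)
    have c2 := (continuous_dx (h.isTest hφ n).smooth)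
    have c3 := (h.isTest hφ n).continuous
    exact (((hA.aestronglyMeasurable.mul c1.aestronglyMeasurable).add
      (hF.aestronglyMeasurable.mul c2.aestronglyMeasurable)).add
      (hG.aestronglyMeasurable.mul c3.aestronglyMeasurable)).restrict
  · refine Integrable.integrableOn ?_
    rw [integrable_indicator_iff Metric.isClosed_closedBall.measurableSet]
    have hK := isCompact_closedBall (0 : ℝ × ℝ) ρ
    exact (((hA.integrableOn_isCompact hK).abs.add (hF.integrableOn_isCompact hK).abs).add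
      (hG.integrableOn_isCompact hK).abs).mul_const D
  · intro n
    refine Filter.Eventually.of_forall fun z => ?_
    by_cases hz : z ∈ Metric.closedBall (0 : ℝ × ℝ) ρ
    · rw [indicator_of_mem hz, Real.norm_eq_abs]
      obtain ⟨d1, d2, d3⟩ := hD n z
      refine (abs_add_three _ _ _).trans ?_
      rw [abs_mul, abs_mul, abs_mul, add_mul, add_mul]
      gcongr
    · rw [indicator_of_notMem hz]
      obtain ⟨o1, o2, o3⟩ := hout n z hz
      rw [o1, o2, o3]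
      simp
  · filter_upwards [h.ae_lim hφ] with z hz
    exact ((hz.2.1.const_mul _).add (hz.2.2.const_mul _)).add (hz.1.const_mul _)

theorem Appr.limit0 (h : Appr T T₁ B r u r0 N ψ Y) {φ : ℝ × ℝ → ℝ} (hφ : IsTest T₁ φ)
    {A0 : ℝ → ℝ} (hA : LocallyIntegrable A0) :
    Tendsto (fun n => ∫ x, A0 x * pb T N ψ φ n (x, 0)) atTop
    (𝓝 (∫ x, A0 x * φ (Y0 r0 x, 0))) := by
  obtain ⟨ρ, D, hD0, hout, hD⟩ := h.exists_supp hφ
  refine tendsto_integral_of_dominated_convergence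
    (fun x => (Metric.closedBall (0 : ℝ) ρ).indicator (fun x => |A0 x| * D) x) ?_ ?_ ?_ ?_
  · intro n
    have c3 : Continuous (fun x : ℝ => pb T N ψ φ n (x, 0)) :=
      (h.isTest hφ n).continuous.comp (by fun_prop)
    exact hA.aestronglyMeasurable.mul c3.aestronglyMeasurable
  · rw [integrable_indicator_iff Metric.isClosed_closedBall.measurableSet]
    exact (hA.integrableOn_isCompact (isCompact_closedBall (0 : ℝ) ρ)).abs.mul_const D
  · intro n
    refine Filter.Eventually.of_forall fun x => ?_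
    by_cases hx : x ∈ Metric.closedBall (0 : ℝ) ρ
    · rw [indicator_of_mem hx, Real.norm_eq_abs, abs_mul]
      exact mul_le_mul_of_nonneg_left (hD n (x, 0)).1 (abs_nonneg _)
    · rw [indicator_of_notMem hx]
      have hx' : ((x, 0) : ℝ × ℝ) ∉ Metric.closedBall (0 : ℝ × ℝ) ρ := by
        intro h'
        apply hx
        rw [mem_closedBall_zero_iff] at h' ⊢
        exact (norm_fst_le (x, (0 : ℝ))).trans h'
      rw [(hout n (x, 0) hx').1]
      simp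
  · refine Filter.Eventually.of_forall fun x => ?_
    refine Tendsto.const_mul _ ?_
    simp only [h.val hφ]
    have hl : Tendsto (fun n => (ψ n (x, 0), (0 : ℝ))) atTop (𝓝 (Y (x, 0), 0)) :=
      (h.lim x 0 h.pos.le).prodMk_nhds tendsto_const_nhds
    rw [h.init x] at hl
    exact (hφ.continuous.tendsto _).comp hl

/-- weak equations tested with functions of the label -/
theorem Appr.weakEq (h : Appr T T₁ B r u r0 N ψ Y) {φ : ℝ × ℝ → ℝ} (hφ : IsTest T₁ φ)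
    {A F : ℝ × ℝ → ℝ} {A0 : ℝ → ℝ} (hA : LocallyIntegrable A) (hF : LocallyIntegrable F)
    (hA0 : LocallyIntegrable A0) (hw : WeakEq T A F A0) :
    (∫ z in up, (A z * (dt φ (Y z, z.2)
        - r z * u z * dx φ (Y z, z.2))
      + F z * (r z * dx φ (Y z, z.2)))) + ∫ x, A0 x * φ (Y0 r0 x, 0) = 0 := by
  have h0 : LocallyIntegrable (fun _ : ℝ × ℝ => (0 : ℝ)) := continuous_const.locallyIntegrable
  have l1 := (h.limit hφ hA hF h0).add (h.limit0 hφ hA0)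
  simp only [zero_mul, add_zero] at l1
  have l2 : (fun n => (∫ z in up, (A z * dt (pb T N ψ φ n) z
      + F z * dx (pb T N ψ φ n) z)) + ∫ x, A0 x * pb T N ψ φ n (x, 0)) =
      fun _ => 0 := by
    ext n
    exact hw _ (h.isTest hφ n)
  rw [l2] at l1
  exact (tendsto_nhds_unique l1 tendsto_const_nhds)

theorem Appr.weakLe (h : Appr T T₁ B r u r0 N ψ Y) {φ : ℝ × ℝ → ℝ} (hφ : IsTest T₁ φ)
    (hφ0 : ∀ z, 0 ≤ φ z)
    {A F : ℝ × ℝ → ℝ} {A0 : ℝ → ℝ} (hA : LocallyIntegrable A) (hF : LocallyIntegrable F)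
    (hA0 : LocallyIntegrable A0) (hw : WeakLe T A F A0) :
    (∫ z in up, (A z * (dt φ (Y z, z.2)
        - r z * u z * dx φ (Y z, z.2))
      + F z * (r z * dx φ (Y z, z.2)))) + ∫ x, A0 x * φ (Y0 r0 x, 0) ≤ 0 := by
  have h0 : LocallyIntegrable (fun _ : ℝ × ℝ => (0 : ℝ)) := continuous_const.locallyIntegrable
  have l1 := (h.limit hφ hA hF h0).add (h.limit0 hφ hA0)
  simp only [zero_mul, add_zero] at l1
  refine le_of_tendsto' l1 fun n => hw _ (h.isTest hφ n) fun z => ?_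
  exact pull_nonneg hφ0 z

end

end Pool.Agent.helper23_Euler
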