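import Mathlib
import Pool.Agent.helper23_Euler.Defs

open MeasureTheory Set
open scoped NNReal

namespace Pool.Agent.helper23_Euler

noncomputable section

/-- `f` has the weak `x`-derivative `m` on the strip `0 < t < T`, and `m` is integrable on
bounded subsets of the strip (up to the initial time) -/
def WeakDx (T : ℝ) (f m : ℝ × ℝ → ℝ) : Prop :=
  (∀ ρ : ℝ, IntegrableOn m (strip T ∩ {z | |z.1| ≤ ρ})) ∧
  ∀ φ, IsTest T φ → tsupport φ ⊆ up → ∫ z in up, f z * dx φ z = - ∫ z in up, m z * φ z

/-- velocity and pressure have weak `x`-derivatives on the strip that are functions, integrable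
on bounded subsets of the strip, and the one of the velocity is at least `-C` (nothing is asked
of the density) -/
def ShockFree (γ T C : ℝ) (U : ℝ × ℝ → St) : Prop :=
  ∃ m g : ℝ × ℝ → ℝ, WeakDx T (fun z => vel (U z)) m ∧ WeakDx T (fun z => pres γ (U z)) g ∧
    ∀ᵐ z ∂(volume.restrict (strip T)), -C ≤ m z

/-- `U(·,t)` has total variation at most `M` for a.e. `t` in `(0,T)` (up to a null set of
points `x`) -/
def TVle (M : ℝ≥0) (T : ℝ) (U : ℝ × ℝ → St) : Prop :=
  ∀ᵐ t ∂(volume.restrict (Ioo 0 T)),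
    ∃ V : ℝ → St, (∀ᵐ x : ℝ, U (x, t) = V x) ∧ eVariationOn V univ ≤ M

end

end Pool.Agent.helper23_Euler
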