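import Mathlib
import Pool.Agent.helper23_Euler.Appr
import Pool.Agent.helper23_Euler.SFDefs

open MeasureTheory Set Filter Topology
open scoped ContDiff Convolution ENNReal NNReal

namespace Pool.Agent.helper23_Euler

noncomputable section

variable {γ T T₁ : ℝ} {B : Bds} {r u p : ℝ × ℝ → ℝ} {r0 u0 p0 : ℝ → ℝ} {Y X : ℝ × ℝ → ℝ}

lemma up_to_strip {F : ℝ × ℝ → ℝ} (h : ∀ z, T₁ ≤ z.2 → F z = 0) :
    ∫ z in up, F z = ∫ z in strip T₁, F z := by
  refine setIntegral_eq_of_subset_of_forall_sdiff_eq_zero measurableSet_up ?_ ?_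
  · exact fun z hz => hz.1
  · intro z hz
    refine h z ?_
    by_contra h'
    exact hz.2 ⟨hz.1, not_le.1 h'⟩

lemma LX.conv (h : LX B T₁ r r0 Y X) {G : ℝ × ℝ → ℝ} (hG : ∀ z, T₁ ≤ z.2 → G z = 0) :
    ∫ z in up, r z * G (Y z, z.2) = ∫ w in up, G w := by
  rw [up_to_strip hG, up_to_strip (T₁ := T₁), h.integral]
  intro z hz
  rw [hG (Y z, z.2) hz, mul_zero]

/-- composition with the inverse label map -/
def lc (X : ℝ × ℝ → ℝ) (f : ℝ × ℝ → ℝ) (w : ℝ × ℝ) : ℝ := f (X w, w.2)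

lemma LX.lc_apply (h : LX B T₁ r r0 Y X) (f : ℝ × ℝ → ℝ) (z : ℝ × ℝ) :
    lc X f (Y z, z.2) = f z := by
  unfold lc
  simp only []
  rw [h.left_plane z]

/-- the equations in label coordinates -/
structure Lag (γ T₁ : ℝ) (R U P : ℝ × ℝ → ℝ) (r0 u0 p0 : ℝ → ℝ) : Prop where
  energy : ∀ φ, IsTest T₁ φ → (∫ w in up, (te γ (R w) (U w) (P w) * dt φ w + P w * U w * dx φ w))
    + ∫ x, r0 x * te γ (r0 x) (u0 x) (p0 x) * φ (Y0 r0 x, 0) = 0
  momentum : ∀ φ, IsTest T₁ φ → (∫ w in up, (U w * dt φ w + P w * dx φ w))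
    + ∫ x, r0 x * u0 x * φ (Y0 r0 x, 0) = 0
  mass : ∀ φ, IsTest T₁ φ → (∫ w in up, (1 / R w * dt φ w - U w * dx φ w))
    + ∫ x, φ (Y0 r0 x, 0) = 0
  entropy : ∀ φ, IsTest T₁ φ → (∀ z, 0 ≤ φ z) → (∫ w in up, sp γ (R w) (P w) * dt φ w)
    + ∫ x, r0 x * sp γ (r0 x) (p0 x) * φ (Y0 r0 x, 0) ≤ 0

lemma locInt_bd {f : ℝ × ℝ → ℝ} (hf : Measurable f) {C : ℝ} (hC : ∀ z, |f z| ≤ C) :
    LocallyIntegrable f := locInt_of_bdd hf hC

variable {N : ℕ} {ψ : ℕ → ℝ × ℝ → ℝ}

theorem Sol.lag (hγ : 1 < γ) (h : Sol γ T B r u p r0 u0 p0) (hA : Appr T T₁ B r u r0 N ψ Y)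
    (hX : LX B T₁ r r0 Y X) : Lag γ T₁ (lc X r) (lc X u) (lc X p) r0 u0 p0 := by
  obtain ⟨C, hC0, hC⟩ := exists_bd hγ B
  have hrb := B.rb_pos
  have hub := B.ub_nonneg
  have hpb : 0 ≤ B.pb := le_trans B.pa_pos.le B.pab
  have b1 : ∀ {r u p : ℝ}, B.In r u p → |r * te γ r u p| ≤ B.rb * C := by
    intro r u p hh
    rw [abs_mul]
    exact mul_le_mul hh.abs_r (hC _ _ _ hh).1 (abs_nonneg _) hrb.le
  have bp : ∀ {r u p : ℝ}, B.In r u p → |p| ≤ B.pb := by
    intro r u p hh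
    rw [abs_of_pos hh.p_pos]
    exact hh.2.2.2
  have b2 : ∀ {r u p : ℝ}, B.In r u p → |(r * te γ r u p + p) * u| ≤ (B.rb * C + B.pb) * B.ub := by
    intro r u p hh
    rw [abs_mul]
    exact mul_le_mul ((abs_add_le _ _).trans (add_le_add (b1 hh) (bp hh))) hh.2.1
      (abs_nonneg _) (by positivity)
  have b4 : ∀ {r u p : ℝ}, B.In r u p → |r * u ^ 2 + p| ≤ B.rb * B.ub ^ 2 + B.pb := by
    intro r u p hh
    refine (abs_add_le _ _).trans (add_le_add ?_ (bp hh))
    rw [abs_mul, abs_pow]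
    exact mul_le_mul hh.abs_r (pow_le_pow_left₀ (abs_nonneg _) hh.2.1 2) (by positivity) hrb.le
  have b5 : ∀ {r u p : ℝ}, B.In r u p → |r * sp γ r p| ≤ B.rb * C := by
    intro r u p hh
    rw [abs_mul]
    exact mul_le_mul hh.abs_r (hC _ _ _ hh).2 (abs_nonneg _) hrb.le
  have b6 : ∀ {r u p : ℝ}, B.In r u p → |r * u * sp γ r p| ≤ B.rb * B.ub * C := by
    intro r u p hh
    rw [abs_mul]
    exact mul_le_mul hh.abs_ru (hC _ _ _ hh).2 (abs_nonneg _) (by positivity)
  have m1 : Measurable (fun z => r z * te γ (r z) (u z) (p z)) := h.mr.mul h.meas_te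
  have m2 : Measurable (fun z => (r z * te γ (r z) (u z) (p z) + p z) * u z) :=
    (m1.add h.mp).mul h.mu
  have m3 : Measurable (fun z => r z * u z) := h.mr.mul h.mu
  have m4 : Measurable (fun z => r z * u z ^ 2 + p z) := (h.mr.mul (h.mu.pow_const 2)).add h.mp
  have m5 : Measurable (fun z => r z * sp γ (r z) (p z)) := h.mr.mul h.meas_sp
  have m6 : Measurable (fun z => r z * u z * sp γ (r z) (p z)) := m3.mul h.meas_sp
  refine ⟨?_, ?_, ?_, ?_⟩
  · intro φ hφ
    have k := hA.weakEq hφ (locInt_bd m1 fun z => b1 (h.box z)) (locInt_bd m2 fun z => b2 (h.box z))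
      (locInt1_of_bdd (h.mr0.mul h.meas_te0) fun x => b1 (h.box0 x)) h.energy
    refine Eq.trans ?_ k
    congr 1
    rw [← hX.conv]
    · refine setIntegral_congr_fun measurableSet_up fun z _ => ?_
      simp only [hX.lc_apply]
      ring
    · intro z hz
      rw [dt_eq_zero (hφ.eq_zero_of_le hz), dx_eq_zero (hφ.eq_zero_of_le hz)]
      ring
  · intro φ hφ
    have k := hA.weakEq hφ (locInt_bd m3 fun z => (h.box z).abs_ru)
      (locInt_bd m4 fun z => b4 (h.box z))
      (locInt1_of_bdd (h.mr0.mul h.mu0) fun x => (h.box0 x).abs_ru) h.momentum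
    refine Eq.trans ?_ k
    congr 1
    rw [← hX.conv]
    · refine setIntegral_congr_fun measurableSet_up fun z _ => ?_
      simp only [hX.lc_apply]
      ring
    · intro z hz
      rw [dt_eq_zero (hφ.eq_zero_of_le hz), dx_eq_zero (hφ.eq_zero_of_le hz)]
      ring
  · intro φ hφ
    have h1 : WeakEq T (fun _ => 1) (fun _ => 0) (fun _ => 1) := by
      intro φ hφ
      simp only [one_mul, zero_mul, add_zero]
      rw [setIntegral_up_dt hφ.smooth hφ.cpt]
      ring
    have k := hA.weakEq hφ (continuous_const.locallyIntegrable) (continuous_const.locallyIntegrable)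
      (continuous_const.locallyIntegrable) h1
    simp only [one_mul, zero_mul, add_zero] at k
    refine Eq.trans ?_ k
    congr 1
    rw [← hX.conv]
    · refine setIntegral_congr_fun measurableSet_up fun z _ => ?_
      have hr := (h.box z).r_pos
      simp only [hX.lc_apply]
      field_simp
    · intro z hz
      rw [dt_eq_zero (hφ.eq_zero_of_le hz), dx_eq_zero (hφ.eq_zero_of_le hz)]
      ring
  · intro φ hφ hφ0
    have k := hA.weakLe hφ hφ0 (locInt_bd m5 fun z => b5 (h.box z))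
      (locInt_bd m6 fun z => b6 (h.box z))
      (locInt1_of_bdd (h.mr0.mul h.meas_sp0) fun x => b5 (h.box0 x)) h.entropy
    refine le_of_eq_of_le ?_ k
    congr 1
    rw [← hX.conv]
    · refine setIntegral_congr_fun measurableSet_up fun z _ => ?_
      simp only [hX.lc_apply]
      ring
    · intro z hz
      rw [dt_eq_zero (hφ.eq_zero_of_le hz)]
      ring

lemma locInt_strip {m : ℝ × ℝ → ℝ} (h : ∀ ρ : ℝ, IntegrableOn m (strip T ∩ {z | |z.1| ≤ ρ})) :
    LocallyIntegrable ((strip T).indicator m) := by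
  have hS : MeasurableSet (strip T) :=
    (measurableSet_lt measurable_const measurable_snd).inter
      (measurableSet_lt measurable_snd measurable_const)
  rw [locallyIntegrable_iff]
  intro K hK
  obtain ⟨ρ, hρ⟩ := hK.isBounded.subset_closedBall 0
  rw [IntegrableOn, integrable_indicator_iff hS, IntegrableOn, Measure.restrict_restrict hS]
  refine (h ρ).mono_set ?_
  intro z hz
  refine ⟨hz.1, ?_⟩
  have h1 := hρ hz.2
  rw [mem_closedBall_zero_iff] at h1
  exact (norm_fst_le z).trans h1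

end

end Pool.Agent.helper23_Euler
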