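import Mathlib
import Pool.Agent.helper23_Euler.LagEq

open MeasureTheory Set Filter Topology
open scoped ContDiff Convolution ENNReal NNReal

namespace Pool.Agent.helper23_Euler

noncomputable section

variable {γ T T₁ : ℝ} {B : Bds} {r u p : ℝ × ℝ → ℝ} {r0 u0 p0 : ℝ → ℝ} {Y X : ℝ × ℝ → ℝ}
  {N : ℕ} {ψ : ℕ → ℝ × ℝ → ℝ}

lemma exists_t1 {φ : ℝ × ℝ → ℝ} (hc : HasCompactSupport φ) (hs : tsupport φ ⊆ up) :
    ∃ t1, 0 < t1 ∧ ∀ z, z.2 < t1 → φ z = 0 := by
  by_cases hne : (tsupport φ).Nonempty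
  · obtain ⟨z0, hz0, hmin⟩ := hc.isCompact.exists_isMinOn hne continuous_snd.continuousOn
    refine ⟨z0.2, hs hz0, fun z hz => ?_⟩
    by_contra h'
    have h1 : z ∈ tsupport φ := subset_tsupport _ h'
    have h2 : z0.2 ≤ z.2 := hmin h1
    linarith
  · refine ⟨1, one_pos, fun z _ => ?_⟩
    by_contra h'
    exact hne ⟨z, subset_tsupport _ h'⟩

lemma mul_fst_test {φ : ℝ × ℝ → ℝ} (hφ : IsTest T φ) : IsTest T (fun z => z.1 * φ z) where
  smooth := contDiff_fst.mul hφ.smooth
  cpt := hφ.cpt.mul_left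
  supp := (tsupport_mul_subset_right).trans hφ.supp

lemma dt_mul_fst {φ : ℝ × ℝ → ℝ} (hφ : Differentiable ℝ φ) (z : ℝ × ℝ) :
    dt (fun z => z.1 * φ z) z = z.1 * dt φ z := by
  have h : HasFDerivAt (fun z : ℝ × ℝ => z.1 * φ z)
      (z.1 • fderiv ℝ φ z + φ z • ContinuousLinearMap.fst ℝ ℝ ℝ) z :=
    hasFDerivAt_fst.mul (hφ z).hasFDerivAt
  rw [dt, h.fderiv, dt]
  simp

lemma dx_mul_fst {φ : ℝ × ℝ → ℝ} (hφ : Differentiable ℝ φ) (z : ℝ × ℝ) :
    dx (fun z => z.1 * φ z) z = φ z + z.1 * dx φ z := by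
  have h : HasFDerivAt (fun z : ℝ × ℝ => z.1 * φ z)
      (z.1 • fderiv ℝ φ z + φ z • ContinuousLinearMap.fst ℝ ℝ ℝ) z :=
    hasFDerivAt_fst.mul (hφ z).hasFDerivAt
  rw [dx, h.fderiv, dx]
  simp
  ring

/-- the trajectories of the labels -/
theorem Sol.pos_eq (h : Sol γ T B r u p r0 u0 p0) (hA : Appr T T₁ B r u r0 N ψ Y)
    (hX : LX B T₁ r r0 Y X) {φ : ℝ × ℝ → ℝ} (hφ : IsTest T₁ φ) (hs : tsupport φ ⊆ up) :
    ∫ w in up, (X w * dt φ w + lc X u w * φ w) = 0 := by
  have hub := B.ub_nonneg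
  have hrb := B.rb_pos
  have lA : LocallyIntegrable (fun z : ℝ × ℝ => r z * z.1) := by
    have h1 : LocallyIntegrable r := locInt_bd h.mr fun z => (h.box z).abs_r
    rw [locallyIntegrable_iff] at h1 ⊢
    intro K hK
    exact (h1 K hK).mul_continuousOn continuous_fst.continuousOn hK
  have lG : LocallyIntegrable (fun z : ℝ × ℝ => r z * u z) :=
    locInt_bd (h.mr.mul h.mu) fun z => (h.box z).abs_ru
  have lF : LocallyIntegrable (fun z : ℝ × ℝ => r z * u z * z.1) := by
    rw [locallyIntegrable_iff] at lG ⊢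
    intro K hK
    exact (lG K hK).mul_continuousOn continuous_fst.continuousOn hK
  have l1 := hA.limit hφ lA lF lG
  have l2 : (fun n => ∫ z in up, (r z * z.1 * dt (pb T N ψ φ n) z
      + r z * u z * z.1 * dx (pb T N ψ φ n) z + r z * u z * pb T N ψ φ n z)) = fun _ => 0 := by
    ext n
    have ht := hA.isTest hφ n
    have k := h.mass _ (mul_fst_test ht)
    have e1 : ∀ x : ℝ, pb T N ψ φ n (x, 0) = 0 := by
      intro x
      rw [hA.val hφ]
      apply image_eq_zero_of_notMem_tsupport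
      intro h'
      exact lt_irrefl (0 : ℝ) (hs h')
    simp only [e1, mul_zero, integral_zero, add_zero] at k
    rw [← k]
    refine setIntegral_congr_fun measurableSet_up fun z _ => ?_
    simp only [dt_mul_fst ht.diff, dx_mul_fst ht.diff]
    ring
  rw [l2] at l1
  have l3 := tendsto_nhds_unique l1 tendsto_const_nhds
  rw [← hX.conv]
  · rw [← l3]
    refine setIntegral_congr_fun measurableSet_up fun z _ => ?_
    have e : X (Y z, z.2) = z.1 := hX.inv.left z.1 z.2
    simp only [hX.lc_apply, e]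
    ring
  · intro z hz
    rw [dt_eq_zero (hφ.eq_zero_of_le hz),
      image_eq_zero_of_notMem_tsupport (hφ.eq_zero_of_le hz)]
    ring

lemma measurableSet_strip' (T : ℝ) : MeasurableSet (strip T) :=
  (measurableSet_lt measurable_const measurable_snd).inter
      (measurableSet_lt measurable_snd measurable_const)

/-- weak `x`-derivatives in label coordinates -/
theorem Appr.dx_eq (hA : Appr T T₁ B r u r0 N ψ Y) (hX : LX B T₁ r r0 Y X) {f m : ℝ × ℝ → ℝ}
    (hf : Measurable f) {C : ℝ} (hC : ∀ z, |f z| ≤ C) (hm : WeakDx T f m)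
    {φ : ℝ × ℝ → ℝ} (hφ : IsTest T₁ φ) (hs : tsupport φ ⊆ up) :
    ∫ w in up, lc X f w * dx φ w = - ∫ w in up,
      (strip T₁).indicator (fun w => lc X m w / lc X r w) w * φ w := by
  have h0 : LocallyIntegrable (fun _ : ℝ × ℝ => (0 : ℝ)) := continuous_const.locallyIntegrable
  have l1 := hA.limit hφ h0 (locInt_bd hf hC) h0
  have l2 := hA.limit hφ h0 h0 (locInt_strip hm.1)
  simp only [zero_mul, zero_add, add_zero] at l1 l2
  obtain ⟨t1, ht1, ht1'⟩ := exists_t1 hφ.cpt hs
  have key : ∀ n, ∫ z in up, f z * dx (pb T N ψ φ n) z =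
      - ∫ z in up, (strip T).indicator m z * pb T N ψ φ n z := by
    intro n
    have ht := hA.isTest hφ n
    have hs' : tsupport (pb T N ψ φ n) ⊆ up := by
      have : tsupport (pb T N ψ φ n) ⊆ {z | t1 ≤ z.2} := by
        refine closure_minimal ?_ (isClosed_le continuous_const continuous_snd)
        intro z hz
        by_contra h'
        apply hz
        rw [hA.val hφ]
        exact ht1' _ (not_le.1 h')
      intro z hz
      exact lt_of_lt_of_le ht1 (this hz)
    rw [hm.2 _ ht hs']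
    congr 1
    refine setIntegral_congr_fun measurableSet_up fun z hz => ?_
    by_cases hzT : z.2 < T
    · simp only [indicator_of_mem (show z ∈ strip T from ⟨hz, hzT⟩)]
    · have : pb T N ψ φ n z = 0 := by
        apply image_eq_zero_of_notMem_tsupport
        exact ht.eq_zero_of_le (not_lt.1 hzT)
      simp only [this, mul_zero]
  have l3 := tendsto_nhds_unique l1 (l2.neg.congr fun n => (key n).symm)
  have hTT : T₁ < T := by
    have := hA.small 0
    have := (bump (N + 0)).rOut_pos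
    linarith
  rw [← hX.conv (G := fun w => lc X f w * dx φ w),
    ← hX.conv (G := fun w => (strip T₁).indicator (fun w => lc X m w / lc X r w) w * φ w)]
  · have e1 : ∫ z in up, r z * (lc X f (Y z, z.2) * dx φ (Y z, z.2)) =
        ∫ z in up, f z * (r z * dx φ (Y z, z.2)) := by
      refine setIntegral_congr_fun measurableSet_up fun z _ => ?_
      simp only [hX.lc_apply]
      ring
    rw [e1, l3]
    congr 1
    refine setIntegral_congr_fun measurableSet_up fun z hz => ?_
    have hz0 : 0 < z.2 := hz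
    by_cases hzT : z.2 < T₁
    · rw [indicator_of_mem (show z ∈ strip T from ⟨hz, hzT.trans hTT⟩),
        indicator_of_mem (show (Y z, z.2) ∈ strip T₁ from ⟨hz, hzT⟩), hX.lc_apply, hX.lc_apply]
      have := (hX.r_pos z).ne'
      field_simp
    · have : φ (Y z, z.2) = 0 :=
        image_eq_zero_of_notMem_tsupport (hφ.eq_zero_of_le (z := (Y z, z.2)) (not_lt.1 hzT))
      rw [this]
      ring
  · intro z hz
    rw [image_eq_zero_of_notMem_tsupport (hφ.eq_zero_of_le hz), mul_zero]
  · intro z hz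
    rw [dx_eq_zero (hφ.eq_zero_of_le hz), mul_zero]

lemma LX.locInt (h : LX B T₁ r r0 Y X) (hT : T₁ ≤ T) {m : ℝ × ℝ → ℝ}
    (hm : ∀ ρ : ℝ, IntegrableOn m (strip T ∩ {z | |z.1| ≤ ρ})) :
    LocallyIntegrable ((strip T₁).indicator (fun w => lc X m w / lc X r w)) := by
  have hS := measurableSet_strip' T₁
  rw [locallyIntegrable_iff]
  intro K hK
  have hKm : MeasurableSet K := hK.isClosed.measurableSet
  rw [IntegrableOn, integrable_indicator_iff hS, IntegrableOn, Measure.restrict_restrict hS,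
    inter_comm, ← Measure.restrict_restrict hKm]
  change IntegrableOn _ K (volume.restrict (strip T₁))
  rw [← integrable_indicator_iff hKm]
  refine h.integrable' ?_
  -- the preimage of K is compact
  have hK' : IsCompact ((fun z : ℝ × ℝ => (Y z, z.2)) ⁻¹' K) :=
    (planeHomeo h.lab h.inv).isCompact_preimage.2 hK
  obtain ⟨ρ, hρ⟩ := hK'.isBounded.subset_closedBall 0
  have h1 : IntegrableOn m (strip T₁ ∩ ((fun z : ℝ × ℝ => (Y z, z.2)) ⁻¹' K)) := by
    refine (hm ρ).mono_set ?_
    intro z hz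
    refine ⟨⟨hz.1.1, hz.1.2.trans_le hT⟩, ?_⟩
    have h1 := hρ hz.2
    rw [mem_closedBall_zero_iff] at h1
    exact (norm_fst_le z).trans h1
  have hKm' : MeasurableSet ((fun z : ℝ × ℝ => (Y z, z.2)) ⁻¹' K) := hK'.isClosed.measurableSet
  have h2 : IntegrableOn (((fun z : ℝ × ℝ => (Y z, z.2)) ⁻¹' K).indicator m) (strip T₁) := by
    rw [IntegrableOn, integrable_indicator_iff hKm', IntegrableOn,
      Measure.restrict_restrict hKm', inter_comm]
    exact h1
  refine h2.congr_fun ?_ hS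
  intro z _
  have hr := (h.r_pos z).ne'
  simp only []
  by_cases hz : (Y z, z.2) ∈ K
  · rw [indicator_of_mem (show z ∈ (fun z : ℝ × ℝ => (Y z, z.2)) ⁻¹' K from hz),
      indicator_of_mem hz, h.lc_apply, h.lc_apply]
    field_simp
  · rw [indicator_of_notMem (show z ∉ (fun z : ℝ × ℝ => (Y z, z.2)) ⁻¹' K from hz),
      indicator_of_notMem hz, mul_zero]

end

end Pool.Agent.helper23_Euler
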