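import Mathlib
import Pool.Agent.helper23_Euler.LagPos

open MeasureTheory Set Filter Topology
open scoped ContDiff Convolution ENNReal NNReal

namespace Pool.Agent.helper23_Euler

noncomputable section

/-- the time shift of the mollifier -/
def shf (n : ℕ) : ℝ × ℝ := (0, 2 * (bump n).rOut)

/-- mollification with a forward shift in time -/
def smol (n : ℕ) (f : ℝ × ℝ → ℝ) (z : ℝ × ℝ) : ℝ := mol (bump n) f (z + shf n)

variable {f g : ℝ × ℝ → ℝ}

lemma contDiff_smol (n : ℕ) (hf : LocallyIntegrable f) : ContDiff ℝ ∞ (smol n f) :=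
  (contDiff_mol (η := bump n) hf).comp (contDiff_id.add contDiff_const)

lemma smol_bd (n : ℕ) (hf : Measurable f) {a b : ℝ} (h : ∀ z, a ≤ f z ∧ f z ≤ b) (z : ℝ × ℝ) :
    a ≤ smol n f z ∧ smol n f z ≤ b := mol_mono_const hf h _

lemma smol_abs (n : ℕ) (hf : Measurable f) {C : ℝ} (h : ∀ z, |f z| ≤ C) (z : ℝ × ℝ) :
    |smol n f z| ≤ C := abs_le.2 (smol_bd n hf (fun z => abs_le.1 (h z)) z)

lemma rOut_pos' (n : ℕ) : 0 < (bump n).rOut := (bump n).rOut_pos

lemma rOut_le_one (n : ℕ) : (bump n).rOut ≤ 1 := by
  rw [bump_rOut, div_le_one (by positivity)]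
  have : (0 : ℝ) ≤ (n : ℝ) := Nat.cast_nonneg _
  linarith

lemma norm_shf (n : ℕ) : ‖shf n‖ = 2 * (bump n).rOut := by
  have := rOut_pos' n
  simp only [shf, Prod.norm_def, norm_zero, Real.norm_eq_abs]
  rw [abs_of_pos (by positivity), max_eq_right (by positivity)]

lemma smol_apply (n : ℕ) (z : ℝ × ℝ) :
    smol n f z = ∫ w, (bump n).normed volume (z + shf n - w) * f w := mol_apply _

lemma ball_shf (n : ℕ) (z : ℝ × ℝ) : Metric.closedBall (z + shf n) (bump n).rOut ⊆
    Metric.closedBall z (3 * (bump n).rOut) := by
  refine Metric.closedBall_subset_closedBall' ?_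
  rw [dist_eq_norm, add_sub_cancel_left, norm_shf]
  linarith

theorem ae_tendsto_smol (hf : LocallyIntegrable f) :
    ∀ᵐ z : ℝ × ℝ, Tendsto (fun n => smol n f z) atTop (𝓝 (f z)) := by
  filter_upwards [IsUnifLocDoublingMeasure.ae_tendsto_average_norm_sub volume hf 3] with z hz
  simp only [smol_apply, ← smul_eq_mul]
  have hφ' : Tendsto (fun i ↦ (bump i).rOut) atTop (𝓝[>] 0) :=
    tendsto_nhdsWithin_iff.2 ⟨tendsto_bump, Eventually.of_forall (fun i ↦ (bump i).rOut_pos)⟩
  have h1 := hz (fun n => z + shf n) (fun n => (bump n).rOut) hφ' (Eventually.of_forall fun n => by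
    rw [Metric.mem_closedBall, dist_eq_norm]
    have : z - (z + shf n) = - shf n := by abel
    rw [this, norm_neg, norm_shf]
    have := rOut_pos' n
    linarith)
  apply tendsto_integral_smul_of_tendsto_average_norm_sub (2 ^ (Module.finrank ℝ (ℝ × ℝ))) h1
  · filter_upwards with i using hf.integrableOn_isCompact (isCompact_closedBall _ _)
  · apply tendsto_const_nhds.congr (fun i ↦ ?_)
    rw [integral_sub_left_eq_self (fun w => (bump i).normed volume w) volume]
    exact ((bump i).integral_normed (μ := volume)).symm
  · filter_upwards with i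
    intro x hx
    have h2 : z + shf i - x ∈ Function.support ((bump i).normed (volume : Measure (ℝ × ℝ))) := hx
    rw [(bump i).support_normed_eq] at h2
    rw [Metric.mem_closedBall, dist_comm, dist_eq_norm]
    have := Metric.mem_ball.1 h2
    rw [dist_zero_right] at this
    exact this.le
  · filter_upwards with i x
    rw [abs_of_nonneg ((bump i).nonneg_normed _), Measure.addHaar_real_closedBall_center]
    have := (bump i).normed_le_div_measure_closedBall_rOut volume 2 (bump_ratio i)
      (z + shf i - x)
    exact this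

lemma integrable_smol (n : ℕ) (hf : Integrable f) : Integrable (smol n f) := by
  have h1 : Integrable (mol (bump n) f) :=
    ((bump n).integrable_normed (μ := volume)).integrable_convolution _ hf
  exact h1.comp_add_right (shf n)

lemma smol_L1 (n : ℕ) (hf : Integrable f) : ∫ z, |smol n f z| ≤ ∫ z, |f z| := by
  have e1 : ∫ z, |smol n f z| = ∫ z, |mol (bump n) f z| :=
    integral_add_right_eq_self (fun z => |mol (bump n) f z|) (shf n)
  rw [e1]
  have h1 : Integrable (mol (bump n) f) :=
    ((bump n).integrable_normed (μ := volume)).integrable_convolution _ hf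
  have h2 : Integrable (mol (bump n) (fun z => |f z|)) :=
    ((bump n).integrable_normed (μ := volume)).integrable_convolution _ hf.abs
  have h3 : ∫ z, mol (bump n) (fun z => |f z|) z = ∫ z, |f z| := by
    unfold mol
    rw [integral_convolution _ ((bump n).integrable_normed (μ := volume)) hf.abs]
    rw [(bump n).integral_normed]
    simp
  rw [← h3]
  refine integral_mono h1.abs h2 fun z => ?_
  simp only []
  rw [mol_apply, mol_apply]
  refine (abs_integral_le_integral_abs).trans (le_of_eq ?_)
  refine integral_congr_ae (Filter.Eventually.of_forall fun w => ?_)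
  simp only [abs_mul, abs_of_nonneg ((bump n).nonneg_normed (μ := volume) (z - w))]

lemma smol_congr (n : ℕ) {z : ℝ × ℝ}
    (h : ∀ w ∈ Metric.closedBall z (3 * (bump n).rOut), f w = g w) : smol n f z = smol n g z := by
  rw [smol_apply, smol_apply]
  refine integral_congr_ae (Filter.Eventually.of_forall fun w => ?_)
  simp only []
  by_cases hw : w ∈ Metric.closedBall z (3 * (bump n).rOut)
  · rw [h w hw]
  · have h1 : (bump n).normed (volume : Measure (ℝ × ℝ)) (z + shf n - w) = 0 := by
      by_contra h'
      have h2 : z + shf n - w ∈ Function.support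
        ((bump n).normed (volume : Measure (ℝ × ℝ))) := h'
      rw [(bump n).support_normed_eq] at h2
      apply hw
      apply ball_shf n z
      rw [Metric.mem_closedBall, dist_comm, dist_eq_norm]
      have := Metric.mem_ball.1 h2
      rw [dist_zero_right] at this
      exact this.le
    rw [h1, zero_mul, zero_mul]

lemma smol_sub (n : ℕ) (hf : LocallyIntegrable f) (hg : LocallyIntegrable g) (z : ℝ × ℝ) :
    smol n (fun w => f w - g w) z = smol n f z - smol n g z := by
  rw [smol_apply, smol_apply, smol_apply, ← integral_sub]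
  · refine integral_congr_ae (Filter.Eventually.of_forall fun w => ?_)
    simp only []
    ring
  · have := (bump n).hasCompactSupport_normed (μ := (volume : Measure (ℝ × ℝ)))
      |>.convolutionExists_left (ContinuousLinearMap.lsmul ℝ ℝ) (μ := (volume : Measure (ℝ × ℝ)))
      ((bump n).continuous_normed) hf (z + shf n)
    simpa using this.integrable_swap
  · have := (bump n).hasCompactSupport_normed (μ := (volume : Measure (ℝ × ℝ)))
      |>.convolutionExists_left (ContinuousLinearMap.lsmul ℝ ℝ) (μ := (volume : Measure (ℝ × ℝ)))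
      ((bump n).continuous_normed) hg (z + shf n)
    simpa using this.integrable_swap

theorem tendsto_L1_smol (hf : LocallyIntegrable f) {K : Set (ℝ × ℝ)} (hK : IsCompact K) :
    Tendsto (fun n => ∫ z in K, |smol n f z - f z|) atTop (𝓝 0) := by
  have hK1 : IsCompact (Metric.cthickening 3 K) := hK.cthickening
  have hK1m : MeasurableSet (Metric.cthickening 3 K) := hK1.isClosed.measurableSet
  have hKm : MeasurableSet K := hK.isClosed.measurableSet
  obtain ⟨f1, hf1⟩ : ∃ f1, f1 = (Metric.cthickening 3 K).indicator f := ⟨_, rfl⟩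
  have hf1i : Integrable f1 := by
    rw [hf1, integrable_indicator_iff hK1m]
    exact hf.integrableOn_isCompact hK1
  have hloc1 : LocallyIntegrable f1 := hf1i.locallyIntegrable
  have heq : ∀ n, ∀ z ∈ K, smol n f z = smol n f1 z := by
    intro n z hz
    refine smol_congr n fun w hw => ?_
    rw [hf1, indicator_of_mem]
    have h1 : dist w z ≤ 3 := by
      have h2 := Metric.mem_closedBall.1 hw
      have h3 := rOut_le_one n
      linarith
    exact Metric.mem_cthickening_of_dist_le w z 3 K hz h1
  have heq0 : ∀ z ∈ K, f z = f1 z := by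
    intro z hz
    rw [hf1, indicator_of_mem]
    exact Metric.self_subset_cthickening _ hz
  rw [Metric.tendsto_atTop]
  intro ε hε
  obtain ⟨g, hgc, hg1, hg2, hg3⟩ := hf1i.exists_hasCompactSupport_integral_sub_le
    (show 0 < ε / 4 by positivity)
  obtain ⟨C, hC⟩ := hgc.exists_bound_of_continuous hg2
  have hC0 : 0 ≤ C := (norm_nonneg _).trans (hC 0)
  have hgl : LocallyIntegrable g := hg2.locallyIntegrable
  have lim : Tendsto (fun n => ∫ z in K, |smol n g z - g z|) atTop (𝓝 0) := by
    have h0 : (0 : ℝ) = ∫ z in K, (0 : ℝ) := by simp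
    rw [h0]
    refine tendsto_integral_of_dominated_convergence (fun _ => 2 * C) ?_ ?_ ?_ ?_
    · intro n
      exact (((contDiff_smol n hgl).continuous.sub hg2).abs).aestronglyMeasurable
    · exact integrableOn_const hK.measure_lt_top.ne
    · intro n
      refine Filter.Eventually.of_forall fun z => ?_
      rw [Real.norm_eq_abs, abs_abs]
      refine (abs_sub _ _).trans ?_
      have e1 := smol_abs n hg2.measurable (C := C) (fun z => hC z) z
      have e2 : |g z| ≤ C := hC z
      linarith
    · refine ae_restrict_of_ae ?_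
      filter_upwards [ae_tendsto_smol hgl] with z hz
      have : Tendsto (fun n => |smol n g z - g z|) atTop (𝓝 |g z - g z|) :=
        (hz.sub_const (g z)).abs
      simpa using this
  rw [Metric.tendsto_atTop] at lim
  obtain ⟨N, hN⟩ := lim (ε / 4) (by positivity)
  refine ⟨N, fun n hn => ?_⟩
  have h1 := hN n hn
  rw [Real.dist_eq, sub_zero, abs_of_nonneg (integral_nonneg fun _ => abs_nonneg _)] at h1 ⊢
  have hfg : Integrable (fun w => f1 w - g w) := hf1i.sub hg3
  have i1 : Integrable (smol n (fun w => f1 w - g w)) := integrable_smol n hfg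
  have i2 : IntegrableOn (fun z => smol n g z - g z) K :=
    (((contDiff_smol n hgl).continuous.sub hg2).continuousOn).integrableOn_compact hK
  have i12 : IntegrableOn (fun z => |smol n (fun w => f1 w - g w) z| + |smol n g z - g z|) K :=
    i1.abs.integrableOn.add i2.abs
  have e1 : ∫ z in K, |smol n f z - f z| ≤ (∫ z in K, |smol n (fun w => f1 w - g w) z|)
      + (∫ z in K, |smol n g z - g z|) + ∫ z in K, |f1 z - g z| := by
    rw [← integral_add i1.abs.integrableOn i2.abs, ← integral_add
      i12 hfg.abs.integrableOn]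
    refine setIntegral_mono_on ?_ (i12.add hfg.abs.integrableOn) hKm ?_
    · have i3 : IntegrableOn (fun z => smol n f z - f z) K :=
        (((contDiff_smol n hf).continuous.continuousOn).integrableOn_compact hK).sub
          (hf.integrableOn_isCompact hK)
      exact i3.abs
    · intro z hz
      rw [heq n z hz, heq0 z hz, smol_sub n hloc1 hgl]
      have : smol n f1 z - f1 z = (smol n f1 z - smol n g z) + (smol n g z - g z)
        - (f1 z - g z) := by ring
      rw [this]
      refine (abs_sub _ _).trans (add_le_add (abs_add_le _ _) le_rfl)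
  have e2 : ∫ z in K, |smol n (fun w => f1 w - g w) z| ≤ ε / 4 := by
    refine (setIntegral_le_integral i1.abs (Filter.Eventually.of_forall fun _ => abs_nonneg _)).trans ?_
    exact (smol_L1 n hfg).trans hg1
  have e3 : ∫ z in K, |f1 z - g z| ≤ ε / 4 :=
    (setIntegral_le_integral hfg.abs (Filter.Eventually.of_forall fun _ => abs_nonneg _)).trans hg1
  linarith

/-- weak directional derivative on an open set -/
def WD (O : Set (ℝ × ℝ)) (v : ℝ × ℝ) (f g : ℝ × ℝ → ℝ) : Prop :=
  ∀ φ, ContDiff ℝ ∞ φ → HasCompactSupport φ → tsupport φ ⊆ O →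
    ∫ z, f z * fderiv ℝ φ z v = - ∫ z, g z * φ z

variable {O : Set (ℝ × ℝ)} {v : ℝ × ℝ}

lemma WD.fd (h : WD O v f g) (hf : LocallyIntegrable f) {n : ℕ} {z : ℝ × ℝ}
    (hz : Metric.closedBall (z + shf n) (bump n).rOut ⊆ O) :
    fderiv ℝ (smol n f) z v = smol n g z := by
  have e0 : fderiv ℝ (smol n f) z = fderiv ℝ (mol (bump n) f) (z + shf n) := by
    have := fderiv_comp_add_right (𝕜 := ℝ) (f := mol (bump n) f) (x := z) (shf n)
    exact this
  rw [e0, fderiv_mol hf]
  have hc : HasCompactSupport (ker (bump n) (z + shf n)) :=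
    HasCompactSupport.of_support_subset_isCompact (isCompact_closedBall (z + shf n) (bump n).rOut)
    (subset_trans (subset_tsupport _) (tsupport_ker (z + shf n)))
  have key := h _ (contDiff_ker (η := bump n) (z + shf n)) hc
    ((tsupport_ker (η := bump n) (z + shf n)).trans hz)
  have e1 : ∫ w, fderiv ℝ ((bump n).normed volume) (z + shf n - w) v * f w =
      - ∫ w, f w * fderiv ℝ (ker (bump n) (z + shf n)) w v := by
    rw [← integral_neg]
    congr 1
    ext w
    rw [fderiv_ker]
    ring
  rw [e1, key, neg_neg, smol_apply]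
  refine integral_congr_ae (Filter.Eventually.of_forall fun w => ?_)
  simp only [ker]
  ring

end

end Pool.Agent.helper23_Euler
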