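import Mathlib
import Pool.Agent.helper23_Euler.Moll

open MeasureTheory Set Filter Topology
open scoped ContDiff Convolution ENNReal NNReal

namespace Pool.Agent.helper23_Euler

noncomputable section

lemma lim_mul {α : Type*} [MeasurableSpace α] {μ : Measure α} {a b : ℕ → α → ℝ} {a' b' : α → ℝ}
    {C : ℝ} (ha : ∀ n, AEStronglyMeasurable (a n) μ) (haC : ∀ n x, |a n x| ≤ C)
    (hb : ∀ n, Integrable (b n) μ) (hb' : Integrable b' μ)
    (hlim : ∀ᵐ x ∂μ, Tendsto (fun n => a n x) atTop (𝓝 (a' x)))
    (hL : Tendsto (fun n => ∫ x, |b n x - b' x| ∂μ) atTop (𝓝 0)) :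
    Tendsto (fun n => ∫ x, a n x * b n x ∂μ) atTop (𝓝 (∫ x, a' x * b' x ∂μ)) := by
  have h1 : Tendsto (fun n => ∫ x, a n x * b' x ∂μ) atTop (𝓝 (∫ x, a' x * b' x ∂μ)) := by
    refine tendsto_integral_of_dominated_convergence (fun x => C * |b' x|) ?_ ?_ ?_ ?_
    · exact fun n => (ha n).mul hb'.aestronglyMeasurable
    · exact hb'.abs.const_mul C
    · intro n
      refine Filter.Eventually.of_forall fun x => ?_
      rw [Real.norm_eq_abs, abs_mul]
      exact mul_le_mul_of_nonneg_right (haC n x) (abs_nonneg _)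
    · filter_upwards [hlim] with x hx
      exact hx.mul_const _
  have i1 : ∀ n, Integrable (fun x => a n x * b n x) μ := fun n =>
    (hb n).bdd_mul (ha n) (Filter.Eventually.of_forall fun x => haC n x)
  have i2 : ∀ n, Integrable (fun x => a n x * b' x) μ := fun n =>
    hb'.bdd_mul (ha n) (Filter.Eventually.of_forall fun x => haC n x)
  have h2 : Tendsto (fun n => (∫ x, a n x * b n x ∂μ) - ∫ x, a n x * b' x ∂μ) atTop (𝓝 0) := by
    have h3 : Tendsto (fun n => C * ∫ x, |b n x - b' x| ∂μ) atTop (𝓝 0) := by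
      simpa using hL.const_mul C
    refine squeeze_zero_norm (fun n => ?_) h3
    rw [← integral_sub (i1 n) (i2 n), Real.norm_eq_abs, ← integral_const_mul]
    refine abs_integral_le_integral_abs.trans ?_
    refine integral_mono ((i1 n).sub (i2 n)).abs (((hb n).sub hb').abs.const_mul C) fun x => ?_
    simp only []
    rw [← mul_sub, abs_mul]
    exact mul_le_mul_of_nonneg_right (haC n x) (abs_nonneg _)
  have := h2.add h1
  simpa using this

lemma lim_int {α : Type*} [MeasurableSpace α] {μ : Measure α} {a : ℕ → α → ℝ} {a' b' : α → ℝ}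
    {C : ℝ} (ha : ∀ n, AEStronglyMeasurable (a n) μ) (haC : ∀ n x, |a n x| ≤ C)
    (hb' : Integrable b' μ)
    (hlim : ∀ᵐ x ∂μ, Tendsto (fun n => a n x) atTop (𝓝 (a' x))) :
    Integrable (fun x => a' x * b' x) μ := by
  refine hb'.bdd_mul (c := C) (aestronglyMeasurable_of_tendsto_ae atTop ha hlim) ?_
  filter_upwards [hlim] with x hx
  exact le_of_tendsto' hx.abs fun n => haC n x

variable {O : Set (ℝ × ℝ)} {v : ℝ × ℝ} {f g f1 g1 f2 g2 : ℝ × ℝ → ℝ}

lemma eventually_ball {K : Set (ℝ × ℝ)} (hK : IsCompact K) (hO : IsOpen O) (hKO : K ⊆ O) :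
    ∀ᶠ n in atTop, ∀ z ∈ K, Metric.closedBall (z + shf n) (bump n).rOut ⊆ O := by
  obtain ⟨δ, hδ, hδO⟩ := hK.exists_cthickening_subset_open hO hKO
  have h1 : Tendsto (fun n => 3 * (bump n).rOut) atTop (𝓝 0) := by
    simpa using tendsto_bump.const_mul 3
  filter_upwards [h1.eventually (gt_mem_nhds hδ)] with n hn z hz
  refine (ball_shf n z).trans (subset_trans ?_ hδO)
  exact (Metric.closedBall_subset_closedBall hn.le).trans (Metric.closedBall_subset_cthickening hz δ)

lemma fderiv_mul_apply {F G : ℝ × ℝ → ℝ} {z : ℝ × ℝ} (hF : DifferentiableAt ℝ F z)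
    (hG : DifferentiableAt ℝ G z) (v : ℝ × ℝ) :
    fderiv ℝ (fun z => F z * G z) z v = F z * fderiv ℝ G z v + G z * fderiv ℝ F z v := by
  have h := (hF.hasFDerivAt.mul hG.hasFDerivAt).fderiv
  have e : fderiv ℝ (fun z => F z * G z) z = F z • fderiv ℝ G z + G z • fderiv ℝ F z := h
  rw [e]
  simp

lemma tsupport_fderiv_apply {φ : ℝ × ℝ → ℝ} {z : ℝ × ℝ} (hz : z ∉ tsupport φ) (v : ℝ × ℝ) :
    fderiv ℝ φ z v = 0 := by
  have : z ∉ tsupport (fderiv ℝ φ) := fun h' => hz (tsupport_fderiv_subset ℝ h')
  rw [image_eq_zero_of_notMem_tsupport this]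
  simp

lemma int_supp {φ H H' : ℝ × ℝ → ℝ} (h : ∀ z ∈ tsupport φ, H z = H' z)
    (h0 : ∀ z, z ∉ tsupport φ → H z = 0) : ∫ z, H z = ∫ z in tsupport φ, H' z := by
  rw [← setIntegral_eq_integral_of_forall_compl_eq_zero (s := tsupport φ) h0]
  exact setIntegral_congr_fun (isClosed_tsupport φ).measurableSet h

/-- the product rule -/
theorem WD.mul (hO : IsOpen O) (h1 : WD O v f1 g1) (h2 : WD O v f2 g2) (m1 : Measurable f1)
    {C1 : ℝ} (b1 : ∀ z, |f1 z| ≤ C1) (m2 : Measurable f2) {C2 : ℝ} (b2 : ∀ z, |f2 z| ≤ C2)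
    (l1 : LocallyIntegrable g1) (l2 : LocallyIntegrable g2) :
    WD O v (fun z => f1 z * f2 z) (fun z => f1 z * g2 z + f2 z * g1 z) := by
  intro φ hφ hc hs
  have hK : IsCompact (tsupport φ) := hc
  have hf1 : LocallyIntegrable f1 := locInt_bd m1 b1
  have hf2 : LocallyIntegrable f2 := locInt_bd m2 b2
  have hφd : Differentiable ℝ φ := hφ.differentiable (by simp)
  have cD : Continuous (fun z => fderiv ℝ φ z v) :=
    (hφ.continuous_fderiv (by simp)).clm_apply continuous_const
  -- the identity at level n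
  have key : ∀ᶠ n in atTop, (∫ z in tsupport φ, smol n f1 z * (f2 z * fderiv ℝ φ z v))
      + (∫ z in tsupport φ, (f2 z * φ z) * smol n g1 z) =
      - ∫ z in tsupport φ, smol n f1 z * (g2 z * φ z) := by
    filter_upwards [eventually_ball hK hO hs] with n hn
    have hsm := contDiff_smol n hf1
    have hsd : Differentiable ℝ (smol n f1) := hsm.differentiable (by simp)
    have k := h2 (fun z => smol n f1 z * φ z) (hsm.mul hφ) hc.mul_left
      (tsupport_mul_subset_right.trans hs)
    have e1 : ∫ z, f2 z * fderiv ℝ (fun z => smol n f1 z * φ z) z v =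
        ∫ z in tsupport φ, (smol n f1 z * (f2 z * fderiv ℝ φ z v)
          + (f2 z * φ z) * smol n g1 z) := by
      refine int_supp (fun z hz => ?_) ?_
      · rw [fderiv_mul_apply (hsd z) (hφd z), h1.fd hf1 (hn z hz)]
        ring
      · intro z hz
        rw [fderiv_mul_apply (hsd z) (hφd z), tsupport_fderiv_apply hz,
          image_eq_zero_of_notMem_tsupport hz]
        ring
    have e2 : ∫ z, g2 z * (smol n f1 z * φ z) =
        ∫ z in tsupport φ, smol n f1 z * (g2 z * φ z) := by
      refine int_supp (fun z hz => ?_) ?_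
      · ring
      · intro z hz
        rw [image_eq_zero_of_notMem_tsupport hz]
        ring
    rw [e1, e2] at k
    rw [← k, integral_add]
    · refine (((hf2.integrableOn_isCompact hK).mul_continuousOn cD.continuousOn hK)).bdd_mul
        (c := C1) hsm.continuous.aestronglyMeasurable ?_
      exact Filter.Eventually.of_forall fun z => smol_abs n m1 b1 z
    · exact ((hf2.integrableOn_isCompact hK).mul_continuousOn hφ.continuous.continuousOn
        hK).mul_continuousOn (contDiff_smol n l1).continuous.continuousOn hK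
  have i1 : IntegrableOn (fun z => f2 z * fderiv ℝ φ z v) (tsupport φ) :=
    (hf2.integrableOn_isCompact hK).mul_continuousOn cD.continuousOn hK
  have i2 : IntegrableOn (fun z => g2 z * φ z) (tsupport φ) :=
    (l2.integrableOn_isCompact hK).mul_continuousOn hφ.continuous.continuousOn hK
  obtain ⟨D, hD⟩ := hc.exists_bound_of_continuous hφ.continuous
  have hD0 : 0 ≤ D := (norm_nonneg _).trans (hD 0)
  have hC2 : 0 ≤ C2 := (abs_nonneg _).trans (b2 0)
  have L1 := lim_mul (μ := volume.restrict (tsupport φ)) (a := fun n => smol n f1) (a' := f1)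
    (b := fun _ z => f2 z * fderiv ℝ φ z v) (b' := fun z => f2 z * fderiv ℝ φ z v) (C := C1)
    (fun n => (contDiff_smol n hf1).continuous.aestronglyMeasurable)
    (fun n z => smol_abs n m1 b1 z) (fun _ => i1) i1 (ae_restrict_of_ae (ae_tendsto_smol hf1))
    (by simp)
  have L2 := lim_mul (μ := volume.restrict (tsupport φ)) (a := fun _ z => f2 z * φ z)
    (a' := fun z => f2 z * φ z) (b := fun n => smol n g1) (b' := g1) (C := C2 * D)
    (fun n => (m2.mul hφ.continuous.measurable).aestronglyMeasurable)
    (fun n z => by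
      rw [abs_mul]
      exact mul_le_mul (b2 z) (hD z) (abs_nonneg _) hC2)
    (fun n => ((contDiff_smol n l1).continuous.continuousOn).integrableOn_compact hK)
    (l1.integrableOn_isCompact hK)
    (Filter.Eventually.of_forall fun z => tendsto_const_nhds) (tendsto_L1_smol l1 hK)
  have L3 := lim_mul (μ := volume.restrict (tsupport φ)) (a := fun n => smol n f1) (a' := f1)
    (b := fun _ z => g2 z * φ z) (b' := fun z => g2 z * φ z) (C := C1)
    (fun n => (contDiff_smol n hf1).continuous.aestronglyMeasurable)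
    (fun n z => smol_abs n m1 b1 z) (fun _ => i2) i2 (ae_restrict_of_ae (ae_tendsto_smol hf1))
    (by simp)
  have fin := tendsto_nhds_unique ((L1.add L2).congr' key) L3.neg
  have e1 : ∫ z, f1 z * f2 z * fderiv ℝ φ z v =
      ∫ z in tsupport φ, f1 z * (f2 z * fderiv ℝ φ z v) := by
    refine int_supp (fun z hz => ?_) ?_
    · ring
    · intro z hz
      rw [tsupport_fderiv_apply hz]
      ring
  have i3 : IntegrableOn (fun z => f1 z * (g2 z * φ z)) (tsupport φ) :=
    i2.bdd_mul (c := C1) m1.aestronglyMeasurable (Filter.Eventually.of_forall fun z => b1 z)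
  have i4 : IntegrableOn (fun z => f2 z * φ z * g1 z) (tsupport φ) := by
    refine (l1.integrableOn_isCompact hK).bdd_mul (c := C2 * D)
      (m2.mul hφ.continuous.measurable).aestronglyMeasurable
      (Filter.Eventually.of_forall fun z => ?_)
    rw [norm_mul]
    exact mul_le_mul (b2 z) (hD z) (norm_nonneg _) hC2
  have e2 : ∫ z, (f1 z * g2 z + f2 z * g1 z) * φ z =
      (∫ z in tsupport φ, f1 z * (g2 z * φ z)) + ∫ z in tsupport φ, f2 z * φ z * g1 z := by
    rw [← integral_add i3 i4]
    refine int_supp (fun z hz => ?_) ?_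
    · ring
    · intro z hz
      rw [image_eq_zero_of_notMem_tsupport hz]
      ring
  rw [e1, e2]
  linarith

/-- the derivative of the reciprocal -/
theorem WD.inv (hO : IsOpen O) (h : WD O v f g) (m1 : Measurable f)
    {a b : ℝ} (ha : 0 < a) (hb : ∀ z, a ≤ f z ∧ f z ≤ b) (l : LocallyIntegrable g) :
    WD O v (fun z => 1 / f z) (fun z => - (g z / f z ^ 2)) := by
  intro φ hφ hc hs
  have hK : IsCompact (tsupport φ) := hc
  have hbd : ∀ z, |f z| ≤ b := fun z => by
    rw [abs_of_pos (lt_of_lt_of_le ha (hb z).1)]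
    exact (hb z).2
  have hf1 : LocallyIntegrable f := locInt_bd m1 hbd
  have hφd : Differentiable ℝ φ := hφ.differentiable (by simp)
  have cD : Continuous (fun z => fderiv ℝ φ z v) :=
    (hφ.continuous_fderiv (by simp)).clm_apply continuous_const
  have spos : ∀ n z, 0 < smol n f z := fun n z => lt_of_lt_of_le ha (smol_bd n m1 hb z).1
  have sge : ∀ n z, a ≤ smol n f z := fun n z => (smol_bd n m1 hb z).1
  have sb : ∀ n z, |1 / smol n f z| ≤ 1 / a := by
    intro n z
    rw [abs_of_pos (by have := spos n z; positivity)]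
    exact one_div_le_one_div_of_le ha (sge n z)
  have sc : ∀ n, Continuous (fun z => 1 / smol n f z) := fun n =>
    continuous_const.div (contDiff_smol n hf1).continuous fun z => (spos n z).ne'
  obtain ⟨D, hD⟩ := hc.exists_bound_of_continuous hφ.continuous
  have hD0 : 0 ≤ D := (norm_nonneg _).trans (hD 0)
  have key : ∀ᶠ n in atTop, ∫ z in tsupport φ, (1 / smol n f z) * fderiv ℝ φ z v =
      ∫ z in tsupport φ, (φ z * (1 / smol n f z) ^ 2) * smol n g z := by
    filter_upwards [eventually_ball hK hO hs] with n hn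
    have hsm := contDiff_smol n hf1
    have hinv : ContDiff ℝ ∞ (fun z => 1 / smol n f z) :=
      contDiff_const.div hsm fun z => (spos n z).ne'
    have hsd : Differentiable ℝ (smol n f) := hsm.differentiable (by simp)
    have hfd : ∀ z, fderiv ℝ (fun z => 1 / smol n f z) z v =
        - ((1 / smol n f z) ^ 2 * fderiv ℝ (smol n f) z v) := by
      intro z
      have h1 : HasFDerivAt (fun z => (smol n f z)⁻¹) (-(smol n f z ^ 2)⁻¹ • fderiv ℝ (smol n f) z) z :=
        ((hasDerivAt_inv (spos n z).ne').comp_hasFDerivAt z (hsd z).hasFDerivAt)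
      have h2 : (fun z => 1 / smol n f z) = fun z => (smol n f z)⁻¹ := by
        ext z; rw [one_div]
      rw [h2, h1.fderiv]
      simp [one_div]
    have k := integral_mul_fderiv_eq_neg_fderiv_mul_of_integrable (μ := (volume : Measure (ℝ × ℝ)))
      (f := fun z => 1 / smol n f z) (g := φ) (v := v) ?_ ?_ ?_
      (fun z _ => hinv.differentiable (by simp) z) (fun z _ => hφd z)
    · rw [← integral_neg] at k
      have k1 : ∫ z, (1 / smol n f z) * fderiv ℝ φ z v =
          ∫ z in tsupport φ, (1 / smol n f z) * fderiv ℝ φ z v := by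
        refine int_supp (fun z hz => rfl) fun z hz => ?_
        rw [tsupport_fderiv_apply hz, mul_zero]
      have k2 : ∫ z, -(fderiv ℝ (fun z => 1 / smol n f z) z v * φ z) =
          ∫ z in tsupport φ, (φ z * (1 / smol n f z) ^ 2) * smol n g z := by
        refine int_supp (fun z hz => ?_) fun z hz => ?_
        · rw [hfd, h.fd hf1 (hn z hz)]
          ring
        · rw [image_eq_zero_of_notMem_tsupport hz]
          ring
      rw [← k1, k, k2]
    · refine Continuous.integrable_of_hasCompactSupport ?_ hc.mul_left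
      exact ((hinv.continuous_fderiv (by simp)).clm_apply continuous_const).mul hφ.continuous
    · refine Continuous.integrable_of_hasCompactSupport ((sc n).mul cD) ?_
      exact HasCompactSupport.mul_left (HasCompactSupport.of_support_subset_isCompact hK
        fun z hz => by
          by_contra h'
          exact hz (tsupport_fderiv_apply h' v))
    · exact Continuous.integrable_of_hasCompactSupport ((sc n).mul hφ.continuous) hc.mul_left
  have i1 : IntegrableOn (fun z => fderiv ℝ φ z v) (tsupport φ) :=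
    cD.continuousOn.integrableOn_compact hK
  have L1 := lim_mul (μ := volume.restrict (tsupport φ)) (a := fun n z => 1 / smol n f z)
    (a' := fun z => 1 / f z)
    (b := fun _ z => fderiv ℝ φ z v) (b' := fun z => fderiv ℝ φ z v) (C := 1 / a)
    (fun n => (sc n).aestronglyMeasurable)
    sb (fun _ => i1) i1 (ae_restrict_of_ae (by
      filter_upwards [ae_tendsto_smol hf1] with z hz
      exact tendsto_const_nhds.div hz (lt_of_lt_of_le ha (hb z).1).ne'))
    (by simp)
  have L2 := lim_mul (μ := volume.restrict (tsupport φ))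
    (a := fun n z => φ z * (1 / smol n f z) ^ 2)
    (a' := fun z => φ z * (1 / f z) ^ 2) (b := fun n => smol n g) (b' := g)
    (C := D * (1 / a) ^ 2)
    (fun n => (hφ.continuous.mul ((sc n).pow 2)).aestronglyMeasurable)
    (fun n z => by
      rw [abs_mul, abs_pow]
      exact mul_le_mul (hD z) (pow_le_pow_left₀ (abs_nonneg _) (sb n z) 2) (by positivity) hD0)
    (fun n => ((contDiff_smol n l).continuous.continuousOn).integrableOn_compact hK)
    (l.integrableOn_isCompact hK)
    (ae_restrict_of_ae (by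
      filter_upwards [ae_tendsto_smol hf1] with z hz
      exact ((tendsto_const_nhds.div hz (lt_of_lt_of_le ha (hb z).1).ne').pow 2).const_mul _))
    (tendsto_L1_smol l hK)
  have fin := tendsto_nhds_unique (L1.congr' key) L2
  rw [← integral_neg]
  have k1 : ∫ z, (1 / f z) * fderiv ℝ φ z v =
      ∫ z in tsupport φ, (1 / f z) * fderiv ℝ φ z v := by
    refine int_supp (fun z hz => rfl) fun z hz => ?_
    rw [tsupport_fderiv_apply hz, mul_zero]
  have k2 : ∫ z, -(-(g z / f z ^ 2) * φ z) =
      ∫ z in tsupport φ, (φ z * (1 / f z) ^ 2) * g z := by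
    refine int_supp (fun z hz => ?_) fun z hz => ?_
    · rw [one_div, inv_pow]
      ring
    · rw [image_eq_zero_of_notMem_tsupport hz]
      ring
  rw [k1, fin, k2]

end

end Pool.Agent.helper23_Euler
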