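import Mathlib
import Pool.Agent.helper23_Euler.WDc

open MeasureTheory Set Filter Topology
open scoped ContDiff Convolution ENNReal NNReal

namespace Pool.Agent.helper23_Euler

noncomputable section

variable {γ T T₁ : ℝ} {B : Bds} {r u p : ℝ × ℝ → ℝ} {r0 u0 p0 : ℝ → ℝ} {Y X : ℝ × ℝ → ℝ}
  {N : ℕ} {ψ : ℕ → ℝ × ℝ → ℝ}

/-- a shock-free solution in label coordinates -/
structure Ref (γ T₁ : ℝ) (B : Bds) (R V Q m g : ℝ × ℝ → ℝ) : Prop where
  mR : Measurable R
  mV : Measurable V
  mQ : Measurable Q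
  box : ∀ w, B.In (R w) (V w) (Q w)
  lm : LocallyIntegrable m
  lg : LocallyIntegrable g
  Vy : WD (strip T₁) (1, 0) V m
  Vt : WD (strip T₁) (0, 1) V (fun w => - g w)
  Qy : WD (strip T₁) (1, 0) Q g
  Qt : WD (strip T₁) (0, 1) Q (fun w => -(γ * Q w * R w * m w))
  Ht : WD (strip T₁) (0, 1) (fun w => en γ (R w) (Q w)) (fun w => -(Q w * m w))

lemma isOpen_strip (T : ℝ) : IsOpen (strip T) :=
  (isOpen_lt continuous_const continuous_snd).inter (isOpen_lt continuous_snd continuous_const)

lemma strip_sub_up (T : ℝ) : strip T ⊆ up := fun _ hz => hz.1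

lemma int_up {φ : ℝ × ℝ → ℝ} (hs : tsupport φ ⊆ up) {F : ℝ × ℝ → ℝ}
    (hF : ∀ z, z ∉ tsupport φ → F z = 0) : ∫ z in up, F z = ∫ z, F z :=
  setIntegral_eq_integral_of_forall_compl_eq_zero fun _ hz => hF _ fun h => hz (hs h)

lemma isTest_of_strip {φ : ℝ × ℝ → ℝ} (h1 : ContDiff ℝ ∞ φ) (h2 : HasCompactSupport φ)
    (h3 : tsupport φ ⊆ strip T₁) : IsTest T₁ φ := ⟨h1, h2, fun z hz => (h3 hz).2⟩

lemma init_zero {φ : ℝ × ℝ → ℝ} (h3 : tsupport φ ⊆ strip T₁) (y : ℝ) : φ (y, 0) = 0 := by
  apply image_eq_zero_of_notMem_tsupport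
  intro h'
  exact lt_irrefl (0 : ℝ) (h3 h').1

lemma locInt_mul {f g : ℝ × ℝ → ℝ} (mf : Measurable f) {C : ℝ} (hC : ∀ z, |f z| ≤ C)
    (hg : LocallyIntegrable g) : LocallyIntegrable (fun z => f z * g z) := by
  rw [locallyIntegrable_iff] at hg ⊢
  intro K hK
  exact (hg K hK).bdd_mul (c := C) mf.aestronglyMeasurable
    (Filter.Eventually.of_forall fun z => hC z)

lemma int_f_dv {f φ : ℝ × ℝ → ℝ} (hf : LocallyIntegrable f) (hφ : ContDiff ℝ ∞ φ)
    (hc : HasCompactSupport φ) (v : ℝ × ℝ) : Integrable (fun z => f z * fderiv ℝ φ z v) := by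
  have cD : Continuous (fun z => fderiv ℝ φ z v) :=
    (hφ.continuous_fderiv (by simp)).clm_apply continuous_const
  have hK : IsCompact (tsupport φ) := hc
  have h1 : IntegrableOn (fun z => f z * fderiv ℝ φ z v) (tsupport φ) :=
    (hf.integrableOn_isCompact hK).mul_continuousOn cD.continuousOn hK
  refine (integrableOn_iff_integrable_of_support_subset ?_).1 h1
  intro z hz
  by_contra h'
  exact hz (by simp only []; rw [tsupport_fderiv_apply h', mul_zero])

lemma int_f_phi {f φ : ℝ × ℝ → ℝ} (hf : LocallyIntegrable f) (hφ : ContDiff ℝ ∞ φ)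
    (hc : HasCompactSupport φ) : Integrable (fun z => f z * φ z) := by
  have hK : IsCompact (tsupport φ) := hc
  have h1 : IntegrableOn (fun z => f z * φ z) (tsupport φ) :=
    (hf.integrableOn_isCompact hK).mul_continuousOn hφ.continuous.continuousOn hK
  refine (integrableOn_iff_integrable_of_support_subset ?_).1 h1
  intro z hz
  by_contra h'
  exact hz (by simp only []; rw [image_eq_zero_of_notMem_tsupport h', mul_zero])

lemma WD.congr {O : Set (ℝ × ℝ)} {v : ℝ × ℝ} {f g f' g' : ℝ × ℝ → ℝ} (h : WD O v f g)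
    (hf : ∀ z, f z = f' z) (hg : ∀ z, g z = g' z) : WD O v f' g' := by
  have e1 : f = f' := funext hf
  have e2 : g = g' := funext hg
  rwa [← e1, ← e2]

lemma WD.const_mul {O : Set (ℝ × ℝ)} {v : ℝ × ℝ} {f g : ℝ × ℝ → ℝ} (h : WD O v f g) (c : ℝ) :
    WD O v (fun z => c * f z) (fun z => c * g z) := by
  intro φ h1 h2 h3
  simp only [mul_assoc]
  rw [integral_const_mul, integral_const_mul, h φ h1 h2 h3]
  ring

theorem Sol.ref (hγ : 1 < γ) (h : Sol γ T B r u p r0 u0 p0) (hA : Appr T T₁ B r u r0 N ψ Y)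
    (hX : LX B T₁ r r0 Y X) {m' g' : ℝ × ℝ → ℝ} (hm : WeakDx T u m') (hg : WeakDx T p g') :
    Ref γ T₁ B (lc X r) (lc X u) (lc X p)
      ((strip T₁).indicator (fun w => lc X m' w / lc X r w))
      ((strip T₁).indicator (fun w => lc X g' w / lc X r w)) := by
  have hγ' : 0 < γ - 1 := by linarith
  have L := h.lag hγ hA hX
  have hra := B.ra_pos
  have hub := B.ub_nonneg
  have hrb := B.rb_pos
  have hpb : 0 ≤ B.pb := le_trans B.pa_pos.le B.pab
  have hTT : T₁ ≤ T := by
    have := hA.small 0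
    have := (bump (N + 0)).rOut_pos
    linarith
  have mX : Measurable (fun w : ℝ × ℝ => (X w, w.2)) :=
    hX.inv.cont.measurable.prodMk measurable_snd
  have mR : Measurable (lc X r) := h.mr.comp mX
  have mV : Measurable (lc X u) := h.mu.comp mX
  have mQ : Measurable (lc X p) := h.mp.comp mX
  have box : ∀ w, B.In (lc X r w) (lc X u w) (lc X p w) := fun w => h.box _
  obtain ⟨m, hmdef⟩ : ∃ m, m = (strip T₁).indicator (fun w => lc X m' w / lc X r w) := ⟨_, rfl⟩
  obtain ⟨g, hgdef⟩ : ∃ g, g = (strip T₁).indicator (fun w => lc X g' w / lc X r w) := ⟨_, rfl⟩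
  have lm : LocallyIntegrable m := by rw [hmdef]; exact hX.locInt hTT hm.1
  have lg : LocallyIntegrable g := by rw [hgdef]; exact hX.locInt hTT hg.1
  have bu : ∀ z, |u z| ≤ B.ub := fun z => (h.box z).2.1
  have bp : ∀ z, |p z| ≤ B.pb := fun z => by
    rw [abs_of_pos (h.box z).p_pos]
    exact (h.box z).2.2.2
  have bV : ∀ w, |lc X u w| ≤ B.ub := fun w => bu _
  have bQ : ∀ w, |lc X p w| ≤ B.pb := fun w => bp _
  have bR : ∀ w, |lc X r w| ≤ B.rb := fun w => (box w).abs_r
  have lV : LocallyIntegrable (lc X u) := locInt_bd mV bV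
  have lQ : LocallyIntegrable (lc X p) := locInt_bd mQ bQ
  have Vy : WD (strip T₁) (1, 0) (lc X u) m := by
    intro φ h1 h2 h3
    have hs : tsupport φ ⊆ up := h3.trans (strip_sub_up T₁)
    have k := hA.dx_eq hX h.mu bu hm (isTest_of_strip h1 h2 h3) hs
    rw [int_up hs fun z hz => by rw [dx_eq_zero hz, mul_zero],
      int_up hs fun z hz => by rw [image_eq_zero_of_notMem_tsupport hz, mul_zero]] at k
    rw [hmdef]
    exact k
  have Qy : WD (strip T₁) (1, 0) (lc X p) g := by
    intro φ h1 h2 h3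
    have hs : tsupport φ ⊆ up := h3.trans (strip_sub_up T₁)
    have k := hA.dx_eq hX h.mp bp hg (isTest_of_strip h1 h2 h3) hs
    rw [int_up hs fun z hz => by rw [dx_eq_zero hz, mul_zero],
      int_up hs fun z hz => by rw [image_eq_zero_of_notMem_tsupport hz, mul_zero]] at k
    rw [hgdef]
    exact k
  have Vt : WD (strip T₁) (0, 1) (lc X u) (fun w => - g w) := by
    intro φ h1 h2 h3
    have hs : tsupport φ ⊆ up := h3.trans (strip_sub_up T₁)
    have k := L.momentum φ (isTest_of_strip h1 h2 h3)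
    rw [int_up hs fun z hz => by rw [dx_eq_zero hz, dt_eq_zero hz]; ring] at k
    have e0 : ∀ x, r0 x * u0 x * φ (Y0 r0 x, 0) = 0 := fun x => by rw [init_zero h3, mul_zero]
    simp only [e0, integral_zero, add_zero] at k
    have k2 := Qy φ h1 h2 h3
    have i1 := int_f_dv lV h1 h2 (0, 1)
    have i2 := int_f_dv lQ h1 h2 (1, 0)
    have k3 : (∫ z, lc X u z * fderiv ℝ φ z (0, 1)) + ∫ z, lc X p z * fderiv ℝ φ z (1, 0) = 0 := by
      rw [← integral_add i1 i2]
      exact k
    have k4 : ∫ z, - g z * φ z = - ∫ z, g z * φ z := by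
      rw [← integral_neg]
      congr 1
      ext z
      ring
    rw [k4]
    linarith
  have bI : ∀ w, |1 / lc X r w| ≤ 1 / B.ra := by
    intro w
    have := (box w).r_pos
    rw [abs_of_pos (by positivity)]
    exact one_div_le_one_div_of_le hra (box w).1.1
  have lI : LocallyIntegrable (fun w => 1 / lc X r w) := locInt_bd (mR.const_div 1) bI
  have It : WD (strip T₁) (0, 1) (fun w => 1 / lc X r w) m := by
    intro φ h1 h2 h3
    have hs : tsupport φ ⊆ up := h3.trans (strip_sub_up T₁)
    have k := L.mass φ (isTest_of_strip h1 h2 h3)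
    rw [int_up hs fun z hz => by rw [dx_eq_zero hz, dt_eq_zero hz]; ring] at k
    have e0 : ∀ x, φ (Y0 r0 x, 0) = 0 := fun x => init_zero h3 _
    simp only [e0, integral_zero, add_zero] at k
    have k2 := Vy φ h1 h2 h3
    have i1 := int_f_dv lI h1 h2 (0, 1)
    have i2 := int_f_dv lV h1 h2 (1, 0)
    have k3 : (∫ z, 1 / lc X r z * fderiv ℝ φ z (0, 1))
        - ∫ z, lc X u z * fderiv ℝ φ z (1, 0) = 0 := by
      rw [← integral_sub i1 i2]
      exact k
    linarith
  have Rt : WD (strip T₁) (0, 1) (lc X r) (fun w => -(m w * (lc X r w) ^ 2)) := by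
    have k := It.inv (isOpen_strip T₁) (mR.const_div 1) (a := 1 / B.rb) (b := 1 / B.ra)
      (by positivity) (fun w => ⟨by
        have := (box w).r_pos
        exact one_div_le_one_div_of_le this (box w).1.2,
        by exact one_div_le_one_div_of_le hra (box w).1.1⟩) lm
    refine k.congr (fun w => by rw [one_div_one_div]) fun w => ?_
    have := (box w).r_pos.ne'
    field_simp
  -- the energy
  have hen : ∀ w, |en γ (lc X r w) (lc X p w)| ≤ B.pb / ((γ - 1) * B.ra) := by
    intro w
    have h1 := (box w).r_pos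
    have h2 := (box w).p_pos
    unfold en
    rw [abs_of_pos (by positivity)]
    have h3 := (box w).1.1
    have h4 := (box w).2.2.2
    gcongr
  have mH : Measurable (fun w => en γ (lc X r w) (lc X p w)) := by
    unfold en
    exact mQ.div (mR.const_mul _)
  have lH : LocallyIntegrable (fun w => en γ (lc X r w) (lc X p w)) := locInt_bd mH hen
  have QVy := Qy.mul (isOpen_strip T₁) Vy mQ bQ mV bV lg lm
  have lng : LocallyIntegrable (fun w => - g w) := lg.neg
  have VVt := Vt.mul (isOpen_strip T₁) Vt mV bV mV bV lng lng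
  have Ht : WD (strip T₁) (0, 1) (fun w => en γ (lc X r w) (lc X p w))
      (fun w => -(lc X p w * m w)) := by
    intro φ h1 h2 h3
    have hs : tsupport φ ⊆ up := h3.trans (strip_sub_up T₁)
    have k := L.energy φ (isTest_of_strip h1 h2 h3)
    rw [int_up hs fun z hz => by rw [dx_eq_zero hz, dt_eq_zero hz]; ring] at k
    have e0 : ∀ x, r0 x * te γ (r0 x) (u0 x) (p0 x) * φ (Y0 r0 x, 0) = 0 := fun x => by
      rw [init_zero h3, mul_zero]
    simp only [e0, integral_zero, add_zero] at k
    have k1 := QVy φ h1 h2 h3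
    have k2 := VVt φ h1 h2 h3
    have lVV : LocallyIntegrable (fun z => lc X u z * lc X u z) := locInt_mul mV bV lV
    have lQV : LocallyIntegrable (fun z => lc X p z * lc X u z) := locInt_mul mQ bQ lV
    have i1 := int_f_dv lH h1 h2 (0, 1)
    have i2 := int_f_dv lVV h1 h2 (0, 1)
    have i3 := int_f_dv lQV h1 h2 (1, 0)
    have k3 : (∫ z, en γ (lc X r z) (lc X p z) * fderiv ℝ φ z (0, 1))
        + (1 / 2) * (∫ z, lc X u z * lc X u z * fderiv ℝ φ z (0, 1))
        + (∫ z, lc X p z * lc X u z * fderiv ℝ φ z (1, 0)) = 0 := by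
      rw [← integral_const_mul, ← integral_add i1 (i2.const_mul _)]
      rw [← integral_add _ i3]
      · refine Eq.trans ?_ k
        congr 1
        ext z
        rw [te, dt, dx]
        ring
      · exact i1.add (i2.const_mul _)
    rw [k1, k2] at k3
    have lVg : LocallyIntegrable (fun z => lc X u z * g z) := locInt_mul mV bV lg
    have lQm : LocallyIntegrable (fun z => lc X p z * m z) := locInt_mul mQ bQ lm
    have j1 := int_f_phi lVg h1 h2
    have j2 := int_f_phi lQm h1 h2
    have e1 : ∫ z, (lc X u z * -g z + lc X u z * -g z) * φ z =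
        (-2) * ∫ z, lc X u z * g z * φ z := by
      rw [← integral_const_mul]
      congr 1
      ext z
      ring
    have e2 : ∫ z, (lc X p z * m z + lc X u z * g z) * φ z =
        (∫ z, lc X p z * m z * φ z) + ∫ z, lc X u z * g z * φ z := by
      rw [← integral_add j2 j1]
      congr 1
      ext z
      ring
    rw [e1, e2] at k3
    have e3 : ∫ z, -(lc X p z * m z) * φ z = - ∫ z, lc X p z * m z * φ z := by
      rw [← integral_neg]
      congr 1
      ext z
      ring
    rw [e3]
    linarith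
  have lRt : LocallyIntegrable (fun w => -(m w * (lc X r w) ^ 2)) := by
    have := (locInt_mul (mR.pow_const 2) (C := B.rb ^ 2) (fun w => by
      rw [abs_pow]
      exact pow_le_pow_left₀ (abs_nonneg _) (bR w) 2) lm).neg
    refine this.congr (Filter.Eventually.of_forall fun w => ?_)
    simp only [Pi.neg_apply]
    ring
  have lHt : LocallyIntegrable (fun w => -(lc X p w * m w)) := (locInt_mul mQ bQ lm).neg
  have HRt := Ht.mul (isOpen_strip T₁) Rt mH hen mR bR lHt lRt
  have Qt : WD (strip T₁) (0, 1) (lc X p) (fun w => -(γ * lc X p w * lc X r w * m w)) := by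
    refine (HRt.const_mul (γ - 1)).congr (fun w => ?_) fun w => ?_
    · have := (box w).r_pos.ne'
      unfold en
      field_simp
    · have := (box w).r_pos.ne'
      unfold en
      field_simp
      ring
  rw [← hmdef, ← hgdef]
  exact ⟨mR, mV, mQ, box, lm, lg, Vy, Vt, Qy, Qt, Ht⟩

end

end Pool.Agent.helper23_Euler
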