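import Mathlib
import Pool.Agent.helper23_Euler.RefL
import Pool.Agent.helper23_Euler.RelEnergy

open MeasureTheory Set Filter Topology
open scoped ContDiff Convolution ENNReal NNReal

namespace Pool.Agent.helper23_Euler

noncomputable section

lemma fl_nonneg {x : ℝ} (hx : 0 < x) : 0 ≤ fl x := le_trans (sq_nonneg _) (fl_ge hx)

lemma fl_lower {x : ℝ} (hx : 0 < x) : (x - 1) ^ 2 ≤ 2 * (x + 1) * fl x := by
  have h1 := fl_ge hx
  have hs : 0 ≤ Real.sqrt x := Real.sqrt_nonneg _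
  have h3 : Real.sqrt x ^ 2 = x := Real.sq_sqrt hx.le
  have h4 : (x - 1) ^ 2 = (Real.sqrt x - 1) ^ 2 * (Real.sqrt x + 1) ^ 2 := by
    rw [← mul_pow]
    congr 1
    nlinarith
  have h5 : (Real.sqrt x + 1) ^ 2 ≤ 2 * (x + 1) := by nlinarith [sq_nonneg (Real.sqrt x - 1)]
  rw [h4, mul_comm (2 * (x + 1))]
  exact mul_le_mul h1 h5 (by positivity) (fl_nonneg hx)

lemma fl_upper {x : ℝ} (hx : 0 < x) : fl x ≤ (x - 1) ^ 2 / x := by
  have h1 : 1 - x⁻¹ ≤ Real.log x := Real.one_sub_inv_le_log_of_pos hx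
  unfold fl
  have h2 : (x - 1) ^ 2 / x = x - 2 + x⁻¹ := by
    field_simp
    ring
  rw [h2]
  linarith

/-- bounds of the internal energy -/
lemma en_bds {γ : ℝ} (hγ : 1 < γ) {B : Bds} {r u p : ℝ} (h : B.In r u p) :
    B.pa / ((γ - 1) * B.rb) ≤ en γ r p ∧ en γ r p ≤ B.pb / ((γ - 1) * B.ra) := by
  have hγ' : 0 < γ - 1 := by linarith
  have hra := B.ra_pos
  have hrb := B.rb_pos
  have hpa := B.pa_pos
  have hr := h.r_pos
  have hp := h.p_pos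
  have h1 := h.1.1
  have h2 := h.1.2
  have h3 := h.2.2.1
  have h4 := h.2.2.2
  have hpb : 0 < B.pb := lt_of_lt_of_le hpa B.pab
  unfold en
  constructor <;> gcongr

/-- coercivity of the relative energy and domination of the error terms -/
lemma exists_coer {γ : ℝ} (hγ : 1 < γ) (B : Bds) : ∃ C, 0 < C ∧ ∀ r u p R V Q,
    B.In r u p → B.In R V Q →
      (r - R) ^ 2 ≤ C * relE γ r u p V Q (en γ R Q) ∧
      (u - V) ^ 2 ≤ C * relE γ r u p V Q (en γ R Q) ∧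
      (p - Q) ^ 2 ≤ C * relE γ r u p V Q (en γ R Q) ∧
      Q * (fl (p / Q) + γ * fl (R / r)) ≤ C * relE γ r u p V Q (en γ R Q) ∧
      |(p - Q) * (u - V)| ≤ C * relE γ r u p V Q (en γ R Q) ∧
      0 ≤ relE γ r u p V Q (en γ R Q) := by
  have hγ' : 0 < γ - 1 := by linarith
  have hra := B.ra_pos
  have hrb := B.rb_pos
  have hpa := B.pa_pos
  have hpb : 0 < B.pb := lt_of_lt_of_le hpa B.pab
  obtain ⟨h1, hh1⟩ : ∃ h1, h1 = B.pa / ((γ - 1) * B.rb) := ⟨_, rfl⟩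
  have h1pos : 0 < h1 := by rw [hh1]; positivity
  obtain ⟨A, hA⟩ : ∃ A, A = B.pb * B.rb / (B.ra * B.pa) := ⟨_, rfl⟩
  obtain ⟨Bb, hBb⟩ : ∃ Bb, Bb = B.rb / B.ra := ⟨_, rfl⟩
  have hApos : 0 < A := by rw [hA]; positivity
  have hBbpos : 0 < Bb := by rw [hBb]; positivity
  -- constants for (a-1)^2 and (b-1)^2
  obtain ⟨ca, hca⟩ : ∃ ca, ca = 2 * (A + 1) / h1 := ⟨_, rfl⟩
  obtain ⟨cb, hcb⟩ : ∃ cb, cb = 2 * (Bb + 1) / ((γ - 1) * h1) := ⟨_, rfl⟩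
  have hcapos : 0 < ca := by rw [hca]; positivity
  have hcbpos : 0 < cb := by rw [hcb]; positivity
  obtain ⟨cd, hcd⟩ : ∃ cd, cd = B.rb ^ 3 * B.pb / (B.ra ^ 3 * B.pa) := ⟨_, rfl⟩
  have hcdpos : 0 < cd := by rw [hcd]; positivity
  obtain ⟨Cp, hCp⟩ : ∃ Cp, Cp = B.pb ^ 2 * (2 * (ca + cb)) * Bb ^ 2 := ⟨_, rfl⟩
  have hCppos : 0 < Cp := by rw [hCp]; positivity
  refine ⟨B.rb ^ 2 * cb + 2 + Cp + B.pb * (2 * (ca + cb) * Bb ^ 2 * A + γ / ((γ - 1) * h1)),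
    by positivity, ?_⟩
  intro r u p R V Q hin hin'
  have hr := hin.r_pos
  have hp := hin.p_pos
  have hR := hin'.r_pos
  have hQ := hin'.p_pos
  have hH : h1 ≤ en γ R Q := by rw [hh1]; exact (en_bds hγ hin').1
  have hHpos : 0 < en γ R Q := lt_of_lt_of_le h1pos hH
  obtain ⟨a, ha⟩ : ∃ a, a = en γ r p / en γ R Q := ⟨_, rfl⟩
  obtain ⟨b, hb⟩ : ∃ b, b = R / r := ⟨_, rfl⟩
  have hapos : 0 < a := by rw [ha]; unfold en; positivity
  have hbpos : 0 < b := by rw [hb]; positivity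
  have hb' : Q / (r * ((γ - 1) * en γ R Q)) = b := by
    rw [hb]; unfold en; field_simp
  have ha' : a = p * R / (r * Q) := by
    rw [ha]; unfold en; field_simp
  have hpQ : p / Q = a / b := by
    rw [ha', hb]; field_simp
  have hrel : relE γ r u p V Q (en γ R Q) = (u - V) ^ 2 / 2 + en γ R Q * fl a
      + (γ - 1) * en γ R Q * fl b := by
    rw [relE_eq hγ hr hp hQ hHpos, hb', ← ha]
  obtain ⟨E, hE⟩ : ∃ E, E = relE γ r u p V Q (en γ R Q) := ⟨_, rfl⟩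
  rw [← hE] at hrel ⊢
  have fa := fl_nonneg hapos
  have fb := fl_nonneg hbpos
  have hEnn : 0 ≤ E := by rw [hrel]; positivity
  have t1 : 0 ≤ (u - V) ^ 2 / 2 := by positivity
  have t2 : 0 ≤ en γ R Q * fl a := by positivity
  have t3 : 0 ≤ (γ - 1) * en γ R Q * fl b := by positivity
  have hfa : fl a ≤ E / h1 := by
    rw [le_div_iff₀ h1pos]
    have : fl a * h1 ≤ en γ R Q * fl a := by rw [mul_comm]; gcongr
    linarith
  have hfb : fl b ≤ E / ((γ - 1) * h1) := by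
    rw [le_div_iff₀ (by positivity)]
    have : fl b * ((γ - 1) * h1) ≤ (γ - 1) * en γ R Q * fl b := by
      rw [mul_comm]; gcongr
    linarith
  have haA : a ≤ A := by
    rw [ha', hA]
    have := hin.1.1; have := hin.2.2.2; have := hin'.1.2; have := hin'.2.2.1
    gcongr
  have hbB : b ≤ Bb := by
    rw [hb, hBb]
    have := hin.1.1; have := hin'.1.2
    gcongr
  have hbl : 1 / Bb ≤ b := by
    rw [hb, hBb, one_div_div]
    have := hin.1.2; have := hin'.1.1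
    gcongr
  have hal : 1 / A ≤ a := by
    rw [ha', hA, one_div_div, mul_comm p R]
    have := hin.1.2; have := hin'.1.1; have := hin.2.2.1; have := hin'.2.2.2
    rw [mul_comm B.pb]
    gcongr
  have sa : (a - 1) ^ 2 ≤ ca * E := by
    refine (fl_lower hapos).trans ?_
    rw [hca]
    calc 2 * (a + 1) * fl a ≤ 2 * (A + 1) * (E / h1) := by gcongr
      _ = _ := by ring
  have sb : (b - 1) ^ 2 ≤ cb * E := by
    refine (fl_lower hbpos).trans ?_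
    rw [hcb]
    calc 2 * (b + 1) * fl b ≤ 2 * (Bb + 1) * (E / ((γ - 1) * h1)) := by gcongr
      _ = _ := by ring
  have sab : (a - b) ^ 2 ≤ 2 * (ca + cb) * E := by
    have e1 : (a - b) ^ 2 = 2 * ((a - 1) ^ 2 + (b - 1) ^ 2) - ((a - 1) + (b - 1)) ^ 2 := by ring
    have e2 := sq_nonneg ((a - 1) + (b - 1))
    have e3 : 2 * (ca + cb) * E = 2 * (ca * E) + 2 * (cb * E) := by ring
    rw [e3]
    linarith
  have invb : 1 / b ≤ Bb := by
    rw [div_le_iff₀ hbpos]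
    have := (div_le_iff₀ hBbpos).1 hbl
    linarith
  have inva : 1 / a ≤ A := by
    rw [div_le_iff₀ hapos]
    have := (div_le_iff₀ hApos).1 hal
    linarith
  have c1 : (r - R) ^ 2 ≤ (B.rb ^ 2 * cb) * E := by
    have e : (r - R) ^ 2 = r ^ 2 * (b - 1) ^ 2 := by
      rw [hb]; field_simp; ring
    rw [e, mul_assoc]
    have := hin.1.2
    gcongr
  have c2 : (u - V) ^ 2 ≤ 2 * E := by linarith
  have c3 : (p - Q) ^ 2 ≤ Cp * E := by
    have e : (p - Q) ^ 2 = Q ^ 2 * (a - b) ^ 2 * (1 / b) ^ 2 := by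
      have : p = Q * (a / b) := by rw [← hpQ]; field_simp
      rw [this]
      field_simp
    rw [e, hCp]
    have := hin'.2.2.2
    calc Q ^ 2 * (a - b) ^ 2 * (1 / b) ^ 2 ≤ B.pb ^ 2 * (2 * (ca + cb) * E) * Bb ^ 2 := by gcongr
      _ = _ := by ring
  have c4 : Q * (fl (p / Q) + γ * fl (R / r)) ≤
      (B.pb * (2 * (ca + cb) * Bb ^ 2 * A + γ / ((γ - 1) * h1))) * E := by
    rw [hpQ, ← hb]
    have e1 : fl (a / b) ≤ (2 * (ca + cb) * Bb ^ 2 * A) * E := by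
      refine (fl_upper (by positivity)).trans ?_
      have e2 : (a / b - 1) ^ 2 / (a / b) = (a - b) ^ 2 * (1 / b) * (1 / a) := by
        field_simp
      rw [e2]
      have hBb1 : 1 ≤ Bb := by
        rw [hBb, le_div_iff₀ hra, one_mul]
        exact B.rab
      calc (a - b) ^ 2 * (1 / b) * (1 / a) ≤ (2 * (ca + cb) * E) * Bb * A := by gcongr
        _ ≤ (2 * (ca + cb) * E) * Bb ^ 2 * A := by
            have : Bb ≤ Bb ^ 2 := le_self_pow₀ hBb1 two_ne_zero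
            gcongr
        _ = _ := by ring
    have e3 : γ * fl b ≤ γ / ((γ - 1) * h1) * E := by
      have : γ * fl b ≤ γ * (E / ((γ - 1) * h1)) := by
        have : 0 ≤ γ := by linarith
        gcongr
      refine this.trans (le_of_eq ?_)
      ring
    have hfab : 0 ≤ fl (a / b) := fl_nonneg (by positivity)
    calc Q * (fl (a / b) + γ * fl b) ≤ B.pb * ((2 * (ca + cb) * Bb ^ 2 * A) * E
        + γ / ((γ - 1) * h1) * E) := by
          have := hin'.2.2.2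
          gcongr
      _ = _ := by ring
  have n1 : 0 ≤ B.rb ^ 2 * cb := by positivity
  have n2 : 0 ≤ B.pb * (2 * (ca + cb) * Bb ^ 2 * A + γ / ((γ - 1) * h1)) := by positivity
  have n3 : 0 ≤ Cp := hCppos.le
  have c5 : |(p - Q) * (u - V)| ≤ (Cp + 2) * E := by
    rw [abs_mul]
    have e1 : |p - Q| * |u - V| ≤ (|p - Q| ^ 2 + |u - V| ^ 2) / 2 := by
      have e0 := sq_nonneg (|p - Q| - |u - V|)
      have e2 : (|p - Q| - |u - V|) ^ 2 = |p - Q| ^ 2 + |u - V| ^ 2 - 2 * (|p - Q| * |u - V|) := by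
        ring
      linarith
    rw [sq_abs, sq_abs] at e1
    have e2 := mul_nonneg n3 hEnn
    linarith
  obtain ⟨c1', hc1'⟩ : ∃ c1', c1' = B.rb ^ 2 * cb := ⟨_, rfl⟩
  obtain ⟨c4', hc4'⟩ : ∃ c4', c4' = B.pb * (2 * (ca + cb) * Bb ^ 2 * A + γ / ((γ - 1) * h1)) :=
    ⟨_, rfl⟩
  rw [← hc1'] at c1 n1 ⊢
  rw [← hc4'] at c4 n2 ⊢
  have m1 := mul_nonneg n1 hEnn
  have m2 := mul_nonneg n2 hEnn
  have m3 := mul_nonneg n3 hEnn
  have ex : (c1' + 2 + Cp + c4') * E = c1' * E + 2 * E + Cp * E + c4' * E := by ring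
  rw [ex]
  rw [add_mul] at c5
  refine ⟨?_, ?_, ?_, ?_, ?_, hEnn⟩
  · linarith
  · linarith
  · linarith
  · linarith
  · linarith

/-- the box of six variables -/
def box6 (B : Bds) (h1 h2 : ℝ) : Set (ℝ × ℝ × ℝ × ℝ × ℝ × ℝ) :=
  Icc B.ra B.rb ×ˢ Icc (-B.ub) B.ub ×ˢ Icc B.pa B.pb ×ˢ Icc (-B.ub) B.ub ×ˢ Icc B.pa B.pb ×ˢ
    Icc h1 h2

/-- the relative energy is Lipschitz in all variables -/
lemma relE_lip {γ : ℝ} (hγ : 1 < γ) (B : Bds) {h1 h2 : ℝ} (hh : 0 < h1) : ∃ C, 0 ≤ C ∧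
    ∀ r u p V Q H r' u' p' V' Q' H', B.In r u p → |V| ≤ B.ub → B.pa ≤ Q → Q ≤ B.pb → h1 ≤ H →
      H ≤ h2 → B.In r' u' p' → |V'| ≤ B.ub → B.pa ≤ Q' → Q' ≤ B.pb → h1 ≤ H' → H' ≤ h2 →
      |relE γ r u p V Q H - relE γ r' u' p' V' Q' H'| ≤
        C * (|r - r'| + |u - u'| + |p - p'| + |V - V'| + |Q - Q'| + |H - H'|) := by
  have hγ' : 0 < γ - 1 := by linarith
  have hK : IsCompact (box6 B h1 h2) :=
    isCompact_Icc.prod (isCompact_Icc.prod (isCompact_Icc.prod (isCompact_Icc.prod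
      (isCompact_Icc.prod isCompact_Icc))))
  obtain ⟨L, hL⟩ : ∃ L : ℝ≥0, LipschitzOnWith L (fun x : ℝ × ℝ × ℝ × ℝ × ℝ × ℝ =>
      relE γ x.1 x.2.1 x.2.2.1 x.2.2.2.1 x.2.2.2.2.1 x.2.2.2.2.2) (box6 B h1 h2) := by
    refine LocallyLipschitzOn.exists_lipschitzOnWith_of_compact hK ?_
    intro x hx
    have q1 : 0 < x.1 := lt_of_lt_of_le B.ra_pos hx.1.1
    have q3 : 0 < x.2.2.1 := lt_of_lt_of_le B.pa_pos hx.2.2.1.1
    have q5 : 0 < x.2.2.2.2.1 := lt_of_lt_of_le B.pa_pos hx.2.2.2.2.1.1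
    have q6 : 0 < x.2.2.2.2.2 := lt_of_lt_of_le hh hx.2.2.2.2.2.1
    have s1 : ContDiffAt ℝ 1 (fun x : ℝ × ℝ × ℝ × ℝ × ℝ × ℝ => x.1) x := by fun_prop
    have s2 : ContDiffAt ℝ 1 (fun x : ℝ × ℝ × ℝ × ℝ × ℝ × ℝ => x.2.1) x := by fun_prop
    have s3 : ContDiffAt ℝ 1 (fun x : ℝ × ℝ × ℝ × ℝ × ℝ × ℝ => x.2.2.1) x := by fun_prop
    have s4 : ContDiffAt ℝ 1 (fun x : ℝ × ℝ × ℝ × ℝ × ℝ × ℝ => x.2.2.2.1) x := by fun_prop
    have s5 : ContDiffAt ℝ 1 (fun x : ℝ × ℝ × ℝ × ℝ × ℝ × ℝ => x.2.2.2.2.1) x := by fun_prop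
    have s6 : ContDiffAt ℝ 1 (fun x : ℝ × ℝ × ℝ × ℝ × ℝ × ℝ => x.2.2.2.2.2) x := by fun_prop
    have hf : ContDiffAt ℝ 1 (fun x : ℝ × ℝ × ℝ × ℝ × ℝ × ℝ =>
        relE γ x.1 x.2.1 x.2.2.1 x.2.2.2.1 x.2.2.2.2.1 x.2.2.2.2.2) x := by
      unfold relE te sp en Gf Sb
      have w1 := (s2.pow 2).div_const 2
      have w2 := s3.div ((contDiffAt_const (c := γ - 1)).mul s1) (by positivity)
      have w3 := (contDiffAt_const (c := (1:ℝ))).div s1 q1.ne'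
      have w4 := (s3.log q3.ne').sub ((contDiffAt_const (c := γ)).mul (s1.log q1.ne'))
      have w5 := (s4.pow 2).div_const 2
      have w6 := ((contDiffAt_const (c := 1 - γ)).mul (s5.log q5.ne')).add
        ((contDiffAt_const (c := γ)).mul (s6.log q6.ne')) |>.add
          (contDiffAt_const (c := γ * Real.log (γ - 1)))
      exact (((((w1.add w2).sub (s2.mul s4)).add (w3.mul s5)).sub (w4.mul s6))).sub
        ((((contDiffAt_const (c := γ)).mul s6).sub w5).sub (s6.mul w6))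
    obtain ⟨L, t, ht, hL⟩ := hf.exists_lipschitzOnWith
    exact ⟨L, t, mem_nhdsWithin_of_mem_nhds ht, hL⟩
  refine ⟨L, L.2, ?_⟩
  intro r u p V Q H r' u' p' V' Q' H' a1 a2 a3 a4 a5 a6 b1 b2 b3 b4 b5 b6
  have m1 : (r, u, p, V, Q, H) ∈ box6 B h1 h2 :=
    ⟨⟨a1.1.1, a1.1.2⟩, ⟨(abs_le.1 a1.2.1).1, (abs_le.1 a1.2.1).2⟩, ⟨a1.2.2.1, a1.2.2.2⟩,
      ⟨(abs_le.1 a2).1, (abs_le.1 a2).2⟩, ⟨a3, a4⟩, ⟨a5, a6⟩⟩
  have m2 : (r', u', p', V', Q', H') ∈ box6 B h1 h2 :=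
    ⟨⟨b1.1.1, b1.1.2⟩, ⟨(abs_le.1 b1.2.1).1, (abs_le.1 b1.2.1).2⟩, ⟨b1.2.2.1, b1.2.2.2⟩,
      ⟨(abs_le.1 b2).1, (abs_le.1 b2).2⟩, ⟨b3, b4⟩, ⟨b5, b6⟩⟩
  have k := hL.dist_le_mul _ m1 _ m2
  rw [Real.dist_eq] at k
  refine k.trans (mul_le_mul_of_nonneg_left ?_ L.2)
  simp only [Prod.dist_eq, Real.dist_eq]
  have n1 := abs_nonneg (r - r')
  have n2 := abs_nonneg (u - u')
  have n3 := abs_nonneg (p - p')
  have n4 := abs_nonneg (V - V')
  have n5 := abs_nonneg (Q - Q')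
  have n6 := abs_nonneg (H - H')
  refine max_le (by linarith) (max_le (by linarith) (max_le (by linarith) (max_le (by linarith)
    (max_le (by linarith) (by linarith)))))

end

end Pool.Agent.helper23_Euler
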