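import Mathlib
import Pool.Agent.helper23_Euler.RelLip
import Pool.Agent.helper23_Euler.MeasProf

open MeasureTheory Set Filter Topology
open scoped ContDiff Convolution ENNReal NNReal

namespace Pool.Agent.helper23_Euler

noncomputable section

variable {γ T T₁ : ℝ} {B : Bds} {r0 u0 p0 : ℝ → ℝ} {Rc Uc Pc V Q H χ : ℝ × ℝ → ℝ}

lemma fderiv_G (hV : ContDiff ℝ ∞ V) (hQ : ContDiff ℝ ∞ Q) (hH : ContDiff ℝ ∞ H)
    (Q0 : ∀ w, 0 < Q w) (H0 : ∀ w, 0 < H w) (w : ℝ × ℝ) :
    dt (fun w => Gf γ (V w) (Q w) (H w)) w =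
      - (V w * dt V w) - dt H w * Sb γ (Q w) (H w) + ((γ - 1) * H w / Q w) * dt Q w := by
  have dV : HasFDerivAt V (fderiv ℝ V w) w := (hV.differentiable (by simp) w).hasFDerivAt
  have dQ : HasFDerivAt Q (fderiv ℝ Q w) w := (hQ.differentiable (by simp) w).hasFDerivAt
  have dH : HasFDerivAt H (fderiv ℝ H w) w := (hH.differentiable (by simp) w).hasFDerivAt
  have e1 : HasFDerivAt (fun w => Sb γ (Q w) (H w))
      ((1 - γ) • ((Q w)⁻¹ • fderiv ℝ Q w) + γ • ((H w)⁻¹ • fderiv ℝ H w)) w := by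
    unfold Sb
    exact (((dQ.log (Q0 w).ne').const_mul (1 - γ)).add
      ((dH.log (H0 w).ne').const_mul γ)).add_const _
  have e2 := ((dH.const_mul γ).sub ((dV.mul dV).const_mul (1 / 2))).sub (dH.mul e1)
  have e3 : (fun w => Gf γ (V w) (Q w) (H w)) =
      fun w => γ * H w - 1 / 2 * (V w * V w) - H w * Sb γ (Q w) (H w) := by
    ext w
    unfold Gf
    ring
  have h1 := (Q0 w).ne'
  have h2 := (H0 w).ne'
  have e4 : fderiv ℝ (fun w => γ * H w - 1 / 2 * (V w * V w) - H w * Sb γ (Q w) (H w)) w = _ :=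
    e2.fderiv
  rw [e3, dt, e4, dt, dt, dt]
  simp
  field_simp
  ring

lemma contDiff_G (hV : ContDiff ℝ ∞ V) (hQ : ContDiff ℝ ∞ Q) (hH : ContDiff ℝ ∞ H)
    (Q0 : ∀ w, 0 < Q w) (H0 : ∀ w, 0 < H w) :
    ContDiff ℝ ∞ (fun w => Gf γ (V w) (Q w) (H w)) := by
  unfold Gf Sb
  have l1 := hQ.log fun w => (Q0 w).ne'
  have l2 := hH.log fun w => (H0 w).ne'
  exact (((contDiff_const (c := γ)).mul hH).sub ((hV.pow 2).div_const 2)).sub
    (hH.mul ((((contDiff_const (c := 1 - γ)).mul l1).add ((contDiff_const (c := γ)).mul l2)).add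
      contDiff_const))

lemma isTest_mul {T' : ℝ} (hχ : IsTest T' χ) (hV : ContDiff ℝ ∞ V) :
    IsTest T' (fun w => χ w * V w) where
  smooth := hχ.smooth.mul hV
  cpt := hχ.cpt.mul_right
  supp := (tsupport_mul_subset_left).trans hχ.supp

lemma dt_mul {F G : ℝ × ℝ → ℝ} (hF : ContDiff ℝ ∞ F) (hG : ContDiff ℝ ∞ G) (w : ℝ × ℝ) :
    dt (fun w => F w * G w) w = F w * dt G w + G w * dt F w :=
  fderiv_mul_apply (hF.differentiable (by simp) w) (hG.differentiable (by simp) w) _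

lemma dx_mul {F G : ℝ × ℝ → ℝ} (hF : ContDiff ℝ ∞ F) (hG : ContDiff ℝ ∞ G) (w : ℝ × ℝ) :
    dx (fun w => F w * G w) w = F w * dx G w + G w * dx F w :=
  fderiv_mul_apply (hF.differentiable (by simp) w) (hG.differentiable (by simp) w) _

/-- the competitor, in label coordinates -/
structure Cpt (γ T₁ : ℝ) (B : Bds) (Rc Uc Pc : ℝ × ℝ → ℝ) (r0 u0 p0 : ℝ → ℝ) : Prop where
  mR : Measurable Rc
  mU : Measurable Uc
  mP : Measurable Pc
  mr0 : Measurable r0
  mu0 : Measurable u0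
  mp0 : Measurable p0
  box : ∀ w, B.In (Rc w) (Uc w) (Pc w)
  box0 : ∀ x, B.In (r0 x) (u0 x) (p0 x)
  lag : Lag γ T₁ Rc Uc Pc r0 u0 p0
  change0 : ∀ g : ℝ → ℝ, ∫ x, r0 x * g (Y0 r0 x) = ∫ y, g y
  tr0 : ∀ g : ℝ → ℝ, Integrable g → Integrable (fun x => r0 x * g (Y0 r0 x))

lemma Cpt.mY (h : Cpt γ T₁ B Rc Uc Pc r0 u0 p0) : Continuous (Y0 r0) := by
  have hi : ∀ a b : ℝ, IntervalIntegrable r0 volume a b := fun a b =>
    (MeasureTheory.Measure.integrableOn_of_bounded (M := B.rb) (by simp)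
      h.mr0.aestronglyMeasurable
      (Filter.Eventually.of_forall fun s => (h.box0 s).abs_r)).intervalIntegrable
  exact intervalIntegral.continuous_primitive hi 0

lemma Cpt.integrable_lab (h : Cpt γ T₁ B Rc Uc Pc r0 u0 p0) {A : ℝ → ℝ} (hA : Measurable A)
    {C : ℝ} (hC : ∀ x, |A x| ≤ C) {g : ℝ → ℝ} (hg : Continuous g) (hc : HasCompactSupport g) :
    Integrable (fun x => A x * g (Y0 r0 x)) := by
  have hra := B.ra_pos
  have hi : ∀ a b : ℝ, IntervalIntegrable r0 volume a b := fun a b =>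
    (MeasureTheory.Measure.integrableOn_of_bounded (M := B.rb) (by simp)
      h.mr0.aestronglyMeasurable
      (Filter.Eventually.of_forall fun s => (h.box0 s).abs_r)).intervalIntegrable
  have low : ∀ x, B.ra * |x| ≤ |Y0 r0 x| := by
    intro x
    rcases le_total 0 x with hx | hx
    · have h1 : ∫ s in (0 : ℝ)..x, B.ra ≤ ∫ s in (0 : ℝ)..x, r0 s :=
        intervalIntegral.integral_mono_on hx intervalIntegrable_const (hi 0 x)
          fun s _ => (h.box0 s).1.1
      rw [intervalIntegral.integral_const, smul_eq_mul, sub_zero] at h1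
      rw [abs_of_nonneg hx]
      refine le_trans ?_ (le_abs_self _)
      show B.ra * x ≤ ∫ s in (0 : ℝ)..x, r0 s
      linarith
    · have h1 : ∫ s in x..0, B.ra ≤ ∫ s in x..0, r0 s :=
        intervalIntegral.integral_mono_on hx intervalIntegrable_const (hi x 0)
          fun s _ => (h.box0 s).1.1
      rw [intervalIntegral.integral_const, smul_eq_mul] at h1
      rw [abs_of_nonpos hx]
      refine le_trans ?_ (neg_le_abs _)
      have e : Y0 r0 x = - ∫ s in x..0, r0 s := by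
        rw [Y0, intervalIntegral.integral_symm]
      rw [e]
      linarith
  obtain ⟨D, hD⟩ := hc.exists_bound_of_continuous hg
  obtain ⟨X, hX⟩ := hc.isCompact.isBounded.subset_closedBall 0
  refine integrable_of_bdd_cpt (C := C * D) (hA.mul (hg.measurable.comp
    h.mY.measurable)).aestronglyMeasurable ?_ (isCompact_closedBall (0 : ℝ) (X / B.ra)) ?_
  · intro x
    rw [norm_mul]
    exact mul_le_mul (hC x) (hD _) (norm_nonneg _) ((abs_nonneg _).trans (hC x))
  · intro x hx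
    have : Y0 r0 x ∉ tsupport g := by
      intro h'
      apply hx
      have h1 := hX h'
      rw [mem_closedBall_zero_iff, Real.norm_eq_abs] at h1 ⊢
      rw [le_div_iff₀ hra, mul_comm]
      exact (low x).trans h1
    rw [image_eq_zero_of_notMem_tsupport this, mul_zero]

lemma comb6 {α : Type*} [MeasurableSpace α] {μ : Measure α} {f1 f2 f3 f4 f5 f6 : α → ℝ}
    (h1 : Integrable f1 μ) (h2 : Integrable f2 μ) (h3 : Integrable f3 μ) (h4 : Integrable f4 μ)
    (h5 : Integrable f5 μ) (h6 : Integrable f6 μ) :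
    (∫ x, f1 x ∂μ) - (∫ x, f2 x ∂μ) + (∫ x, f3 x ∂μ) - (∫ x, f4 x ∂μ) - (∫ x, f5 x ∂μ)
      + (∫ x, f6 x ∂μ) = ∫ x, (f1 x - f2 x + f3 x - f4 x - f5 x + f6 x) ∂μ := by
  have h12 : Integrable (fun x => f1 x - f2 x) μ := h1.sub h2
  have h123 : Integrable (fun x => f1 x - f2 x + f3 x) μ := h12.add h3
  have h1234 : Integrable (fun x => f1 x - f2 x + f3 x - f4 x) μ := h123.sub h4
  have h12345 : Integrable (fun x => f1 x - f2 x + f3 x - f4 x - f5 x) μ := h1234.sub h5
  rw [integral_add h12345 h6, integral_sub h1234 h5, integral_sub h123 h4, integral_add h12 h3,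
    integral_sub h1 h2]

/-- the relative energy inequality for smooth reference functions -/
theorem Cpt.smooth_ineq (hγ : 1 < γ) (h : Cpt γ T₁ B Rc Uc Pc r0 u0 p0)
    (hV : ContDiff ℝ ∞ V) (hQ : ContDiff ℝ ∞ Q) (hH : ContDiff ℝ ∞ H)
    (Q0 : ∀ w, 0 < Q w) (H0 : ∀ w, 0 < H w) (hχ : IsTest T₁ χ) (hχ0 : ∀ w, 0 ≤ χ w) :
    0 ≤ (∫ w in up, (relE γ (Rc w) (Uc w) (Pc w) (V w) (Q w) (H w) * dt χ w
      + (Pc w - Q w) * (Uc w - V w) * dx χ w
      + χ w * (- ((Uc w - V w) * (dt V w + dx Q w))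
        + (1 / Rc w - (γ - 1) * H w / Q w) * dt Q w
        - (sp γ (Rc w) (Pc w) - Sb γ (Q w) (H w)) * dt H w - (Pc w - Q w) * dx V w)))
      + ∫ x, r0 x * relE γ (r0 x) (u0 x) (p0 x) (V (Y0 r0 x, 0)) (Q (Y0 r0 x, 0))
        (H (Y0 r0 x, 0)) * χ (Y0 r0 x, 0) := by
  obtain ⟨C, hC0, hC⟩ := exists_bd hγ B
  have hra := B.ra_pos
  have hrb := B.rb_pos
  have hub := B.ub_nonneg
  have hpb : 0 ≤ B.pb := le_trans B.pa_pos.le B.pab
  obtain ⟨G, hG⟩ : ∃ G : ℝ × ℝ → ℝ, G = fun w => Gf γ (V w) (Q w) (H w) := ⟨_, rfl⟩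
  have cG : ContDiff ℝ ∞ G := by rw [hG]; exact contDiff_G hV hQ hH Q0 H0
  have tb := isTest_mul hχ hV
  have tq := isTest_mul hχ hQ
  have ta := isTest_mul hχ hH
  have tG := isTest_mul hχ cG
  have tQV := isTest_mul hχ (hQ.mul hV)
  have k1 := h.lag.energy χ hχ
  have k2 := h.lag.momentum _ tb
  have k3 := h.lag.mass _ tq
  have k4 := h.lag.entropy _ ta fun w => mul_nonneg (hχ0 w) (H0 w).le
  have k5 := setIntegral_up_dt tG.smooth tG.cpt
  have k6 := setIntegral_up_dx tQV.smooth tQV.cpt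
  have cX : Continuous (fun y : ℝ => χ (y, 0) * G (y, 0)) :=
    (hχ.continuous.comp (by fun_prop)).mul (cG.continuous.comp (by fun_prop))
  have hcX : HasCompactSupport (fun y : ℝ => χ (y, 0)) := HasCompactSupport.slice_x hχ.cpt 0
  have k7 := h.change0 (fun y : ℝ => χ (y, 0) * G (y, 0))
  -- measurability and bounds
  have mte : Measurable (fun w => te γ (Rc w) (Uc w) (Pc w)) := by
    unfold te en
    exact ((h.mU.pow_const 2).div_const 2).add (h.mP.div (h.mR.const_mul _))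
  have msp : Measurable (fun w => sp γ (Rc w) (Pc w)) := by
    unfold sp
    exact (Real.measurable_log.comp h.mP).sub ((Real.measurable_log.comp h.mR).const_mul γ)
  have mte0 : Measurable (fun x => te γ (r0 x) (u0 x) (p0 x)) := by
    unfold te en
    exact ((h.mu0.pow_const 2).div_const 2).add (h.mp0.div (h.mr0.const_mul _))
  have msp0 : Measurable (fun x => sp γ (r0 x) (p0 x)) := by
    unfold sp
    exact (Real.measurable_log.comp h.mp0).sub ((Real.measurable_log.comp h.mr0).const_mul γ)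
  have bp : ∀ w, |Pc w| ≤ B.pb := fun w => by
    rw [abs_of_pos (h.box w).p_pos]; exact (h.box w).2.2.2
  have bpu : ∀ w, |Pc w * Uc w| ≤ B.pb * B.ub := fun w => by
    rw [abs_mul]; exact mul_le_mul (bp w) (h.box w).2.1 (abs_nonneg _) hpb
  have bi : ∀ w, |1 / Rc w| ≤ 1 / B.ra := fun w => by
    have := (h.box w).r_pos
    rw [abs_of_pos (by positivity)]
    exact one_div_le_one_div_of_le hra (h.box w).1.1
  have i1 : Integrable (fun w => te γ (Rc w) (Uc w) (Pc w) * dt χ w + Pc w * Uc w * dx χ w) :=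
    (integrable_mul_dt mte (fun w => (hC _ _ _ (h.box w)).1) hχ.smooth hχ.cpt).add
      (integrable_mul_dx (h.mP.mul h.mU) bpu hχ.smooth hχ.cpt)
  have i2 : Integrable (fun w => Uc w * dt (fun w => χ w * V w) w
      + Pc w * dx (fun w => χ w * V w) w) :=
    (integrable_mul_dt h.mU (fun w => (h.box w).2.1) tb.smooth tb.cpt).add
      (integrable_mul_dx h.mP bp tb.smooth tb.cpt)
  have i3 : Integrable (fun w => 1 / Rc w * dt (fun w => χ w * Q w) w
      - Uc w * dx (fun w => χ w * Q w) w) :=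
    (integrable_mul_dt (h.mR.const_div 1) bi tq.smooth tq.cpt).sub
      (integrable_mul_dx h.mU (fun w => (h.box w).2.1) tq.smooth tq.cpt)
  have i4 : Integrable (fun w => sp γ (Rc w) (Pc w) * dt (fun w => χ w * H w) w) :=
    integrable_mul_dt msp (fun w => (hC _ _ _ (h.box w)).2) ta.smooth ta.cpt
  have i5 : Integrable (fun w => dt (fun w => χ w * G w) w) := by
    simpa using integrable_mul_dt (A := fun _ => 1) measurable_const (C := 1) (by simp)
      tG.smooth tG.cpt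
  have i6 : Integrable (fun w => dx (fun w => χ w * (Q w * V w)) w) := by
    simpa using integrable_mul_dx (A := fun _ => 1) measurable_const (C := 1) (by simp)
      tQV.smooth tQV.cpt
  have c1 : Continuous (fun y : ℝ => χ (y, 0)) := hχ.continuous.comp (by fun_prop)
  have c2 : Continuous (fun y : ℝ => χ (y, 0) * V (y, 0)) :=
    c1.mul (hV.continuous.comp (by fun_prop))
  have c3 : Continuous (fun y : ℝ => χ (y, 0) * Q (y, 0)) :=
    c1.mul (hQ.continuous.comp (by fun_prop))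
  have c4 : Continuous (fun y : ℝ => χ (y, 0) * H (y, 0)) :=
    c1.mul (hH.continuous.comp (by fun_prop))
  have br : ∀ x, |r0 x| ≤ B.rb := fun x => (h.box0 x).abs_r
  have j1 : Integrable (fun x => r0 x * te γ (r0 x) (u0 x) (p0 x) * χ (Y0 r0 x, 0)) :=
    h.integrable_lab (h.mr0.mul mte0) (C := B.rb * C) (fun x => by
      rw [Pi.mul_apply, abs_mul]
      exact mul_le_mul (br x) (hC _ _ _ (h.box0 x)).1 (abs_nonneg _) hrb.le) c1 hcX
  have j2 : Integrable (fun x => r0 x * u0 x * (χ (Y0 r0 x, 0) * V (Y0 r0 x, 0))) :=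
    h.integrable_lab (h.mr0.mul h.mu0) (C := B.rb * B.ub) (fun x => (h.box0 x).abs_ru) c2
      hcX.mul_right
  have j3 : Integrable (fun x => χ (Y0 r0 x, 0) * Q (Y0 r0 x, 0)) := by
    simpa using h.integrable_lab (A := fun _ => 1) measurable_const (C := 1) (by simp) c3
      hcX.mul_right
  have j4 : Integrable (fun x => r0 x * sp γ (r0 x) (p0 x) * (χ (Y0 r0 x, 0) * H (Y0 r0 x, 0))) :=
    h.integrable_lab (h.mr0.mul msp0) (C := B.rb * C) (fun x => by
      rw [Pi.mul_apply, abs_mul]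
      exact mul_le_mul (br x) (hC _ _ _ (h.box0 x)).2 (abs_nonneg _) hrb.le) c4 hcX.mul_right
  have j5 : Integrable (fun x => r0 x * (χ (Y0 r0 x, 0) * G (Y0 r0 x, 0))) :=
    h.integrable_lab h.mr0 br cX hcX.mul_right
  -- combination in the plane
  have P1 : (∫ w in up, (te γ (Rc w) (Uc w) (Pc w) * dt χ w + Pc w * Uc w * dx χ w))
      - (∫ w in up, (Uc w * dt (fun w => χ w * V w) w + Pc w * dx (fun w => χ w * V w) w))
      + (∫ w in up, (1 / Rc w * dt (fun w => χ w * Q w) w - Uc w * dx (fun w => χ w * Q w) w))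
      - (∫ w in up, sp γ (Rc w) (Pc w) * dt (fun w => χ w * H w) w)
      - (∫ w in up, dt (fun w => χ w * G w) w) + (∫ w in up, dx (fun w => χ w * (Q w * V w)) w)
      = ∫ w in up, (relE γ (Rc w) (Uc w) (Pc w) (V w) (Q w) (H w) * dt χ w
      + (Pc w - Q w) * (Uc w - V w) * dx χ w
      + χ w * (- ((Uc w - V w) * (dt V w + dx Q w))
        + (1 / Rc w - (γ - 1) * H w / Q w) * dt Q w
        - (sp γ (Rc w) (Pc w) - Sb γ (Q w) (H w)) * dt H w - (Pc w - Q w) * dx V w)) := by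
    rw [comb6 i1.integrableOn i2.integrableOn i3.integrableOn i4.integrableOn i5.integrableOn
      i6.integrableOn]
    refine setIntegral_congr_fun measurableSet_up fun w _ => ?_
    have eG : dt G w = - (V w * dt V w) - dt H w * Sb γ (Q w) (H w)
        + ((γ - 1) * H w / Q w) * dt Q w := by
      rw [hG]; exact fderiv_G hV hQ hH Q0 H0 w
    rw [dt_mul hχ.smooth hV, dx_mul hχ.smooth hV, dt_mul hχ.smooth hQ, dx_mul hχ.smooth hQ,
      dt_mul hχ.smooth hH, dt_mul hχ.smooth cG, dx_mul hχ.smooth (hQ.mul hV), dx_mul hQ hV, eG]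
    have eG' : G w = Gf γ (V w) (Q w) (H w) := by rw [hG]
    rw [eG', relE]
    ring
  have P2 : (∫ x, r0 x * te γ (r0 x) (u0 x) (p0 x) * χ (Y0 r0 x, 0))
      - (∫ x, r0 x * u0 x * (χ (Y0 r0 x, 0) * V (Y0 r0 x, 0)))
      + (∫ x, χ (Y0 r0 x, 0) * Q (Y0 r0 x, 0))
      - (∫ x, r0 x * sp γ (r0 x) (p0 x) * (χ (Y0 r0 x, 0) * H (Y0 r0 x, 0)))
      - (∫ x, r0 x * (χ (Y0 r0 x, 0) * G (Y0 r0 x, 0)))
      = ∫ x, r0 x * relE γ (r0 x) (u0 x) (p0 x) (V (Y0 r0 x, 0)) (Q (Y0 r0 x, 0))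
        (H (Y0 r0 x, 0)) * χ (Y0 r0 x, 0) := by
    have k := comb6 j1 j2 j3 j4 j5 (integrable_zero ℝ ℝ volume)
    simp only [Pi.zero_apply, integral_zero, add_zero] at k
    rw [k]
    refine integral_congr_ae (Filter.Eventually.of_forall fun x => ?_)
    simp only []
    have eG' : G (Y0 r0 x, 0) = Gf γ (V (Y0 r0 x, 0)) (Q (Y0 r0 x, 0)) (H (Y0 r0 x, 0)) := by
      rw [hG]
    have := (h.box0 x).r_pos.ne'
    rw [eG', relE]
    field_simp
  rw [← P1, ← P2]
  linarith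

end

end Pool.Agent.helper23_Euler
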