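import Mathlib
import Pool.Agent.helper23_Euler.CmpS

open MeasureTheory Set Filter Topology
open scoped ContDiff Convolution ENNReal NNReal

namespace Pool.Agent.helper23_Euler

noncomputable section

variable {γ T T₁ : ℝ} {B : Bds} {r0 u0 p0 R0 V0 Q0 : ℝ → ℝ}
  {Rc Uc Pc R V Q H χ m g : ℝ × ℝ → ℝ}

/-- initial traces of the reference solution in label coordinates -/
structure Tr (γ : ℝ) (B : Bds) (R V Q : ℝ × ℝ → ℝ) (R0 V0 Q0 : ℝ → ℝ) : Prop where
  mR0 : Measurable R0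
  mV0 : Measurable V0
  mQ0 : Measurable Q0
  box0 : ∀ y, B.In (R0 y) (V0 y) (Q0 y)
  tV : ∀ ρ : ℝ, Tendsto (fun n => ∫ y in Icc (-ρ) ρ, |smol n V (y, 0) - V0 y|) atTop (𝓝 0)
  tQ : ∀ ρ : ℝ, Tendsto (fun n => ∫ y in Icc (-ρ) ρ, |smol n Q (y, 0) - Q0 y|) atTop (𝓝 0)
  tH : ∀ ρ : ℝ, Tendsto (fun n => ∫ y in Icc (-ρ) ρ,
    |smol n (fun w => en γ (R w) (Q w)) (y, 0) - en γ (R0 y) (Q0 y)|) atTop (𝓝 0)

lemma smol_neg (n : ℕ) (f : ℝ × ℝ → ℝ) (z : ℝ × ℝ) : smol n (fun w => - f w) z = - smol n f z := by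
  rw [smol_apply, smol_apply, ← integral_neg]
  congr 1
  ext w
  ring

lemma Sb_eq (hγ : 1 < γ) {r p : ℝ} (hr : 0 < r) (hp : 0 < p) :
    Sb γ p (en γ r p) = sp γ r p := by
  have hγ' : 0 < γ - 1 := by linarith
  unfold Sb sp en
  rw [Real.log_div hp.ne' (by positivity), Real.log_mul hγ'.ne' hr.ne']
  ring

lemma comb5 {α : Type*} [MeasurableSpace α] {μ : Measure α} {f1 f2 f3 f4 f5 : α → ℝ}
    (h1 : Integrable f1 μ) (h2 : Integrable f2 μ) (h3 : Integrable f3 μ) (h4 : Integrable f4 μ)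
    (h5 : Integrable f5 μ) :
    (∫ x, f1 x ∂μ) + (∫ x, f2 x ∂μ) + (∫ x, f3 x ∂μ) + (∫ x, f4 x ∂μ) + (∫ x, f5 x ∂μ)
      = ∫ x, (f1 x + f2 x + f3 x + f4 x + f5 x) ∂μ := by
  have h12 : Integrable (fun x => f1 x + f2 x) μ := h1.add h2
  have h123 : Integrable (fun x => f1 x + f2 x + f3 x) μ := h12.add h3
  have h1234 : Integrable (fun x => f1 x + f2 x + f3 x + f4 x) μ := h123.add h4
  rw [integral_add h1234 h5, integral_add h123 h4, integral_add h12 h3, integral_add h1 h2]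

lemma eventually_strip {T' : ℝ} (hT : T' < T₁) : ∀ᶠ n in atTop, ∀ w ∈ up, w.2 < T' →
    Metric.closedBall (w + shf n) (bump n).rOut ⊆ strip T₁ := by
  have h1 : Tendsto (fun n => 3 * (bump n).rOut) atTop (𝓝 0) := by
    simpa using tendsto_bump.const_mul 3
  filter_upwards [h1.eventually (gt_mem_nhds (sub_pos.2 hT))] with n hn w hw hwT z hz
  have h2 : |(z - (w + shf n)).2| ≤ (bump n).rOut := by
    have := Metric.mem_closedBall.1 hz
    rw [dist_eq_norm] at this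
    exact (norm_snd_le _).trans this
  have h3 : (z - (w + shf n)).2 = z.2 - w.2 - 2 * (bump n).rOut := by
    simp [shf]
    ring
  rw [h3, abs_le] at h2
  have h4 := rOut_pos' n
  have hw' : 0 < w.2 := hw
  constructor
  · show 0 < z.2
    linarith [h2.1]
  · show z.2 < T₁
    linarith [h2.2]

set_option maxHeartbeats 1000000 in
/-- the comparison inequality -/
theorem Cpt.compare (hγ : 1 < γ) (h : Cpt γ T₁ B Rc Uc Pc r0 u0 p0) (hR : Ref γ T₁ B R V Q m g)
    (hT : Tr γ B R V Q R0 V0 Q0) {T' : ℝ} (hT' : T' < T₁) (hχ : IsTest T' χ)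
    (hχ0 : ∀ w, 0 ≤ χ w) :
    0 ≤ (∫ w in up, (relE γ (Rc w) (Uc w) (Pc w) (V w) (Q w) (en γ (R w) (Q w)) * dt χ w
      + (Pc w - Q w) * (Uc w - V w) * dx χ w
      - χ w * (Q w * (fl (Pc w / Q w) + γ * fl (R w / Rc w))) * m w))
      + ∫ x, r0 x * relE γ (r0 x) (u0 x) (p0 x) (V0 (Y0 r0 x)) (Q0 (Y0 r0 x))
        (en γ (R0 (Y0 r0 x)) (Q0 (Y0 r0 x))) * χ (Y0 r0 x, 0) := by
  have hγ' : 0 < γ - 1 := by linarith
  have hra := B.ra_pos
  have hrb := B.rb_pos
  have hub := B.ub_nonneg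
  have hpa := B.pa_pos
  have hpb : 0 < B.pb := lt_of_lt_of_le hpa B.pab
  obtain ⟨h1, hh1⟩ : ∃ h1, h1 = B.pa / ((γ - 1) * B.rb) := ⟨_, rfl⟩
  obtain ⟨h2, hh2⟩ : ∃ h2, h2 = B.pb / ((γ - 1) * B.ra) := ⟨_, rfl⟩
  have h1pos : 0 < h1 := by rw [hh1]; positivity
  obtain ⟨CL, hCL0, hCL⟩ := relE_lip hγ B (h2 := h2) h1pos
  obtain ⟨C, hC0, hC⟩ := exists_bd hγ B
  obtain ⟨H, hHdef⟩ : ∃ H : ℝ × ℝ → ℝ, H = fun w => en γ (R w) (Q w) := ⟨_, rfl⟩
  obtain ⟨k, hk⟩ : ∃ k : ℝ × ℝ → ℝ, k = fun w => -(γ * Q w * R w * m w) := ⟨_, rfl⟩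
  obtain ⟨e, he⟩ : ∃ e : ℝ × ℝ → ℝ, e = fun w => -(Q w * m w) := ⟨_, rfl⟩
  have mH : Measurable H := by
    rw [hHdef]; unfold en
    exact hR.mQ.div (hR.mR.const_mul _)
  have bH : ∀ w, h1 ≤ H w ∧ H w ≤ h2 := by
    intro w
    rw [hHdef, hh1, hh2]
    exact en_bds hγ (hR.box w)
  have bV : ∀ w, |V w| ≤ B.ub := fun w => (hR.box w).2.1
  have bQ : ∀ w, B.pa ≤ Q w ∧ Q w ≤ B.pb := fun w => (hR.box w).2.2
  have bQ' : ∀ w, |Q w| ≤ B.pb := fun w => by
    rw [abs_of_pos (hR.box w).p_pos]; exact (hR.box w).2.2.2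
  have bH' : ∀ w, |H w| ≤ h2 := fun w => by
    rw [abs_of_pos (lt_of_lt_of_le h1pos (bH w).1)]; exact (bH w).2
  have bR' : ∀ w, |R w| ≤ B.rb := fun w => (hR.box w).abs_r
  have lV : LocallyIntegrable V := locInt_bd hR.mV bV
  have lQ : LocallyIntegrable Q := locInt_bd hR.mQ bQ'
  have lH : LocallyIntegrable H := locInt_bd mH bH'
  have le : LocallyIntegrable e := by
    rw [he]; exact (locInt_mul hR.mQ bQ' hR.lm).neg
  have lk : LocallyIntegrable k := by
    rw [hk]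
    refine (locInt_mul (C := |γ| * B.pb * B.rb) ((hR.mQ.const_mul γ).mul hR.mR) ?_ hR.lm).neg
    intro w
    simp only [Pi.mul_apply]
    rw [abs_mul, abs_mul]
    have := bQ' w
    have := bR' w
    gcongr
  -- the smooth approximations
  have Vb : ∀ n w, |smol n V w| ≤ B.ub := fun n w => smol_abs n hR.mV bV w
  have Qb : ∀ n w, B.pa ≤ smol n Q w ∧ smol n Q w ≤ B.pb := fun n w => smol_bd n hR.mQ bQ w
  have Hb : ∀ n w, h1 ≤ smol n H w ∧ smol n H w ≤ h2 := fun n w => smol_bd n mH bH w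
  have Qpos : ∀ n w, 0 < smol n Q w := fun n w => lt_of_lt_of_le hpa (Qb n w).1
  have Hpos : ∀ n w, 0 < smol n H w := fun n w => lt_of_lt_of_le h1pos (Hb n w).1
  have sV : ∀ n, ContDiff ℝ ∞ (smol n V) := fun n => contDiff_smol n lV
  have sQ : ∀ n, ContDiff ℝ ∞ (smol n Q) := fun n => contDiff_smol n lQ
  have sH : ∀ n, ContDiff ℝ ∞ (smol n H) := fun n => contDiff_smol n lH
  have hχ1 : IsTest T₁ χ := hχ.mono hT'.le
  have hK : IsCompact (tsupport χ) := hχ.cpt
  obtain ⟨S, hS⟩ : ∃ S : Set (ℝ × ℝ), S = up ∩ tsupport χ := ⟨_, rfl⟩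
  have hSm : MeasurableSet S := by
    rw [hS]; exact measurableSet_up.inter (isClosed_tsupport χ).measurableSet
  have hSup : S ⊆ up := by rw [hS]; exact inter_subset_left
  have hSK : S ⊆ tsupport χ := by rw [hS]; exact inter_subset_right
  have toS : ∀ F : ℝ × ℝ → ℝ, (∀ w, w ∉ tsupport χ → F w = 0) →
      ∫ w in up, F w = ∫ w in S, F w := by
    intro F hF
    refine setIntegral_eq_of_subset_of_forall_sdiff_eq_zero measurableSet_up hSup ?_
    intro w hw
    refine hF w fun h' => hw.2 ?_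
    rw [hS]
    exact ⟨hw.1, h'⟩
  -- abbreviations for the coefficients
  obtain ⟨A1, hA1⟩ : ∃ A1 : ℕ → ℝ × ℝ → ℝ, A1 = fun n w =>
    relE γ (Rc w) (Uc w) (Pc w) (smol n V w) (smol n Q w) (smol n H w) := ⟨_, rfl⟩
  obtain ⟨A2, hA2⟩ : ∃ A2 : ℕ → ℝ × ℝ → ℝ, A2 = fun n w =>
    (Pc w - smol n Q w) * (Uc w - smol n V w) := ⟨_, rfl⟩
  obtain ⟨A3, hA3⟩ : ∃ A3 : ℕ → ℝ × ℝ → ℝ, A3 = fun n w =>
    χ w * (1 / Rc w - (γ - 1) * smol n H w / smol n Q w) := ⟨_, rfl⟩
  obtain ⟨A4, hA4⟩ : ∃ A4 : ℕ → ℝ × ℝ → ℝ, A4 = fun n w =>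
    -(χ w * (sp γ (Rc w) (Pc w) - Sb γ (smol n Q w) (smol n H w))) := ⟨_, rfl⟩
  obtain ⟨A5, hA5⟩ : ∃ A5 : ℕ → ℝ × ℝ → ℝ, A5 = fun n w =>
    -(χ w * (Pc w - smol n Q w)) := ⟨_, rfl⟩
  have mte : Measurable (fun w => te γ (Rc w) (Uc w) (Pc w)) := by
    unfold te en
    exact ((h.mU.pow_const 2).div_const 2).add (h.mP.div (h.mR.const_mul _))
  have msp : Measurable (fun w => sp γ (Rc w) (Pc w)) := by
    unfold sp
    exact (Real.measurable_log.comp h.mP).sub ((Real.measurable_log.comp h.mR).const_mul γ)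
  have mV : ∀ n, Measurable (smol n V) := fun n => (sV n).continuous.measurable
  have mQ : ∀ n, Measurable (smol n Q) := fun n => (sQ n).continuous.measurable
  have mHn : ∀ n, Measurable (smol n H) := fun n => (sH n).continuous.measurable
  have mχ : Measurable χ := hχ.continuous.measurable
  have mSb : ∀ n, Measurable (fun w => Sb γ (smol n Q w) (smol n H w)) := by
    intro n
    unfold Sb
    exact ((((Real.measurable_log.comp (mQ n)).const_mul (1 - γ)).add
      ((Real.measurable_log.comp (mHn n)).const_mul γ)).add_const _)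
  have mA1 : ∀ n, Measurable (A1 n) := by
    intro n
    rw [hA1]
    unfold relE Gf
    exact ((((mte.sub (h.mU.mul (mV n))).add ((h.mR.const_div 1).mul (mQ n))).sub
      (msp.mul (mHn n)))).sub ((((mHn n).const_mul γ).sub (((mV n).pow_const 2).div_const 2)).sub
        ((mHn n).mul (mSb n)))
  have mA2 : ∀ n, Measurable (A2 n) := by
    intro n
    rw [hA2]
    exact (h.mP.sub (mQ n)).mul (h.mU.sub (mV n))
  have mA3 : ∀ n, Measurable (A3 n) := by
    intro n
    rw [hA3]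
    exact mχ.mul ((h.mR.const_div 1).sub (((mHn n).const_mul _).div (mQ n)))
  have mA4 : ∀ n, Measurable (A4 n) := by
    intro n
    rw [hA4]
    exact (mχ.mul (msp.sub (mSb n))).neg
  have mA5 : ∀ n, Measurable (A5 n) := by
    intro n
    rw [hA5]
    exact (mχ.mul (h.mP.sub (mQ n))).neg
  obtain ⟨D, hD⟩ := hχ.cpt.exists_bound_of_continuous hχ.continuous
  have hD0 : 0 ≤ D := (norm_nonneg _).trans (hD 0)
  have hDa : ∀ w, |χ w| ≤ D := hD
  obtain ⟨CS, hCS0, hCS⟩ := exists_Sb_bound (γ := γ) (p2 := B.pb) (t2 := h2) hpa h1pos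
  have bP' : ∀ w, |Pc w| ≤ B.pb := fun w => by
    rw [abs_of_pos (h.box w).p_pos]; exact (h.box w).2.2.2
  obtain ⟨D1, hD1⟩ : ∃ D1, ∀ n w, |A1 n w| ≤ D1 := by
    refine ⟨C + B.ub * B.ub + (1 / B.ra) * B.pb + C * h2 + (γ * h2 + B.ub ^ 2 / 2
      + h2 * CS), fun n w => ?_⟩
    rw [hA1]
    exact relE_bound hγ hC hpa h1pos hub hCS (h.box w) (Vb n w) (Qb n w).1 (Qb n w).2 (Hb n w).1
      (Hb n w).2
  have hD2 : ∀ n w, |A2 n w| ≤ (B.pb + B.pb) * (B.ub + B.ub) := by
    intro n w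
    rw [hA2]
    simp only [abs_mul]
    have e1 : |Pc w - smol n Q w| ≤ B.pb + B.pb := by
      refine (abs_sub _ _).trans (add_le_add (bP' w) ?_)
      rw [abs_of_pos (Qpos n w)]; exact (Qb n w).2
    have e2 : |Uc w - smol n V w| ≤ B.ub + B.ub :=
      (abs_sub _ _).trans (add_le_add (h.box w).2.1 (Vb n w))
    exact mul_le_mul e1 e2 (abs_nonneg _) (by positivity)
  have hD3 : ∀ n w, |A3 n w| ≤ D * (1 / B.ra + (γ - 1) * h2 / B.pa) := by
    intro n w
    rw [hA3]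
    simp only [abs_mul]
    have hrc := (h.box w).r_pos
    have e1 : |1 / Rc w - (γ - 1) * smol n H w / smol n Q w| ≤
        1 / B.ra + (γ - 1) * h2 / B.pa := by
      refine (abs_sub _ _).trans (add_le_add ?_ ?_)
      · rw [abs_of_pos (by positivity)]
        exact one_div_le_one_div_of_le hra (h.box w).1.1
      · have := Qpos n w
        have := Hpos n w
        rw [abs_of_pos (by positivity)]
        have := (Qb n w).1
        have := (Hb n w).2
        have : 0 ≤ h2 := (abs_nonneg _).trans (bH' 0)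
        gcongr
    exact mul_le_mul (hDa w) e1 (abs_nonneg _) hD0
  have hD4 : ∀ n w, |A4 n w| ≤ D * (C + CS) := by
    intro n w
    rw [hA4]
    simp only [abs_neg, abs_mul]
    have e1 : |sp γ (Rc w) (Pc w) - Sb γ (smol n Q w) (smol n H w)| ≤ C + CS :=
      (abs_sub _ _).trans (add_le_add (hC _ _ _ (h.box w)).2
        (hCS _ _ (Qb n w).1 (Qb n w).2 (Hb n w).1 (Hb n w).2))
    exact mul_le_mul (hDa w) e1 (abs_nonneg _) hD0
  have hD5 : ∀ n w, |A5 n w| ≤ D * (B.pb + B.pb) := by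
    intro n w
    rw [hA5]
    simp only [abs_neg, abs_mul]
    have e1 : |Pc w - smol n Q w| ≤ B.pb + B.pb := by
      refine (abs_sub _ _).trans (add_le_add (bP' w) ?_)
      rw [abs_of_pos (Qpos n w)]; exact (Qb n w).2
    exact mul_le_mul (hDa w) e1 (abs_nonneg _) hD0
  -- integrability on S
  have idt : IntegrableOn (dt χ) S :=
    ((continuous_dt hχ.smooth).continuousOn.integrableOn_compact hK).mono_set hSK
  have idx : IntegrableOn (dx χ) S :=
    ((continuous_dx hχ.smooth).continuousOn.integrableOn_compact hK).mono_set hSK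
  have ism : ∀ {f : ℝ × ℝ → ℝ}, LocallyIntegrable f → ∀ n, IntegrableOn (smol n f) S :=
    fun hf n => ((contDiff_smol n hf).continuous.continuousOn.integrableOn_compact hK).mono_set hSK
  have iloc : ∀ {f : ℝ × ℝ → ℝ}, LocallyIntegrable f → IntegrableOn f S :=
    fun hf => (hf.integrableOn_isCompact hK).mono_set hSK
  have L1S : ∀ {f : ℝ × ℝ → ℝ}, LocallyIntegrable f →
      Tendsto (fun n => ∫ w in S, |smol n f w - f w|) atTop (𝓝 0) := by
    intro f hf
    refine squeeze_zero (fun n => integral_nonneg fun _ => abs_nonneg _) (fun n => ?_)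
      (tendsto_L1_smol hf hK)
    refine setIntegral_mono_set ?_ (Filter.Eventually.of_forall fun _ => abs_nonneg _)
      (LE.le.eventuallyLE hSK)
    exact (((contDiff_smol n hf).continuous.continuousOn.integrableOn_compact hK).sub
      (hf.integrableOn_isCompact hK)).abs
  have bdd : ∀ {A f : ℝ × ℝ → ℝ} {c : ℝ}, Measurable A → (∀ w, |A w| ≤ c) → IntegrableOn f S →
      IntegrableOn (fun w => A w * f w) S := fun hA hc hf =>
    Integrable.bdd_mul hf hA.aestronglyMeasurable (Filter.Eventually.of_forall fun w => hc w)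
  -- the inequality at level n
  have key : ∀ᶠ n in atTop, 0 ≤ ((∫ w in S, A1 n w * dt χ w) + (∫ w in S, A2 n w * dx χ w)
      + (∫ w in S, A3 n w * smol n k w) + (∫ w in S, A4 n w * smol n e w)
      + (∫ w in S, A5 n w * smol n m w))
      + ∫ x, r0 x * relE γ (r0 x) (u0 x) (p0 x) (smol n V (Y0 r0 x, 0)) (smol n Q (Y0 r0 x, 0))
        (smol n H (Y0 r0 x, 0)) * χ (Y0 r0 x, 0) := by
    filter_upwards [eventually_strip hT'] with n hn
    have q := h.smooth_ineq hγ (sV n) (sQ n) (sH n) (Qpos n) (Hpos n) hχ1 hχ0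
    rw [comb5 (bdd (mA1 n) (hD1 n) idt) (bdd (mA2 n) (hD2 n) idx) (bdd (mA3 n) (hD3 n) (ism lk n))
      (bdd (mA4 n) (hD4 n) (ism le n)) (bdd (mA5 n) (hD5 n) (ism hR.lm n))]
    rw [toS] at q
    · refine q.trans (le_of_eq ?_)
      congr 1
      refine setIntegral_congr_fun hSm fun w hw => ?_
      have hw1 : w ∈ up := hSup hw
      have hw2 : w.2 < T' := hχ.supp (hSK hw)
      have hb := hn w hw1 hw2
      have f1 : dt (smol n V) w = smol n (fun w => - g w) w := hR.Vt.fd lV hb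
      have f2 : dx (smol n V) w = smol n m w := hR.Vy.fd lV hb
      have f3 : dx (smol n Q) w = smol n g w := hR.Qy.fd lQ hb
      have f4 : dt (smol n Q) w = smol n k w := by
        rw [hk]; exact hR.Qt.fd lQ hb
      have f5 : dt (smol n H) w = smol n e w := by
        have := hR.Ht
        rw [← hHdef, ← he] at this
        exact this.fd lH hb
      rw [smol_neg] at f1
      rw [f1, f2, f3, f4, f5, hA1, hA2, hA3, hA4, hA5]
      ring
    · intro w hw
      rw [dt_eq_zero hw, dx_eq_zero hw, image_eq_zero_of_notMem_tsupport hw]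
      ring
  -- limits in the plane
  have aeV := ae_restrict_of_ae (s := S) (ae_tendsto_smol lV)
  have aeQ := ae_restrict_of_ae (s := S) (ae_tendsto_smol lQ)
  have aeH := ae_restrict_of_ae (s := S) (ae_tendsto_smol lH)
  have a1 : ∀ᵐ w ∂(volume.restrict S), Tendsto (fun n => A1 n w) atTop
      (𝓝 (relE γ (Rc w) (Uc w) (Pc w) (V w) (Q w) (H w))) := by
    filter_upwards [aeV, aeQ, aeH] with w q1 q2 q3
    rw [hA1]
    exact tendsto_relE (hR.box w).p_pos (lt_of_lt_of_le h1pos (bH w).1) q1 q2 q3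
  have n1 := fun n => (mA1 n).aestronglyMeasurable (μ := volume.restrict S)
  have l1 := lim_mul (b := fun _ => dt χ) n1 hD1 (fun _ => idt) idt a1 (by simp)
  have a2 : ∀ᵐ w ∂(volume.restrict S), Tendsto (fun n => A2 n w) atTop
      (𝓝 ((Pc w - Q w) * (Uc w - V w))) := by
    filter_upwards [aeV, aeQ] with w q1 q2
    rw [hA2]
    exact (q2.const_sub _).mul (q1.const_sub _)
  have n2 := fun n => (mA2 n).aestronglyMeasurable (μ := volume.restrict S)
  have l2 := lim_mul (b := fun _ => dx χ) n2 hD2 (fun _ => idx) idx a2 (by simp)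
  have a3 : ∀ᵐ w ∂(volume.restrict S), Tendsto (fun n => A3 n w) atTop
      (𝓝 (χ w * (1 / Rc w - (γ - 1) * H w / Q w))) := by
    filter_upwards [aeQ, aeH] with w q2 q3
    rw [hA3]
    exact (((q3.const_mul _).div q2 (hR.box w).p_pos.ne').const_sub _).const_mul _
  have n3 := fun n => (mA3 n).aestronglyMeasurable (μ := volume.restrict S)
  have l3 := lim_mul n3 hD3 (ism lk) (iloc lk) a3 (L1S lk)
  have a4 : ∀ᵐ w ∂(volume.restrict S), Tendsto (fun n => A4 n w) atTop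
      (𝓝 (-(χ w * (sp γ (Rc w) (Pc w) - Sb γ (Q w) (H w))))) := by
    filter_upwards [aeQ, aeH] with w q2 q3
    rw [hA4]
    have hl1 := q2.log (hR.box w).p_pos.ne'
    have hl2 := q3.log (lt_of_lt_of_le h1pos (bH w).1).ne'
    unfold Sb
    exact ((((((hl1.const_mul (1 - γ)).add (hl2.const_mul γ)).add_const _).const_sub
      _).const_mul _)).neg
  have n4 := fun n => (mA4 n).aestronglyMeasurable (μ := volume.restrict S)
  have l4 := lim_mul n4 hD4 (ism le) (iloc le) a4 (L1S le)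
  have a5 : ∀ᵐ w ∂(volume.restrict S), Tendsto (fun n => A5 n w) atTop
      (𝓝 (-(χ w * (Pc w - Q w)))) := by
    filter_upwards [aeQ] with w q2
    rw [hA5]
    exact ((q2.const_sub _).const_mul _).neg
  have n5 := fun n => (mA5 n).aestronglyMeasurable (μ := volume.restrict S)
  have l5 := lim_mul n5 hD5 (ism hR.lm) (iloc hR.lm) a5 (L1S hR.lm)
  -- limit at the initial time
  have l6 : Tendsto (fun n => ∫ x, r0 x * relE γ (r0 x) (u0 x) (p0 x) (smol n V (Y0 r0 x, 0))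
      (smol n Q (Y0 r0 x, 0)) (smol n H (Y0 r0 x, 0)) * χ (Y0 r0 x, 0)) atTop
      (𝓝 (∫ x, r0 x * relE γ (r0 x) (u0 x) (p0 x) (V0 (Y0 r0 x)) (Q0 (Y0 r0 x))
        (en γ (R0 (Y0 r0 x)) (Q0 (Y0 r0 x))) * χ (Y0 r0 x, 0))) := by
    obtain ⟨ρ, hρ⟩ := hK.isBounded.subset_closedBall 0
    have hout : ∀ y, y ∉ Icc (-ρ) ρ → χ (y, 0) = 0 := by
      intro y hy
      apply image_eq_zero_of_notMem_tsupport
      intro h'
      apply hy
      have q := hρ h'
      rw [mem_closedBall_zero_iff] at q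
      have q2 : |y| ≤ ρ := (norm_fst_le (y, (0 : ℝ))).trans q
      exact ⟨(abs_le.1 q2).1, (abs_le.1 q2).2⟩
    have mY : Measurable (Y0 r0) := h.mY.measurable
    have mY2 : Measurable (fun x => (Y0 r0 x, (0 : ℝ))) := mY.prodMk measurable_const
    have c1 : Continuous (fun y : ℝ => χ (y, 0)) := hχ.continuous.comp (by fun_prop)
    have hcX : HasCompactSupport (fun y : ℝ => χ (y, 0)) := HasCompactSupport.slice_x hχ.cpt 0
    have mte0 : Measurable (fun x => te γ (r0 x) (u0 x) (p0 x)) := by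
      unfold te en
      exact ((h.mu0.pow_const 2).div_const 2).add (h.mp0.div (h.mr0.const_mul _))
    have msp0 : Measurable (fun x => sp γ (r0 x) (p0 x)) := by
      unfold sp
      exact (Real.measurable_log.comp h.mp0).sub ((Real.measurable_log.comp h.mr0).const_mul γ)
    have mrel : ∀ {v q t : ℝ → ℝ}, Measurable v → Measurable q → Measurable t →
        Measurable (fun x => relE γ (r0 x) (u0 x) (p0 x) (v x) (q x) (t x)) := by
      intro v q t hv hq ht
      unfold relE Gf Sb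
      exact (((mte0.sub (h.mu0.mul hv)).add ((h.mr0.const_div 1).mul hq)).sub
        (msp0.mul ht)).sub (((ht.const_mul γ).sub ((hv.pow_const 2).div_const 2)).sub
          (ht.mul ((((Real.measurable_log.comp hq).const_mul (1 - γ)).add
            ((Real.measurable_log.comp ht).const_mul γ)).add_const _)))
    have mH0 : Measurable (fun y => en γ (R0 y) (Q0 y)) := by
      unfold en
      exact hT.mQ0.div (hT.mR0.const_mul _)
    have bH0 : ∀ y, h1 ≤ en γ (R0 y) (Q0 y) ∧ en γ (R0 y) (Q0 y) ≤ h2 := fun y => by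
      rw [hh1, hh2]; exact en_bds hγ (hT.box0 y)
    obtain ⟨D2, hD2'⟩ : ∃ D2, ∀ x v q t, |v| ≤ B.ub → B.pa ≤ q → q ≤ B.pb → h1 ≤ t → t ≤ h2 →
        |relE γ (r0 x) (u0 x) (p0 x) v q t| ≤ D2 := by
      refine ⟨C + B.ub * B.ub + (1 / B.ra) * B.pb + C * h2 + (γ * h2 + B.ub ^ 2 / 2
        + h2 * CS), fun x v q t q1 q2 q3 q4 q5 => ?_⟩
      exact relE_bound hγ hC hpa h1pos hub hCS (h.box0 x) q1 q2 q3 q4 q5
    have br : ∀ x, |r0 x| ≤ B.rb := fun x => (h.box0 x).abs_r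
    have in1 : ∀ n, Integrable (fun x => r0 x * relE γ (r0 x) (u0 x) (p0 x)
        (smol n V (Y0 r0 x, 0)) (smol n Q (Y0 r0 x, 0)) (smol n H (Y0 r0 x, 0))
          * χ (Y0 r0 x, 0)) := by
      intro n
      refine h.integrable_lab (h.mr0.mul (mrel ((mV n).comp mY2) ((mQ n).comp mY2)
        ((mHn n).comp mY2))) (C := B.rb * D2) (fun x => ?_) c1 hcX
      rw [Pi.mul_apply, abs_mul]
      exact mul_le_mul (br x) (hD2' x _ _ _ (Vb n _) (Qb n _).1 (Qb n _).2 (Hb n _).1 (Hb n _).2)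
        (abs_nonneg _) hrb.le
    have in2 : Integrable (fun x => r0 x * relE γ (r0 x) (u0 x) (p0 x) (V0 (Y0 r0 x))
        (Q0 (Y0 r0 x)) (en γ (R0 (Y0 r0 x)) (Q0 (Y0 r0 x))) * χ (Y0 r0 x, 0)) := by
      refine h.integrable_lab (h.mr0.mul (mrel (hT.mV0.comp mY) (hT.mQ0.comp mY)
        (mH0.comp mY))) (C := B.rb * D2) (fun x => ?_) c1 hcX
      rw [Pi.mul_apply, abs_mul]
      exact mul_le_mul (br x) (hD2' x _ _ _ (hT.box0 _).2.1 (hT.box0 _).2.2.1 (hT.box0 _).2.2.2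
        (bH0 _).1 (bH0 _).2) (abs_nonneg _) hrb.le
    rw [tendsto_iff_norm_sub_tendsto_zero]
    have hz : Tendsto (fun n => CL * D * ((∫ y in Icc (-ρ) ρ, |smol n V (y, 0) - V0 y|)
        + (∫ y in Icc (-ρ) ρ, |smol n Q (y, 0) - Q0 y|)
        + (∫ y in Icc (-ρ) ρ, |smol n H (y, 0) - en γ (R0 y) (Q0 y)|))) atTop (𝓝 0) := by
      have := ((hT.tV ρ).add (hT.tQ ρ)).add (hT.tH ρ)
      rw [← hHdef] at this
      simpa using this.const_mul (CL * D)
    refine squeeze_zero (fun n => norm_nonneg _) (fun n => ?_) hz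
    have cV : Continuous (fun y : ℝ => smol n V (y, 0)) := (sV n).continuous.comp (by fun_prop)
    have cQ : Continuous (fun y : ℝ => smol n Q (y, 0)) := (sQ n).continuous.comp (by fun_prop)
    have cH : Continuous (fun y : ℝ => smol n H (y, 0)) := (sH n).continuous.comp (by fun_prop)
    have iIcc : ∀ {f f0 : ℝ → ℝ} {c : ℝ}, Measurable f → Measurable f0 → (∀ y, |f y| ≤ c) →
        (∀ y, |f0 y| ≤ c) → IntegrableOn (fun y => |f y - f0 y|) (Icc (-ρ) ρ) := by
      intro f f0 c q1 q2 q3 q4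
      refine Measure.integrableOn_of_bounded (M := c + c) (by simp) ?_ ?_
      · exact ((q1.sub q2).norm).aestronglyMeasurable
      · refine Filter.Eventually.of_forall fun y => ?_
        rw [Real.norm_eq_abs, abs_abs]
        exact (abs_sub _ _).trans (add_le_add (q3 y) (q4 y))
    have j1 := iIcc cV.measurable hT.mV0 (c := B.ub) (fun y => Vb n _) (fun y => (hT.box0 y).2.1)
    have j2 := iIcc cQ.measurable hT.mQ0 (c := B.pb) (fun y => by
      rw [abs_of_pos (Qpos n _)]; exact (Qb n _).2) (fun y => by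
      rw [abs_of_pos (hT.box0 y).p_pos]; exact (hT.box0 y).2.2.2)
    have j3 := iIcc cH.measurable mH0 (c := h2) (fun y => by
      rw [abs_of_pos (Hpos n _)]; exact (Hb n _).2) (fun y => by
      rw [abs_of_pos (lt_of_lt_of_le h1pos (bH0 y).1)]; exact (bH0 y).2)
    obtain ⟨gn, hgn⟩ : ∃ gn : ℝ → ℝ, gn = (Icc (-ρ) ρ).indicator (fun y => CL * D *
        (|smol n V (y, 0) - V0 y| + |smol n Q (y, 0) - Q0 y|
          + |smol n H (y, 0) - en γ (R0 y) (Q0 y)|)) := ⟨_, rfl⟩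
    have ign : Integrable gn := by
      rw [hgn, integrable_indicator_iff measurableSet_Icc]
      exact ((j1.add j2).add j3).const_mul _
    have e1 : ∫ y, gn y = CL * D * ((∫ y in Icc (-ρ) ρ, |smol n V (y, 0) - V0 y|)
        + (∫ y in Icc (-ρ) ρ, |smol n Q (y, 0) - Q0 y|)
        + (∫ y in Icc (-ρ) ρ, |smol n H (y, 0) - en γ (R0 y) (Q0 y)|)) := by
      have j12 : IntegrableOn (fun y => |smol n V (y, 0) - V0 y| + |smol n Q (y, 0) - Q0 y|)
        (Icc (-ρ) ρ) := j1.add j2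
      rw [hgn, integral_indicator measurableSet_Icc, integral_const_mul, integral_add j12 j3,
        integral_add j1 j2]
    rw [← e1, ← integral_sub (in1 n) in2, ← h.change0 gn]
    refine (norm_integral_le_integral_norm _).trans (integral_mono ((in1 n).sub in2).norm
      (h.tr0 gn ign) fun x => ?_)
    simp only []
    have hr := (h.box0 x).r_pos
    have e2 : r0 x * relE γ (r0 x) (u0 x) (p0 x) (smol n V (Y0 r0 x, 0)) (smol n Q (Y0 r0 x, 0))
        (smol n H (Y0 r0 x, 0)) * χ (Y0 r0 x, 0) - r0 x * relE γ (r0 x) (u0 x) (p0 x)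
        (V0 (Y0 r0 x)) (Q0 (Y0 r0 x)) (en γ (R0 (Y0 r0 x)) (Q0 (Y0 r0 x))) * χ (Y0 r0 x, 0) =
        r0 x * ((relE γ (r0 x) (u0 x) (p0 x) (smol n V (Y0 r0 x, 0)) (smol n Q (Y0 r0 x, 0))
        (smol n H (Y0 r0 x, 0)) - relE γ (r0 x) (u0 x) (p0 x)
        (V0 (Y0 r0 x)) (Q0 (Y0 r0 x)) (en γ (R0 (Y0 r0 x)) (Q0 (Y0 r0 x)))) * χ (Y0 r0 x, 0)) := by
      ring
    rw [e2, Real.norm_eq_abs, abs_mul, abs_of_pos hr]
    refine mul_le_mul_of_nonneg_left ?_ hr.le
    by_cases hy : Y0 r0 x ∈ Icc (-ρ) ρ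
    · rw [hgn, indicator_of_mem hy, abs_mul]
      have e3 := hCL (r0 x) (u0 x) (p0 x) (smol n V (Y0 r0 x, 0)) (smol n Q (Y0 r0 x, 0))
        (smol n H (Y0 r0 x, 0)) (r0 x) (u0 x) (p0 x)
        (V0 (Y0 r0 x)) (Q0 (Y0 r0 x)) (en γ (R0 (Y0 r0 x)) (Q0 (Y0 r0 x))) (h.box0 x) (Vb n _)
        (Qb n _).1 (Qb n _).2 (Hb n _).1 (Hb n _).2 (h.box0 x) (hT.box0 _).2.1 (hT.box0 _).2.2.1
        (hT.box0 _).2.2.2 (bH0 _).1 (bH0 _).2
      simp only [sub_self, abs_zero, zero_add] at e3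
      refine (mul_le_mul e3 (hDa _) (abs_nonneg _) (by positivity)).trans (le_of_eq ?_)
      ring
    · rw [hgn, indicator_of_notMem hy, hout _ hy, mul_zero, abs_zero]
  have fin := (((((l1.add l2).add l3).add l4).add l5).add l6)
  have fin2 := ge_of_tendsto fin key
  rw [comb5] at fin2
  · rw [toS]
    · refine fin2.trans (le_of_eq ?_)
      congr 1
      refine setIntegral_congr_fun hSm fun w _ => ?_
      have b1 := (hR.box w).r_pos
      have b2 := (hR.box w).p_pos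
      have b3 := (h.box w).r_pos
      have b4 := (h.box w).p_pos
      simp only [hHdef, hk, he]
      rw [Sb_eq hγ b1 b2]
      have e1 : (γ - 1) * en γ (R w) (Q w) / Q w = 1 / R w := by
        unfold en; field_simp
      rw [e1]
      unfold fl sp
      rw [Real.log_div b4.ne' b2.ne', Real.log_div b1.ne' b3.ne']
      field_simp
      ring
    · intro w hw
      rw [dt_eq_zero hw, dx_eq_zero hw, image_eq_zero_of_notMem_tsupport hw]
      ring
  · exact lim_int n1 hD1 idt a1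
  · exact lim_int n2 hD2 idx a2
  · exact lim_int n3 hD3 (iloc lk) a3
  · exact lim_int n4 hD4 (iloc le) a4
  · exact lim_int n5 hD5 (iloc hR.lm) a5

end

end Pool.Agent.helper23_Euler
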