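import Mathlib
import Pool.Agent.helper23_Euler.Cmp
import Pool.Agent.helper23_Euler.Cone

open MeasureTheory Set Filter Topology
open scoped ContDiff Convolution ENNReal NNReal

namespace Pool.Agent.helper23_Euler

noncomputable section

/-- the time profile of the test function -/
def thp (t0 : ℝ) (n : ℕ) (t : ℝ) : ℝ := 1 - ∫ s in (t0 - 2)..t, (bump1 n).normed volume (t0 - s)

section thp

variable {t0 : ℝ} {n : ℕ}

lemma ker1_cont : Continuous (fun s : ℝ => (bump1 n).normed volume (t0 - s)) :=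
  ((bump1 n).continuous_normed (μ := volume)).comp (by fun_prop)

lemma ker1_nonneg (s : ℝ) : 0 ≤ (bump1 n).normed volume (t0 - s) := (bump1 n).nonneg_normed _

lemma ker1_zero {s : ℝ} (h : (bump1 n).rOut ≤ |t0 - s|) : (bump1 n).normed volume (t0 - s) = 0 := by
  have h1 : t0 - s ∉ Function.support ((bump1 n).normed (volume : Measure ℝ)) := by
    rw [(bump1 n).support_normed_eq, Metric.mem_ball, dist_zero_right, Real.norm_eq_abs, not_lt]
    exact h
  exact Function.notMem_support.1 h1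

lemma thp_hasDeriv (t : ℝ) :
    HasDerivAt (thp t0 n) (-((bump1 n).normed volume (t0 - t))) t := by
  unfold thp
  have := intervalIntegral.integral_hasDerivAt_right
    ((ker1_cont (t0 := t0) (n := n)).intervalIntegrable (t0 - 2) t)
    (ker1_cont.stronglyMeasurableAtFilter _ _) ker1_cont.continuousAt
  exact this.const_sub 1

lemma thp_smooth : ContDiff ℝ ∞ (thp t0 n) := by
  refine contDiff_of_hasDerivAt thp_hasDeriv ?_
  exact (((bump1 n).contDiff_normed (n := ⊤) (μ := volume)).comp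
    (contDiff_const.sub contDiff_id)).neg

lemma ker1_integral : ∫ s, (bump1 n).normed volume (t0 - s) = 1 := by
  rw [integral_sub_left_eq_self (fun w => (bump1 n).normed volume w) volume t0]
  exact (bump1 n).integral_normed

lemma ker1_integrable : Integrable (fun s : ℝ => (bump1 n).normed volume (t0 - s)) :=
  ((bump1 n).integrable_normed (μ := volume)).comp_sub_left t0

lemma thp_le_one {t : ℝ} (h : t0 - 2 ≤ t) : thp t0 n t ≤ 1 := by
  unfold thp
  have := intervalIntegral.integral_nonneg (f := fun s => (bump1 n).normed volume (t0 - s))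
    (μ := volume) h fun s _ => ker1_nonneg s
  linarith

lemma thp_one {t : ℝ} (h : t ≤ t0 - 1) : thp t0 n t = 1 := by
  unfold thp
  have h1 := bump1_le_one n
  have : ∫ s in (t0 - 2)..t, (bump1 n).normed volume (t0 - s) = ∫ s in (t0 - 2)..t, (0 : ℝ) := by
    refine intervalIntegral.integral_congr fun s hs => ?_
    apply ker1_zero
    have h2 : s ≤ t0 - 1 := by
      have := hs.2
      exact this.trans (max_le (by linarith) h)
    rw [abs_of_nonneg (by linarith)]
    linarith
  rw [this]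
  simp

lemma thp_zero {t : ℝ} (h : t0 + (bump1 n).rOut ≤ t) : thp t0 n t = 0 := by
  unfold thp
  have h1 := bump1_le_one n
  have h2 := (bump1 n).rOut_pos
  have : ∫ s in (t0 - 2)..t, (bump1 n).normed volume (t0 - s) = 1 := by
    rw [intervalIntegral.integral_of_le (by linarith),
      setIntegral_eq_integral_of_forall_compl_eq_zero]
    · exact ker1_integral
    · intro s hs
      apply ker1_zero
      rw [mem_Ioc, not_and_or, not_lt, not_le] at hs
      rcases hs with hs | hs
      · rw [abs_of_nonneg (by linarith)]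
        linarith
      · rw [abs_of_nonpos (by linarith)]
        linarith
  rw [this, sub_self]

lemma thp_nonneg (t : ℝ) : 0 ≤ thp t0 n t := by
  rcases le_total t (t0 - 1) with h | h
  · rw [thp_one h]; exact zero_le_one
  · unfold thp
    have : ∫ s in (t0 - 2)..t, (bump1 n).normed volume (t0 - s) ≤ 1 := by
      rw [intervalIntegral.integral_of_le (by linarith), ← ker1_integral (t0 := t0) (n := n)]
      exact setIntegral_le_integral ker1_integrable (Filter.Eventually.of_forall ker1_nonneg)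
    linarith

lemma thp_le_one' (t : ℝ) : thp t0 n t ≤ 1 := by
  rcases le_total t (t0 - 1) with h | h
  · rw [thp_one h]
  · exact thp_le_one (by linarith)

end thp

/-- the test function -/
def tcone (K L a b t0 : ℝ) (n : ℕ) (z : ℝ × ℝ) : ℝ :=
  cone L a b 1 z * (Real.exp (-(K * z.2)) * thp t0 n z.2)

section tcone

variable {K L a b t0 T' : ℝ} {n : ℕ}

lemma f_hasDeriv (t : ℝ) : HasDerivAt (fun t => Real.exp (-(K * t)) * thp t0 n t)
    (-(K * (Real.exp (-(K * t)) * thp t0 n t)) -
      Real.exp (-(K * t)) * (bump1 n).normed volume (t0 - t)) t := by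
  have h1 : HasDerivAt (fun t : ℝ => Real.exp (-(K * t))) (Real.exp (-(K * t)) * (-K)) t := by
    have : HasDerivAt (fun t : ℝ => -(K * t)) (-K) t := by
      have h0 := (hasDerivAt_id' t).const_mul (-K)
      simpa [neg_mul] using h0
    exact this.exp
  convert! h1.mul (thp_hasDeriv (t0 := t0) (n := n) t) using 1
  ring

lemma f_smooth : ContDiff ℝ ∞ (fun t => Real.exp (-(K * t)) * thp t0 n t) :=
  ((contDiff_const.mul contDiff_id).neg.exp).mul thp_smooth

lemma tcone_smooth : ContDiff ℝ ∞ (tcone K L a b t0 n) := by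
  unfold tcone
  exact cone_smooth.mul (f_smooth.comp contDiff_snd)

lemma dt_f (z : ℝ × ℝ) : dt (fun z : ℝ × ℝ => Real.exp (-(K * z.2)) * thp t0 n z.2) z =
    -(K * (Real.exp (-(K * z.2)) * thp t0 n z.2)) -
      Real.exp (-(K * z.2)) * (bump1 n).normed volume (t0 - z.2) := by
  have h : HasFDerivAt (fun z : ℝ × ℝ => Real.exp (-(K * z.2)) * thp t0 n z.2) _ z :=
    (f_hasDeriv (K := K) (t0 := t0) (n := n) z.2).comp_hasFDerivAt z
      (hasFDerivAt_snd (𝕜 := ℝ) (p := z))
  rw [dt, h.fderiv]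
  simp

lemma dx_f (z : ℝ × ℝ) : dx (fun z : ℝ × ℝ => Real.exp (-(K * z.2)) * thp t0 n z.2) z = 0 := by
  have h : HasFDerivAt (fun z : ℝ × ℝ => Real.exp (-(K * z.2)) * thp t0 n z.2) _ z :=
    (f_hasDeriv (K := K) (t0 := t0) (n := n) z.2).comp_hasFDerivAt z
      (hasFDerivAt_snd (𝕜 := ℝ) (p := z))
  rw [dx, h.fderiv]
  simp

lemma tcone_nonneg (z : ℝ × ℝ) : 0 ≤ tcone K L a b t0 n z :=
  mul_nonneg (cone_nonneg z) (mul_nonneg (Real.exp_pos _).le (thp_nonneg _))

lemma cone_cpt (hab : a < b) (hL : 0 < L) : HasCompactSupport (cone L a b 1) := by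
  refine (isTest_cone one_pos hab hL (T' := (|b| + 1) / L) ?_).cpt
  have : L * ((|b| + 1) / L) = |b| + 1 := by field_simp
  rw [this]
  linarith [le_abs_self b]

lemma isTest_tcone (hab : a < b) (hL : 0 < L) (ht : t0 + (bump1 n).rOut < T') :
    IsTest T' (tcone K L a b t0 n) where
  smooth := tcone_smooth
  cpt := (cone_cpt hab hL).mul_right
  supp := by
    have : tsupport (tcone K L a b t0 n) ⊆ {z | z.2 ≤ t0 + (bump1 n).rOut} := by
      refine closure_minimal ?_ (isClosed_le continuous_snd continuous_const)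
      intro z hz
      by_contra h'
      apply hz
      unfold tcone
      rw [thp_zero (not_le.1 h').le, mul_zero, mul_zero]
    intro z hz
    exact lt_of_le_of_lt (this hz) ht

lemma tcone_ineq (hab : a < b) (hL : 0 < L) {z : ℝ × ℝ} (hz : 0 < z.2) :
    dt (tcone K L a b t0 n) z + L * |dx (tcone K L a b t0 n) z| + K * tcone K L a b t0 n z ≤
      -(Real.exp (-(K * z.2)) * cone L a b 1 z * (bump1 n).normed volume (t0 - z.2)) := by
  have hf : ContDiff ℝ ∞ (fun z : ℝ × ℝ => Real.exp (-(K * z.2)) * thp t0 n z.2) :=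
    f_smooth.comp contDiff_snd
  have e1 : dt (tcone K L a b t0 n) z = cone L a b 1 z *
      (-(K * (Real.exp (-(K * z.2)) * thp t0 n z.2)) -
        Real.exp (-(K * z.2)) * (bump1 n).normed volume (t0 - z.2))
      + (Real.exp (-(K * z.2)) * thp t0 n z.2) * dt (cone L a b 1) z := by
    rw [← dt_f z]
    exact dt_mul cone_smooth hf z
  have e2 : dx (tcone K L a b t0 n) z =
      (Real.exp (-(K * z.2)) * thp t0 n z.2) * dx (cone L a b 1) z := by
    have : dx (tcone K L a b t0 n) z = _ := dx_mul cone_smooth hf z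
    rw [this, dx_f z]
    ring
  have hc := (cone_deriv (L := L) (a := a) (b := b) (ν := 1) one_pos hab hz).resolve_right
    (not_lt.2 hL.le)
  have hf0 : 0 ≤ Real.exp (-(K * z.2)) * thp t0 n z.2 :=
    mul_nonneg (Real.exp_pos _).le (thp_nonneg _)
  rw [e1, e2, abs_mul, abs_of_nonneg hf0, tcone]
  have := mul_le_mul_of_nonneg_left hc hf0
  rw [mul_zero] at this
  nlinarith

end tcone

variable {γ T T₁ : ℝ} {B : Bds} {r0 u0 p0 R0 V0 Q0 : ℝ → ℝ}
  {Rc Uc Pc R V Q H χ m g : ℝ × ℝ → ℝ}

/-- relative energy between the two solutions in label coordinates -/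
def EE (γ : ℝ) (Rc Uc Pc R V Q : ℝ × ℝ → ℝ) (w : ℝ × ℝ) : ℝ :=
  relE γ (Rc w) (Uc w) (Pc w) (V w) (Q w) (en γ (R w) (Q w))

/-- relative energy between the data -/
def E00 (γ : ℝ) (r0 u0 p0 R0 V0 Q0 : ℝ → ℝ) (x : ℝ) : ℝ :=
  relE γ (r0 x) (u0 x) (p0 x) (V0 (Y0 r0 x)) (Q0 (Y0 r0 x)) (en γ (R0 (Y0 r0 x)) (Q0 (Y0 r0 x)))

/-- constants of the coercivity lemma -/
def Coer (γ : ℝ) (B : Bds) (C : ℝ) : Prop := 0 < C ∧ ∀ r u p R V Q,
    B.In r u p → B.In R V Q →
      (r - R) ^ 2 ≤ C * relE γ r u p V Q (en γ R Q) ∧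
      (u - V) ^ 2 ≤ C * relE γ r u p V Q (en γ R Q) ∧
      (p - Q) ^ 2 ≤ C * relE γ r u p V Q (en γ R Q) ∧
      Q * (fl (p / Q) + γ * fl (R / r)) ≤ C * relE γ r u p V Q (en γ R Q) ∧
      |(p - Q) * (u - V)| ≤ C * relE γ r u p V Q (en γ R Q) ∧
      0 ≤ relE γ r u p V Q (en γ R Q)

lemma measurable_relE {α : Type*} [MeasurableSpace α] {r u p R V Q : α → ℝ} (h1 : Measurable r)
    (h2 : Measurable u) (h3 : Measurable p) (h4 : Measurable R) (h5 : Measurable V)
    (h6 : Measurable Q) :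
    Measurable (fun x => relE γ (r x) (u x) (p x) (V x) (Q x) (en γ (R x) (Q x))) := by
  unfold relE Gf Sb te sp en
  fun_prop

lemma measurable_EE (hC : Cpt γ T₁ B Rc Uc Pc r0 u0 p0) (hR : Ref γ T₁ B R V Q m g) :
    Measurable (EE γ Rc Uc Pc R V Q) :=
  measurable_relE hC.mR hC.mU hC.mP hR.mR hR.mV hR.mQ

lemma exists_EE_bound (hγ : 1 < γ) (B : Bds) : ∃ D, 0 ≤ D ∧ ∀ r u p R V Q, B.In r u p →
    B.In R V Q → |relE γ r u p V Q (en γ R Q)| ≤ D := by
  have hγ' : 0 < γ - 1 := by linarith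
  have hra := B.ra_pos
  have hrb := B.rb_pos
  have hub := B.ub_nonneg
  have hpa := B.pa_pos
  have h1pos : 0 < B.pa / ((γ - 1) * B.rb) := by positivity
  obtain ⟨C, hC0, hC⟩ := exists_bd hγ B
  obtain ⟨CS, hCS0, hCS⟩ := exists_Sb_bound (γ := γ) (p2 := B.pb)
    (t2 := B.pb / ((γ - 1) * B.ra)) hpa h1pos
  obtain ⟨D, hD⟩ : ∃ D, ∀ r u p R V Q, B.In r u p →
      B.In R V Q → |relE γ r u p V Q (en γ R Q)| ≤ D := by
    refine ⟨C + B.ub * B.ub + (1 / B.ra) * B.pb + C * (B.pb / ((γ - 1) * B.ra)) +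
      (γ * (B.pb / ((γ - 1) * B.ra)) + B.ub ^ 2 / 2 + (B.pb / ((γ - 1) * B.ra)) * CS), ?_⟩
    intro r u p R V Q h1 h2
    have h3 := en_bds hγ h2
    exact relE_bound hγ hC hpa h1pos hub hCS h1 h2.2.1 h2.2.2.1 h2.2.2.2 h3.1 h3.2
  refine ⟨|D|, abs_nonneg _, fun r u p R V Q h1 h2 => (hD r u p R V Q h1 h2).trans (le_abs_self _)⟩

lemma cone_slice (L a b : ℝ) (y : ℝ) : cone L a b 1 (y, 0) = stp a b (phs L (y, 0)) :=
  cone_of_nonneg one_pos le_rfl

lemma measurable_E00 (h : Cpt γ T₁ B Rc Uc Pc r0 u0 p0) (hT : Tr γ B R V Q R0 V0 Q0) :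
    Measurable (E00 γ r0 u0 p0 R0 V0 Q0) := by
  have mY : Measurable (Y0 r0) := h.mY.measurable
  exact measurable_relE h.mr0 h.mu0 h.mp0 (hT.mR0.comp mY) (hT.mV0.comp mY) (hT.mQ0.comp mY)

theorem Cpt.gron (hγ : 1 < γ) {C C0 : ℝ} (hCo : Coer γ B C) (hC0 : 0 ≤ C0)
    (h : Cpt γ T₁ B Rc Uc Pc r0 u0 p0) (hR : Ref γ T₁ B R V Q m g)
    (hT : Tr γ B R V Q R0 V0 Q0) (hm : ∀ᵐ w, - C0 ≤ m w) {a b : ℝ} (hab : a < b) {T' : ℝ}
    (hT' : T' < T₁) : ∀ᵐ t : ℝ, 0 < t → t < T' →
      Real.exp (-(C * C0 * t)) * ∫ y, EE γ Rc Uc Pc R V Q (y, t) * stp a b (phs C (y, t)) ≤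
      ∫ x, r0 x * E00 γ r0 u0 p0 R0 V0 Q0 x * stp a b (phs C (Y0 r0 x, 0)) := by
  obtain ⟨hCp, hCo⟩ := hCo
  obtain ⟨K, hK⟩ : ∃ K, K = C * C0 := ⟨_, rfl⟩
  have hK0 : 0 ≤ K := by rw [hK]; positivity
  rw [← hK]
  obtain ⟨D, hD0, hD⟩ := exists_EE_bound hγ B
  have mE := measurable_EE h hR
  have Enn : ∀ w, 0 ≤ EE γ Rc Uc Pc R V Q w := fun w =>
    (hCo _ _ _ _ _ _ (h.box w) (hR.box w)).2.2.2.2.2
  have Ebd : ∀ w, |EE γ Rc Uc Pc R V Q w| ≤ D := fun w => hD _ _ _ _ _ _ (h.box w) (hR.box w)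
  have hcc := cone_cpt (L := C) hab hCp
  -- the integrable function
  obtain ⟨F0, hF0⟩ : ∃ F0 : ℝ × ℝ → ℝ, F0 = up.indicator (fun z =>
    EE γ Rc Uc Pc R V Q z * (Real.exp (-(K * z.2)) * cone C a b 1 z)) := ⟨_, rfl⟩
  have cEC : Continuous (fun z : ℝ × ℝ => Real.exp (-(K * z.2)) * cone C a b 1 z) :=
    (by fun_prop : Continuous (fun z : ℝ × ℝ => Real.exp (-(K * z.2)))).mul
      (cone_smooth (L := C) (a := a) (b := b) (ν := 1)).continuous
  have iF1 : Integrable (fun z => EE γ Rc Uc Pc R V Q z *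
      (Real.exp (-(K * z.2)) * cone C a b 1 z)) := by
    have i1 : Integrable (fun z : ℝ × ℝ => Real.exp (-(K * z.2)) * cone C a b 1 z) :=
      cEC.integrable_of_hasCompactSupport hcc.mul_left
    exact i1.bdd_mul (c := D) mE.aestronglyMeasurable (Filter.Eventually.of_forall fun w => Ebd w)
  have iF0 : Integrable F0 := by rw [hF0]; exact iF1.indicator measurableSet_up
  obtain ⟨hh, hhh⟩ : ∃ hh : ℝ → ℝ, hh = fun t => ∫ y, F0 (y, t) := ⟨_, rfl⟩
  have ihh : Integrable hh := by
    rw [hhh]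
    have : Integrable F0 (volume.prod volume) := by
      rw [← Measure.volume_eq_prod]; exact iF0
    exact this.integral_prod_right
  obtain ⟨I0, hI0⟩ : ∃ I0, I0 = ∫ x, r0 x * E00 γ r0 u0 p0 R0 V0 Q0 x *
    stp a b (phs C (Y0 r0 x, 0)) := ⟨_, rfl⟩
  rw [← hI0]
  -- the key estimate
  have key : ∀ t0 : ℝ, 0 < t0 → ∀ n : ℕ, t0 + (bump1 n).rOut < T' → mol1 n hh t0 ≤ I0 := by
    intro t0 ht0 n hn
    have hχ := isTest_tcone (K := K) hab hCp hn
    have q := h.compare hγ hR hT hT' hχ tcone_nonneg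
    -- rewrite the mollification
    have e1 : mol1 n hh t0 = ∫ z in up, EE γ Rc Uc Pc R V Q z *
        (Real.exp (-(K * z.2)) * cone C a b 1 z * (bump1 n).normed volume (t0 - z.2)) := by
      have i2 : Integrable (fun z : ℝ × ℝ => (bump1 n).normed volume (t0 - z.2) * F0 z) := by
        obtain ⟨c, hc⟩ := ((bump1 n).hasCompactSupport_normed
          (μ := (volume : Measure ℝ))).exists_bound_of_continuous ((bump1 n).continuous_normed)
        refine iF0.bdd_mul (c := c) ?_ (Filter.Eventually.of_forall fun z => hc _)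
        exact ((ker1_cont (t0 := t0) (n := n)).comp continuous_snd).aestronglyMeasurable
      have e2 : ∫ z, (bump1 n).normed volume (t0 - z.2) * F0 z = mol1 n hh t0 := by
        rw [mol1_apply, Measure.volume_eq_prod, integral_prod_symm]
        · refine integral_congr_ae (Filter.Eventually.of_forall fun s => ?_)
          simp only [hhh]
          rw [integral_const_mul]
        · rw [← Measure.volume_eq_prod]; exact i2
      rw [← e2, ← integral_indicator measurableSet_up]
      refine integral_congr_ae (Filter.Eventually.of_forall fun z => ?_)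
      simp only [hF0]
      by_cases hz : z ∈ up
      · rw [indicator_of_mem hz, indicator_of_mem hz]
        ring
      · rw [indicator_of_notMem hz, indicator_of_notMem hz, mul_zero]
    -- pointwise bound
    have e3 : (∫ w in up, (relE γ (Rc w) (Uc w) (Pc w) (V w) (Q w) (en γ (R w) (Q w)) *
        dt (tcone K C a b t0 n) w
      + (Pc w - Q w) * (Uc w - V w) * dx (tcone K C a b t0 n) w
      - tcone K C a b t0 n w * (Q w * (fl (Pc w / Q w) + γ * fl (R w / Rc w))) * m w)) ≤
      - ∫ z in up, EE γ Rc Uc Pc R V Q z *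
        (Real.exp (-(K * z.2)) * cone C a b 1 z * (bump1 n).normed volume (t0 - z.2)) := by
      rw [← integral_neg]
      have hub := B.ub_nonneg
      have hpb : 0 ≤ B.pb := le_trans B.pa_pos.le B.pab
      have mZ : Measurable (fun w => Q w * (fl (Pc w / Q w) + γ * fl (R w / Rc w))) := by
        unfold fl
        have h1 := h.mR; have h2 := h.mU; have h3 := h.mP
        have h4 := hR.mR; have h5 := hR.mV; have h6 := hR.mQ
        fun_prop
      have j1 : Integrable (fun w => EE γ Rc Uc Pc R V Q w * dt (tcone K C a b t0 n) w) :=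
        integrable_mul_dt mE Ebd hχ.smooth hχ.cpt
      have bF : ∀ w, |(Pc w - Q w) * (Uc w - V w)| ≤ C * D := fun w =>
        (hCo _ _ _ _ _ _ (h.box w) (hR.box w)).2.2.2.2.1.trans
          (mul_le_mul_of_nonneg_left ((le_abs_self _).trans (Ebd w)) hCp.le)
      have j2 : Integrable (fun w => (Pc w - Q w) * (Uc w - V w) * dx (tcone K C a b t0 n) w) :=
        integrable_mul_dx ((h.mP.sub hR.mQ).mul (h.mU.sub hR.mV)) bF hχ.smooth hχ.cpt
      have nZ : ∀ w, 0 ≤ Q w * (fl (Pc w / Q w) + γ * fl (R w / Rc w)) := by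
        intro w
        have b1 := (hR.box w).r_pos
        have b2 := (hR.box w).p_pos
        have b3 := (h.box w).r_pos
        have b4 := (h.box w).p_pos
        have f1 := fl_nonneg (div_pos b4 b2)
        have f2 := fl_nonneg (div_pos b1 b3)
        have : 0 ≤ γ := by linarith
        positivity
      have bZ : ∀ w, |Q w * (fl (Pc w / Q w) + γ * fl (R w / Rc w))| ≤ C * D := fun w => by
        rw [abs_of_nonneg (nZ w)]
        exact (hCo _ _ _ _ _ _ (h.box w) (hR.box w)).2.2.2.1.trans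
          (mul_le_mul_of_nonneg_left ((le_abs_self _).trans (Ebd w)) hCp.le)
      have j3 : Integrable (fun w => tcone K C a b t0 n w *
          (Q w * (fl (Pc w / Q w) + γ * fl (R w / Rc w))) * m w) := by
        have := int_f_phi (locInt_mul mZ bZ hR.lm) hχ.smooth hχ.cpt
        refine this.congr (Filter.Eventually.of_forall fun w => ?_)
        simp only []
        ring
      have j4 : Integrable (fun z => EE γ Rc Uc Pc R V Q z *
          (Real.exp (-(K * z.2)) * cone C a b 1 z * (bump1 n).normed volume (t0 - z.2))) := by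
        have i1 : Integrable (fun z : ℝ × ℝ => Real.exp (-(K * z.2)) * cone C a b 1 z *
            (bump1 n).normed volume (t0 - z.2)) :=
          (cEC.mul ((ker1_cont (t0 := t0) (n := n)).comp
            continuous_snd)).integrable_of_hasCompactSupport (hcc.mul_left).mul_right
        exact i1.bdd_mul (c := D) mE.aestronglyMeasurable
          (Filter.Eventually.of_forall fun w => Ebd w)
      refine integral_mono_ae ((j1.add j2).sub j3).integrableOn j4.neg.integrableOn ?_
      rw [Filter.EventuallyLE, ae_restrict_iff' measurableSet_up]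
      filter_upwards [hm] with w hmw hw
      have hw' : 0 < w.2 := hw
      have c1 := hCo _ _ _ _ _ _ (h.box w) (hR.box w)
      have c2 := tcone_ineq (K := K) (t0 := t0) (n := n) hab hCp hw'
      have c3 := tcone_nonneg (K := K) (L := C) (a := a) (b := b) (t0 := t0) (n := n) w
      have c4 := nZ w
      have c5 := Enn w
      have E1 : relE γ (Rc w) (Uc w) (Pc w) (V w) (Q w) (en γ (R w) (Q w)) =
        EE γ Rc Uc Pc R V Q w := rfl
      rw [E1] at c1 ⊢
      obtain ⟨E, hE⟩ : ∃ E, E = EE γ Rc Uc Pc R V Q w := ⟨_, rfl⟩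
      obtain ⟨Z, hZ⟩ : ∃ Z, Z = Q w * (fl (Pc w / Q w) + γ * fl (R w / Rc w)) := ⟨_, rfl⟩
      rw [← hE, ← hZ] at c1
      rw [← hE] at c5 ⊢
      rw [← hZ] at c4 ⊢
      have d1 : (Pc w - Q w) * (Uc w - V w) * dx (tcone K C a b t0 n) w ≤
          C * E * |dx (tcone K C a b t0 n) w| := by
        refine (le_abs_self _).trans ?_
        rw [abs_mul]
        exact mul_le_mul_of_nonneg_right c1.2.2.2.2.1 (abs_nonneg _)
      have d2 : -(tcone K C a b t0 n w * Z * m w) ≤ tcone K C a b t0 n w * (K * E) := by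
        have q1 : 0 ≤ tcone K C a b t0 n w * Z := mul_nonneg c3 c4
        have q2 : -(tcone K C a b t0 n w * Z * m w) ≤ tcone K C a b t0 n w * Z * C0 := by
          have := mul_le_mul_of_nonneg_left (show - m w ≤ C0 by linarith) q1
          linarith
        refine q2.trans ?_
        have e5 : K * E = C * E * C0 := by rw [hK]; ring
        rw [e5, mul_assoc]
        exact mul_le_mul_of_nonneg_left (mul_le_mul_of_nonneg_right c1.2.2.2.1 hC0) c3
      have d3 := mul_le_mul_of_nonneg_left c2 c5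
      nlinarith
    -- the initial term
    have e4 : (∫ x, r0 x * relE γ (r0 x) (u0 x) (p0 x) (V0 (Y0 r0 x)) (Q0 (Y0 r0 x))
        (en γ (R0 (Y0 r0 x)) (Q0 (Y0 r0 x))) * tcone K C a b t0 n (Y0 r0 x, 0)) ≤ I0 := by
      rw [hI0]
      have mA : Measurable (fun x => r0 x * E00 γ r0 u0 p0 R0 V0 Q0 x) :=
        h.mr0.mul (measurable_E00 h hT)
      have bA : ∀ x, |r0 x * E00 γ r0 u0 p0 R0 V0 Q0 x| ≤ B.rb * D := fun x => by
        rw [abs_mul]
        exact mul_le_mul (h.box0 x).abs_r (hD _ _ _ _ _ _ (h.box0 x) (hT.box0 _))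
          (abs_nonneg _) B.rb_pos.le
      have c1 : Continuous (fun y : ℝ => tcone K C a b t0 n (y, 0)) :=
        hχ.continuous.comp (by fun_prop)
      have c2 : HasCompactSupport (fun y : ℝ => tcone K C a b t0 n (y, 0)) :=
        HasCompactSupport.slice_x hχ.cpt 0
      have c3 : Continuous (fun y : ℝ => stp a b (phs C (y, 0))) := by
        simp only [← cone_slice]
        exact (cone_smooth (L := C) (a := a) (b := b) (ν := 1)).continuous.comp (by fun_prop)
      have c4 : HasCompactSupport (fun y : ℝ => stp a b (phs C (y, 0))) := by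
        simp only [← cone_slice]
        exact HasCompactSupport.slice_x hcc 0
      refine integral_mono (h.integrable_lab mA bA c1 c2) (h.integrable_lab mA bA c3 c4)
        fun x => ?_
      have hr := (h.box0 x).r_pos
      have hE : 0 ≤ E00 γ r0 u0 p0 R0 V0 Q0 x :=
        (hCo _ _ _ _ _ _ (h.box0 x) (hT.box0 (Y0 r0 x))).2.2.2.2.2
      refine mul_le_mul_of_nonneg_left ?_ (mul_nonneg hr.le hE)
      rw [← cone_slice, tcone]
      simp only [mul_zero, neg_zero, Real.exp_zero, one_mul]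
      exact mul_le_of_le_one_right (cone_nonneg _) (thp_le_one' 0)
    rw [e1]
    linarith
  filter_upwards [ae_tendsto_mol1 ihh.locallyIntegrable] with t0 ht0 hpos hlt
  have h1 : Tendsto (fun n => (bump1 n).rOut) atTop (𝓝 0) := by
    simp only [bump1_rOut]
    exact tendsto_one_div_add_atTop_nhds_zero_nat
  have h2 : ∀ᶠ n in atTop, mol1 n hh t0 ≤ I0 := by
    filter_upwards [h1.eventually (gt_mem_nhds (sub_pos.2 hlt))] with n hn
    exact key t0 hpos n (by linarith)
  have h3 := le_of_tendsto ht0 h2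
  refine le_of_eq_of_le ?_ h3
  rw [hhh, ← integral_const_mul]
  refine integral_congr_ae (Filter.Eventually.of_forall fun y => ?_)
  simp only [hF0]
  rw [indicator_of_mem (show (y, t0) ∈ up from hpos), cone_of_nonneg one_pos hpos.le]
  ring

end

end Pool.Agent.helper23_Euler
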