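import Mathlib
import Pool.Agent.helper23_Euler.Gron
import Pool.Agent.helper23_Euler.Trace

open MeasureTheory Set Filter Topology
open scoped ContDiff Convolution ENNReal NNReal

namespace Pool.Agent.helper23_Euler

noncomputable section

variable {γ T T₁ : ℝ} {B : Bds} {r u p : ℝ × ℝ → ℝ} {r0 u0 p0 : ℝ → ℝ} {Y X : ℝ × ℝ → ℝ}

/-- a time slice of the label map -/
structure Slc (B : Bds) (ρ Yt Xt : ℝ → ℝ) : Prop where
  mρ : Measurable ρ
  ra : ∀ x, B.ra ≤ ρ x
  rb : ∀ x, ρ x ≤ B.rb
  left : ∀ x, Xt (Yt x) = x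
  right : ∀ y, Yt (Xt y) = y
  emb : MeasurableEmbedding Yt
  sm : StrictMono Yt
  map : Measure.map Yt (volume.withDensity (fun x => ENNReal.ofReal (ρ x))) = volume
  cX : Continuous Xt
  cY : Continuous Yt
  lipX : ∀ y y', |Xt y - Xt y'| ≤ B.LX * |y - y'|
  lipY : ∀ x x', |Yt x - Yt x'| ≤ B.L * |x - x'|

lemma LX.slc (h : LX B T₁ r r0 Y X) : ∀ᵐ t ∂(volume.restrict (Ioo 0 T₁)),
    Slc B (fun x => r (x, t)) (fun x => Y (x, t)) (fun y => X (y, t)) := by
  filter_upwards [h.lab.slice_map h.mr h.ra h.rb] with t ht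
  exact
    { mρ := h.mr.comp (by fun_prop)
      ra := fun x => h.ra (x, t)
      rb := fun x => h.rb (x, t)
      left := fun x => h.inv.left x t
      right := fun y => h.inv.right y t
      emb := h.emb_slice t
      sm := h.lab.mono t
      map := ht
      cX := h.inv.cont.comp (by fun_prop)
      cY := h.lab.cont_slice t
      lipX := fun y y' => by
        have := h.inv.lip (y, t) (y', t)
        rwa [show ((y, t) : ℝ × ℝ) - (y', t) = (y - y', 0) by simp, Prod.norm_def, norm_zero,
          max_eq_left (norm_nonneg _)] at this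
      lipY := fun y y' => by
        have := h.lab.lip (y, t) (y', t)
        rwa [show ((y, t) : ℝ × ℝ) - (y', t) = (y - y', 0) by simp, Prod.norm_def, norm_zero,
          max_eq_left (norm_nonneg _)] at this }

lemma LX.slc0 (h : LX B T₁ r r0 Y X) (mr0 : Measurable r0) (ra : ∀ x, B.ra ≤ r0 x)
    (rb : ∀ x, r0 x ≤ B.rb) : Slc B r0 (Y0 r0) (fun y => X (y, 0)) := by
  have e : (fun x => Y (x, 0)) = Y0 r0 := funext fun x => h.lab.init x 0 le_rfl
  have hi : ∀ a b : ℝ, IntervalIntegrable r0 volume a b := fun a b =>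
    (MeasureTheory.Measure.integrableOn_of_bounded (M := B.rb) (by simp)
      mr0.aestronglyMeasurable
      (Filter.Eventually.of_forall fun s => by
        rw [Real.norm_eq_abs, abs_of_pos (lt_of_lt_of_le B.ra_pos (ra s))]
        exact rb s)).intervalIntegrable
  have c1 := h.lab.cont_slice 0
  have c2 := h.lab.mono 0
  have c3 := h.lab.surj 0
  have c4 := h.emb_slice 0
  rw [e] at c1 c2 c3 c4
  exact
    { mρ := mr0
      ra := ra
      rb := rb
      left := fun x => by
        have := h.inv.left x 0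
        rw [h.lab.init x 0 le_rfl] at this
        exact this
      right := fun y => by
        have := h.inv.right y 0
        rw [h.lab.init _ 0 le_rfl] at this
        exact this
      emb := c4
      sm := c2
      map := helper23_Euler.slice_map mr0 B.ra_pos ra rb (fun x x' => by
        unfold Y0
        rw [intervalIntegral.integral_interval_sub_left (hi _ _) (hi _ _)]) c1 c2 c3
      cX := h.inv.cont.comp (by fun_prop)
      cY := c1
      lipX := fun y y' => by
        have := h.inv.lip (y, 0) (y', 0)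
        rwa [show ((y, 0) : ℝ × ℝ) - (y', 0) = (y - y', 0) by simp, Prod.norm_def, norm_zero,
          max_eq_left (norm_nonneg _)] at this
      lipY := fun y y' => by
        have := h.lab.lip (y, 0) (y', 0)
        rw [h.lab.init _ 0 le_rfl, h.lab.init _ 0 le_rfl] at this
        rwa [show ((y, 0) : ℝ × ℝ) - (y', 0) = (y - y', 0) by simp, Prod.norm_def, norm_zero,
          max_eq_left (norm_nonneg _)] at this }

variable {ρ Yt Xt : ℝ → ℝ}

lemma Slc.pos (h : Slc B ρ Yt Xt) (x : ℝ) : 0 < ρ x := lt_of_lt_of_le B.ra_pos (h.ra x)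

lemma Slc.integral (h : Slc B ρ Yt Xt) (F : ℝ → ℝ) : ∫ x, ρ x * F (Yt x) = ∫ y, F y :=
  tr_integral h.emb h.mρ h.pos h.map F

lemma Slc.integrable (h : Slc B ρ Yt Xt) {F : ℝ → ℝ} (hF : Integrable F) :
    Integrable (fun x => ρ x * F (Yt x)) := tr_integrable h.emb h.mρ h.pos h.map hF

lemma Slc.integrable' (h : Slc B ρ Yt Xt) {F : ℝ → ℝ}
    (hF : Integrable (fun x => ρ x * F (Yt x))) : Integrable F :=
  tr_integrable' h.emb h.mρ h.pos h.map hF

lemma Slc.ae (h : Slc B ρ Yt Xt) {P : ℝ → Prop} (hP : ∀ᵐ x, P x) : ∀ᵐ y, P (Xt y) :=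
  tr_ae h.emb h.map h.left hP

lemma Slc.ae' (h : Slc B ρ Yt Xt) {P : ℝ → Prop} (hP : ∀ᵐ y, P y) : ∀ᵐ x, P (Yt x) :=
  tr_ae' h.emb h.mρ h.pos h.map hP

/-- from labels to positions -/
lemma Slc.le_x (h : Slc B ρ Yt Xt) {f : ℝ → ℝ} (hf0 : ∀ x, 0 ≤ f x) (mf : Measurable f) {C : ℝ}
    (hC : ∀ x, f x ≤ C) {a R : ℝ} (hR : |Xt 0| + B.LX * a ≤ R) :
    ∫ y in Icc (-a) a, f (Xt y) ≤ B.rb * ∫ x in Icc (-R) R, f x := by
  rw [← integral_indicator measurableSet_Icc]
  have i1 : IntegrableOn f (Icc (-R) R) := by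
    refine Measure.integrableOn_of_bounded (M := C) (by simp) mf.aestronglyMeasurable ?_
    refine Filter.Eventually.of_forall fun x => ?_
    rw [Real.norm_eq_abs, abs_of_nonneg (hf0 x)]
    exact hC x
  have i2 : IntegrableOn (fun y => f (Xt y)) (Icc (-a) a) := by
    refine Measure.integrableOn_of_bounded (M := C) (by simp)
      (mf.comp h.cX.measurable).aestronglyMeasurable ?_
    refine Filter.Eventually.of_forall fun x => ?_
    rw [Real.norm_eq_abs, abs_of_nonneg (hf0 _)]
    exact hC _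
  rw [← h.integral, ← integral_const_mul, ← integral_indicator measurableSet_Icc]
  have i3 : IntegrableOn (fun x => B.rb * f x) (Icc (-R) R) := i1.const_mul _
  refine integral_mono (h.integrable (i2.integrable_indicator measurableSet_Icc))
    (i3.integrable_indicator measurableSet_Icc) fun x => ?_
  simp only []
  have hp := h.pos x
  by_cases hx : Yt x ∈ Icc (-a) a
  · have hx2 : x ∈ Icc (-R) R := by
      have k1 := h.lipX (Yt x) 0
      rw [h.left, sub_zero] at k1
      have k2 : |Yt x| ≤ a := abs_le.2 hx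
      have k3 := mul_le_mul_of_nonneg_left k2 B.LX_nonneg
      have k4 := abs_sub_abs_le_abs_sub x (Xt 0)
      exact abs_le.1 (by linarith)
    rw [indicator_of_mem hx, indicator_of_mem hx2, h.left]
    exact mul_le_mul_of_nonneg_right (h.rb x) (hf0 x)
  · rw [indicator_of_notMem hx, mul_zero]
    refine indicator_nonneg (fun x _ => ?_) x
    exact mul_nonneg B.rb_pos.le (hf0 x)

/-- from positions to labels -/
lemma Slc.le_y (h : Slc B ρ Yt Xt) {f : ℝ → ℝ} (hf0 : ∀ x, 0 ≤ f x) (mf : Measurable f) {C : ℝ}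
    (hC : ∀ x, f x ≤ C) {a R : ℝ} (ha : |Yt 0| + B.L * R ≤ a) :
    B.ra * ∫ x in Icc (-R) R, f x ≤ ∫ y in Icc (-a) a, f (Xt y) := by
  rw [← integral_indicator (s := Icc (-a) a) measurableSet_Icc]
  have i1 : IntegrableOn f (Icc (-R) R) := by
    refine Measure.integrableOn_of_bounded (M := C) (by simp) mf.aestronglyMeasurable ?_
    refine Filter.Eventually.of_forall fun x => ?_
    rw [Real.norm_eq_abs, abs_of_nonneg (hf0 x)]
    exact hC x
  have i2 : IntegrableOn (fun y => f (Xt y)) (Icc (-a) a) := by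
    refine Measure.integrableOn_of_bounded (M := C) (by simp)
      (mf.comp h.cX.measurable).aestronglyMeasurable ?_
    refine Filter.Eventually.of_forall fun x => ?_
    rw [Real.norm_eq_abs, abs_of_nonneg (hf0 _)]
    exact hC _
  rw [← h.integral, ← integral_const_mul, ← integral_indicator measurableSet_Icc]
  have i3 : IntegrableOn (fun x => B.ra * f x) (Icc (-R) R) := i1.const_mul _
  refine integral_mono (i3.integrable_indicator measurableSet_Icc)
    (h.integrable (i2.integrable_indicator measurableSet_Icc)) fun x => ?_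
  simp only []
  have hp := h.pos x
  by_cases hx : x ∈ Icc (-R) R
  · have hx2 : Yt x ∈ Icc (-a) a := by
      have k1 := h.lipY x 0
      rw [sub_zero] at k1
      have k2 : |x| ≤ R := abs_le.2 hx
      have k3 := mul_le_mul_of_nonneg_left k2 B.L_nonneg
      have k4 := abs_sub_abs_le_abs_sub (Yt x) (Yt 0)
      exact abs_le.1 (by linarith)
    rw [indicator_of_mem hx, indicator_of_mem hx2, h.left]
    exact mul_le_mul_of_nonneg_right (h.ra x) (hf0 x)
  · rw [indicator_of_notMem hx]
    exact mul_nonneg hp.le (indicator_nonneg (fun y _ => hf0 _) _)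

/-- the position as an integral of the specific volume -/
lemma Slc.diff (h : Slc B ρ Yt Xt) {y y' : ℝ} (hy : y ≤ y') :
    Xt y' - Xt y = ∫ s in Icc y y', 1 / ρ (Xt s) := by
  have e1 : ∀ x, Yt x ∈ Icc y y' ↔ x ∈ Icc (Xt y) (Xt y') := by
    intro x
    rw [mem_Icc, mem_Icc]
    have k1 : y ≤ Yt x ↔ Xt y ≤ x := by
      have := h.sm.le_iff_le (a := Xt y) (b := x)
      rw [h.right] at this
      exact this
    have k2 : Yt x ≤ y' ↔ x ≤ Xt y' := by
      have := h.sm.le_iff_le (a := x) (b := Xt y')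
      rw [h.right] at this
      exact this
    rw [k1, k2]
  have hX : Xt y ≤ Xt y' := by
    have := h.sm.le_iff_le (a := Xt y) (b := Xt y')
    rw [h.right, h.right] at this
    exact this.1 hy
  rw [← integral_indicator measurableSet_Icc, ← h.integral]
  have e2 : ∀ x, ρ x * (Icc y y').indicator (fun s => 1 / ρ (Xt s)) (Yt x) =
      (Icc (Xt y) (Xt y')).indicator (fun _ => (1 : ℝ)) x := by
    intro x
    have hp := h.pos x
    by_cases hx : x ∈ Icc (Xt y) (Xt y')
    · rw [indicator_of_mem hx, indicator_of_mem ((e1 x).2 hx), h.left]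
      field_simp
    · rw [indicator_of_notMem hx, indicator_of_notMem (fun h' => hx ((e1 x).1 h')), mul_zero]
  simp only [e2]
  rw [integral_indicator measurableSet_Icc, setIntegral_const, smul_eq_mul, mul_one, Measure.real,
    Real.volume_Icc, ENNReal.toReal_ofReal (by linarith)]

lemma mono_shift2 {m : ℝ → ℝ} (hm : Monotone m) {C R d : ℝ} (hb : ∀ x, 0 ≤ m x ∧ m x ≤ C)
    (hd : 0 ≤ d) (hR : 0 ≤ R) : ∫ x in Icc (-R) R, (m (x + d) - m (x - d)) ≤ 2 * d * C := by
  have h1 := mono_shift (m := fun x => m (x - d)) (fun x y hxy => hm (by linarith))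
    (C := C) (R := R) (r := 2 * d) (fun x => hb _) (by linarith)
  rw [intervalIntegral.integral_of_le (by linarith), ← integral_Icc_eq_integral_Ioc] at h1
  refine le_trans (le_of_eq ?_) h1
  congr 1
  ext x
  congr 2
  ring

/-- the shift estimate in labels -/
lemma Slc.shift (h : Slc B ρ Yt Xt) {m : ℝ → ℝ} (hm : Monotone m) {M d a : ℝ}
    (hb : ∀ x, 0 ≤ m x ∧ m x ≤ M) (hd : 0 ≤ d) (ha : 0 ≤ a) :
    ∫ y in Icc (-a) a, (m (Xt y + d) - m (Xt y - d)) ≤ B.rb * (2 * d * M) := by
  have mf : Measurable (fun x => m (x + d) - m (x - d)) :=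
    (hm.measurable.comp (measurable_id.add_const d)).sub
      (hm.measurable.comp (measurable_id.sub_const d))
  have k := h.le_x (f := fun x => m (x + d) - m (x - d))
    (fun x => sub_nonneg.2 (hm (by linarith))) mf (C := M)
    (fun x => by linarith [(hb (x + d)).2, (hb (x - d)).1]) (a := a) le_rfl
  refine k.trans (mul_le_mul_of_nonneg_left ?_ B.rb_pos.le)
  refine mono_shift2 hm hb hd ?_
  have := abs_nonneg (Xt 0)
  have := mul_nonneg B.LX_nonneg ha
  linarith

end

end Pool.Agent.helper23_Euler
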