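import Mathlib
import Pool.Agent.helper23_Euler.Slices

open MeasureTheory Set Filter Topology
open scoped ContDiff Convolution ENNReal NNReal

namespace Pool.Agent.helper23_Euler

noncomputable section

variable {γ T T₁ : ℝ} {B : Bds} {r u p : ℝ × ℝ → ℝ} {r0 u0 p0 : ℝ → ℝ} {Y X : ℝ × ℝ → ℝ}

/-- monotone control of the oscillation of a slice -/
structure Osc (M : ℝ) (f : ℝ → ℝ) (m : ℝ → ℝ) (S : Set ℝ) : Prop where
  mono : Monotone m
  bd : ∀ x, 0 ≤ m x ∧ m x ≤ M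
  full : ∀ᵐ x, x ∈ S
  osc : ∀ x ∈ S, ∀ y ∈ S, x ≤ y → |f y - f x| ≤ m y - m x

lemma Osc.le {M : ℝ} {f m : ℝ → ℝ} {S : Set ℝ} (h : Osc M f m S) {x y c d : ℝ} (hx : x ∈ S)
    (hy : y ∈ S) (hxc : |x - c| ≤ d) (hyc : |y - c| ≤ d) :
    |f x - f y| ≤ m (c + d) - m (c - d) := by
  rw [abs_le] at hxc hyc
  rcases le_total x y with hxy | hxy
  · rw [abs_sub_comm]
    have k1 := h.osc x hx y hy hxy
    have k2 := h.mono (show y ≤ c + d by linarith)
    have k3 := h.mono (show c - d ≤ x by linarith)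
    linarith
  · have k1 := h.osc y hy x hx hxy
    have k2 := h.mono (show x ≤ c + d by linarith)
    have k3 := h.mono (show c - d ≤ y by linarith)
    linarith

/-- oscillation control and initial trace of a scalar field -/
structure BR (T₁ M : ℝ) (f : ℝ × ℝ → ℝ) (f0 : ℝ → ℝ) : Prop where
  mf : Measurable f
  mf0 : Measurable f0
  bf : ∀ z, |f z| ≤ M
  bf0 : ∀ x, |f0 x| ≤ M
  osc : ∀ᵐ t ∂(volume.restrict (Ioo 0 T₁)), ∃ m S, Osc M (fun x => f (x, t)) m S
  osc0 : ∃ m S, Osc M f0 m S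
  trace : ∀ ρ ε : ℝ, 0 < ε → ∃ ν, 0 < ν ∧ ∀ᵐ t : ℝ, 0 < t → t < ν →
    ∫ x in Icc (-ρ) ρ, |f (x, t) - f0 x| ≤ ε

lemma BR.M_nonneg {M : ℝ} {f : ℝ × ℝ → ℝ} {f0 : ℝ → ℝ} (h : BR T₁ M f f0) : 0 ≤ M :=
  (abs_nonneg _).trans (h.bf 0)

lemma integrableOn_bd {f : ℝ → ℝ} (hf : Measurable f) {C : ℝ} (hC : ∀ x, |f x| ≤ C) (a b : ℝ) :
    IntegrableOn f (Icc a b) :=
  Measure.integrableOn_of_bounded (M := C) (by simp) hf.aestronglyMeasurable
    (Filter.Eventually.of_forall fun x => hC x)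

/-- the oscillation between two positions in labels -/
lemma Slc.osc {ρ Yt Xt : ℝ → ℝ} (h : Slc B ρ Yt Xt) {M : ℝ} {f m : ℝ → ℝ} {S : Set ℝ}
    (hO : Osc M f m S) (mf : Measurable f) {C : ℝ} (bf : ∀ x, |f x| ≤ C) {Zt : ℝ → ℝ}
    (mZ : Measurable Zt) (hZ : ∀ᵐ y, Zt y ∈ S) {a d : ℝ} (hd : 0 ≤ d) (ha : 0 ≤ a)
    (hZd : ∀ y ∈ Icc (-a) a, |Zt y - Xt y| ≤ d) :
    ∫ y in Icc (-a) a, |f (Zt y) - f (Xt y)| ≤ B.rb * (2 * d * M) := by
  refine le_trans ?_ (h.shift hO.mono hO.bd hd ha)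
  have hm := hO.mono
  have mX := h.cX.measurable
  refine integral_mono_ae ?_ ?_ ?_
  · exact integrableOn_bd (((mf.comp mZ).sub (mf.comp mX)).abs) (C := C + C) (fun x => by
      rw [abs_abs]
      exact (abs_sub _ _).trans (add_le_add (bf _) (bf _))) _ _
  · refine integrableOn_bd (((hm.measurable.comp (mX.add_const d))).sub
      (hm.measurable.comp (mX.sub_const d))) (C := M) (fun x => ?_) _ _
    have k1 := hO.bd (Xt x + d)
    have k2 := hO.bd (Xt x - d)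
    show |m (Xt x + d) - m (Xt x - d)| ≤ M
    rw [abs_le]
    constructor <;> linarith
  · rw [Filter.EventuallyLE, ae_restrict_iff' measurableSet_Icc]
    filter_upwards [hZ, h.ae hO.full] with y h1 h2 hy
    refine hO.le (c := Xt y) h1 h2 (hZd y hy) ?_
    rw [sub_self, abs_zero]
    exact hd

lemma LX.X00 (h : LX B T₁ r r0 Y X) : X (0, 0) = 0 := by
  have h1 : Y (0, 0) = 0 := by
    rw [h.lab.init 0 0 le_rfl, Y0, intervalIntegral.integral_same]
  have := h.inv.left 0 0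
  rwa [h1] at this

lemma LX.dX (h : LX B T₁ r r0 Y X) (y t t' : ℝ) : |X (y, t) - X (y, t')| ≤ B.LX * |t - t'| := by
  have := h.inv.lip (y, t) (y, t')
  rwa [show ((y, t) : ℝ × ℝ) - (y, t') = (0, t - t') by simp, Prod.norm_def, norm_zero,
    max_eq_right (norm_nonneg _)] at this

/-- the trace in label coordinates -/
theorem BR.trace_lab {M : ℝ} {f : ℝ × ℝ → ℝ} {f0 : ℝ → ℝ} (h : BR T₁ M f f0)
    (hX : LX B T₁ r r0 Y X) (mr0 : Measurable r0) (hra : ∀ x, B.ra ≤ r0 x)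
    (hrb : ∀ x, r0 x ≤ B.rb) (hT₁ : 0 < T₁) (ρ ε : ℝ) (hε : 0 < ε) :
    ∃ ν, 0 < ν ∧ ∀ᵐ t : ℝ, 0 < t → t < ν →
      ∫ y in Icc (-ρ) ρ, |lc X f (y, t) - f0 (X (y, 0))| ≤ ε := by
  have hM := h.M_nonneg
  have hLX := B.LX_nonneg
  have hrb0 := B.rb_pos
  obtain ⟨m0, S0, hO0⟩ := h.osc0
  have s0 := hX.slc0 mr0 hra hrb
  obtain ⟨R, hR⟩ : ∃ R, R = B.LX * 1 + B.LX * |ρ| := ⟨_, rfl⟩
  obtain ⟨ν1, hν1, htr⟩ := h.trace R (ε / (2 * B.rb)) (by positivity)
  obtain ⟨ν, hν⟩ : ∃ ν, ν = min (min ν1 1) (min T₁ (ε / (4 * B.rb * (B.LX + 1) * (M + 1)))) :=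
    ⟨_, rfl⟩
  refine ⟨ν, ?_, ?_⟩
  · rw [hν]
    refine lt_min (lt_min hν1 one_pos) (lt_min hT₁ (by positivity))
  have hs := hX.slc
  rw [ae_restrict_iff' measurableSet_Ioo] at hs
  filter_upwards [htr, hs] with t ht hs ht0 htν
  have l1 : t < ν1 := htν.trans_le (by rw [hν]; exact (min_le_left _ _).trans (min_le_left _ _))
  have l2 : t < 1 := htν.trans_le (by rw [hν]; exact (min_le_left _ _).trans (min_le_right _ _))
  have l3 : t < T₁ := htν.trans_le (by rw [hν]; exact (min_le_right _ _).trans (min_le_left _ _))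
  have l4 : t < ε / (4 * B.rb * (B.LX + 1) * (M + 1)) :=
    htν.trans_le (by rw [hν]; exact (min_le_right _ _).trans (min_le_right _ _))
  have s1 := hs ⟨ht0, l3⟩
  have ht' := ht ht0 l1
  have mX1 := s1.cX.measurable
  have mX0 := s0.cX.measurable
  have mft : Measurable (fun x => f (x, t)) := h.mf.comp (by fun_prop)
  have hXt0 : |X (0, t)| ≤ B.LX * 1 := by
    have := hX.dX 0 t 0
    rw [hX.X00, sub_zero, sub_zero, abs_of_pos ht0] at this
    exact this.trans (mul_le_mul_of_nonneg_left l2.le hLX)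
  by_cases hρ : 0 ≤ ρ
  · have e1 : ∫ y in Icc (-ρ) ρ, |f (X (y, t), t) - f0 (X (y, t))| ≤ ε / 2 := by
      have k := s1.le_x (f := fun x => |f (x, t) - f0 x|) (fun x => abs_nonneg _)
        ((mft.sub h.mf0).abs) (C := M + M) (fun x => (abs_sub _ _).trans
          (add_le_add (h.bf _) (h.bf0 _))) (a := ρ) (R := R) (by
            rw [hR, abs_of_nonneg hρ]
            linarith)
      refine k.trans ?_
      refine (mul_le_mul_of_nonneg_left ht' hrb0.le).trans (le_of_eq ?_)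
      field_simp
    have e2 : ∫ y in Icc (-ρ) ρ, |f0 (X (y, t)) - f0 (X (y, 0))| ≤ ε / 2 := by
      have k := s0.osc hO0 h.mf0 h.bf0 (Zt := fun y => X (y, t)) mX1 (s1.ae hO0.full)
        (a := ρ) (d := B.LX * t) (by positivity) hρ (fun y _ => by
          have := hX.dX y t 0
          rwa [sub_zero, abs_of_pos ht0] at this)
      refine k.trans ?_
      have l5 := (lt_div_iff₀ (by positivity)).1 l4
      have : B.rb * (2 * (B.LX * t) * M) ≤ t * (4 * B.rb * (B.LX + 1) * (M + 1)) / 2 := by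
        have a1 : B.LX * M ≤ (B.LX + 1) * (M + 1) := by nlinarith
        have a2 : B.rb * (2 * (B.LX * t) * M) = (2 * B.rb * t) * (B.LX * M) := by ring
        have a3 : t * (4 * B.rb * (B.LX + 1) * (M + 1)) / 2 =
          (2 * B.rb * t) * ((B.LX + 1) * (M + 1)) := by ring
        rw [a2, a3]
        exact mul_le_mul_of_nonneg_left a1 (by positivity)
      linarith
    have i1 : IntegrableOn (fun y => |f (X (y, t), t) - f0 (X (y, t))|) (Icc (-ρ) ρ) :=
      integrableOn_bd ((mft.comp mX1).sub (h.mf0.comp mX1)).abs (C := M + M) (fun x => by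
        rw [abs_abs]
        exact (abs_sub _ _).trans (add_le_add (h.bf _) (h.bf0 _))) _ _
    have i2 : IntegrableOn (fun y => |f0 (X (y, t)) - f0 (X (y, 0))|) (Icc (-ρ) ρ) :=
      integrableOn_bd ((h.mf0.comp mX1).sub (h.mf0.comp mX0)).abs (C := M + M) (fun x => by
        rw [abs_abs]
        exact (abs_sub _ _).trans (add_le_add (h.bf0 _) (h.bf0 _))) _ _
    have i3 : IntegrableOn (fun y => |lc X f (y, t) - f0 (X (y, 0))|) (Icc (-ρ) ρ) :=
      integrableOn_bd ((mft.comp mX1).sub (h.mf0.comp mX0)).abs (C := M + M) (fun x => by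
        rw [abs_abs]
        exact (abs_sub _ _).trans (add_le_add (h.bf _) (h.bf0 _))) _ _
    have e3 : ∫ y in Icc (-ρ) ρ, |lc X f (y, t) - f0 (X (y, 0))| ≤
        (∫ y in Icc (-ρ) ρ, |f (X (y, t), t) - f0 (X (y, t))|)
        + ∫ y in Icc (-ρ) ρ, |f0 (X (y, t)) - f0 (X (y, 0))| := by
      rw [← integral_add i1 i2]
      refine integral_mono i3 (i1.add i2) fun y => ?_
      exact abs_sub_le _ _ _
    linarith
  · rw [Icc_eq_empty (by linarith)]
    simp only [setIntegral_empty]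
    exact hε.le

end

end Pool.Agent.helper23_Euler
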