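import Mathlib
import Pool.Agent.helper23_Euler.TrRef

open MeasureTheory Set Filter Topology
open scoped ContDiff Convolution ENNReal NNReal

namespace Pool.Agent.helper23_Euler

noncomputable section

variable {γ T T₁ : ℝ} {B : Bds} {r u p : ℝ × ℝ → ℝ} {r0 u0 p0 : ℝ → ℝ} {Y X : ℝ × ℝ → ℝ}

lemma smol_apply' (n : ℕ) (f : ℝ × ℝ → ℝ) (z : ℝ × ℝ) :
    smol n f z = ∫ w, (bump n).normed volume w * f (z + shf n - w) := by
  rw [smol_apply, ← integral_sub_left_eq_self (fun w => (bump n).normed volume w *
    f (z + shf n - w)) volume (z + shf n)]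
  refine integral_congr_ae (Filter.Eventually.of_forall fun w => ?_)
  simp only [sub_sub_cancel]

lemma ker_zero {n : ℕ} {w : ℝ × ℝ} (h : (bump n).rOut ≤ ‖w‖) :
    (bump n).normed (volume : Measure (ℝ × ℝ)) w = 0 := by
  by_contra h'
  have h2 : w ∈ Function.support ((bump n).normed (volume : Measure (ℝ × ℝ))) := h'
  rw [(bump n).support_normed_eq] at h2
  have := Metric.mem_ball.1 h2
  rw [dist_zero_right] at this
  linarith

/-- the mollified field attains the initial trace -/
theorem tendsto_smol_trace {F : ℝ × ℝ → ℝ} {F0 : ℝ → ℝ} (mF : Measurable F) (mF0 : Measurable F0)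
    {C : ℝ} (bF : ∀ z, |F z| ≤ C) (bF0 : ∀ x, |F0 x| ≤ C)
    (h : ∀ ρ ε : ℝ, 0 < ε → ∃ ν, 0 < ν ∧ ∀ᵐ t : ℝ, 0 < t → t < ν →
      ∫ y in Icc (-ρ) ρ, |F (y, t) - F0 y| ≤ ε) (ρ : ℝ) :
    Tendsto (fun n => ∫ y in Icc (-ρ) ρ, |smol n F (y, 0) - F0 y|) atTop (𝓝 0) := by
  have hC : 0 ≤ C := (abs_nonneg _).trans (bF 0)
  obtain ⟨G, hG⟩ : ∃ G : ℝ × ℝ → ℝ, G = fun w => F0 w.1 := ⟨_, rfl⟩
  have mG : Measurable G := by rw [hG]; exact mF0.comp measurable_fst
  have bG : ∀ z, |G z| ≤ C := fun z => by rw [hG]; exact bF0 _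
  have lF : LocallyIntegrable F := locInt_bd mF bF
  have lG : LocallyIntegrable G := locInt_bd mG bG
  have sF : ∀ n, ContDiff ℝ ∞ (smol n F) := fun n => contDiff_smol n lF
  have sG : ∀ n, ContDiff ℝ ∞ (smol n G) := fun n => contDiff_smol n lG
  -- part two
  have hGt : ∀ n y t, smol n G (y, t) = smol n G (y, 0) := by
    intro n y t
    rw [smol_apply', smol_apply']
    refine integral_congr_ae (Filter.Eventually.of_forall fun w => ?_)
    simp only [hG]
    simp
  have p2 : Tendsto (fun n => ∫ y in Icc (-ρ) ρ, |smol n G (y, 0) - F0 y|) atTop (𝓝 0) := by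
    have k := tendsto_L1_smol lG (K := Icc (-ρ) ρ ×ˢ Icc (0 : ℝ) 1)
      (isCompact_Icc.prod isCompact_Icc)
    refine k.congr fun n => ?_
    have i1 : IntegrableOn (fun z => |smol n G z - G z|) (Icc (-ρ) ρ ×ˢ Icc (0 : ℝ) 1)
        (volume.prod volume) := by
      rw [← Measure.volume_eq_prod]
      exact ((((sG n).continuous.continuousOn).integrableOn_compact
        (isCompact_Icc.prod isCompact_Icc)).sub
        (lG.integrableOn_isCompact (isCompact_Icc.prod isCompact_Icc))).abs
    rw [Measure.volume_eq_prod, setIntegral_prod _ i1]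
    refine integral_congr_ae (Filter.Eventually.of_forall fun y => ?_)
    have e : ∀ t : ℝ, |smol n G (y, t) - G (y, t)| = |smol n G (y, 0) - F0 y| := by
      intro t
      have e0 : G (y, t) = F0 y := by rw [hG]
      rw [hGt n y t, e0]
    simp only [e]
    simp
  -- part one
  have p1 : Tendsto (fun n => ∫ y in Icc (-ρ) ρ, |smol n F (y, 0) - smol n G (y, 0)|) atTop
      (𝓝 0) := by
    rw [Metric.tendsto_atTop]
    intro ε hε
    obtain ⟨ν, hν, htr⟩ := h (ρ + 1) (ε / 2) (by positivity)
    have h1 : Tendsto (fun n => 3 * (bump n).rOut) atTop (𝓝 0) := by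
      simpa using tendsto_bump.const_mul 3
    obtain ⟨N, hN⟩ := eventually_atTop.1 (h1.eventually (gt_mem_nhds hν))
    refine ⟨N, fun n hn => ?_⟩
    have hn3 := hN n hn
    have hr1 := rOut_le_one n
    rw [Real.dist_eq, sub_zero, abs_of_nonneg (integral_nonneg fun _ => abs_nonneg _)]
    obtain ⟨D, hD⟩ : ∃ D : ℝ × ℝ → ℝ, D = fun w => |F w - F0 w.1| := ⟨_, rfl⟩
    have mD : Measurable D := by rw [hD]; exact (mF.sub (mF0.comp measurable_fst)).abs
    have bD : ∀ w, |D w| ≤ C + C := fun w => by
      rw [hD]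
      simp only [abs_abs]
      exact (abs_sub _ _).trans (add_le_add (bF _) (bF0 _))
    have D0 : ∀ w, 0 ≤ D w := fun w => by rw [hD]; exact abs_nonneg _
    have ik : Integrable (fun w : ℝ × ℝ => (bump n).normed volume w) :=
      (bump n).integrable_normed (μ := volume)
    have iJ : Integrable (Function.uncurry fun (y : ℝ) (w : ℝ × ℝ) =>
        (bump n).normed volume w * D ((y, 0) + shf n - w))
        ((volume.restrict (Icc (-ρ) ρ)).prod volume) := by
      have i1 : Integrable (fun q : ℝ × (ℝ × ℝ) => (1 : ℝ) * (bump n).normed volume q.2)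
          ((volume.restrict (Icc (-ρ) ρ)).prod volume) :=
        (integrable_const (1 : ℝ)).mul_prod ik
      have i2 : AEStronglyMeasurable (fun q : ℝ × (ℝ × ℝ) => D ((q.1, 0) + shf n - q.2))
          ((volume.restrict (Icc (-ρ) ρ)).prod volume) := by
        refine (mD.comp ?_).aestronglyMeasurable
        exact ((measurable_fst.prodMk measurable_const).add_const _).sub measurable_snd
      refine (i1.bdd_mul (c := C + C) i2 (Filter.Eventually.of_forall fun q => bD _)).congr ?_
      refine Filter.Eventually.of_forall fun q => ?_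
      simp only [Function.uncurry, one_mul]
      ring
    have e1 : ∀ y : ℝ, |smol n F (y, 0) - smol n G (y, 0)| ≤
        ∫ w, (bump n).normed volume w * D ((y, 0) + shf n - w) := by
      intro y
      rw [← smol_sub n lF lG, smol_apply']
      refine abs_integral_le_integral_abs.trans (le_of_eq ?_)
      refine integral_congr_ae (Filter.Eventually.of_forall fun w => ?_)
      simp only [hD, hG, abs_mul, abs_of_nonneg ((bump n).nonneg_normed (μ := volume) w)]
    have i3 : Integrable (fun y => |smol n F (y, 0) - smol n G (y, 0)|)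
        (volume.restrict (Icc (-ρ) ρ)) := by
      have c1 : Continuous (fun y : ℝ => |smol n F (y, 0) - smol n G (y, 0)|) :=
        (((sF n).continuous.comp (by fun_prop)).sub ((sG n).continuous.comp (by fun_prop))).abs
      exact c1.continuousOn.integrableOn_compact isCompact_Icc
    have e2 : ∫ y in Icc (-ρ) ρ, |smol n F (y, 0) - smol n G (y, 0)| ≤
        ∫ y in Icc (-ρ) ρ, ∫ w, (bump n).normed volume w * D ((y, 0) + shf n - w) :=
      integral_mono i3 iJ.integral_prod_left fun y => e1 y
    rw [integral_integral_swap iJ] at e2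
    have e3 : ∫ w, ∫ y in Icc (-ρ) ρ, (bump n).normed volume w * D ((y, 0) + shf n - w) ≤
        ∫ w, (bump n).normed (volume : Measure (ℝ × ℝ)) w * (ε / 2) := by
      refine integral_mono_ae iJ.integral_prod_right (ik.mul_const _) ?_
      have htr2 : ∀ᵐ w : ℝ × ℝ, 0 < 2 * (bump n).rOut - w.2 → 2 * (bump n).rOut - w.2 < ν →
          ∫ y in Icc (-(ρ + 1)) (ρ + 1), |F (y, 2 * (bump n).rOut - w.2) - F0 y| ≤ ε / 2 := by
        have q1 : ∀ᵐ s : ℝ, 0 < 2 * (bump n).rOut - s → 2 * (bump n).rOut - s < ν →
            ∫ y in Icc (-(ρ + 1)) (ρ + 1), |F (y, 2 * (bump n).rOut - s) - F0 y| ≤ ε / 2 :=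
          (quasiMeasurePreserving_sub_left (volume : Measure ℝ) (2 * (bump n).rOut)).ae htr
        have q2 : Measure.QuasiMeasurePreserving (Prod.snd : ℝ × ℝ → ℝ)
            (volume.prod volume) volume := Measure.quasiMeasurePreserving_snd
        rw [← Measure.volume_eq_prod] at q2
        exact q2.ae q1
      filter_upwards [htr2] with w hw
      rw [integral_const_mul]
      by_cases hwb : (bump n).rOut ≤ ‖w‖
      · rw [ker_zero hwb]
        simp
      · rw [not_le] at hwb
        refine mul_le_mul_of_nonneg_left ?_ ((bump n).nonneg_normed _)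
        have w1 : |w.1| < (bump n).rOut := (norm_fst_le w).trans_lt hwb
        have w2 : |w.2| < (bump n).rOut := (norm_snd_le w).trans_lt hwb
        rw [abs_lt] at w1 w2
        have hw' := hw (by linarith) (by linarith)
        have e4 : ∀ y : ℝ, D ((y, 0) + shf n - w) =
            |F (y - w.1, 2 * (bump n).rOut - w.2) - F0 (y - w.1)| := by
          intro y
          have : ((y, 0) + shf n - w : ℝ × ℝ) = (y - w.1, 2 * (bump n).rOut - w.2) := by
            ext <;> simp [shf]
          rw [hD, this]
        simp only [e4]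
        refine le_trans ?_ hw'
        have e5 : ∫ y in Icc (-ρ) ρ, |F (y - w.1, 2 * (bump n).rOut - w.2) - F0 (y - w.1)| =
            ∫ y in (fun y => y - w.1) ⁻¹' Icc (-ρ - w.1) (ρ - w.1),
              |F (y - w.1, 2 * (bump n).rOut - w.2) - F0 (y - w.1)| := by
          congr 2
          ext y
          simp only [mem_preimage, mem_Icc]
          constructor <;> rintro ⟨h1, h2⟩ <;> constructor <;> linarith
        rw [e5, (measurePreserving_sub_right (volume : Measure ℝ) w.1).setIntegral_preimage_emb
          (MeasurableEquiv.subRight w.1).measurableEmbedding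
          (fun y => |F (y, 2 * (bump n).rOut - w.2) - F0 y|)]
        refine setIntegral_mono_set ?_ (Filter.Eventually.of_forall fun _ => abs_nonneg _) ?_
        · refine integrableOn_bd (((mF.comp (by fun_prop)).sub mF0).abs) (C := C + C)
            (fun x => ?_) _ _
          rw [abs_abs]
          exact (abs_sub _ _).trans (add_le_add (bF _) (bF0 _))
        · refine Filter.Eventually.of_forall (Icc_subset_Icc ?_ ?_) <;> linarith
    have e6 : ∫ w, (bump n).normed (volume : Measure (ℝ × ℝ)) w * (ε / 2) = ε / 2 := by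
      rw [integral_mul_const, (bump n).integral_normed, one_mul]
    linarith
  have p3 := p1.add p2
  rw [add_zero] at p3
  refine squeeze_zero (fun n => integral_nonneg fun _ => abs_nonneg _) (fun n => ?_) p3
  have i1 : IntegrableOn (fun y => |smol n F (y, 0) - smol n G (y, 0)|) (Icc (-ρ) ρ) := by
    have c1 : Continuous (fun y : ℝ => |smol n F (y, 0) - smol n G (y, 0)|) :=
      (((sF n).continuous.comp (by fun_prop)).sub ((sG n).continuous.comp (by fun_prop))).abs
    exact c1.continuousOn.integrableOn_compact isCompact_Icc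
  have c2 : Continuous (fun y : ℝ => smol n G (y, 0)) := (sG n).continuous.comp (by fun_prop)
  have c3 : Continuous (fun y : ℝ => smol n F (y, 0)) := (sF n).continuous.comp (by fun_prop)
  have i0 : IntegrableOn F0 (Icc (-ρ) ρ) := integrableOn_bd mF0 bF0 _ _
  have i2 : IntegrableOn (fun y => |smol n G (y, 0) - F0 y|) (Icc (-ρ) ρ) :=
    ((c2.continuousOn.integrableOn_compact isCompact_Icc).sub i0).abs
  have i3 : IntegrableOn (fun y => |smol n F (y, 0) - F0 y|) (Icc (-ρ) ρ) :=
    ((c3.continuousOn.integrableOn_compact isCompact_Icc).sub i0).abs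
  rw [← integral_add i1 i2]
  refine integral_mono i3 (i1.add i2) fun y => ?_
  exact abs_sub_le _ _ _

end

end Pool.Agent.helper23_Euler
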