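import Mathlib
import Pool.Agent.helper23_Euler.TrSmol

open MeasureTheory Set Filter Topology
open scoped ContDiff Convolution ENNReal NNReal

namespace Pool.Agent.helper23_Euler

noncomputable section

variable {γ T T₁ : ℝ} {B : Bds} {r u p : ℝ × ℝ → ℝ} {r0 u0 p0 : ℝ → ℝ} {Y X : ℝ × ℝ → ℝ}
  {N : ℕ} {ψ : ℕ → ℝ × ℝ → ℝ}

lemma en_lip (hγ : 1 < γ) (B : Bds) : ∃ C, 0 ≤ C ∧ ∀ r u p r' u' p', B.In r u p →
    B.In r' u' p' → |en γ r p - en γ r' p'| ≤ C * (|r - r'| + |p - p'|) := by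
  have hγ' : 0 < γ - 1 := by linarith
  have hra := B.ra_pos
  have hpa := B.pa_pos
  have hpb : 0 < B.pb := lt_of_lt_of_le hpa B.pab
  refine ⟨(1 / (γ - 1)) * (1 / B.ra + B.pb / B.ra ^ 2), by positivity, ?_⟩
  intro r u p r' u' p' h h'
  have hr := h.r_pos
  have hr' := h'.r_pos
  have hp' := h'.p_pos
  have e : en γ r p - en γ r' p' = (1 / (γ - 1)) * ((p - p') / r - p' * (r - r') / (r * r')) := by
    unfold en
    field_simp
    ring
  rw [e, abs_mul, abs_of_pos (show 0 < 1 / (γ - 1) by positivity), mul_assoc]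
  refine mul_le_mul_of_nonneg_left ?_ (by positivity)
  refine (abs_sub _ _).trans ?_
  have k1 : |(p - p') / r| ≤ (1 / B.ra) * |p - p'| := by
    rw [abs_div, abs_of_pos hr, div_eq_mul_one_div, mul_comm]
    exact mul_le_mul_of_nonneg_right (one_div_le_one_div_of_le hra h.1.1) (abs_nonneg _)
  have k2 : |p' * (r - r') / (r * r')| ≤ (B.pb / B.ra ^ 2) * |r - r'| := by
    rw [abs_div, abs_mul, abs_of_pos hp', abs_of_pos (mul_pos hr hr'), mul_div_right_comm]
    refine mul_le_mul_of_nonneg_right ?_ (abs_nonneg _)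
    have h1 : B.ra ^ 2 ≤ r * r' := by
      rw [sq]
      exact mul_le_mul h.1.1 h'.1.1 hra.le hr.le
    have h2 := h'.2.2.2
    gcongr
  have a1 := abs_nonneg (r - r')
  have a2 := abs_nonneg (p - p')
  have c1 : 0 ≤ 1 / B.ra := by positivity
  have c2 : 0 ≤ B.pb / B.ra ^ 2 := by positivity
  nlinarith [mul_nonneg c1 a1, mul_nonneg c2 a2]

theorem tr_of_BR (hγ : 1 < γ) {M : ℝ} (hr : BR T₁ M r r0) (hu : BR T₁ M u u0)
    (hp : BR T₁ M p p0) (hX : LX B T₁ r r0 Y X) (box : ∀ z, B.In (r z) (u z) (p z))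
    (box0 : ∀ x, B.In (r0 x) (u0 x) (p0 x)) (hT₁ : 0 < T₁) :
    Tr γ B (lc X r) (lc X u) (lc X p) (fun y => r0 (X (y, 0))) (fun y => u0 (X (y, 0)))
      (fun y => p0 (X (y, 0))) := by
  have hγ' : 0 < γ - 1 := by linarith
  have mX : Measurable (fun w : ℝ × ℝ => (X w, w.2)) :=
    hX.inv.cont.measurable.prodMk measurable_snd
  have mX0 : Measurable (fun y : ℝ => X (y, 0)) := hX.inv.cont.measurable.comp (by fun_prop)
  have hra : ∀ x, B.ra ≤ r0 x := fun x => (box0 x).1.1
  have hrb : ∀ x, r0 x ≤ B.rb := fun x => (box0 x).1.2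
  have tr := hr.trace_lab hX hr.mf0 hra hrb hT₁
  have tu := hu.trace_lab hX hr.mf0 hra hrb hT₁
  have tp := hp.trace_lab hX hr.mf0 hra hrb hT₁
  obtain ⟨C, hC0, hC⟩ := en_lip hγ B
  have hen : ∀ {r u p : ℝ}, B.In r u p → |en γ r p| ≤ B.pb / ((γ - 1) * B.ra) := by
    intro r u p h
    have h1 := h.r_pos
    have h2 := h.p_pos
    have h3 := h.1.1
    have h4 := h.2.2.2
    have hra := B.ra_pos
    unfold en
    rw [abs_of_pos (by positivity)]
    have hpb : 0 ≤ B.pb := h2.le.trans h4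
    gcongr
  refine
    { mR0 := hr.mf0.comp mX0
      mV0 := hu.mf0.comp mX0
      mQ0 := hp.mf0.comp mX0
      box0 := fun y => box0 _
      tV := ?_
      tQ := ?_
      tH := ?_ }
  · exact tendsto_smol_trace (hu.mf.comp mX) (hu.mf0.comp mX0) (fun z => hu.bf _)
      (fun y => hu.bf0 _) tu
  · exact tendsto_smol_trace (hp.mf.comp mX) (hp.mf0.comp mX0) (fun z => hp.bf _)
      (fun y => hp.bf0 _) tp
  · have mE : Measurable (fun w => en γ (lc X r w) (lc X p w)) := by
      unfold en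
      exact (hp.mf.comp mX).div ((hr.mf.comp mX).const_mul _)
    have mE0 : Measurable (fun y => en γ (r0 (X (y, 0))) (p0 (X (y, 0)))) := by
      unfold en
      exact (hp.mf0.comp mX0).div ((hr.mf0.comp mX0).const_mul _)
    refine tendsto_smol_trace mE mE0 (fun z => hen (box _)) (fun y => hen (box0 _)) ?_
    intro ρ ε hε
    obtain ⟨ν1, hν1, h1⟩ := tr ρ (ε / (2 * (C + 1))) (by positivity)
    obtain ⟨ν2, hν2, h2⟩ := tp ρ (ε / (2 * (C + 1))) (by positivity)
    refine ⟨min ν1 ν2, lt_min hν1 hν2, ?_⟩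
    filter_upwards [h1, h2] with t h1 h2 ht0 htν
    have h1 := h1 ht0 (htν.trans_le (min_le_left _ _))
    have h2 := h2 ht0 (htν.trans_le (min_le_right _ _))
    have mXt : Measurable (fun y : ℝ => X (y, t)) := hX.inv.cont.measurable.comp (by fun_prop)
    have mrt : Measurable (fun y : ℝ => lc X r (y, t)) := (hr.mf.comp mX).comp (by fun_prop)
    have mpt : Measurable (fun y : ℝ => lc X p (y, t)) := (hp.mf.comp mX).comp (by fun_prop)
    have i1 : IntegrableOn (fun y => |lc X r (y, t) - r0 (X (y, 0))|) (Icc (-ρ) ρ) :=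
      integrableOn_bd (mrt.sub (hr.mf0.comp mX0)).abs (C := M + M) (fun x => by
        rw [abs_abs]
        exact (abs_sub _ _).trans (add_le_add (hr.bf _) (hr.bf0 _))) _ _
    have i2 : IntegrableOn (fun y => |lc X p (y, t) - p0 (X (y, 0))|) (Icc (-ρ) ρ) :=
      integrableOn_bd (mpt.sub (hp.mf0.comp mX0)).abs (C := M + M) (fun x => by
        rw [abs_abs]
        exact (abs_sub _ _).trans (add_le_add (hp.bf _) (hp.bf0 _))) _ _
    have i12 : IntegrableOn (fun y => C * (|lc X r (y, t) - r0 (X (y, 0))| +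
        |lc X p (y, t) - p0 (X (y, 0))|)) (Icc (-ρ) ρ) := (i1.add i2).const_mul C
    have i3 : IntegrableOn (fun y => |en γ (lc X r (y, t)) (lc X p (y, t)) -
        en γ (r0 (X (y, 0))) (p0 (X (y, 0)))|) (Icc (-ρ) ρ) :=
      integrableOn_bd ((mE.comp (by fun_prop : Measurable (fun y : ℝ => (y, t)))).sub mE0).abs
        (C := B.pb / ((γ - 1) * B.ra) + B.pb / ((γ - 1) * B.ra)) (fun x => by
        rw [abs_abs]
        exact (abs_sub _ _).trans (add_le_add (hen (box _)) (hen (box0 _)))) _ _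
    have e1 : ∫ y in Icc (-ρ) ρ, |en γ (lc X r (y, t)) (lc X p (y, t)) -
        en γ (r0 (X (y, 0))) (p0 (X (y, 0)))| ≤
        C * ((∫ y in Icc (-ρ) ρ, |lc X r (y, t) - r0 (X (y, 0))|) +
          ∫ y in Icc (-ρ) ρ, |lc X p (y, t) - p0 (X (y, 0))|) := by
      rw [← integral_add i1 i2, ← integral_const_mul]
      exact integral_mono i3 i12 fun y => hC _ _ _ _ _ _ (box _) (box0 _)
    refine e1.trans ?_
    have e2 : C * (ε / (2 * (C + 1)) + ε / (2 * (C + 1))) ≤ ε := by
      have : ε / (2 * (C + 1)) + ε / (2 * (C + 1)) = ε / (C + 1) := by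
        field_simp
        ring
      rw [this, mul_div_assoc', div_le_iff₀ (by positivity)]
      nlinarith
    refine le_trans ?_ e2
    exact mul_le_mul_of_nonneg_left (add_le_add h1 h2) hC0

theorem Sol.cpt (hγ : 1 < γ) (h : Sol γ T B r u p r0 u0 p0) (hA : Appr T T₁ B r u r0 N ψ Y)
    (hX : LX B T₁ r r0 Y X) : Cpt γ T₁ B (lc X r) (lc X u) (lc X p) r0 u0 p0 := by
  have mX : Measurable (fun w : ℝ × ℝ => (X w, w.2)) :=
    hX.inv.cont.measurable.prodMk measurable_snd
  have s0 := hX.slc0 h.mr0 (fun x => (h.box0 x).1.1) (fun x => (h.box0 x).1.2)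
  exact
    { mR := h.mr.comp mX
      mU := h.mu.comp mX
      mP := h.mp.comp mX
      mr0 := h.mr0
      mu0 := h.mu0
      mp0 := h.mp0
      box := fun w => h.box _
      box0 := h.box0
      lag := h.lag hγ hA hX
      change0 := s0.integral
      tr0 := fun g hg => s0.integrable hg }

end

end Pool.Agent.helper23_Euler
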