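import Mathlib
import Pool.Agent.helper23_Euler.Pkg

open MeasureTheory Set Filter Topology
open scoped ContDiff Convolution ENNReal NNReal

namespace Pool.Agent.helper23_Euler

noncomputable section

variable {γ T T₁ : ℝ} {B : Bds} {r u p : ℝ × ℝ → ℝ} {r0 u0 p0 : ℝ → ℝ} {Y X : ℝ × ℝ → ℝ}
  {N : ℕ} {ψ : ℕ → ℝ × ℝ → ℝ}

lemma WD.sub {O : Set (ℝ × ℝ)} {v : ℝ × ℝ} {f g f' g' : ℝ × ℝ → ℝ} (h : WD O v f g)
    (h' : WD O v f' g') (lf : LocallyIntegrable f) (lg : LocallyIntegrable g)
    (lf' : LocallyIntegrable f') (lg' : LocallyIntegrable g') :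
    WD O v (fun z => f z - f' z) (fun z => g z - g' z) := by
  intro φ h1 h2 h3
  simp only [sub_mul]
  rw [integral_sub (int_f_dv lf h1 h2 v) (int_f_dv lf' h1 h2 v),
    integral_sub (int_f_phi lg h1 h2) (int_f_phi lg' h1 h2), h φ h1 h2 h3, h' φ h1 h2 h3]
  ring

theorem Sol.wd_pos (h : Sol γ T B r u p r0 u0 p0) (hA : Appr T T₁ B r u r0 N ψ Y)
    (hX : LX B T₁ r r0 Y X) : WD (strip T₁) (0, 1) X (lc X u) := by
  intro φ h1 h2 h3
  have hs : tsupport φ ⊆ up := h3.trans (strip_sub_up T₁)
  have k := h.pos_eq hA hX (isTest_of_strip h1 h2 h3) hs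
  rw [int_up hs fun z hz => by
    rw [dt_eq_zero hz, image_eq_zero_of_notMem_tsupport hz]; ring] at k
  have mX : Measurable (fun w : ℝ × ℝ => (X w, w.2)) :=
    hX.inv.cont.measurable.prodMk measurable_snd
  have lu : LocallyIntegrable (lc X u) := locInt_bd (h.mu.comp mX) fun z => (h.box _).2.1
  have lX : LocallyIntegrable X := hX.inv.cont.locallyIntegrable
  have i1 := int_f_dv lX h1 h2 (0, 1)
  have i2 := int_f_phi lu h1 h2
  have k3 : (∫ z, X z * fderiv ℝ φ z (0, 1)) + ∫ z, lc X u z * φ z = 0 := by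
    rw [← integral_add i1 i2]
    exact k
  linarith

lemma smol_close {f : ℝ × ℝ → ℝ} {Λ : ℝ} (hΛ : 0 ≤ Λ) (hf : ∀ z w, |f z - f w| ≤ Λ * ‖z - w‖)
    (n : ℕ) (z : ℝ × ℝ) : |smol n f z - f z| ≤ Λ * (3 * (bump n).rOut) := by
  have cf : Continuous f := by
    refine (LipschitzWith.of_dist_le_mul (K := ⟨Λ, hΛ⟩) fun z w => ?_).continuous
    rw [Real.dist_eq, dist_eq_norm]
    exact hf z w
  have hr := rOut_pos' n
  obtain ⟨D, hD⟩ : ∃ D, D = Λ * (3 * (bump n).rOut) := ⟨_, rfl⟩
  have hD0 : 0 ≤ D := by rw [hD]; positivity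
  have ik : Integrable (fun w : ℝ × ℝ => (bump n).normed volume w) :=
    (bump n).integrable_normed (μ := volume)
  have i1 : Integrable (fun w : ℝ × ℝ => (bump n).normed volume w * f (z + shf n - w)) := by
    refine Continuous.integrable_of_hasCompactSupport
      (((bump n).continuous_normed (μ := volume)).mul (cf.comp (by fun_prop))) ?_
    exact ((bump n).hasCompactSupport_normed (μ := (volume : Measure (ℝ × ℝ)))).mul_right
  have e1 : smol n f z - f z = ∫ w, (bump n).normed volume w * (f (z + shf n - w) - f z) := by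
    simp only [mul_sub]
    rw [integral_sub i1 (ik.mul_const _), integral_mul_const, (bump n).integral_normed, one_mul,
      smol_apply']
  rw [e1, ← hD]
  have e2 : |∫ w, (bump n).normed volume w * (f (z + shf n - w) - f z)| ≤
      ∫ w, (bump n).normed (volume : Measure (ℝ × ℝ)) w * D := by
    refine abs_integral_le_integral_abs.trans ?_
    have i2 : Integrable (fun w : ℝ × ℝ =>
        (bump n).normed volume w * (f (z + shf n - w) - f z)) := by
      simp only [mul_sub]
      exact i1.sub (ik.mul_const _)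
    refine integral_mono i2.abs (ik.mul_const _) fun w => ?_
    simp only []
    rw [abs_mul, abs_of_nonneg ((bump n).nonneg_normed (μ := volume) w)]
    by_cases hwb : (bump n).rOut ≤ ‖w‖
    · rw [ker_zero hwb]
      simp
    · rw [not_le] at hwb
      refine mul_le_mul_of_nonneg_left ?_ ((bump n).nonneg_normed _)
      refine (hf _ _).trans ?_
      rw [hD]
      refine mul_le_mul_of_nonneg_left ?_ hΛ
      have : z + shf n - w - z = shf n - w := by abel
      rw [this]
      refine (norm_sub_le _ _).trans ?_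
      rw [norm_shf]
      linarith
  refine e2.trans (le_of_eq ?_)
  rw [integral_mul_const, (bump n).integral_normed, one_mul]

/-- the positions are controlled by the velocities -/
theorem pos_bound {F W : ℝ × ℝ → ℝ} (hF : WD (strip T₁) (0, 1) F W) {Λ : ℝ} (hΛ : 0 ≤ Λ)
    (lipF : ∀ z w, |F z - F w| ≤ Λ * ‖z - w‖) (mW : Measurable W) {C : ℝ} (bW : ∀ z, |W z| ≤ C)
    {t : ℝ} (ht0 : 0 ≤ t) (htT : t < T₁) (a : ℝ) :
    ∫ y in Icc (-a) a, |F (y, t)| ≤ (∫ y in Icc (-a) a, |F (y, 0)|)
      + ∫ z in Icc (-a) a ×ˢ Icc 0 t, |W z| := by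
  have cF : Continuous F := by
    refine (LipschitzWith.of_dist_le_mul (K := ⟨Λ, hΛ⟩) fun z w => ?_).continuous
    rw [Real.dist_eq, dist_eq_norm]
    exact lipF z w
  have lF : LocallyIntegrable F := cF.locallyIntegrable
  have lW : LocallyIntegrable W := locInt_bd mW bW
  have sF : ∀ n, ContDiff ℝ ∞ (smol n F) := fun n => contDiff_smol n lF
  have sW : ∀ n, ContDiff ℝ ∞ (smol n W) := fun n => contDiff_smol n lW
  have hK : IsCompact (Icc (-a) a ×ˢ Icc 0 t) := isCompact_Icc.prod isCompact_Icc
  have hlim : ∀ z, Tendsto (fun n => smol n F z) atTop (𝓝 (F z)) := by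
    intro z
    rw [tendsto_iff_norm_sub_tendsto_zero]
    have h1 : Tendsto (fun n => Λ * (3 * (bump n).rOut)) atTop (𝓝 0) := by
      simpa using (tendsto_bump.const_mul 3).const_mul Λ
    exact squeeze_zero (fun n => norm_nonneg _) (fun n => smol_close hΛ lipF n z) h1
  -- the smooth inequality
  have h3 : Tendsto (fun n => 3 * (bump n).rOut) atTop (𝓝 0) := by
    simpa using tendsto_bump.const_mul 3
  have key : ∀ᶠ n in atTop, ∫ y in Icc (-a) a, |smol n F (y, t)| ≤
      (∫ y in Icc (-a) a, |smol n F (y, 0)|) + ∫ z in Icc (-a) a ×ˢ Icc 0 t, |smol n W z| := by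
    filter_upwards [h3.eventually (gt_mem_nhds (sub_pos.2 htT))] with n hn
    have hr := rOut_pos' n
    have hder : ∀ y s : ℝ, 0 ≤ s → s ≤ t → fderiv ℝ (smol n F) (y, s) (0, 1) =
        smol n W (y, s) := by
      intro y s hs0 hst
      refine hF.fd lF ?_
      intro z hz
      have h2 : |(z - ((y, s) + shf n)).2| ≤ (bump n).rOut := by
        have := Metric.mem_closedBall.1 hz
        rw [dist_eq_norm] at this
        exact (norm_snd_le _).trans this
      have h4 : (z - ((y, s) + shf n)).2 = z.2 - s - 2 * (bump n).rOut := by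
        simp [shf]
        ring
      rw [h4, abs_le] at h2
      constructor
      · show 0 < z.2
        linarith [h2.1]
      · show z.2 < T₁
        linarith [h2.2]
    have cWt : ∀ y : ℝ, Continuous (fun s : ℝ => smol n W (y, s)) := fun y =>
      (sW n).continuous.comp (by fun_prop)
    have e1 : ∀ y : ℝ, smol n F (y, t) - smol n F (y, 0) = ∫ s in (0 : ℝ)..t, smol n W (y, s) := by
      intro y
      symm
      refine intervalIntegral.integral_eq_sub_of_hasDerivAt (f := fun s => smol n F (y, s)) ?_ ?_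
      · intro s hs
        rw [uIcc_of_le ht0] at hs
        have h5 := hasDerivAt_slice_t ((sF n).differentiable (by simp)) y s
        rw [dt, hder y s hs.1 hs.2] at h5
        exact h5
      · exact (cWt y).intervalIntegrable _ _
    have e2 : ∀ y : ℝ, |smol n F (y, t)| ≤ |smol n F (y, 0)| + ∫ s in Icc 0 t, |smol n W (y, s)| := by
      intro y
      have h6 : |∫ s in (0 : ℝ)..t, smol n W (y, s)| ≤ ∫ s in (0 : ℝ)..t, |smol n W (y, s)| :=
        intervalIntegral.abs_integral_le_integral_abs ht0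
      rw [← e1, intervalIntegral.integral_of_le ht0, ← integral_Icc_eq_integral_Ioc] at h6
      have h7 := abs_add_le (smol n F (y, 0)) (smol n F (y, t) - smol n F (y, 0))
      rw [add_sub_cancel] at h7
      linarith
    have i1 : IntegrableOn (fun z => |smol n W z|) (Icc (-a) a ×ˢ Icc 0 t)
        (volume.prod volume) := by
      rw [← Measure.volume_eq_prod]
      exact (sW n).continuous.abs.continuousOn.integrableOn_compact hK
    rw [Measure.volume_eq_prod, setIntegral_prod _ i1]
    have i2 : IntegrableOn (fun y : ℝ => |smol n F (y, t)|) (Icc (-a) a) :=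
      (((sF n).continuous.comp (by fun_prop : Continuous (fun y : ℝ => (y, t)))).abs).continuousOn
        |>.integrableOn_compact isCompact_Icc
    have i3 : IntegrableOn (fun y : ℝ => |smol n F (y, 0)|) (Icc (-a) a) :=
      (((sF n).continuous.comp (by fun_prop : Continuous (fun y : ℝ => (y, (0 : ℝ))))).abs).continuousOn
        |>.integrableOn_compact isCompact_Icc
    have i4 : IntegrableOn (fun y : ℝ => ∫ s in Icc 0 t, |smol n W (y, s)|) (Icc (-a) a) := by
      have := i1
      rw [IntegrableOn, ← Measure.prod_restrict] at this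
      exact this.integral_prod_left
    rw [← integral_add i3 i4]
    exact integral_mono i2 (i3.add i4) fun y => e2 y
  -- pass to the limit
  have bsF : ∀ n, ∀ z : ℝ × ℝ, |smol n F z| ≤ |F z| + Λ * 3 := by
    intro n z
    have h1 := smol_close hΛ lipF n z
    have h2 := rOut_le_one n
    have h4 : Λ * (3 * (bump n).rOut) ≤ Λ * 3 := by
      refine mul_le_mul_of_nonneg_left ?_ hΛ
      linarith
    have h5 := abs_add_le (smol n F z - F z) (F z)
    rw [sub_add_cancel] at h5
    linarith
  have lim1 : ∀ τ : ℝ, Tendsto (fun n => ∫ y in Icc (-a) a, |smol n F (y, τ)|) atTop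
      (𝓝 (∫ y in Icc (-a) a, |F (y, τ)|)) := by
    intro τ
    refine tendsto_integral_of_dominated_convergence (fun y => |F (y, τ)| + Λ * 3) ?_ ?_ ?_ ?_
    · intro n
      exact (((sF n).continuous.comp
        (by fun_prop : Continuous (fun y : ℝ => (y, τ)))).abs).aestronglyMeasurable
    · exact (((cF.comp (by fun_prop : Continuous (fun y : ℝ => (y, τ)))).abs.add
        continuous_const).continuousOn).integrableOn_compact isCompact_Icc
    · intro n
      refine Filter.Eventually.of_forall fun y => ?_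
      rw [Real.norm_eq_abs, abs_abs]
      exact bsF n (y, τ)
    · exact Filter.Eventually.of_forall fun y => (hlim (y, τ)).abs
  have lim2 : Tendsto (fun n => ∫ z in Icc (-a) a ×ˢ Icc 0 t, |smol n W z|) atTop
      (𝓝 (∫ z in Icc (-a) a ×ˢ Icc 0 t, |W z|)) := by
    have h1 := tendsto_L1_smol lW hK
    rw [tendsto_iff_norm_sub_tendsto_zero]
    refine squeeze_zero (fun n => norm_nonneg _) (fun n => ?_) h1
    have i1 : IntegrableOn (fun z => smol n W z) (Icc (-a) a ×ˢ Icc 0 t) :=
      (sW n).continuous.continuousOn.integrableOn_compact hK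
    have i2 : IntegrableOn W (Icc (-a) a ×ˢ Icc 0 t) := lW.integrableOn_isCompact hK
    rw [← integral_sub i1.abs i2.abs]
    refine (norm_integral_le_integral_norm _).trans ?_
    refine integral_mono (i1.abs.sub i2.abs).norm (i1.sub i2).abs fun z => ?_
    exact abs_abs_sub_abs_le_abs_sub _ _
  exact le_of_tendsto_of_tendsto (lim1 t) ((lim1 0).add lim2) key

/-- from integrals to pointwise bounds -/
lemma sup_bound {f : ℝ → ℝ} {Λ : ℝ} (hΛ : 0 ≤ Λ) (lipf : ∀ y y', |f y - f y'| ≤ Λ * |y - y'|)
    {a ρ : ℝ} (hρ : 0 < ρ) {y : ℝ} (hy : y ∈ Icc (-a) a) :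
    |f y| ≤ (∫ y' in Icc (-(a + ρ)) (a + ρ), |f y'|) / (2 * ρ) + Λ * ρ := by
  have cf : Continuous f := by
    refine (LipschitzWith.of_dist_le_mul (K := ⟨Λ, hΛ⟩) fun z w => ?_).continuous
    rw [Real.dist_eq, Real.dist_eq]
    exact lipf z w
  have h1 : ∫ y' in Icc (y - ρ) (y + ρ), |f y'| ≤ ∫ y' in Icc (-(a + ρ)) (a + ρ), |f y'| := by
    refine setIntegral_mono_set ?_ (Filter.Eventually.of_forall fun _ => abs_nonneg _) ?_
    · exact cf.abs.continuousOn.integrableOn_compact isCompact_Icc
    · refine Filter.Eventually.of_forall (Icc_subset_Icc ?_ ?_) <;> linarith [hy.1, hy.2]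
  have h2 : ∫ y' in Icc (y - ρ) (y + ρ), (|f y| - Λ * ρ) ≤ ∫ y' in Icc (y - ρ) (y + ρ), |f y'| := by
    refine setIntegral_mono_on (integrableOn_const (by simp))
      (cf.abs.continuousOn.integrableOn_compact isCompact_Icc) measurableSet_Icc ?_
    intro y' hy'
    have k1 := lipf y y'
    have k2 : |y - y'| ≤ ρ := by
      rw [abs_le]
      constructor <;> linarith [hy'.1, hy'.2]
    have k3 := mul_le_mul_of_nonneg_left k2 hΛ
    have k4 := abs_sub_abs_le_abs_sub (f y) (f y')
    linarith
  rw [setIntegral_const, smul_eq_mul, Measure.real, Real.volume_Icc,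
    ENNReal.toReal_ofReal (by linarith)] at h2
  have h3 : (y + ρ - (y - ρ)) * (|f y| - Λ * ρ) = (2 * ρ) * (|f y| - Λ * ρ) := by ring
  rw [h3] at h2
  have h4 : |f y| - Λ * ρ ≤ (∫ y' in Icc (-(a + ρ)) (a + ρ), |f y'|) / (2 * ρ) := by
    rw [le_div_iff₀ (by positivity)]
    linarith
  linarith

end

end Pool.Agent.helper23_Euler
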