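import Mathlib
import Pool.Agent.helper23_Euler.Pos
import Pool.Agent.helper23_Euler.Jump

open MeasureTheory Set Filter Topology
open scoped ContDiff Convolution ENNReal NNReal

namespace Pool.Agent.helper23_Euler

noncomputable section

variable {γ T T₁ : ℝ} {B : Bds} {r u p r' u' p' : ℝ × ℝ → ℝ} {r0 u0 p0 r0' u0' p0' : ℝ → ℝ}
  {Y X Y' X' : ℝ × ℝ → ℝ}

lemma LX.low0 (h : LX B T₁ r r0 Y X) (x x' : ℝ) : B.ra * |x - x'| ≤ |Y0 r0 x - Y0 r0 x'| := by
  have e : ∀ x, Y (x, 0) = Y0 r0 x := fun x => h.lab.init x 0 le_rfl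
  rw [← e, ← e]
  rcases le_total x x' with hc | hc
  · have := h.lab.low x x' 0 hc
    rw [abs_sub_comm, abs_of_nonneg (by linarith), abs_sub_comm]
    exact this.trans (le_abs_self _)
  · have := h.lab.low x' x 0 hc
    rw [abs_of_nonneg (by linarith)]
    exact this.trans (le_abs_self _)

lemma LX.right0 (h : LX B T₁ r r0 Y X) (y : ℝ) : Y0 r0 (X (y, 0)) = y := by
  have := h.inv.right y 0
  rwa [h.lab.init _ 0 le_rfl] at this

lemma LX.left0 (h : LX B T₁ r r0 Y X) (x : ℝ) : X (Y0 r0 x, 0) = x := by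
  have := h.inv.left x 0
  rwa [h.lab.init _ 0 le_rfl] at this

lemma LX.X_le (h : LX B T₁ r r0 Y X) (y : ℝ) : |X (y, 0)| ≤ B.LX * |y| := by
  have := h.inv.lip (y, 0) (0, 0)
  rwa [h.X00, sub_zero, show ((y, 0) : ℝ × ℝ) - (0, 0) = (y, 0) by simp, Prod.norm_def, norm_zero,
    max_eq_left (norm_nonneg _)] at this

lemma Y0_diff (m1 : Measurable r0) (m2 : Measurable r0') {C : ℝ} (b1 : ∀ x, |r0 x| ≤ C)
    (b2 : ∀ x, |r0' x| ≤ C) {R δ x : ℝ} (hx : |x| ≤ R)
    (h : ∫ x in Icc (-R) R, |r0 x - r0' x| ≤ δ) : |Y0 r0 x - Y0 r0' x| ≤ δ := by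
  have i1 : IntervalIntegrable r0 volume 0 x :=
    (Measure.integrableOn_of_bounded (M := C) (by simp) m1.aestronglyMeasurable
      (Filter.Eventually.of_forall fun s => b1 s)).intervalIntegrable
  have i2 : IntervalIntegrable r0' volume 0 x :=
    (Measure.integrableOn_of_bounded (M := C) (by simp) m2.aestronglyMeasurable
      (Filter.Eventually.of_forall fun s => b2 s)).intervalIntegrable
  unfold Y0
  rw [← intervalIntegral.integral_sub i1 i2]
  have k := intervalIntegral.norm_integral_le_integral_norm_uIoc (f := fun s => r0 s - r0' s)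
    (a := 0) (b := x) (μ := volume)
  refine k.trans (le_trans ?_ h)
  simp only [Real.norm_eq_abs]
  refine setIntegral_mono_set ?_ (Filter.Eventually.of_forall fun _ => abs_nonneg _) ?_
  · exact integrableOn_bd (m1.sub m2).abs (C := C + C) (fun x => by
      rw [abs_abs]
      exact (abs_sub _ _).trans (add_le_add (b1 _) (b2 _))) _ _
  · refine Filter.Eventually.of_forall fun s hs => ?_
    rw [abs_le] at hx
    rcases le_total 0 x with hc | hc
    · have hs' : s ∈ Ioc 0 x := by rwa [uIoc_of_le hc] at hs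
      exact ⟨by linarith [hs'.1, abs_nonneg x, hx.2], by linarith [hs'.2, hx.2]⟩
    · have hs' : s ∈ Ioc x 0 := by rwa [uIoc_of_ge hc] at hs
      exact ⟨by linarith [hs'.1, hx.1], by linarith [hs'.2, hx.1]⟩

lemma pos0 (h' : LX B T₁ r' r0' Y' X') {x δ : ℝ}
    (h : |Y0 r0 x - Y0 r0' x| ≤ δ) : |X' (Y0 r0 x, 0) - x| ≤ δ / B.ra := by
  have k := h'.low0 (X' (Y0 r0 x, 0)) x
  rw [h'.right0] at k
  rw [le_div_iff₀ B.ra_pos]
  linarith

lemma stp_nonneg (a b s : ℝ) : 0 ≤ stp a b s := Real.smoothTransition.nonneg _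

lemma stp_le_one (a b s : ℝ) : stp a b s ≤ 1 := Real.smoothTransition.le_one _

/-- the difference of the data, at corresponding positions -/
lemma data_shift {M : ℝ} {f : ℝ → ℝ} {f0 m : ℝ → ℝ} {S : Set ℝ} (hO : Osc M f0 m S)
    (mf : Measurable f) (mf0 : Measurable f0) {C : ℝ} (bf : ∀ x, |f x| ≤ C)
    (bf0 : ∀ x, |f0 x| ≤ C) {Z : ℝ → ℝ} (mZ : Measurable Z) (hZ : ∀ᵐ x, Z x ∈ S) {R d : ℝ}
    (hd : 0 ≤ d) (hR : 0 ≤ R) (hZd : ∀ x ∈ Icc (-R) R, |Z x - x| ≤ d) :
    ∫ x in Icc (-R) R, |f x - f0 (Z x)| ≤ (∫ x in Icc (-R) R, |f x - f0 x|) + 2 * d * M := by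
  have i1 : IntegrableOn (fun x => |f x - f0 x|) (Icc (-R) R) :=
    integrableOn_bd (mf.sub mf0).abs (C := C + C) (fun x => by
      rw [abs_abs]
      exact (abs_sub _ _).trans (add_le_add (bf _) (bf0 _))) _ _
  have i2 : IntegrableOn (fun x => |f x - f0 (Z x)|) (Icc (-R) R) :=
    integrableOn_bd (mf.sub (mf0.comp mZ)).abs (C := C + C) (fun x => by
      rw [abs_abs]
      exact (abs_sub _ _).trans (add_le_add (bf _) (bf0 _))) _ _
  have hm := hO.mono
  have i3 : IntegrableOn (fun x => m (x + d) - m (x - d)) (Icc (-R) R) := by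
    refine integrableOn_bd (((hm.measurable.comp (measurable_id.add_const d))).sub
      (hm.measurable.comp (measurable_id.sub_const d))) (C := M) (fun x => ?_) _ _
    have k1 := hO.bd (x + d)
    have k2 := hO.bd (x - d)
    show |m (x + d) - m (x - d)| ≤ M
    rw [abs_le]
    constructor <;> linarith
  refine le_trans ?_ (add_le_add_right (mono_shift2 hm hO.bd hd hR) _)
  rw [← integral_add i1 i3]
  refine integral_mono_ae i2 (i1.add i3) ?_
  rw [Filter.EventuallyLE, ae_restrict_iff' measurableSet_Icc]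
  filter_upwards [hZ, hO.full] with x h1 h2 hx
  have k := hO.le (c := x) h2 h1 (by rw [sub_self, abs_zero]; exact hd) (hZd x hx)
  exact (abs_sub_le _ (f0 x) _).trans (add_le_add le_rfl k)

/-- the initial relative energy -/
theorem init_term (hγ : 1 < γ) (B : Bds) {M : ℝ} (hM : 0 ≤ M) : ∃ C1, 0 ≤ C1 ∧
    ∀ {T₁ : ℝ} {r r' : ℝ × ℝ → ℝ} {r0 u0 p0 r0' u0' p0' : ℝ → ℝ} {Y X Y' X' : ℝ × ℝ → ℝ},
    LX B T₁ r r0 Y X → LX B T₁ r' r0' Y' X' → Measurable r0 → Measurable u0 → Measurable p0 →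
    Measurable r0' → Measurable u0' → Measurable p0' →
    (∀ x, B.In (r0 x) (u0 x) (p0 x)) → (∀ x, B.In (r0' x) (u0' x) (p0' x)) →
    (∃ m S, Osc M r0' m S) → (∃ m S, Osc M u0' m S) → (∃ m S, Osc M p0' m S) →
    ∀ {K a b R δ : ℝ}, a < b → B.LX * b ≤ R → 0 ≤ R →
    ∫ x in Icc (-R) R, (|r0 x - r0' x| + |u0 x - u0' x| + |p0 x - p0' x|) ≤ δ →
    ∫ x, r0 x * E00 γ r0 u0 p0 (fun y => r0' (X' (y, 0))) (fun y => u0' (X' (y, 0)))
      (fun y => p0' (X' (y, 0))) x * stp a b (phs K (Y0 r0 x, 0)) ≤ C1 * δ := by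
  have hγ' : 0 < γ - 1 := by linarith
  have hra := B.ra_pos
  have hrb := B.rb_pos
  have hpa := B.pa_pos
  have hub := B.ub_nonneg
  have hpb : 0 < B.pb := lt_of_lt_of_le hpa B.pab
  have h1pos : 0 < B.pa / ((γ - 1) * B.rb) := by positivity
  obtain ⟨CL, hCL0, hCL⟩ := relE_lip hγ B (h2 := B.pb / ((γ - 1) * B.ra)) h1pos
  obtain ⟨D, hD0, hD⟩ := exists_EE_bound hγ B
  refine ⟨B.rb * (CL * (1 + 6 * M / B.ra)), by positivity, ?_⟩
  intro T₁ r r' r0 u0 p0 r0' u0' p0' Y X Y' X' hX hX' mr0 mu0 mp0 mr0' mu0' mp0' box0 box0' Or Ou Op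
    K a b R δ hab hbR hR0 hδ
  obtain ⟨mr, Sr, Or⟩ := Or
  obtain ⟨mu, Su, Ou⟩ := Ou
  obtain ⟨mp, Sp, Op⟩ := Op
  have s0 := hX.slc0 mr0 (fun x => (box0 x).1.1) (fun x => (box0 x).1.2)
  have s0' := hX'.slc0 mr0' (fun x => (box0' x).1.1) (fun x => (box0' x).1.2)
  obtain ⟨Z, hZ⟩ : ∃ Z : ℝ → ℝ, Z = fun x => X' (Y0 r0 x, 0) := ⟨_, rfl⟩
  have mZ : Measurable Z := by
    rw [hZ]
    exact (s0'.cX.comp s0.cY).measurable
  have hZS : ∀ {S : Set ℝ}, (∀ᵐ x, x ∈ S) → ∀ᵐ x, Z x ∈ S := by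
    intro S hS
    rw [hZ]
    exact s0.ae' (s0'.ae hS)
  -- bounds
  have br : ∀ {r u p : ℝ}, B.In r u p → |r| ≤ B.rb + B.ub + B.pb := fun h => by
    have := h.abs_r
    linarith
  have bu : ∀ {r u p : ℝ}, B.In r u p → |u| ≤ B.rb + B.ub + B.pb := fun h => by
    have := h.2.1
    linarith
  have bp : ∀ {r u p : ℝ}, B.In r u p → |p| ≤ B.rb + B.ub + B.pb := fun h => by
    have := h.2.2.2
    rw [abs_of_pos h.p_pos]
    linarith
  have ii : ∀ {f g : ℝ → ℝ}, Measurable f → Measurable g →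
      (∀ x, |f x| ≤ B.rb + B.ub + B.pb) → (∀ x, |g x| ≤ B.rb + B.ub + B.pb) →
      IntegrableOn (fun x => |f x - g x|) (Icc (-R) R) := fun hf hg h1 h2 =>
    integrableOn_bd (hf.sub hg).abs
      (C := (B.rb + B.ub + B.pb) + (B.rb + B.ub + B.pb)) (fun x => by
      rw [abs_abs]
      exact (abs_sub _ _).trans (add_le_add (h1 _) (h2 _))) _ _
  have ir := ii mr0 mr0' (fun x => br (box0 x)) (fun x => br (box0' x))
  have iu := ii mu0 mu0' (fun x => bu (box0 x)) (fun x => bu (box0' x))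
  have ip := ii mp0 mp0' (fun x => bp (box0 x)) (fun x => bp (box0' x))
  have iru : IntegrableOn (fun x => |r0 x - r0' x| + |u0 x - u0' x|) (Icc (-R) R) := ir.add iu
  rw [integral_add iru ip, integral_add ir iu] at hδ
  have n1 : 0 ≤ ∫ x in Icc (-R) R, |r0 x - r0' x| := integral_nonneg fun _ => abs_nonneg _
  have n2 : 0 ≤ ∫ x in Icc (-R) R, |u0 x - u0' x| := integral_nonneg fun _ => abs_nonneg _
  have n3 : 0 ≤ ∫ x in Icc (-R) R, |p0 x - p0' x| := integral_nonneg fun _ => abs_nonneg _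
  have hδ0 : 0 ≤ δ := by linarith
  have hd : 0 ≤ δ / B.ra := by positivity
  have hZd : ∀ x ∈ Icc (-R) R, |Z x - x| ≤ δ / B.ra := by
    intro x hx
    rw [hZ]
    refine pos0 hX' ?_
    exact Y0_diff mr0 mr0' (C := B.rb) (fun x => (box0 x).abs_r) (fun x => (box0' x).abs_r)
      (abs_le.2 hx) (by linarith)
  have qr := data_shift Or mr0 mr0' (fun x => br (box0 x)) (fun x => br (box0' x)) mZ
    (hZS Or.full) hd hR0 hZd
  have qu := data_shift Ou mu0 mu0' (fun x => bu (box0 x)) (fun x => bu (box0' x)) mZ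
    (hZS Ou.full) hd hR0 hZd
  have qp := data_shift Op mp0 mp0' (fun x => bp (box0 x)) (fun x => bp (box0' x)) mZ
    (hZS Op.full) hd hR0 hZd
  have jr : IntegrableOn (fun x => |r0 x - r0' (Z x)|) (Icc (-R) R) := ii mr0 (mr0'.comp mZ) (fun x => br (box0 x)) (fun x => br (box0' _))
  have ju : IntegrableOn (fun x => |u0 x - u0' (Z x)|) (Icc (-R) R) := ii mu0 (mu0'.comp mZ) (fun x => bu (box0 x)) (fun x => bu (box0' _))
  have jp : IntegrableOn (fun x => |p0 x - p0' (Z x)|) (Icc (-R) R) := ii mp0 (mp0'.comp mZ) (fun x => bp (box0 x)) (fun x => bp (box0' _))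
  have jall : IntegrableOn (fun x => B.rb * (CL * (|r0 x - r0' (Z x)| + |u0 x - u0' (Z x)| +
      |p0 x - p0' (Z x)|))) (Icc (-R) R) := (((jr.add ju).add jp).const_mul CL).const_mul B.rb
  -- the pointwise bound
  have e1 : ∫ x, r0 x * E00 γ r0 u0 p0 (fun y => r0' (X' (y, 0))) (fun y => u0' (X' (y, 0)))
      (fun y => p0' (X' (y, 0))) x * stp a b (phs K (Y0 r0 x, 0)) ≤
      ∫ x in Icc (-R) R, B.rb * (CL * (|r0 x - r0' (Z x)| + |u0 x - u0' (Z x)| +
      |p0 x - p0' (Z x)|)) := by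
    rw [← integral_indicator measurableSet_Icc]
    have hpt : ∀ x, r0 x * E00 γ r0 u0 p0 (fun y => r0' (X' (y, 0))) (fun y => u0' (X' (y, 0)))
        (fun y => p0' (X' (y, 0))) x * stp a b (phs K (Y0 r0 x, 0)) ≤
        (Icc (-R) R).indicator (fun x => B.rb * (CL * (|r0 x - r0' (Z x)| + |u0 x - u0' (Z x)| +
        |p0 x - p0' (Z x)|))) x := by
      intro x
      have hr := (box0 x).r_pos
      by_cases hx : x ∈ Icc (-R) R
      · rw [indicator_of_mem hx]
        have f1 : E00 γ r0 u0 p0 (fun y => r0' (X' (y, 0))) (fun y => u0' (X' (y, 0)))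
            (fun y => p0' (X' (y, 0))) x ≤ CL * (|r0 x - r0' (Z x)| + |u0 x - u0' (Z x)| +
            |p0 x - p0' (Z x)|) := by
          have g1 := en_bds hγ (box0' (Z x))
          have bx := box0' (Z x)
          have g2 := hCL (r0 x) (u0 x) (p0 x) (u0' (Z x)) (p0' (Z x))
            (en γ (r0' (Z x)) (p0' (Z x))) (r0' (Z x)) (u0' (Z x)) (p0' (Z x)) (u0' (Z x))
            (p0' (Z x)) (en γ (r0' (Z x)) (p0' (Z x))) (box0 x) bx.2.1 bx.2.2.1 bx.2.2.2 g1.1 g1.2
            bx bx.2.1 bx.2.2.1 bx.2.2.2 g1.1 g1.2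
          rw [relE_self hγ bx.r_pos bx.p_pos] at g2
          simp only [sub_self, abs_zero, add_zero, sub_zero] at g2
          refine le_trans ?_ ((le_abs_self _).trans g2)
          rw [E00, hZ]
        have f2 : 0 ≤ CL * (|r0 x - r0' (Z x)| + |u0 x - u0' (Z x)| + |p0 x - p0' (Z x)|) := by
          positivity
        have f3 := stp_nonneg a b (phs K (Y0 r0 x, 0))
        have f4 := stp_le_one a b (phs K (Y0 r0 x, 0))
        calc _ ≤ r0 x * (CL * (|r0 x - r0' (Z x)| + |u0 x - u0' (Z x)| + |p0 x - p0' (Z x)|)) *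
              stp a b (phs K (Y0 r0 x, 0)) :=
              mul_le_mul_of_nonneg_right (mul_le_mul_of_nonneg_left f1 hr.le) f3
          _ ≤ r0 x * (CL * (|r0 x - r0' (Z x)| + |u0 x - u0' (Z x)| + |p0 x - p0' (Z x)|)) * 1 :=
              mul_le_mul_of_nonneg_left f4 (mul_nonneg hr.le f2)
          _ ≤ _ := by
              rw [mul_one]
              exact mul_le_mul_of_nonneg_right (box0 x).1.2 f2
      · rw [indicator_of_notMem hx, stp_zero hab, mul_zero]
        by_contra hlt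
        rw [not_le] at hlt
        apply hx
        rw [phs, mul_zero, add_zero] at hlt
        have k1 := (abs_le_sqrt_one (Y0 r0 x)).trans hlt.le
        have k2 := hX.X_le (Y0 r0 x)
        rw [hX.left0] at k2
        exact abs_le.1 (k2.trans ((mul_le_mul_of_nonneg_left k1 B.LX_nonneg).trans hbR))
    have mE : Measurable (fun x => r0 x * E00 γ r0 u0 p0 (fun y => r0' (X' (y, 0)))
        (fun y => u0' (X' (y, 0))) (fun y => p0' (X' (y, 0))) x *
        stp a b (phs K (Y0 r0 x, 0))) := by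
      have m1 : Measurable (E00 γ r0 u0 p0 (fun y => r0' (X' (y, 0)))
        (fun y => u0' (X' (y, 0))) (fun y => p0' (X' (y, 0)))) := by
        have := measurable_relE (γ := γ) mr0 mu0 mp0 (mr0'.comp mZ) (mu0'.comp mZ) (mp0'.comp mZ)
        rw [hZ] at this
        exact this
      have m2 : Measurable (fun x => stp a b (phs K (Y0 r0 x, 0))) := by
        have c1 : Continuous (fun y : ℝ => stp a b (phs K (y, 0))) :=
          (stp_smooth a b).continuous.comp ((phs_smooth K).continuous.comp (by fun_prop))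
        exact c1.measurable.comp s0.cY.measurable
      exact (mr0.mul m1).mul m2
    have hbd : ∀ x, |r0 x * E00 γ r0 u0 p0 (fun y => r0' (X' (y, 0))) (fun y => u0' (X' (y, 0)))
        (fun y => p0' (X' (y, 0))) x * stp a b (phs K (Y0 r0 x, 0))| ≤
        (Icc (-R) R).indicator (fun _ => B.rb * D) x := by
      intro x
      have hr := (box0 x).r_pos
      by_cases hx : x ∈ Icc (-R) R
      · rw [indicator_of_mem hx, abs_mul, abs_mul]
        have f1 : |E00 γ r0 u0 p0 (fun y => r0' (X' (y, 0))) (fun y => u0' (X' (y, 0)))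
            (fun y => p0' (X' (y, 0))) x| ≤ D := hD _ _ _ _ _ _ (box0 x) (box0' _)
        have f3 := stp_nonneg a b (phs K (Y0 r0 x, 0))
        have f4 := stp_le_one a b (phs K (Y0 r0 x, 0))
        rw [abs_of_nonneg f3]
        calc _ ≤ B.rb * D * 1 := by
              refine mul_le_mul ?_ f4 f3 (by positivity)
              exact mul_le_mul (box0 x).abs_r f1 (abs_nonneg _) hrb.le
          _ = _ := mul_one _
      · rw [indicator_of_notMem hx, stp_zero hab, mul_zero, abs_zero]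
        by_contra hlt
        rw [not_le] at hlt
        apply hx
        rw [phs, mul_zero, add_zero] at hlt
        have k1 := (abs_le_sqrt_one (Y0 r0 x)).trans hlt.le
        have k2 := hX.X_le (Y0 r0 x)
        rw [hX.left0] at k2
        exact abs_le.1 (k2.trans ((mul_le_mul_of_nonneg_left k1 B.LX_nonneg).trans hbR))
    have iL : Integrable (fun x => r0 x * E00 γ r0 u0 p0 (fun y => r0' (X' (y, 0)))
        (fun y => u0' (X' (y, 0))) (fun y => p0' (X' (y, 0))) x *
        stp a b (phs K (Y0 r0 x, 0))) := by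
      refine Integrable.mono' (g := (Icc (-R) R).indicator (fun _ => B.rb * D)) ?_
        mE.aestronglyMeasurable (Filter.Eventually.of_forall hbd)
      exact (integrableOn_const (by simp)).integrable_indicator measurableSet_Icc
    exact integral_mono iL (jall.integrable_indicator measurableSet_Icc) hpt
  refine e1.trans ?_
  have jru : IntegrableOn (fun x => |r0 x - r0' (Z x)| + |u0 x - u0' (Z x)|) (Icc (-R) R) :=
    jr.add ju
  rw [integral_const_mul, integral_const_mul, integral_add jru jp, integral_add jr ju]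
  rw [mul_assoc B.rb]
  refine mul_le_mul_of_nonneg_left ?_ hrb.le
  rw [mul_assoc CL]
  refine mul_le_mul_of_nonneg_left ?_ hCL0
  have e2 : (1 + 6 * M / B.ra) * δ = δ + 3 * (2 * (δ / B.ra) * M) := by
    field_simp
    ring
  have e3 : (1 + 6 * M / B.ra) * δ = δ + 6 * (δ / B.ra) * M := by
    rw [e2]
    ring
  rw [e3]
  linarith

end

end Pool.Agent.helper23_Euler
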