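import Mathlib
import Pool.Agent.helper23_Euler.Stab1

open MeasureTheory Set Filter Topology
open scoped ContDiff Convolution ENNReal NNReal

namespace Pool.Agent.helper23_Euler

noncomputable section

variable {γ T T₁ : ℝ} {B : Bds} {r u p r' u' p' : ℝ × ℝ → ℝ} {r0 u0 p0 r0' u0' p0' : ℝ → ℝ}
  {Y X Y' X' : ℝ × ℝ → ℝ} {N N' : ℕ} {ψ ψ' : ℕ → ℝ × ℝ → ℝ}

lemma Bds.In.abs_p {B : Bds} {r u p : ℝ} (h : B.In r u p) : |p| ≤ B.pb := by
  rw [abs_of_pos h.p_pos]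
  exact h.2.2.2

/-- a shock-free reference solution -/
structure RefP (γ T : ℝ) (B : Bds) (M C0 : ℝ) (r u p : ℝ × ℝ → ℝ) (r0 u0 p0 : ℝ → ℝ) :
    Prop where
  sol : Sol γ T B r u p r0 u0 p0
  br : BR T M r r0
  bu : BR T M u u0
  bp : BR T M p p0
  nn : 0 ≤ C0
  sf : ∃ m g, WeakDx T u m ∧ WeakDx T p g ∧ ∀ᵐ z ∂(volume.restrict (strip T)), -C0 ≤ m z

lemma BR.mono {M : ℝ} {f : ℝ × ℝ → ℝ} {f0 : ℝ → ℝ} (h : BR T M f f0) (hT : T₁ ≤ T) :
    BR T₁ M f f0 where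
  mf := h.mf
  mf0 := h.mf0
  bf := h.bf
  bf0 := h.bf0
  osc := ae_restrict_of_ae_restrict_of_subset (Ioo_subset_Ioo le_rfl hT) h.osc
  osc0 := h.osc0
  trace := h.trace

lemma rel_L1 {f g E : ℝ → ℝ} (mf : Measurable f) (mg : Measurable g) {D : ℝ}
    (bf : ∀ x, |f x| ≤ D) (bg : ∀ x, |g x| ≤ D) {a : ℝ} (ha : 0 ≤ a)
    (iE : IntegrableOn E (Icc (-a) a)) {C κ : ℝ} (hκ : 0 < κ)
    (h : ∀ x, (f x - g x) ^ 2 ≤ C * E x) :
    ∫ x in Icc (-a) a, |f x - g x| ≤ κ * a + C / (2 * κ) * ∫ x in Icc (-a) a, E x := by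
  have i1 : IntegrableOn (fun x => |f x - g x|) (Icc (-a) a) :=
    integrableOn_bd (mf.sub mg).abs (C := D + D) (fun x => by
      rw [abs_abs]
      exact (abs_sub _ _).trans (add_le_add (bf _) (bg _))) _ _
  have i2 : IntegrableOn (fun x => C / (2 * κ) * E x) (Icc (-a) a) := iE.const_mul _
  have i3 : IntegrableOn (fun _ : ℝ => κ / 2) (Icc (-a) a) := integrableOn_const (by simp)
  have e1 : κ * a = ∫ x in Icc (-a) a, κ / 2 := by
    rw [setIntegral_const, smul_eq_mul, Measure.real, Real.volume_Icc,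
      ENNReal.toReal_ofReal (by linarith)]
    ring
  rw [e1, ← integral_const_mul, ← integral_add i3 i2]
  refine integral_mono i1 (i3.add i2) fun x => ?_
  have h1 := h x
  obtain ⟨s, hs⟩ : ∃ s, s = |f x - g x| := ⟨_, rfl⟩
  rw [← sq_abs, ← hs] at h1
  simp only [← hs]
  have h2 : s ≤ κ / 2 + s ^ 2 / (2 * κ) := by
    have : κ / 2 + s ^ 2 / (2 * κ) - s = (κ - s) ^ 2 / (2 * κ) := by
      field_simp
      ring
    have h3 : 0 ≤ (κ - s) ^ 2 / (2 * κ) := by positivity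
    linarith
  have h4 : s ^ 2 / (2 * κ) ≤ C / (2 * κ) * E x := by
    rw [div_mul_eq_mul_div]
    exact div_le_div_of_nonneg_right h1 (by positivity)
  linarith

end

end Pool.Agent.helper23_Euler
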