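import Mathlib
import Pool.Agent.helper23_Euler.Stab2

open MeasureTheory Set Filter Topology
open scoped ContDiff Convolution ENNReal NNReal

namespace Pool.Agent.helper23_Euler

noncomputable section

variable {γ T T₁ : ℝ} {B : Bds} {r u p r' u' p' : ℝ × ℝ → ℝ} {r0 u0 p0 r0' u0' p0' : ℝ → ℝ}
  {Y X Y' X' : ℝ × ℝ → ℝ} {N N' : ℕ} {ψ ψ' : ℕ → ℝ × ℝ → ℝ}

/-- the distance of the positions -/
theorem pos_close (hS : Sol γ T B r u p r0 u0 p0) (hS' : Sol γ T B r' u' p' r0' u0' p0')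
    (hA : Appr T T₁ B r u r0 N ψ Y) (hX : LX B T₁ r r0 Y X)
    (hA' : Appr T T₁ B r' u' r0' N' ψ' Y') (hX' : LX B T₁ r' r0' Y' X')
    {a δ ε R T' : ℝ} (ha : 0 ≤ a) (hT' : T' < T₁) (hR : B.LX * a ≤ R)
    (hδ : ∫ x in Icc (-R) R, |r0 x - r0' x| ≤ δ)
    (hu : ∀ᵐ t : ℝ, 0 < t → t < T' →
      ∫ y in Icc (-a) a, |lc X u (y, t) - lc X' u' (y, t)| ≤ ε) {t : ℝ} (ht0 : 0 < t)
    (htT : t < T') (hε : 0 ≤ ε) :
    ∫ y in Icc (-a) a, |X (y, t) - X' (y, t)| ≤ 2 * a * (δ / B.ra) + T' * ε := by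
  have hra := B.ra_pos
  have hub := B.ub_nonneg
  have hLX := B.LX_nonneg
  have mX : Measurable (fun w : ℝ × ℝ => (X w, w.2)) :=
    hX.inv.cont.measurable.prodMk measurable_snd
  have mX' : Measurable (fun w : ℝ × ℝ => (X' w, w.2)) :=
    hX'.inv.cont.measurable.prodMk measurable_snd
  have mu : Measurable (lc X u) := hS.mu.comp mX
  have mu' : Measurable (lc X' u') := hS'.mu.comp mX'
  have bu : ∀ w, |lc X u w| ≤ B.ub := fun w => (hS.box _).2.1
  have bu' : ∀ w, |lc X' u' w| ≤ B.ub := fun w => (hS'.box _).2.1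
  obtain ⟨W, hW⟩ : ∃ W : ℝ × ℝ → ℝ, W = fun w => lc X u w - lc X' u' w := ⟨_, rfl⟩
  obtain ⟨F, hF⟩ : ∃ F : ℝ × ℝ → ℝ, F = fun w => X w - X' w := ⟨_, rfl⟩
  have mW : Measurable W := by rw [hW]; exact mu.sub mu'
  have bW : ∀ w, |W w| ≤ B.ub + B.ub := fun w => by
    rw [hW]
    exact (abs_sub _ _).trans (add_le_add (bu _) (bu' _))
  have wd : WD (strip T₁) (0, 1) F W := by
    rw [hF, hW]
    exact (hS.wd_pos hA hX).sub (hS'.wd_pos hA' hX') hX.inv.cont.locallyIntegrable
      (locInt_bd mu bu) hX'.inv.cont.locallyIntegrable (locInt_bd mu' bu')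
  have lipF : ∀ z w, |F z - F w| ≤ (2 * B.LX) * ‖z - w‖ := by
    intro z w
    rw [hF]
    have e : X z - X' z - (X w - X' w) = (X z - X w) - (X' z - X' w) := by ring
    simp only []
    rw [e]
    refine (abs_sub _ _).trans ?_
    have k1 := hX.inv.lip z w
    have k2 := hX'.inv.lip z w
    linarith
  have k := pos_bound wd (by positivity) lipF mW bW ht0.le (htT.trans hT') a
  have e1 : ∫ y in Icc (-a) a, |F (y, t)| = ∫ y in Icc (-a) a, |X (y, t) - X' (y, t)| := by
    rw [hF]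
  rw [e1] at k
  refine k.trans (add_le_add ?_ ?_)
  · have k2 : ∫ y in Icc (-a) a, |F (y, 0)| ≤ ∫ y in Icc (-a) a, δ / B.ra := by
      have cF : Continuous F := by
        rw [hF]
        exact hX.inv.cont.sub hX'.inv.cont
      refine setIntegral_mono_on ?_ (integrableOn_const (by simp)) measurableSet_Icc ?_
      · exact (cF.comp (by fun_prop : Continuous (fun y : ℝ => (y, (0 : ℝ))))).abs.continuousOn
          |>.integrableOn_compact isCompact_Icc
      · intro y hy
        have h1 : |y| ≤ a := abs_le.2 hy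
        have h2 : |X (y, 0)| ≤ R :=
          (hX.X_le y).trans ((mul_le_mul_of_nonneg_left h1 hLX).trans hR)
        have h3 := Y0_diff hS.mr0 hS'.mr0 (C := B.rb) (fun x => (hS.box0 x).abs_r)
          (fun x => (hS'.box0 x).abs_r) h2 hδ
        have h4 := pos0 hX' h3
        rw [hX.right0] at h4
        rw [hF, abs_sub_comm]
        exact h4
    refine k2.trans (le_of_eq ?_)
    rw [setIntegral_const, smul_eq_mul, Measure.real, Real.volume_Icc,
      ENNReal.toReal_ofReal (by linarith)]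
    ring
  · have i1 : Integrable (fun z => |W z|)
        ((volume.restrict (Icc (-a) a)).prod (volume.restrict (Icc 0 t))) := by
      rw [Measure.prod_restrict, ← Measure.volume_eq_prod]
      exact ((locInt_bd mW bW).integrableOn_isCompact (isCompact_Icc.prod isCompact_Icc)).abs
    rw [Measure.volume_eq_prod, ← Measure.prod_restrict, integral_prod_symm _ i1]
    have k3 : ∫ s in Icc 0 t, ∫ y in Icc (-a) a, |W (y, s)| ≤ ∫ s in Icc 0 t, ε := by
      refine integral_mono_ae i1.integral_prod_right (integrableOn_const (by simp)) ?_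
      rw [Filter.EventuallyLE, ae_restrict_iff' measurableSet_Icc]
      have h0 : ∀ᵐ s : ℝ, s ≠ 0 := by
        rw [ae_iff]
        simp
      filter_upwards [hu, h0] with s hs hs0 hs1
      have h5 := hs (lt_of_le_of_ne hs1.1 (Ne.symm hs0)) (hs1.2.trans_lt htT)
      rw [hW]
      exact h5
    refine k3.trans ?_
    rw [setIntegral_const, smul_eq_mul, Measure.real, Real.volume_Icc,
      ENNReal.toReal_ofReal (by linarith), sub_zero]
    exact mul_le_mul_of_nonneg_right htT.le hε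

/-- from labels to positions, for one field -/
lemma field_close {M : ℝ} {f f' : ℝ × ℝ → ℝ} (mf : Measurable f) (mf' : Measurable f') {D : ℝ}
    (bf : ∀ z, |f z| ≤ D) (bf' : ∀ z, |f' z| ≤ D) {t : ℝ}
    {m : ℝ → ℝ} {S : Set ℝ} (hO : Osc M (fun x => f' (x, t)) m S)
    {ρ ρ' Yt Xt Yt' Xt' : ℝ → ℝ} (s : Slc B ρ Yt Xt) (s' : Slc B ρ' Yt' Xt')
    {a d R ε : ℝ} (ha : |Yt 0| + B.L * R ≤ a) (ha0 : 0 ≤ a) (hd : 0 ≤ d)
    (hXX : ∀ y ∈ Icc (-a) a, |Xt y - Xt' y| ≤ d)
    (hf : ∫ y in Icc (-a) a, |f (Xt y, t) - f' (Xt' y, t)| ≤ ε) :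
    B.ra * ∫ x in Icc (-R) R, |f (x, t) - f' (x, t)| ≤ ε + B.rb * (2 * d * M) := by
  have mft : Measurable (fun x => f (x, t)) := mf.comp (by fun_prop)
  have mft' : Measurable (fun x => f' (x, t)) := mf'.comp (by fun_prop)
  have mXt := s.cX.measurable
  have mXt' := s'.cX.measurable
  have k1 := s.le_y (f := fun x => |f (x, t) - f' (x, t)|) (fun x => abs_nonneg _)
    (mft.sub mft').abs (C := D + D)
    (fun x => (abs_sub _ _).trans (add_le_add (bf _) (bf' _))) ha
  refine k1.trans ?_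
  have k2 := s'.osc hO mft' (fun x => bf' _) mXt (s.ae hO.full) hd ha0 hXX
  have i1 : IntegrableOn (fun y => |f (Xt y, t) - f' (Xt' y, t)|) (Icc (-a) a) :=
    integrableOn_bd ((mft.comp mXt).sub (mft'.comp mXt')).abs (C := D + D) (fun x => by
      rw [abs_abs]
      exact (abs_sub _ _).trans (add_le_add (bf _) (bf' _))) _ _
  have i2 : IntegrableOn (fun y => |f' (Xt y, t) - f' (Xt' y, t)|) (Icc (-a) a) :=
    integrableOn_bd ((mft'.comp mXt).sub (mft'.comp mXt')).abs (C := D + D) (fun x => by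
      rw [abs_abs]
      exact (abs_sub _ _).trans (add_le_add (bf' _) (bf' _))) _ _
  have i3 : IntegrableOn (fun y => |f (Xt y, t) - f' (Xt y, t)|) (Icc (-a) a) :=
    integrableOn_bd ((mft.comp mXt).sub (mft'.comp mXt)).abs (C := D + D) (fun x => by
      rw [abs_abs]
      exact (abs_sub _ _).trans (add_le_add (bf _) (bf' _))) _ _
  have e : ∫ y in Icc (-a) a, |f (Xt y, t) - f' (Xt y, t)| ≤
      (∫ y in Icc (-a) a, |f (Xt y, t) - f' (Xt' y, t)|) +
      ∫ y in Icc (-a) a, |f' (Xt y, t) - f' (Xt' y, t)| := by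
    rw [← integral_add i1 i2]
    refine integral_mono i3 (i1.add i2) fun y => ?_
    have := abs_sub_le (f (Xt y, t)) (f' (Xt' y, t)) (f' (Xt y, t))
    rw [abs_sub_comm (f' (Xt' y, t))] at this
    exact this
  linarith

end

end Pool.Agent.helper23_Euler
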