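import Mathlib
import Pool.Agent.helper23_Euler.Stab3

open MeasureTheory Set Filter Topology
open scoped ContDiff Convolution ENNReal NNReal

namespace Pool.Agent.helper23_Euler

noncomputable section

variable {γ T T₁ : ℝ} {B : Bds} {r u p r' u' p' : ℝ × ℝ → ℝ} {r0 u0 p0 r0' u0' p0' : ℝ → ℝ}
  {Y X Y' X' : ℝ × ℝ → ℝ} {N N' : ℕ} {ψ ψ' : ℕ → ℝ × ℝ → ℝ}

lemma sqrt_opt {I a b δ : ℝ} (ha : 0 ≤ a) (hδ : 0 ≤ δ)
    (h : ∀ κ : ℝ, 0 < κ → I ≤ κ * a + b / (2 * κ) * δ) : I ≤ (a + b / 2) * Real.sqrt δ := by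
  rcases hδ.eq_or_lt with h0 | h0
  · subst h0
    rw [Real.sqrt_zero, mul_zero]
    refine le_of_forall_pos_le_add fun ε hε => ?_
    have h1 := h (ε / (a + 1)) (by positivity)
    rw [mul_zero, add_zero] at h1
    refine h1.trans ?_
    rw [zero_add, div_mul_eq_mul_div, div_le_iff₀ (by positivity)]
    nlinarith
  · have hs : 0 < Real.sqrt δ := Real.sqrt_pos.2 h0
    have h1 := h (Real.sqrt δ) hs
    have h2 : b / (2 * Real.sqrt δ) * δ = b / 2 * Real.sqrt δ := by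
      have h3 : Real.sqrt δ * Real.sqrt δ = δ := Real.mul_self_sqrt h0.le
      have h4 : b / (2 * Real.sqrt δ) * δ = b / (2 * Real.sqrt δ) * (Real.sqrt δ * Real.sqrt δ) := by
        rw [h3]
      rw [h4]
      field_simp
    rw [h2] at h1
    linarith

/-- variation of the displacement -/
lemma disp_var {ρ ρ' Yt Xt Yt' Xt' : ℝ → ℝ} (s : Slc B ρ Yt Xt) (s' : Slc B ρ' Yt' Xt')
    {a y y' : ℝ} (hy : y ∈ Icc (-a) a) (hy' : y' ∈ Icc (-a) a) :
    |Xt y - Xt' y| ≤ |Xt y' - Xt' y'| +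
      1 / B.ra ^ 2 * ∫ s in Icc (-a) a, |ρ (Xt s) - ρ' (Xt' s)| := by
  have hra := B.ra_pos
  have hrb := B.rb_pos
  have m1 : Measurable (fun z => ρ (Xt z)) := s.mρ.comp s.cX.measurable
  have m2 : Measurable (fun z => ρ' (Xt' z)) := s'.mρ.comp s'.cX.measurable
  have ib : ∀ {ρ Yt Xt : ℝ → ℝ}, Slc B ρ Yt Xt → ∀ z, |1 / ρ (Xt z)| ≤ 1 / B.ra := by
    intro ρ Yt Xt s z
    have h1 := s.pos (Xt z)
    rw [abs_of_pos (by positivity)]
    exact one_div_le_one_div_of_le hra (s.ra _)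
  have i1 : ∀ c d : ℝ, IntegrableOn (fun z => 1 / ρ (Xt z)) (Icc c d) := fun c d =>
    integrableOn_bd (m1.const_div 1) (ib s) _ _
  have i2 : ∀ c d : ℝ, IntegrableOn (fun z => 1 / ρ' (Xt' z)) (Icc c d) := fun c d =>
    integrableOn_bd (m2.const_div 1) (ib s') _ _
  have i3 : IntegrableOn (fun z => |ρ (Xt z) - ρ' (Xt' z)|) (Icc (-a) a) :=
    integrableOn_bd (m1.sub m2).abs (C := B.rb + B.rb) (fun z => by
      rw [abs_abs]
      refine (abs_sub _ _).trans (add_le_add ?_ ?_)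
      · rw [abs_of_pos (s.pos _)]; exact s.rb _
      · rw [abs_of_pos (s'.pos _)]; exact s'.rb _) _ _
  have key : ∀ c d : ℝ, c ≤ d → c ∈ Icc (-a) a → d ∈ Icc (-a) a →
      |(Xt d - Xt' d) - (Xt c - Xt' c)| ≤
        1 / B.ra ^ 2 * ∫ s in Icc (-a) a, |ρ (Xt s) - ρ' (Xt' s)| := by
    intro c d hcd hc hd
    have e1 : (Xt d - Xt' d) - (Xt c - Xt' c) =
        ∫ z in Icc c d, (1 / ρ (Xt z) - 1 / ρ' (Xt' z)) := by
      rw [integral_sub (i1 c d) (i2 c d), ← s.diff hcd, ← s'.diff hcd]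
      ring
    rw [e1, ← integral_const_mul]
    have i4 : IntegrableOn (fun z => 1 / B.ra ^ 2 * |ρ (Xt z) - ρ' (Xt' z)|) (Icc (-a) a) :=
      i3.const_mul _
    have i5 : IntegrableOn (fun z => |1 / ρ (Xt z) - 1 / ρ' (Xt' z)|) (Icc (-a) a) :=
      ((i1 (-a) a).sub (i2 (-a) a)).abs
    refine abs_integral_le_integral_abs.trans ?_
    have e2 : ∫ z in Icc c d, |1 / ρ (Xt z) - 1 / ρ' (Xt' z)| ≤
        ∫ z in Icc (-a) a, |1 / ρ (Xt z) - 1 / ρ' (Xt' z)| :=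
      setIntegral_mono_set i5 (Filter.Eventually.of_forall fun _ => abs_nonneg _)
        (Filter.Eventually.of_forall (Icc_subset_Icc hc.1 hd.2))
    refine e2.trans (integral_mono i5 i4 fun z => ?_)
    have h1 := s.pos (Xt z)
    have h2 := s'.pos (Xt' z)
    have h3 := s.ra (Xt z)
    have h4 := s'.ra (Xt' z)
    have e3 : 1 / ρ (Xt z) - 1 / ρ' (Xt' z) =
        -(ρ (Xt z) - ρ' (Xt' z)) / (ρ (Xt z) * ρ' (Xt' z)) := by
      field_simp
      ring
    simp only []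
    rw [e3, abs_div, abs_neg, abs_of_pos (mul_pos h1 h2), div_eq_mul_one_div, mul_comm]
    refine mul_le_mul_of_nonneg_right ?_ (abs_nonneg _)
    refine one_div_le_one_div_of_le (by positivity) ?_
    rw [sq]
    exact mul_le_mul h3 h4 hra.le h1.le
  rcases le_total y y' with h | h
  · have k := key y y' h hy hy'
    have k2 := abs_sub_abs_le_abs_sub (Xt y - Xt' y) (Xt y' - Xt' y')
    rw [abs_sub_comm (Xt y - Xt' y)] at k2
    linarith
  · have k := key y' y h hy' hy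
    have k2 := abs_sub_abs_le_abs_sub (Xt y - Xt' y) (Xt y' - Xt' y')
    linarith

/-- the displacement is controlled by its mean -/
lemma disp_sup {ρ ρ' Yt Xt Yt' Xt' : ℝ → ℝ} (s : Slc B ρ Yt Xt) (s' : Slc B ρ' Yt' Xt')
    {a y I J : ℝ} (ha : 0 < a) (hy : y ∈ Icc (-a) a)
    (hI : ∫ y in Icc (-a) a, |Xt y - Xt' y| ≤ I)
    (hJ : ∫ s in Icc (-a) a, |ρ (Xt s) - ρ' (Xt' s)| ≤ J) :
    |Xt y - Xt' y| ≤ I / (2 * a) + 1 / B.ra ^ 2 * J := by
  have hra := B.ra_pos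
  have c1 : Continuous (fun y => Xt y - Xt' y) := s.cX.sub s'.cX
  have h1 : ∫ y' in Icc (-a) a, (|Xt y - Xt' y| - 1 / B.ra ^ 2 * J) ≤
      ∫ y in Icc (-a) a, |Xt y - Xt' y| := by
    refine setIntegral_mono_on (integrableOn_const (by simp))
      (c1.abs.continuousOn.integrableOn_compact isCompact_Icc) measurableSet_Icc ?_
    intro y' hy'
    have k := disp_var s s' hy hy'
    have k2 := mul_le_mul_of_nonneg_left hJ (show 0 ≤ 1 / B.ra ^ 2 by positivity)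
    linarith
  rw [setIntegral_const, smul_eq_mul, Measure.real, Real.volume_Icc,
    ENNReal.toReal_ofReal (by linarith)] at h1
  have h2 : |Xt y - Xt' y| - 1 / B.ra ^ 2 * J ≤ I / (2 * a) := by
    rw [le_div_iff₀ (by positivity)]
    nlinarith
  linarith

/-- quantitative stability in label coordinates -/
theorem lab_hol (hγ : 1 < γ) (B : Bds) {M C0 T a : ℝ} (hM : 0 ≤ M) (hC00 : 0 ≤ C0) (hT : 0 < T)
    (ha : 0 ≤ a) :
    ∃ A, 0 ≤ A ∧ ∃ R, 0 ≤ R ∧ ∀ {r' u' p' : ℝ × ℝ → ℝ} {r0' u0' p0' : ℝ → ℝ},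
      RefP γ T B M C0 r' u' p' r0' u0' p0' → ∀ {T₁ T' : ℝ}, 0 < T' → T' < T₁ → T₁ < T →
      ∀ {N' : ℕ} {ψ' : ℕ → ℝ × ℝ → ℝ} {Y' X' : ℝ × ℝ → ℝ},
      Appr T T₁ B r' u' r0' N' ψ' Y' → LX B T₁ r' r0' Y' X' →
      ∀ {r u p : ℝ × ℝ → ℝ} {r0 u0 p0 : ℝ → ℝ} {N : ℕ}
      {ψ : ℕ → ℝ × ℝ → ℝ} {Y X : ℝ × ℝ → ℝ}, Sol γ T B r u p r0 u0 p0 →
      Appr T T₁ B r u r0 N ψ Y → LX B T₁ r r0 Y X → ∀ {δ : ℝ},
      ∫ x in Icc (-R) R, (|r0 x - r0' x| + |u0 x - u0' x| + |p0 x - p0' x|) ≤ δ →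
      ∀ᵐ t : ℝ, 0 < t → t < T' →
        (∫ y in Icc (-a) a, |lc X r (y, t) - lc X' r' (y, t)| ≤ A * Real.sqrt δ) ∧
        (∫ y in Icc (-a) a, |lc X u (y, t) - lc X' u' (y, t)| ≤ A * Real.sqrt δ) ∧
        (∫ y in Icc (-a) a, |lc X p (y, t) - lc X' p' (y, t)| ≤ A * Real.sqrt δ) := by
  have hra := B.ra_pos
  obtain ⟨C, hCo⟩ := exists_coer hγ B
  have hCp := hCo.1
  obtain ⟨C1, hC10, hC1⟩ := init_term hγ B hM
  obtain ⟨D, hD0, hD⟩ := exists_EE_bound hγ B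
  obtain ⟨a1, ha1⟩ : ∃ a1, a1 = 1 + a + C * T := ⟨_, rfl⟩
  have ha1' : 0 < a1 := by rw [ha1]; positivity
  obtain ⟨E1, hE1⟩ : ∃ E1, E1 = Real.exp (C * (C0 / B.ra) * T) * C1 := ⟨_, rfl⟩
  have hE10 : 0 ≤ E1 := by rw [hE1]; positivity
  have hLX := B.LX_nonneg
  refine ⟨a + C * E1 / 2, by positivity, B.LX * (a1 + 1), by positivity, ?_⟩
  intro r' u' p' r0' u0' p0' hR T₁ T' hT'0 hT' hT₁ N' ψ' Y' X' hA' hX' r u p r0 u0 p0 N ψ Y X hS hA
    hX δ hd
  obtain ⟨m, g, hm, hg, hmC⟩ := hR.sf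
  have ref := hR.sol.ref hγ hA' hX' hm hg
  have tr := tr_of_BR hγ (hR.br.mono hT₁.le) (hR.bu.mono hT₁.le) (hR.bp.mono hT₁.le) hX'
    hR.sol.box hR.sol.box0 (hT'0.trans hT')
  have hmC' : ∀ᵐ w, -(C0 / B.ra) ≤ (strip T₁).indicator (fun w => lc X' m w / lc X' r' w) w := by
    have h1 : ∀ᵐ z ∂(volume.restrict (strip T₁)), -C0 ≤ m z := by
      refine ae_restrict_of_ae_restrict_of_subset ?_ hmC
      exact fun z hz => ⟨hz.1, hz.2.trans hT₁⟩
    have h2 := hX'.ae h1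
    rw [ae_restrict_iff' (isOpen_strip T₁).measurableSet] at h2
    filter_upwards [h2] with w hw
    by_cases hws : w ∈ strip T₁
    · rw [indicator_of_mem hws]
      have h3 := hw hws
      have h4 : B.ra ≤ lc X' r' w := hX'.ra _
      have h5 : 0 < lc X' r' w := lt_of_lt_of_le hra h4
      have h6 : -C0 / lc X' r' w ≤ lc X' m w / lc X' r' w :=
        div_le_div_of_nonneg_right h3 h5.le
      refine le_trans ?_ h6
      rw [neg_div]
      exact neg_le_neg (div_le_div_of_nonneg_left hC00 hra h4)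
    · rw [indicator_of_notMem hws]
      have : 0 ≤ C0 / B.ra := by positivity
      linarith
  have hδ0 : 0 ≤ δ := by
    refine le_trans (integral_nonneg fun x => ?_) hd
    show 0 ≤ |r0 x - r0' x| + |u0 x - u0' x| + |p0 x - p0' x|
    positivity
  have cpt := hS.cpt hγ hA hX
  have hC0' : 0 ≤ C0 / B.ra := by positivity
  have gr := cpt.gron hγ hCo hC0' ref tr hmC' (show a1 < a1 + 1 by linarith) hT'
  have init := hC1 hX hX' hS.mr0 hS.mu0 hS.mp0 hR.sol.mr0 hR.sol.mu0 hR.sol.mp0 hS.box0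
    hR.sol.box0 hR.br.osc0 hR.bu.osc0 hR.bp.osc0 (K := C) (show a1 < a1 + 1 by linarith) le_rfl
    (by positivity) hd
  have mE := measurable_EE cpt ref
  have Enn : ∀ w, 0 ≤ EE γ (lc X r) (lc X u) (lc X p) (lc X' r') (lc X' u') (lc X' p') w :=
    fun w => (hCo.2 _ _ _ _ _ _ (cpt.box w) (ref.box w)).2.2.2.2.2
  have Ebd : ∀ w, |EE γ (lc X r) (lc X u) (lc X p) (lc X' r') (lc X' u') (lc X' p') w| ≤ D :=
    fun w => hD _ _ _ _ _ _ (cpt.box w) (ref.box w)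
  filter_upwards [gr] with t ht ht0 htT'
  have htT : t < T := htT'.trans (hT'.trans hT₁)
  have ht' := (ht ht0 htT').trans init
  obtain ⟨E, hE⟩ : ∃ E : ℝ → ℝ, E = fun y => EE γ (lc X r) (lc X u) (lc X p) (lc X' r')
    (lc X' u') (lc X' p') (y, t) := ⟨_, rfl⟩
  have mEt : Measurable E := by rw [hE]; exact mE.comp (by fun_prop)
  have Ent : ∀ y, 0 ≤ E y := fun y => by rw [hE]; exact Enn _
  have Ebt : ∀ y, |E y| ≤ D := fun y => by rw [hE]; exact Ebd _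
  have e0 : ∫ y, EE γ (lc X r) (lc X u) (lc X p) (lc X' r') (lc X' u') (lc X' p') (y, t) *
      stp a1 (a1 + 1) (phs C (y, t)) = ∫ y, E y * stp a1 (a1 + 1) (phs C (y, t)) := by
    rw [hE]
  rw [e0] at ht'
  have iE : IntegrableOn E (Icc (-a) a) := integrableOn_bd mEt Ebt _ _
  have cs : Continuous (fun y : ℝ => stp a1 (a1 + 1) (phs C (y, t))) :=
    (stp_smooth _ _).continuous.comp ((phs_smooth C).continuous.comp (by fun_prop))
  have hcs : HasCompactSupport (fun y : ℝ => stp a1 (a1 + 1) (phs C (y, t))) := by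
    refine HasCompactSupport.of_support_subset_isCompact
      (isCompact_Icc (a := -(a1 + 1)) (b := a1 + 1)) ?_
    intro y hy
    by_contra h'
    apply hy
    apply stp_zero (by linarith)
    by_contra hlt
    rw [not_le, phs] at hlt
    apply h'
    have k1 := abs_le_sqrt_one y
    have k2 : 0 < C * t := by positivity
    exact abs_le.1 (by linarith)
  have iEs : Integrable (fun y => E y * stp a1 (a1 + 1) (phs C (y, t))) :=
    (cs.integrable_of_hasCompactSupport hcs).bdd_mul (c := D) mEt.aestronglyMeasurable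
      (Filter.Eventually.of_forall fun y => Ebt y)
  have e1 : ∫ y in Icc (-a) a, E y ≤ ∫ y, E y * stp a1 (a1 + 1) (phs C (y, t)) := by
    rw [← integral_indicator measurableSet_Icc]
    refine integral_mono (iE.integrable_indicator measurableSet_Icc) iEs fun y => ?_
    by_cases hy : y ∈ Icc (-a) a
    · rw [indicator_of_mem hy, stp_one (by linarith), mul_one]
      rw [phs, ha1]
      have k1 := sqrt_one_le y
      have k2 : |y| ≤ a := abs_le.2 hy
      have k3 : C * t ≤ C * T := mul_le_mul_of_nonneg_left htT.le hCp.le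
      linarith
    · rw [indicator_of_notMem hy]
      exact mul_nonneg (Ent y) (stp_nonneg _ _ _)
  have e2 : ∫ y in Icc (-a) a, E y ≤ E1 * δ := by
    have k1 : Real.exp (-(C * (C0 / B.ra) * t)) * ∫ y in Icc (-a) a, E y ≤ C1 * δ :=
      (mul_le_mul_of_nonneg_left e1 (Real.exp_pos _).le).trans ht'
    have k2 : Real.exp (-(C * (C0 / B.ra) * T)) ≤ Real.exp (-(C * (C0 / B.ra) * t)) := by
      rw [Real.exp_le_exp]
      have : C * (C0 / B.ra) * t ≤ C * (C0 / B.ra) * T :=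
        mul_le_mul_of_nonneg_left htT.le (by positivity)
      linarith
    have k3 : 0 ≤ ∫ y in Icc (-a) a, E y := integral_nonneg fun y => Ent y
    have k4 : Real.exp (-(C * (C0 / B.ra) * T)) * ∫ y in Icc (-a) a, E y ≤ C1 * δ :=
      (mul_le_mul_of_nonneg_right k2 k3).trans k1
    have k5 := mul_le_mul_of_nonneg_left k4 (Real.exp_pos (C * (C0 / B.ra) * T)).le
    rw [← mul_assoc, ← Real.exp_add, add_neg_cancel, Real.exp_zero, one_mul] at k5
    rw [hE1]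
    linarith
  have fin : ∀ I : ℝ, (∀ κ : ℝ, 0 < κ → I ≤ κ * a + C / (2 * κ) * ∫ y in Icc (-a) a, E y) →
      I ≤ (a + C * E1 / 2) * Real.sqrt δ := by
    intro I hI
    refine sqrt_opt ha hδ0 fun κ hκ => ?_
    refine (hI κ hκ).trans (add_le_add le_rfl ?_)
    have : C * E1 / (2 * κ) * δ = C / (2 * κ) * (E1 * δ) := by ring
    rw [this]
    exact mul_le_mul_of_nonneg_left e2 (by positivity)
  refine ⟨fin _ fun κ hκ0 => ?_, fin _ fun κ hκ0 => ?_, fin _ fun κ hκ0 => ?_⟩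
  · refine rel_L1 (cpt.mR.comp (by fun_prop)) (ref.mR.comp (by fun_prop)) (D := B.rb)
      (fun y => (cpt.box _).abs_r) (fun y => (ref.box _).abs_r) ha iE hκ0 fun y => ?_
    rw [hE]
    exact (hCo.2 _ _ _ _ _ _ (cpt.box (y, t)) (ref.box (y, t))).1
  · refine rel_L1 (cpt.mU.comp (by fun_prop)) (ref.mV.comp (by fun_prop)) (D := B.ub)
      (fun y => (cpt.box _).2.1) (fun y => (ref.box _).2.1) ha iE hκ0 fun y => ?_
    rw [hE]
    exact (hCo.2 _ _ _ _ _ _ (cpt.box (y, t)) (ref.box (y, t))).2.1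
  · refine rel_L1 (cpt.mP.comp (by fun_prop)) (ref.mQ.comp (by fun_prop)) (D := B.pb)
      (fun y => (cpt.box _).abs_p) (fun y => (ref.box _).abs_p) ha iE hκ0 fun y => ?_
    rw [hE]
    exact (hCo.2 _ _ _ _ _ _ (cpt.box (y, t)) (ref.box (y, t))).2.2.1

/-- Hölder stability of shock-free solutions, in the variables `(r,u,p)` -/
theorem hol_stab (hγ : 1 < γ) (B : Bds) {M C0 T R : ℝ} (hM : 0 ≤ M) (hC0 : 0 ≤ C0) (hT : 0 < T)
    (hR : 0 ≤ R) :
    ∃ A, 0 ≤ A ∧ ∃ R', 0 ≤ R' ∧ ∀ {r' u' p' : ℝ × ℝ → ℝ} {r0' u0' p0' : ℝ → ℝ},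
      RefP γ T B M C0 r' u' p' r0' u0' p0' →
      ∀ {r u p : ℝ × ℝ → ℝ} {r0 u0 p0 : ℝ → ℝ}, Sol γ T B r u p r0 u0 p0 → ∀ {δ : ℝ}, δ ≤ 1 →
      ∫ x in Icc (-R') R', (|r0 x - r0' x| + |u0 x - u0' x| + |p0 x - p0' x|) ≤ δ →
      ∀ᵐ t : ℝ, 0 < t → t < T →
        (∫ x in Icc (-R) R, |r (x, t) - r' (x, t)| ≤ A * Real.sqrt δ) ∧
        (∫ x in Icc (-R) R, |u (x, t) - u' (x, t)| ≤ A * Real.sqrt δ) ∧
        (∫ x in Icc (-R) R, |p (x, t) - p' (x, t)| ≤ A * Real.sqrt δ) := by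
  have hra := B.ra_pos
  have hrb := B.rb_pos
  have hL := B.L_nonneg
  have hLX := B.LX_nonneg
  obtain ⟨a, ha⟩ : ∃ a, a = 1 + B.L * T + B.L * R := ⟨_, rfl⟩
  have ha0 : 0 < a := by rw [ha]; positivity
  obtain ⟨A, hA0, R1, hR1, key⟩ := lab_hol hγ B hM hC0 hT ha0.le
  obtain ⟨R', hR'⟩ : ∃ R', R' = max R1 (B.LX * a) := ⟨_, rfl⟩
  have hR'1 : R1 ≤ R' := by rw [hR']; exact le_max_left _ _
  have hR'2 : B.LX * a ≤ R' := by rw [hR']; exact le_max_right _ _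
  obtain ⟨G, hG⟩ : ∃ G, G = 1 / B.ra + T * A / (2 * a) + 1 / B.ra ^ 2 * A := ⟨_, rfl⟩
  have hG0 : 0 ≤ G := by rw [hG]; positivity
  refine ⟨(A + B.rb * (2 * G * M)) / B.ra, by positivity, R', hR1.trans hR'1, ?_⟩
  intro r' u' p' r0' u0' p0' hRf r u p r0 u0 p0 hS δ hδ1 hdist
  have hδ0 : 0 ≤ δ := by
    refine le_trans (integral_nonneg fun x => ?_) hdist
    show 0 ≤ |r0 x - r0' x| + |u0 x - u0' x| + |p0 x - p0' x|
    positivity
  have hδs : δ ≤ Real.sqrt δ := by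
    rw [Real.le_sqrt hδ0 hδ0]
    nlinarith
  have hs0 := Real.sqrt_nonneg δ
  -- reduction to smaller times
  suffices hsuf : ∀ T' : ℝ, 0 < T' → T' < T → ∀ᵐ t : ℝ, 0 < t → t < T' →
        (∫ x in Icc (-R) R, |r (x, t) - r' (x, t)| ≤
          (A + B.rb * (2 * G * M)) / B.ra * Real.sqrt δ) ∧
        (∫ x in Icc (-R) R, |u (x, t) - u' (x, t)| ≤
          (A + B.rb * (2 * G * M)) / B.ra * Real.sqrt δ) ∧
        (∫ x in Icc (-R) R, |p (x, t) - p' (x, t)| ≤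
          (A + B.rb * (2 * G * M)) / B.ra * Real.sqrt δ) by
    have h1 : ∀ n : ℕ, ∀ᵐ t : ℝ, 0 < t → t < T * (1 - 1 / ((n : ℝ) + 2)) → _ := fun n =>
      hsuf (T * (1 - 1 / ((n : ℝ) + 2))) (by
        have : 1 / ((n : ℝ) + 2) < 1 := by
          rw [div_lt_one (by positivity)]
          linarith [(Nat.cast_nonneg n : (0 : ℝ) ≤ n)]
        exact mul_pos hT (by linarith)) (by
        have : 0 < 1 / ((n : ℝ) + 2) := by positivity
        nlinarith)
    filter_upwards [ae_all_iff.2 h1] with t ht ht0 htT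
    obtain ⟨n, hn⟩ := exists_nat_gt (T / (T - t))
    refine ht n ht0 ?_
    have h2 : 0 < T - t := by linarith
    rw [div_lt_iff₀ h2] at hn
    have h3 : T * (1 / ((n : ℝ) + 2)) < T - t := by
      rw [mul_one_div, div_lt_iff₀ (by positivity)]
      nlinarith
    linarith
  intro T' hT'0 hT'
  obtain ⟨T₁, hT₁⟩ : ∃ T₁, T₁ = (T' + T) / 2 := ⟨_, rfl⟩
  have hT1a : T' < T₁ := by rw [hT₁]; linarith
  have hT1b : T₁ < T := by rw [hT₁]; linarith
  have hT10 : 0 < T₁ := hT'0.trans hT1a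
  obtain ⟨N', ψ', Y', X', hA', hX'⟩ := hRf.sol.exists_appr hT10 hT1b
  obtain ⟨N, ψ, Y, X, hA, hX⟩ := hS.exists_appr hT10 hT1b
  have idist : ∀ ρ : ℝ, IntegrableOn (fun x => |r0 x - r0' x| + |u0 x - u0' x| + |p0 x - p0' x|)
      (Icc (-ρ) ρ) := by
    intro ρ
    refine Integrable.add (Integrable.add ?_ ?_) ?_
    · exact integrableOn_bd (hS.mr0.sub hRf.sol.mr0).abs (C := B.rb + B.rb) (fun x => by
        rw [abs_abs]
        exact (abs_sub _ _).trans (add_le_add (hS.box0 x).abs_r (hRf.sol.box0 x).abs_r)) _ _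
    · exact integrableOn_bd (hS.mu0.sub hRf.sol.mu0).abs (C := B.ub + B.ub) (fun x => by
        rw [abs_abs]
        exact (abs_sub _ _).trans (add_le_add (hS.box0 x).2.1 (hRf.sol.box0 x).2.1)) _ _
    · exact integrableOn_bd (hS.mp0.sub hRf.sol.mp0).abs (C := B.pb + B.pb) (fun x => by
        rw [abs_abs]
        exact (abs_sub _ _).trans (add_le_add (hS.box0 x).abs_p (hRf.sol.box0 x).abs_p)) _ _
  have hd1 : ∫ x in Icc (-R1) R1, (|r0 x - r0' x| + |u0 x - u0' x| + |p0 x - p0' x|) ≤ δ := by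
    refine le_trans ?_ hdist
    refine setIntegral_mono_set (idist R') (Filter.Eventually.of_forall fun x => ?_) ?_
    · show 0 ≤ |r0 x - r0' x| + |u0 x - u0' x| + |p0 x - p0' x|
      positivity
    · exact Filter.Eventually.of_forall (Icc_subset_Icc (by linarith) hR'1)
  have hdr : ∫ x in Icc (-R') R', |r0 x - r0' x| ≤ δ := by
    refine le_trans ?_ hdist
    refine integral_mono ?_ (idist R') fun x => ?_
    · exact integrableOn_bd (hS.mr0.sub hRf.sol.mr0).abs (C := B.rb + B.rb) (fun x => by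
        rw [abs_abs]
        exact (abs_sub _ _).trans (add_le_add (hS.box0 x).abs_r (hRf.sol.box0 x).abs_r)) _ _
    · have h1 := abs_nonneg (u0 x - u0' x)
      have h2 := abs_nonneg (p0 x - p0' x)
      simp only []
      linarith
  have lab := key hRf hT'0 hT1a hT1b hA' hX' hS hA hX hd1
  have labu : ∀ᵐ t : ℝ, 0 < t → t < T' →
      ∫ y in Icc (-a) a, |lc X u (y, t) - lc X' u' (y, t)| ≤ A * Real.sqrt δ := by
    filter_upwards [lab] with t ht h1 h2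
    exact (ht h1 h2).2.1
  have s1 := hX.slc
  have s2 := hX'.slc
  rw [ae_restrict_iff' measurableSet_Ioo] at s1 s2
  have o1 := hRf.br.osc
  have o2 := hRf.bu.osc
  have o3 := hRf.bp.osc
  rw [ae_restrict_iff' measurableSet_Ioo] at o1 o2 o3
  filter_upwards [lab, s1, s2, o1, o2, o3] with t hlab s1 s2 o1 o2 o3 ht0 htT
  have hlab := hlab ht0 htT
  have s1 := s1 ⟨ht0, htT.trans hT1a⟩
  have s2 := s2 ⟨ht0, htT.trans hT1a⟩
  obtain ⟨m1, S1, o1⟩ := o1 ⟨ht0, htT.trans hT'⟩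
  obtain ⟨m2, S2, o2⟩ := o2 ⟨ht0, htT.trans hT'⟩
  obtain ⟨m3, S3, o3⟩ := o3 ⟨ht0, htT.trans hT'⟩
  have hpos := pos_close hS hRf.sol hA hX hA' hX' (a := a) ha0.le hT1a hR'2 hdr labu
    ht0 htT (by positivity)
  -- sup bound
  have hsup : ∀ y ∈ Icc (-a) a, |X (y, t) - X' (y, t)| ≤ G * Real.sqrt δ := by
    intro y hy
    have k := disp_sup s1 s2 ha0 hy hpos hlab.1
    refine k.trans ?_
    have e1 : (2 * a * (δ / B.ra) + T' * (A * Real.sqrt δ)) / (2 * a) =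
        (1 / B.ra) * δ + (T' * A / (2 * a)) * Real.sqrt δ := by
      field_simp
    rw [e1, hG]
    have e2 : (1 / B.ra) * δ ≤ (1 / B.ra) * Real.sqrt δ :=
      mul_le_mul_of_nonneg_left hδs (by positivity)
    have e3 : (T' * A / (2 * a)) * Real.sqrt δ ≤ (T * A / (2 * a)) * Real.sqrt δ := by
      refine mul_le_mul_of_nonneg_right ?_ hs0
      exact div_le_div_of_nonneg_right (mul_le_mul_of_nonneg_right hT'.le hA0) (by positivity)
    have e4 : (1 / B.ra + T * A / (2 * a) + 1 / B.ra ^ 2 * A) * Real.sqrt δ =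
        (1 / B.ra) * Real.sqrt δ + (T * A / (2 * a)) * Real.sqrt δ +
        1 / B.ra ^ 2 * (A * Real.sqrt δ) := by ring
    rw [e4]
    linarith
  have hYt : |Y (0, t)| + B.L * R ≤ a := by
    have h1 : Y (0, 0) = 0 := by
      rw [hX.lab.init 0 0 le_rfl, Y0, intervalIntegral.integral_same]
    have h2 := hX.lab.lip (0, t) (0, 0)
    rw [h1, sub_zero, show ((0, t) : ℝ × ℝ) - (0, 0) = (0, t) by simp, Prod.norm_def, norm_zero,
      max_eq_right (norm_nonneg _), Real.norm_eq_abs, abs_of_pos ht0] at h2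
    rw [ha]
    have h3 : B.L * t ≤ B.L * T := mul_le_mul_of_nonneg_left (htT.trans hT').le hL
    linarith
  have fin : ∀ I : ℝ, B.ra * I ≤ A * Real.sqrt δ + B.rb * (2 * (G * Real.sqrt δ) * M) →
      I ≤ (A + B.rb * (2 * G * M)) / B.ra * Real.sqrt δ := by
    intro I hI
    rw [div_mul_eq_mul_div, le_div_iff₀ hra]
    have : (A + B.rb * (2 * G * M)) * Real.sqrt δ =
      A * Real.sqrt δ + B.rb * (2 * (G * Real.sqrt δ) * M) := by ring
    rw [this]
    linarith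
  have br : ∀ z, |r z| ≤ B.rb := fun z => (hS.box z).abs_r
  have br' : ∀ z, |r' z| ≤ B.rb := fun z => (hRf.sol.box z).abs_r
  have bu : ∀ z, |u z| ≤ B.ub := fun z => (hS.box z).2.1
  have bu' : ∀ z, |u' z| ≤ B.ub := fun z => (hRf.sol.box z).2.1
  have bp : ∀ z, |p z| ≤ B.pb := fun z => (hS.box z).abs_p
  have bp' : ∀ z, |p' z| ≤ B.pb := fun z => (hRf.sol.box z).abs_p
  have hGs : 0 ≤ G * Real.sqrt δ := by positivity
  refine ⟨fin _ ?_, fin _ ?_, fin _ ?_⟩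
  · exact field_close hS.mr hRf.sol.mr br br' o1 s1 s2 hYt ha0.le hGs hsup hlab.1
  · exact field_close hS.mu hRf.sol.mu bu bu' o2 s1 s2 hYt ha0.le hGs hsup hlab.2.1
  · exact field_close hS.mp hRf.sol.mp bp bp' o3 s1 s2 hYt ha0.le hGs hsup hlab.2.2

end

end Pool.Agent.helper23_Euler
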