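import Mathlib
import Pool.Agent.helper23_Euler.Stab4
import Pool.Agent.helper23_Euler.Conv

open MeasureTheory Set Filter Topology
open scoped ContDiff Convolution ENNReal NNReal

namespace Pool.Agent.helper23_Euler

noncomputable section

lemma exists_mono_univ {E : Type*} [NormedAddCommGroup E] {V : ℝ → E} {C : ℝ} (hC : 0 ≤ C)
    (hV : eVariationOn V univ ≤ ENNReal.ofReal C) :
    ∃ m : ℝ → ℝ, Monotone m ∧ (∀ x, 0 ≤ m x ∧ m x ≤ C) ∧
      ∀ x y, x ≤ y → ‖V y - V x‖ ≤ m y - m x := by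
  have hfin : ∀ s : Set ℝ, eVariationOn V s ≠ ⊤ := fun s =>
    ne_top_of_le_ne_top ENNReal.ofReal_ne_top ((eVariationOn.mono V (subset_univ s)).trans hV)
  refine ⟨fun x => (eVariationOn V (Iic x)).toReal, ?_, ?_, ?_⟩
  · intro x y hxy
    exact ENNReal.toReal_mono (hfin _) (eVariationOn.mono V (Iic_subset_Iic.2 hxy))
  · intro x
    exact ⟨ENNReal.toReal_nonneg, ENNReal.toReal_le_of_le_ofReal hC
      ((eVariationOn.mono V (subset_univ _)).trans hV)⟩
  · intro x y hxy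
    have h1 : eVariationOn V (Iic x) + eVariationOn V (Icc x y) = eVariationOn V (Iic y) := by
      rw [← eVariationOn.union V isGreatest_Iic (isLeast_Icc hxy), Iic_union_Icc_eq_Iic hxy]
    have h3 : edist (V y) (V x) ≤ eVariationOn V (Icc x y) :=
      eVariationOn.edist_le V ⟨hxy, le_rfl⟩ ⟨le_rfl, hxy⟩
    have h4 : ‖V y - V x‖ ≤ (eVariationOn V (Icc x y)).toReal := by
      rw [edist_dist] at h3
      have := (ENNReal.ofReal_le_iff_le_toReal (hfin _)).1 h3
      rwa [dist_eq_norm] at this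
    simp only []
    rw [← h1, ENNReal.toReal_add (hfin _) (hfin _)]
    linarith

lemma osc_of_var {K : Set St} {f : St → ℝ} {L : ℝ≥0} (hL : LipschitzOnWith L f K)
    {V g : ℝ → St} (hg : ∀ x, g x ∈ K) (hgV : ∀ᵐ x, g x = V x) {C M : ℝ} (hC : 0 ≤ C)
    (hV : eVariationOn V univ ≤ ENNReal.ofReal C) (hM : L * C ≤ M) :
    ∃ m S, Osc M (fun x => f (g x)) m S := by
  obtain ⟨m, hm1, hm2, hm3⟩ := exists_mono_univ hC hV
  have hL0 : 0 ≤ (L : ℝ) := L.coe_nonneg
  refine ⟨fun x => L * m x, {x | g x = V x}, ?_⟩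
  exact
    { mono := fun x y hxy => mul_le_mul_of_nonneg_left (hm1 hxy) hL0
      bd := fun x => ⟨mul_nonneg hL0 (hm2 x).1,
        (mul_le_mul_of_nonneg_left (hm2 x).2 hL0).trans hM⟩
      full := hgV
      osc := by
        intro x hx y hy hxy
        have h4 := hL.dist_le_mul _ (hg y) _ (hg x)
        rw [Real.dist_eq, dist_eq_norm] at h4
        have hx' : g x = V x := hx
        have hy' : g y = V y := hy
        rw [hx', hy'] at h4 ⊢
        refine h4.trans ?_
        have := mul_le_mul_of_nonneg_left (hm3 x y hxy) hL0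
        linarith }

lemma Osc.mono_M {M M' : ℝ} {f m : ℝ → ℝ} {S : Set ℝ} (h : Osc M f m S) (hM : M ≤ M') :
    Osc M' f m S := ⟨h.mono, fun x => ⟨(h.bd x).1, (h.bd x).2.trans hM⟩, h.full, h.osc⟩

lemma BR.mono_M {T M M' : ℝ} {f : ℝ × ℝ → ℝ} {f0 : ℝ → ℝ} (h : BR T M f f0) (hM : M ≤ M') :
    BR T M' f f0 where
  mf := h.mf
  mf0 := h.mf0
  bf := fun z => (h.bf z).trans hM
  bf0 := fun x => (h.bf0 x).trans hM
  osc := by
    filter_upwards [h.osc] with t ht
    obtain ⟨m, S, hO⟩ := ht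
    exact ⟨m, S, hO.mono_M hM⟩
  osc0 := by
    obtain ⟨m, S, hO⟩ := h.osc0
    exact ⟨m, S, hO.mono_M hM⟩
  trace := h.trace

/-- the three fields are Lipschitz functions of the state on compacts -/
lemma fields_lipschitz {γ : ℝ} {K : Set St} (hK : IsCompact K) (hKO : K ⊆ Om) :
    (∃ L : ℝ≥0, LipschitzOnWith L dens K) ∧ (∃ L : ℝ≥0, LipschitzOnWith L vel K) ∧
      (∃ L : ℝ≥0, LipschitzOnWith L (pres γ) K) := by
  have key : ∀ f : St → ℝ, (∀ U ∈ K, ContDiffAt ℝ 1 f U) → ∃ L : ℝ≥0, LipschitzOnWith L f K := by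
    intro f hf
    refine LocallyLipschitzOn.exists_lipschitzOnWith_of_compact hK ?_
    intro U hU
    obtain ⟨L, t, ht, hL⟩ := (hf U hU).exists_lipschitzOnWith
    exact ⟨L, t, mem_nhdsWithin_of_mem_nhds ht, hL⟩
  have hd : ∀ U ∈ K, ContDiffAt ℝ 1 dens U := fun U _ => contDiff_fst.contDiffAt
  have hm : ∀ U ∈ K, ContDiffAt ℝ 1 mom U := fun U _ =>
    (contDiff_fst.comp contDiff_snd).contDiffAt
  have he : ∀ U ∈ K, ContDiffAt ℝ 1 ener U := fun U _ =>
    (contDiff_snd.comp contDiff_snd).contDiffAt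
  have hv : ∀ U ∈ K, ContDiffAt ℝ 1 vel U := fun U hU =>
    (hm U hU).div (hd U hU) (hKO hU).1.ne'
  have hp : ∀ U ∈ K, ContDiffAt ℝ 1 (pres γ) U := fun U hU =>
    (contDiffAt_const.mul (hd U hU)).mul
      (((he U hU).div (hd U hU) (hKO hU).1.ne').sub (((hv U hU).pow 2).div_const 2))
  exact ⟨key _ hd, key _ hv, key _ hp⟩

section

variable {γ cv T : ℝ} {U W : ℝ × ℝ → St} {U0 : ℝ → St} {K : Set St}

/-- slices of an almost everywhere equality -/
lemma slice_ae (hWU : ∀ᵐ z ∂(volume.restrict (strip T)), U z = W z) :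
    ∀ᵐ t : ℝ, 0 < t → t < T → ∀ᵐ x : ℝ, U (x, t) = W (x, t) := by
  rw [ae_restrict_iff' (measurableSet_strip T), Measure.volume_eq_prod] at hWU
  have h2 : ∀ᵐ z : ℝ × ℝ ∂(volume.prod volume), z.swap ∈ strip T → U z.swap = W z.swap :=
    (Measure.measurePreserving_swap).quasiMeasurePreserving.ae hWU
  filter_upwards [Measure.ae_ae_of_ae_prod h2] with t ht ht0 htT
  filter_upwards [ht] with x hx
  exact hx ⟨ht0, htT⟩

/-- the initial trace of the conserved variables -/
theorem trace_St (hT : 0 < T) (hKc : IsCompact K) (hKO : K ⊆ Om) (mU0 : Measurable U0)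
    (hU0K : ∀ x, U0 x ∈ K) (hWm : Measurable W) (hWK : ∀ z, W z ∈ K)
    (hWU : ∀ᵐ z ∂(volume.restrict (strip T)), U z = W z) (h : EntropySol γ cv T U U0)
    (hBV : BVBounded T U) (hBV0 : BoundedVariationOn U0 univ) (ρ δ : ℝ) (hδ0 : 0 < δ) :
    ∃ ν, 0 < ν ∧ ∀ᵐ t : ℝ, 0 < t → t < ν →
      ∫ x in Icc (-ρ) ρ, ‖W (x, t) - U0 x‖ ≤ 3 * δ := by
  by_cases hρ : 0 < ρ
  swap
  · refine ⟨1, one_pos, Filter.Eventually.of_forall fun t _ _ => ?_⟩
    rcases (not_lt.1 hρ).lt_or_eq with h | h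
    · rw [Icc_eq_empty (by linarith)]
      simp [hδ0.le]
    · rw [h]
      simp [hδ0.le]
  have ae1 : ∀ f : St → ℝ, ∀ᵐ z ∂(volume.restrict (strip T)), f (U z) = f (W z) := by
    intro f
    filter_upwards [hWU] with z hz
    rw [hz]
  have hmass : WeakEq T (fun z => dens (W z)) (fun z => mom (W z)) (fun x => dens (U0 x)) :=
    h.mass.congr (ae1 dens) (ae1 mom) fun _ => rfl
  have hmomentum : WeakEq T (fun z => mom (W z)) (fun z => mom (W z) * vel (W z) + pres γ (W z))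
      (fun x => mom (U0 x)) :=
    h.momentum.congr (ae1 mom) (ae1 fun U => mom U * vel U + pres γ U) fun _ => rfl
  have henergy : WeakEq T (fun z => ener (W z))
      (fun z => (ener (W z) + pres γ (W z)) * vel (W z)) (fun x => ener (U0 x)) :=
    h.energy.congr (ae1 ener) (ae1 fun U => (ener U + pres γ U) * vel U) fun _ => rfl
  obtain ⟨CK, hCK⟩ := hKc.isBounded.exists_norm_le
  obtain ⟨CB, hCB⟩ := hBV
  obtain ⟨C1, hC1⟩ := hKc.exists_bound_of_continuousOn
    (f := fun U : St => mom U * vel U + pres γ U)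
    ((continuous_mom.continuousOn.mul (contOn_vel.mono hKO)).add
      (contOn_pres.mono hKO))
  obtain ⟨C2, hC2⟩ := hKc.exists_bound_of_continuousOn
    (f := fun U : St => (ener U + pres γ U) * vel U)
    ((continuous_ener.continuousOn.add (contOn_pres.mono hKO)).mul
      (contOn_vel.mono hKO))
  obtain ⟨M, hM⟩ : ∃ M, M = |CK| + |C1| + |C2| := ⟨_, rfl⟩
  have hMK : ∀ k ∈ K, ‖k‖ ≤ M := fun k hk => by
    have := (hCK k hk).trans (le_abs_self CK)
    rw [hM]; linarith [abs_nonneg C1, abs_nonneg C2]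
  have bd : ∀ k ∈ K, |dens k| ≤ M := fun k hk => (norm_fst_le k).trans (hMK k hk)
  have bm : ∀ k ∈ K, |mom k| ≤ M := fun k hk =>
    ((norm_fst_le k.2).trans (norm_snd_le k)).trans (hMK k hk)
  have be : ∀ k ∈ K, |ener k| ≤ M := fun k hk =>
    ((norm_snd_le k.2).trans (norm_snd_le k)).trans (hMK k hk)
  have bf1 : ∀ k ∈ K, |mom k * vel k + pres γ k| ≤ M := fun k hk => by
    have := (hC1 k hk).trans (le_abs_self C1)
    rw [Real.norm_eq_abs] at this
    rw [hM]; linarith [abs_nonneg CK, abs_nonneg C2]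
  have bf2 : ∀ k ∈ K, |(ener k + pres γ k) * vel k| ≤ M := fun k hk => by
    have := (hC2 k hk).trans (le_abs_self C2)
    rw [Real.norm_eq_abs] at this
    rw [hM]; linarith [abs_nonneg CK, abs_nonneg C1]
  have hslice := slice_ae hWU
  have hBVt : ∀ᵐ t : ℝ, 0 < t → t < T → ∃ V : ℝ → St, (∀ᵐ x : ℝ, W (x, t) = V x) ∧
      eVariationOn V univ ≤ CB := by
    rw [ae_restrict_iff' measurableSet_Ioo] at hCB
    filter_upwards [hCB, hslice] with t ht1 ht2 ht0 htT
    obtain ⟨V, hV1, hV2⟩ := ht1 ⟨ht0, htT⟩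
    refine ⟨V, ?_, hV2⟩
    filter_upwards [hV1, ht2 ht0 htT] with x h1 h2
    rw [← h2, h1]
  have hcomp : ∀ f : St → ℝ, LipschitzWith 1 f → ∀ᵐ t : ℝ, 0 < t → t < T →
      ∃ V : ℝ → ℝ, (∀ᵐ x : ℝ, f (W (x, t)) = V x) ∧
        eVariationOn V (Icc (-ρ) (ρ + 1)) ≤ ENNReal.ofReal (CB : ℝ) := by
    intro f hf
    filter_upwards [hBVt] with t ht ht0 htT
    obtain ⟨V, hV1, hV2⟩ := ht ht0 htT
    refine ⟨fun x => f (V x), ?_, ?_⟩
    · filter_upwards [hV1] with x hx
      rw [hx]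
    · have h1 : eVariationOn (f ∘ V) univ ≤ ((1 : ℝ≥0) : ℝ≥0∞) * eVariationOn V univ :=
        (hf.lipschitzOnWith (s := univ)).comp_eVariationOn_le (mapsTo_univ _ _)
      rw [ENNReal.coe_one, one_mul] at h1
      refine (eVariationOn.mono _ (subset_univ _)).trans (h1.trans (hV2.trans ?_))
      rw [ENNReal.ofReal_coe_nnreal]
  obtain ⟨C0, hC0v⟩ : ∃ C0, C0 = (eVariationOn U0 univ).toReal := ⟨_, rfl⟩
  have hC00 : 0 ≤ C0 := by rw [hC0v]; exact ENNReal.toReal_nonneg
  have hcomp0 : ∀ f : St → ℝ, LipschitzWith 1 f →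
      eVariationOn (fun x => f (U0 x)) (Icc (-ρ) (ρ + 1)) ≤ ENNReal.ofReal C0 := by
    intro f hf
    have h1 : eVariationOn (f ∘ U0) univ ≤ ((1 : ℝ≥0) : ℝ≥0∞) * eVariationOn U0 univ :=
      (hf.lipschitzOnWith (s := univ)).comp_eVariationOn_le (mapsTo_univ _ _)
    rw [ENNReal.coe_one, one_mul] at h1
    refine (eVariationOn.mono _ (subset_univ _)).trans (h1.trans ?_)
    rw [hC0v, ENNReal.ofReal_toReal hBV0]
  have mWd := continuous_dens.measurable.comp hWm
  have mWm := continuous_mom.measurable.comp hWm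
  have mWe := continuous_ener.measurable.comp hWm
  have mWv := measurable_vel.comp hWm
  have mWp := (measurable_pres (γ := γ)).comp hWm
  obtain ⟨ν1, hν1, hν1T, ht1⟩ := trace_L1 (R := ρ) hT mWd mWm
    (continuous_dens.measurable.comp mU0) (fun z => bd _ (hWK z)) (fun z => bm _ (hWK z))
    (fun x => bd _ (hU0K x)) hmass hρ CB.coe_nonneg hC00 (hcomp dens lipschitz_dens)
    (hcomp0 dens lipschitz_dens) hδ0
  obtain ⟨ν2, hν2, hν2T, ht2⟩ := trace_L1 (R := ρ) hT mWm ((mWm.mul mWv).add mWp)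
    (continuous_mom.measurable.comp mU0) (fun z => bm _ (hWK z)) (fun z => bf1 _ (hWK z))
    (fun x => bm _ (hU0K x)) hmomentum hρ CB.coe_nonneg hC00 (hcomp mom lipschitz_mom)
    (hcomp0 mom lipschitz_mom) hδ0
  obtain ⟨ν3, hν3, hν3T, ht3⟩ := trace_L1 (R := ρ) hT mWe ((mWe.add mWp).mul mWv)
    (continuous_ener.measurable.comp mU0) (fun z => be _ (hWK z)) (fun z => bf2 _ (hWK z))
    (fun x => be _ (hU0K x)) henergy hρ CB.coe_nonneg hC00 (hcomp ener lipschitz_ener)
    (hcomp0 ener lipschitz_ener) hδ0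
  refine ⟨min ν1 (min ν2 ν3), lt_min hν1 (lt_min hν2 hν3), ?_⟩
  filter_upwards [ht1, ht2, ht3] with t h1 h2 h3 ht0 htν
  have k1 : ∫ x in (-ρ)..ρ, |dens (W (x, t)) - dens (U0 x)| ≤ δ :=
    h1 ht0 (lt_of_lt_of_le htν (min_le_left _ _))
  have k2 : ∫ x in (-ρ)..ρ, |mom (W (x, t)) - mom (U0 x)| ≤ δ :=
    h2 ht0 (lt_of_lt_of_le htν ((min_le_right _ _).trans (min_le_left _ _)))
  have k3 : ∫ x in (-ρ)..ρ, |ener (W (x, t)) - ener (U0 x)| ≤ δ :=
    h3 ht0 (lt_of_lt_of_le htν ((min_le_right _ _).trans (min_le_right _ _)))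
  rw [intervalIntegral.integral_of_le (by linarith), ← integral_Icc_eq_integral_Ioc] at k1 k2 k3
  have hmm : Measurable (fun x : ℝ => W (x, t)) := hWm.comp (by fun_prop)
  have int : ∀ f : St → ℝ, Measurable f → (∀ k ∈ K, |f k| ≤ M) →
      IntegrableOn (fun x => |f (W (x, t)) - f (U0 x)|) (Icc (-ρ) ρ) := by
    intro f hf hfM
    exact integrableOn_bd (((hf.comp hmm).sub (hf.comp mU0)).abs) (C := M + M) (fun x => by
      rw [abs_abs]
      exact (abs_sub _ _).trans (add_le_add (hfM _ (hWK _)) (hfM _ (hU0K _)))) _ _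
  have i1 := int dens continuous_dens.measurable bd
  have i2 := int mom continuous_mom.measurable bm
  have i3 := int ener continuous_ener.measurable be
  have i12 : IntegrableOn (fun x => |dens (W (x, t)) - dens (U0 x)| +
    |mom (W (x, t)) - mom (U0 x)|) (Icc (-ρ) ρ) := i1.add i2
  have hfin : ∫ x in Icc (-ρ) ρ, ‖W (x, t) - U0 x‖ ≤
      ∫ x in Icc (-ρ) ρ, (|dens (W (x, t)) - dens (U0 x)|
        + |mom (W (x, t)) - mom (U0 x)| + |ener (W (x, t)) - ener (U0 x)|) := by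
    refine integral_mono ?_ (i12.add i3) fun x => norm_St_le _ _
    refine Integrable.mono' (i12.add i3) (hmm.sub mU0).norm.aestronglyMeasurable ?_
    refine Filter.Eventually.of_forall fun x => ?_
    rw [norm_norm]
    exact norm_St_le _ _
  refine hfin.trans ?_
  rw [integral_add i12 i3, integral_add i1 i2]
  linarith

/-- oscillation control and initial trace of a field -/
theorem toBR (hKc : IsCompact K) (hKO : K ⊆ Om) (MB : ℝ≥0) {f : St → ℝ} (mf : Measurable f)
    (hf : ∃ L : ℝ≥0, LipschitzOnWith L f K) : ∃ M, 0 ≤ M ∧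
    ∀ {γ cv T : ℝ} {U W : ℝ × ℝ → St} {U0 : ℝ → St}, 0 < T → Measurable U0 → (∀ x, U0 x ∈ K) →
    Measurable W → (∀ z, W z ∈ K) → (∀ᵐ z ∂(volume.restrict (strip T)), U z = W z) →
    EntropySol γ cv T U U0 → TVle MB T U → eVariationOn U0 univ ≤ MB →
    BR T M (fun z => f (W z)) (fun x => f (U0 x)) := by
  obtain ⟨L, hL⟩ := hf
  obtain ⟨Cf, hCf⟩ := hKc.exists_bound_of_continuousOn hL.continuousOn
  have hL0 : 0 ≤ (L : ℝ) := L.coe_nonneg
  have hMB0 : 0 ≤ (MB : ℝ) := MB.coe_nonneg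
  obtain ⟨M, hM⟩ : ∃ M, M = |Cf| + L * MB := ⟨_, rfl⟩
  have hLB : 0 ≤ (L : ℝ) * MB := mul_nonneg hL0 hMB0
  have hCf0 := abs_nonneg Cf
  have hM1 : ∀ k ∈ K, |f k| ≤ M := fun k hk => by
    have := (hCf k hk).trans (le_abs_self Cf)
    rw [Real.norm_eq_abs] at this
    rw [hM]; linarith
  refine ⟨M, by rw [hM]; positivity, ?_⟩
  intro γ cv T U W U0 hT mU0 hU0K hWm hWK hWU h hTV hTV0
  have hBV0 : BoundedVariationOn U0 univ := ne_top_of_le_ne_top ENNReal.coe_ne_top hTV0
  have htr := trace_St hT hKc hKO mU0 hU0K hWm hWK hWU h ⟨MB, hTV⟩ hBV0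
  exact
    { mf := mf.comp hWm
      mf0 := mf.comp mU0
      bf := fun z => hM1 _ (hWK z)
      bf0 := fun x => hM1 _ (hU0K x)
      osc := by
        have hTV' := hTV
        rw [TVle, ae_restrict_iff' measurableSet_Ioo] at hTV'
        rw [ae_restrict_iff' measurableSet_Ioo]
        filter_upwards [hTV', slice_ae hWU] with t ht1 ht2 ht
        obtain ⟨V, hV1, hV2⟩ := ht1 ht
        refine osc_of_var hL (fun x => hWK (x, t)) (V := V) ?_ hMB0 ?_ ?_
        · filter_upwards [hV1, ht2 ht.1 ht.2] with x h1 h2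
          rw [← h2, h1]
        · rw [ENNReal.ofReal_coe_nnreal]
          exact hV2
        · rw [hM]
          linarith
      osc0 := by
        refine osc_of_var hL hU0K (V := U0) (Filter.Eventually.of_forall fun x => rfl) hMB0 ?_ ?_
        · rw [ENNReal.ofReal_coe_nnreal]
          exact hTV0
        · rw [hM]
          linarith
      trace := by
        intro ρ ε hε
        obtain ⟨ν, hν, h1⟩ := htr ρ (ε / (3 * (L + 1))) (by positivity)
        refine ⟨ν, hν, ?_⟩
        filter_upwards [h1] with t h1 ht0 htν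
        have h1 := h1 ht0 htν
        have hmm : Measurable (fun x : ℝ => W (x, t)) := hWm.comp (by fun_prop)
        obtain ⟨CK, hCK⟩ := hKc.isBounded.exists_norm_le
        have i1 : IntegrableOn (fun x => ‖W (x, t) - U0 x‖) (Icc (-ρ) ρ) := by
          refine integrableOn_bd (hmm.sub mU0).norm (C := CK + CK) (fun x => ?_) _ _
          rw [abs_of_nonneg (norm_nonneg _)]
          exact (norm_sub_le _ _).trans (add_le_add (hCK _ (hWK _)) (hCK _ (hU0K _)))
        have i2 : IntegrableOn (fun x => |f (W (x, t)) - f (U0 x)|) (Icc (-ρ) ρ) :=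
          integrableOn_bd (((mf.comp hmm).sub (mf.comp mU0)).abs) (C := M + M) (fun x => by
            rw [abs_abs]
            exact (abs_sub _ _).trans (add_le_add (hM1 _ (hWK _)) (hM1 _ (hU0K _)))) _ _
        have i3 : IntegrableOn (fun x => (L : ℝ) * ‖W (x, t) - U0 x‖) (Icc (-ρ) ρ) :=
          i1.const_mul _
        have e1 : ∫ x in Icc (-ρ) ρ, |f (W (x, t)) - f (U0 x)| ≤
            ∫ x in Icc (-ρ) ρ, (L : ℝ) * ‖W (x, t) - U0 x‖ := by
          refine integral_mono i2 i3 fun x => ?_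
          have h4 := hL.dist_le_mul _ (hWK (x, t)) _ (hU0K x)
          rwa [Real.dist_eq, dist_eq_norm] at h4
        rw [integral_const_mul] at e1
        refine e1.trans ((mul_le_mul_of_nonneg_left h1 hL0).trans ?_)
        have : (L : ℝ) * (3 * (ε / (3 * (L + 1)))) = (L / (L + 1)) * ε := by
          field_simp
        rw [this]
        have h5 : (L : ℝ) / (L + 1) ≤ 1 := by
          rw [div_le_one (by positivity)]
          linarith
        calc (L : ℝ) / (L + 1) * ε ≤ 1 * ε := mul_le_mul_of_nonneg_right h5 hε.le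
          _ = ε := one_mul _ }

end

end

end Pool.Agent.helper23_Euler
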