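import Mathlib
import Pool.Agent.helper23_Euler.ToRef

open MeasureTheory Set Filter Topology
open scoped ContDiff Convolution ENNReal NNReal

namespace Pool.Agent.helper23_Euler

noncomputable section

lemma WeakDx.congr {T : ℝ} {f f' m : ℝ × ℝ → ℝ} (h : WeakDx T f m)
    (hf : ∀ᵐ z ∂(volume.restrict (strip T)), f z = f' z) : WeakDx T f' m := by
  refine ⟨h.1, fun φ hφ hs => ?_⟩
  rw [← h.2 φ hφ hs]
  refine setIntegral_congr_ae measurableSet_up ?_
  rw [ae_restrict_iff' (measurableSet_strip T)] at hf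
  filter_upwards [hf] with z h1 hz
  by_cases hzT : z.2 < T
  · rw [h1 ⟨hz, hzT⟩]
  · have h3 : z ∉ tsupport φ := fun h => hzT (hφ.supp h)
    rw [dx_eq_zero h3]
    simp

variable {γ cv T : ℝ} {K : Set St}

/-- the conserved variables are Lipschitz functions of `(r,u,p)` -/
lemma cons_lip (hγ : 1 < γ) {B : Bds} {U V : St} (hU : U ∈ Om) (hV : V ∈ Om)
    (bU : B.In (dens U) (vel U) (pres γ U)) (bV : B.In (dens V) (vel V) (pres γ V)) :
    ‖U - V‖ ≤ (1 + B.ub + B.rb + B.ub ^ 2 / 2 + B.rb * B.ub + 1 / (γ - 1)) *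
      (|dens U - dens V| + |vel U - vel V| + |pres γ U - pres γ V|) := by
  have hγ' : 0 < γ - 1 := by linarith
  have hrb := B.rb_pos
  have hub := B.ub_nonneg
  refine (norm_St_le U V).trans ?_
  have hr := bU.r_pos
  have hr' := bV.r_pos
  obtain ⟨x, hx⟩ : ∃ x, x = |dens U - dens V| := ⟨_, rfl⟩
  obtain ⟨y, hy⟩ : ∃ y, y = |vel U - vel V| := ⟨_, rfl⟩
  obtain ⟨z, hz⟩ : ∃ z, z = |pres γ U - pres γ V| := ⟨_, rfl⟩
  have x0 : 0 ≤ x := by rw [hx]; exact abs_nonneg _
  have y0 : 0 ≤ y := by rw [hy]; exact abs_nonneg _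
  have z0 : 0 ≤ z := by rw [hz]; exact abs_nonneg _
  have e1 : |mom U - mom V| ≤ B.rb * y + B.ub * x := by
    rw [mom_eq hU, mom_eq hV]
    have e : dens U * vel U - dens V * vel V =
      dens U * (vel U - vel V) + vel V * (dens U - dens V) := by ring
    rw [e]
    refine (abs_add_le _ _).trans ?_
    rw [abs_mul, abs_mul, ← hx, ← hy]
    exact add_le_add (mul_le_mul_of_nonneg_right bU.abs_r y0)
      (mul_le_mul_of_nonneg_right bV.2.1 x0)
  have e2 : |ener U - ener V| ≤ B.ub ^ 2 / 2 * x + B.rb * B.ub * y + 1 / (γ - 1) * z := by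
    have f1 : ∀ {W : St}, W ∈ Om → ener W = dens W * vel W ^ 2 / 2 + pres γ W / (γ - 1) := by
      intro W hW
      have h1 := hW.1
      unfold pres eint
      field_simp
      ring
    rw [f1 hU, f1 hV]
    have e : dens U * vel U ^ 2 / 2 + pres γ U / (γ - 1) -
        (dens V * vel V ^ 2 / 2 + pres γ V / (γ - 1)) =
        vel V ^ 2 / 2 * (dens U - dens V) + dens U * ((vel U + vel V) / 2) * (vel U - vel V) +
        1 / (γ - 1) * (pres γ U - pres γ V) := by
      field_simp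
      ring
    rw [e]
    refine (abs_add_le _ _).trans (add_le_add ((abs_add_le _ _).trans (add_le_add ?_ ?_)) ?_)
    · rw [abs_mul, ← hx]
      refine mul_le_mul_of_nonneg_right ?_ x0
      rw [abs_div, abs_pow, abs_of_pos (show (0 : ℝ) < 2 by norm_num)]
      exact div_le_div_of_nonneg_right (pow_le_pow_left₀ (abs_nonneg _) bV.2.1 2) (by norm_num)
    · rw [abs_mul, ← hy]
      refine mul_le_mul_of_nonneg_right ?_ y0
      rw [abs_mul]
      refine mul_le_mul bU.abs_r ?_ (abs_nonneg _) hrb.le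
      rw [abs_div, abs_of_pos (show (0 : ℝ) < 2 by norm_num), div_le_iff₀ (by norm_num)]
      have h1 := bU.2.1
      have h2 := bV.2.1
      refine (abs_add_le _ _).trans ?_
      linarith
    · rw [abs_mul, ← hz, abs_of_pos (show 0 < 1 / (γ - 1) by positivity)]
  rw [← hx, ← hy, ← hz]
  have c1 : 0 ≤ 1 / (γ - 1) := by positivity
  nlinarith [mul_nonneg hub x0, mul_nonneg hub y0, mul_nonneg hub z0, mul_nonneg hrb.le x0,
    mul_nonneg hrb.le y0, mul_nonneg hrb.le z0, mul_nonneg (sq_nonneg B.ub) x0,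
    mul_nonneg (sq_nonneg B.ub) y0, mul_nonneg (sq_nonneg B.ub) z0,
    mul_nonneg (mul_nonneg hrb.le hub) x0, mul_nonneg (mul_nonneg hrb.le hub) y0,
    mul_nonneg (mul_nonneg hrb.le hub) z0, mul_nonneg c1 x0, mul_nonneg c1 y0, mul_nonneg c1 z0]

/-- Hölder stability of shock-free solutions -/
theorem hol_St (hγ : 1 < γ) (hcv : 0 < cv) (hT : 0 < T) (hKc : IsCompact K) (hKO : K ⊆ Om)
    (M : ℝ≥0) (C0 R : ℝ) :
    ∃ C R' : ℝ, 0 ≤ C ∧ ∀ (V U : ℝ × ℝ → St) (V0 U0 : ℝ → St),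
      EntropySol γ cv T V V0 → (∀ᵐ z ∂(volume.restrict (strip T)), V z ∈ K) →
      (∀ x, V0 x ∈ K) → TVle M T V → eVariationOn V0 univ ≤ M → ShockFree γ T C0 V →
      EntropySol γ cv T U U0 → (∀ᵐ z ∂(volume.restrict (strip T)), U z ∈ K) →
      (∀ x, U0 x ∈ K) → Measurable U0 →
      ((BVBounded T U ∧ BoundedVariationOn U0 univ) ∨ EntInit γ cv T U U0) →
      ∀ᵐ t ∂(volume.restrict (Ioo 0 T)), ∫ x in Icc (-R) R, ‖U (x, t) - V (x, t)‖ ≤
        C * Real.sqrt (∫ x in Icc (-R') R', ‖U0 x - V0 x‖) := by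
  by_cases hR : 0 ≤ R
  swap
  · refine ⟨0, 0, le_rfl, fun V U V0 U0 _ _ _ _ _ _ _ _ _ _ _ => ?_⟩
    refine Filter.Eventually.of_forall fun t => ?_
    rw [Icc_eq_empty (show ¬ (-R ≤ R) by linarith)]
    simp
  have hγ' : 0 < γ - 1 := by linarith
  obtain ⟨B, hB⟩ := exists_box hγ hKc hKO
  have hrb := B.rb_pos
  have hub := B.ub_nonneg
  obtain ⟨hLd, hLv, hLp⟩ := fields_lipschitz (γ := γ) hKc hKO
  obtain ⟨M1, hM1, br⟩ := toBR hKc hKO M continuous_dens.measurable hLd
  obtain ⟨M2, hM2, bu⟩ := toBR hKc hKO M measurable_vel hLv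
  obtain ⟨M3, hM3, bp⟩ := toBR hKc hKO M (measurable_pres (γ := γ)) hLp
  obtain ⟨Ld, hLd⟩ := hLd
  obtain ⟨Lv, hLv⟩ := hLv
  obtain ⟨Lp, hLp⟩ := hLp
  obtain ⟨A, hA0, R', hR'0, key⟩ := hol_stab hγ B (M := M1 + M2 + M3) (C0 := |C0|) (by positivity)
    (abs_nonneg _) hT hR
  obtain ⟨CK, hCK⟩ := hKc.isBounded.exists_norm_le
  obtain ⟨Λ, hΛ⟩ : ∃ Λ : ℝ, Λ = Ld + Lv + Lp + 1 := ⟨_, rfl⟩
  have hLd0 : 0 ≤ (Ld : ℝ) := Ld.coe_nonneg
  have hLv0 : 0 ≤ (Lv : ℝ) := Lv.coe_nonneg
  have hLp0 : 0 ≤ (Lp : ℝ) := Lp.coe_nonneg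
  have hΛ0 : 0 < Λ := by rw [hΛ]; positivity
  obtain ⟨c, hc⟩ : ∃ c, c = 1 + B.ub + B.rb + B.ub ^ 2 / 2 + B.rb * B.ub + 1 / (γ - 1) :=
    ⟨_, rfl⟩
  have hc0 : 0 ≤ c := by rw [hc]; positivity
  refine ⟨(3 * c * A + 4 * R * |CK|) * Real.sqrt Λ, R', by positivity, ?_⟩
  intro V U V0 U0 hV hVK hV0K hVT hV0T hSF hU hUK hU0K mU0 hent
  have hBV0 : BoundedVariationOn V0 univ := ne_top_of_le_ne_top ENNReal.coe_ne_top hV0T
  have mV0 : Measurable V0 := BVDatum.measurable ⟨hBV0, K, hKc, hKO, hV0K⟩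
  obtain ⟨W', mW', hW'K, hVW', hS'⟩ := toSol hγ hcv hT hKc hKO mV0 hV0K hVK hB hV
    (Or.inl ⟨⟨M, hVT⟩, hBV0⟩)
  obtain ⟨W, mW, hWK, hUW, hS⟩ := toSol hγ hcv hT hKc hKO mU0 hU0K hUK hB hU hent
  have hRef : RefP γ T B (M1 + M2 + M3) |C0| (fun z => dens (W' z)) (fun z => vel (W' z))
      (fun z => pres γ (W' z)) (fun x => dens (V0 x)) (fun x => vel (V0 x))
      (fun x => pres γ (V0 x)) :=
    { sol := hS'
      br := (br hT mV0 hV0K mW' hW'K hVW' hV hVT hV0T).mono_M (by linarith)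
      bu := (bu hT mV0 hV0K mW' hW'K hVW' hV hVT hV0T).mono_M (by linarith)
      bp := (bp hT mV0 hV0K mW' hW'K hVW' hV hVT hV0T).mono_M (by linarith)
      nn := abs_nonneg _
      sf := by
        obtain ⟨m, g, h1, h2, h3⟩ := hSF
        refine ⟨m, g, h1.congr ?_, h2.congr ?_, ?_⟩
        · filter_upwards [hVW'] with z hz
          rw [hz]
        · filter_upwards [hVW'] with z hz
          rw [hz]
        · filter_upwards [h3] with z hz
          have := le_abs_self C0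
          linarith }
  obtain ⟨D, hD⟩ : ∃ D, D = ∫ x in Icc (-R') R', ‖U0 x - V0 x‖ := ⟨_, rfl⟩
  have hD0 : 0 ≤ D := by rw [hD]; exact integral_nonneg fun _ => norm_nonneg _
  rw [← hD]
  have iD : IntegrableOn (fun x => ‖U0 x - V0 x‖) (Icc (-R') R') := by
    refine integrableOn_bd (mU0.sub mV0).norm (C := CK + CK) (fun x => ?_) _ _
    rw [abs_of_nonneg (norm_nonneg _)]
    exact (norm_sub_le _ _).trans (add_le_add (hCK _ (hU0K _)) (hCK _ (hV0K _)))
  -- the slices
  have slice : ∀ᵐ t : ℝ, t ∈ Ioo 0 T → ∫ x in Icc (-R) R, ‖U (x, t) - V (x, t)‖ =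
      ∫ x in Icc (-R) R, ‖W (x, t) - W' (x, t)‖ := by
    filter_upwards [slice_ae hUW, slice_ae hVW'] with t h1 h2 ht
    refine integral_congr_ae (ae_restrict_of_ae ?_)
    filter_upwards [h1 ht.1 ht.2, h2 ht.1 ht.2] with x h1 h2
    rw [h1, h2]
  rw [ae_restrict_iff' measurableSet_Ioo]
  have hsq : Real.sqrt (Λ * D) = Real.sqrt Λ * Real.sqrt D := Real.sqrt_mul hΛ0.le D
  by_cases hδ : Λ * D ≤ 1
  · have hdist : ∫ x in Icc (-R') R', (|dens (U0 x) - dens (V0 x)| + |vel (U0 x) - vel (V0 x)| +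
        |pres γ (U0 x) - pres γ (V0 x)|) ≤ Λ * D := by
      rw [hD, ← integral_const_mul]
      have hpt : ∀ x, |dens (U0 x) - dens (V0 x)| + |vel (U0 x) - vel (V0 x)| +
          |pres γ (U0 x) - pres γ (V0 x)| ≤ Λ * ‖U0 x - V0 x‖ := by
        intro x
        have k1 := hLd.dist_le_mul _ (hU0K x) _ (hV0K x)
        have k2 := hLv.dist_le_mul _ (hU0K x) _ (hV0K x)
        have k3 := hLp.dist_le_mul _ (hU0K x) _ (hV0K x)
        rw [Real.dist_eq, dist_eq_norm] at k1 k2 k3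
        have k4 := norm_nonneg (U0 x - V0 x)
        rw [hΛ]
        linarith
      refine integral_mono ?_ (iD.const_mul Λ) hpt
      refine Integrable.mono' (iD.const_mul Λ) ?_ (Filter.Eventually.of_forall fun x => ?_)
      · exact ((((continuous_dens.measurable.comp mU0).sub
          (continuous_dens.measurable.comp mV0)).abs.add
          ((measurable_vel.comp mU0).sub (measurable_vel.comp mV0)).abs).add
          ((measurable_pres.comp mU0).sub (measurable_pres.comp mV0)).abs).aestronglyMeasurable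
      · rw [Real.norm_eq_abs, abs_of_nonneg (by positivity)]
        exact hpt x
    filter_upwards [key hRef hS hδ hdist, slice] with t h1 h2 ht
    obtain ⟨k1, k2, k3⟩ := h1 ht.1 ht.2
    rw [h2 ht]
    have mt : Measurable (fun x : ℝ => (x, t)) := by fun_prop
    have i1 : IntegrableOn (fun x => |dens (W (x, t)) - dens (W' (x, t))|) (Icc (-R) R) :=
      integrableOn_bd ((hS.mr.comp mt).sub (hS'.mr.comp mt)).abs (C := B.rb + B.rb) (fun x => by
        rw [abs_abs]
        exact (abs_sub _ _).trans (add_le_add (hS.box _).abs_r (hS'.box _).abs_r)) _ _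
    have i2 : IntegrableOn (fun x => |vel (W (x, t)) - vel (W' (x, t))|) (Icc (-R) R) :=
      integrableOn_bd ((hS.mu.comp mt).sub (hS'.mu.comp mt)).abs (C := B.ub + B.ub) (fun x => by
        rw [abs_abs]
        exact (abs_sub _ _).trans (add_le_add (hS.box _).2.1 (hS'.box _).2.1)) _ _
    have i3 : IntegrableOn (fun x => |pres γ (W (x, t)) - pres γ (W' (x, t))|) (Icc (-R) R) :=
      integrableOn_bd ((hS.mp.comp mt).sub (hS'.mp.comp mt)).abs (C := B.pb + B.pb) (fun x => by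
        rw [abs_abs]
        exact (abs_sub _ _).trans (add_le_add (hS.box _).abs_p (hS'.box _).abs_p)) _ _
    have i12 : IntegrableOn (fun x => |dens (W (x, t)) - dens (W' (x, t))| +
      |vel (W (x, t)) - vel (W' (x, t))|) (Icc (-R) R) := i1.add i2
    have i123 : IntegrableOn (fun x => c * (|dens (W (x, t)) - dens (W' (x, t))| +
      |vel (W (x, t)) - vel (W' (x, t))| + |pres γ (W (x, t)) - pres γ (W' (x, t))|))
      (Icc (-R) R) := (i12.add i3).const_mul c
    have hpt : ∀ x, ‖W (x, t) - W' (x, t)‖ ≤ c * (|dens (W (x, t)) - dens (W' (x, t))| +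
        |vel (W (x, t)) - vel (W' (x, t))| + |pres γ (W (x, t)) - pres γ (W' (x, t))|) := by
      intro x
      rw [hc]
      exact cons_lip hγ (hKO (hWK _)) (hKO (hW'K _)) (hB _ (hWK _)) (hB _ (hW'K _))
    have i4 : IntegrableOn (fun x => ‖W (x, t) - W' (x, t)‖) (Icc (-R) R) := by
      refine Integrable.mono' i123 ((mW.comp mt).sub (mW'.comp mt)).norm.aestronglyMeasurable ?_
      refine Filter.Eventually.of_forall fun x => ?_
      rw [norm_norm]
      exact hpt x
    have e1 := integral_mono i4 i123 hpt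
    rw [integral_const_mul, integral_add i12 i3, integral_add i1 i2] at e1
    refine e1.trans ?_
    have e2 : (∫ x in Icc (-R) R, |dens (W (x, t)) - dens (W' (x, t))|) +
        (∫ x in Icc (-R) R, |vel (W (x, t)) - vel (W' (x, t))|) +
        (∫ x in Icc (-R) R, |pres γ (W (x, t)) - pres γ (W' (x, t))|) ≤
        3 * (A * Real.sqrt (Λ * D)) := by linarith
    refine (mul_le_mul_of_nonneg_left e2 hc0).trans ?_
    rw [hsq]
    have e3 : (3 * c * A + 4 * R * |CK|) * Real.sqrt Λ * Real.sqrt D =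
        c * (3 * (A * (Real.sqrt Λ * Real.sqrt D))) +
        4 * R * |CK| * (Real.sqrt Λ * Real.sqrt D) := by ring
    rw [e3]
    have e4 : 0 ≤ 4 * R * |CK| * (Real.sqrt Λ * Real.sqrt D) := by positivity
    linarith
  · rw [not_le] at hδ
    filter_upwards [slice] with t h2 ht
    rw [h2 ht]
    have hCKa := le_abs_self CK
    have mt : Measurable (fun x : ℝ => (x, t)) := by fun_prop
    have i4 : IntegrableOn (fun x => ‖W (x, t) - W' (x, t)‖) (Icc (-R) R) := by
      refine integrableOn_bd ((mW.comp mt).sub (mW'.comp mt)).norm (C := CK + CK) (fun x => ?_) _ _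
      rw [abs_of_nonneg (norm_nonneg _)]
      exact (norm_sub_le _ _).trans (add_le_add (hCK _ (hWK _)) (hCK _ (hW'K _)))
    have e1 : ∫ x in Icc (-R) R, ‖W (x, t) - W' (x, t)‖ ≤ ∫ x in Icc (-R) R, 2 * |CK| := by
      refine integral_mono i4 (integrableOn_const (by simp)) fun x => ?_
      refine (norm_sub_le _ _).trans ?_
      have k1 := hCK _ (hWK (x, t))
      have k2 := hCK _ (hW'K (x, t))
      linarith
    rw [setIntegral_const, smul_eq_mul, Measure.real, Real.volume_Icc,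
      ENNReal.toReal_ofReal (by linarith)] at e1
    refine e1.trans ?_
    have h1 : 1 ≤ Real.sqrt (Λ * D) := by
      rw [Real.one_le_sqrt]
      exact hδ.le
    rw [hsq] at h1
    have e3 : (3 * c * A + 4 * R * |CK|) * Real.sqrt Λ * Real.sqrt D =
        (3 * c * A + 4 * R * |CK|) * (Real.sqrt Λ * Real.sqrt D) := by ring
    rw [e3]
    have h5 : 0 ≤ 3 * c * A + 4 * R * |CK| := by positivity
    have h6 : (3 * c * A + 4 * R * |CK|) * 1 ≤
        (3 * c * A + 4 * R * |CK|) * (Real.sqrt Λ * Real.sqrt D) :=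
      mul_le_mul_of_nonneg_left h1 h5
    have h7 : 0 ≤ 3 * c * A := by positivity
    nlinarith

end

end Pool.Agent.helper23_Euler
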