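import Mathlib
import Pool.Agent.helper23_Euler.SF

open MeasureTheory Set Filter Topology
open scoped ContDiff Convolution ENNReal NNReal

namespace Pool.Agent.helper23_Euler

noncomputable section

variable {γ cv T : ℝ}

/-- uniqueness of shock-free solutions -/
theorem uniq_St (hγ : 1 < γ) (hcv : 0 < cv) (hT : 0 < T) {V U : ℝ × ℝ → St} {V0 : ℝ → St}
    (hV0 : BVDatum V0) (hV : EntropySol γ cv T V V0) (hVK : CompactValued T V)
    (hVB : BVBounded T V) {c : ℝ} (hS : ShockFree γ T c V) (hU : EntropySol γ cv T U V0)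
    (hUK : CompactValued T U) (hent : BVBounded T U ∨ EntInit γ cv T U V0) :
    ∀ᵐ z ∂(volume.restrict (strip T)), U z = V z := by
  obtain ⟨hBV0, K0, hK0c, hK0O, hK0⟩ := hV0
  obtain ⟨K1, hK1c, hK1O, hK1⟩ := hVK
  obtain ⟨K2, hK2c, hK2O, hK2⟩ := hUK
  obtain ⟨CB, hCB⟩ := hVB
  obtain ⟨K, hK⟩ : ∃ K, K = K0 ∪ (K1 ∪ K2) := ⟨_, rfl⟩
  have hKc : IsCompact K := by rw [hK]; exact hK0c.union (hK1c.union hK2c)
  have hKO : K ⊆ Om := by rw [hK]; exact union_subset hK0O (union_subset hK1O hK2O)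
  have s0 : K0 ⊆ K := by rw [hK]; exact subset_union_left
  have s1 : K1 ⊆ K := by rw [hK]; exact subset_union_left.trans subset_union_right
  have s2 : K2 ⊆ K := by rw [hK]; exact subset_union_right.trans subset_union_right
  have hV0K : ∀ x, V0 x ∈ K := fun x => s0 (hK0 x)
  have hVK : ∀ᵐ z ∂(volume.restrict (strip T)), V z ∈ K := by
    filter_upwards [hK1] with z hz using s1 hz
  have hUK : ∀ᵐ z ∂(volume.restrict (strip T)), U z ∈ K := by
    filter_upwards [hK2] with z hz using s2 hz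
  have mV0 : Measurable V0 := BVDatum.measurable ⟨hBV0, K, hKc, hKO, hV0K⟩
  obtain ⟨M, hM⟩ : ∃ M : ℝ≥0, M = CB + (eVariationOn V0 univ).toNNReal := ⟨_, rfl⟩
  have hM1 : TVle M T V := by
    filter_upwards [hCB] with t ht
    obtain ⟨W, h1, h2⟩ := ht
    refine ⟨W, h1, h2.trans ?_⟩
    rw [hM]
    exact_mod_cast le_self_add
  have hM2 : eVariationOn V0 univ ≤ M := by
    rw [hM, ← ENNReal.coe_toNNReal hBV0]
    exact_mod_cast le_add_self
  have hent' : (BVBounded T U ∧ BoundedVariationOn V0 univ) ∨ EntInit γ cv T U V0 := by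
    rcases hent with h | h
    · exact Or.inl ⟨h, hBV0⟩
    · exact Or.inr h
  obtain ⟨B, hB⟩ := exists_box hγ hKc hKO
  obtain ⟨W', mW', hW'K, hVW', -⟩ := toSol hγ hcv hT hKc hKO mV0 hV0K hVK hB hV
    (Or.inl ⟨⟨CB, hCB⟩, hBV0⟩)
  obtain ⟨W, mW, hWK, hUW, -⟩ := toSol hγ hcv hT hKc hKO mV0 hV0K hUK hB hU hent'
  have key : ∀ n : ℕ, ∀ᵐ t : ℝ, t ∈ Ioo 0 T →
      ∫ x in Icc (-(n : ℝ)) n, ‖U (x, t) - V (x, t)‖ ≤ 0 := by
    intro n
    obtain ⟨C, R', hC, h⟩ := hol_St hγ hcv hT hKc hKO M c n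
    have h1 := h V U V0 V0 hV hVK hV0K hM1 hM2 hS hU hUK hV0K mV0 hent'
    rw [ae_restrict_iff' measurableSet_Ioo] at h1
    filter_upwards [h1] with t ht ht'
    simpa using ht ht'
  obtain ⟨CK, hCK⟩ := hKc.isBounded.exists_norm_le
  have slice : ∀ᵐ t : ℝ, t ∈ Ioo 0 T → ∀ᵐ x : ℝ, W (x, t) = W' (x, t) := by
    filter_upwards [ae_all_iff.2 key, slice_ae hUW, slice_ae hVW'] with t h0 h1 h2 ht
    have h3 : ∀ n : ℕ, ∀ᵐ x : ℝ, x ∈ Icc (-(n : ℝ)) n → W (x, t) = W' (x, t) := by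
      intro n
      have e : ∫ x in Icc (-(n : ℝ)) n, ‖U (x, t) - V (x, t)‖ =
          ∫ x in Icc (-(n : ℝ)) n, ‖W (x, t) - W' (x, t)‖ := by
        refine integral_congr_ae (ae_restrict_of_ae ?_)
        filter_upwards [h1 ht.1 ht.2, h2 ht.1 ht.2] with x h1 h2
        rw [h1, h2]
      have h4 := h0 n ht
      rw [e] at h4
      have mt : Measurable (fun x : ℝ => (x, t)) := by fun_prop
      have i4 : IntegrableOn (fun x => ‖W (x, t) - W' (x, t)‖) (Icc (-(n : ℝ)) n) := by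
        refine integrableOn_bd ((mW.comp mt).sub (mW'.comp mt)).norm (C := CK + CK)
          (fun x => ?_) _ _
        rw [abs_of_nonneg (norm_nonneg _)]
        exact (norm_sub_le _ _).trans (add_le_add (hCK _ (hWK _)) (hCK _ (hW'K _)))
      have h5 : ∫ x in Icc (-(n : ℝ)) n, ‖W (x, t) - W' (x, t)‖ = 0 :=
        le_antisymm h4 (integral_nonneg fun _ => norm_nonneg _)
      have h6 := (integral_eq_zero_iff_of_nonneg_ae
        (Filter.Eventually.of_forall fun _ => norm_nonneg _) i4).1 h5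
      rw [Filter.EventuallyEq, ae_restrict_iff' measurableSet_Icc] at h6
      filter_upwards [h6] with x hx hxn
      have := hx hxn
      rw [Pi.zero_apply, norm_eq_zero, sub_eq_zero] at this
      exact this
    filter_upwards [ae_all_iff.2 h3] with x hx
    obtain ⟨n, hn⟩ := exists_nat_gt |x|
    exact hx n (abs_le.1 hn.le)
  have mN : MeasurableSet {z : ℝ × ℝ | z.1 ∈ Ioo 0 T → W (z.2, z.1) = W' (z.2, z.1)} := by
    have m1 : Measurable (fun z : ℝ × ℝ => W (z.2, z.1)) :=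
      mW.comp (measurable_snd.prodMk measurable_fst)
    have m2 : Measurable (fun z : ℝ × ℝ => W' (z.2, z.1)) :=
      mW'.comp (measurable_snd.prodMk measurable_fst)
    have h1 : MeasurableSet {z : ℝ × ℝ | W (z.2, z.1) = W' (z.2, z.1)} :=
      measurableSet_eq_fun m1 m2
    have h2 : MeasurableSet {z : ℝ × ℝ | z.1 ∈ Ioo 0 T} := measurable_fst measurableSet_Ioo
    have e : {z : ℝ × ℝ | z.1 ∈ Ioo 0 T → W (z.2, z.1) = W' (z.2, z.1)} =
        {z : ℝ × ℝ | z.1 ∈ Ioo 0 T}ᶜ ∪ {z : ℝ × ℝ | W (z.2, z.1) = W' (z.2, z.1)} := by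
      ext z
      simp only [mem_ofPred_eq, mem_union, mem_compl_iff]
      tauto
    rw [e]
    exact h2.compl.union h1
  have hae : ∀ᵐ z : ℝ × ℝ ∂(volume.prod volume), z.1 ∈ Ioo 0 T → W (z.2, z.1) = W' (z.2, z.1) := by
    rw [Measure.ae_prod_iff_ae_ae mN]
    filter_upwards [slice] with t ht
    by_cases hT' : t ∈ Ioo 0 T
    · filter_upwards [ht hT'] with x hx _ using hx
    · exact Filter.Eventually.of_forall fun x h => absurd h hT'
  have hae2 : ∀ᵐ z : ℝ × ℝ ∂(volume.prod volume), z.2 ∈ Ioo 0 T → W z = W' z := by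
    have := (Measure.measurePreserving_swap (μ := (volume : Measure ℝ))
      (ν := (volume : Measure ℝ))).quasiMeasurePreserving.ae hae
    filter_upwards [this] with z hz hz2
    exact hz hz2
  rw [← Measure.volume_eq_prod] at hae2
  filter_upwards [hUW, hVW', ae_restrict_of_ae hae2, ae_restrict_mem (measurableSet_strip T)]
    with z h1 h2 h3 h4
  rw [h1, h2]
  exact h3 ⟨h4.1, h4.2⟩

end

end Pool.Agent.helper23_Euler
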